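import Mathlib

/-!
# Hankel determinants of well-poised forms in odd zeta values: definitions and module statements

Centred coordinate `v = t + b`.  Rational function
`R(v) = 2 v * (∏_{a ≤ |u| ≤ b-1} (v+u))^B / (∏_{|u| ≤ a-1} (v+u))^q`, odd in `v`,
`r`-th derivative (`r` even), `q` even, `B ≥ r+1`.
-/

open Polynomial Finset

namespace Z579

/-- the outer points `a ≤ |u| ≤ b-1` (zeros of order `B` of `R` at `v = -u`) -/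
noncomputable def oc (a b : ℕ) : Finset ℤ :=
  Finset.Icc (1 - (b : ℤ)) (-(a : ℤ)) ∪ Finset.Icc (a : ℤ) ((b : ℤ) - 1)

/-- the inner points `|u| ≤ a-1` (poles of order `q` of `R` at `v = -u`) -/
noncomputable def pc (a : ℕ) : Finset ℤ := Finset.Icc (1 - (a : ℤ)) ((a : ℤ) - 1)

/-- the power series `x + c` -/
noncomputable def lin (c : ℤ) : PowerSeries ℚ := PowerSeries.X + PowerSeries.C (c : ℚ)

/-- expansion of `(v+u)^q R(v)` at `v = -u + x` -/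
noncomputable def base (q B a b : ℕ) (u : ℤ) : PowerSeries ℚ :=
  2 * lin (-u) * (∏ w ∈ oc a b, lin (w - u)) ^ B * ((∏ w ∈ (pc a).erase u, lin (w - u))⁻¹) ^ q

/-- `Acoef u i G` is the coefficient of `(v+u)^(-i)` in the partial fraction expansion of
`R(v) G(v^2)`. -/
noncomputable def Acoef (q B a b : ℕ) (u : ℤ) (i : ℕ) : ℚ[X] →ₗ[ℚ] ℚ :=
  (PowerSeries.coeff (R := ℚ) (q - i)) ∘ₗ (LinearMap.mulLeft ℚ (base q B a b u)) ∘ₗ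
    (Polynomial.aeval (lin (-u) ^ 2)).toLinearMap

lemma Acoef_apply (q B a b : ℕ) (u : ℤ) (i : ℕ) (G : ℚ[X]) :
    Acoef q B a b u i G =
      PowerSeries.coeff (q - i) (base q B a b u * Polynomial.aeval (lin (-u) ^ 2) G) := rfl

/-- The linear functional with weights `ω u i`. -/
noncomputable def Lw (r q B a b : ℕ) (ω : ℤ → ℕ → ℚ) : ℚ[X] →ₗ[ℚ] ℚ :=
  ∑ u ∈ pc a, ∑ i ∈ Finset.Icc 1 q, ((Nat.choose (i + r - 1) r : ℚ) * ω u i) • Acoef q B a b u i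

lemma Lw_apply (r q B a b : ℕ) (ω : ℤ → ℕ → ℚ) (G : ℚ[X]) :
    Lw r q B a b ω G = ∑ u ∈ pc a, ∑ i ∈ Finset.Icc 1 q,
      ((Nat.choose (i + r - 1) r : ℚ) * ω u i) * Acoef q B a b u i G := by
  simp [Lw, LinearMap.sum_apply]

/-- generalised harmonic numbers `∑_{k=1}^{n} k^{-s}` -/
def Hs (s n : ℕ) : ℚ := ∑ k ∈ Finset.range n, 1 / ((k : ℚ) + 1) ^ s

/-- the weights `Q (z_{i+r} - H^{(i+r)}_{u+a-1})` -/
def wt (r a Q : ℕ) (z : ℕ → ℚ) (u : ℤ) (i : ℕ) : ℚ :=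
  (Q : ℚ) * (z (i + r) - Hs (i + r) (u + a - 1).toNat)

/-- Hankel determinant of a linear functional -/
noncomputable def hank (L : ℚ[X] →ₗ[ℚ] ℚ) (m : ℕ) : ℚ :=
  Matrix.det (Matrix.of fun i j : Fin m => L (X ^ ((i : ℕ) + (j : ℕ))))

/-- `x` is zero or has `p`-adic valuation at least `c` -/
def VG (p : ℕ) (c : ℝ) (x : ℚ) : Prop := x = 0 ∨ c ≤ (padicValRat p x : ℝ)

/-- zeta values as real series -/
noncomputable def zr (s : ℕ) : ℝ := ∑' n : ℕ, 1 / ((n : ℝ) + 1) ^ s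

/-- `z` is a rational realisation of the odd zeta values `ζ(r+3), ζ(r+5), ..., ζ(r+q-1)`,
zero elsewhere -/
def IsZ (r q : ℕ) (z : ℕ → ℚ) : Prop :=
  ∀ s, (z s : ℝ) = if Odd s ∧ r + 3 ≤ s ∧ s ≤ r + q - 1 then zr s else 0

/-! ## M0: basis independence -/

/-- M0: the Hankel determinant in any monic basis. -/
def M0 : Prop := ∀ (L : ℚ[X] →ₗ[ℚ] ℚ) (m : ℕ) (P : ℕ → ℚ[X]),
  (∀ i, (P i).Monic) → (∀ i, (P i).natDegree = i) →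
  hank L m = Matrix.det (Matrix.of fun i j : Fin m => L (P i * P j))

/-! ## M1: analytic identity -/

/-- the rational function -/
noncomputable def Rc (q B a b : ℕ) (v : ℂ) : ℂ :=
  2 * v * (∏ w ∈ oc a b, (v + (w : ℂ))) ^ B / (∏ w ∈ pc a, (v + (w : ℂ))) ^ q

/-- the kernel `∑_n (t+n)^{-(r+1)}` -/
noncomputable def Ker (r : ℕ) (t : ℂ) : ℂ := ∑' n : ℤ, 1 / (t + (n : ℂ)) ^ (r + 1)

/-- the point `t = -1/2 + i y` of the contour -/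
noncomputable def tt (y : ℝ) : ℂ := -(1 / 2) + (y : ℂ) * Complex.I

/-- M1: integral representation. -/
def M1 : Prop := ∀ (r q B a b : ℕ) (z : ℕ → ℚ) (G : ℚ[X]),
  Even r → 2 ≤ r → Even q → 2 ≤ q → 1 ≤ a → a ≤ b → r + 1 ≤ B →
  2 * B * (b - a) + 2 * G.natDegree + 3 ≤ q * (2 * a - 1) → IsZ r q z →
  ((Lw r q B a b (wt r a 1 z) G : ℚ) : ℂ) =
    -(1 / (2 * Real.pi)) * ∫ y : ℝ, Rc q B a b (b + tt y) *
      Polynomial.aeval ((b + tt y) ^ 2) G * Ker r (tt y)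

/-! ## M2: archimedean bound for `{5,7,9}`: `r = 2, q = 8, B = 3, b = 2a` -/

/-- The bounding exponents: `ch s = max (l1 s) (l2 s)`, lines through
`(0,-19/2), (7/3,-47/5)` and `(7/3,-47/5), (14/3,-37/5)`. -/
noncomputable def ch (s : ℝ) : ℝ :=
  max (-19 / 2 + (3 / 70) * s) (-47 / 5 + (6 / 7) * (s - 7 / 3))

/-- M2: upper bound for the shifted moments. -/
def M2 : Prop := ∃ C : ℝ, ∀ (a j : ℕ) (z : ℕ → ℚ), 1 ≤ a → 3 * j + 3 ≤ 14 * a → IsZ 2 8 z →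
  |((Lw 2 8 3 a (2 * a) (wt 2 a 1 z) ((X - Polynomial.C (4 * (a : ℚ) ^ 2)) ^ j) : ℚ) : ℝ)| ≤
    Real.exp (C * Real.log (a + 1) + (2 * (j : ℝ) - 10 * a) * Real.log a + a * ch (j / a))

/-! ## M4: p-adic class lemma -/

/-- `S(c) = B * #{outer points ≡ c} - q * #{inner points ≡ c}` -/
noncomputable def Scl (p q B a b : ℕ) (c : ℤ) : ℤ :=
  (B : ℤ) * ((oc a b).filter fun w => (p : ℤ) ∣ w - c).card -
    (q : ℤ) * ((pc a).filter fun w => (p : ℤ) ∣ w - c).card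

/-- the set of representatives of residue classes modulo `p` up to sign -/
noncomputable def Ip (p : ℕ) : Finset ℤ := Finset.Icc 0 (((p - 1) / 2 : ℕ) : ℤ)

/-- M4a: class lemma, all classes. -/
def M4a : Prop := ∀ (p r q B a b : ℕ) (ω : ℤ → ℕ → ℚ) (N : ℤ → ℕ) (G₀ : ℤ[X]) (t : ℝ),
  p.Prime → p ≠ 2 → 1 ≤ a → a ≤ b → a + b ≤ p ^ 2 → 1 ≤ q →
  (∀ u ∈ pc a, ∀ i : ℕ, 1 ≤ i → i ≤ q → VG p (-((i : ℝ) + r)) (ω u i)) →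
  (∀ c ∈ Ip p, (∃ u ∈ pc a, (p : ℤ) ∣ u - c) → t ≤ (Scl p q B a b c : ℝ) + N c - r) →
  VG p t (Lw r q B a b ω
    ((∏ c ∈ Ip p, (X - Polynomial.C ((c : ℚ) ^ 2)) ^ (N c)) * G₀.map (Int.castRingHom ℚ)))

/-- M4b: class lemma for `p ≥ a`: classes with one pole only give integral contributions. -/
def M4b : Prop := ∀ (p r q B a b : ℕ) (ω : ℤ → ℕ → ℚ) (N : ℤ → ℕ) (G₀ : ℤ[X]) (t : ℝ),
  p.Prime → p ≠ 2 → 1 ≤ a → a ≤ b → a + b ≤ p ^ 2 → 1 ≤ q →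
  (∀ u ∈ pc a, ∀ i : ℕ, 1 ≤ i → i ≤ q → VG p (-((i : ℝ) + r)) (ω u i)) →
  (∀ u ∈ pc a, u + a - 1 < p → ∀ i : ℕ, 1 ≤ i → i ≤ q → VG p 0 (ω u i)) →
  t ≤ 0 →
  (∀ c ∈ Ip p, 2 ≤ ((pc a).filter fun w => (p : ℤ) ∣ w - c).card →
    t ≤ (Scl p q B a b c : ℝ) + N c - r) →
  VG p t (Lw r q B a b ω
    ((∏ c ∈ Ip p, (X - Polynomial.C ((c : ℚ) ^ 2)) ^ (N c)) * G₀.map (Int.castRingHom ℚ)))

/-- M4c: valuations of harmonic numbers. -/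
def M4c : Prop := ∀ (p s n : ℕ), p.Prime → VG p (-((s : ℝ) * Nat.log p n)) (Hs s n)

/-! ## M5: greedy determinant lemmas -/

/-- M5a -/
def M5a : Prop := ∀ (p : ℕ) (L : ℚ[X] →ₗ[ℚ] ℚ) (I : Finset ℤ) (x : ℤ → ℚ) (e : ℤ → ℝ) (m : ℕ)
  (l : ℝ), p.Prime → I.Nonempty →
  (∀ (N : ℤ → ℕ) (t : ℝ), (∀ c ∈ I, t ≤ N c - e c) →
    VG p t (L (∏ c ∈ I, (X - Polynomial.C (x c)) ^ (N c)))) →
  VG p (-(l * m + 1 / 4 * ∑ c ∈ I, (e c + 1 - l) ^ 2)) (hank L m)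

/-- M5b: version with a floor at `0`, `J ⊆ I` the relevant classes. -/
def M5b : Prop := ∀ (p : ℕ) (L : ℚ[X] →ₗ[ℚ] ℚ) (J : Finset ℤ) (x : ℤ → ℚ) (e : ℤ → ℝ)
  (m : ℕ) (l : ℝ), p.Prime → 0 ≤ l →
  (∀ (N : ℤ → ℕ) (k : ℕ) (t : ℝ), t ≤ 0 → (∀ c ∈ J, t ≤ N c - e c) →
    VG p t (L ((∏ c ∈ J, (X - Polynomial.C (x c)) ^ (N c)) * X ^ k))) →
  VG p (-(l * m + 1 / 4 * ∑ c ∈ J, (e c + 1 - l) ^ 2)) (hank L m)

/-! ## M6: valuations of the Hankel determinant -/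

/-- M6a (`p ≤ a`, not too small): general parameters. -/
def M6a : Prop := ∀ (p r q B a b m : ℕ) (ω : ℤ → ℕ → ℚ),
  p.Prime → p ≠ 2 → p ≤ a → a ≤ b → a + b ≤ p ^ 2 → 1 ≤ q →
  (∀ u ∈ pc a, ∀ i : ℕ, 1 ≤ i → i ≤ q → VG p (-((i : ℝ) + r)) (ω u i)) →
  VG p (-(((r : ℝ) + 1) * m + ((2 * q * a - 2 * B * ((b : ℝ) - a)) * m - 2 * m ^ 2) / p
    + (2 * B + q) ^ 2 / 32 * p + 1 / 8 * (4 * m / p + 2 * B + q) ^ 2))
    (hank (Lw r q B a b ω) m)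

/-- M6b (`a ≤ p ≤ 3a/2`), parameters of `{5,7,9}`. -/
def M6b : Prop := ∀ (p a m : ℕ) (ω : ℤ → ℕ → ℚ),
  p.Prime → p ≠ 2 → a ≤ p → 2 * p + 1 ≤ 3 * a → 3 * a ≤ p ^ 2 →
  (∀ u ∈ pc a, ∀ i : ℕ, 1 ≤ i → i ≤ 8 → VG p (-((i : ℝ) + 2)) (ω u i)) →
  (∀ u ∈ pc a, u + a - 1 < p → ∀ i : ℕ, 1 ≤ i → i ≤ 8 → VG p 0 (ω u i)) →
  VG p (-(3 * m + 11 / 2 * a + 7 * p)) (hank (Lw 2 8 3 a (2 * a) ω) m)

/-- M6c (`3a/2 ≤ p < 2a-1`), parameters of `{5,7,9}`. -/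
def M6c : Prop := ∀ (p a m : ℕ) (ω : ℤ → ℕ → ℚ),
  p.Prime → p ≠ 2 → 3 * a ≤ 2 * p + 1 → p ≤ 2 * a → 3 * a ≤ p ^ 2 →
  (∀ u ∈ pc a, ∀ i : ℕ, 1 ≤ i → i ≤ 8 → VG p (-((i : ℝ) + 2)) (ω u i)) →
  (∀ u ∈ pc a, u + a - 1 < p → ∀ i : ℕ, 1 ≤ i → i ≤ 8 → VG p 0 (ω u i)) →
  VG p (-(361 / 8 * (2 * (a : ℝ) - p))) (hank (Lw 2 8 3 a (2 * a) ω) m)

/-- M6d (`p ≥ 2a-1`), general parameters. -/
def M6d : Prop := ∀ (p r q B a b m : ℕ) (ω : ℤ → ℕ → ℚ),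
  p.Prime → 2 * a ≤ p + 1 → 1 ≤ a → a ≤ b → 1 ≤ q →
  (∀ u ∈ pc a, ∀ i : ℕ, 1 ≤ i → i ≤ q → VG p 0 (ω u i)) →
  VG p 0 (hank (Lw r q B a b ω) m)

/-- M6e (small primes), general parameters; `K = ⌊log_p(2(a+b+m))⌋`. -/
def M6e : Prop := ∀ (r q B : ℕ), ∃ C : ℝ, 0 ≤ C ∧ ∀ (p a b m : ℕ) (ω : ℤ → ℕ → ℚ),
  p.Prime → 1 ≤ a → a ≤ b → 1 ≤ q →
  (∀ u ∈ pc a, ∀ i : ℕ, 1 ≤ i → i ≤ q →
    VG p (-(((i : ℝ) + r) * (Nat.log p (2 * (a + b + m))))) (ω u i)) →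
  VG p (-(((2 * q * a - 2 * B * ((b : ℝ) - a)) * m - 2 * m ^ 2) / (p - 1)
    + C * (1 + Nat.log p (2 * (a + b + m))) * m)) (hank (Lw r q B a b ω) m)

/-! ## M7: prime number sums (consequences of the PNT) -/

/-- M7a: `∑_{p ≤ n} log p/(p-1) ≤ log n - c + ε` with `c = H_8 - log 8 - 1/8 > 51/100`. -/
def M7a : Prop := ∀ ε : ℝ, 0 < ε → ∃ n₀ : ℕ, ∀ n : ℕ, n₀ ≤ n →
  ∑ p ∈ (Finset.Icc 1 n).filter Nat.Prime, Real.log p / ((p : ℝ) - 1) ≤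
    Real.log n - 51 / 100 + ε

/-- M7b: Riemann-Stieltjes limits. -/
def M7b : Prop := ∀ (α β : ℝ) (f : ℝ → ℝ), 0 ≤ α → α ≤ β → ContinuousOn f (Set.Icc α β) →
  Filter.Tendsto (fun x : ℝ => (∑ p ∈ (Finset.Ioc ⌊α * x⌋₊ ⌊β * x⌋₊).filter Nat.Prime,
    f (p / x) * Real.log p) / x) Filter.atTop (nhds (∫ t in α..β, f t))

/-! ## M8: nonvanishing -/

/-- local coefficients: `[x^k] (x + 1)^B x^n (x-1)^(-q)` in `ℚ⟦x⟧` -/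
noncomputable def al (q B n k : ℕ) : ℚ :=
  PowerSeries.coeff k ((lin 1) ^ B * PowerSeries.X ^ n * ((lin (-1))⁻¹) ^ q)

/-- local coefficients at the second pole: `[x^k] (x + 2)^B (x+1)^n (x+1)^(-q)` -/
noncomputable def be (q B n k : ℕ) : ℚ :=
  PowerSeries.coeff k ((lin 2) ^ B * (lin 1) ^ n * ((lin 1)⁻¹) ^ q)

/-- local moments -/
noncomputable def lmom (r q B n : ℕ) : ℚ :=
  ∑ i ∈ Finset.Icc 1 q, (Nat.choose (i + r - 1) r : ℚ) *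
    (al q B n (q - i) + (-1) ^ (i + 1) * be q B n (q - i))

/-- local Hankel determinant -/
noncomputable def lhank (r q B N : ℕ) : ℚ :=
  Matrix.det (Matrix.of fun i j : Fin N => lmom r q B ((i : ℕ) + (j : ℕ)))

/-- M8: nonvanishing at a special prime. -/
def M8 : Prop := ∀ (r q B N : ℕ), Even r → 2 ≤ r → Even q → 2 ≤ q → r + 1 ≤ B →
  B + 2 * N ≤ r + 2 * q + 1 → lhank r q B N ≠ 0 → ∃ p₀ : ℕ, ∀ (p a b m : ℕ) (z : ℕ → ℚ),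
  p₀ ≤ p → p.Prime → 2 * b = 3 * p + 1 → a ≤ p → p + 1 ≤ 2 * a → a ≤ b →
  2 * m = N * (2 * a - 1 - p) → (∀ s, VG p 0 (z s)) →
  hank (Lw r q B a b (wt r a 1 z)) m ≠ 0

end Z579
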