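import Pool.Agent.Lib.Z579.BE7

/-!
# BE8: the archimedean bound for two-block determinants, conclusion
-/

open Finset Polynomial

namespace Z579

namespace BE

open EM Arch Z579.Num

variable {P : BPar}

lemma double_sum_eq (s : Finset ℕ) (cA cB : ℕ → ℝ) (K : ℕ → ℕ → ℝ) :
    (∑ x ∈ s, ∑ x' ∈ s, (∑ b : Bool, cond b (cB x) (cA x)) * (∑ b : Bool, cond b (cB x') (cA x')) *
      K x x') + ∑ b : Bool, ∑ x ∈ s, ∑ x' ∈ s, cond b (cB x) (cA x) * cond b (cB x') (cA x') *
        K x x' =
    ∑ x ∈ s, cA x * (∑ x' ∈ s, cA x' * K x x' + ∑ x' ∈ s, cB x' * K x x' +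
        ∑ x' ∈ s, cA x' * K x x') +
      ∑ x ∈ s, cB x * (∑ x' ∈ s, cA x' * K x x' + ∑ x' ∈ s, cB x' * K x x' +
        ∑ x' ∈ s, cB x' * K x x') := by
  simp only [Fintype.sum_bool, cond_true, cond_false]
  rw [← Finset.sum_add_distrib, ← Finset.sum_add_distrib, ← Finset.sum_add_distrib]
  refine Finset.sum_congr rfl fun x _ => ?_
  rw [← Finset.sum_add_distrib, ← Finset.sum_add_distrib, ← Finset.sum_add_distrib,
    ← Finset.sum_add_distrib, ← Finset.sum_add_distrib, Finset.mul_sum, Finset.mul_sum,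
    ← Finset.sum_add_distrib]
  exact Finset.sum_congr rfl fun x' _ => by ring

/-- the archimedean bound -/
theorem arch_of (hP : P.Ok) {A0 : ℝ} (c : BCert P A0) (β : ℕ → ℚ) : ∀ δ : ℝ, 0 < δ →
    ∃ k0 : ℕ, ∀ k : ℕ, k0 ≤ k →
    ∀ (e : (Σ _ : Bool, Fin (P.mu * k + P.m0)) ≃ Fin (2 * (P.mu * k + P.m0))),
    ‖Matrix.det (Matrix.of fun i j : (Σ _ : Bool, Fin (P.mu * k + P.m0)) =>
      LC (momF P.q (P.al * k + P.a0) β j.1) (X ^ ((e i : ℕ) + (j.2 : ℕ))))‖ ≤
    Real.exp (k ^ 2 * ((6 * P.mu ^ 2 - 4 * P.q * P.al * P.mu) * Real.log k + A0 + δ)) := by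
  intro δ hδ
  obtain ⟨C1, k1, hC1, h1⟩ := pointwise hP c
  obtain ⟨C2, hC2, h2⟩ := const_bound P β
  obtain ⟨C3, hC3, h3⟩ := energy_block hP false c.eL c.eR c.enA
  obtain ⟨C4, hC4, h4⟩ := energy_block hP true c.fL c.fR c.enB
  set E : ℝ := |∑ i ∈ range c.Y0, (c.sR i - c.sL i)| with hE
  have hE0 : 0 ≤ E := abs_nonneg _
  set G : ℝ := |c.lA| + |c.lB| + 2 * |(6 * P.mu - 2 * P.q * P.al : ℝ)| with hG
  have hG0 : 0 ≤ G := by positivity
  set C5 : ℝ := C2 + 2 * P.mu * C1 + 2 * E + P.m0 * (2 * G + 2 * C1) + (C3 + C4) / 2 with hC5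
  obtain ⟨k0, hk0⟩ := eventually_klog C5 δ hδ
  refine ⟨max (max k0 k1) 1, fun k hk => ?_⟩
  have hk1 : 1 ≤ k := (le_max_right _ _).trans hk
  have hkk1 : k1 ≤ k := ((le_max_right _ _).trans (le_max_left _ _)).trans hk
  have hkk := hk0 k (((le_max_left _ _).trans (le_max_left _ _)).trans hk)
  have hkp : (0 : ℝ) < k := by exact_mod_cast hk1
  have hk1' : (1 : ℝ) ≤ k := by exact_mod_cast hk1
  set Lg := Real.log ((k : ℝ) + 1) with hLg
  have hLg2 : 1 / 2 ≤ Lg := half_le_log hk1
  set K : ℕ := P.mu * k + P.m0 with hK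
  set a : ℕ := P.al * k + P.a0 with ha
  intro e
  have ha1 : 1 ≤ a := by have := hP.a01; omega
  have hdeg : 2 * (2 * K + K) + 1 ≤ P.q * (2 * a - 1) := by
    have g1 := hP.deg
    have g2 := hP.deg0
    have g3 : 2 * a - 1 = 2 * (P.al * k) + (2 * P.a0 - 1) := by have := hP.a01; omega
    rw [g3, hK, Nat.mul_add]
    have g4 := Nat.mul_le_mul_right k g1
    nlinarith
  -- the energy method
  have hmain := block_energy (β := Bool) (fun _ => K) (2 * K) e
    (fun b => LC (momF P.q a β b)) a (St a) (wt2 P.q a)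
    (fun b y => by
      cases b
      · exact wA_nonneg _ _ _
      · exact wB_nonneg _ _ _)
    (range (P.N * k)) (fun x => (x : ℂ)) (fun b x => cond b (cw P k true x) (cw P k false x))
    (fun b => by
      cases b
      · exact cw_mass hP hk1 false
      · exact cw_mass hP hk1 true)
    (fun Z => exists_row ha1 Z)
    (fun b Z => by
      cases b
      · exact exists_site a Z
      · exact exists_node ha1 Z)
    (CS + CB P.q a (2 * K) K β) (add_nonneg CS_nonneg (CB_nonneg _ _ _ _ _))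
    (fun b Z Z' hm hm' V V' hV0 hV0' hV hV' => by
      cases b
      · have := entryA (q := P.q) ha1 hdeg _ Z Z' hm hm' V V' hV0 hV0' hV hV'
        refine this.trans ?_
        have g := CB_nonneg P.q a (2 * K) K β
        have g2 := mul_nonneg (mul_nonneg g hV0) hV0'
        nlinarith
      · have := entryB (q := P.q) ha1 β _ Z Z' hm hm' V V' hV0 hV0' hV hV'
        refine this.trans ?_
        have g2 := mul_nonneg (mul_nonneg CS_nonneg hV0) hV0'
        nlinarith)
    (fun Z hZ => by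
      obtain ⟨V, hV⟩ := bdR (range (P.N * k)) (fun x => (x : ℂ))
        (fun x => ∑ b : Bool, cond b (cw P k true x) (cw P k false x))
        (fun x _ => by
          rw [Fintype.sum_bool]
          exact add_nonneg (cw_nonneg hP k true x) (cw_nonneg hP k false x))
        (M := 2 * K) (by
          simp only [Fintype.sum_bool, cond_true, cond_false]
          rw [Finset.sum_add_distrib, cw_mass hP hk1, cw_mass hP hk1, ← hK]
          push_cast
          ring) Z hZ
      exact ⟨V, fun y _ => hV y⟩)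
    (fun b Z hZ => by
      have hW : ∃ W : ℝ, ∀ y ∈ St a b, wt2 P.q a b y * (1 + (y : ℝ) ^ 2) ^ (2 * K + K - 1) ≤ W := by
        cases b
        · exact wA_bdd ha1 (by omega)
        · refine ⟨∑ y ∈ range a, wB P.q a y * (1 + (y : ℝ) ^ 2) ^ (2 * K + K - 1), fun y hy => ?_⟩
          exact Finset.single_le_sum (f := fun y : ℕ => wB P.q a y *
            (1 + (y : ℝ) ^ 2) ^ (2 * K + K - 1))
            (fun y _ => mul_nonneg (wB_nonneg _ _ _) (by positivity)) (mem_range.2 hy)
      obtain ⟨W, hW⟩ := hW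
      obtain ⟨V, hV⟩ := bdC (range (P.N * k)) (fun x => (x : ℂ))
        (fun x => ∑ b : Bool, cond b (cw P k true x) (cw P k false x))
        (fun x _ => by
          rw [Fintype.sum_bool]
          exact add_nonneg (cw_nonneg hP k true x) (cw_nonneg hP k false x))
        (M := 2 * K) (K := K) (N := 2 * K + K - 1) (by
          simp only [Fintype.sum_bool, cond_true, cond_false]
          rw [Finset.sum_add_distrib, cw_mass hP hk1, cw_mass hP hk1, ← hK]
          push_cast
          ring) (by omega) (S := St a b) (w := wt2 P.q a b) (W := W)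
        (fun y => by
          cases b
          · exact wA_nonneg _ _ _
          · exact wB_nonneg _ _ _) hW Z hZ
      exact ⟨V, fun y hy => hV y hy.1⟩)
    (fun b => k * cond b c.lB c.lA + (6 * P.mu - 2 * P.q * P.al) * (k * Real.log k) + C1 * Lg)
    (fun b y => cond b 0 (psiA c k y))
    (fun b y => by
      cases b
      · exact psiA_nonneg c hk1 y
      · exact le_rfl)
    (fun _ => range (c.Y0 * k))
    (fun b y hy => by
      cases b
      · exact if_neg (fun h => by omega)
      · rfl)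
    (fun b y hy => by
      cases b
      · exact if_neg (fun h => hy (mem_range.2 h.2))
      · rfl)
    (fun b y hy => by
      have g := h1 k hkk1 hk1 b y hy
      refine le_trans (le_of_eq ?_) g
      rw [mul_assoc, ← Real.exp_add]
      congr 2
      unfold PP
      simp only [Fintype.sum_bool, cond_true, cond_false]
      cases b
      · simp only [cond_false]
        rw [← Finset.sum_add_distrib, ← Finset.sum_add_distrib, ← Finset.sum_add_distrib]
        exact Finset.sum_congr rfl fun x _ => by ring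
      · simp only [cond_true]
        rw [← Finset.sum_add_distrib, ← Finset.sum_add_distrib, ← Finset.sum_add_distrib]
        exact Finset.sum_congr rfl fun x _ => by ring)
  refine hmain.trans ?_
  rw [← mul_assoc]
  have hconst := h2 k hk1
  refine (mul_le_mul_of_nonneg_right hconst (Real.exp_nonneg _)).trans ?_
  rw [← Real.exp_add, Real.exp_le_exp]
  rw [double_sum_eq (range (P.N * k)) (cw P k false) (cw P k true)
    (fun x x' => KK (x : ℂ) (x' : ℂ))]
  have g3 := h3 k hk1
  have g4 := h4 k hk1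
  have e3 : ∑ x ∈ range (P.N * k), cw P k false x * (PP P k false x + PP P k true x +
      PP P k false x) = ∑ x ∈ range (P.N * k), cw P k false x *
      (∑ x' ∈ range (P.N * k), cw P k false x' * KK (x : ℂ) (x' : ℂ) +
        ∑ x' ∈ range (P.N * k), cw P k true x' * KK (x : ℂ) (x' : ℂ) +
        ∑ x' ∈ range (P.N * k), cw P k false x' * KK (x : ℂ) (x' : ℂ)) := rfl
  have e4 : ∑ x ∈ range (P.N * k), cw P k true x * (PP P k false x + PP P k true x +
      PP P k true x) = ∑ x ∈ range (P.N * k), cw P k true x *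
      (∑ x' ∈ range (P.N * k), cw P k false x' * KK (x : ℂ) (x' : ℂ) +
        ∑ x' ∈ range (P.N * k), cw P k true x' * KK (x : ℂ) (x' : ℂ) +
        ∑ x' ∈ range (P.N * k), cw P k true x' * KK (x : ℂ) (x' : ℂ)) := rfl
  rw [← e3, ← e4]
  rw [Fintype.sum_bool]
  simp only [cond_true, cond_false, Finset.sum_const_zero, add_zero]
  have hpsi := sum_psiA_le c hk1
  rw [← hE] at hpsi
  have htot := c.tot
  have t1 := mul_le_mul_of_nonneg_left htot (sq_nonneg (k : ℝ))
  have dA : P.d false = P.cA := rfl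
  have dB : P.d true = P.cB := rfl
  rw [dA] at g3
  rw [dB] at g4
  -- the terms with `m0`
  have hlogk : Real.log k ≤ Lg := Real.log_le_log hkp (by linarith)
  have hlogk0 : 0 ≤ Real.log k := Real.log_nonneg hk1'
  have hm0 : (0 : ℝ) ≤ P.m0 := Nat.cast_nonneg _
  have hsmall : P.m0 * ((k * c.lB + (6 * P.mu - 2 * P.q * P.al) * (k * Real.log k) + C1 * Lg) +
      (k * c.lA + (6 * P.mu - 2 * P.q * P.al) * (k * Real.log k) + C1 * Lg)) ≤
      P.m0 * (2 * G + 2 * C1) * (k * Lg) := by
    rw [mul_assoc (P.m0 : ℝ) (2 * G + 2 * C1)]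
    apply mul_le_mul_of_nonneg_left _ hm0
    have q1 : k * c.lB ≤ 2 * |c.lB| * (k * Lg) := by
      have := le_abs_self c.lB
      have q := abs_nonneg c.lB
      have q' : c.lB ≤ 2 * |c.lB| * Lg := by nlinarith
      nlinarith
    have q2 : k * c.lA ≤ 2 * |c.lA| * (k * Lg) := by
      have := le_abs_self c.lA
      have q := abs_nonneg c.lA
      have q' : c.lA ≤ 2 * |c.lA| * Lg := by nlinarith
      nlinarith
    have q3 : (6 * P.mu - 2 * P.q * P.al : ℝ) * (k * Real.log k) ≤
        |(6 * P.mu - 2 * P.q * P.al : ℝ)| * (k * Lg) := by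
      refine (mul_le_mul_of_nonneg_right (le_abs_self _) (by positivity)).trans ?_
      apply mul_le_mul_of_nonneg_left _ (abs_nonneg _)
      exact mul_le_mul_of_nonneg_left hlogk hkp.le
    have q4 : C1 * Lg ≤ C1 * (k * Lg) := by
      apply mul_le_mul_of_nonneg_left _ hC1
      nlinarith
    have q5 := abs_nonneg (6 * P.mu - 2 * P.q * P.al : ℝ)
    have q6 : 0 ≤ (k : ℝ) * Lg := by positivity
    have q7 := mul_nonneg q5 q6
    rw [hG]
    nlinarith
  have hKr : (K : ℝ) = P.mu * k + P.m0 := by rw [hK]; push_cast; ring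
  have hEk : E * k ≤ 2 * E * (k * Lg) := by nlinarith [mul_nonneg hE0 hkp.le]
  have hC5' : C5 * (k * Lg) = C2 * (k * Lg) + 2 * P.mu * C1 * (k * Lg) + 2 * E * (k * Lg) +
      P.m0 * (2 * G + 2 * C1) * (k * Lg) + (C3 + C4) / 2 * (k * Lg) := by rw [hC5]; ring
  rw [hC5'] at hkk
  have t2 : (K : ℝ) * (k * c.lB + (6 * P.mu - 2 * P.q * P.al) * (k * Real.log k) + C1 * Lg) +
      (K : ℝ) * (k * c.lA + (6 * P.mu - 2 * P.q * P.al) * (k * Real.log k) + C1 * Lg) =
      (k : ℝ) ^ 2 * (P.mu * c.lB + P.mu * c.lA) +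
        (12 * P.mu ^ 2 - 4 * P.q * P.al * P.mu) * ((k : ℝ) ^ 2 * Real.log k) +
        2 * P.mu * C1 * (k * Lg) +
      P.m0 * ((k * c.lB + (6 * P.mu - 2 * P.q * P.al) * (k * Real.log k) + C1 * Lg) +
      (k * c.lA + (6 * P.mu - 2 * P.q * P.al) * (k * Real.log k) + C1 * Lg)) := by
    rw [hKr]; ring
  linarith [g3, g4, t1, t2, hsmall, hpsi, hkk, hEk]

end BE

end Z579
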