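import Pool.Agent.Lib.Z579.BE11
import Pool.Agent.Lib.Z579.BE8

/-!
# BE12: the certificate for `a = 20 k + 3`, `K = 56 k + 7`
-/

open Real Finset Set

namespace Z579

namespace BE

open EM Arch Z579.Num

set_option maxRecDepth 100000

def cCA : List ℤ :=
   [0, 0, 0, 0, 0, 0, 0, 0, 0, 0, 0, 0, 0, 0, 0, 0, 0, 0, 0, 0, 1000, 1000, 1000, 1000, 1000,
    1000, 1000, 1000, 1000, 1000, 1000, 1000, 1000, 1000, 1000, 1000, 1000, 1000, 1000, 1000,
    1000, 1000, 1000, 1000, 1000, 1000, 1000, 1000, 1000, 1000, 1000, 1000, 1000, 1000, 1000,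
    1000, 1000, 1000, 1000, 631, 631, 631, 631, 631, 485, 485, 485, 485, 401, 401, 401, 401,
    330, 330, 330, 330, 330, 330, 256, 256, 256, 256, 256, 256, 256, 195, 195, 195, 195, 195,
    195, 195, 195, 195, 195, 141, 141, 141, 141, 141, 141, 141, 141, 141, 106, 106, 106, 106,
    106, 106, 106, 106, 106, 106, 106, 106, 106, 106, 106, 58, 58, 58, 58, 58, 58, 58, 58, 58,
    58, 58, 58, 58, 58, 58, 58, 58, 58, 58, 58, 58, 58, 58, 58, 0, 0, 82, 82, 82, 82]

def cCB : List ℤ :=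
   [3643, 3643, 3643, 3643, 3577, 3577, 3577, 3468, 3468, 3348, 3348, 3181, 3181, 2765, 2765,
    2765, 1482, 926, 0, 0, 0, 0, 0, 0, 0, 0, 0, 0, 0, 0, 0, 0, 0, 0, 0, 0, 0, 0, 0, 0, 0, 0, 0,
    0, 0, 0, 0, 0, 0, 0, 0, 0, 0, 0, 0, 0, 0, 0, 0, 0, 0, 0, 0, 0, 0, 0, 0, 0, 0, 0, 0, 0, 0, 0,
    0, 0, 0, 0, 0, 0, 0, 0, 0, 0, 0, 0, 0, 0, 0, 0, 0, 0, 0, 0, 0, 0, 0, 0, 0, 0, 0, 0, 0, 0, 0,
    0, 0, 0, 0, 0, 0, 0, 0, 0, 0, 0, 0, 0, 0, 0, 0, 0, 0, 0, 0, 0, 0, 0, 0, 0, 0, 0, 0, 0, 0, 0,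
    0, 0, 0, 0, 0, 0, 0, 0, 0, 0, 0, 0, 0]

def cJA : List (ℕ × ℤ) :=
   [(0, -3643), (4, 66), (7, 109), (9, 120), (11, 167), (13, 416), (16, 1283), (17, 556), (18,
    926), (20, -2000), (59, 738), (64, 292), (68, 168), (72, 142), (78, 148), (85, 122), (95,
    108), (104, 70), (119, 96), (143, 116), (145, -164), (149, 164)]

def cJB : List (ℕ × ℤ) :=
   [(0, -7286), (4, 132), (7, 218), (9, 240), (11, 334), (13, 832), (16, 2566), (17, 1112), (18,
    1852), (20, -1000), (59, 369), (64, 146), (68, 84), (72, 71), (78, 74), (85, 61), (95, 54),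
    (104, 35), (119, 48), (143, 58), (145, -82), (149, 82)]

def cNA : List (ℕ × ℤ) :=
   [(0, 3643), (4, -66), (7, -109), (9, -120), (11, -167), (13, -416), (16, -1283), (17, -556),
    (18, -926), (20, 2000), (59, -738), (64, -292), (68, -168), (72, -142), (78, -148), (85,
    -122), (95, -108), (104, -70), (119, -96), (143, -116), (145, 164), (149, -164)]

def cNB : List (ℕ × ℤ) :=
   [(0, 7286), (4, -132), (7, -218), (9, -240), (11, -334), (13, -832), (16, -2566), (17,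
    -1112), (18, -1852), (20, 1000), (59, -369), (64, -146), (68, -84), (72, -71), (78, -74),
    (85, -61), (95, -54), (104, -35), (119, -48), (143, -58), (145, 82), (149, -82)]

def cFA : List (ℕ × ℤ) := (20, -(10 * 1000)) :: cJA

def cFB : List (ℕ × ℤ) := (20, -(10 * 1000)) :: cJB

def csL : List ℤ :=
   [0, 0, 0, 0, 0, 0, 0, 0, 0, 0, 0, 0, 0, 0, 0, 0, 0, 0, 0, 0, 408797, 361015, 329087, 302671,
    279676, 259134, 240490, 223385, 207568, 192857, 179111, 166221, 154100, 142675, 131887,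
    121686, 112030, 102883, 94214, 85995, 78204, 70821, 63827, 57209, 50954, 45050, 39489,
    34264, 29371, 24805, 20566, 16656, 13079, 9845, 6967, 4468, 2385, 781, 0, 342, 650, 355, 0,
    0, 1, 124, 0, 0, 20, 72, 0, 0, 30, 81, 0, 0, 0, 0, 0, 32, 0, 0, 0, 0, 0, 0, 66, 45, 0, 0, 0,
    0, 0, 0, 0, 0, 0, 0, 0, 0, 0, 0, 0, 0, 0, 3, 0, 0, 0, 0, 0, 0, 0, 0, 0, 0, 0, 0, 0, 0, 0,
    12, 31, 21, 0, 0, 0, 0, 0, 0, 0, 0, 0, 0, 0, 0, 0, 0, 0, 0, 0, 0, 0, 0, 0, 0, 0, 0, 0, 0, 0,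
    0, 0, 0, 5, 10, 0, 0, 0, 0, 0, 0, 0, 0, 0, 0, 0, 0, 0, 0, 0, 0, 0, 0, 0, 0, 0, 0, 0, 0, 0,
    0, 0, 0, 0, 0, 0, 0, 0, 0, 0, 0, 0, 0, 0, 0, 0, 0, 0, 0, 0, 0, 0, 0, 0, 0, 0, 0, 0, 0, 0, 0,
    0, 0, 0, 0, 0, 0]

def csR : List ℤ :=
   [0, 0, 0, 0, 0, 0, 0, 0, 0, 0, 0, 0, 0, 0, 0, 0, 0, 0, 0, 0, 361165, 329087, 302671, 279676,
    259134, 240490, 223385, 207568, 192857, 179111, 166221, 154100, 142675, 131887, 121686,
    112030, 102883, 94214, 85995, 78204, 70821, 63827, 57209, 50954, 45050, 39489, 34264, 29371,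
    24805, 20566, 16656, 13079, 9845, 6967, 4468, 2385, 781, 0, 70, 860, 404, 8, 0, 0, 206, 17,
    0, 0, 119, 0, 0, 0, 118, 0, 0, 0, 0, 0, 70, 9, 0, 0, 0, 0, 0, 96, 54, 0, 0, 0, 0, 0, 0, 0,
    0, 0, 0, 0, 0, 0, 0, 0, 0, 0, 20, 0, 0, 0, 0, 0, 0, 0, 0, 0, 0, 0, 0, 0, 0, 0, 18, 33, 22,
    0, 0, 0, 0, 0, 0, 0, 0, 0, 0, 0, 0, 0, 0, 0, 0, 0, 0, 0, 0, 0, 0, 0, 0, 0, 0, 0, 0, 0, 0, 5,
    11, 0, 0, 0, 0, 0, 0, 0, 0, 0, 0, 0, 0, 0, 0, 0, 0, 0, 0, 0, 0, 0, 0, 0, 0, 0, 0, 0, 0, 0,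
    0, 0, 0, 0, 0, 0, 0, 0, 0, 0, 0, 0, 0, 0, 0, 0, 0, 0, 0, 0, 0, 0, 0, 0, 0, 0, 0, 0, 0, 0, 0,
    0, 0, 0]

def ceL : List ℤ :=
   [0, 0, 0, 0, 0, 0, 0, 0, 0, 0, 0, 0, 0, 0, 0, 0, 0, 0, 0, 0, 1140614, 1140547, 1142125,
    1144141, 1146394, 1148794, 1151297, 1153881, 1156531, 1159241, 1162007, 1164827, 1167701,
    1170630, 1173614, 1176655, 1179756, 1182919, 1186146, 1189441, 1192806, 1196245, 1199762,
    1203361, 1207046, 1210822, 1214694, 1218670, 1222754, 1226957, 1231286, 1235753, 1240371,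
    1245157, 1250132, 1255323, 1260769, 1266519, 1272612, 1280280, 1287810, 1294435, 1300814,
    1307106, 1313888, 1320506, 1326701, 1332733, 1338990, 1345103, 1350937, 1356640, 1362528,
    1368280, 1373775, 1379157, 1384467, 1389726, 1395216, 1400589, 1405707, 1410710, 1415637,
    1420510, 1425342, 1430360, 1435276, 1439974, 1444565, 1449078, 1453530, 1457935, 1462305,
    1466650, 1470978, 1475481, 1479904, 1484140, 1488287, 1492369, 1496400, 1500392, 1504352,
    1508283, 1512317, 1516285, 1520120, 1523884, 1527593, 1531256, 1534880, 1538468, 1542026,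
    1545557, 1549067, 1552561, 1556042, 1559520, 1562997, 1566640, 1570219, 1573638, 1576981,
    1580267, 1583505, 1586701, 1589859, 1592983, 1596075, 1599138, 1602173, 1605183, 1608169,
    1611133, 1614077, 1617002, 1619910, 1622803, 1625684, 1628554, 1631417, 1634277, 1637128, 0,
    0, 1645547, 1648077, 1650795, 1653599]

def ceR : List ℤ :=
   [0, 0, 0, 0, 0, 0, 0, 0, 0, 0, 0, 0, 0, 0, 0, 0, 0, 0, 0, 0, 1139996, 1142012, 1144108,
    1146380, 1148787, 1151293, 1153878, 1156530, 1159240, 1162007, 1164827, 1167701, 1170630,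
    1173614, 1176655, 1179756, 1182919, 1186147, 1189441, 1192807, 1196246, 1199763, 1203361,
    1207046, 1210823, 1214695, 1218671, 1222756, 1226958, 1231288, 1235755, 1240374, 1245161,
    1250137, 1255331, 1260786, 1266566, 1272793, 1280011, 1287794, 1294435, 1300837, 1307190,
    1313781, 1320506, 1326707, 1332789, 1338928, 1345103, 1350941, 1356688, 1362476, 1368280,
    1373775, 1379157, 1384476, 1389771, 1395161, 1400589, 1405707, 1410710, 1415637, 1420518,
    1425380, 1430315, 1435276, 1439974, 1444565, 1449078, 1453530, 1457935, 1462306, 1466658,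
    1471009, 1475441, 1479904, 1484140, 1488287, 1492369, 1496400, 1500392, 1504355, 1508306,
    1512291, 1516285, 1520120, 1523884, 1527593, 1531256, 1534880, 1538468, 1542026, 1545557,
    1549067, 1552561, 1556045, 1559527, 1563024, 1566604, 1570219, 1573638, 1576981, 1580267,
    1583505, 1586701, 1589859, 1592983, 1596075, 1599138, 1602173, 1605183, 1608169, 1611133,
    1614077, 1617002, 1619910, 1622803, 1625684, 1628555, 1631419, 1634284, 1637161, 1640119, 0,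
    0, 1648042, 1650796, 1653636, 1656681]

def cfL : List ℤ :=
   [826479, 826953, 828388, 830800, 834435, 839028, 844479, 851335, 859193, 868298, 878425,
    890021, 902724, 917748, 933752, 950074, 971910, 995183]

def cfR : List ℤ :=
   [826957, 828399, 830838, 834396, 839042, 844549, 851284, 859259, 868255, 878527, 889980,
    902947, 917524, 933904, 950821, 971356, 995267, 1017113]

lemma hJA : jl 0 0 (cmb 2 1 cCA cCB) = cJA := by decide +kernel

lemma hJB : jl 0 0 (cmb 1 2 cCA cCB) = cJB := by decide +kernel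

lemma hNA : negL cJA = cNA := by decide +kernel

lemma hNB : negL cJB = cNB := by decide +kernel

lemma hjA : ∀ t ∈ cJA, t.1 ≤ 149 := by decide +kernel

lemma hjB : ∀ t ∈ cJB, t.1 ≤ 149 := by decide +kernel

def chS (i : ℕ) : Bool :=
  cell2 gT cFA 1000 i (-342847 + csL.getD i 0) (-342847 + csR.getD i 0)

def chP (i : ℕ) : Bool := decide (0 ≤ csL.getD i 0) && decide (0 ≤ csR.getD i 0)

def chN (i : ℕ) : Bool := cell2 gT cFB 1000 i 28333 28333

def chEA (i : ℕ) : Bool := decide (cCA.getD i 0 = 0) ||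
  cell2 gT cNA 1000 i (-ceL.getD i 0) (-ceR.getD i 0)

def chEB (i : ℕ) : Bool := decide (cCB.getD i 0 = 0) ||
  cell2 gT cNB 1000 i (-cfL.getD i 0) (-cfR.getD i 0)

lemma hS_0 : allB 50 (fun i => chS (20 + i)) = true := by decide +kernel

lemma hS_1 : allB 50 (fun i => chS (70 + i)) = true := by decide +kernel

lemma hS_2 : allB 50 (fun i => chS (120 + i)) = true := by decide +kernel

lemma hS_3 : allB 48 (fun i => chS (170 + i)) = true := by decide +kernel

lemma hP_0 : allB 218 chP = true := by decide +kernel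

lemma hN_0 : allB 21 chN = true := by decide +kernel

lemma hEA_0 : allB 50 (fun i => chEA (0 + i)) = true := by decide +kernel

lemma hEA_1 : allB 50 (fun i => chEA (50 + i)) = true := by decide +kernel

lemma hEA_2 : allB 49 (fun i => chEA (100 + i)) = true := by decide +kernel

lemma hEB_0 : allB 149 chEB = true := by decide +kernel

lemma hTail : tailOK 10 20 56 218 (-342847) = true := by decide +kernel

lemma hTot : totB 56 149 218 cCA cCB 1000 (-342847) 28333 csL csR ceL ceR cfL cfR ≤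
    4000 * 1000 * (-72966) := by decide +kernel

/-- the parameters -/
noncomputable def P4 : BPar :=
  { q := 10, al := 20, a0 := 3, mu := 56, m0 := 7, N := 149
    cA := fun i => ((cCA.getD i 0 : ℤ) : ℝ) / 1000
    cB := fun i => ((cCB.getD i 0 : ℤ) : ℝ) / 1000 }

lemma getD_nonneg (l : List ℤ) (h : ∀ x ∈ l, 0 ≤ x) (i : ℕ) : 0 ≤ l.getD i 0 := by
  rcases lt_or_ge i l.length with hi | hi
  · rw [List.getD_eq_getElem _ _ hi]
    exact h _ (List.getElem_mem hi)
  · rw [List.getD_eq_default _ _ hi]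

lemma cCA_nonneg : ∀ x ∈ cCA, 0 ≤ x := by decide +kernel

lemma cCB_nonneg : ∀ x ∈ cCB, 0 ≤ x := by decide +kernel

lemma massA4 : sumZ 149 (fun i => cCA.getD i 0) = 56000 := by decide +kernel

lemma massB4 : sumZ 149 (fun i => cCB.getD i 0) = 56000 := by decide +kernel

lemma ok4 : P4.Ok where
  al1 := by norm_num [P4]
  a01 := by norm_num [P4]
  a04 := by norm_num [P4]
  mu1 := by norm_num [P4]
  N1 := by norm_num [P4]
  cAn := fun i => by
    have h := getD_nonneg cCA cCA_nonneg i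
    have h' : (0 : ℝ) ≤ ((cCA.getD i 0 : ℤ) : ℝ) := by exact_mod_cast h
    exact div_nonneg h' (by norm_num)
  cBn := fun i => by
    have h := getD_nonneg cCB cCB_nonneg i
    have h' : (0 : ℝ) ≤ ((cCB.getD i 0 : ℤ) : ℝ) := by exact_mod_cast h
    exact div_nonneg h' (by norm_num)
  massA := by
    have h : ((sumZ 149 (fun i => cCA.getD i 0) : ℤ) : ℝ) = ((56000 : ℤ) : ℝ) := by rw [massA4]
    rw [sumZ_eq] at h
    simp only [P4]
    rw [← Finset.sum_div, h]
    norm_num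
  massB := by
    have h : ((sumZ 149 (fun i => cCB.getD i 0) : ℤ) : ℝ) = ((56000 : ℤ) : ℝ) := by rw [massB4]
    rw [sumZ_eq] at h
    simp only [P4]
    rw [← Finset.sum_div, h]
    norm_num
  deg := by norm_num [P4]
  deg0 := by norm_num [P4]

theorem cert4 : Nonempty (BCert P4 ((-72966 : ℤ) : ℝ)) := by
  refine mk_bcert ok4 (CA := cCA) (CB := cCB) (den := 1000) (by norm_num)
    (fun i => by simp only [P4]; norm_num) (fun i => by simp only [P4]; norm_num)
    (by decide +kernel) (by decide +kernel) (by norm_num [P4]) hJA hJB hNA hNB tabT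
    (Y0 := 218) (by norm_num [P4]) (by norm_num [P4]) (by norm_num [P4]) (by norm_num [P4])
    hjA hjB (-342847) 28333 csL csR ceL ceR cfL cfR ?_ ?_ ?_ ?_ ?_ hTail hTot
  · intro i hi hi'
    have hal : 20 ≤ i := hi
    rcases lt_or_ge i 70 with h | h
    · obtain ⟨j, rfl⟩ : ∃ j, i = 20 + j := ⟨i - 20, by omega⟩
      exact allB_spec hS_0 j (by omega)
    rcases lt_or_ge i 120 with h | h
    · obtain ⟨j, rfl⟩ : ∃ j, i = 70 + j := ⟨i - 70, by omega⟩
      exact allB_spec hS_1 j (by omega)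
    rcases lt_or_ge i 170 with h | h
    · obtain ⟨j, rfl⟩ : ∃ j, i = 120 + j := ⟨i - 120, by omega⟩
      exact allB_spec hS_2 j (by omega)
    rcases lt_or_ge i 218 with h | h
    · obtain ⟨j, rfl⟩ : ∃ j, i = 170 + j := ⟨i - 170, by omega⟩
      exact allB_spec hS_3 j (by omega)
    omega
  · exact fun i hi => allB_spec hP_0 i hi
  · intro i hi
    have hal : i ≤ 20 := hi
    exact allB_spec hN_0 i (by omega)
  · intro i hi
    have hN : i < 149 := hi
    rcases lt_or_ge i 50 with h | h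
    · obtain ⟨j, rfl⟩ : ∃ j, i = 0 + j := ⟨i - 0, by omega⟩
      exact allB_spec hEA_0 j (by omega)
    rcases lt_or_ge i 100 with h | h
    · obtain ⟨j, rfl⟩ : ∃ j, i = 50 + j := ⟨i - 50, by omega⟩
      exact allB_spec hEA_1 j (by omega)
    rcases lt_or_ge i 149 with h | h
    · obtain ⟨j, rfl⟩ : ∃ j, i = 100 + j := ⟨i - 100, by omega⟩
      exact allB_spec hEA_2 j (by omega)
    omega
  · intro i hi
    exact allB_spec hEB_0 i hi

end BE

end Z579
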