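import Pool.Agent.Lib.Z579.M0

open Polynomial Finset

namespace Z579

section VG

variable {p : ℕ}

lemma VG_mono {c c' : ℝ} {x : ℚ} (h : VG p c x) (hc : c' ≤ c) : VG p c' x := by
  rcases h with h | h
  · exact Or.inl h
  · exact Or.inr (hc.trans h)

lemma VG_zero (c : ℝ) : VG p c 0 := Or.inl rfl

lemma VG_one : VG p 0 1 := Or.inr (by simp)

lemma VG_neg {c : ℝ} {x : ℚ} (h : VG p c x) : VG p c (-x) := by
  rcases h with h | h
  · exact Or.inl (by simp [h])
  · exact Or.inr (by rwa [padicValRat.neg])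

variable [hp : Fact p.Prime]

lemma VG_add {c : ℝ} {x y : ℚ} (hx : VG p c x) (hy : VG p c y) : VG p c (x + y) := by
  by_cases h : x + y = 0
  · exact Or.inl h
  rcases hx with hx | hx
  · subst hx; rw [zero_add]; exact hy
  rcases hy with hy | hy
  · subst hy; rw [add_zero]; exact Or.inr hx
  refine Or.inr ?_
  have h1 := padicValRat.min_le_padicValRat_add (p := p) h
  have h2 : ((min (padicValRat p x) (padicValRat p y) : ℤ) : ℝ) ≤ padicValRat p (x + y) := by
    exact_mod_cast h1
  refine le_trans ?_ h2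
  push_cast
  exact le_min hx hy

lemma VG_mul {c d : ℝ} {x y : ℚ} (hx : VG p c x) (hy : VG p d y) : VG p (c + d) (x * y) := by
  by_cases h : x * y = 0
  · exact Or.inl h
  have hx0 : x ≠ 0 := left_ne_zero_of_mul h
  have hy0 : y ≠ 0 := right_ne_zero_of_mul h
  rcases hx with hx | hx
  · exact absurd hx hx0
  rcases hy with hy | hy
  · exact absurd hy hy0
  refine Or.inr ?_
  rw [padicValRat.mul hx0 hy0]
  push_cast
  exact add_le_add hx hy

lemma VG_sum {ι : Type*} (s : Finset ι) (f : ι → ℚ) {c : ℝ} (h : ∀ i ∈ s, VG p c (f i)) :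
    VG p c (∑ i ∈ s, f i) := by
  classical
  induction s using Finset.induction_on with
  | empty => simpa using VG_zero c
  | insert i s hi ih =>
    rw [Finset.sum_insert hi]
    exact VG_add (h i (Finset.mem_insert_self i s))
      (ih fun j hj => h j (Finset.mem_insert_of_mem hj))

lemma VG_prod {ι : Type*} (s : Finset ι) (f : ι → ℚ) (c : ι → ℝ) (h : ∀ i ∈ s, VG p (c i) (f i)) :
    VG p (∑ i ∈ s, c i) (∏ i ∈ s, f i) := by
  classical
  induction s using Finset.induction_on with
  | empty => simpa using VG_one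
  | insert i s hi ih =>
    rw [Finset.prod_insert hi, Finset.sum_insert hi]
    exact VG_mul (h i (Finset.mem_insert_self i s))
      (ih fun j hj => h j (Finset.mem_insert_of_mem hj))

/-- Determinant valuation: entries of valuation at least `-(θ i + θ j)/2`. -/
lemma VG_det {m : ℕ} (M : Matrix (Fin m) (Fin m) ℚ) (θ : Fin m → ℝ)
    (h : ∀ i j, VG p (-((θ i + θ j) / 2)) (M i j)) : VG p (-(∑ i, θ i)) M.det := by
  rw [Matrix.det_apply]
  refine VG_sum _ _ fun σ _ => ?_
  have h1 : VG p (-(∑ i, θ i)) (∏ i, M (σ i) i) := by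
    have h2 := VG_prod (p := p) Finset.univ (fun i => M (σ i) i)
      (fun i => -((θ (σ i) + θ i) / 2)) (fun i _ => h _ _)
    have h3 : ∑ i, -((θ (σ i) + θ i) / 2) = -(∑ i, θ i) := by
      rw [Finset.sum_neg_distrib, ← Finset.sum_div, Finset.sum_add_distrib,
        Equiv.sum_comp σ θ]
      ring
    rwa [h3] at h2
  rcases Int.units_eq_one_or (Equiv.Perm.sign σ) with hs | hs
  · rw [hs, one_smul]; exact h1
  · rw [hs]
    have : ((-1 : ℤˣ) • ∏ i, M (σ i) i) = -(∏ i, M (σ i) i) := by
      simp [Units.smul_def]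
    rw [this]
    exact VG_neg h1

/-- Hankel determinant valuation through a monic basis. -/
lemma VG_hank (L : ℚ[X] →ₗ[ℚ] ℚ) (m : ℕ) (P : ℕ → ℚ[X]) (θ : ℕ → ℝ)
    (hm : ∀ i, (P i).Monic) (hd : ∀ i, (P i).natDegree = i)
    (h : ∀ i j, VG p (-((θ i + θ j) / 2)) (L (P i * P j))) :
    VG p (-(∑ i ∈ Finset.range m, θ i)) (hank L m) := by
  rw [m0 L m P hm hd, Finset.sum_range]
  exact VG_det _ (fun i : Fin m => θ i) fun i j => h _ _

end VG

section Greedy

variable (I : Finset ℤ) (hI : I.Nonempty) (x : ℤ → ℚ) (e : ℤ → ℝ)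

/-- the class chosen by the greedy algorithm -/
noncomputable def gch (N : ℤ → ℕ) : ℤ :=
  (Finset.exists_max_image I (fun c => e c - 2 * (N c : ℝ)) hI).choose

lemma gch_mem (N : ℤ → ℕ) : gch I hI e N ∈ I :=
  (Finset.exists_max_image I (fun c => e c - 2 * (N c : ℝ)) hI).choose_spec.1

lemma gch_max (N : ℤ → ℕ) {c : ℤ} (hc : c ∈ I) :
    e c - 2 * (N c : ℝ) ≤ e (gch I hI e N) - 2 * (N (gch I hI e N) : ℝ) :=
  (Finset.exists_max_image I (fun c => e c - 2 * (N c : ℝ)) hI).choose_spec.2 c hc

/-- the polynomial attached to an exponent vector -/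
noncomputable def gpol (N : ℤ → ℕ) : ℚ[X] := ∏ c ∈ I, (X - Polynomial.C (x c)) ^ (N c)

lemma gpol_monic (N : ℤ → ℕ) : (gpol I x N).Monic :=
  monic_prod_of_monic _ _ fun c _ => (monic_X_sub_C _).pow _

lemma gpol_natDegree (N : ℤ → ℕ) : (gpol I x N).natDegree = ∑ c ∈ I, N c := by
  unfold gpol
  rw [natDegree_prod_of_monic _ _ fun c _ => (monic_X_sub_C _).pow _]
  refine Finset.sum_congr rfl fun c _ => ?_
  rw [(monic_X_sub_C _).natDegree_pow, natDegree_X_sub_C, mul_one]

lemma gpol_mul (N M : ℤ → ℕ) : gpol I x N * gpol I x M = gpol I x (fun c => N c + M c) := by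
  unfold gpol
  rw [← Finset.prod_mul_distrib]
  refine Finset.prod_congr rfl fun c _ => ?_
  rw [pow_add]

/-- the potential -/
noncomputable def gpot (l : ℝ) (N : ℤ → ℕ) : ℝ :=
  1 / 4 * ∑ c ∈ I, (e c - 2 * (N c : ℝ) + 1 - l) ^ 2

lemma gpot_nonneg (l : ℝ) (N : ℤ → ℕ) : 0 ≤ gpot I e l N := by
  unfold gpot
  positivity

lemma gpot_update (l : ℝ) (N : ℤ → ℕ) {c : ℤ} (hc : c ∈ I) :
    gpot I e l (Function.update N c (N c + 1)) = gpot I e l N - (e c - 2 * (N c : ℝ) - l) := by
  unfold gpot
  rw [← Finset.add_sum_erase I _ hc, ← Finset.add_sum_erase I (fun c => (e c - 2 * (N c : ℝ) + 1 - l) ^ 2) hc]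
  have h : ∑ d ∈ I.erase c, (e d - 2 * ((Function.update N c (N c + 1) d : ℕ) : ℝ) + 1 - l) ^ 2 =
      ∑ d ∈ I.erase c, (e d - 2 * (N d : ℝ) + 1 - l) ^ 2 := by
    refine Finset.sum_congr rfl fun d hd => ?_
    rw [Function.update_of_ne (Finset.ne_of_mem_erase hd)]
  rw [h, Function.update_self]
  push_cast
  ring

/-- greedy sequence for M5a -/
noncomputable def gseq : ℕ → ℤ → ℕ
  | 0 => fun _ => 0
  | i + 1 => Function.update (gseq i) (gch I hI e (gseq i)) (gseq i (gch I hI e (gseq i)) + 1)

lemma gseq_sum (i : ℕ) : ∑ c ∈ I, gseq I hI e i c = i := by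
  induction i with
  | zero => simp [gseq]
  | succ i ih =>
    rw [gseq, Finset.sum_update_of_mem (gch_mem I hI e _)]
    rw [← Finset.add_sum_erase I _ (gch_mem I hI e (gseq I hI e i)), ← Finset.sdiff_singleton_eq_erase] at ih
    omega

end Greedy

theorem m5a : M5a := by
  intro p L I x e m l hp hI h
  haveI : Fact p.Prime := ⟨hp⟩
  set N := gseq I hI e with hN
  set θ : ℕ → ℝ := fun i => e (gch I hI e (N i)) - 2 * (N i (gch I hI e (N i)) : ℝ) with hθ
  have h1 := VG_hank (p := p) L m (fun i => gpol I x (N i)) θ (fun i => gpol_monic I x _)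
    (fun i => by rw [gpol_natDegree]; exact gseq_sum I hI e i) (by
      intro i j
      rw [gpol_mul]
      refine h _ _ fun c hc => ?_
      have h2 := gch_max I hI e (N i) hc
      have h3 := gch_max I hI e (N j) hc
      push_cast
      simp only [hθ]
      linarith)
  refine VG_mono h1 (neg_le_neg ?_)
  have key : ∀ k : ℕ, ∑ i ∈ Finset.range k, θ i = l * k + gpot I e l (N 0) - gpot I e l (N k) := by
    intro k
    induction k with
    | zero => simp
    | succ k ih =>
      rw [Finset.sum_range_succ, ih]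
      have h4 : N (k + 1) = Function.update (N k) (gch I hI e (N k)) (N k (gch I hI e (N k)) + 1) := rfl
      rw [h4, gpot_update I e l (N k) (gch_mem I hI e (N k))]
      simp only [hθ]
      push_cast
      ring
  rw [key m]
  have h5 : gpot I e l (N 0) = 1 / 4 * ∑ c ∈ I, (e c + 1 - l) ^ 2 := by
    unfold gpot
    congr 1
    refine Finset.sum_congr rfl fun c _ => ?_
    have : N 0 c = 0 := rfl
    rw [this]
    push_cast
    ring
  have h6 := gpot_nonneg I e l (N m)
  rw [h5]
  linarith

section Greedy2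

variable (J : Finset ℤ) (x : ℤ → ℚ) (e : ℤ → ℝ)

/-- there is still a class with positive slot -/
def gpos (N : ℤ → ℕ) : Prop := ∃ c ∈ J, 0 < e c - 2 * (N c : ℝ)

/-- greedy sequence for M5b: exponents of the classes and of `X` -/
noncomputable def gseq' : ℕ → (ℤ → ℕ) × ℕ
  | 0 => (fun _ => 0, 0)
  | i + 1 => by
      classical
      exact if h : gpos J e (gseq' i).1 then
        (Function.update (gseq' i).1 (gch J ⟨_, h.choose_spec.1⟩ e (gseq' i).1)
          ((gseq' i).1 (gch J ⟨_, h.choose_spec.1⟩ e (gseq' i).1) + 1), (gseq' i).2)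
      else ((gseq' i).1, (gseq' i).2 + 1)

/-- the slot values -/
noncomputable def gth (N : ℤ → ℕ) : ℝ := by
  classical
  exact if h : gpos J e N then
    e (gch J ⟨_, h.choose_spec.1⟩ e N) - 2 * (N (gch J ⟨_, h.choose_spec.1⟩ e N) : ℝ) else 0

lemma gth_nonneg (N : ℤ → ℕ) : 0 ≤ gth J e N := by
  unfold gth
  split_ifs with h
  · have h' := h
    obtain ⟨c, hc, hc'⟩ := h'
    have := gch_max J ⟨_, h.choose_spec.1⟩ e N hc
    linarith
  · exact le_refl _

lemma gth_max (N : ℤ → ℕ) {c : ℤ} (hc : c ∈ J) : e c - 2 * (N c : ℝ) ≤ gth J e N := by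
  unfold gth
  split_ifs with h
  · exact gch_max J ⟨_, h.choose_spec.1⟩ e N hc
  · by_contra h'
    exact h ⟨c, hc, by linarith⟩

end Greedy2

theorem m5b : M5b := by
  intro p L J x e m l hp hl h
  haveI : Fact p.Prime := ⟨hp⟩
  set s := gseq' J e with hs
  set θ : ℕ → ℝ := fun i => gth J e (s i).1 with hθ
  have hdeg : ∀ i, ∑ c ∈ J, (s i).1 c + (s i).2 = i := by
    intro i
    induction i with
    | zero => simp [hs, gseq']
    | succ i ih =>
      have h0 : s (i + 1) = gseq' J e (i + 1) := rfl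
      rw [h0, gseq']
      split_ifs with hg
      · have hg' : gpos J e (s i).1 := hg
        have hm := gch_mem J ⟨_, hg.choose_spec.1⟩ e (gseq' J e i).1
        simp only
        rw [Finset.sum_update_of_mem hm]
        have ih' : ∑ c ∈ J, (gseq' J e i).1 c + (gseq' J e i).2 = i := ih
        rw [← Finset.add_sum_erase J _ hm, ← Finset.sdiff_singleton_eq_erase] at ih'
        omega
      · have ih' : ∑ c ∈ J, (gseq' J e i).1 c + (gseq' J e i).2 = i := ih
        simp only
        omega
  have h1 := VG_hank (p := p) L m (fun i => gpol J x (s i).1 * X ^ (s i).2) θ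
    (fun i => (gpol_monic J x _).mul (monic_X_pow _))
    (fun i => by
      rw [(gpol_monic J x _).natDegree_mul (monic_X_pow _), gpol_natDegree, natDegree_X_pow]
      exact hdeg i) (by
      intro i j
      have h2 : gpol J x (s i).1 * X ^ (s i).2 * (gpol J x (s j).1 * X ^ (s j).2) =
          gpol J x (fun c => (s i).1 c + (s j).1 c) * X ^ ((s i).2 + (s j).2) := by
        rw [← gpol_mul, pow_add]; ring
      rw [h2]
      have h2 := gth_nonneg J e (s i).1
      have h3 := gth_nonneg J e (s j).1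
      refine h _ _ _ (by simp only [hθ]; linarith) fun c hc => ?_
      have h4 := gth_max J e (s i).1 hc
      have h5 := gth_max J e (s j).1 hc
      push_cast
      simp only [hθ]
      linarith)
  refine VG_mono h1 (neg_le_neg ?_)
  have key : ∀ k : ℕ, ∑ i ∈ Finset.range k, θ i ≤ l * k + gpot J e l (s 0).1 - gpot J e l (s k).1 := by
    intro k
    induction k with
    | zero => simp
    | succ k ih =>
      rw [Finset.sum_range_succ]
      have h4 : θ k ≤ l + gpot J e l (s k).1 - gpot J e l (s (k + 1)).1 := by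
        have h0 : s (k + 1) = gseq' J e (k + 1) := rfl
        rw [h0, gseq']
        simp only [hθ]
        unfold gth
        split_ifs with hg
        · have hm := gch_mem J ⟨_, hg.choose_spec.1⟩ e (gseq' J e k).1
          simp only
          rw [gpot_update J e l _ hm]
          simp only [hs]
          linarith
        · simp only [hs]
          linarith
      push_cast
      linarith
  refine (key m).trans ?_
  have h5 : gpot J e l (s 0).1 = 1 / 4 * ∑ c ∈ J, (e c + 1 - l) ^ 2 := by
    unfold gpot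
    congr 1
    refine Finset.sum_congr rfl fun c _ => ?_
    have : (s 0).1 c = 0 := rfl
    rw [this]
    push_cast
    ring
  have h6 := gpot_nonneg J e l (s m).1
  rw [h5]
  linarith

end Z579
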