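import Pool.Agent.Lib.Z579.M4
import Pool.Agent.Lib.Z579.M5

open Polynomial Finset

namespace Z579

/-- complete symmetric residue system -/
noncomputable def Rp (p : ℕ) : Finset ℤ := Finset.Icc (-(((p - 1) / 2 : ℕ) : ℤ)) (((p - 1) / 2 : ℕ) : ℤ)

/-- folding an even function -/
lemma sum_Ip (p : ℕ) (f : ℤ → ℝ) (hf : ∀ c, f (-c) = f c) :
    ∑ c ∈ Ip p, f c = 1 / 2 * (∑ c ∈ Rp p, f c + f 0) := by
  have h1 : Rp p = (Finset.Icc (-(((p - 1) / 2 : ℕ) : ℤ)) (-1)) ∪ Ip p := by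
    ext c
    simp only [Rp, Ip, Finset.mem_union, Finset.mem_Icc]
    omega
  have h2 : Disjoint (Finset.Icc (-(((p - 1) / 2 : ℕ) : ℤ)) (-1)) (Ip p) := by
    rw [Finset.disjoint_left]
    intro c hc hc'
    simp only [Ip, Finset.mem_Icc] at hc hc'
    omega
  have h3 : Ip p = insert 0 (Finset.Icc 1 (((p - 1) / 2 : ℕ) : ℤ)) := by
    ext c
    simp only [Ip, Finset.mem_insert, Finset.mem_Icc]
    omega
  have h4 : (0 : ℤ) ∉ Finset.Icc 1 (((p - 1) / 2 : ℕ) : ℤ) := by simp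
  have h5 : ∑ c ∈ Finset.Icc (-(((p - 1) / 2 : ℕ) : ℤ)) (-1), f c =
      ∑ c ∈ Finset.Icc 1 (((p - 1) / 2 : ℕ) : ℤ), f c := by
    refine Finset.sum_bij (fun c _ => -c) ?_ ?_ ?_ ?_
    · intro c hc
      simp only [Finset.mem_Icc] at hc ⊢
      omega
    · intro c _ c' _ h
      exact neg_injective h
    · intro c hc
      refine ⟨-c, ?_, neg_neg c⟩
      simp only [Finset.mem_Icc] at hc ⊢
      omega
    · intro c _
      exact (hf c).symm
  rw [h1, Finset.sum_union h2, h5, h3, Finset.sum_insert h4]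
  ring

/-- count in an interval -/
lemma cnt_Ioc {p : ℕ} (hp : 0 < p) (lo hi : ℤ) (h : lo ≤ hi) (c : ℤ) :
    ((hi - lo : ℤ) : ℝ) / p - 1 < cnt p (Finset.Ioc lo hi) c ∧
      (cnt p (Finset.Ioc lo hi) c : ℝ) < ((hi - lo : ℤ) : ℝ) / p + 1 := by
  have h0 : cnt p (Finset.Ioc lo hi) c = #{x ∈ Finset.Ioc lo hi | x ≡ c [ZMOD (p : ℤ)]} := by
    unfold cnt
    congr 1
    refine Finset.filter_congr fun w _ => ?_
    rw [Int.modEq_comm, Int.modEq_iff_dvd]
  have hp' : (0 : ℤ) < p := by exact_mod_cast hp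
  have h1 := Int.Ioc_filter_modEq_card lo hi hp' c
  rw [← h0] at h1
  have hpq : (0 : ℚ) < (p : ℤ) := by exact_mod_cast hp
  have h2 : ((lo : ℚ) - c) / ((p : ℤ) : ℚ) ≤ ((hi : ℚ) - c) / ((p : ℤ) : ℚ) := by
    gcongr
  have h3 := Int.floor_le_floor h2
  rw [max_eq_left (by linarith)] at h1
  have h4 := Int.floor_le (((lo : ℚ) - c) / ((p : ℤ) : ℚ))
  have h5 := Int.lt_floor_add_one (((lo : ℚ) - c) / ((p : ℤ) : ℚ))
  have h6 := Int.floor_le (((hi : ℚ) - c) / ((p : ℤ) : ℚ))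
  have h7 := Int.lt_floor_add_one (((hi : ℚ) - c) / ((p : ℤ) : ℚ))
  have h8 : ((cnt p (Finset.Ioc lo hi) c : ℤ) : ℚ) =
      (⌊((hi : ℚ) - c) / ((p : ℤ) : ℚ)⌋ : ℚ) - (⌊((lo : ℚ) - c) / ((p : ℤ) : ℚ)⌋ : ℚ) := by
    rw [h1]; push_cast; ring
  have h9 : ((hi : ℚ) - c) / ((p : ℤ) : ℚ) - ((lo : ℚ) - c) / ((p : ℤ) : ℚ) =
      ((hi - lo : ℤ) : ℚ) / p := by
    push_cast
    ring
  have h10 : ((hi - lo : ℤ) : ℚ) / p - 1 < ((cnt p (Finset.Ioc lo hi) c : ℤ) : ℚ) ∧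
      ((cnt p (Finset.Ioc lo hi) c : ℤ) : ℚ) < ((hi - lo : ℤ) : ℚ) / p + 1 := by
    rw [h8]
    constructor <;> linarith
  constructor
  · have := h10.1
    have h11 : ((((hi - lo : ℤ) : ℚ) / p - 1 : ℚ) : ℝ) <
        (((cnt p (Finset.Ioc lo hi) c : ℤ) : ℚ) : ℝ) := by exact_mod_cast this
    push_cast at h11 ⊢
    exact h11
  · have := h10.2
    have h11 : ((((cnt p (Finset.Ioc lo hi) c : ℤ) : ℚ)) : ℝ) <
        ((((hi - lo : ℤ) : ℚ) / p + 1 : ℚ) : ℝ) := by exact_mod_cast this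
    push_cast at h11 ⊢
    exact h11

lemma odd_p {p : ℕ} (hp : p.Prime) (hp2 : p ≠ 2) : p = 2 * ((p - 1) / 2) + 1 := by
  rcases hp.eq_two_or_odd with h | h
  · exact absurd h hp2
  · omega

/-- each integer has exactly one representative -/
lemma rep_unique {p : ℕ} (hp : p.Prime) (hp2 : p ≠ 2) (w : ℤ) :
    ((Rp p).filter fun c => (p : ℤ) ∣ w - c).card = 1 := by
  have hodd := odd_p hp hp2
  set h := (p - 1) / 2 with hh
  have h1 : Rp p = Finset.Ioc (-(h : ℤ) - 1) h := by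
    ext c
    simp only [Rp, Finset.mem_Icc, Finset.mem_Ioc]
    omega
  have h2 := cnt_Ioc hp.pos (-(h : ℤ) - 1) h (by omega) w
  have h3 : (((h : ℤ) - (-(h : ℤ) - 1) : ℤ) : ℝ) / p = 1 := by
    have : ((h : ℤ) - (-(h : ℤ) - 1) : ℤ) = (p : ℤ) := by omega
    rw [this]
    have : (p : ℝ) ≠ 0 := by exact_mod_cast hp.pos.ne'
    field_simp
    push_cast
    rfl
  rw [h3] at h2
  have h4 : 0 < cnt p (Finset.Ioc (-(h : ℤ) - 1) h) w := by
    have : (0 : ℝ) < cnt p (Finset.Ioc (-(h : ℤ) - 1) h) w := by linarith [h2.1]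
    exact_mod_cast this
  have h5 : cnt p (Finset.Ioc (-(h : ℤ) - 1) h) w < 2 := by
    have : (cnt p (Finset.Ioc (-(h : ℤ) - 1) h) w : ℝ) < (2 : ℕ) := by
      push_cast
      linarith [h2.2]
    exact Nat.cast_lt.1 this
  have h6 : ((Rp p).filter fun c => (p : ℤ) ∣ w - c).card =
      cnt p (Finset.Ioc (-(h : ℤ) - 1) h) w := by
    unfold cnt
    rw [h1]
    congr 1
    refine Finset.filter_congr fun c _ => ?_
    rw [← dvd_neg, neg_sub]
  omega

/-- total count -/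
lemma sum_cnt {p : ℕ} (hp : p.Prime) (hp2 : p ≠ 2) (s : Finset ℤ) :
    ∑ c ∈ Rp p, cnt p s c = s.card := by
  have h1 : ∀ c, cnt p s c = ∑ w ∈ s, if (p : ℤ) ∣ w - c then 1 else 0 := by
    intro c
    unfold cnt
    rw [Finset.card_filter]
  simp_rw [h1]
  rw [Finset.sum_comm]
  have h2 : ∀ w ∈ s, ∑ c ∈ Rp p, (if (p : ℤ) ∣ w - c then 1 else 0) = 1 := by
    intro w _
    rw [← Finset.card_filter]
    exact rep_unique hp hp2 w
  rw [Finset.sum_congr rfl h2, Finset.sum_const, smul_eq_mul, mul_one]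

lemma card_Rp {p : ℕ} (hp : p.Prime) (hp2 : p ≠ 2) : (Rp p).card = p := by
  have hodd := odd_p hp hp2
  rw [Rp, Int.card_Icc]
  omega

/-- the whole range -/
noncomputable def fc (b : ℕ) : Finset ℤ := Finset.Ioc (-(b : ℤ)) ((b : ℤ) - 1)

lemma pc_eq_fc (a : ℕ) : pc a = fc a := by
  ext c
  simp only [pc, fc, Finset.mem_Icc, Finset.mem_Ioc]
  omega

lemma fc_neg {a : ℕ} {w : ℤ} (h : w ∈ fc a) : -w ∈ fc a := by
  rw [← pc_eq_fc] at h ⊢
  exact pc_neg h

lemma card_fc {b : ℕ} (hb : 1 ≤ b) : (fc b).card = 2 * b - 1 := by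
  rw [fc, Int.card_Ioc]
  omega

lemma cnt_oc {p a b : ℕ} (ha : 1 ≤ a) (hab : a ≤ b) (c : ℤ) :
    cnt p (oc a b) c + cnt p (pc a) c = cnt p (fc b) c := by
  have h1 : fc b = oc a b ∪ pc a := by
    ext w
    simp only [fc, oc, pc, Finset.mem_union, Finset.mem_Icc, Finset.mem_Ioc]
    omega
  have h2 : Disjoint (oc a b) (pc a) := by
    rw [Finset.disjoint_left]
    intro w hw hw'
    simp only [oc, pc, Finset.mem_union, Finset.mem_Icc] at hw hw'
    omega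
  unfold cnt
  rw [h1, Finset.filter_union, Finset.card_union_of_disjoint
    (Finset.disjoint_filter_filter h2)]

/-- discrepancy of the counting function of `fc b` -/
lemma disc_abs {p : ℕ} (hp : 0 < p) {b : ℕ} (hb : 1 ≤ b) (c : ℤ) :
    |(cnt p (fc b) c : ℝ) - (2 * b - 1) / p| ≤ 1 := by
  have h := cnt_Ioc hp (-(b : ℤ)) ((b : ℤ) - 1) (by omega) c
  have h1 : ((((b : ℤ) - 1) - (-(b : ℤ)) : ℤ) : ℝ) / p = (2 * b - 1) / p := by
    push_cast; ring
  rw [h1] at h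
  rw [abs_le]
  unfold fc
  constructor <;> linarith [h.1, h.2]

lemma disc_sq {p : ℕ} (hp : p.Prime) (hp2 : p ≠ 2) {b : ℕ} (hb : 1 ≤ b) :
    ∑ c ∈ Rp p, ((cnt p (fc b) c : ℝ) - (2 * (b : ℝ) - 1) / p) ^ 2 ≤ (p : ℝ) / 4 := by
  have hp0 : (0 : ℝ) < p := by exact_mod_cast hp.pos
  set θ : ℝ := (2 * (b : ℝ) - 1) / p with hθ
  set k : ℤ := ⌊θ⌋ with hk
  have hk1 : (k : ℝ) ≤ θ := Int.floor_le θ
  have hk2 : θ < k + 1 := Int.lt_floor_add_one θ
  have hsum : ∑ c ∈ Rp p, (cnt p (fc b) c : ℝ) = p * θ := by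
    have := sum_cnt hp hp2 (fc b)
    rw [card_fc hb] at this
    have h2 : ((∑ c ∈ Rp p, cnt p (fc b) c : ℕ) : ℝ) = ((2 * b - 1 : ℕ) : ℝ) := by rw [this]
    push_cast [Nat.cast_sub (show 1 ≤ 2 * b by omega)] at h2
    rw [h2, hθ]
    field_simp
  have hval : ∀ c ∈ Rp p, ((cnt p (fc b) c : ℝ) - θ) ^ 2 =
      (2 * k + 1 - 2 * θ) * (cnt p (fc b) c : ℝ) + (θ ^ 2 - k * (k + 1)) := by
    intro c _
    have h := cnt_Ioc hp.pos (-(b : ℤ)) ((b : ℤ) - 1) (by omega) c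
    have h1 : ((((b : ℤ) - 1) - (-(b : ℤ)) : ℤ) : ℝ) / p = θ := by
      rw [hθ]; push_cast; ring
    rw [h1] at h
    have h3 : (k : ℝ) - 1 < (cnt p (fc b) c : ℤ) := by
      have := h.1
      unfold fc
      push_cast
      linarith
    have h4 : ((cnt p (fc b) c : ℤ) : ℝ) < k + 2 := by
      have := h.2
      unfold fc
      push_cast
      linarith
    have h5 : k - 1 < (cnt p (fc b) c : ℤ) := by exact_mod_cast h3
    have h6 : (cnt p (fc b) c : ℤ) < k + 2 := by exact_mod_cast h4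
    have h7 : (cnt p (fc b) c : ℤ) = k ∨ (cnt p (fc b) c : ℤ) = k + 1 := by omega
    have h8 : (cnt p (fc b) c : ℝ) = k ∨ (cnt p (fc b) c : ℝ) = k + 1 := by
      rcases h7 with h7 | h7
      · left
        exact_mod_cast h7
      · right
        exact_mod_cast h7
    rcases h8 with h8 | h8 <;> rw [h8] <;> ring
  rw [Finset.sum_congr rfl hval, Finset.sum_add_distrib, ← Finset.mul_sum, hsum,
    Finset.sum_const, card_Rp hp hp2, nsmul_eq_mul]
  have h9 : (2 * (k : ℝ) + 1 - 2 * θ) * (p * θ) + p * (θ ^ 2 - k * (k + 1)) =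
      p * ((θ - k) * (k + 1 - θ)) := by ring
  rw [h9]
  have h10 : (θ - k) * (k + 1 - θ) ≤ 1 / 4 := by nlinarith [sq_nonneg (2 * (θ - k) - 1)]
  calc (p : ℝ) * ((θ - k) * (k + 1 - θ)) ≤ p * (1 / 4) := by gcongr
    _ = p / 4 := by ring

lemma Scl_even (p q B a b : ℕ) (c : ℤ) : Scl p q B a b (-c) = Scl p q B a b c := by
  rw [Scl_eq, Scl_eq, cnt_neg (fun w hw => oc_neg hw), cnt_neg (fun w hw => pc_neg hw)]

theorem m6a : M6a := by
  intro p r q B a b m ω hp hp2 hpa hab habp hq hω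
  have ha : 1 ≤ a := le_trans hp.one_lt.le hpa
  have hb : 1 ≤ b := ha.trans hab
  have hp0 : (0 : ℝ) < p := by exact_mod_cast hp.pos
  set ebar : ℝ := r + (q * (2 * a - 1) - 2 * B * ((b : ℝ) - a)) / p with hebar
  set l : ℝ := ebar + 1 - 4 * m / p with hl
  set e : ℤ → ℝ := fun c => (r : ℝ) - (Scl p q B a b c : ℝ) with he
  have hI : (Ip p).Nonempty := ⟨0, Finset.mem_Icc.2 ⟨le_refl _, Int.natCast_nonneg _⟩⟩
  have h1 := m5a p (Lw r q B a b ω) (Ip p) (fun c => (c : ℚ) ^ 2) e m l hp hI (by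
    intro N t ht
    have h2 := m4a p r q B a b ω N 1 t hp hp2 ha hab habp hq hω (by
      intro c hc _
      have := ht c hc
      simp only [he] at this
      linarith)
    simpa using h2)
  refine VG_mono h1 (neg_le_neg ?_)
  -- the discrepancies
  set d1 : ℤ → ℝ := fun c => (cnt p (fc b) c : ℝ) - (2 * b - 1) / p with hd1
  set d2 : ℤ → ℝ := fun c => (cnt p (fc a) c : ℝ) - (2 * a - 1) / p with hd2
  have heps : ∀ c, e c + 1 - l = (-(B : ℝ) * d1 c + (B + q) * d2 c) + 4 * m / p := by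
    intro c
    have h3 := cnt_oc (p := p) ha hab c
    have h4 : ((cnt p (oc a b) c : ℕ) : ℝ) = cnt p (fc b) c - cnt p (fc a) c := by
      rw [← pc_eq_fc a, ← h3]
      push_cast
      ring
    simp only [he, hl, hebar, hd1, hd2, Scl_eq]
    push_cast
    rw [h4, pc_eq_fc]
    field_simp
    ring
  set ep : ℤ → ℝ := fun c => -(B : ℝ) * d1 c + (B + q) * d2 c with hep
  have hs1 : ∑ c ∈ Rp p, d1 c = 0 := by
    have := sum_cnt hp hp2 (fc b)
    rw [card_fc hb] at this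
    have h2 : ((∑ c ∈ Rp p, cnt p (fc b) c : ℕ) : ℝ) = ((2 * b - 1 : ℕ) : ℝ) := by rw [this]
    push_cast [Nat.cast_sub (show 1 ≤ 2 * b by omega)] at h2
    simp only [hd1]
    rw [Finset.sum_sub_distrib, h2, Finset.sum_const, card_Rp hp hp2, nsmul_eq_mul]
    field_simp
    ring
  have hs2 : ∑ c ∈ Rp p, d2 c = 0 := by
    have := sum_cnt hp hp2 (fc a)
    rw [card_fc ha] at this
    have h2 : ((∑ c ∈ Rp p, cnt p (fc a) c : ℕ) : ℝ) = ((2 * a - 1 : ℕ) : ℝ) := by rw [this]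
    push_cast [Nat.cast_sub (show 1 ≤ 2 * a by omega)] at h2
    simp only [hd2]
    rw [Finset.sum_sub_distrib, h2, Finset.sum_const, card_Rp hp hp2, nsmul_eq_mul]
    field_simp
    ring
  have hsum : ∑ c ∈ Rp p, ep c = 0 := by
    simp only [hep]
    rw [Finset.sum_add_distrib, ← Finset.mul_sum, ← Finset.mul_sum, hs1, hs2]
    ring
  have hsq : ∑ c ∈ Rp p, ep c ^ 2 ≤ (2 * B + q) ^ 2 * (p / 4) := by
    have h3 : ∀ c ∈ Rp p, ep c ^ 2 ≤
        (B * (2 * B + q)) * d1 c ^ 2 + ((B + q) * (2 * B + q)) * d2 c ^ 2 := by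
      intro c _
      simp only [hep]
      have hB : (0 : ℝ) ≤ B := Nat.cast_nonneg _
      have hq0 : (0 : ℝ) ≤ q := Nat.cast_nonneg _
      nlinarith [mul_nonneg (mul_nonneg hB (add_nonneg hB hq0)) (sq_nonneg (d1 c + d2 c))]
    refine (Finset.sum_le_sum h3).trans ?_
    rw [Finset.sum_add_distrib, ← Finset.mul_sum, ← Finset.mul_sum]
    have h4 := disc_sq hp hp2 hb
    have h5 := disc_sq hp hp2 ha
    have h6 : (B * (2 * B + q) : ℝ) * ∑ c ∈ Rp p, d1 c ^ 2 ≤ (B * (2 * B + q)) * (p / 4) :=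
      mul_le_mul_of_nonneg_left h4 (by positivity)
    have h7 : ((B + q) * (2 * B + q) : ℝ) * ∑ c ∈ Rp p, d2 c ^ 2 ≤
        ((B + q) * (2 * B + q)) * (p / 4) :=
      mul_le_mul_of_nonneg_left h5 (by positivity)
    refine (add_le_add h6 h7).trans (le_of_eq ?_)
    ring
  have hep0 : |ep 0| ≤ 2 * B + q := by
    have h3 := disc_abs hp.pos hb 0
    have h4 := disc_abs hp.pos ha 0
    simp only [hep]
    calc |-(B : ℝ) * d1 0 + (B + q) * d2 0| ≤ |-(B : ℝ) * d1 0| + |(B + q : ℝ) * d2 0| :=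
          abs_add_le _ _
      _ = B * |d1 0| + (B + q) * |d2 0| := by
          rw [abs_mul, abs_mul, abs_neg, abs_of_nonneg (Nat.cast_nonneg B : (0 : ℝ) ≤ B),
            abs_of_nonneg (by positivity : (0 : ℝ) ≤ (B : ℝ) + q)]
      _ ≤ B * 1 + (B + q) * 1 := by gcongr
      _ = 2 * B + q := by ring
  have heven : ∀ c, ep (-c) = ep c := by
    intro c
    simp only [hep, hd1, hd2]
    rw [cnt_neg (fun w hw => fc_neg hw), cnt_neg (fun w hw => fc_neg hw)]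
  have hfold := sum_Ip p (fun c => (ep c + 4 * m / p) ^ 2) (fun c => by rw [heven])
  have hmain : ∑ c ∈ Ip p, (e c + 1 - l) ^ 2 =
      1 / 2 * (∑ c ∈ Rp p, ep c ^ 2 + 16 * m ^ 2 / p + (ep 0 + 4 * m / p) ^ 2) := by
    rw [Finset.sum_congr rfl fun c _ => by rw [heps c]]
    rw [hfold]
    congr 2
    have h3 : ∀ c ∈ Rp p, (ep c + 4 * m / p) ^ 2 =
        ep c ^ 2 + (8 * m / p) * ep c + (4 * m / p) ^ 2 := by
      intro c _
      ring
    rw [Finset.sum_congr rfl h3, Finset.sum_add_distrib, Finset.sum_add_distrib,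
      ← Finset.mul_sum, hsum, Finset.sum_const, card_Rp hp hp2, nsmul_eq_mul]
    field_simp
    ring
  rw [hmain]
  have h8 : (ep 0 + 4 * m / p) ^ 2 ≤ (4 * m / p + 2 * B + q) ^ 2 := by
    rw [abs_le] at hep0
    have h9 : (0 : ℝ) ≤ 4 * m / p := by positivity
    have hB : (0 : ℝ) ≤ B := Nat.cast_nonneg _
    have hq0 : (0 : ℝ) ≤ q := Nat.cast_nonneg _
    apply sq_le_sq'
    · linarith
    · linarith
  have h9 : l * m = ((r : ℝ) + 1) * m + ((q * (2 * a - 1) - 2 * B * ((b : ℝ) - a)) * m) / p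
      - 4 * m ^ 2 / p := by
    simp only [hl, hebar]
    ring
  have h10 : ((q * (2 * a - 1) - 2 * B * ((b : ℝ) - a)) * m) / p - 4 * m ^ 2 / p +
      2 * m ^ 2 / p ≤ ((2 * q * a - 2 * B * ((b : ℝ) - a)) * m - 2 * m ^ 2) / p := by
    rw [← sub_div, ← add_div]
    apply div_le_div_of_nonneg_right _ hp0.le
    have hq0 : (0 : ℝ) ≤ q := Nat.cast_nonneg _
    have hm0 : (0 : ℝ) ≤ m := Nat.cast_nonneg _
    nlinarith [mul_nonneg hq0 hm0]
  have h11 : (16 * (m : ℝ) ^ 2 / p) = 8 * (2 * m ^ 2 / p) := by ring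
  rw [h9, h11]
  linarith

/-- filter sum over `Ip` of even functions vanishing at `0` -/
lemma sum_filter_Ip (p : ℕ) (P : ℤ → Prop) [DecidablePred P] (hP : ∀ c, P (-c) ↔ P c)
    (h0 : ¬ P 0) (f : ℤ → ℝ) (hf : ∀ c, f (-c) = f c) :
    ∑ c ∈ (Ip p).filter P, f c = 1 / 2 * ∑ c ∈ (Rp p).filter P, f c := by
  rw [Finset.sum_filter, Finset.sum_filter,
    sum_Ip p (fun c => if P c then f c else 0) (fun c => by simp only [hP c, hf c])]
  simp [h0]

/-- the common part of M6b and M6c -/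
lemma m6_two (p r q B a b m : ℕ) (ω : ℤ → ℕ → ℚ) (l : ℝ) (hl : 0 ≤ l)
    (hp : p.Prime) (hp2 : p ≠ 2) (ha : 1 ≤ a) (hab : a ≤ b) (habp : a + b ≤ p ^ 2) (hq : 1 ≤ q)
    (hω : ∀ u ∈ pc a, ∀ i : ℕ, 1 ≤ i → i ≤ q → VG p (-((i : ℝ) + r)) (ω u i))
    (hω' : ∀ u ∈ pc a, u + a - 1 < p → ∀ i : ℕ, 1 ≤ i → i ≤ q → VG p 0 (ω u i)) :
    VG p (-(l * m + 1 / 4 * ∑ c ∈ (Ip p).filter (fun c => 2 ≤ cnt p (pc a) c),
      ((r : ℝ) - (Scl p q B a b c : ℝ) + 1 - l) ^ 2)) (hank (Lw r q B a b ω) m) := by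
  refine m5b p (Lw r q B a b ω) ((Ip p).filter (fun c => 2 ≤ cnt p (pc a) c))
    (fun c => (c : ℚ) ^ 2) (fun c => (r : ℝ) - (Scl p q B a b c : ℝ)) m l hp hl ?_
  intro N k t ht h
  have h2 := m4b p r q B a b ω
    (fun c => if 2 ≤ cnt p (pc a) c then N c else 0) (X ^ k) t hp hp2 ha hab habp hq hω hω' ht (by
      intro c hc hc2
      have h3 : 2 ≤ cnt p (pc a) c := hc2
      simp only [if_pos h3]
      have := h c (Finset.mem_filter.2 ⟨hc, h3⟩)
      linarith)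
  have h3 : (∏ c ∈ Ip p, (X - Polynomial.C ((c : ℚ) ^ 2)) ^
      (if 2 ≤ cnt p (pc a) c then N c else 0)) * (X ^ k : ℤ[X]).map (Int.castRingHom ℚ) =
      (∏ c ∈ (Ip p).filter (fun c => 2 ≤ cnt p (pc a) c),
        (X - Polynomial.C ((c : ℚ) ^ 2)) ^ (N c)) * X ^ k := by
    rw [Finset.prod_filter, Polynomial.map_pow, Polynomial.map_X]
    congr 1
    refine Finset.prod_congr rfl fun c _ => ?_
    split_ifs <;> simp
  rw [h3] at h2
  exact h2

/-- number of residues with two poles -/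
lemma cnt_pc_le {p a : ℕ} (hp : p.Prime) (ha : 1 ≤ a) (hap : a ≤ p) (c : ℤ) :
    cnt p (pc a) c ≤ 2 := by
  have h := (cnt_Ioc hp.pos (-(a : ℤ)) ((a : ℤ) - 1) (by omega) c).2
  have hp0 : (0 : ℝ) < p := by exact_mod_cast hp.pos
  have h1 : ((((a : ℤ) - 1) - (-(a : ℤ)) : ℤ) : ℝ) / p < 2 := by
    rw [div_lt_iff₀ hp0]
    push_cast
    have : (a : ℝ) ≤ p := by exact_mod_cast hap
    linarith
  have h2 : (cnt p (pc a) c : ℝ) < 3 := by
    rw [pc_eq_fc]
    unfold fc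
    linarith
  have h3 : cnt p (pc a) c < 3 := by exact_mod_cast h2
  omega

lemma cnt_pc_ge {p a : ℕ} (hp : p.Prime) (ha : 1 ≤ a) (hap : p ≤ 2 * a - 1) (c : ℤ) :
    1 ≤ cnt p (pc a) c := by
  have h := (cnt_Ioc hp.pos (-(a : ℤ)) ((a : ℤ) - 1) (by omega) c).1
  have hp0 : (0 : ℝ) < p := by exact_mod_cast hp.pos
  have h1 : 1 ≤ ((((a : ℤ) - 1) - (-(a : ℤ)) : ℤ) : ℝ) / p := by
    rw [le_div_iff₀ hp0]
    push_cast
    have : ((p : ℕ) : ℝ) ≤ ((2 * a - 1 : ℕ) : ℝ) := by exact_mod_cast hap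
    push_cast [Nat.cast_sub (show 1 ≤ 2 * a by omega)] at this
    linarith
  have h2 : (0 : ℝ) < cnt p (pc a) c := by
    rw [pc_eq_fc]
    unfold fc
    linarith
  have h3 : 0 < cnt p (pc a) c := by exact_mod_cast h2
  omega

lemma card_two {p a : ℕ} (hp : p.Prime) (hp2 : p ≠ 2) (ha : 1 ≤ a) (hap : a ≤ p)
    (hpa : p ≤ 2 * a - 1) :
    ((Rp p).filter (fun c => 2 ≤ cnt p (pc a) c)).card = 2 * a - 1 - p := by
  have h1 := sum_cnt hp hp2 (pc a)
  have h2 : (pc a).card = 2 * a - 1 := by rw [pc_eq_fc, card_fc ha]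
  rw [h2] at h1
  have h3 : ∀ c ∈ Rp p, cnt p (pc a) c = 1 + if 2 ≤ cnt p (pc a) c then 1 else 0 := by
    intro c _
    have := cnt_pc_le hp ha hap c
    have := cnt_pc_ge hp ha hpa c
    split_ifs <;> omega
  rw [Finset.sum_congr rfl h3, Finset.sum_add_distrib, Finset.sum_const, card_Rp hp hp2,
    smul_eq_mul, mul_one, ← Finset.card_filter] at h1
  omega

lemma cnt_zero {p a : ℕ} (hp : p.Prime) (ha : 1 ≤ a) (hap : a ≤ p) :
    ¬ 2 ≤ cnt p (pc a) 0 := by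
  have h1 : (pc a).filter (fun w => (p : ℤ) ∣ w - 0) ⊆ {0} := by
    intro w hw
    rw [Finset.mem_filter] at hw
    simp only [pc, Finset.mem_Icc, sub_zero] at hw
    rw [Finset.mem_singleton]
    obtain ⟨k, hk⟩ := hw.2
    by_contra hw0
    have h2 : (p : ℤ) ≤ |w| := Int.le_of_dvd (abs_pos.2 hw0) ((dvd_abs _ _).2 hw.2)
    have h3 : |w| ≤ (a : ℤ) - 1 := by
      rw [abs_le]
      constructor <;> linarith [hw.1.1, hw.1.2]
    have h4 : (a : ℤ) ≤ p := by exact_mod_cast hap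
    omega
  have h2 := Finset.card_le_card h1
  rw [Finset.card_singleton] at h2
  unfold cnt
  omega

theorem m6c : M6c := by
  intro p a m ω hp hp2 hpa1 hpa2 hpsq hω hω'
  have ha : 1 ≤ a := by
    by_contra h
    have : a = 0 := by omega
    subst this
    have := hp.two_le
    omega
  have hap : a ≤ p := by omega
  have hodd := odd_p hp hp2
  have hpa : p ≤ 2 * a - 1 := by omega
  have h1 := m6_two p 2 8 3 a (2 * a) m ω 0 le_rfl hp hp2 ha (by omega) (by omega) (by omega)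
    (by simpa using hω) hω'
  refine VG_mono h1 (neg_le_neg ?_)
  rw [zero_mul, zero_add]
  rw [sum_filter_Ip p (fun c => 2 ≤ cnt p (pc a) c)
    (fun c => by rw [cnt_neg (fun w hw => pc_neg hw)]) (cnt_zero hp ha hap)
    (fun c => (((2 : ℕ) : ℝ) - (Scl p 8 3 a (2 * a) c : ℝ) + 1 - 0) ^ 2)
    (fun c => by simp only [Scl_even])]
  have h2 : ∀ c ∈ (Rp p).filter (fun c => 2 ≤ cnt p (pc a) c),
      (((2 : ℕ) : ℝ) - (Scl p 8 3 a (2 * a) c : ℝ) + 1 - 0) ^ 2 ≤ 361 := by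
    intro c hc
    rw [Finset.mem_filter] at hc
    have h3 : cnt p (pc a) c = 2 := le_antisymm (cnt_pc_le hp ha hap c) hc.2
    have h4 := cnt_oc (p := p) ha (show a ≤ 2 * a by omega) c
    have h5 := (cnt_Ioc hp.pos (-((2 * a : ℕ) : ℤ)) (((2 * a : ℕ) : ℤ) - 1) (by omega) c).2
    have hp0 : (0 : ℝ) < p := by exact_mod_cast hp.pos
    have h6 : (((((2 * a : ℕ) : ℤ) - 1) - (-((2 * a : ℕ) : ℤ)) : ℤ) : ℝ) / p < 4 := by
      rw [div_lt_iff₀ hp0]
      push_cast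
      have : (a : ℝ) ≤ p := by exact_mod_cast hap
      linarith
    have h7 : (cnt p (fc (2 * a)) c : ℝ) < 5 := by
      unfold fc
      linarith
    have h8 : cnt p (fc (2 * a)) c < 5 := by exact_mod_cast h7
    have h9 : cnt p (oc a (2 * a)) c ≤ 2 := by omega
    rw [Scl_eq, h3]
    push_cast
    have h10 : ((cnt p (oc a (2 * a)) c : ℕ) : ℝ) ≤ 2 := by exact_mod_cast h9
    have h11 : (0 : ℝ) ≤ (cnt p (oc a (2 * a)) c : ℕ) := Nat.cast_nonneg _
    nlinarith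
  have h3 := Finset.sum_le_sum h2
  rw [Finset.sum_const, card_two hp hp2 ha hap hpa, nsmul_eq_mul] at h3
  have h4 : ((2 * a - 1 - p : ℕ) : ℝ) ≤ 2 * (a : ℝ) - p := by
    rw [Nat.cast_sub hpa, Nat.cast_sub (show 1 ≤ 2 * a by omega)]
    push_cast
    linarith
  have h5 := mul_le_mul_of_nonneg_left (mul_le_mul_of_nonneg_left h3
    (show (0 : ℝ) ≤ 1 / 2 by norm_num)) (show (0 : ℝ) ≤ 1 / 4 by norm_num)
  refine h5.trans ?_
  linarith

/-- two elements of a class give count at least two -/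
lemma two_le_cnt {p : ℕ} {s : Finset ℤ} {c x y : ℤ} (hx : x ∈ s) (hy : y ∈ s) (hxy : x ≠ y)
    (hxc : (p : ℤ) ∣ x - c) (hyc : (p : ℤ) ∣ y - c) : 2 ≤ cnt p s c := by
  have h1 : ({x, y} : Finset ℤ) ⊆ s.filter fun w => (p : ℤ) ∣ w - c := by
    intro w hw
    rw [Finset.mem_insert, Finset.mem_singleton] at hw
    rw [Finset.mem_filter]
    rcases hw with rfl | rfl
    · exact ⟨hx, hxc⟩
    · exact ⟨hy, hyc⟩
  have h2 := Finset.card_le_card h1
  rw [Finset.card_pair hxy] at h2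
  exact h2

/-- number of outer points in two-pole classes -/
lemma sum_outer {p a : ℕ} (hp : p.Prime) (hp2 : p ≠ 2) (hap : a ≤ p)
    (hpa : 2 * p + 1 ≤ 3 * a) :
    2 * (3 * a - 1 - 2 * p) ≤
      ∑ c ∈ (Rp p).filter (fun c => 2 ≤ cnt p (pc a) c), cnt p (oc a (2 * a)) c := by
  set s : Finset ℤ := Finset.Icc (2 * (p : ℤ) - a + 1) (2 * a - 1) ∪
    Finset.Icc (-(2 * (a : ℤ) - 1)) (-(2 * p - a + 1)) with hs
  have hp1 : 1 ≤ p := hp.one_lt.le
  have hsub : s ⊆ oc a (2 * a) := by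
    intro w hw
    simp only [hs, Finset.mem_union, Finset.mem_Icc] at hw
    simp only [oc, Finset.mem_union, Finset.mem_Icc]
    push_cast
    omega
  have hcard : s.card = 2 * (3 * a - 1 - 2 * p) := by
    rw [hs, Finset.card_union_of_disjoint, Int.card_Icc, Int.card_Icc]
    · omega
    · rw [Finset.disjoint_left]
      intro w hw hw'
      simp only [Finset.mem_Icc] at hw hw'
      omega
  have hclass : ∀ c, 0 < cnt p s c → 2 ≤ cnt p (pc a) c := by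
    intro c hc
    unfold cnt at hc
    obtain ⟨w, hw⟩ := Finset.card_pos.1 hc
    rw [Finset.mem_filter] at hw
    obtain ⟨hw, hwc⟩ := hw
    simp only [hs, Finset.mem_union, Finset.mem_Icc] at hw
    rcases hw with hw | hw
    · refine two_le_cnt (x := w - p) (y := w - 2 * p) ?_ ?_ ?_ ?_ ?_
      · simp only [pc, Finset.mem_Icc]; omega
      · simp only [pc, Finset.mem_Icc]; omega
      · omega
      · have := dvd_sub hwc (dvd_refl (p : ℤ))
        have h : w - c - p = w - p - c := by ring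
        rwa [h] at this
      · have := dvd_sub hwc (dvd_mul_left (p : ℤ) 2)
        have h : w - c - 2 * p = w - 2 * p - c := by ring
        rwa [h] at this
    · refine two_le_cnt (x := w + p) (y := w + 2 * p) ?_ ?_ ?_ ?_ ?_
      · simp only [pc, Finset.mem_Icc]; omega
      · simp only [pc, Finset.mem_Icc]; omega
      · omega
      · have := dvd_add hwc (dvd_refl (p : ℤ))
        have h : w - c + p = w + p - c := by ring
        rwa [h] at this
      · have := dvd_add hwc (dvd_mul_left (p : ℤ) 2)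
        have h : w - c + 2 * p = w + 2 * p - c := by ring
        rwa [h] at this
  have h1 := sum_cnt hp hp2 s
  rw [hcard] at h1
  rw [← h1]
  have h2 : ∑ c ∈ Rp p, cnt p s c =
      ∑ c ∈ (Rp p).filter (fun c => 2 ≤ cnt p (pc a) c), cnt p s c := by
    rw [Finset.sum_filter]
    refine Finset.sum_congr rfl fun c _ => ?_
    split_ifs with h
    · rfl
    · by_contra h3
      exact h (hclass c (Nat.pos_of_ne_zero h3))
  rw [h2]
  refine Finset.sum_le_sum fun c _ => ?_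
  exact Finset.card_le_card (Finset.filter_subset_filter _ hsub)

theorem m6b : M6b := by
  intro p a m ω hp hp2 hap hpa1 hpsq hω hω'
  have hp1 : 1 < p := hp.one_lt
  have ha : 1 ≤ a := by omega
  have hpa : p ≤ 2 * a - 1 := by omega
  have h1 := m6_two p 2 8 3 a (2 * a) m ω 3 (by norm_num) hp hp2 ha (by omega) (by omega)
    (by omega) (by simpa using hω) hω'
  refine VG_mono h1 (neg_le_neg ?_)
  rw [sum_filter_Ip p (fun c => 2 ≤ cnt p (pc a) c)
    (fun c => by rw [cnt_neg (fun w hw => pc_neg hw)]) (cnt_zero hp ha hap)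
    (fun c => (((2 : ℕ) : ℝ) - (Scl p 8 3 a (2 * a) c : ℝ) + 1 - 3) ^ 2)
    (fun c => by simp only [Scl_even])]
  have h2 : ∀ c ∈ (Rp p).filter (fun c => 2 ≤ cnt p (pc a) c),
      (((2 : ℕ) : ℝ) - (Scl p 8 3 a (2 * a) c : ℝ) + 1 - 3) ^ 2 ≤
        256 - 78 * (cnt p (oc a (2 * a)) c : ℝ) := by
    intro c hc
    rw [Finset.mem_filter] at hc
    have h3 : cnt p (pc a) c = 2 := le_antisymm (cnt_pc_le hp ha hap c) hc.2
    have h4 := cnt_oc (p := p) ha (show a ≤ 2 * a by omega) c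
    have h5 := (cnt_Ioc hp.pos (-((2 * a : ℕ) : ℤ)) (((2 * a : ℕ) : ℤ) - 1) (by omega) c).2
    have hp0 : (0 : ℝ) < p := by exact_mod_cast hp.pos
    have h6 : (((((2 * a : ℕ) : ℤ) - 1) - (-((2 * a : ℕ) : ℤ)) : ℤ) : ℝ) / p < 4 := by
      rw [div_lt_iff₀ hp0]
      push_cast
      have : (a : ℝ) ≤ p := by exact_mod_cast hap
      linarith
    have h7 : (cnt p (fc (2 * a)) c : ℝ) < 5 := by
      unfold fc
      linarith
    have h8 : cnt p (fc (2 * a)) c < 5 := by exact_mod_cast h7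
    have h9 : cnt p (oc a (2 * a)) c ≤ 2 := by omega
    rw [Scl_eq, h3]
    have h10 : cnt p (oc a (2 * a)) c = 0 ∨ cnt p (oc a (2 * a)) c = 1 ∨
        cnt p (oc a (2 * a)) c = 2 := by omega
    rcases h10 with h10 | h10 | h10 <;> rw [h10] <;> norm_num
  have h3 := Finset.sum_le_sum h2
  rw [Finset.sum_sub_distrib, Finset.sum_const, card_two hp hp2 ha hap hpa, nsmul_eq_mul,
    ← Finset.mul_sum] at h3
  have h4 : ((2 * a - 1 - p : ℕ) : ℝ) = 2 * (a : ℝ) - 1 - p := by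
    rw [Nat.cast_sub hpa, Nat.cast_sub (show 1 ≤ 2 * a by omega)]
    push_cast
    ring
  have h5 : (2 * (3 * (a : ℝ) - 1 - 2 * p)) ≤
      ∑ c ∈ (Rp p).filter (fun c => 2 ≤ cnt p (pc a) c), (cnt p (oc a (2 * a)) c : ℝ) := by
    have h6 := sum_outer hp hp2 hap hpa1
    have h7 : ((2 * (3 * a - 1 - 2 * p) : ℕ) : ℝ) ≤
        ((∑ c ∈ (Rp p).filter (fun c => 2 ≤ cnt p (pc a) c), cnt p (oc a (2 * a)) c : ℕ) : ℝ) := by
      exact_mod_cast h6
    push_cast [Nat.cast_sub (show 2 * p ≤ 3 * a - 1 by omega),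
      Nat.cast_sub (show 1 ≤ 3 * a by omega)] at h7
    exact h7
  have h8 := mul_le_mul_of_nonneg_left (mul_le_mul_of_nonneg_left h3
    (show (0 : ℝ) ≤ 1 / 2 by norm_num)) (show (0 : ℝ) ≤ 1 / 4 by norm_num)
  refine (add_le_add_right h8 _).trans ?_
  rw [h4]
  linarith

end Z579
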