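import Pool.Agent.Lib.Z579.Defs

open Polynomial Finset

namespace Z579

/-- general congruence: the Gram matrix of polynomials of degree `< m` -/
theorem gram_eq (L : ℚ[X] →ₗ[ℚ] ℚ) {ι : Type*} [Fintype ι] (m : ℕ) (P : ι → ℚ[X])
    (hP : ∀ i, (P i).natDegree < m ∨ P i = 0) :
    (Matrix.of fun i j : ι => L (P i * P j)) =
      (Matrix.of fun (i : ι) (k : Fin m) => (P i).coeff k) *
        (Matrix.of fun i j : Fin m => L (X ^ ((i : ℕ) + (j : ℕ)))) *
        (Matrix.of fun (i : ι) (k : Fin m) => (P i).coeff k).transpose := by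
  have hrep : ∀ i, P i = ∑ k : Fin m, (P i).coeff k • (X ^ (k : ℕ) : ℚ[X]) := by
    intro i
    rcases hP i with h | h
    · conv_lhs => rw [(P i).as_sum_range' m h]
      rw [Finset.sum_range]
      refine Finset.sum_congr rfl fun k _ => ?_
      rw [← C_mul_X_pow_eq_monomial, smul_eq_C_mul]
    · simp [h]
  ext i j
  simp only [Matrix.of_apply, Matrix.mul_apply, Matrix.transpose_apply]
  conv_lhs => rw [hrep i, hrep j]
  rw [Finset.sum_mul_sum, map_sum]
  simp_rw [map_sum]
  rw [Finset.sum_comm]
  refine Finset.sum_congr rfl fun l _ => ?_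
  rw [Finset.sum_mul]
  refine Finset.sum_congr rfl fun k _ => ?_
  rw [smul_mul_smul_comm, map_smul, smul_eq_mul, pow_add]
  ring

theorem m0 : M0 := by
  intro L m P hm hd
  have h := gram_eq L m (fun i : Fin m => P i) (fun i => Or.inl (by rw [hd]; exact i.2))
  rw [h, Matrix.det_mul, Matrix.det_mul, Matrix.det_transpose]
  have hT : (Matrix.of fun (i : Fin m) (k : Fin m) => (P i).coeff k).det = 1 := by
    rw [Matrix.det_of_lowerTriangular]
    · refine Finset.prod_eq_one fun i _ => ?_
      rw [Matrix.of_apply]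
      have := hm i
      rw [Monic, leadingCoeff, hd] at this
      exact this
    · intro i j hij
      rw [Matrix.of_apply]
      apply coeff_eq_zero_of_natDegree_lt
      rw [hd]
      exact hij
  rw [hT, hank]
  ring

end Z579
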