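import Pool.Agent.Lib.Z579.M4
import Pool.Agent.Lib.Z579.M0

open Polynomial Finset

namespace Z579

set_option linter.unusedSectionVars false

theorem m6d : M6d := by
  intro p r q B a b m ω hp hap ha hab hq hω
  have := Fact.mk hp
  have h : VG p (∑ i : Fin m, (0 : ℝ) + ∑ j : Fin m, (0 : ℝ)) (hank (Lw r q B a b ω) m) := by
    rw [hank]
    refine VG.det fun i j => ?_
    rw [Matrix.of_apply, Lw_apply]
    refine VG.sum fun u hu => VG.sum fun k hk => ?_
    rw [Finset.mem_Icc] at hk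
    have hone : ∀ w ∈ pc a, (p : ℤ) ∣ w - u → w = u := by
      intro w hw hd
      have hu' : 1 - (a : ℤ) ≤ u ∧ u ≤ (a : ℤ) - 1 := by simpa [pc] using hu
      have hw' : 1 - (a : ℤ) ≤ w ∧ w ≤ (a : ℤ) - 1 := by simpa [pc] using hw
      have h1 := Int.eq_zero_of_abs_lt_dvd hd (by rw [abs_lt]; omega)
      omega
    have h1 := base_WA_zero (q := q) (B := B) (b := b) hone
    have h2 := WA.aeval_int (p := p) (le_refl (0 : ℝ)) (-u) (X ^ ((i : ℕ) + (j : ℕ)))
    rw [Polynomial.map_pow, Polynomial.map_X] at h2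
    have h3 := (h1.mul h2) (q - k)
    have h4 := ((VG.nat (p := p) (Nat.choose (k + r - 1) r)).mul (hω u hu k hk.1 hk.2)).mul h3
    refine VG.mono h4 ?_
    simp
  simpa using h

section small
variable {p : ℕ} [hp : Fact p.Prime]

/-- truncated valuation -/
noncomputable def vK (p K : ℕ) (c : ℤ) : ℕ := ((Finset.Icc 1 K).filter fun k => ((p : ℤ) ^ k) ∣ c).card

lemma vK_le (K : ℕ) (c : ℤ) : vK p K c ≤ K := by
  unfold vK
  refine (Finset.card_filter_le _ _).trans ?_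
  simp

lemma vK_neg (K : ℕ) (c : ℤ) : vK p K (-c) = vK p K c := by
  unfold vK; simp

lemma VG_vK (K : ℕ) (c : ℤ) : VG p (vK p K c) (c : ℚ) := by
  rcases eq_or_ne c 0 with h | h
  · left; simp [h]
  right
  rw [padicValRat.of_int]
  have h1 : vK p K c ≤ padicValInt p c := by
    unfold vK
    have : ((Finset.Icc 1 K).filter fun k => ((p : ℤ) ^ k) ∣ c) ⊆
        Finset.Icc 1 (padicValInt p c) := by
      intro k hk
      rw [Finset.mem_filter, Finset.mem_Icc] at hk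
      rw [Finset.mem_Icc]
      exact ⟨hk.1.1, ((padicValInt_dvd_iff (p := p) k c).1 hk.2).resolve_left h⟩
    refine (Finset.card_le_card this).trans ?_
    simp
  exact_mod_cast h1

lemma fac_upper (n : ℕ) : (padicValNat p n.factorial : ℝ) ≤ n / ((p : ℝ) - 1) := by
  have hp1 : (1 : ℝ) < p := by exact_mod_cast hp.out.one_lt
  rw [le_div_iff₀ (by linarith)]
  have h := sub_one_mul_padicValNat_factorial (p := p) n
  have h1 : (p - 1) * padicValNat p n.factorial ≤ n := by rw [h]; exact Nat.sub_le _ _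
  have h2 : (((p - 1 : ℕ) : ℝ)) * (padicValNat p n.factorial : ℝ) ≤ n := by exact_mod_cast h1
  rw [Nat.cast_sub hp.out.one_lt.le] at h2
  push_cast at h2
  linarith

lemma fac_lower (n : ℕ) : (n : ℝ) / ((p : ℝ) - 1) - (Nat.log p n + 1) ≤
    (padicValNat p n.factorial : ℝ) := by
  have hp1 : (1 : ℝ) < p := by exact_mod_cast hp.out.one_lt
  rcases Nat.eq_zero_or_pos n with h0 | h0
  · subst h0; simp
  have h := sub_one_mul_padicValNat_factorial (p := p) n
  have hds : (p.digits n).sum ≤ (p - 1) * (Nat.log p n + 1) := by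
    have h1 : (p.digits n).sum ≤ (p.digits n).length • (p - 1) := by
      refine List.sum_le_card_nsmul _ _ fun x hx => ?_
      have := Nat.digits_lt_base hp.out.one_lt hx
      omega
    rw [Nat.length_digits p n hp.out.one_lt h0.ne'] at h1
    rw [mul_comm]; simpa using h1
  have hle : (p.digits n).sum ≤ n := Nat.digit_sum_le p n
  have h1 : (p - 1) * padicValNat p n.factorial + (p - 1) * (Nat.log p n + 1) ≥ n := by
    rw [h]; omega
  have h2 : (((p - 1 : ℕ) : ℝ)) * (padicValNat p n.factorial : ℝ) +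
      ((p - 1 : ℕ) : ℝ) * ((Nat.log p n : ℝ) + 1) ≥ n := by exact_mod_cast h1
  rw [Nat.cast_sub hp.out.one_lt.le] at h2
  push_cast at h2
  rw [sub_le_iff_le_add, div_le_iff₀ (by linarith)]
  nlinarith

/-- sum of truncated valuations over consecutive integers -/
lemma cons_sum (s u : ℤ) (n K : ℕ) (hn : n < p ^ (K + 1)) :
    (n : ℝ) / ((p : ℝ) - 1) - (K + 1) ≤ ∑ w ∈ Finset.Ico s (s + n), (vK p K (w - u) : ℝ) := by
  have hlog : Nat.log p n < K + 1 := by
    rcases Nat.eq_zero_or_pos n with h0 | h0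
    · subst h0; simp
    exact (Nat.log_lt_iff_lt_pow hp.out.one_lt h0.ne').2 hn
  have h1 : padicValNat p n.factorial ≤ ∑ w ∈ Finset.Ico s (s + n), vK p K (w - u) := by
    rw [padicValNat_factorial (p := p) hlog]
    have h2 : ∑ w ∈ Finset.Ico s (s + n), vK p K (w - u) =
        ∑ k ∈ Finset.Icc 1 K, ((Finset.Ico s (s + n)).filter fun w => ((p : ℤ) ^ k) ∣ w - u).card := by
      simp only [vK, Finset.card_filter]
      rw [Finset.sum_comm]
    rw [h2]
    have h3 : Finset.Ico 1 (K + 1) = Finset.Icc 1 K := by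
      ext x; simp only [Finset.mem_Ico, Finset.mem_Icc]; omega
    rw [h3]
    refine Finset.sum_le_sum fun k _ => ?_
    have hpk : (0 : ℤ) < (p : ℤ) ^ k := pow_pos (by exact_mod_cast hp.out.pos) k
    have h4 := Int.Ico_filter_modEq_card s (s + n) hpk u
    have h5 : ((Finset.Ico s (s + n)).filter fun w => w ≡ u [ZMOD (p : ℤ) ^ k]) =
        ((Finset.Ico s (s + n)).filter fun w => ((p : ℤ) ^ k) ∣ w - u) := by
      refine Finset.filter_congr fun w _ => ?_
      rw [Int.modEq_iff_dvd, ← dvd_neg, neg_sub]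
    rw [h5] at h4
    have h6 : ((n / p ^ k : ℕ) : ℤ) ≤
        ⌈(((s + n : ℤ) : ℚ) - u) / (((p : ℤ) ^ k : ℤ) : ℚ)⌉ -
          ⌈((s : ℚ) - u) / (((p : ℤ) ^ k : ℤ) : ℚ)⌉ := by
      have h7 : (((n / p ^ k : ℕ) : ℤ) : ℚ) ≤ (n : ℚ) / (((p : ℤ) ^ k : ℤ) : ℚ) := by
        push_cast
        have := Nat.cast_div_le (α := ℚ) (m := n) (n := p ^ k)
        push_cast at this
        exact this
      have h8 : (((s + n : ℤ) : ℚ) - u) / (((p : ℤ) ^ k : ℤ) : ℚ) =
          ((s : ℚ) - u) / (((p : ℤ) ^ k : ℤ) : ℚ) + (n : ℚ) / (((p : ℤ) ^ k : ℤ) : ℚ) := by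
        push_cast; ring
      rw [h8, le_sub_iff_add_le, add_comm, ← Int.ceil_add_intCast]
      exact Int.ceil_le_ceil (by linarith)
    have h9 : (((Finset.Ico s (s + n)).filter fun w => ((p : ℤ) ^ k) ∣ w - u).card : ℤ) ≥
        ((n / p ^ k : ℕ) : ℤ) := by
      rw [h4]
      exact le_max_of_le_left h6
    exact_mod_cast h9
  have h2 := fac_lower (p := p) n
  have h3 : (Nat.log p n : ℝ) ≤ K := by exact_mod_cast Nat.lt_succ_iff.1 hlog
  have h4 : (padicValNat p n.factorial : ℝ) ≤ ∑ w ∈ Finset.Ico s (s + n), (vK p K (w - u) : ℝ) := by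
    exact_mod_cast h1
  linarith

lemma cons_sum_range (u : ℤ) (n K : ℕ) (hn : n < p ^ (K + 1)) :
    (n : ℝ) / ((p : ℝ) - 1) - (K + 1) ≤ ∑ l ∈ Finset.range n, (vK p K ((l : ℤ) - u) : ℝ) := by
  have h := cons_sum (p := p) 0 u n K hn
  have h1 : ∑ w ∈ Finset.Ico (0 : ℤ) (0 + n), (vK p K (w - u) : ℝ) =
      ∑ l ∈ Finset.range n, (vK p K ((l : ℤ) - u) : ℝ) := by
    symm
    refine Finset.sum_nbij (fun l : ℕ => (l : ℤ)) ?_ ?_ ?_ ?_
    · intro l hl
      rw [Finset.mem_range] at hl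
      rw [Finset.mem_Ico]; omega
    · intro x _ y _ hxy
      have hxy' : (x : ℤ) = (y : ℤ) := hxy
      exact_mod_cast hxy'
    · intro x hx
      rw [Finset.mem_coe, Finset.mem_Ico] at hx
      refine ⟨x.toNat, ?_, ?_⟩
      · rw [Finset.mem_coe, Finset.mem_range]; omega
      · show ((x.toNat : ℕ) : ℤ) = x
        omega
    · intro _ _; rfl
  rw [h1] at h
  exact h

/-- valuation of the product of differences -/
lemma sum_right (u : ℤ) (n : ℕ) :
    ∑ w ∈ Finset.Ioc u (u + n), (padicValRat p ((w - u : ℤ) : ℚ) : ℝ) = padicValNat p n.factorial := by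
  induction n with
  | zero => simp
  | succ n ih =>
    have h1 : Finset.Ioc u (u + ((n + 1 : ℕ) : ℤ)) = insert (u + n + 1) (Finset.Ioc u (u + n)) := by
      ext x; simp only [Finset.mem_Ioc, Finset.mem_insert]; push_cast; omega
    rw [h1, Finset.sum_insert (by simp), ih, Nat.factorial_succ,
      padicValNat.mul (Nat.succ_ne_zero n) (Nat.factorial_ne_zero n)]
    have h2 : ((u + n + 1 - u : ℤ) : ℚ) = ((n + 1 : ℕ) : ℚ) := by push_cast; ring
    rw [h2, padicValRat.of_nat, Int.cast_natCast, Nat.cast_add, Nat.succ_eq_add_one]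

lemma sum_left (u : ℤ) (n : ℕ) :
    ∑ w ∈ Finset.Ico (u - n) u, (padicValRat p ((w - u : ℤ) : ℚ) : ℝ) = padicValNat p n.factorial := by
  induction n with
  | zero => simp
  | succ n ih =>
    have h1 : Finset.Ico (u - ((n + 1 : ℕ) : ℤ)) u = insert (u - n - 1) (Finset.Ico (u - n) u) := by
      ext x; simp only [Finset.mem_Ico, Finset.mem_insert]; push_cast; omega
    rw [h1, Finset.sum_insert (by simp), ih, Nat.factorial_succ,
      padicValNat.mul (Nat.succ_ne_zero n) (Nat.factorial_ne_zero n)]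
    have h2 : ((u - n - 1 - u : ℤ) : ℚ) = -((n + 1 : ℕ) : ℚ) := by push_cast; ring
    rw [h2, padicValRat.neg, padicValRat.of_nat, Int.cast_natCast, Nat.cast_add,
      Nat.succ_eq_add_one]

lemma sum_pc_erase {a : ℕ} {u : ℤ} (hu : u ∈ pc a) :
    ∑ w ∈ (pc a).erase u, (padicValRat p ((w - u : ℤ) : ℚ) : ℝ) ≤ 2 * a / ((p : ℝ) - 1) := by
  have hu' : 1 - (a : ℤ) ≤ u ∧ u ≤ (a : ℤ) - 1 := by simpa [pc] using hu
  obtain ⟨n, hn⟩ : ∃ n : ℕ, (a : ℤ) - 1 = u + n := ⟨((a : ℤ) - 1 - u).toNat, by omega⟩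
  obtain ⟨k, hk⟩ : ∃ k : ℕ, 1 - (a : ℤ) = u - k := ⟨(u - (1 - (a : ℤ))).toNat, by omega⟩
  have h1 : (pc a).erase u = Finset.Ico (u - k) u ∪ Finset.Ioc u (u + n) := by
    ext x
    rw [pc, Finset.mem_erase, Finset.mem_Icc, Finset.mem_union, Finset.mem_Ico, Finset.mem_Ioc,
      hn, hk]
    omega
  have hd : Disjoint (Finset.Ico (u - k) u) (Finset.Ioc u (u + n)) := by
    rw [Finset.disjoint_left]
    intro x hx hx'
    rw [Finset.mem_Ico] at hx
    rw [Finset.mem_Ioc] at hx'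
    omega
  rw [h1, Finset.sum_union hd, sum_left, sum_right]
  have h2 := fac_upper (p := p) n
  have h3 := fac_upper (p := p) k
  have hp1 : (1 : ℝ) < p := by exact_mod_cast hp.out.one_lt
  have h4 : (n : ℝ) + k ≤ 2 * a := by
    have : (n : ℤ) + k ≤ 2 * a := by omega
    exact_mod_cast this
  have h5 : ((n : ℝ) + k) / ((p : ℝ) - 1) ≤ 2 * a / ((p : ℝ) - 1) :=
    div_le_div_of_nonneg_right h4 (by linarith)
  rw [add_div] at h5
  linarith

/-- base series, slope `K` -/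
lemma base_WA_K {q B a b K : ℕ} (hab : a ≤ b) (hK : 2 * a + b < p ^ (K + 1)) {u : ℤ}
    (hu : u ∈ pc a) :
    WA p K (B * (2 * ((b : ℝ) - a) / ((p : ℝ) - 1) - 2 * (K + 1)) - q * (2 * a / ((p : ℝ) - 1)))
      (base q B a b u) := by
  have hu' : 1 - (a : ℤ) ≤ u ∧ u ≤ (a : ℤ) - 1 := by simpa [pc] using hu
  have hp1 : (1 : ℝ) < p := by exact_mod_cast hp.out.one_lt
  have hdd : Disjoint (Finset.Icc (1 - (b : ℤ)) (-(a : ℤ))) (Finset.Icc (a : ℤ) ((b : ℤ) - 1)) := by
    rw [Finset.disjoint_left]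
    intro x hx hx'
    rw [Finset.mem_Icc] at hx hx'
    omega
  have h1 : WA p K (2 * ((b : ℝ) - a) / ((p : ℝ) - 1) - 2 * (K + 1)) (∏ w ∈ oc a b, lin (w - u)) := by
    have h2 : WA p K (∑ w ∈ oc a b, (vK p K (w - u) : ℝ)) (∏ w ∈ oc a b, lin (w - u)) :=
      WA.prod fun w _ => WA.lin (VG_vK K _) (by exact_mod_cast vK_le K _)
    refine h2.mono ?_
    rw [oc, Finset.sum_union hdd]
    have e1 : Finset.Icc (1 - (b : ℤ)) (-(a : ℤ)) =
        Finset.Ico (1 - (b : ℤ)) (1 - (b : ℤ) + ((b - a : ℕ) : ℤ)) := by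
      ext x; rw [Finset.mem_Icc, Finset.mem_Ico]; omega
    have e2 : Finset.Icc (a : ℤ) ((b : ℤ) - 1) =
        Finset.Ico (a : ℤ) ((a : ℤ) + ((b - a : ℕ) : ℤ)) := by
      ext x; rw [Finset.mem_Icc, Finset.mem_Ico]; omega
    rw [e1, e2]
    have h3 := cons_sum (p := p) (1 - (b : ℤ)) u (b - a) K (by omega)
    have h4 := cons_sum (p := p) (a : ℤ) u (b - a) K (by omega)
    have h5 : ((b - a : ℕ) : ℝ) = (b : ℝ) - a := Nat.cast_sub hab
    rw [h5] at h3 h4
    have h6 : 2 * ((b : ℝ) - a) / ((p : ℝ) - 1) =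
        ((b : ℝ) - a) / ((p : ℝ) - 1) + ((b : ℝ) - a) / ((p : ℝ) - 1) := by ring
    rw [h6]
    linarith
  have h2 : WA p K (-(2 * a / ((p : ℝ) - 1))) (∏ w ∈ (pc a).erase u, lin (w - u))⁻¹ := by
    have h3 : WA p K (∑ w ∈ (pc a).erase u, -(padicValRat p ((w - u : ℤ) : ℚ) : ℝ))
        (∏ w ∈ (pc a).erase u, lin (w - u))⁻¹ := by
      rw [PS_prod_inv]
      refine WA.prod fun w hw => ?_
      rw [Finset.mem_erase] at hw
      have hw' : 1 - (a : ℤ) ≤ w ∧ w ≤ (a : ℤ) - 1 := by simpa [pc] using hw.2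
      have hne : w - u ≠ 0 := sub_ne_zero.2 hw.1
      refine WA.lin_inv hne ?_
      rw [padicValRat.of_int, padicValInt]
      have h4 : padicValNat p (w - u).natAbs ≤ K := by
        refine (padicValNat_le_nat_log _).trans ?_
        have h5 : (w - u).natAbs < p ^ (K + 1) := by omega
        have h6 : (w - u).natAbs ≠ 0 := by simpa using hne
        exact Nat.lt_succ_iff.1 ((Nat.log_lt_iff_lt_pow hp.out.one_lt h6).2 h5)
      exact_mod_cast h4
    refine h3.mono ?_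
    rw [Finset.sum_neg_distrib]
    have := sum_pc_erase (p := p) hu
    linarith
  have h3 : WA p K 0 (lin (-u)) := WA.lin0 (Nat.cast_nonneg K) _
  have := (((WA.two (p := p) K).mul h3).mul (h1.pow B)).mul (h2.pow q)
  rw [base]
  refine this.mono (le_of_eq ?_)
  ring

/-- the basis `∏_{l<i} (X - l^2)` -/
noncomputable def PB (i : ℕ) : ℚ[X] := ∏ l ∈ Finset.range i, (X - Polynomial.C (((l : ℤ) : ℚ) ^ 2))

lemma PB_monic (i : ℕ) : (PB i).Monic := monic_prod_of_monic _ _ fun _ _ => monic_X_sub_C _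

lemma PB_natDegree (i : ℕ) : (PB i).natDegree = i := by
  rw [PB, natDegree_prod_of_monic _ _ fun _ _ => monic_X_sub_C _]
  simp only [natDegree_X_sub_C, Finset.sum_const, Finset.card_range, smul_eq_mul, mul_one]

lemma PB_WA {i K : ℕ} (hi : i < p ^ (K + 1)) (u : ℤ) :
    WA p K (2 * i / ((p : ℝ) - 1) - 2 * (K + 1)) (Polynomial.aeval (lin (-u) ^ 2) (PB i)) := by
  rw [PB, map_prod]
  have h1 : WA p K (∑ l ∈ Finset.range i,
      ((vK p K ((l : ℤ) - (-u)) : ℝ) + (vK p K ((l : ℤ) - u) : ℝ)))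
      (∏ l ∈ Finset.range i, Polynomial.aeval (lin (-u) ^ 2)
        (X - Polynomial.C (((l : ℤ) : ℚ) ^ 2))) := by
    refine WA.prod fun l _ => ?_
    rw [aeval_factor]
    refine WA.mul ?_ ?_
    · refine WA.lin ?_ (by exact_mod_cast vK_le K _)
      have h2 := VG_vK (p := p) K (-u - l)
      have h3 : vK p K (-u - l) = vK p K ((l : ℤ) - (-u)) := by
        rw [← vK_neg]; congr 1; ring
      rw [h3] at h2
      exact h2
    · refine WA.lin ?_ (by exact_mod_cast vK_le K _)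
      have h2 := VG_vK (p := p) K (-u + l)
      have h3 : (-u + l : ℤ) = (l : ℤ) - u := by ring
      rw [h3] at h2 ⊢
      exact h2
  refine h1.mono ?_
  rw [Finset.sum_add_distrib]
  have h2 := cons_sum_range (p := p) (-u) i K hi
  have h3 := cons_sum_range (p := p) u i K hi
  have h6 : 2 * (i : ℝ) / ((p : ℝ) - 1) = (i : ℝ) / ((p : ℝ) - 1) + (i : ℝ) / ((p : ℝ) - 1) := by
    ring
  rw [h6]
  linarith

end small

theorem m6e : M6e := by
  intro r q B
  refine ⟨2 * B + 6 + q + r, by positivity, ?_⟩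
  intro p a b m ω hp ha hab hq hω
  have := Fact.mk hp
  have hp1 : (1 : ℝ) < p := by exact_mod_cast hp.one_lt
  have hp2 : (2 : ℝ) ≤ p := by exact_mod_cast hp.two_le
  set K := Nat.log p (2 * (a + b + m)) with hKdef
  have hlt : 2 * (a + b + m) < p ^ (K + 1) := Nat.lt_pow_succ_log_self hp.one_lt _
  rw [m0 (Lw r q B a b ω) m PB PB_monic PB_natDegree]
  set c0 : ℝ := (2 * B * ((b : ℝ) - a) - 2 * q * a) / ((p : ℝ) - 1) -
    (2 * B * (K + 1) + 4 * (K + 1) + (q + r) * K) with hc0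
  have key : VG p (∑ i : Fin m, (2 * ((i : ℕ) : ℝ) / ((p : ℝ) - 1) + c0 / 2) +
      ∑ j : Fin m, (2 * ((j : ℕ) : ℝ) / ((p : ℝ) - 1) + c0 / 2))
      (Matrix.det (Matrix.of fun i j : Fin m => Lw r q B a b ω (PB i * PB j))) := by
    refine VG.det fun i j => ?_
    rw [Matrix.of_apply, Lw_apply]
    refine VG.sum fun u hu => VG.sum fun k hk => ?_
    rw [Finset.mem_Icc] at hk
    have h1 := base_WA_K (p := p) (q := q) (B := B) (K := K) hab (by omega) hu
    have h2 := PB_WA (p := p) (K := K) (i := (i : ℕ)) (by have := i.2; omega) u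
    have h3 := PB_WA (p := p) (K := K) (i := (j : ℕ)) (by have := j.2; omega) u
    have h4 := (h1.mul (h2.mul h3)) (q - k)
    rw [← map_mul] at h4
    have h5 := ((VG.nat (p := p) (Nat.choose (k + r - 1) r)).mul (hω u hu k hk.1 hk.2)).mul h4
    refine VG.mono h5 ?_
    rw [Nat.cast_sub hk.2, hc0]
    apply le_of_eq
    field_simp
    ring
  refine key.mono ?_
  have hsum : ∑ i : Fin m, (2 * ((i : ℕ) : ℝ) / ((p : ℝ) - 1) + c0 / 2) =
      (m : ℝ) * (m - 1) / ((p : ℝ) - 1) + m * (c0 / 2) := by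
    rw [Fin.sum_univ_eq_sum_range (fun i => 2 * (i : ℝ) / ((p : ℝ) - 1) + c0 / 2) m,
      Finset.sum_add_distrib, Finset.sum_const, Finset.card_range, nsmul_eq_mul,
      ← Finset.sum_div, ← Finset.mul_sum]
    have : 2 * ∑ i ∈ Finset.range m, (i : ℝ) = (m : ℝ) * (m - 1) := by
      have h := Finset.sum_range_id_mul_two m
      rcases Nat.eq_zero_or_pos m with h0 | h0
      · subst h0; simp
      have h' : ((∑ i ∈ Finset.range m, i : ℕ) : ℝ) * 2 = m * ((m - 1 : ℕ) : ℝ) := by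
        exact_mod_cast h
      rw [Nat.cast_sub h0] at h'
      push_cast at h'
      linarith
    rw [this]
  rw [hsum]
  have hK0 : (0 : ℝ) ≤ K := Nat.cast_nonneg K
  have hm0 : (0 : ℝ) ≤ m := Nat.cast_nonneg m
  have hB0 : (0 : ℝ) ≤ B := Nat.cast_nonneg B
  have hq0 : (0 : ℝ) ≤ q := Nat.cast_nonneg q
  have hr0 : (0 : ℝ) ≤ r := Nat.cast_nonneg r
  have hdiv : (m : ℝ) / ((p : ℝ) - 1) ≤ m := by
    rw [div_le_iff₀ (by linarith)]
    nlinarith
  have e1 : (m : ℝ) * (m - 1) / ((p : ℝ) - 1) + m * (c0 / 2) +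
      ((m : ℝ) * (m - 1) / ((p : ℝ) - 1) + m * (c0 / 2)) =
      -(((2 * q * a - 2 * B * ((b : ℝ) - a)) * m - 2 * m ^ 2) / (p - 1)) -
        2 * ((m : ℝ) / ((p : ℝ) - 1)) -
        m * (2 * B * (K + 1) + 4 * (K + 1) + (q + r) * K) := by
    rw [hc0]; field_simp; ring
  rw [e1]
  have e2 : (2 * (B : ℝ) + 6 + q + r) * (1 + K) * m =
      m * (2 * B * (K + 1) + 4 * (K + 1) + (q + r) * K) + (2 * m + 2 * K * m + q * m + r * m) := by
    ring
  rw [neg_add]
  have e3 : 0 ≤ 2 * (K : ℝ) * m + q * m + r * m := by positivity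
  rw [e2]
  linarith

end Z579
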