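import Pool.Agent.Lib.Z579.VGL

open Polynomial Finset

namespace Z579

/-- number of elements of `s` congruent to `c` -/
def cnt (p : ℕ) (s : Finset ℤ) (c : ℤ) : ℕ := (s.filter fun w => (p : ℤ) ∣ w - c).card

lemma Scl_eq (p q B a b : ℕ) (c : ℤ) :
    Scl p q B a b c = (B : ℤ) * cnt p (oc a b) c - (q : ℤ) * cnt p (pc a) c := rfl

lemma cnt_congr {p : ℕ} {s : Finset ℤ} {c d : ℤ} (h : (p : ℤ) ∣ c - d) :
    cnt p s c = cnt p s d := by
  unfold cnt
  congr 1
  refine Finset.filter_congr fun w _ => ?_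
  constructor
  · intro h1
    have := dvd_add h1 h
    rwa [sub_add_sub_cancel] at this
  · intro h1
    have := dvd_sub h1 h
    have h2 : w - d - (c - d) = w - c := by ring
    rwa [h2] at this

lemma cnt_neg {p : ℕ} {s : Finset ℤ} (hs : ∀ w, w ∈ s → -w ∈ s) (c : ℤ) :
    cnt p s (-c) = cnt p s c := by
  unfold cnt
  refine Finset.card_bij (fun w _ => -w) ?_ ?_ ?_
  · intro w hw
    rw [Finset.mem_filter] at hw ⊢
    refine ⟨hs w hw.1, ?_⟩
    have := (dvd_neg (α := ℤ)).2 hw.2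
    rw [neg_sub, neg_sub_comm] at this
    simpa [sub_eq_add_neg, add_comm] using this
  · intro w _ w' _ h
    exact neg_injective h
  · intro w hw
    rw [Finset.mem_filter] at hw
    refine ⟨-w, ?_, neg_neg w⟩
    rw [Finset.mem_filter]
    refine ⟨hs w hw.1, ?_⟩
    have := (dvd_neg (α := ℤ)).2 hw.2
    rw [neg_sub] at this
    simpa [sub_eq_add_neg, add_comm] using this

lemma oc_neg {a b : ℕ} {w : ℤ} (h : w ∈ oc a b) : -w ∈ oc a b := by
  simp only [oc, Finset.mem_union, Finset.mem_Icc] at h ⊢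
  omega

lemma pc_neg {a : ℕ} {w : ℤ} (h : w ∈ pc a) : -w ∈ pc a := by
  simp only [pc, Finset.mem_Icc] at h ⊢
  omega

lemma Scl_class {p q B a b : ℕ} {u c : ℤ} (h : (p : ℤ) ∣ u - c ∨ (p : ℤ) ∣ u + c) :
    Scl p q B a b u = Scl p q B a b c := by
  rw [Scl_eq, Scl_eq]
  rcases h with h | h
  · rw [cnt_congr h, cnt_congr h]
  · have h' : (p : ℤ) ∣ u - (-c) := by simpa using h
    rw [cnt_congr h', cnt_congr h', cnt_neg (fun w hw => oc_neg hw),
      cnt_neg (fun w hw => pc_neg hw)]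

lemma exists_class {p : ℕ} (hp : p.Prime) (hp2 : p ≠ 2) (u : ℤ) :
    ∃ c ∈ Ip p, (p : ℤ) ∣ u - c ∨ (p : ℤ) ∣ u + c := by
  have hodd : p % 2 = 1 := by
    rcases hp.eq_two_or_odd with h | h
    · exact absurd h hp2
    · exact h
  have hp0 : (0 : ℤ) < p := by exact_mod_cast hp.pos
  have h1 := Int.emod_nonneg u hp0.ne'
  have h2 := Int.emod_lt_of_pos u hp0
  have h3 : (p : ℤ) ∣ u - u % p := ⟨u / p, by have := Int.emod_add_mul_ediv u p; linarith⟩
  rcases le_or_gt (u % p) (((p - 1) / 2 : ℕ) : ℤ) with h | h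
  · exact ⟨u % p, by rw [Ip, Finset.mem_Icc]; exact ⟨h1, h⟩, Or.inl h3⟩
  · refine ⟨p - u % p, ?_, Or.inr ?_⟩
    · rw [Ip, Finset.mem_Icc]; omega
    · have := dvd_add h3 (dvd_refl (p : ℤ))
      have h4 : u + (↑p - u % ↑p) = u - u % ↑p + ↑p := by ring
      rwa [h4]

section
variable {p : ℕ} [hp : Fact p.Prime]

lemma val_small {c : ℤ} (hc : c ≠ 0) (hc2 : |c| < (p : ℤ) ^ 2) :
    padicValRat p (c : ℚ) = if (p : ℤ) ∣ c then 1 else 0 := by
  rw [padicValRat.of_int]
  have h1 : padicValInt p c < 2 := by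
    by_contra h
    push Not at h
    have h2 := (padicValInt_dvd_iff (p := p) 2 c).2 (Or.inr h)
    have h3 := Int.le_of_dvd (abs_pos.2 hc) ((dvd_abs _ _).2 h2)
    omega
  split_ifs with h
  · have := ((padicValInt_dvd_iff (p := p) 1 c).1 (by simpa using h)).resolve_left hc
    have h2 : padicValInt p c = 1 := by omega
    rw [h2]; rfl
  · have : ¬ 1 ≤ padicValInt p c := fun h2 =>
      h (by simpa using (padicValInt_dvd_iff (p := p) 1 c).2 (Or.inr h2))
    have h2 : padicValInt p c = 0 := by omega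
    rw [h2]; rfl

lemma PS_prod_inv {ι : Type*} (s : Finset ι) (f : ι → PowerSeries ℚ) :
    (∏ i ∈ s, f i)⁻¹ = ∏ i ∈ s, (f i)⁻¹ := by
  classical
  induction s using Finset.induction_on with
  | empty => simp
  | insert i s hi ih =>
    rw [Finset.prod_insert hi, Finset.prod_insert hi, PowerSeries.mul_inv_rev, ih, mul_comm]

lemma WA.two (K : ℝ) : WA p K 0 (2 : PowerSeries ℚ) := by
  rw [← one_add_one_eq_two]; exact (WA.one' K).add (WA.one' K)

/-- the base series in slope one -/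
lemma base_WA {q B a b : ℕ} (hab : a ≤ b) (habp : a + b ≤ p ^ 2) {u : ℤ} (hu : u ∈ pc a) :
    WA p 1 ((Scl p q B a b u : ℝ) + q) (base q B a b u) := by
  have hu' : 1 - (a : ℤ) ≤ u ∧ u ≤ (a : ℤ) - 1 := by simpa [pc] using hu
  have hbp : (a : ℤ) + b ≤ (p : ℤ) ^ 2 := by exact_mod_cast habp
  have h1 : WA p 1 (cnt p (oc a b) u) (∏ w ∈ oc a b, lin (w - u)) := by
    have : (cnt p (oc a b) u : ℝ) = ∑ w ∈ oc a b, if (p : ℤ) ∣ w - u then (1 : ℝ) else 0 := by
      rw [Finset.sum_boole]; rfl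
    rw [this]
    refine WA.prod fun w _ => ?_
    split_ifs with h
    · exact WA.lin (VG.of_dvd h) le_rfl
    · exact WA.lin0 zero_le_one _
  have h2 : WA p 1 (-((cnt p (pc a) u : ℝ) - 1)) (∏ w ∈ (pc a).erase u, lin (w - u))⁻¹ := by
    have : (-((cnt p (pc a) u : ℝ) - 1)) =
        ∑ w ∈ (pc a).erase u, (-(if (p : ℤ) ∣ w - u then (1 : ℝ) else 0)) := by
      rw [Finset.sum_neg_distrib, Finset.sum_boole, Finset.filter_erase]
      have h3 : u ∈ (pc a).filter fun w => (p : ℤ) ∣ w - u := by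
        rw [Finset.mem_filter]; exact ⟨hu, by simp⟩
      rw [Finset.card_erase_of_mem h3, Nat.cast_sub (Finset.card_pos.2 ⟨u, h3⟩)]
      simp [cnt]
    rw [this, PS_prod_inv]
    refine WA.prod fun w hw => ?_
    rw [Finset.mem_erase] at hw
    have hw' : 1 - (a : ℤ) ≤ w ∧ w ≤ (a : ℤ) - 1 := by simpa [pc] using hw.2
    have hne : w - u ≠ 0 := sub_ne_zero.2 hw.1
    have hlt : |w - u| < (p : ℤ) ^ 2 := by
      rw [abs_lt]; omega
    have hv := val_small (p := p) hne hlt
    have := WA.lin_inv (p := p) (K := 1) hne (by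
      rw [hv]; split_ifs <;> norm_num)
    rw [hv] at this
    refine this.mono (le_of_eq ?_)
    split_ifs <;> simp
  have h3 : WA p 1 0 (lin (-u)) := WA.lin0 zero_le_one _
  have := (((WA.two (p := p) 1).mul h3).mul (h1.pow B)).mul (h2.pow q)
  refine this.mono (le_of_eq ?_)
  rw [Scl_eq]
  push_cast
  ring

lemma poly_WA_one {p' : Finset ℤ} {N : ℤ → ℕ} {G₀ : ℤ[X]} {u c : ℤ} (hc : c ∈ p')
    (h : (p : ℤ) ∣ u - c ∨ (p : ℤ) ∣ u + c) :
    WA p 1 (N c) (Polynomial.aeval (lin (-u) ^ 2)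
      ((∏ c ∈ p', (X - Polynomial.C ((c : ℚ) ^ 2)) ^ (N c)) * G₀.map (Int.castRingHom ℚ))) := by
  rw [map_mul, map_prod]
  have h1 : WA p 1 (∑ c' ∈ p', if c' = c then (N c : ℝ) else 0)
      (∏ c ∈ p', Polynomial.aeval (lin (-u) ^ 2) ((X - Polynomial.C ((c : ℚ) ^ 2)) ^ (N c))) := by
    refine WA.prod fun c' _ => ?_
    rw [map_pow, aeval_factor]
    split_ifs with hcc
    · subst hcc
      have h2 : WA p 1 1 (lin (-u - c') * lin (-u + c')) := by
        rcases h with h | h
        · have h3 : (p : ℤ) ∣ -u + c' := by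
            have := (dvd_neg (α := ℤ)).2 h
            rwa [neg_sub, sub_eq_neg_add] at this
          have := (WA.lin0 (p := p) zero_le_one (-u - c')).mul
            (WA.lin (K := 1) (VG.of_dvd h3) le_rfl)
          simpa using this
        · have h3 : (p : ℤ) ∣ -u - c' := by
            have := (dvd_neg (α := ℤ)).2 h
            rwa [neg_add'] at this
          have := (WA.lin (K := 1) (VG.of_dvd h3) le_rfl).mul
            (WA.lin0 (p := p) zero_le_one (-u + c'))
          simpa using this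
      simpa using h2.pow (N c')
    · have := ((WA.lin0 (p := p) zero_le_one (-u - c')).mul
        (WA.lin0 (p := p) zero_le_one (-u + c'))).pow (N c')
      simpa using this
  rw [Finset.sum_ite_eq' p' c, if_pos hc] at h1
  simpa using h1.mul (WA.aeval_int zero_le_one (-u) G₀)

/-- integrality, slope `K` -/
lemma poly_WA_zero {K : ℝ} (hK : 0 ≤ K) {p' : Finset ℤ} {N : ℤ → ℕ} {G₀ : ℤ[X]} {u : ℤ} :
    WA p K 0 (Polynomial.aeval (lin (-u) ^ 2)
      ((∏ c ∈ p', (X - Polynomial.C ((c : ℚ) ^ 2)) ^ (N c)) * G₀.map (Int.castRingHom ℚ))) := by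
  rw [map_mul, map_prod]
  have h1 : WA p K (∑ c' ∈ p', (0 : ℝ))
      (∏ c ∈ p', Polynomial.aeval (lin (-u) ^ 2) ((X - Polynomial.C ((c : ℚ) ^ 2)) ^ (N c))) := by
    refine WA.prod fun c' _ => ?_
    rw [map_pow, aeval_factor]
    have := ((WA.lin0 (p := p) hK (-u - c')).mul
        (WA.lin0 (p := p) hK (-u + c'))).pow (N c')
    simpa using this
  simpa using h1.mul (WA.aeval_int hK (-u) G₀)

/-- integrality of the base series if the class of `u` has only one pole -/
lemma base_WA_zero {q B a b : ℕ} {u : ℤ}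
    (h : ∀ w ∈ pc a, (p : ℤ) ∣ w - u → w = u) :
    WA p 0 0 (base q B a b u) := by
  have h1 : WA p 0 (∑ w ∈ oc a b, (0 : ℝ)) (∏ w ∈ oc a b, lin (w - u)) :=
    WA.prod fun w _ => WA.lin0 le_rfl _
  have h2 : WA p 0 (∑ w ∈ (pc a).erase u, (0 : ℝ)) (∏ w ∈ (pc a).erase u, lin (w - u))⁻¹ := by
    rw [PS_prod_inv]
    refine WA.prod fun w hw => ?_
    rw [Finset.mem_erase] at hw
    have hne : w - u ≠ 0 := sub_ne_zero.2 hw.1
    have hnd : ¬ (p : ℤ) ∣ w - u := fun hd => hw.1 (h w hw.2 hd)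
    have hv : padicValRat p ((w - u : ℤ) : ℚ) = 0 := by
      rw [padicValRat.of_int, padicValInt.eq_zero_of_not_dvd hnd]; rfl
    have := WA.lin_inv (p := p) (K := 0) hne (by rw [hv]; simp)
    rw [hv] at this
    simpa using this
  have h3 : WA p 0 0 (lin (-u)) := WA.lin0 le_rfl _
  have := (((WA.two (p := p) 0).mul h3).mul (h1.pow B)).mul (h2.pow q)
  rw [base]
  refine this.mono (le_of_eq ?_)
  simp

end

theorem m4a : M4a := by
  intro p r q B a b ω N G₀ t hp hp2 ha hab habp hq hω ht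
  have := Fact.mk hp
  rw [Lw_apply]
  refine VG.sum fun u hu => VG.sum fun i hi => ?_
  rw [Finset.mem_Icc] at hi
  obtain ⟨c, hc, huc⟩ := exists_class hp hp2 u
  have hpole : ∃ u ∈ pc a, (p : ℤ) ∣ u - c := by
    rcases huc with h | h
    · exact ⟨u, hu, h⟩
    · refine ⟨-u, pc_neg hu, ?_⟩
      have := (dvd_neg (α := ℤ)).2 h
      rwa [neg_add'] at this
  have h1 := base_WA (p := p) (q := q) (B := B) hab habp hu
  rw [Scl_class huc] at h1
  have h2 := poly_WA_one (p := p) (N := N) (G₀ := G₀) hc huc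
  have h3 := (h1.mul h2) (q - i)
  have h4 := ((VG.nat (p := p) (Nat.choose (i + r - 1) r)).mul (hω u hu i hi.1 hi.2)).mul h3
  refine VG.mono h4 ?_
  have h5 := ht c hc hpole
  rw [Nat.cast_sub hi.2]
  linarith

theorem m4b : M4b := by
  intro p r q B a b ω N G₀ t hp hp2 ha hab habp hq hω hω0 ht0 ht
  have := Fact.mk hp
  rw [Lw_apply]
  refine VG.sum fun u hu => VG.sum fun i hi => ?_
  rw [Finset.mem_Icc] at hi
  by_cases hone : ∀ w ∈ pc a, (p : ℤ) ∣ w - u → w = u
  · have hlt : u + a - 1 < p := by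
      by_contra h
      push Not at h
      have hp0 : (0 : ℤ) < p := by exact_mod_cast hp.pos
      have hu' : 1 - (a : ℤ) ≤ u ∧ u ≤ (a : ℤ) - 1 := by simpa [pc] using hu
      have h1 : u - p ∈ pc a := by
        rw [pc, Finset.mem_Icc]; omega
      have h2 := hone (u - p) h1 (by simp)
      omega
    have h1 := base_WA_zero (q := q) (B := B) (b := b) hone
    have h2 := poly_WA_zero (p := p) (p' := Ip p) (N := N) (G₀ := G₀) (u := u) (le_refl (0 : ℝ))
    have h3 := (h1.mul h2) (q - i)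
    have h4 := ((VG.nat (p := p) (Nat.choose (i + r - 1) r)).mul
      (hω0 u hu hlt i hi.1 hi.2)).mul h3
    refine VG.mono h4 ?_
    simpa using ht0
  · push Not at hone
    obtain ⟨w, hw, hwu, hne⟩ := hone
    obtain ⟨c, hc, huc⟩ := exists_class hp hp2 u
    have hcard : 2 ≤ ((pc a).filter fun w => (p : ℤ) ∣ w - c).card := by
      have h0 : 2 ≤ cnt p (pc a) u := by
        have : 1 < cnt p (pc a) u := by
          rw [cnt, Finset.one_lt_card]
          exact ⟨w, by rw [Finset.mem_filter]; exact ⟨hw, hwu⟩, u,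
            by rw [Finset.mem_filter]; exact ⟨hu, by simp⟩, hne⟩
        exact this
      have h1 : cnt p (pc a) u = cnt p (pc a) c := by
        rcases huc with h | h
        · exact cnt_congr h
        · have h' : (p : ℤ) ∣ u - (-c) := by simpa using h
          rw [cnt_congr h', cnt_neg (fun w hw => pc_neg hw)]
      rw [h1] at h0
      exact h0
    have h1 := base_WA (p := p) (q := q) (B := B) hab habp hu
    rw [Scl_class huc] at h1
    have h2 := poly_WA_one (p := p) (N := N) (G₀ := G₀) hc huc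
    have h3 := (h1.mul h2) (q - i)
    have h4 := ((VG.nat (p := p) (Nat.choose (i + r - 1) r)).mul (hω u hu i hi.1 hi.2)).mul h3
    refine VG.mono h4 ?_
    have h5 := ht c hc hcard
    rw [Nat.cast_sub hi.2]
    linarith

theorem m4c : M4c := by
  intro p s n hp
  have := Fact.mk hp
  rw [Hs]
  refine VG.sum fun k hk => ?_
  rw [Finset.mem_range] at hk
  right
  have hk0 : ((k : ℚ) + 1) ≠ 0 := by positivity
  rw [one_div, padicValRat.inv, padicValRat.pow]
  have h1 : padicValRat p ((k : ℚ) + 1) = padicValNat p (k + 1) := by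
    rw [← padicValRat.of_nat]; push_cast; rfl
  rw [h1]
  have h2 : padicValNat p (k + 1) ≤ Nat.log p n :=
    (padicValNat_le_nat_log (k + 1)).trans (Nat.log_mono_right (by omega))
  have h3 : (padicValNat p (k + 1) : ℝ) ≤ Nat.log p n := by exact_mod_cast h2
  have h4 := mul_le_mul_of_nonneg_left h3 (Nat.cast_nonneg (α := ℝ) s)
  simp only [Int.cast_neg, Int.cast_mul, Int.cast_natCast]
  linarith

end Z579
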