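import Pool.Agent.Lib.Z579.LineInt

/-!
# M1: the integral representation
-/

open MeasureTheory Filter Topology Polynomial Finset

namespace Z579

lemma nat_add_tt (k : ℕ) (y : ℝ) : (k : ℂ) + tt y = cf ((k : ℝ) - 1 / 2) y := by
  rw [tt, cf]; push_cast; ring

lemma tt_add_int (n : ℤ) (y : ℝ) : tt y + (n : ℂ) = cf ((n : ℝ) - 1 / 2) y := by
  rw [tt, cf]; push_cast; ring

lemma int_sub_half_ne (n : ℤ) : ((n : ℝ) - 1 / 2) ≠ 0 := by
  intro h
  have h1 : (2 * n : ℝ) = 1 := by linarith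
  have h2 : (2 * n : ℤ) = 1 := by exact_mod_cast h1
  omega

lemma half_le_abs_int (n : ℤ) : 1 / 2 ≤ |(n : ℝ) - 1 / 2| := by
  rcases le_or_gt n 0 with h | h
  · have : (n : ℝ) ≤ 0 := by exact_mod_cast h
    rw [abs_of_nonpos (by linarith)]
    linarith
  · have : (1 : ℝ) ≤ n := by exact_mod_cast h
    rw [abs_of_nonneg (by linarith)]
    linarith

/-- the summands -/
noncomputable def Fn (r i k : ℕ) (n : ℤ) (y : ℝ) : ℂ :=
  ((cf ((k : ℝ) - 1 / 2) y)⁻¹) ^ i * ((cf ((n : ℝ) - 1 / 2) y)⁻¹) ^ (r + 1)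

lemma norm_Fn_le {r i k : ℕ} (hr : 2 ≤ r) (hi : 1 ≤ i) (hk : 1 ≤ k) (n : ℤ) (y : ℝ) :
    ‖Fn r i k n y‖ ≤ 2 ^ (i + r) * (((n : ℝ) - 1 / 2) ^ 2)⁻¹ * (1 + y ^ 2)⁻¹ := by
  have hk' : (1 : ℝ) ≤ k := by exact_mod_cast hk
  have hα : 1 ≤ (2 : ℝ) * |(k : ℝ) - 1 / 2| := by
    rw [abs_of_nonneg (by linarith)]; linarith
  have hβ : 1 ≤ (2 : ℝ) * |(n : ℝ) - 1 / 2| := by
    have := half_le_abs_int n; linarith
  have h1 := norm_cf_inv_sq_le (by norm_num : (1 : ℝ) ≤ 2) hα y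
  have h2 := norm_cf_inv_sq_le (by norm_num : (1 : ℝ) ≤ 2) hβ y
  have hn0 : 0 < |(n : ℝ) - 1 / 2| := abs_pos.2 (int_sub_half_ne n)
  have h3 : ‖(cf ((n : ℝ) - 1 / 2) y)⁻¹‖ ≤ |(n : ℝ) - 1 / 2|⁻¹ := by
    rw [norm_inv]
    exact inv_anti₀ hn0 (abs_le_norm_cf' _ _)
  set s : ℝ := (Real.sqrt (1 + y ^ 2))⁻¹ with hs
  have hs0 : 0 ≤ s := by positivity
  have hs1 : s ≤ 1 := sqrt_inv_le_one y
  rw [Fn, norm_mul, norm_pow, norm_pow]
  obtain ⟨i, rfl⟩ := Nat.exists_eq_add_of_le' hi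
  obtain ⟨r, rfl⟩ := Nat.exists_eq_add_of_le' hr
  set A : ℝ := ‖(cf ((k : ℝ) - 1 / 2) y)⁻¹‖
  set D : ℝ := ‖(cf ((n : ℝ) - 1 / 2) y)⁻¹‖
  have hA0 : 0 ≤ A := norm_nonneg _
  have hD0 : 0 ≤ D := norm_nonneg _
  have hA2 : A ≤ 2 := h1.trans (by nlinarith)
  have hD2 : D ≤ 2 := h2.trans (by nlinarith)
  calc A ^ (i + 1) * D ^ (r + 2 + 1) = (A ^ i * D ^ r) * (D ^ 2) * (A * D) := by ring
    _ ≤ (2 ^ i * 2 ^ r) * ((|(n : ℝ) - 1 / 2|⁻¹) ^ 2) * ((2 * s) * (2 * s)) := by gcongr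
    _ = (2 ^ i * 2 ^ r * 4) * (((n : ℝ) - 1 / 2) ^ 2)⁻¹ * (s ^ 2) := by
        rw [inv_pow, sq_abs]; ring
    _ ≤ 2 ^ (i + 1 + (r + 2)) * (((n : ℝ) - 1 / 2) ^ 2)⁻¹ * (s ^ 2) := by
        have : (2 : ℝ) ^ i * 2 ^ r * 4 ≤ 2 ^ (i + 1 + (r + 2)) := by
          have h5 : (2 : ℝ) ^ (i + 1 + (r + 2)) = 2 ^ i * 2 ^ r * 8 := by ring
          rw [h5]
          have : (0 : ℝ) < 2 ^ i * 2 ^ r := by positivity
          linarith
        gcongr
    _ = _ := by rw [hs, sqrt_inv_sq]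

lemma summable_half : Summable fun n : ℤ => (((n : ℝ) - 1 / 2) ^ 2)⁻¹ := by
  have h1 : Summable fun n : ℕ => ((1 : ℝ) / ((n : ℝ) + 1) ^ 2) := by
    have := (summable_nat_add_iff 1).2 (Real.summable_one_div_nat_pow.2 (by norm_num : 1 < 2))
    refine this.congr fun n => ?_
    push_cast; rfl
  have h2 : Summable fun n : ℕ => (4 : ℝ) * ((1 : ℝ) / ((n : ℝ) + 1) ^ 2) := h1.mul_left 4
  refine Summable.of_nat_of_neg_add_one ?_ ?_
  · refine (h1.mul_left 16).of_nonneg_of_le (fun n => by positivity) fun n => ?_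
    have hn : (0 : ℝ) ≤ n := Nat.cast_nonneg n
    push_cast
    rw [inv_eq_one_div, mul_one_div, div_le_div_iff₀]
    · have : (1 : ℝ) / 2 ≤ |(n : ℝ) - 1 / 2| := by exact_mod_cast half_le_abs_int (n : ℤ)
      have h3 : ((n : ℝ) + 1) ≤ 4 * |(n : ℝ) - 1 / 2| := by
        rcases Nat.eq_zero_or_pos n with rfl | h
        · simp; norm_num
        · have h4 : (1 : ℝ) ≤ n := by exact_mod_cast h
          rw [abs_of_nonneg (by linarith)]
          nlinarith
      have h5 : ((n : ℝ) + 1) ^ 2 ≤ (4 * |(n : ℝ) - 1 / 2|) ^ 2 := by gcongr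
      rw [mul_pow, sq_abs] at h5
      linarith
    · have : ((n : ℝ) - 1 / 2) ≠ 0 := by exact_mod_cast int_sub_half_ne (n : ℤ)
      positivity
    · positivity
  · refine h1.of_nonneg_of_le (fun n => by positivity) fun n => ?_
    have hn : (0 : ℝ) ≤ n := Nat.cast_nonneg n
    push_cast
    rw [inv_eq_one_div]
    apply one_div_le_one_div_of_le (by positivity)
    nlinarith

lemma integrable_Fn {r i k : ℕ} (hr : 2 ≤ r) (hk : 1 ≤ k) (n : ℤ) :
    Integrable (Fn r i k n) := by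
  have hk' : (1 : ℝ) ≤ k := by exact_mod_cast hk
  exact integrable_cf (by intro h; linarith) (int_sub_half_ne n) (by omega)

lemma Ker_eq (r i k : ℕ) (y : ℝ) :
    (((k : ℂ) + tt y)⁻¹) ^ i * Ker r (tt y) = ∑' n : ℤ, Fn r i k n y := by
  rw [Ker, ← tsum_mul_left]
  refine tsum_congr fun n => ?_
  rw [Fn, tt_add_int, nat_add_tt]
  simp only [one_div, inv_pow]

lemma summable_integral_Fn {r i k : ℕ} (hr : 2 ≤ r) (hi : 1 ≤ i) (hk : 1 ≤ k) :
    Summable fun n : ℤ => ∫ y, ‖Fn r i k n y‖ := by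
  have h1 : Summable fun n : ℤ => 2 ^ (i + r) * (((n : ℝ) - 1 / 2) ^ 2)⁻¹ * Real.pi :=
    (summable_half.mul_left _).mul_right _
  refine h1.of_nonneg_of_le (fun n => integral_nonneg fun y => norm_nonneg _) fun n => ?_
  calc ∫ y, ‖Fn r i k n y‖ ≤
      ∫ y : ℝ, 2 ^ (i + r) * (((n : ℝ) - 1 / 2) ^ 2)⁻¹ * (1 + y ^ 2)⁻¹ := by
        refine integral_mono (integrable_Fn hr hk n).norm
          (integrable_inv_one_add_sq.const_mul _) fun y => norm_Fn_le hr hi hk n y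
    _ = _ := by rw [integral_const_mul, integral_univ_inv_one_add_sq]

lemma integral_Fn {r i k : ℕ} (hr : Even r) (hi : 1 ≤ i) (hk : 1 ≤ k) (n : ℤ) :
    ∫ y, Fn r i k n y = if 1 ≤ n then 0 else
      -(2 * Real.pi) * (Nat.choose (i + r - 1) r : ℂ) * (1 / ((k : ℂ) - n) ^ (i + r)) := by
  have hk' : (1 : ℝ) ≤ k := by exact_mod_cast hk
  split_ifs with h
  · have h1 : (1 : ℝ) ≤ n := by exact_mod_cast h
    exact J_pos_pos (i := i) (j := r + 1) (by linarith : (0 : ℝ) < (k : ℝ) - 1 / 2)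
      (by linarith : (0 : ℝ) < (n : ℝ) - 1 / 2) (by
        rcases Nat.eq_zero_or_pos r with rfl | h'
        · omega
        · omega)
  · obtain ⟨i, rfl⟩ := Nat.exists_eq_add_of_le' hi
    have h1 : (n : ℝ) ≤ 0 := by exact_mod_cast (by omega : n ≤ 0)
    have h2 := J_pos_neg (by linarith : (0 : ℝ) < (k : ℝ) - 1 / 2)
      (by linarith : (n : ℝ) - 1 / 2 < 0) i r
    have h3 : ∫ y, Fn r (i + 1) k n y = J (i + 1) (r + 1) ((k : ℝ) - 1 / 2) ((n : ℝ) - 1 / 2) := rfl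
    have e1 : i + 1 + r - 1 = i + r := by omega
    have e2 : i + 1 + r = i + r + 1 := by omega
    rw [h3, h2, hr.neg_one_pow, e1, e2, mul_one, inv_pow, one_div]
    congr 3
    push_cast
    ring

/-- integrability of the kernel integrand -/
theorem integrable_ker {r i k : ℕ} (hr : 2 ≤ r) (hi : 1 ≤ i) (hk : 1 ≤ k) :
    Integrable fun y : ℝ => (((k : ℂ) + tt y)⁻¹) ^ i * Ker r (tt y) := by
  have hm : AEStronglyMeasurable (fun y : ℝ => ∑' n : ℤ, Fn r i k n y) volume := by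
    have hmeas : ∀ n : ℤ, Continuous (Fn r i k n) := by
      intro n
      have hk' : (1 : ℝ) ≤ k := by exact_mod_cast hk
      exact ((continuous_cf_inv (by intro h; linarith)).pow i).mul
        ((continuous_cf_inv (int_sub_half_ne n)).pow (r + 1))
    have : Continuous fun y : ℝ => ∑' n : ℤ, Fn r i k n y := by
      refine continuous_tsum hmeas (u := fun n : ℤ => 2 ^ (i + r) * (((n : ℝ) - 1 / 2) ^ 2)⁻¹)
        (summable_half.mul_left _) fun n y => ?_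
      refine (norm_Fn_le hr hi hk n y).trans ?_
      have h1 : (1 + y ^ 2)⁻¹ ≤ 1 := by
        apply inv_le_one_of_one_le₀
        have := sq_nonneg y; linarith
      have h2 : (0 : ℝ) ≤ 2 ^ (i + r) * (((n : ℝ) - 1 / 2) ^ 2)⁻¹ := by positivity
      nlinarith
    exact this.aestronglyMeasurable
  simp only [Ker_eq]
  set T : ℝ := ∑' n : ℤ, (((n : ℝ) - 1 / 2) ^ 2)⁻¹ with hT
  refine (integrable_inv_one_add_sq.const_mul (2 ^ (i + r) * T)).mono' hm
    (Eventually.of_forall fun y => ?_)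
  have hs : Summable fun n : ℤ => 2 ^ (i + r) * (((n : ℝ) - 1 / 2) ^ 2)⁻¹ * (1 + y ^ 2)⁻¹ :=
    (summable_half.mul_left _).mul_right _
  have h1 := tsum_of_norm_bounded hs.hasSum (fun n => norm_Fn_le hr hi hk n y)
  rw [tsum_mul_right, tsum_mul_left] at h1
  exact h1

/-- the value of the kernel integral -/
theorem integral_ker {r i k : ℕ} (hr : Even r) (hr2 : 2 ≤ r) (hi : 1 ≤ i) (hk : 1 ≤ k) :
    ∫ y : ℝ, (((k : ℂ) + tt y)⁻¹) ^ i * Ker r (tt y) =
      -(2 * Real.pi) * ((Nat.choose (i + r - 1) r : ℂ) *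
        ∑' t : ℕ, 1 / ((t : ℂ) + k) ^ (i + r)) := by
  have h1 := (hasSum_integral_of_summable_integral_norm (fun n => integrable_Fn hr2 hk n)
    (summable_integral_Fn hr2 hi hk)).tsum_eq
  simp only [Ker_eq]
  rw [← h1]
  simp only [integral_Fn hr hi hk]
  have hinj : Function.Injective fun t : ℕ => -(t : ℤ) := by
    intro s t h
    simpa using h
  rw [← hinj.tsum_eq]
  · rw [← mul_assoc, ← tsum_mul_left]
    refine tsum_congr fun t => ?_
    rw [if_neg (by omega)]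
    congr 3
    push_cast
    ring
  · intro n hn
    rw [Function.mem_support] at hn
    have h2 : ¬ (1 ≤ n) := by
      intro h3
      exact hn (if_pos h3)
    exact ⟨(-n).toNat, by simp only []; omega⟩

lemma summable_zr {s : ℕ} (hs : 2 ≤ s) : Summable fun n : ℕ => (1 : ℝ) / ((n : ℝ) + 1) ^ s := by
  have := (summable_nat_add_iff 1).2 (Real.summable_one_div_nat_pow.2 (by omega : 1 < s))
  refine this.congr fun n => ?_
  push_cast; rfl

/-- (Z) tails of the zeta series -/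
theorem tsum_tail {s k : ℕ} (hs : 2 ≤ s) (hk : 1 ≤ k) :
    ∑' t : ℕ, (1 : ℝ) / ((t : ℝ) + k) ^ s = zr s - (Hs s (k - 1) : ℝ) := by
  have h1 := (summable_zr hs).sum_add_tsum_nat_add (k - 1)
  rw [zr, ← h1, Hs]
  push_cast
  rw [add_sub_cancel_left]
  refine tsum_congr fun t => ?_
  have : ((k - 1 : ℕ) : ℝ) = (k : ℝ) - 1 := by
    rw [Nat.cast_sub hk]; simp
  rw [this]
  congr 2
  ring

theorem tsum_tail_complex {s k : ℕ} (hs : 2 ≤ s) (hk : 1 ≤ k) :
    ∑' t : ℕ, (1 : ℂ) / ((t : ℂ) + k) ^ s = ((zr s - (Hs s (k - 1) : ℝ) : ℝ) : ℂ) := by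
  rw [← tsum_tail hs hk, Complex.ofReal_tsum]
  refine tsum_congr fun t => ?_
  push_cast
  rfl

/-- passing from `H_{b+u-1}` to `H_{a+u-1}` -/
theorem sum_Hs {r q B a b : ℕ} (ha : 1 ≤ a) (hab : a ≤ b) (G : ℚ[X]) (hr : Even r)
    (hrB : r < B) (hdeg : 2 * B * (b - a) + 2 * G.natDegree + 2 ≤ q * (2 * a - 1)) :
    ∑ u ∈ pc a, ∑ i ∈ Finset.Icc 1 q, (Nat.choose (i + r - 1) r : ℚ) * Acoef q B a b u i G *
      Hs (i + r) ((b : ℤ) + u - 1).toNat =
    ∑ u ∈ pc a, ∑ i ∈ Finset.Icc 1 q, (Nat.choose (i + r - 1) r : ℚ) * Acoef q B a b u i G *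
      Hs (i + r) ((a : ℤ) + u - 1).toNat := by
  obtain ⟨d, rfl⟩ := Nat.exists_eq_add_of_le hab
  have key : ∀ e : ℕ, e ≤ d →
      ∑ u ∈ pc a, ∑ i ∈ Finset.Icc 1 q, (Nat.choose (i + r - 1) r : ℚ) *
        Acoef q B a (a + d) u i G * Hs (i + r) ((a : ℤ) + e + u - 1).toNat =
      ∑ u ∈ pc a, ∑ i ∈ Finset.Icc 1 q, (Nat.choose (i + r - 1) r : ℚ) *
        Acoef q B a (a + d) u i G * Hs (i + r) ((a : ℤ) + u - 1).toNat := by
    intro e he
    induction e with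
    | zero => simp
    | succ e ih =>
      rw [← ih (by omega)]
      have hv := sum_van (q := q) ha hab G hr hrB hdeg ((a : ℤ) + e) (by omega) (by push_cast; omega)
      rw [← sub_eq_zero, ← Finset.sum_sub_distrib]
      rw [← hv]
      refine Finset.sum_congr rfl fun u hu => ?_
      rw [← Finset.sum_sub_distrib]
      refine Finset.sum_congr rfl fun i _ => ?_
      rw [mem_pc] at hu
      have e1 : ((a : ℤ) + (e + 1 : ℕ) + u - 1).toNat = ((a : ℤ) + e + u - 1).toNat + 1 := by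
        push_cast; omega
      rw [e1, Hs, Finset.sum_range_succ, ← Hs]
      have e2 : ((((a : ℤ) + e + u - 1).toNat : ℕ) : ℚ) + 1 = (((a : ℤ) + e + u : ℤ) : ℚ) := by
        have : ((((a : ℤ) + e + u - 1).toNat : ℕ) : ℤ) = (a : ℤ) + e + u - 1 :=
          Int.toNat_of_nonneg (by omega)
        have h2 : ((((a : ℤ) + e + u - 1).toNat : ℕ) : ℚ) = (((a : ℤ) + e + u - 1 : ℤ) : ℚ) := by
          rw [← this]; push_cast; rfl
        rw [h2]; push_cast; ring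
      rw [e2]
      ring
  have := key d le_rfl
  push_cast
  exact this

theorem m1 : M1 := by
  intro r q B a b z G hr hr2 hq hq2 ha hab hrB hdeg hz
  have hdeg2 : 2 * B * (b - a) + 2 * G.natDegree + 2 ≤ q * (2 * a - 1) := by omega
  -- the integral
  have hk : ∀ u ∈ pc a, ∃ k : ℕ, 1 ≤ k ∧ (k : ℤ) = (b : ℤ) + u := by
    intro u hu
    rw [mem_pc] at hu
    exact ⟨((b : ℤ) + u).toNat, by omega, by omega⟩
  have hpt : ∀ y : ℝ, Rc q B a b (b + tt y) * Polynomial.aeval ((b + tt y) ^ 2) G * Ker r (tt y) =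
      ∑ u ∈ pc a, ∑ i ∈ Finset.Icc 1 q, (Acoef q B a b u i G : ℂ) *
        ((((((b : ℤ) + u).toNat : ℕ) : ℂ) + tt y)⁻¹ ^ i * Ker r (tt y)) := by
    intro y
    rw [Rc_mul_aeval ha hab G hdeg2, Finset.sum_mul]
    · refine Finset.sum_congr rfl fun u hu => ?_
      rw [Finset.sum_mul]
      refine Finset.sum_congr rfl fun i _ => ?_
      obtain ⟨k, hk1, hk2⟩ := hk u hu
      rw [← hk2, Int.toNat_natCast]
      have h1 : (b : ℂ) + tt y + (u : ℂ) = (k : ℂ) + tt y := by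
        have : (k : ℂ) = (b : ℂ) + (u : ℂ) := by exact_mod_cast congrArg (fun x : ℤ => (x : ℂ)) hk2
        rw [this]; ring
      rw [h1, inv_pow, div_eq_mul_inv]
      ring
    · intro u hu
      obtain ⟨k, hk1, hk2⟩ := hk u hu
      have h1 : (b : ℂ) + tt y + (u : ℂ) = cf ((k : ℝ) - 1 / 2) y := by
        rw [← nat_add_tt]
        have : (k : ℂ) = (b : ℂ) + (u : ℂ) := by exact_mod_cast congrArg (fun x : ℤ => (x : ℂ)) hk2
        rw [this]; ring
      rw [h1]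
      apply cf_ne
      have : (1 : ℝ) ≤ k := by exact_mod_cast hk1
      intro h; linarith
  simp only [hpt]
  have hint : ∀ u ∈ pc a, ∀ i ∈ Finset.Icc 1 q, Integrable fun y : ℝ =>
      (Acoef q B a b u i G : ℂ) *
        ((((((b : ℤ) + u).toNat : ℕ) : ℂ) + tt y)⁻¹ ^ i * Ker r (tt y)) := by
    intro u hu i hi
    rw [Finset.mem_Icc] at hi
    rw [mem_pc] at hu
    exact (integrable_ker hr2 hi.1 (by omega)).const_mul _
  rw [integral_finsetSum _ fun u hu => integrable_finsetSum _ fun i hi => hint u hu i hi]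
  have h2 : ∀ u ∈ pc a, ∫ y : ℝ, ∑ i ∈ Finset.Icc 1 q, (Acoef q B a b u i G : ℂ) *
        ((((((b : ℤ) + u).toNat : ℕ) : ℂ) + tt y)⁻¹ ^ i * Ker r (tt y)) =
      ∑ i ∈ Finset.Icc 1 q, (Acoef q B a b u i G : ℂ) * (-(2 * Real.pi) *
        ((Nat.choose (i + r - 1) r : ℂ) *
          ((zr (i + r) - (Hs (i + r) ((b : ℤ) + u - 1).toNat : ℝ) : ℝ) : ℂ))) := by
    intro u hu
    rw [integral_finsetSum _ fun i hi => hint u hu i hi]
    refine Finset.sum_congr rfl fun i hi => ?_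
    rw [Finset.mem_Icc] at hi
    rw [mem_pc] at hu
    rw [integral_const_mul, integral_ker hr hr2 hi.1 (by omega),
      tsum_tail_complex (by omega) (by omega)]
    have : ((b : ℤ) + u).toNat - 1 = ((b : ℤ) + u - 1).toNat := by omega
    rw [this]
  rw [Finset.sum_congr rfl h2]
  have h3 : -(1 / (2 * (Real.pi : ℂ))) * ∑ u ∈ pc a, ∑ i ∈ Finset.Icc 1 q,
      (Acoef q B a b u i G : ℂ) * (-(2 * Real.pi) * ((Nat.choose (i + r - 1) r : ℂ) *
          ((zr (i + r) - (Hs (i + r) ((b : ℤ) + u - 1).toNat : ℝ) : ℝ) : ℂ))) =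
      ((∑ u ∈ pc a, ∑ i ∈ Finset.Icc 1 q, (Nat.choose (i + r - 1) r : ℝ) *
        (Acoef q B a b u i G : ℝ) * (zr (i + r) - (Hs (i + r) ((b : ℤ) + u - 1).toNat : ℝ)) : ℝ) : ℂ) := by
    rw [Finset.mul_sum]
    push_cast
    refine Finset.sum_congr rfl fun u _ => ?_
    rw [Finset.mul_sum]
    refine Finset.sum_congr rfl fun i _ => ?_
    have : (Real.pi : ℂ) ≠ 0 := by exact_mod_cast Real.pi_ne_zero
    field_simp
  rw [h3]
  -- now a real identity
  have h4 : ((Lw r q B a b (wt r a 1 z) G : ℚ) : ℝ) =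
      ∑ u ∈ pc a, ∑ i ∈ Finset.Icc 1 q, (Nat.choose (i + r - 1) r : ℝ) *
        (Acoef q B a b u i G : ℝ) * (zr (i + r) - (Hs (i + r) ((b : ℤ) + u - 1).toNat : ℝ)) := by
    have h5 := sum_Hs (q := q) ha hab G hr (by omega : r < B) hdeg2
    have h6 : ∑ u ∈ pc a, ∑ i ∈ Finset.Icc 1 q, (Nat.choose (i + r - 1) r : ℝ) *
        (Acoef q B a b u i G : ℝ) * (z (i + r) : ℝ) =
        ∑ u ∈ pc a, ∑ i ∈ Finset.Icc 1 q, (Nat.choose (i + r - 1) r : ℝ) *
        (Acoef q B a b u i G : ℝ) * zr (i + r) := by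
      rw [Finset.sum_comm, Finset.sum_comm (s := pc a)]
      refine Finset.sum_congr rfl fun i hi => ?_
      rw [Finset.mem_Icc] at hi
      rw [← Finset.sum_mul, ← Finset.sum_mul, ← Finset.mul_sum]
      rcases Nat.even_or_odd i with he | ho
      · have := sum_Acoef_even (B := B) (b := b) ha hq hi.2 he G
        have h7 : ∑ u ∈ pc a, (Acoef q B a b u i G : ℝ) = 0 := by exact_mod_cast this
        rw [h7]; simp
      · by_cases h1 : i = 1
        · subst h1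
          have := sum_Acoef_one (q := q) (B := B) ha hab (by omega) G hdeg
          have h7 : ∑ u ∈ pc a, (Acoef q B a b u 1 G : ℝ) = 0 := by exact_mod_cast this
          rw [h7]; simp
        · congr 1
          rw [hz, if_pos]
          obtain ⟨m, hm⟩ := ho
          obtain ⟨r', hr'⟩ := hr
          obtain ⟨q', hq'⟩ := hq
          refine ⟨⟨m + r', by omega⟩, by omega, by omega⟩
    have h5' : ∑ u ∈ pc a, ∑ i ∈ Finset.Icc 1 q, (Nat.choose (i + r - 1) r : ℝ) *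
        (Acoef q B a b u i G : ℝ) * (Hs (i + r) ((b : ℤ) + u - 1).toNat : ℝ) =
        ∑ u ∈ pc a, ∑ i ∈ Finset.Icc 1 q, (Nat.choose (i + r - 1) r : ℝ) *
        (Acoef q B a b u i G : ℝ) * (Hs (i + r) ((a : ℤ) + u - 1).toNat : ℝ) := by
      exact_mod_cast congrArg (fun x : ℚ => (x : ℝ)) h5
    rw [Lw_apply]
    simp only [mul_sub, Finset.sum_sub_distrib]
    rw [h5', ← h6, ← Finset.sum_sub_distrib]
    push_cast
    refine Finset.sum_congr rfl fun u _ => ?_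
    rw [← Finset.sum_sub_distrib]
    refine Finset.sum_congr rfl fun i _ => ?_
    have e : u + (a : ℤ) - 1 = (a : ℤ) + u - 1 := by ring
    rw [wt, e]
    push_cast
    ring
  rw [← h4]
  push_cast
  rfl

end Z579
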