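import Pool.Agent.Lib.Z579.Defs

/-!
# Statements for the numerical part of the proof (parameters of `{5,7,9}`)

`a = 3n+1`, `m = 7n`, `E = 10 a m - 2 m^2`.
-/

open Polynomial Finset

namespace Z579

/-- `E = 10 a m - 2 m^2` for `a = 3n+1`, `m = 7n` -/
noncomputable def En (n : ℕ) : ℝ := 10 * (3 * n + 1) * (7 * n) - 2 * (7 * n) ^ 2

/-- M9: the p-adic total. -/
def M9 : Prop := ∀ C : ℝ, 0 ≤ C → ∃ n₀ : ℕ, ∀ n : ℕ, n₀ ≤ n → ∀ β : ℕ → ℝ,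
  (∀ p : ℕ, p.Prime → p ^ 2 < 3 * (3 * n + 1) →
    β p ≤ En n / (p - 1) + C * (1 + Nat.log p (2 * ((3 * n + 1) + 2 * (3 * n + 1) + 7 * n))) * (7 * n)) →
  (∀ p : ℕ, p.Prime → 3 * (3 * n + 1) ≤ p ^ 2 → p ≤ 3 * n + 1 →
    β p ≤ 3 * (7 * n) + En n / p + 49 / 8 * p + 1 / 8 * (4 * (7 * n) / p + 14) ^ 2) →
  (∀ p : ℕ, p.Prime → 3 * n + 1 < p → 2 * p + 1 ≤ 3 * (3 * n + 1) →
    β p ≤ 3 * (7 * n) + 11 / 2 * (3 * n + 1) + 7 * p) →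
  (∀ p : ℕ, p.Prime → 3 * (3 * n + 1) < 2 * p + 1 → p ≤ 2 * (3 * n + 1) →
    β p ≤ 361 / 8 * (2 * (3 * (n : ℝ) + 1) - p)) →
  ∑ p ∈ (Finset.Icc 1 (2 * (3 * n + 1))).filter Nat.Prime, β p * Real.log p ≤
    En n * Real.log (3 * n + 1) + 101 / 5 * (3 * n + 1) ^ 2

/-- M10: the archimedean total. -/
def M10 : Prop := ∀ C Q : ℝ, 1 ≤ Q → ∃ n₀ : ℕ, ∀ n : ℕ, n₀ ≤ n →
  (7 * n) * Real.log Q + Real.log ((7 * n).factorial) +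
    ∑ i ∈ Finset.range (7 * n), (C * Real.log ((3 * n + 1 : ℕ) + 1) +
      (2 * ((2 * i : ℕ) : ℝ) - 10 * (3 * n + 1 : ℕ)) * Real.log (3 * n + 1 : ℕ) +
      (3 * n + 1 : ℕ) * ch ((2 * i : ℕ) / (3 * n + 1 : ℕ))) ≤
    - (En n * Real.log (3 * n + 1)) - 103 / 5 * (3 * n + 1) ^ 2

end Z579
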