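import Pool.Agent.Lib.Z579.Defs

/-!
# Valuations `VG` and weighted power series
-/

open Polynomial Finset

namespace Z579

set_option linter.unusedSectionVars false

section VGL

lemma VG.zero' (p : ℕ) (c : ℝ) : VG p c 0 := Or.inl rfl

lemma VG.mono {p : ℕ} {c d : ℝ} {x : ℚ} (h : VG p d x) (hcd : c ≤ d) : VG p c x :=
  h.imp id fun h => hcd.trans h

variable {p : ℕ} [hp : Fact p.Prime]

lemma VG.mul {c d : ℝ} {x y : ℚ} (hx : VG p c x) (hy : VG p d y) : VG p (c + d) (x * y) := by
  rcases eq_or_ne x 0 with h0 | h0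
  · left; rw [h0, zero_mul]
  rcases eq_or_ne y 0 with h1 | h1
  · left; rw [h1, mul_zero]
  right
  rw [padicValRat.mul h0 h1]
  push_cast
  have h2 := hx.resolve_left h0
  have h3 := hy.resolve_left h1
  linarith

lemma VG.add {c : ℝ} {x y : ℚ} (hx : VG p c x) (hy : VG p c y) : VG p c (x + y) := by
  rcases eq_or_ne x 0 with h0 | h0
  · rw [h0, zero_add]; exact hy
  rcases eq_or_ne y 0 with h1 | h1
  · rw [h1, add_zero]; exact hx
  rcases eq_or_ne (x + y) 0 with h2 | h2
  · left; exact h2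
  right
  have h3 := hx.resolve_left h0
  have h4 := hy.resolve_left h1
  have h5 := padicValRat.min_le_padicValRat_add (p := p) h2
  rcases min_le_iff.1 h5 with h | h
  · exact h3.trans (by exact_mod_cast h)
  · exact h4.trans (by exact_mod_cast h)

lemma VG.neg {c : ℝ} {x : ℚ} (hx : VG p c x) : VG p c (-x) := by
  rcases hx with h | h
  · left; rw [h, neg_zero]
  · right; rwa [padicValRat.neg]

lemma VG.sub {c : ℝ} {x y : ℚ} (hx : VG p c x) (hy : VG p c y) : VG p c (x - y) := by
  rw [sub_eq_add_neg]; exact hx.add hy.neg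

lemma VG.sum {ι : Type*} {s : Finset ι} {f : ι → ℚ} {c : ℝ} (h : ∀ i ∈ s, VG p c (f i)) :
    VG p c (∑ i ∈ s, f i) := by
  classical
  induction s using Finset.induction_on with
  | empty => exact Or.inl (by simp)
  | insert i s hi ih =>
    rw [Finset.sum_insert hi]
    exact (h i (Finset.mem_insert_self i s)).add
      (ih fun j hj => h j (Finset.mem_insert_of_mem hj))

lemma VG.int (n : ℤ) : VG p 0 (n : ℚ) := by
  right
  rw [padicValRat.of_int]
  exact_mod_cast Nat.zero_le _

lemma VG.nat (n : ℕ) : VG p 0 (n : ℚ) := by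
  have := VG.int (p := p) (n : ℤ)
  simpa using this

lemma VG.one : VG p 0 (1 : ℚ) := by simpa using VG.nat (p := p) 1

lemma VG.self (x : ℚ) : VG p (padicValRat p x) x := Or.inr le_rfl

lemma VG.of_dvd {n : ℤ} (h : (p : ℤ) ∣ n) : VG p 1 (n : ℚ) := by
  rcases eq_or_ne n 0 with h0 | h0
  · left; simp [h0]
  right
  rw [padicValRat.of_int]
  have h1 : (1 : ℤ) ≤ padicValInt p n := by
    have := (padicValInt_dvd_iff (p := p) 1 n).1 (by simpa using h)
    have h2 := this.resolve_left h0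
    exact_mod_cast h2
  exact_mod_cast h1

lemma VG.pow {c : ℝ} {x : ℚ} (hx : VG p c x) (n : ℕ) : VG p (n * c) (x ^ n) := by
  induction n with
  | zero => simpa using VG.one (p := p)
  | succ n ih =>
    rw [pow_succ]
    refine (ih.mul hx).mono (le_of_eq ?_)
    push_cast; ring

lemma VG.prod {ι : Type*} {s : Finset ι} {f : ι → ℚ} {c : ι → ℝ} (h : ∀ i ∈ s, VG p (c i) (f i)) :
    VG p (∑ i ∈ s, c i) (∏ i ∈ s, f i) := by
  classical
  induction s using Finset.induction_on with
  | empty => simpa using VG.one (p := p)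
  | insert i s hi ih =>
    rw [Finset.sum_insert hi, Finset.prod_insert hi]
    exact (h i (Finset.mem_insert_self i s)).mul
      (ih fun j hj => h j (Finset.mem_insert_of_mem hj))

/-- determinant bound -/
lemma VG.det {m : ℕ} {M : Matrix (Fin m) (Fin m) ℚ} {g h : Fin m → ℝ}
    (hM : ∀ i j, VG p (g i + h j) (M i j)) :
    VG p (∑ i, g i + ∑ j, h j) M.det := by
  rw [Matrix.det_apply]
  refine VG.sum fun σ _ => ?_
  have h1 : VG p (∑ i, (g (σ i) + h i)) (∏ i, M (σ i) i) := VG.prod fun i _ => hM (σ i) i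
  rw [Finset.sum_add_distrib, Equiv.sum_comp σ g] at h1
  rcases Int.units_eq_one_or (Equiv.Perm.sign σ) with h2 | h2
  · rw [h2, one_smul]; exact h1
  · rw [h2, Units.neg_smul, one_smul]; exact h1.neg

end VGL

/-- weighted power series -/
def WA (p : ℕ) (K N : ℝ) (f : PowerSeries ℚ) : Prop :=
  ∀ j : ℕ, VG p (N - j * K) (PowerSeries.coeff j f)

section WAL

lemma WA.mono {p : ℕ} {K N M : ℝ} {f : PowerSeries ℚ} (h : WA p K M f) (hNM : N ≤ M) :
    WA p K N f := fun j => (h j).mono (by linarith)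

variable {p : ℕ} [hp : Fact p.Prime]

lemma WA.add {K N : ℝ} {f g : PowerSeries ℚ} (hf : WA p K N f) (hg : WA p K N g) :
    WA p K N (f + g) := fun j => by
  rw [map_add]; exact (hf j).add (hg j)

lemma WA.mul {K N M : ℝ} {f g : PowerSeries ℚ} (hf : WA p K N f) (hg : WA p K M g) :
    WA p K (N + M) (f * g) := fun j => by
  rw [PowerSeries.coeff_mul]
  refine VG.sum fun x hx => ?_
  refine ((hf x.1).mul (hg x.2)).mono (le_of_eq ?_)
  have h : x.1 + x.2 = j := Finset.HasAntidiagonal.mem_antidiagonal.1 hx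
  have h' : ((x.1 : ℝ) + x.2) = j := by exact_mod_cast h
  rw [← h']; ring

lemma WA.const {K N : ℝ} {x : ℚ} (hx : VG p N x) : WA p K N (PowerSeries.C x) := fun j => by
  rw [PowerSeries.coeff_C]
  split_ifs with h
  · subst h; simpa using hx
  · exact VG.zero' _ _

lemma WA.one' (K : ℝ) : WA p K 0 1 := by
  have := WA.const (K := K) (VG.one (p := p))
  simpa using this

lemma WA.pow {K N : ℝ} {f : PowerSeries ℚ} (hf : WA p K N f) (n : ℕ) :
    WA p K (n * N) (f ^ n) := by
  induction n with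
  | zero => simpa using WA.one' (p := p) K
  | succ n ih =>
    rw [pow_succ]
    refine (ih.mul hf).mono (le_of_eq ?_)
    push_cast; ring

lemma WA.prod {ι : Type*} {s : Finset ι} {K : ℝ} {f : ι → PowerSeries ℚ} {c : ι → ℝ}
    (h : ∀ i ∈ s, WA p K (c i) (f i)) :
    WA p K (∑ i ∈ s, c i) (∏ i ∈ s, f i) := by
  classical
  induction s using Finset.induction_on with
  | empty => simpa using WA.one' (p := p) K
  | insert i s hi ih =>
    rw [Finset.sum_insert hi, Finset.prod_insert hi]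
    exact (h i (Finset.mem_insert_self i s)).mul
      (ih fun j hj => h j (Finset.mem_insert_of_mem hj))

lemma coeff_lin (c : ℤ) (j : ℕ) :
    PowerSeries.coeff j (lin c) = if j = 0 then (c : ℚ) else if j = 1 then 1 else 0 := by
  rw [lin, map_add, PowerSeries.coeff_X, PowerSeries.coeff_C]
  rcases j with _ | _ | j <;> simp

lemma WA.lin {K N : ℝ} {c : ℤ} (hc : VG p N (c : ℚ)) (hN : N ≤ K) : WA p K N (lin c) := fun j => by
  rw [coeff_lin]
  split_ifs with h h'
  · subst h; simpa using hc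
  · subst h'
    exact (VG.one (p := p)).mono (by push_cast; linarith)
  · exact VG.zero' _ _

lemma WA.lin0 {K : ℝ} (hK : 0 ≤ K) (c : ℤ) : WA p K 0 (Z579.lin c) := WA.lin (VG.int c) hK

lemma coeff_lin_inv {c : ℤ} (hc : c ≠ 0) (j : ℕ) :
    PowerSeries.coeff j (lin c)⁻¹ = (-1) ^ j * ((c : ℚ)⁻¹) ^ (j + 1) := by
  have hc' : (c : ℚ) ≠ 0 := by exact_mod_cast hc
  have h : (lin c)⁻¹ = PowerSeries.mk fun j => (-1) ^ j * ((c : ℚ)⁻¹) ^ (j + 1) := by
    symm
    rw [PowerSeries.eq_inv_iff_mul_eq_one]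
    · ext n
      rw [lin, mul_add, map_add]
      rcases n with _ | n
      · simp [hc']
      · rw [PowerSeries.coeff_succ_mul_X, mul_comm _ (PowerSeries.C (c : ℚ)),
          PowerSeries.coeff_C_mul, PowerSeries.coeff_mk, PowerSeries.coeff_mk,
          PowerSeries.coeff_one, if_neg (Nat.succ_ne_zero n)]
        have h2 : (c : ℚ) * ((-1) ^ (n + 1) * (c : ℚ)⁻¹ ^ (n + 1 + 1)) =
            -((-1) ^ n * (c : ℚ)⁻¹ ^ (n + 1)) * ((c : ℚ) * (c : ℚ)⁻¹) := by ring
        rw [h2, mul_inv_cancel₀ hc']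
        ring
    · rw [lin]; simp [hc']
  rw [h, PowerSeries.coeff_mk]

lemma WA.lin_inv {K : ℝ} {c : ℤ} (hc : c ≠ 0) (hK : (padicValRat p (c : ℚ) : ℝ) ≤ K) :
    WA p K (-(padicValRat p (c : ℚ) : ℝ)) (Z579.lin c)⁻¹ := fun j => by
  rw [coeff_lin_inv hc]
  have hc' : (c : ℚ) ≠ 0 := by exact_mod_cast hc
  right
  rw [padicValRat.mul (pow_ne_zero _ (by norm_num)) (pow_ne_zero _ (inv_ne_zero hc')),
    padicValRat.pow, padicValRat.pow, padicValRat.inv, padicValRat.neg, padicValRat.one]
  push_cast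
  have h1 : (j : ℝ) * (padicValRat p (c : ℚ) : ℝ) ≤ j * K :=
    mul_le_mul_of_nonneg_left hK (Nat.cast_nonneg j)
  linarith

/-- image of an integer polynomial -/
lemma WA.aeval_int {K : ℝ} (hK : 0 ≤ K) (u : ℤ) (G : ℤ[X]) :
    WA p K 0 (Polynomial.aeval (Z579.lin u ^ 2) (G.map (Int.castRingHom ℚ))) := by
  induction G using Polynomial.induction_on' with
  | add f g hf hg =>
    rw [Polynomial.map_add, map_add]; exact hf.add hg
  | monomial n c =>
    rw [Polynomial.map_monomial, Polynomial.aeval_monomial]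
    have h1 : WA p K 0 (algebraMap ℚ (PowerSeries ℚ) ((Int.castRingHom ℚ) c)) := by
      have := WA.const (K := K) (VG.int (p := p) c)
      simpa using this
    have h2 : WA p K 0 ((Z579.lin u ^ 2) ^ n) := by
      have := ((WA.lin0 (p := p) hK u).pow 2).pow n
      simpa using this
    simpa using h1.mul h2

lemma aeval_factor (u c : ℤ) :
    Polynomial.aeval (Z579.lin (-u) ^ 2) (X - Polynomial.C ((c : ℚ) ^ 2)) =
      Z579.lin (-u - c) * Z579.lin (-u + c) := by
  rw [map_sub, Polynomial.aeval_X, Polynomial.aeval_C, lin, lin, lin]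
  have h : algebraMap ℚ (PowerSeries ℚ) ((c : ℚ) ^ 2) = PowerSeries.C (c : ℚ) ^ 2 := by
    rw [← map_pow]; rfl
  rw [h]
  push_cast
  simp only [map_neg, map_sub, map_add]
  ring

end WAL

end Z579
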