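import Pool.Agent.Lib.Z579.M3
import Pool.Agent.Lib.Z579.M0
import Pool.Agent.Lib.Z579.VGL
import Pool.Agent.Lib.Z579.Defs2

/-!
# Assembly: auxiliary lemmas
-/

open Polynomial Finset

namespace Z579

lemma Lw_smul (r q B a b : ℕ) (ω : ℤ → ℕ → ℚ) (c : ℚ) :
    Lw r q B a b (fun u i => c * ω u i) = c • Lw r q B a b ω := by
  apply LinearMap.ext
  intro G
  rw [LinearMap.smul_apply, Lw_apply, Lw_apply, smul_eq_mul, Finset.mul_sum]
  refine Finset.sum_congr rfl fun u _ => ?_
  rw [Finset.mul_sum]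
  refine Finset.sum_congr rfl fun i _ => ?_
  ring

lemma wt_eq (r a Q : ℕ) (z : ℕ → ℚ) : wt r a Q z = fun u i => (Q : ℚ) * wt r a 1 z u i := by
  funext u i
  simp [wt]

lemma hank_smul (L : ℚ[X] →ₗ[ℚ] ℚ) (c : ℚ) (m : ℕ) : hank (c • L) m = c ^ m * hank L m := by
  rw [hank, hank]
  have : (Matrix.of fun i j : Fin m => (c • L) (X ^ ((i : ℕ) + (j : ℕ)))) =
      c • (Matrix.of fun i j : Fin m => L (X ^ ((i : ℕ) + (j : ℕ)))) := by
    ext i j
    simp
  rw [this, Matrix.det_smul, Fintype.card_fin]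

lemma hank_wt (r q B a b Q m : ℕ) (z : ℕ → ℚ) :
    hank (Lw r q B a b (wt r a Q z)) m = (Q : ℚ) ^ m * hank (Lw r q B a b (wt r a 1 z)) m := by
  rw [wt_eq, Lw_smul, hank_smul]

/-- archimedean bound for the Hankel determinant from bounds of shifted moments -/
theorem hank_abs_le (L : ℚ[X] →ₗ[ℚ] ℚ) (m : ℕ) (c : ℚ) (Γ : ℕ → ℝ)
    (hΓ : ∀ i j : ℕ, i < m → j < m → Γ (i + j) ≤ (Γ (2 * i) + Γ (2 * j)) / 2)
    (h : ∀ j : ℕ, j + 2 ≤ 2 * m → |((L ((X - Polynomial.C c) ^ j) : ℚ) : ℝ)| ≤ Real.exp (Γ j)) :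
    |((hank L m : ℚ) : ℝ)| ≤ m.factorial * Real.exp (∑ i ∈ Finset.range m, Γ (2 * i)) := by
  have h1 := m0 L m (fun i => (X - Polynomial.C c) ^ i) (fun i => (monic_X_sub_C c).pow i)
    (fun i => by rw [natDegree_pow, natDegree_X_sub_C, mul_one])
  rw [h1]
  have h2 : ((Matrix.det (Matrix.of fun i j : Fin m =>
      L ((X - Polynomial.C c) ^ (i : ℕ) * (X - Polynomial.C c) ^ (j : ℕ))) : ℚ) : ℝ) =
      Matrix.det (Matrix.of fun i j : Fin m =>
        ((L ((X - Polynomial.C c) ^ (i : ℕ) * (X - Polynomial.C c) ^ (j : ℕ)) : ℚ) : ℝ)) := by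
    have := RingHom.map_det (Rat.castHom ℝ) (Matrix.of fun i j : Fin m =>
      L ((X - Polynomial.C c) ^ (i : ℕ) * (X - Polynomial.C c) ^ (j : ℕ)))
    rw [Rat.coe_castHom] at this
    rw [this]
    rfl
  rw [h2]
  have h3 := det_bound m (Matrix.of fun i j : Fin m =>
        ((L ((X - Polynomial.C c) ^ (i : ℕ) * (X - Polynomial.C c) ^ (j : ℕ)) : ℚ) : ℝ))
        (fun i => Γ (2 * i)) (fun i j => by
          rw [Matrix.of_apply, ← pow_add]
          refine (h _ (by have := i.2; have := j.2; omega)).trans ?_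
          exact Real.exp_le_exp.2 (hΓ i j i.2 j.2))
  refine h3.trans_eq ?_
  rw [Finset.sum_range]

lemma ch_convex (s t : ℝ) : ch ((s + t) / 2) ≤ (ch s + ch t) / 2 := by
  unfold ch
  rcases le_total (-19 / 2 + (3 / 70) * ((s + t) / 2))
    (-47 / 5 + (6 / 7) * ((s + t) / 2 - 7 / 3)) with h | h
  · rw [max_eq_right h]
    have h1 := le_max_right (-19 / 2 + (3 / 70) * s) (-47 / 5 + (6 / 7) * (s - 7 / 3))
    have h2 := le_max_right (-19 / 2 + (3 / 70) * t) (-47 / 5 + (6 / 7) * (t - 7 / 3))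
    linarith
  · rw [max_eq_left h]
    have h1 := le_max_left (-19 / 2 + (3 / 70) * s) (-47 / 5 + (6 / 7) * (s - 7 / 3))
    have h2 := le_max_left (-19 / 2 + (3 / 70) * t) (-47 / 5 + (6 / 7) * (t - 7 / 3))
    linarith

/-- product formula: lower bound for a nonzero rational number -/
theorem log_abs_ge (D : ℚ) (hD : D ≠ 0) (M : ℕ)
    (hM : ∀ p : ℕ, p.Prime → M < p → VG p 0 D) :
    - ∑ p ∈ (Finset.Icc 1 M).filter Nat.Prime, (D.den.factorization p : ℝ) * Real.log p ≤
      Real.log |((D : ℚ) : ℝ)| := by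
  have hden : Real.log D.den = ∑ p ∈ D.den.primeFactors, (D.den.factorization p : ℝ) * Real.log p := by
    conv_lhs => rw [← Nat.prod_factorization_pow_eq_self D.den_ne_zero]
    rw [Finsupp.prod, Nat.cast_prod, Real.log_prod]
    · refine Finset.sum_congr rfl fun p _ => ?_
      rw [Nat.cast_pow, Real.log_pow]
    · intro p hp
      have := Nat.prime_of_mem_primeFactors hp
      exact_mod_cast (pow_pos this.pos _).ne'
  have hsub : D.den.primeFactors ⊆ (Finset.Icc 1 M).filter Nat.Prime := by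
    intro p hp
    have hpp := Nat.prime_of_mem_primeFactors hp
    have hd := Nat.dvd_of_mem_primeFactors hp
    rw [Finset.mem_filter, Finset.mem_Icc]
    refine ⟨⟨hpp.one_le, ?_⟩, hpp⟩
    by_contra hcc
    push Not at hcc
    haveI : Fact p.Prime := ⟨hpp⟩
    rcases hM p hpp hcc with h | h
    · exact hD h
    · have h1 : (0 : ℤ) ≤ padicValRat p D := by exact_mod_cast h
      rw [padicValRat_def] at h1
      have h2 : padicValInt p D.num = 0 := by
        rw [padicValInt]
        apply padicValNat.eq_zero_of_not_dvd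
        intro h3
        have := Nat.dvd_gcd h3 hd
        rw [D.reduced] at this
        exact hpp.one_lt.ne' (Nat.dvd_one.1 this)
      have h3 : 1 ≤ padicValNat p D.den := one_le_padicValNat_of_dvd D.den_ne_zero hd
      rw [h2] at h1
      omega
  have hle : ∑ p ∈ D.den.primeFactors, (D.den.factorization p : ℝ) * Real.log p ≤
      ∑ p ∈ (Finset.Icc 1 M).filter Nat.Prime, (D.den.factorization p : ℝ) * Real.log p := by
    refine Finset.sum_le_sum_of_subset_of_nonneg hsub fun p hp _ => ?_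
    rw [Finset.mem_filter, Finset.mem_Icc] at hp
    exact mul_nonneg (Nat.cast_nonneg _) (Real.log_nonneg (by exact_mod_cast hp.1.1))
  have habs : Real.log |((D : ℚ) : ℝ)| = Real.log |(D.num : ℝ)| - Real.log D.den := by
    have h1 : ((D : ℚ) : ℝ) = (D.num : ℝ) / (D.den : ℝ) := by
      exact_mod_cast (Rat.num_div_den D).symm
    rw [h1, abs_div, Real.log_div]
    · rw [Nat.abs_cast]
    · simpa using hD
    · simp
  have hnum : 0 ≤ Real.log |(D.num : ℝ)| := by
    apply Real.log_nonneg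
    have : 1 ≤ |D.num| := Int.one_le_abs (Rat.num_ne_zero.2 hD)
    exact_mod_cast this
  rw [habs, hden]
  linarith

/-- bound for the exponent of `p` in the denominator -/
lemma fact_le_of_VG {p : ℕ} (hp : p.Prime) {D : ℚ} (hD : D ≠ 0) {x : ℝ} (hx : 0 ≤ x)
    (h : VG p (-x) D) : (D.den.factorization p : ℝ) ≤ x := by
  haveI : Fact p.Prime := ⟨hp⟩
  by_cases hd : p ∣ D.den
  · rcases h with h | h
    · exact absurd h hD
    · rw [padicValRat_def] at h
      have h2 : padicValInt p D.num = 0 := by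
        rw [padicValInt]
        apply padicValNat.eq_zero_of_not_dvd
        intro h3
        have := Nat.dvd_gcd h3 hd
        rw [D.reduced] at this
        exact hp.one_lt.ne' (Nat.dvd_one.1 this)
      rw [h2, Int.cast_sub, Int.cast_natCast, Int.cast_natCast, Nat.cast_zero] at h
      rw [Nat.factorization_def _ hp]
      linarith
  · rw [Nat.factorization_eq_zero_of_not_dvd hd]
    simpa using hx

end Z579
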