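import Pool.Agent.Lib.Z579.Red

/-!
# Local analysis of the rational function at a two-pole class
-/

open Polynomial Finset

namespace Z579

/-! ### symmetry -/

lemma mem_oc {a b : ℕ} {w : ℤ} :
    w ∈ oc a b ↔ (1 - (b : ℤ) ≤ w ∧ w ≤ -(a : ℤ)) ∨ ((a : ℤ) ≤ w ∧ w ≤ (b : ℤ) - 1) := by
  simp [oc, Finset.mem_union, Finset.mem_Icc]

lemma mem_pc {a : ℕ} {w : ℤ} : w ∈ pc a ↔ 1 - (a : ℤ) ≤ w ∧ w ≤ (a : ℤ) - 1 := by
  simp [pc, Finset.mem_Icc]

lemma neg_mem_oc {a b : ℕ} {w : ℤ} : -w ∈ oc a b ↔ w ∈ oc a b := by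
  simp only [mem_oc]; omega

lemma neg_mem_pc {a : ℕ} {w : ℤ} : -w ∈ pc a ↔ w ∈ pc a := by
  simp only [mem_pc]; omega

lemma constantCoeff_lin (c : ℤ) : PowerSeries.constantCoeff (lin c) = (c : ℚ) := by
  simp [lin]

lemma rescale_lin (x : ℚ) (c : ℤ) :
    PowerSeries.rescale x (lin c) = PowerSeries.C x * PowerSeries.X + PowerSeries.C (c : ℚ) := by
  rw [lin, map_add, PowerSeries.rescale_X]
  congr 1
  ext n
  rw [PowerSeries.coeff_rescale, PowerSeries.coeff_C]
  split_ifs with h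
  · rw [h]; simp
  · simp

lemma rescale_inv (x : ℚ) (f : PowerSeries ℚ) (hf : PowerSeries.constantCoeff f ≠ 0) :
    PowerSeries.rescale x f⁻¹ = (PowerSeries.rescale x f)⁻¹ := by
  have h1 : PowerSeries.constantCoeff (PowerSeries.rescale x f) ≠ 0 := by
    rw [← PowerSeries.coeff_zero_eq_constantCoeff_apply, PowerSeries.coeff_rescale]
    simpa using hf
  rw [PowerSeries.eq_inv_iff_mul_eq_one h1, ← map_mul, PowerSeries.inv_mul_cancel f hf, map_one]

lemma rescale_Cst (x y : ℚ) : PowerSeries.rescale x (PowerSeries.C y) = PowerSeries.C y := by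
  ext n
  rw [PowerSeries.coeff_rescale, PowerSeries.coeff_C]
  split_ifs with h
  · rw [h]; simp
  · simp

lemma rescale_aeval (x : ℚ) (f : PowerSeries ℚ) (G : ℚ[X]) :
    PowerSeries.rescale x (Polynomial.aeval f G) =
      Polynomial.aeval (PowerSeries.rescale x f) G := by
  rw [Polynomial.aeval_def, Polynomial.aeval_def, Polynomial.hom_eval₂]
  congr 1
  ext y
  simp only [RingHom.comp_apply]
  rw [show (algebraMap ℚ (PowerSeries ℚ)) y = PowerSeries.C y from rfl, rescale_Cst]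

lemma rescale_neg_one_lin (c : ℤ) :
    PowerSeries.rescale (-1 : ℚ) (lin c) = -lin (-c) := by
  rw [rescale_lin, lin]
  push_cast
  simp only [map_neg, map_one]
  ring

lemma constantCoeff_prod_lin_ne {s : Finset ℤ} {u : ℤ} (h : ∀ w ∈ s, w ≠ u) :
    PowerSeries.constantCoeff (∏ w ∈ s, lin (w - u)) ≠ 0 := by
  rw [map_prod]
  refine Finset.prod_ne_zero_iff.2 fun w hw => ?_
  rw [constantCoeff_lin]
  have := h w hw
  exact_mod_cast sub_ne_zero.2 this

lemma card_oc_even {a b : ℕ} (ha : 1 ≤ a) : Even (oc a b).card := by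
  have hd : Disjoint (Finset.Icc (1 - (b : ℤ)) (-(a : ℤ))) (Finset.Icc (a : ℤ) ((b : ℤ) - 1)) := by
    rw [Finset.disjoint_left]
    intro x hx hy
    rw [Finset.mem_Icc] at hx hy
    omega
  rw [oc, Finset.card_union_of_disjoint hd, Int.card_Icc, Int.card_Icc]
  have : (-(a : ℤ) + 1 - (1 - (b : ℤ))).toNat = ((b : ℤ) - 1 + 1 - a).toNat := by
    congr 1; ring
  rw [this]
  exact ⟨_, rfl⟩

lemma card_pc_erase_even {a : ℕ} {u : ℤ} (hu : u ∈ pc a) : Even ((pc a).erase u).card := by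
  rw [Finset.card_erase_of_mem hu, pc, Int.card_Icc]
  rw [mem_pc] at hu
  refine ⟨a - 1, ?_⟩
  omega

lemma prod_oc_neg {a b : ℕ} (ha : 1 ≤ a) (u : ℤ) :
    ∏ w ∈ oc a b, lin (w - -u) =
      PowerSeries.rescale (-1 : ℚ) (∏ w ∈ oc a b, lin (w - u)) := by
  rw [map_prod]
  have h1 : ∏ w ∈ oc a b, PowerSeries.rescale (-1 : ℚ) (lin (w - u)) =
      ∏ w ∈ oc a b, -lin (-(w - u)) := Finset.prod_congr rfl fun w _ => rescale_neg_one_lin _
  rw [h1, Finset.prod_neg, (card_oc_even ha).neg_one_pow, one_mul]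
  refine Finset.prod_nbij' (fun w => -w) (fun w => -w) ?_ ?_ ?_ ?_ ?_
  · intro w hw; exact neg_mem_oc.2 hw
  · intro w hw; exact neg_mem_oc.2 hw
  · intro w _; ring
  · intro w _; ring
  · intro w _
    congr 1; ring

lemma prod_pc_neg {a : ℕ} {u : ℤ} (hu : u ∈ pc a) :
    ∏ w ∈ (pc a).erase (-u), lin (w - -u) =
      PowerSeries.rescale (-1 : ℚ) (∏ w ∈ (pc a).erase u, lin (w - u)) := by
  rw [map_prod]
  have h1 : ∏ w ∈ (pc a).erase u, PowerSeries.rescale (-1 : ℚ) (lin (w - u)) =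
      ∏ w ∈ (pc a).erase u, -lin (-(w - u)) := Finset.prod_congr rfl fun w _ => rescale_neg_one_lin _
  rw [h1, Finset.prod_neg, (card_pc_erase_even hu).neg_one_pow, one_mul]
  refine Finset.prod_nbij' (fun w => -w) (fun w => -w) ?_ ?_ ?_ ?_ ?_
  · intro w hw
    rw [Finset.mem_erase] at hw ⊢
    exact ⟨fun h => hw.1 (by rw [← h]; ring), neg_mem_pc.2 hw.2⟩
  · intro w hw
    rw [Finset.mem_erase] at hw ⊢
    exact ⟨fun h => hw.1 (by have := neg_injective h; exact this), neg_mem_pc.2 hw.2⟩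
  · intro w _; ring
  · intro w _; ring
  · intro w _
    congr 1; ring

lemma base_neg {q B a b : ℕ} {u : ℤ} (ha : 1 ≤ a) (hu : u ∈ pc a) :
    base q B a b (-u) = -PowerSeries.rescale (-1 : ℚ) (base q B a b u) := by
  have hne : PowerSeries.constantCoeff (∏ w ∈ (pc a).erase u, lin (w - u)) ≠ 0 :=
    constantCoeff_prod_lin_ne fun w hw => (Finset.mem_erase.1 hw).1
  rw [base, base, prod_oc_neg ha, prod_pc_neg hu, ← rescale_inv _ _ hne]
  simp only [map_mul, map_pow]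
  have h2 : lin (- -u) = - PowerSeries.rescale (-1 : ℚ) (lin (-u)) := by
    rw [rescale_neg_one_lin]; ring
  have h3 : PowerSeries.rescale (-1 : ℚ) (2 : PowerSeries ℚ) = 2 := map_ofNat _ 2
  rw [h2, h3]
  ring

lemma aeval_neg (u : ℤ) (G : ℚ[X]) :
    Polynomial.aeval (lin (- -u) ^ 2) G =
      PowerSeries.rescale (-1 : ℚ) (Polynomial.aeval (lin (-u) ^ 2) G) := by
  have h2 : lin (- -u) ^ 2 = PowerSeries.rescale (-1 : ℚ) (lin (-u) ^ 2) := by
    rw [map_pow, rescale_neg_one_lin]; ring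
  rw [h2, rescale_aeval]

/-- symmetry of the partial fraction coefficients -/
theorem Acoef_neg {q B a b : ℕ} {u : ℤ} (ha : 1 ≤ a) (hu : u ∈ pc a) (hq : Even q) {i : ℕ}
    (hi : i ≤ q) (G : ℚ[X]) :
    Acoef q B a b (-u) i G = (-1) ^ (i + 1) * Acoef q B a b u i G := by
  rw [Acoef_apply, Acoef_apply, base_neg ha hu, aeval_neg, neg_mul, map_neg, ← map_mul,
    PowerSeries.coeff_rescale]
  have : ((-1 : ℚ)) ^ (q - i) = (-1) ^ i := by
    obtain ⟨k, hk⟩ := Nat.exists_eq_add_of_le hi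
    have h1 : q - i = k := by omega
    rw [h1]
    have h2 : Even (i + k) := by rwa [← hk]
    rcases Nat.even_or_odd i with h | h
    · have h3 : Even k := (Nat.even_add.1 h2).1 h
      rw [h.neg_one_pow, h3.neg_one_pow]
    · have h3 : Odd k := by
        rw [← Nat.not_even_iff_odd] at h ⊢
        exact fun h4 => h ((Nat.even_add.1 h2).2 h4)
      rw [h.neg_one_pow, h3.neg_one_pow]
  rw [this]
  ring

end Z579
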