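import Pool.Agent.Lib.Z579.M8b

open Polynomial Finset

namespace Z579

lemma det_gram_zero {ι : Type*} [Fintype ι] [DecidableEq ι] {m : ℕ} (hcard : Fintype.card ι = m)
    (T : Matrix ι (Fin m) ℚ) (H : Matrix (Fin m) (Fin m) ℚ) (hH : H.det = 0) :
    (T * H * T.transpose).det = 0 := by
  let e : ι ≃ Fin m := Fintype.equivFinOfCardEq hcard
  have h1 : T * H * T.transpose =
      (T.submatrix id e) * (H.submatrix e e) * (T.transpose.submatrix e id) := by
    rw [Matrix.submatrix_mul_equiv, Matrix.submatrix_mul_equiv, Matrix.submatrix_id_id]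
  rw [h1, Matrix.det_mul, Matrix.det_mul, Matrix.det_submatrix_equiv_self, hH]
  ring

lemma det_scale {ι : Type*} [Fintype ι] [DecidableEq ι] {R : Type*} [CommRing R]
    (G : Matrix ι ι R) (f g : ι → R) :
    (Matrix.of fun i j => f i * G i j * g j).det = (∏ i, f i) * G.det * ∏ i, g i := by
  have h1 : (Matrix.of fun i j => f i * G i j * g j) =
      Matrix.diagonal f * G * Matrix.diagonal g := by
    ext i j
    rw [Matrix.mul_diagonal, Matrix.diagonal_mul, Matrix.of_apply]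
  rw [h1, Matrix.det_mul, Matrix.det_mul, Matrix.det_diagonal, Matrix.det_diagonal]

lemma PolyN_mul (D : Finset ℤ) (n n' : ℤ → ℕ) : PolyN D n * PolyN D n' = PolyN D (n + n') := by
  rw [PolyN, PolyN, PolyN, ← Finset.prod_mul_distrib]
  refine Finset.prod_congr rfl fun d _ => ?_
  rw [Pi.add_apply, pow_add]

lemma natDegree_PolyN (D : Finset ℤ) (n : ℤ → ℕ) : (PolyN D n).natDegree = ∑ d ∈ D, n d := by
  rw [PolyN, Polynomial.natDegree_prod_of_monic]
  · refine Finset.sum_congr rfl fun d _ => ?_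
    rw [Polynomial.natDegree_pow, Polynomial.natDegree_X_sub_C, mul_one]
  · intro d _
    exact (Polynomial.monic_X_sub_C _).pow _

section
variable {p : ℕ} [hp : Fact p.Prime]

/-- exponents of the local basis -/
def nloc (N : ℕ) (c : ℤ) (j : ℕ) (d : ℤ) : ℕ := if d = c then j else N

lemma Kc_factor {q B a b N : ℕ} {D : Finset ℤ} {c : ℤ} {j j' : ℕ} :
    Kc p q B a b D (nloc N c j + nloc N c j') c =
      Kc p q B a b D (nloc (N + N) c 0) c * ((-2 * (c : ZMod p)) ^ j * (-2 * (c : ZMod p)) ^ j') := by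
  unfold Kc
  have h1 : (nloc N c j + nloc N c j') c = j + j' := by simp [nloc]
  have h2 : nloc (N + N) c 0 c = 0 := by simp [nloc]
  have h3 : ∏ d ∈ D.erase c, ((c : ZMod p) ^ 2 - d ^ 2) ^ ((nloc N c j + nloc N c j') d) =
      ∏ d ∈ D.erase c, ((c : ZMod p) ^ 2 - d ^ 2) ^ (nloc (N + N) c 0 d) := by
    refine Finset.prod_congr rfl fun d hd => ?_
    have hne := (Finset.mem_erase.1 hd).1
    simp [nloc, hne]
  rw [h1, h2, h3, pow_add, pow_zero]
  ring

/-- determinant of a local block -/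
lemma block_det_ne {r q B N : ℕ} (U x : ZMod p) (hU : U ≠ 0) (hx : x ≠ 0)
    (hl : Matrix.det (Matrix.of fun i j : Fin N => lmp p r q B ((i : ℕ) + (j : ℕ))) ≠ 0) :
    Matrix.det (Matrix.of fun i j : Fin N =>
      -(U * (x ^ (i : ℕ) * x ^ (j : ℕ)) * lmp p r q B ((i : ℕ) + (j : ℕ)))) ≠ 0 := by
  have h1 : (Matrix.of fun i j : Fin N =>
      -(U * (x ^ (i : ℕ) * x ^ (j : ℕ)) * lmp p r q B ((i : ℕ) + (j : ℕ)))) =
      Matrix.of fun i j : Fin N => (-(U * x ^ (i : ℕ))) *
        (Matrix.of fun i j : Fin N => lmp p r q B ((i : ℕ) + (j : ℕ))) i j * (x ^ (j : ℕ)) := by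
    ext i j
    simp only [Matrix.of_apply]
    ring
  rw [h1, det_scale]
  refine mul_ne_zero (mul_ne_zero (Finset.prod_ne_zero_iff.2 fun i _ => ?_) hl)
    (Finset.prod_ne_zero_iff.2 fun i _ => pow_ne_zero _ hx)
  exact neg_ne_zero.2 (mul_ne_zero hU (pow_ne_zero _ hx))

theorem m8_aux {r q B N a b m : ℕ} {z : ℕ → ℚ} (hr : 1 ≤ r) (hq : Even q)
    (hBN : B + 2 * N ≤ r + 2 * q + 1) (hl : lhank r q B N ≠ 0)
    (hpl : (lhank r q B N).num.natAbs < p)
    (hb : 2 * b = 3 * p + 1) (ha : a ≤ p) (ha2 : p + 1 ≤ 2 * a) (hab : a ≤ b)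
    (hm : 2 * m = N * (2 * a - 1 - p)) (hz : ∀ s, VG p 0 (z s)) :
    hank (Lw r q B a b (wt r a 1 z)) m ≠ 0 := by
  classical
  rcases Nat.eq_zero_or_pos N with hN | hN
  · have hm0 : m = 0 := by rw [hN] at hm; omega
    subst hm0
    simp [hank]
  intro hH
  -- local Hankel determinant is nonzero mod p
  have hl' : Matrix.det (Matrix.of fun i j : Fin N => lmp p r q B ((i : ℕ) + (j : ℕ))) ≠ 0 := by
    intro h0
    have h1 := red_lhank (p := p) r q B N
    rw [h0] at h1
    have h2 := dvd_num_of_red_zero h1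
    have h3 : (p : ℤ) ∣ ((lhank r q B N).num.natAbs : ℤ) := Int.dvd_natAbs.2 h2
    have h4 : p ∣ (lhank r q B N).num.natAbs := by exact_mod_cast h3
    have h5 : 0 < (lhank r q B N).num.natAbs := by
      rw [Int.natAbs_pos]
      exact Rat.num_ne_zero.2 hl
    have := Nat.le_of_dvd h5 h4
    omega
  obtain ⟨e, he⟩ : ∃ e, e + B = r + 2 * q := ⟨r + 2 * q - B, by omega⟩
  set D := Dset p a with hD
  let ι := Fin N × {c // c ∈ D}
  let P : ι → ℚ[X] := fun α => PolyN D (nloc N α.2.1 α.1)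
  have hcardD : 2 * D.card = 2 * a - 1 - p := by
    rw [hD, Dset, Int.card_Icc]
    omega
  have hcard : Fintype.card ι = m := by
    have h1 : Fintype.card ι = N * D.card := by
      simp [ι, Fintype.card_prod, Fintype.card_fin]
    rw [h1]
    have : 2 * (N * D.card) = 2 * m := by rw [hm, ← hcardD]; ring
    omega
  have hdeg : ∀ α : ι, (P α).natDegree < m ∨ P α = 0 := by
    intro α
    left
    rw [natDegree_PolyN, ← Finset.add_sum_erase _ _ α.2.2]
    have h1 : ∑ d ∈ D.erase α.2.1, nloc N α.2.1 α.1 d = (D.card - 1) * N := by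
      rw [← Finset.card_erase_of_mem α.2.2, ← smul_eq_mul, ← Finset.sum_const]
      refine Finset.sum_congr rfl fun d hd => ?_
      simp [nloc, (Finset.mem_erase.1 hd).1]
    have h2 : nloc N α.2.1 α.1 α.2.1 = (α.1 : ℕ) := by simp [nloc]
    rw [h1, h2]
    have h3 : 0 < D.card := Finset.card_pos.2 ⟨_, α.2.2⟩
    have h4 : m = N * D.card := by
      rw [← hcard]; simp [ι, Fintype.card_prod, Fintype.card_fin]
    have h5 : (D.card - 1) * N + N = N * D.card := by
      obtain ⟨k, hk⟩ := Nat.exists_eq_add_of_lt h3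
      rw [hk]; simp; ring
    have := α.1.2
    omega
  let L := Lw r q B a b (wt r a 1 z)
  have hG := gram_eq L m P hdeg
  have hG0 : (Matrix.of fun i j : ι => L (P i * P j)).det = 0 := by
    rw [hG]
    exact det_gram_zero hcard _ _ hH
  have hp0 : (p : ℚ) ≠ 0 := by exact_mod_cast hp.out.ne_zero
  -- scaled matrix
  have hlt : ∀ α β : ι, (α.1 : ℕ) + β.1 + 1 ≤ e := by
    intro α β
    have := α.1.2; have := β.1.2
    omega
  let Mt : Matrix ι ι ℚ := Matrix.of fun α β =>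
    (p : ℚ) ^ (e - ((α.1 : ℕ) + β.1)) * L (P α * P β)
  have hMt : Mt.det = 0 := by
    have h1 : Mt = Matrix.of fun α β => ((p : ℚ) ^ e * ((p : ℚ) ^ (α.1 : ℕ))⁻¹) *
        (Matrix.of fun i j : ι => L (P i * P j)) α β * ((p : ℚ) ^ (β.1 : ℕ))⁻¹ := by
      ext α β
      simp only [Mt, Matrix.of_apply]
      have h2 : (p : ℚ) ^ (e - ((α.1 : ℕ) + β.1)) =
          (p : ℚ) ^ e * ((p : ℚ) ^ (α.1 : ℕ))⁻¹ * ((p : ℚ) ^ (β.1 : ℕ))⁻¹ := by
        rw [pow_sub₀ _ hp0 (by have := hlt α β; omega), pow_add, mul_inv]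
        ring
      rw [h2]; ring
    rw [h1, det_scale, hG0]
    ring
  -- reduction
  let Mb : Matrix ι ι (ZMod p) := Matrix.blockDiagonal fun c : {c // c ∈ D} =>
    Matrix.of fun i j : Fin N => -(Kc p q B a b D (nloc (N + N) c.1 0) c.1 *
      ((-2 * ((c.1 : ℤ) : ZMod p)) ^ (i : ℕ) * (-2 * ((c.1 : ℤ) : ZMod p)) ^ (j : ℕ)) *
      lmp p r q B ((i : ℕ) + (j : ℕ)))
  have hred : ∀ α β : ι, red p (Mt α β) (Mb α β) := by
    intro α β
    have hτ : e - ((α.1 : ℕ) + β.1) ≠ 0 := by have := hlt α β; omega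
    have hPP : P α * P β = PolyN D (nloc N α.2.1 α.1 + nloc N β.2.1 β.1) := PolyN_mul _ _ _
    have h1 : Mt α β = (p : ℚ) ^ (e - ((α.1 : ℕ) + β.1)) *
        L (PolyN D (nloc N α.2.1 α.1 + nloc N β.2.1 β.1)) := by
      rw [← hPP]; rfl
    rw [h1]
    by_cases hc : α.2 = β.2
    · have h2 : Mb α β = -(Kc p q B a b D (nloc (N + N) α.2.1 0) α.2.1 *
          ((-2 * ((α.2.1 : ℤ) : ZMod p)) ^ (α.1 : ℕ) * (-2 * ((α.2.1 : ℤ) : ZMod p)) ^ (β.1 : ℕ)) *
          lmp p r q B ((α.1 : ℕ) + (β.1 : ℕ))) := by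
        simp only [Mb, Matrix.blockDiagonal_apply, hc, if_true, Matrix.of_apply]
      rw [h2, ← Kc_factor, ← hc]
      have h3 : (nloc N α.2.1 α.1 + nloc N α.2.1 β.1) α.2.1 = (α.1 : ℕ) + β.1 := by simp [nloc]
      have key := entry_main (p := p) (r := r) (q := q) (B := B) (a := a) (b := b) (e := e)
        (z := z) (n := nloc N α.2.1 α.1 + nloc N α.2.1 β.1) (c := α.2.1) hr hz he hq hb ha hab
        hτ α.2.2 (by rw [h3]; have := hlt α β; omega) (by
          intro c' _ hcc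
          have h4 : (nloc N α.2.1 α.1 + nloc N α.2.1 β.1) c' = N + N := by simp [nloc, hcc]
          rw [h4]
          have := α.1.2; have := β.1.2; have := hlt α β
          omega)
      rw [h3] at key
      exact key
    · have h2 : Mb α β = 0 := by
        simp only [Mb, Matrix.blockDiagonal_apply, hc, if_false]
      rw [h2]
      refine entry_off (p := p) hr hz he hq hb ha hab hτ ?_
      intro c' _
      have hne : α.2.1 ≠ β.2.1 := fun h => hc (Subtype.ext h)
      have := α.1.2; have := β.1.2; have := hlt α β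
      simp only [Pi.add_apply, nloc]
      split_ifs with h5 h6 h6
      · exact absurd (h5.symm.trans h6) hne
      · omega
      · omega
      · omega
  have hdet := red_det Mt Mb hred
  rw [hMt] at hdet
  have h0 : Mb.det = 0 := (red_unique hdet red_zero)
  rw [Matrix.det_blockDiagonal] at h0
  obtain ⟨c, _, hc⟩ := Finset.prod_eq_zero_iff.1 h0
  have hgeo : ∀ d ∈ D, Geo p a b d := fun d hd => geo_of_mem hb ha hab hd
  have hcg := hgeo c.1 c.2
  refine block_det_ne _ _ (Kc_ne_zero (q := q) (B := B) (n := nloc (N + N) c.1 0) hgeo c.2) ?_ hl' hc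
  have hcne : ((c.1 : ℤ) : ZMod p) ≠ 0 := by
    rw [Ne, ZMod.intCast_zmod_eq_zero_iff_dvd]
    intro hd
    have := Int.le_of_dvd hcg.pos hd
    have := hcg.c_lt; omega
  have h2 : (-2 : ZMod p) ≠ 0 := by
    have : ((2 : ℤ) : ZMod p) ≠ 0 := by
      rw [Ne, ZMod.intCast_zmod_eq_zero_iff_dvd]
      intro hd
      have := Int.le_of_dvd (by norm_num) hd
      have := hcg.c2; have := hcg.pos; omega
    simpa using this
  exact mul_ne_zero h2 hcne

end

theorem m8 : M8 := by
  intro r q B N _ hr hq _ _ hBN hl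
  refine ⟨(lhank r q B N).num.natAbs + 1, ?_⟩
  intro p a b m z hp0 hpp hb ha ha2 hab hm hz
  haveI : Fact p.Prime := ⟨hpp⟩
  exact m8_aux (by omega) hq hBN hl (by omega) hb ha ha2 hab hm hz

end Z579
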