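import Mathlib

/-!
# Certified fixed point bounds for `log n` and `arctan (a / b)`

All values are integers in units of `1 / 2 ^ 32`.
-/

open Real Finset

namespace Z579

namespace Num

/-! ## series with remainder -/

lemma tail_bound {f : ℕ → ℝ} {s C ρ : ℝ} {J : ℕ} (hf : HasSum f s) (hρ0 : 0 ≤ ρ) (hρ1 : ρ < 1)
    (hC : ∀ n, |f (n + J)| ≤ C * ρ ^ n) : |s - ∑ i ∈ range J, f i| ≤ C / (1 - ρ) := by
  have h1 : HasSum (fun n => f (n + J)) (s - ∑ i ∈ range J, f i) := by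
    rw [hasSum_nat_add_iff' J]; exact hf
  have h2 : HasSum (fun n => C * ρ ^ n) (C * (1 - ρ)⁻¹) :=
    (hasSum_geometric_of_lt_one hρ0 hρ1).mul_left C
  have h3 : Summable (fun n => |f (n + J)|) :=
    Summable.of_nonneg_of_le (fun n => abs_nonneg _) hC h2.summable
  rw [div_eq_mul_inv, ← h2.tsum_eq, ← h1.tsum_eq]
  calc |∑' n, f (n + J)| ≤ ∑' n, |f (n + J)| := by
        have := norm_tsum_le_tsum_norm (f := fun n => f (n + J)) (by simpa using h3)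
        simpa using this
    _ ≤ ∑' n, C * ρ ^ n := h3.tsum_le_tsum hC h2.summable

/-- nine terms of the series of `atanh` -/
noncomputable def Tp (x : ℝ) : ℝ :=
  x + x ^ 3 / 3 + x ^ 5 / 5 + x ^ 7 / 7 + x ^ 9 / 9 + x ^ 11 / 11 + x ^ 13 / 13 + x ^ 15 / 15 +
    x ^ 17 / 17

/-- nine terms of the series of `arctan` -/
noncomputable def Tm (x : ℝ) : ℝ :=
  x - x ^ 3 / 3 + x ^ 5 / 5 - x ^ 7 / 7 + x ^ 9 / 9 - x ^ 11 / 11 + x ^ 13 / 13 - x ^ 15 / 15 +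
    x ^ 17 / 17

lemma pow_bound {x : ℝ} (hx : |x| ≤ 1 / 3) (n : ℕ) :
    |x| ^ (2 * (n + 9) + 1) ≤ (1 / 3) ^ 19 * (1 / 9 : ℝ) ^ n := by
  have h1 : |x| ^ (2 * (n + 9) + 1) ≤ (1 / 3 : ℝ) ^ (2 * (n + 9) + 1) :=
    pow_le_pow_left₀ (abs_nonneg _) hx _
  refine h1.trans (le_of_eq ?_)
  have h2 : 2 * (n + 9) + 1 = 19 + 2 * n := by ring
  rw [h2, pow_add, pow_mul]
  norm_num

lemma atanh_bound {x : ℝ} (hx : |x| ≤ 1 / 3) :
    |(log (1 + x) - log (1 - x)) - 2 * Tp x| ≤ 1 / 2 ^ 33 := by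
  have hx1 : |x| < 1 := by linarith
  have h1 := hasSum_log_sub_log_of_abs_lt_one hx1
  have h2 := tail_bound (J := 9) (C := 2 / 19 * (1 / 3) ^ 19) (ρ := 1 / 9) h1 (by norm_num)
    (by norm_num) (by
      intro n
      have h3 := pow_bound hx n
      rw [abs_mul, abs_pow, abs_of_pos (by positivity)]
      have h4 : (2 : ℝ) * (1 / (2 * ((n + 9 : ℕ) : ℝ) + 1)) ≤ 2 / 19 := by
        rw [mul_one_div]
        apply div_le_div_of_nonneg_left (by norm_num) (by norm_num)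
        push_cast
        have : (0 : ℝ) ≤ n := n.cast_nonneg
        linarith
      calc 2 * (1 / (2 * ((n + 9 : ℕ) : ℝ) + 1)) * |x| ^ (2 * (n + 9) + 1) ≤
            2 / 19 * ((1 / 3) ^ 19 * (1 / 9) ^ n) :=
          mul_le_mul h4 h3 (by positivity) (by norm_num)
        _ = 2 / 19 * (1 / 3) ^ 19 * (1 / 9) ^ n := by ring)
  have h5 : ∑ i ∈ range 9, (2 : ℝ) * (1 / (2 * (i : ℝ) + 1)) * x ^ (2 * i + 1) = 2 * Tp x := by
    simp only [Finset.sum_range_succ, Finset.sum_range_zero, Tp]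
    push_cast
    ring
  rw [h5] at h2
  refine h2.trans ?_
  norm_num

lemma arctan_bound {x : ℝ} (hx : |x| ≤ 1 / 3) : |arctan x - Tm x| ≤ 1 / 2 ^ 33 := by
  have hx1 : ‖x‖ < 1 := by rw [norm_eq_abs]; linarith
  have h1 := Real.hasSum_arctan hx1
  have h2 := tail_bound (J := 9) (C := 1 / 19 * (1 / 3) ^ 19) (ρ := 1 / 9) h1 (by norm_num)
    (by norm_num) (by
      intro n
      have h3 := pow_bound hx n
      rw [abs_div, abs_mul, abs_pow, abs_neg, abs_one, one_pow, one_mul, abs_pow]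
      rw [abs_of_pos (by positivity : (0 : ℝ) < ((2 * (n + 9) + 1 : ℕ) : ℝ))]
      rw [div_le_iff₀ (by positivity)]
      have h4 : (19 : ℝ) ≤ ((2 * (n + 9) + 1 : ℕ) : ℝ) := by
        push_cast
        have : (0 : ℝ) ≤ n := n.cast_nonneg
        linarith
      calc |x| ^ (2 * (n + 9) + 1) ≤ (1 / 3) ^ 19 * (1 / 9) ^ n := h3
        _ = (1 / 19 * (1 / 3) ^ 19 * (1 / 9) ^ n) * 19 := by ring
        _ ≤ _ := mul_le_mul_of_nonneg_left h4 (by positivity))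
  have h5 : ∑ i ∈ range 9, (-1 : ℝ) ^ i * x ^ (2 * i + 1) / ((2 * i + 1 : ℕ) : ℝ) = Tm x := by
    simp only [Finset.sum_range_succ, Finset.sum_range_zero, Tm]
    push_cast
    ring
  rw [h5] at h2
  refine h2.trans ?_
  norm_num

/-! ## integer evaluation -/

/-- numerator of `765765 * b ^ 16 * T (a / b) * b / a`, sign `+` -/
def polyP (a2 b2 : ℤ) : ℤ :=
  (((((((45045 * a2 + 51051 * b2) * a2 + 58905 * b2 ^ 2) * a2 + 69615 * b2 ^ 3) * a2 +
    85085 * b2 ^ 4) * a2 + 109395 * b2 ^ 5) * a2 + 153153 * b2 ^ 6) * a2 + 255255 * b2 ^ 7) * a2 +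
    765765 * b2 ^ 8

/-- sign alternating version -/
def polyM (a2 b2 : ℤ) : ℤ :=
  (((((((45045 * a2 - 51051 * b2) * a2 + 58905 * b2 ^ 2) * a2 - 69615 * b2 ^ 3) * a2 +
    85085 * b2 ^ 4) * a2 - 109395 * b2 ^ 5) * a2 + 153153 * b2 ^ 6) * a2 - 255255 * b2 ^ 7) * a2 +
    765765 * b2 ^ 8

lemma Tp_eq (a b : ℤ) (hb : 0 < b) :
    Tp ((a : ℝ) / b) = (a : ℝ) * polyP (a ^ 2) (b ^ 2) / (765765 * (b : ℝ) ^ 17) := by
  have hb' : (b : ℝ) ≠ 0 := by exact_mod_cast hb.ne'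
  rw [Tp, polyP]
  push_cast
  field_simp
  ring

lemma Tm_eq (a b : ℤ) (hb : 0 < b) :
    Tm ((a : ℝ) / b) = (a : ℝ) * polyM (a ^ 2) (b ^ 2) / (765765 * (b : ℝ) ^ 17) := by
  have hb' : (b : ℝ) ≠ 0 := by exact_mod_cast hb.ne'
  rw [Tm, polyM]
  push_cast
  field_simp
  ring

/-- floor of `2 ^ 32 * Tm (a / b)` -/
def atS (a b : ℤ) : ℤ := (4294967296 * (a * polyM (a ^ 2) (b ^ 2))) / (765765 * b ^ 17)

/-- floor of `2 ^ 33 * Tp (a / b)` -/
def lgS (a b : ℤ) : ℤ := (8589934592 * (a * polyP (a ^ 2) (b ^ 2))) / (765765 * b ^ 17)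

lemma floor_div_bounds (n d : ℤ) (hd : 0 < d) :
    ((n / d : ℤ) : ℝ) ≤ (n : ℝ) / d ∧ (n : ℝ) / d ≤ ((n / d : ℤ) : ℝ) + 1 := by
  have hd' : (0 : ℝ) < d := by exact_mod_cast hd
  constructor
  · rw [le_div_iff₀ hd']
    exact_mod_cast Int.ediv_mul_le n hd.ne'
  · rw [div_le_iff₀ hd']
    have := Int.lt_ediv_add_one_mul_self n hd
    exact_mod_cast this.le

lemma atS_bounds (a b : ℤ) (hb : 0 < b) (h : 3 * |a| ≤ b) :
    ((atS a b : ℤ) : ℝ) - 1 ≤ 2 ^ 32 * arctan ((a : ℝ) / b) ∧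
    2 ^ 32 * arctan ((a : ℝ) / b) ≤ ((atS a b : ℤ) : ℝ) + 2 := by
  have hb' : (0 : ℝ) < b := by exact_mod_cast hb
  have hx : |(a : ℝ) / b| ≤ 1 / 3 := by
    rw [abs_div, abs_of_pos hb', div_le_div_iff₀ hb' (by norm_num)]
    have : ((3 * |a| : ℤ) : ℝ) ≤ b := by exact_mod_cast h
    push_cast at this
    linarith
  have h1 := arctan_bound hx
  rw [Tm_eq a b hb] at h1
  have h2 := floor_div_bounds (4294967296 * (a * polyM (a ^ 2) (b ^ 2))) (765765 * b ^ 17)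
    (by positivity)
  have h3 : (((4294967296 * (a * polyM (a ^ 2) (b ^ 2)) : ℤ) : ℝ)) / ((765765 * b ^ 17 : ℤ) : ℝ) =
      2 ^ 32 * ((a : ℝ) * polyM (a ^ 2) (b ^ 2) / (765765 * (b : ℝ) ^ 17)) := by
    push_cast
    rw [mul_div_assoc]
    norm_num
  rw [h3] at h2
  rw [abs_le] at h1
  obtain ⟨h1a, h1b⟩ := h1
  obtain ⟨h2a, h2b⟩ := h2
  rw [atS]
  constructor
  · nlinarith
  · nlinarith

lemma lgS_bounds (a b : ℤ) (hb : 0 < b) (h : 3 * |a| ≤ b) :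
    ((lgS a b : ℤ) : ℝ) - 1 ≤ 2 ^ 32 * (log (1 + (a : ℝ) / b) - log (1 - (a : ℝ) / b)) ∧
    2 ^ 32 * (log (1 + (a : ℝ) / b) - log (1 - (a : ℝ) / b)) ≤ ((lgS a b : ℤ) : ℝ) + 2 := by
  have hb' : (0 : ℝ) < b := by exact_mod_cast hb
  have hx : |(a : ℝ) / b| ≤ 1 / 3 := by
    rw [abs_div, abs_of_pos hb', div_le_div_iff₀ hb' (by norm_num)]
    have : ((3 * |a| : ℤ) : ℝ) ≤ b := by exact_mod_cast h
    push_cast at this
    linarith
  have h1 := atanh_bound hx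
  rw [Tp_eq a b hb] at h1
  have h2 := floor_div_bounds (8589934592 * (a * polyP (a ^ 2) (b ^ 2))) (765765 * b ^ 17)
    (by positivity)
  have h3 : (((8589934592 * (a * polyP (a ^ 2) (b ^ 2)) : ℤ) : ℝ)) / ((765765 * b ^ 17 : ℤ) : ℝ) =
      2 ^ 33 * ((a : ℝ) * polyP (a ^ 2) (b ^ 2) / (765765 * (b : ℝ) ^ 17)) := by
    push_cast
    rw [mul_div_assoc]
    norm_num
  rw [h3] at h2
  rw [abs_le] at h1
  obtain ⟨h1a, h1b⟩ := h1
  obtain ⟨h2a, h2b⟩ := h2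
  rw [lgS]
  constructor
  · nlinarith
  · nlinarith

/-! ## logarithms of integers -/

/-- lower and upper bound for `2 ^ 32 * log n` -/
def lgI (n : ℕ) : ℤ × ℤ :=
  let k := Nat.log2 n
  let c := lgS ((n : ℤ) - 2 ^ k) ((n : ℤ) + 2 ^ k)
  (2977044470 * k + c - 1, 2977044473 * k + c + 2)

lemma lgI_bounds (n : ℕ) (hn : 1 ≤ n) :
    (((lgI n).1 : ℤ) : ℝ) ≤ 2 ^ 32 * log n ∧ 2 ^ 32 * log n ≤ (((lgI n).2 : ℤ) : ℝ) := by
  have hk1 : 2 ^ (Nat.log2 n) ≤ n := Nat.log2_self_le (by omega)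
  have hk2 : n < 2 ^ (Nat.log2 n + 1) := Nat.lt_log2_self
  set k := Nat.log2 n with hk
  have hk1' : ((2 : ℤ)) ^ k ≤ n := by exact_mod_cast hk1
  have hk2' : (n : ℤ) < 2 * 2 ^ k := by
    rw [pow_succ] at hk2
    have : n < 2 * 2 ^ k := by omega
    exact_mod_cast this
  have hpos : (0 : ℤ) < 2 ^ k := by positivity
  have h1 := lgS_bounds ((n : ℤ) - 2 ^ k) ((n : ℤ) + 2 ^ k) (by positivity) (by
    rw [abs_of_nonneg (by linarith)]; linarith)
  have hn0 : (0 : ℝ) < n := by exact_mod_cast hn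
  have hkp : (0 : ℝ) < 2 ^ k := by positivity
  have hs : (0 : ℝ) < (n : ℝ) + 2 ^ k := by positivity
  have h2 : log (1 + (((n : ℤ) - 2 ^ k : ℤ) : ℝ) / (((n : ℤ) + 2 ^ k : ℤ) : ℝ)) -
      log (1 - (((n : ℤ) - 2 ^ k : ℤ) : ℝ) / (((n : ℤ) + 2 ^ k : ℤ) : ℝ)) =
      log n - k * log 2 := by
    push_cast
    have e1 : 1 + ((n : ℝ) - 2 ^ k) / (n + 2 ^ k) = 2 * n / (n + 2 ^ k) := by
      field_simp; ring
    have e2 : 1 - ((n : ℝ) - 2 ^ k) / (n + 2 ^ k) = 2 * 2 ^ k / (n + 2 ^ k) := by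
      field_simp; ring
    rw [e1, e2, log_div (by positivity) hs.ne', log_div (by positivity) hs.ne',
      log_mul (by norm_num) hn0.ne', log_mul (by norm_num) hkp.ne', log_pow]
    ring
  rw [h2] at h1
  obtain ⟨h1a, h1b⟩ := h1
  have g1 := log_two_gt_d9
  have g2 := log_two_lt_d9
  have hkn : (0 : ℝ) ≤ k := k.cast_nonneg
  have g3 : (2977044470 : ℝ) ≤ 2 ^ 32 * log 2 := by norm_num at g1 ⊢; linarith
  have g4 : 2 ^ 32 * log 2 ≤ (2977044473 : ℝ) := by norm_num at g2 ⊢; linarith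
  have g5 := mul_le_mul_of_nonneg_right g3 hkn
  have g6 := mul_le_mul_of_nonneg_right g4 hkn
  simp only [lgI, ← hk]
  push_cast
  constructor
  · nlinarith
  · nlinarith

/-! ## arctangents -/

lemma sqrt_free_pi : (13493037704 : ℝ) ≤ 2 ^ 32 * π ∧ 2 ^ 32 * π ≤ (13493037705 : ℝ) := by
  have h1 := pi_gt_d20
  have h2 := pi_lt_d20
  constructor
  · norm_num at h1 ⊢; linarith
  · norm_num at h2 ⊢; linarith

/-- `2 ^ 32 * arctan (1 / 2)` -/
lemma arctan_half : (1991351315 : ℝ) ≤ 2 ^ 32 * arctan (1 / 2) ∧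
    2 ^ 32 * arctan (1 / 2) ≤ (1991351321 : ℝ) := by
  have h1 := arctan_inv_2_add_arctan_inv_3
  have h2 := atS_bounds 1 3 (by norm_num) (by norm_num)
  have h3 : atS 1 3 = 1381908108 := by decide +kernel
  rw [h3] at h2
  have h4 := sqrt_free_pi
  norm_num at h1 h2 h4 ⊢
  constructor
  · linarith
  · linarith

/-- bounds for `2 ^ 32 * arctan (a / b)`, `0 ≤ a ≤ b` -/
def atI (a b : ℤ) : ℤ × ℤ :=
  if 3 * a ≤ b then let c := atS a b; (c - 1, c + 2)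
  else let c := atS (2 * a - b) (2 * b + a); (1991351315 + c - 1, 1991351321 + c + 2)

lemma atI_bounds (a b : ℤ) (ha : 0 ≤ a) (hab : a ≤ b) (hb : 0 < b) :
    (((atI a b).1 : ℤ) : ℝ) ≤ 2 ^ 32 * arctan ((a : ℝ) / b) ∧
    2 ^ 32 * arctan ((a : ℝ) / b) ≤ (((atI a b).2 : ℤ) : ℝ) := by
  have hb' : (0 : ℝ) < b := by exact_mod_cast hb
  have ha' : (0 : ℝ) ≤ a := by exact_mod_cast ha
  unfold atI
  split_ifs with h
  · have h1 := atS_bounds a b hb (by rwa [abs_of_nonneg ha])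
    push_cast
    exact h1
  · push Not at h
    have h1 := atS_bounds (2 * a - b) (2 * b + a) (by linarith) (by
      rcases abs_cases (2 * a - b) with h' | h' <;> omega)
    have h2 : arctan ((a : ℝ) / b) =
        arctan (1 / 2) + arctan (((2 * a - b : ℤ) : ℝ) / ((2 * b + a : ℤ) : ℝ)) := by
      have hp : 0 < 1 + (a : ℝ) / b * (1 / 2) := by positivity
      have hp2 : (0 : ℝ) < 2 * b + a := by positivity
      have e : ((2 * a - b : ℤ) : ℝ) / ((2 * b + a : ℤ) : ℝ) =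
          ((a : ℝ) / b - 1 / 2) / (1 + (a : ℝ) / b * (1 / 2)) := by
        push_cast
        rw [div_eq_div_iff hp2.ne' hp.ne']
        field_simp
      have hlt : (1 / 2 : ℝ) * (((a : ℝ) / b - 1 / 2) / (1 + (a : ℝ) / b * (1 / 2))) < 1 := by
        rw [← mul_div_assoc, div_lt_one hp]
        have : (a : ℝ) / b ≤ 1 := by rw [div_le_one hb']; exact_mod_cast hab
        nlinarith
      rw [e, arctan_add hlt]
      congr 1
      rw [eq_div_iff (by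
        have := hlt
        linarith)]
      have hy : ((a : ℝ) / b - 1 / 2) / (1 + (a : ℝ) / b * (1 / 2)) *
          (1 + (a : ℝ) / b * (1 / 2)) = (a : ℝ) / b - 1 / 2 := div_mul_cancel₀ _ hp.ne'
      linear_combination (-1 : ℝ) * hy
    rw [h2]
    have h3 := arctan_half
    push_cast at h1 ⊢
    constructor
    · linarith [h1.1, h3.1]
    · linarith [h1.2, h3.2]

/-- bounds for `2 ^ 32 * arctan (a / b)`, `0 ≤ a`, `0 < b` -/
def atJ (a b : ℤ) : ℤ × ℤ :=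
  if a ≤ b then atI a b
  else let c := atI b a; (6746518852 - c.2, 6746518853 - c.1)

lemma atJ_bounds (a b : ℤ) (ha : 0 ≤ a) (hb : 0 < b) :
    (((atJ a b).1 : ℤ) : ℝ) ≤ 2 ^ 32 * arctan ((a : ℝ) / b) ∧
    2 ^ 32 * arctan ((a : ℝ) / b) ≤ (((atJ a b).2 : ℤ) : ℝ) := by
  unfold atJ
  split_ifs with h
  · exact atI_bounds a b ha h hb
  · push Not at h
    have hb' : (0 : ℝ) < b := by exact_mod_cast hb
    have ha' : (0 : ℝ) < a := by exact_mod_cast hb.trans h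
    have h1 := atI_bounds b a hb.le h.le (hb.trans h)
    have h2 : arctan ((a : ℝ) / b) = π / 2 - arctan ((b : ℝ) / a) := by
      have := arctan_inv_of_pos (x := (b : ℝ) / a) (by positivity)
      rw [inv_div] at this
      exact this
    rw [h2]
    have h3 := sqrt_free_pi
    push_cast
    constructor
    · linarith [h1.2, h3.1]
    · linarith [h1.1, h3.2]

end Num

end Z579
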