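import Pool.Agent.Lib.Z579.M5
import Pool.Agent.Lib.Z579.VGL

/-!
# Determinant lemma with elementary local functionals, and greedy rows
-/

open Polynomial Finset

namespace Z579

section DL

variable {p : ℕ} [hp : Fact p.Prime]

/-- determinant bound, general index type -/
lemma VG.det_gen {ι : Type*} [Fintype ι] [DecidableEq ι] {M : Matrix ι ι ℚ} {g h : ι → ℝ}
    (hM : ∀ i j, VG p (g i + h j) (M i j)) :
    VG p (∑ i, g i + ∑ j, h j) M.det := by
  rw [Matrix.det_apply]
  refine VG.sum fun σ _ => ?_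
  have h1 : VG p (∑ i, (g (σ i) + h i)) (∏ i, M (σ i) i) := VG.prod fun i _ => hM (σ i) i
  rw [Finset.sum_add_distrib, Equiv.sum_comp σ g] at h1
  rcases Int.units_eq_one_or (Equiv.Perm.sign σ) with h2 | h2
  · rw [h2, one_smul]; exact h1
  · rw [h2, Units.neg_smul, one_smul]; exact h1.neg

/-- Expansion of the determinant of a product over maps of the columns. -/
lemma det_expand {ι : Type*} [Fintype ι] [DecidableEq ι] {Ψ : Type*} [Fintype Ψ] [DecidableEq Ψ]
    (Φ : ι → Ψ → ℚ) (C : Ψ → ι → ℚ) :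
    Matrix.det (Matrix.of fun i k : ι => ∑ ψ, Φ i ψ * C ψ k) =
      ∑ f : ι → Ψ, (∏ k, C (f k) k) * Matrix.det (Matrix.of fun i k : ι => Φ i (f k)) := by
  have h1 : Matrix.det (Matrix.of fun i k : ι => ∑ ψ, Φ i ψ * C ψ k) =
      Matrix.detRowAlternating (fun k : ι => ∑ ψ, (fun i : ι => Φ i ψ * C ψ k)) := by
    rw [← Matrix.det_transpose]
    show Matrix.det _ = Matrix.det _
    congr 1
    ext k i
    simp [Matrix.transpose_apply, Finset.sum_apply]
  rw [h1]
  have h2 := (Matrix.detRowAlternating (n := ι) (R := ℚ)).toMultilinearMap.map_sum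
    (fun (k : ι) (ψ : Ψ) => (fun i : ι => Φ i ψ * C ψ k))
  rw [AlternatingMap.coe_multilinearMap] at h2
  rw [h2]
  refine Finset.sum_congr rfl fun f _ => ?_
  have h3 : (fun k : ι => (fun i : ι => Φ i (f k) * C (f k) k)) =
      fun k : ι => C (f k) k • (fun i : ι => Φ i (f k)) := by
    ext k i
    simp [mul_comm]
  rw [h3]
  have h4 := (Matrix.detRowAlternating (n := ι) (R := ℚ)).map_smul_univ
    (fun k => C (f k) k) (fun k : ι => (fun i : ι => Φ i (f k)))
  rw [h4, smul_eq_mul]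
  congr 1
  rw [← Matrix.det_transpose]
  rfl

/-- Valuation of a determinant whose columns are combinations of elementary functionals. -/
theorem DL {ι : Type*} [Fintype ι] [DecidableEq ι] {Ψ : Type*} [Fintype Ψ] [DecidableEq Ψ]
    (Φ : ι → Ψ → ℚ) (C : Ψ → ι → ℚ) (r : ι → ℝ) (s : Ψ → ℝ) (w : Ψ → ι → ℝ) (V : ℝ)
    (hΦ : ∀ i ψ, VG p (-(r i + s ψ)) (Φ i ψ)) (hC : ∀ ψ k, VG p (w ψ k) (C ψ k))
    (hV : ∀ f : ι → Ψ, Function.Injective f → (∀ k, C (f k) k ≠ 0) →
      ∑ k, (s (f k) - w (f k) k) ≤ V) :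
    VG p (-(∑ i, r i + V)) (Matrix.det (Matrix.of fun i k : ι => ∑ ψ, Φ i ψ * C ψ k)) := by
  rw [det_expand]
  refine VG.sum fun f _ => ?_
  by_cases hf : Function.Injective f
  swap
  · have h0 : Matrix.det (Matrix.of fun i k : ι => Φ i (f k)) = 0 := by
      obtain ⟨k, l, hkl, hne⟩ : ∃ k l, f k = f l ∧ k ≠ l := by
        by_contra hcon
        push Not at hcon
        exact hf fun k l hkl => hcon k l hkl
      exact Matrix.det_zero_of_column_eq hne fun i => by
        simp only [Matrix.of_apply]; rw [hkl]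
    left
    rw [h0, mul_zero]
  by_cases hc : ∀ k, C (f k) k ≠ 0
  swap
  · push Not at hc
    obtain ⟨k, hk⟩ := hc
    left
    rw [Finset.prod_eq_zero (f := fun k => C (f k) k) (Finset.mem_univ k) hk, zero_mul]
  have h1 : VG p (∑ k, w (f k) k) (∏ k, C (f k) k) := VG.prod fun k _ => hC (f k) k
  have h2 : VG p (∑ i, -(r i) + ∑ k, -(s (f k)))
      (Matrix.det (Matrix.of fun i k : ι => Φ i (f k))) := by
    refine VG.det_gen fun i k => ?_
    refine (hΦ i (f k)).mono (le_of_eq ?_)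
    ring
  refine (h1.mul h2).mono ?_
  have h3 := hV f hf hc
  rw [Finset.sum_sub_distrib] at h3
  rw [Finset.sum_neg_distrib, Finset.sum_neg_distrib]
  linarith

/-- Version with multipliers `l k` for the columns and excesses `g ψ`. -/
theorem DL' {ι : Type*} [Fintype ι] [DecidableEq ι] {Ψ : Type*} [Fintype Ψ] [DecidableEq Ψ]
    (Φ : ι → Ψ → ℚ) (C : Ψ → ι → ℚ) (r : ι → ℝ) (s : Ψ → ℝ) (w : Ψ → ι → ℝ) (l : ι → ℝ)
    (g : Ψ → ℝ) (hg : ∀ ψ, 0 ≤ g ψ)
    (hΦ : ∀ i ψ, VG p (-(r i + s ψ)) (Φ i ψ)) (hC : ∀ ψ k, VG p (w ψ k) (C ψ k))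
    (h : ∀ ψ k, C ψ k ≠ 0 → s ψ - w ψ k ≤ l k + g ψ) :
    VG p (-(∑ i, r i + ∑ k, l k + ∑ ψ, g ψ))
      (Matrix.det (Matrix.of fun i k : ι => ∑ ψ, Φ i ψ * C ψ k)) := by
  have := DL (p := p) Φ C r s w (∑ k, l k + ∑ ψ, g ψ) hΦ hC (by
    intro f hf hc
    have h1 : ∑ k, (s (f k) - w (f k) k) ≤ ∑ k, (l k + g (f k)) :=
      Finset.sum_le_sum fun k _ => h (f k) k (hc k)
    refine h1.trans ?_
    rw [Finset.sum_add_distrib]
    have h2 : ∑ k, g (f k) ≤ ∑ ψ, g ψ := by
      have h3 : ∑ k, g (f k) = ∑ ψ ∈ Finset.univ.image f, g ψ := by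
        rw [Finset.sum_image fun x _ y _ hxy => hf hxy]
      rw [h3]
      exact Finset.sum_le_sum_of_subset_of_nonneg (Finset.subset_univ _) fun ψ _ _ => hg ψ
    linarith)
  rwa [← add_assoc] at this

end DL

section Rows

variable (J : Finset ℤ) (e : ℤ → ℝ)

lemma gseq'_deg (i : ℕ) : ∑ c ∈ J, (gseq' J e i).1 c + (gseq' J e i).2 = i := by
  induction i with
  | zero => simp [gseq']
  | succ i ih =>
    rw [gseq']
    split_ifs with hg
    · have hm := gch_mem J ⟨_, hg.choose_spec.1⟩ e (gseq' J e i).1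
      simp only
      rw [Finset.sum_update_of_mem hm]
      rw [← Finset.add_sum_erase J _ hm, ← Finset.sdiff_singleton_eq_erase] at ih
      omega
    · simp only
      omega

lemma gseq'_key (n : ℕ) : ∑ i ∈ Finset.range n, gth J e (gseq' J e i).1 ≤
    gpot J e 0 (fun _ => 0) - gpot J e 0 (gseq' J e n).1 := by
  induction n with
  | zero => simp [gseq']
  | succ k ih =>
    rw [Finset.sum_range_succ]
    have h4 : gth J e (gseq' J e k).1 ≤
        gpot J e 0 (gseq' J e k).1 - gpot J e 0 (gseq' J e (k + 1)).1 := by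
      rw [gseq']
      unfold gth
      split_ifs with hg
      · have hm := gch_mem J ⟨_, hg.choose_spec.1⟩ e (gseq' J e k).1
        simp only
        rw [gpot_update J e 0 _ hm]
        linarith
      · simp only
        linarith
    linarith

/-- greedy rows, real shifts, floor at `0` -/
theorem rows (J : Finset ℤ) (ρ : ℤ → ℝ) : ∃ (N : ℕ → ℤ → ℕ) (k : ℕ → ℕ) (r : ℕ → ℝ),
    (∀ i, ∑ c ∈ J, N i c + k i = i) ∧ (∀ i, 0 ≤ r i) ∧ (∀ i, ∀ c ∈ J, ρ c ≤ N i c + r i) ∧
    (∀ n, ∑ i ∈ Finset.range n, r i ≤ 1 / 2 * ∑ c ∈ J, (ρ c + 1 / 2) ^ 2) := by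
  set e : ℤ → ℝ := fun c => 2 * ρ c with he
  refine ⟨fun i => (gseq' J e i).1, fun i => (gseq' J e i).2,
    fun i => gth J e (gseq' J e i).1 / 2, gseq'_deg J e, ?_, ?_, ?_⟩
  · intro i
    have := gth_nonneg J e (gseq' J e i).1
    positivity
  · intro i c hc
    have := gth_max J e (gseq' J e i).1 hc
    simp only [he] at this ⊢
    linarith
  · intro n
    have h1 := gseq'_key J e n
    have h2 := gpot_nonneg J e 0 (gseq' J e n).1
    rw [← Finset.sum_div]
    have h3 : gpot J e 0 (fun _ => 0) = ∑ c ∈ J, (ρ c + 1 / 2) ^ 2 := by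
      unfold gpot
      rw [Finset.mul_sum]
      refine Finset.sum_congr rfl fun c _ => ?_
      simp only [he]
      push_cast
      ring
    rw [h3] at h1
    linarith

/-- greedy rows, natural shifts, floor at `0`, exact sum -/
theorem rowsNat (J : Finset ℤ) (ρ : ℤ → ℕ) : ∃ (N : ℕ → ℤ → ℕ) (k : ℕ → ℕ) (r : ℕ → ℝ),
    (∀ i, ∑ c ∈ J, N i c + k i = i) ∧ (∀ i, 0 ≤ r i) ∧ (∀ i, ∀ c ∈ J, (ρ c : ℝ) ≤ N i c + r i) ∧
    (∀ n, ∑ i ∈ Finset.range n, r i ≤ ∑ c ∈ J, (ρ c : ℝ) * (ρ c + 1) / 2) := by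
  set e : ℤ → ℝ := fun c => 2 * (ρ c : ℝ) with he
  refine ⟨fun i => (gseq' J e i).1, fun i => (gseq' J e i).2,
    fun i => gth J e (gseq' J e i).1 / 2, gseq'_deg J e, ?_, ?_, ?_⟩
  · intro i
    have := gth_nonneg J e (gseq' J e i).1
    positivity
  · intro i c hc
    have := gth_max J e (gseq' J e i).1 hc
    simp only [he] at this ⊢
    linarith
  · intro n
    have h1 := gseq'_key J e n
    rw [← Finset.sum_div]
    have h3 : gpot J e 0 (fun _ => 0) = ∑ c ∈ J, ((ρ c : ℝ) * (ρ c + 1) + 1 / 4) := by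
      unfold gpot
      rw [Finset.mul_sum]
      refine Finset.sum_congr rfl fun c _ => ?_
      simp only [he]
      push_cast
      ring
    have h4 : ∑ c ∈ J, (1 / 4 : ℝ) ≤ gpot J e 0 (gseq' J e n).1 := by
      unfold gpot
      rw [Finset.mul_sum]
      refine Finset.sum_le_sum fun c _ => ?_
      simp only [he]
      set N := (gseq' J e n).1 c
      have h5 : (0 : ℝ) ≤ (((ρ c : ℤ) - N : ℤ) : ℝ) * ((((ρ c : ℤ) - N : ℤ) : ℝ) + 1) := by
        have h6 : (0 : ℤ) ≤ ((ρ c : ℤ) - N) * (((ρ c : ℤ) - N) + 1) := by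
          rcases le_or_gt 0 ((ρ c : ℤ) - N) with h | h
          · positivity
          · exact mul_nonneg_of_nonpos_of_nonpos h.le (by omega)
        exact_mod_cast h6
      push_cast at h5
      nlinarith
    rw [h3, Finset.sum_add_distrib] at h1
    have h5 : ∑ c ∈ J, (ρ c : ℝ) * (ρ c + 1) / 2 = (∑ c ∈ J, (ρ c : ℝ) * (ρ c + 1)) / 2 := by
      rw [Finset.sum_div]
    rw [h5]
    linarith

/-- column sums -/
lemma sum_pos_part (t : ℝ) (n : ℕ) :
    ∑ j ∈ Finset.range n, max (t - j) 0 ≤ 1 / 2 * (t + 1 / 2) ^ 2 := by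
  have key : ∀ (n : ℕ) (t : ℝ), ∑ j ∈ Finset.range n, max (t - j) 0 ≤
      if 0 ≤ t then 1 / 2 * (t + 1 / 2) ^ 2 else 0 := by
    intro n
    induction n with
    | zero =>
      intro t
      rw [Finset.sum_range_zero]
      split_ifs
      · positivity
      · exact le_rfl
    | succ n ih =>
      intro t
      rw [Finset.sum_range_succ']
      have h1 := ih (t - 1)
      have h2 : ∑ k ∈ Finset.range n, max (t - ((k + 1 : ℕ) : ℝ)) 0 =
          ∑ j ∈ Finset.range n, max (t - 1 - j) 0 := by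
        refine Finset.sum_congr rfl fun k _ => ?_
        congr 1
        push_cast
        ring
      rw [h2]
      by_cases ht : 0 ≤ t
      · rw [if_pos ht]
        have h3 : max (t - ((0 : ℕ) : ℝ)) 0 = t := by
          rw [Nat.cast_zero, sub_zero]
          exact max_eq_left ht
        rw [h3]
        split_ifs at h1 with h4
        · nlinarith
        · nlinarith [sq_nonneg (t - 1 / 2)]
      · rw [if_neg ht]
        push Not at ht
        rw [if_neg (by linarith)] at h1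
        have h3 : max (t - ((0 : ℕ) : ℝ)) 0 = 0 := by
          rw [Nat.cast_zero, sub_zero]
          exact max_eq_right ht.le
        rw [h3]
        linarith
  refine (key n t).trans ?_
  split_ifs
  · exact le_rfl
  · positivity

lemma sum_pos_part_nat (t n : ℕ) :
    ∑ j ∈ Finset.range n, max ((t : ℝ) - j) 0 ≤ (t : ℝ) * (t + 1) / 2 := by
  induction n generalizing t with
  | zero => simp; positivity
  | succ n ih =>
    rw [Finset.sum_range_succ']
    rcases t with _ | t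
    · have : ∀ k ∈ Finset.range n, max (((0 : ℕ) : ℝ) - ((k + 1 : ℕ) : ℝ)) 0 = 0 := by
        intro k _
        apply max_eq_right
        have : (0 : ℝ) ≤ ((k + 1 : ℕ) : ℝ) := Nat.cast_nonneg _
        push_cast at this ⊢
        linarith
      rw [Finset.sum_congr rfl this]
      simp
    · have h1 := ih t
      have h2 : ∑ k ∈ Finset.range n, max (((t + 1 : ℕ) : ℝ) - ((k + 1 : ℕ) : ℝ)) 0 =
          ∑ j ∈ Finset.range n, max ((t : ℝ) - j) 0 := by
        refine Finset.sum_congr rfl fun k _ => ?_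
        congr 1
        push_cast
        ring
      rw [h2]
      have h3 : max (((t + 1 : ℕ) : ℝ) - ((0 : ℕ) : ℝ)) 0 = ((t + 1 : ℕ) : ℝ) := by
        rw [Nat.cast_zero, sub_zero]
        exact max_eq_left (Nat.cast_nonneg _)
      rw [h3]
      push_cast
      nlinarith

end Rows

end Z579
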