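import Pool.Agent.Lib.Z579.Local

/-!
# Local analysis modulo `p` at a class with two poles
-/

open Polynomial Finset

namespace Z579

section
variable (p : ℕ) [hp : Fact p.Prime]

/-- `x + c` modulo `p` -/
noncomputable def linp (c : ℤ) : PowerSeries (ZMod p) := PowerSeries.X + PowerSeries.C (c : ZMod p)

variable {p}

lemma Red_lin (c : ℤ) : Red p (lin c) (linp p c) := Red_add Red_X (Red_C (red_int c))

lemma constantCoeff_linp (c : ℤ) : PowerSeries.constantCoeff (linp p c) = (c : ZMod p) := by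
  simp [linp]

lemma resc_lin_p {c : ℤ} (l : ℤ) (h : c = p * l) :
    PowerSeries.rescale (p : ℚ) (lin c) = PowerSeries.C (p : ℚ) * lin l := by
  rw [rescale_lin, lin, h, mul_add]
  congr 1
  push_cast
  rw [map_mul]

lemma Red_resc_lin (c : ℤ) :
    Red p (PowerSeries.rescale (p : ℚ) (lin c)) (PowerSeries.C (c : ZMod p)) := by
  rw [rescale_lin]
  have h := Red_add (Red_mul (Red_C (red_p (p := p))) (Red_X (p := p))) (Red_C (red_int (p := p) c))
  simpa using h

lemma Red_two : Red p (2 : PowerSeries ℚ) (PowerSeries.C (2 : ZMod p)) := by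
  have := Red_C (red_int (p := p) 2)
  have h2 : (PowerSeries.C (((2 : ℤ) : ℚ))) = (2 : PowerSeries ℚ) := by
    push_cast
    exact map_ofNat _ 2
  rw [h2] at this
  simpa using this

lemma C_ppow_ne : (PowerSeries.C (p : ℚ)) ≠ 0 := by
  intro h
  have : (p : ℚ) = 0 := by
    have := congrArg PowerSeries.constantCoeff h
    simpa using this
  exact hp.out.ne_zero (by exact_mod_cast this)

/-- local expansion of `base` at a pole of a two-pole class -/
lemma base_two {q B a b : ℕ} {u w1 w2 l1 l2 : ℤ} (hw1 : w1 ∈ (pc a).erase u) (hw2 : w2 ∈ oc a b)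
    (h1 : w1 - u = p * l1) (h2 : w2 - u = p * l2) (hl1 : (l1 : ZMod p) ≠ 0)
    (ho : ∀ w ∈ (oc a b).erase w2, ((w - u : ℤ) : ZMod p) ≠ 0)
    (hi : ∀ w ∈ ((pc a).erase u).erase w1, ((w - u : ℤ) : ZMod p) ≠ 0) :
    ∃ F : PowerSeries ℚ,
      PowerSeries.rescale (p : ℚ) (base q B a b u) =
        PowerSeries.C ((p : ℚ) ^ ((B : ℤ) - q)) * F ∧
      Red p F (PowerSeries.C (2 * ((-u : ℤ) : ZMod p) *
          (∏ w ∈ (oc a b).erase w2, ((w - u : ℤ) : ZMod p)) ^ B *
          ((∏ w ∈ ((pc a).erase u).erase w1, ((w - u : ℤ) : ZMod p))⁻¹) ^ q) *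
        linp p l2 ^ B * ((linp p l1)⁻¹) ^ q) := by
  have hp0 : (p : ℚ) ≠ 0 := by exact_mod_cast hp.out.ne_zero
  have hne : PowerSeries.constantCoeff (∏ w ∈ (pc a).erase u, lin (w - u)) ≠ 0 :=
    constantCoeff_prod_lin_ne fun w hw => (Finset.mem_erase.1 hw).1
  set Po : PowerSeries ℚ := ∏ w ∈ (oc a b).erase w2, PowerSeries.rescale (p : ℚ) (lin (w - u))
    with hPo
  set Pi : PowerSeries ℚ := ∏ w ∈ ((pc a).erase u).erase w1,
    PowerSeries.rescale (p : ℚ) (lin (w - u)) with hPi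
  refine ⟨2 * PowerSeries.rescale (p : ℚ) (lin (-u)) * (lin l2 * Po) ^ B *
    ((lin l1)⁻¹ * Pi⁻¹) ^ q, ?_, ?_⟩
  · rw [base]
    simp only [map_mul, map_pow]
    rw [rescale_inv _ _ hne, map_prod, map_prod, ← Finset.mul_prod_erase _ _ hw2,
      ← Finset.mul_prod_erase _ _ hw1, resc_lin_p l2 h2, resc_lin_p l1 h1, ← hPo, ← hPi]
    have h3 : PowerSeries.rescale (p : ℚ) (2 : PowerSeries ℚ) = 2 := map_ofNat _ 2
    rw [h3, PowerSeries.mul_inv_rev, PowerSeries.mul_inv_rev]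
    have h4 : PowerSeries.C ((p : ℚ) ^ ((B : ℤ) - q)) =
        (PowerSeries.C (p : ℚ)) ^ B * ((PowerSeries.C (p : ℚ))⁻¹) ^ q := by
      rw [PowerSeries.C_inv, ← map_pow, ← map_pow, ← map_mul]
      congr 1
      rw [zpow_sub₀ hp0, zpow_natCast, zpow_natCast, inv_pow, div_eq_mul_inv]
    rw [h4]
    ring
  · have hRo : Red p Po (PowerSeries.C (∏ w ∈ (oc a b).erase w2, ((w - u : ℤ) : ZMod p))) := by
      rw [map_prod]
      exact Red_prod _ _ _ fun w _ => Red_resc_lin _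
    have hRi : Red p Pi (PowerSeries.C (∏ w ∈ ((pc a).erase u).erase w1,
        ((w - u : ℤ) : ZMod p))) := by
      rw [map_prod]
      exact Red_prod _ _ _ fun w _ => Red_resc_lin _
    have hRi' : Red p Pi⁻¹ (PowerSeries.C ((∏ w ∈ ((pc a).erase u).erase w1,
        ((w - u : ℤ) : ZMod p))⁻¹)) := by
      rw [← PowerSeries.C_inv]
      refine Red_inv hRi ?_
      rw [PowerSeries.constantCoeff_C]
      exact Finset.prod_ne_zero_iff.2 hi
    have hRl : Red p (lin l1)⁻¹ (linp p l1)⁻¹ := by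
      refine Red_inv (Red_lin l1) ?_
      rw [constantCoeff_linp]; exact hl1
    have key := Red_mul (Red_mul (Red_mul Red_two (Red_resc_lin (p := p) (-u)))
      (Red_pow (Red_mul (Red_lin (p := p) l2) hRo) B)) (Red_pow (Red_mul hRl hRi') q)
    convert key using 1
    simp only [map_mul, map_pow, mul_pow]
    ring

/-- the polynomial `∏_{d ∈ D} (X - d^2)^(n d)` -/
noncomputable def PolyN (D : Finset ℤ) (n : ℤ → ℕ) : ℚ[X] :=
  ∏ d ∈ D, (X - Polynomial.C ((d : ℚ) ^ 2)) ^ (n d)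

lemma aeval_lin_sq (u d : ℤ) :
    Polynomial.aeval (lin (-u) ^ 2) (X - Polynomial.C ((d : ℚ) ^ 2)) =
      lin (-u - d) * lin (-u + d) := by
  rw [map_sub, Polynomial.aeval_X, Polynomial.aeval_C]
  rw [show (algebraMap ℚ (PowerSeries ℚ)) ((d : ℚ) ^ 2) = PowerSeries.C ((d : ℚ) ^ 2) from rfl]
  simp only [lin]
  push_cast
  simp only [map_sub, map_add, map_neg, map_pow]
  ring

lemma aeval_two {D : Finset ℤ} {n : ℤ → ℕ} {c u l0 : ℤ} (hc : c ∈ D) (h0 : -u + c = p * l0) :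
    ∃ F : PowerSeries ℚ,
      PowerSeries.rescale (p : ℚ) (Polynomial.aeval (lin (-u) ^ 2) (PolyN D n)) =
        PowerSeries.C ((p : ℚ) ^ (n c)) * F ∧
      Red p F (PowerSeries.C (((-u - c : ℤ) : ZMod p) ^ (n c) *
          ∏ d ∈ D.erase c, (((-u - d) * (-u + d) : ℤ) : ZMod p) ^ (n d)) *
        linp p l0 ^ (n c)) := by
  have h1 : PowerSeries.rescale (p : ℚ) (Polynomial.aeval (lin (-u) ^ 2) (PolyN D n)) =
      ∏ d ∈ D, (PowerSeries.rescale (p : ℚ) (lin (-u - d)) *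
        PowerSeries.rescale (p : ℚ) (lin (-u + d))) ^ (n d) := by
    rw [PolyN, map_prod, map_prod]
    refine Finset.prod_congr rfl fun d _ => ?_
    rw [map_pow, map_pow, aeval_lin_sq, map_mul]
  refine ⟨(PowerSeries.rescale (p : ℚ) (lin (-u - c)) * lin l0) ^ (n c) *
    ∏ d ∈ D.erase c, (PowerSeries.rescale (p : ℚ) (lin (-u - d)) *
        PowerSeries.rescale (p : ℚ) (lin (-u + d))) ^ (n d), ?_, ?_⟩
  · rw [h1, ← Finset.mul_prod_erase _ _ hc, resc_lin_p l0 h0]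
    rw [map_pow]
    ring
  · have h2 : Red p (∏ d ∈ D.erase c, (PowerSeries.rescale (p : ℚ) (lin (-u - d)) *
        PowerSeries.rescale (p : ℚ) (lin (-u + d))) ^ (n d))
        (PowerSeries.C (∏ d ∈ D.erase c, (((-u - d) * (-u + d) : ℤ) : ZMod p) ^ (n d))) := by
      rw [map_prod]
      refine Red_prod _ _ _ fun d _ => ?_
      rw [map_pow]
      refine Red_pow ?_ _
      push_cast
      rw [map_mul]
      have := Red_mul (Red_resc_lin (p := p) (-u - d)) (Red_resc_lin (p := p) (-u + d))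
      push_cast at this
      exact this
    have key := Red_mul (Red_pow (Red_mul (Red_resc_lin (p := p) (-u - c)) (Red_lin (p := p) l0))
      (n c)) h2
    convert key using 1
    simp only [map_mul, map_pow, mul_pow]
    ring

/-- partial fraction coefficients at a two-pole class -/
lemma Acoef_two {q B a b : ℕ} {D : Finset ℤ} {n : ℤ → ℕ} {c u w1 w2 l0 l1 l2 : ℤ} (hc : c ∈ D)
    (h0 : -u + c = p * l0) (hw1 : w1 ∈ (pc a).erase u) (hw2 : w2 ∈ oc a b)
    (h1 : w1 - u = p * l1) (h2 : w2 - u = p * l2) (hl1 : (l1 : ZMod p) ≠ 0)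
    (ho : ∀ w ∈ (oc a b).erase w2, ((w - u : ℤ) : ZMod p) ≠ 0)
    (hi : ∀ w ∈ ((pc a).erase u).erase w1, ((w - u : ℤ) : ZMod p) ≠ 0) {i : ℕ} (hiq : i ≤ q) :
    ∃ x : ℚ, Acoef q B a b u i (PolyN D n) = (p : ℚ) ^ ((n c : ℤ) + B + i - 2 * q) * x ∧
      red p x (PowerSeries.coeff (q - i) (PowerSeries.C ((2 * ((-u : ℤ) : ZMod p) *
          (∏ w ∈ (oc a b).erase w2, ((w - u : ℤ) : ZMod p)) ^ B *
          ((∏ w ∈ ((pc a).erase u).erase w1, ((w - u : ℤ) : ZMod p))⁻¹) ^ q) *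
          (((-u - c : ℤ) : ZMod p) ^ (n c) *
          ∏ d ∈ D.erase c, (((-u - d) * (-u + d) : ℤ) : ZMod p) ^ (n d))) *
        (linp p l0 ^ (n c) * linp p l2 ^ B * ((linp p l1)⁻¹) ^ q))) := by
  have hp0 : (p : ℚ) ≠ 0 := by exact_mod_cast hp.out.ne_zero
  obtain ⟨F1, hF1, hR1⟩ := base_two (q := q) (B := B) hw1 hw2 h1 h2 hl1 ho hi
  obtain ⟨F2, hF2, hR2⟩ := aeval_two (p := p) (n := n) hc h0
  have hR := Red_mul hR1 hR2
  refine ⟨PowerSeries.coeff (q - i) (F1 * F2), ?_, ?_⟩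
  · rw [Acoef_apply]
    have h3 : PowerSeries.coeff (q - i) (PowerSeries.rescale (p : ℚ)
        (base q B a b u * Polynomial.aeval (lin (-u) ^ 2) (PolyN D n))) =
        (p : ℚ) ^ ((B : ℤ) - q + n c) * PowerSeries.coeff (q - i) (F1 * F2) := by
      rw [map_mul, hF1, hF2]
      have : PowerSeries.C ((p : ℚ) ^ ((B : ℤ) - q)) * F1 * (PowerSeries.C ((p : ℚ) ^ (n c)) * F2) =
          PowerSeries.C ((p : ℚ) ^ ((B : ℤ) - q + n c)) * (F1 * F2) := by
        rw [zpow_add₀ hp0, zpow_natCast, map_mul]; ring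
      rw [this, PowerSeries.coeff_C_mul]
    rw [PowerSeries.coeff_rescale] at h3
    have h4 : (p : ℚ) ^ (q - i) ≠ 0 := pow_ne_zero _ hp0
    have h5 : (p : ℚ) ^ ((n c : ℤ) + B + i - 2 * q) * (p : ℚ) ^ (q - i) =
        (p : ℚ) ^ ((B : ℤ) - q + n c) := by
      rw [← zpow_natCast (p : ℚ) (q - i), ← zpow_add₀ hp0]
      congr 1
      push_cast [hiq]
      ring
    have h6 : (p : ℚ) ^ (q - i) * PowerSeries.coeff (q - i)
        (base q B a b u * Polynomial.aeval (lin (-u) ^ 2) (PolyN D n)) =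
        (p : ℚ) ^ (q - i) * ((p : ℚ) ^ ((n c : ℤ) + B + i - 2 * q) *
          PowerSeries.coeff (q - i) (F1 * F2)) := by
      rw [h3, ← h5]; ring
    exact mul_left_cancel₀ h4 h6
  · have := hR (q - i)
    convert this using 2
    rw [map_mul]
    ring

end

end Z579
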