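import Pool.Agent.Lib.Z579.Local

/-!
# Partial fractions of `R(v) G(v^2)`
-/

open Polynomial Finset

namespace Z579

/-- numerator polynomial -/
noncomputable def NP (B a b : ℕ) (G : ℚ[X]) : ℚ[X] :=
  2 * X * (∏ w ∈ oc a b, (X + C (w : ℚ))) ^ B * G.comp (X ^ 2)

/-- cofactor of `(x+u)^(-i)` -/
noncomputable def QP (q a : ℕ) (u : ℤ) (i : ℕ) : ℚ[X] :=
  (X + C (u : ℚ)) ^ (q - i) * (∏ w ∈ (pc a).erase u, (X + C (w : ℚ))) ^ q

lemma card_oc {a b : ℕ} (ha : 1 ≤ a) (hab : a ≤ b) : (oc a b).card = 2 * (b - a) := by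
  have hd : Disjoint (Finset.Icc (1 - (b : ℤ)) (-(a : ℤ))) (Finset.Icc (a : ℤ) ((b : ℤ) - 1)) := by
    rw [Finset.disjoint_left]
    intro x hx hy
    rw [Finset.mem_Icc] at hx hy
    omega
  rw [oc, Finset.card_union_of_disjoint hd, Int.card_Icc, Int.card_Icc]
  omega

lemma card_pc {a : ℕ} (ha : 1 ≤ a) : (pc a).card = 2 * a - 1 := by
  rw [pc, Int.card_Icc]
  omega

/-- Taylor expansion at `-u` -/
noncomputable def tay (u : ℤ) : ℚ[X] →ₐ[ℚ] PowerSeries ℚ := Polynomial.aeval (lin (-u))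

lemma tay_lin (u w : ℤ) : tay u (X + C (w : ℚ)) = lin (w - u) := by
  have h1 : tay u (C (w : ℚ)) = PowerSeries.C (w : ℚ) := by
    rw [tay, Polynomial.aeval_C]; rfl
  rw [map_add, h1, tay, Polynomial.aeval_X, lin, lin]
  push_cast
  simp only [map_neg, map_sub]
  ring

lemma tay_comp (u : ℤ) (P : ℚ[X]) :
    ((P.comp (X - C (u : ℚ)) : ℚ[X]) : PowerSeries ℚ) = tay u P := by
  have h : (Polynomial.coeToPowerSeries.algHom ℚ).comp
      ((Polynomial.aeval (X - C (u : ℚ) : ℚ[X]) : ℚ[X] →ₐ[ℚ] ℚ[X])) = tay u := by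
    apply Polynomial.algHom_ext
    rw [AlgHom.comp_apply, Polynomial.aeval_X, tay, Polynomial.aeval_X,
      Polynomial.coeToPowerSeries.algHom_apply, lin, Polynomial.coe_sub, Polynomial.coe_X,
      Polynomial.coe_C]
    push_cast
    simp only [map_neg, Algebra.algebraMap_self, PowerSeries.map_id, RingHom.id_apply, map_sub]
    first | rfl | (simp [sub_eq_add_neg])
  have h2 := congrArg (fun f => f P) h
  simp only [AlgHom.comp_apply, Polynomial.coeToPowerSeries.algHom_apply] at h2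
  rw [← h2]
  simp [Polynomial.comp, Polynomial.aeval_def]

lemma dvd_of_tay {u : ℤ} {q : ℕ} {P : ℚ[X]} (h : PowerSeries.X ^ q ∣ tay u P) :
    (X + C (u : ℚ)) ^ q ∣ P := by
  rw [← tay_comp, PowerSeries.X_pow_dvd_iff] at h
  have h1 : X ^ q ∣ P.comp (X - C (u : ℚ)) := by
    rw [Polynomial.X_pow_dvd_iff]
    intro d hd
    have := h d hd
    rwa [Polynomial.coeff_coe] at this
  obtain ⟨Q, hQ⟩ := h1
  refine ⟨Q.comp (X + C (u : ℚ)), ?_⟩
  have h2 := congrArg (fun f => f.comp (X + C (u : ℚ))) hQ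
  simp only [Polynomial.comp_assoc, Polynomial.sub_comp, Polynomial.X_comp, Polynomial.C_comp,
    Polynomial.mul_comp, Polynomial.pow_comp, add_sub_cancel_right, Polynomial.comp_X] at h2
  exact h2

lemma tay_NP (q B a b : ℕ) {u : ℤ} (G : ℚ[X]) :
    tay u (NP B a b G) = base q B a b u * Polynomial.aeval (lin (-u) ^ 2) G *
      (∏ w ∈ (pc a).erase u, lin (w - u)) ^ q := by
  have hne : PowerSeries.constantCoeff (∏ w ∈ (pc a).erase u, lin (w - u)) ≠ 0 :=
    constantCoeff_prod_lin_ne fun w hw => (Finset.mem_erase.1 hw).1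
  have h1 : tay u (2 : ℚ[X]) = 2 := map_ofNat _ 2
  have h2 : tay u (X : ℚ[X]) = lin (-u) := by rw [tay, Polynomial.aeval_X]
  have h3 : tay u (G.comp (X ^ 2)) = Polynomial.aeval (lin (-u) ^ 2) G := by
    rw [tay, Polynomial.aeval_comp]
    simp
  have h4 : ((∏ w ∈ (pc a).erase u, lin (w - u))⁻¹) ^ q *
      (∏ w ∈ (pc a).erase u, lin (w - u)) ^ q = 1 := by
    rw [← mul_pow, PowerSeries.inv_mul_cancel _ hne, one_pow]
  rw [NP, map_mul, map_mul, map_mul, map_pow, map_prod, h1, h2, h3, base]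
  simp only [tay_lin]
  linear_combination (2 * lin (-u) * (∏ w ∈ oc a b, lin (w - u)) ^ B *
    Polynomial.aeval (lin (-u) ^ 2) G) * (-h4)

lemma tay_QP_self {q a : ℕ} {u : ℤ} {i : ℕ} :
    tay u (QP q a u i) = PowerSeries.X ^ (q - i) *
      (∏ w ∈ (pc a).erase u, lin (w - u)) ^ q := by
  rw [QP, map_mul, map_pow, map_pow, map_prod]
  simp only [tay_lin]
  congr 2
  rw [lin]; simp

lemma tay_QP_ne {q a : ℕ} {u v : ℤ} (hu : u ∈ pc a) (huv : u ≠ v) {i : ℕ} :
    PowerSeries.X ^ q ∣ tay u (QP q a v i) := by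
  rw [QP, map_mul, map_pow, map_pow, map_prod]
  simp only [tay_lin]
  refine Dvd.dvd.mul_left ?_ _
  refine pow_dvd_pow_of_dvd ?_ q
  refine dvd_trans ?_ (Finset.dvd_prod_of_mem _ (Finset.mem_erase.2 ⟨huv, hu⟩))
  rw [lin]; simp

lemma natDegree_prod_lin (s : Finset ℤ) : (∏ w ∈ s, (X + C (w : ℚ))).natDegree = s.card := by
  rw [Polynomial.natDegree_prod_of_monic _ _ fun w _ => Polynomial.monic_X_add_C _]
  simp only [Polynomial.natDegree_X_add_C, Finset.sum_const, smul_eq_mul, mul_one]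

lemma monic_prod_lin (s : Finset ℤ) : (∏ w ∈ s, (X + C (w : ℚ))).Monic :=
  Polynomial.monic_prod_of_monic _ _ fun _ _ => Polynomial.monic_X_add_C _

lemma natDegree_NP_le {B a b : ℕ} (ha : 1 ≤ a) (hab : a ≤ b) (G : ℚ[X]) :
    (NP B a b G).natDegree ≤ 2 * B * (b - a) + 2 * G.natDegree + 1 := by
  have h1 : (NP B a b G).natDegree ≤ (2 * X : ℚ[X]).natDegree +
      ((∏ w ∈ oc a b, (X + C (w : ℚ))) ^ B).natDegree + (G.comp (X ^ 2)).natDegree := by
    rw [NP]
    exact (Polynomial.natDegree_mul_le).trans (Nat.add_le_add_right Polynomial.natDegree_mul_le _)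
  have h2 : (2 * X : ℚ[X]).natDegree ≤ 1 := by
    have : (2 * X : ℚ[X]) = C 2 * X := by rw [Polynomial.C_ofNat]
    rw [this]
    exact (Polynomial.natDegree_C_mul_le _ _).trans Polynomial.natDegree_X_le
  have h3 : ((∏ w ∈ oc a b, (X + C (w : ℚ))) ^ B).natDegree = B * (2 * (b - a)) := by
    rw [(monic_prod_lin _).natDegree_pow, natDegree_prod_lin, card_oc ha hab]
  have h4 : (G.comp (X ^ 2)).natDegree ≤ G.natDegree * 2 := by
    rw [Polynomial.natDegree_comp]
    simp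
  rw [h3] at h1
  have : B * (2 * (b - a)) = 2 * B * (b - a) := by ring
  omega

lemma natDegree_QP {q a : ℕ} (ha : 1 ≤ a) {u : ℤ} (hu : u ∈ pc a) {i : ℕ} (hi : i ≤ q) :
    (QP q a u i).natDegree + i = q * (2 * a - 1) := by
  have h1 : ((∏ w ∈ (pc a).erase u, (X + C (w : ℚ))) ^ q).Monic := (monic_prod_lin _).pow q
  have h2 : ((X + C (u : ℚ)) ^ (q - i)).Monic := (Polynomial.monic_X_add_C _).pow _
  rw [QP, h2.natDegree_mul h1, (monic_prod_lin _).natDegree_pow, natDegree_prod_lin,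
    (Polynomial.monic_X_add_C _).natDegree_pow, Polynomial.natDegree_X_add_C,
    Finset.card_erase_of_mem hu, card_pc ha]
  obtain ⟨a, rfl⟩ := Nat.exists_eq_add_of_le ha
  have : 2 * (1 + a) - 1 = 2 * a + 1 := by omega
  rw [this]
  simp only [Nat.add_sub_cancel]
  have h3 : q * (2 * a + 1) = q * (2 * a) + q := by ring
  omega

lemma monic_QP {q a : ℕ} {u : ℤ} {i : ℕ} : (QP q a u i).Monic :=
  ((Polynomial.monic_X_add_C _).pow _).mul ((monic_prod_lin _).pow q)

/-- the partial fraction expansion, cleared of denominators -/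
theorem NP_eq {q B a b : ℕ} (ha : 1 ≤ a) (hab : a ≤ b) (G : ℚ[X])
    (hdeg : 2 * B * (b - a) + 2 * G.natDegree + 2 ≤ q * (2 * a - 1)) :
    NP B a b G = ∑ u ∈ pc a, ∑ i ∈ Finset.Icc 1 q, C (Acoef q B a b u i G) * QP q a u i := by
  rw [← sub_eq_zero]
  set P : ℚ[X] := NP B a b G -
    ∑ u ∈ pc a, ∑ i ∈ Finset.Icc 1 q, C (Acoef q B a b u i G) * QP q a u i with hP
  have hdvd : ∀ u ∈ pc a, (X + C (u : ℚ)) ^ q ∣ P := by
    intro u hu
    apply dvd_of_tay
    have hC : ∀ c : ℚ, tay u (C c) = PowerSeries.C c := by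
      intro c; rw [tay, Polynomial.aeval_C]; rfl
    rw [hP, map_sub, tay_NP q, map_sum, ← Finset.add_sum_erase _ _ hu, ← sub_sub]
    refine dvd_sub ?_ ?_
    · rw [map_sum]
      have h1 : ∑ i ∈ Finset.Icc 1 q, tay u (C (Acoef q B a b u i G) * QP q a u i) =
          (∑ i ∈ Finset.Icc 1 q, PowerSeries.C (Acoef q B a b u i G) * PowerSeries.X ^ (q - i)) *
            (∏ w ∈ (pc a).erase u, lin (w - u)) ^ q := by
        rw [Finset.sum_mul]
        refine Finset.sum_congr rfl fun i _ => ?_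
        rw [map_mul, hC, tay_QP_self, mul_assoc]
      rw [h1, ← sub_mul]
      refine Dvd.dvd.mul_right ?_ _
      rw [PowerSeries.X_pow_dvd_iff]
      intro d hd
      rw [map_sub, map_sum, Finset.sum_eq_single (q - d)]
      · rw [PowerSeries.coeff_C_mul, PowerSeries.coeff_X_pow, Acoef_apply]
        have : q - (q - d) = d := by omega
        rw [this]
        simp
      · intro i hi hne
        rw [Finset.mem_Icc] at hi
        rw [PowerSeries.coeff_C_mul, PowerSeries.coeff_X_pow, if_neg, mul_zero]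
        omega
      · intro h
        exfalso
        apply h
        rw [Finset.mem_Icc]
        omega
    · refine Finset.dvd_sum fun v hv => ?_
      rw [map_sum]
      refine Finset.dvd_sum fun i _ => ?_
      rw [map_mul]
      exact (tay_QP_ne hu (Finset.mem_erase.1 hv).1.symm).mul_left _
  have hprod : (∏ u ∈ pc a, (X + C (u : ℚ)) ^ q) ∣ P := by
    apply Finset.prod_dvd_of_coprime _ hdvd
    intro u _ v _ huv
    refine IsCoprime.pow ?_
    have h1 := Polynomial.isCoprime_X_sub_C_of_isUnit_sub (a := (-(u : ℚ))) (b := (-(v : ℚ)))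
      (IsUnit.mk0 _ (by
        intro h
        apply huv
        have : (u : ℚ) = v := by linarith
        exact_mod_cast this))
    simpa using h1
  refine Polynomial.eq_zero_of_dvd_of_natDegree_lt hprod ?_
  rw [Finset.prod_pow, (monic_prod_lin _).natDegree_pow, natDegree_prod_lin, card_pc ha]
  have h1 : P.natDegree ≤ q * (2 * a - 1) - 1 := by
    rw [hP]
    refine (Polynomial.natDegree_sub_le _ _).trans (max_le ?_ ?_)
    · have := natDegree_NP_le (B := B) ha hab G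
      omega
    · refine Polynomial.natDegree_sum_le_of_forall_le _ _ fun u hu => ?_
      refine Polynomial.natDegree_sum_le_of_forall_le _ _ fun i hi => ?_
      rw [Finset.mem_Icc] at hi
      refine (Polynomial.natDegree_C_mul_le _ _).trans ?_
      have := natDegree_QP ha hu hi.2
      omega
  omega

/-- the sum of the residues vanishes -/
theorem sum_Acoef_one {q B a b : ℕ} (ha : 1 ≤ a) (hab : a ≤ b) (hq : 1 ≤ q) (G : ℚ[X])
    (hdeg : 2 * B * (b - a) + 2 * G.natDegree + 3 ≤ q * (2 * a - 1)) :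
    ∑ u ∈ pc a, Acoef q B a b u 1 G = 0 := by
  have h := congrArg (fun P => Polynomial.coeff P (q * (2 * a - 1) - 1))
    (NP_eq (q := q) (B := B) ha hab G (by omega))
  simp only [Polynomial.finsetSum_coeff, Polynomial.coeff_C_mul] at h
  rw [Polynomial.coeff_eq_zero_of_natDegree_lt] at h
  · rw [h]
    refine Finset.sum_congr rfl fun u hu => ?_
    rw [Finset.sum_eq_single 1]
    · have h1 := natDegree_QP ha hu hq
      have h2 : q * (2 * a - 1) - 1 = (QP q a u 1).natDegree := by omega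
      rw [h2, (monic_QP).coeff_natDegree, mul_one]
    · intro i hi hne
      rw [Finset.mem_Icc] at hi
      rw [Polynomial.coeff_eq_zero_of_natDegree_lt, mul_zero]
      have := natDegree_QP ha hu hi.2
      omega
    · intro h
      exfalso
      exact h (Finset.mem_Icc.2 ⟨le_rfl, hq⟩)
  · have := natDegree_NP_le (B := B) ha hab G
    omega

/-- for even `i` the coefficients sum to zero -/
theorem sum_Acoef_even {q B a b : ℕ} (ha : 1 ≤ a) (hq : Even q) {i : ℕ} (hi : i ≤ q)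
    (hie : Even i) (G : ℚ[X]) : ∑ u ∈ pc a, Acoef q B a b u i G = 0 := by
  have h : ∑ u ∈ pc a, Acoef q B a b u i G = ∑ u ∈ pc a, -Acoef q B a b u i G := by
    refine Finset.sum_nbij' (fun w => -w) (fun w => -w) ?_ ?_ ?_ ?_ ?_
    · intro w hw; exact neg_mem_pc.2 hw
    · intro w hw; exact neg_mem_pc.2 hw
    · intro w _; ring
    · intro w _; ring
    · intro w hw
      rw [Acoef_neg ha hw hq hi, (hie.add_one).neg_one_pow]
      ring
  rw [Finset.sum_neg_distrib] at h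
  linarith

/-- partial fraction expansion over a field of characteristic zero -/
theorem pf_field {K : Type*} [Field K] [CharZero K] [Algebra ℚ K] {q B a b : ℕ} (ha : 1 ≤ a)
    (hab : a ≤ b) (G : ℚ[X])
    (hdeg : 2 * B * (b - a) + 2 * G.natDegree + 2 ≤ q * (2 * a - 1)) (v : K)
    (hv : ∀ u ∈ pc a, v + (u : K) ≠ 0) :
    2 * v * (∏ w ∈ oc a b, (v + (w : K))) ^ B / (∏ w ∈ pc a, (v + (w : K))) ^ q *
      Polynomial.aeval (v ^ 2) G =
    ∑ u ∈ pc a, ∑ i ∈ Finset.Icc 1 q, (Acoef q B a b u i G : K) / (v + (u : K)) ^ i := by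
  have h := congrArg (fun P => Polynomial.aeval v P) (NP_eq (q := q) (B := B) ha hab G hdeg)
  have hX : ∀ w : ℤ, Polynomial.aeval v (X + C (w : ℚ)) = v + (w : K) := by
    intro w
    simp
  simp only [NP, QP, map_sum, map_mul, map_pow, map_prod, hX, Polynomial.aeval_comp,
    Polynomial.aeval_X, Polynomial.aeval_C, map_ofNat, eq_ratCast] at h
  have hD : (∏ w ∈ pc a, (v + (w : K))) ≠ 0 := Finset.prod_ne_zero_iff.2 hv
  rw [div_mul_eq_mul_div, div_eq_iff (pow_ne_zero _ hD), h, Finset.sum_mul]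
  refine Finset.sum_congr rfl fun u hu => ?_
  rw [Finset.sum_mul]
  refine Finset.sum_congr rfl fun i hi => ?_
  rw [Finset.mem_Icc] at hi
  rw [div_mul_eq_mul_div, eq_div_iff (pow_ne_zero _ (hv u hu)), ← Finset.mul_prod_erase _ _ hu,
    mul_pow]
  have : (v + (u : K)) ^ q = (v + (u : K)) ^ (q - i) * (v + (u : K)) ^ i := by
    rw [← pow_add]; congr 1; omega
  rw [this]
  ring

/-- (PF) partial fraction expansion of `Rc` -/
theorem Rc_mul_aeval {q B a b : ℕ} (ha : 1 ≤ a) (hab : a ≤ b) (G : ℚ[X])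
    (hdeg : 2 * B * (b - a) + 2 * G.natDegree + 2 ≤ q * (2 * a - 1)) (v : ℂ)
    (hv : ∀ u ∈ pc a, v + (u : ℂ) ≠ 0) :
    Rc q B a b v * Polynomial.aeval (v ^ 2) G =
    ∑ u ∈ pc a, ∑ i ∈ Finset.Icc 1 q, (Acoef q B a b u i G : ℂ) / (v + (u : ℂ)) ^ i :=
  pf_field ha hab G hdeg v hv

/-- power series coefficients of `(x+c)^(-i)` -/
lemma coeff_lin_inv_pow {c : ℤ} (hc : c ≠ 0) (i r : ℕ) (hi : 1 ≤ i) :
    PowerSeries.coeff r (((lin c)⁻¹) ^ i) =
      (-1) ^ r * (Nat.choose (i + r - 1) r : ℚ) / (c : ℚ) ^ (i + r) := by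
  have hcQ : (c : ℚ) ≠ 0 := by exact_mod_cast hc
  have hne : PowerSeries.constantCoeff (lin c) ≠ 0 := by rw [constantCoeff_lin]; exact hcQ
  have h1 : (lin c) = PowerSeries.C (c : ℚ) * PowerSeries.rescale (-(c : ℚ)⁻¹) (1 - PowerSeries.X) := by
    rw [map_sub, map_one, PowerSeries.rescale_X, lin, mul_sub, mul_one, ← mul_assoc, ← map_mul]
    have : (c : ℚ) * -(c : ℚ)⁻¹ = -1 := by field_simp
    rw [this]
    simp only [map_neg, map_one]
    ring
  have h2 : (lin c) ^ i * (PowerSeries.C (((c : ℚ)⁻¹) ^ i) *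
      PowerSeries.rescale (-(c : ℚ)⁻¹) (PowerSeries.mk fun n => (Nat.choose (i - 1 + n) (i - 1) : ℚ))) = 1 := by
    obtain ⟨j, rfl⟩ := Nat.exists_eq_add_of_le' hi
    have h3 := PowerSeries.mk_add_choose_mul_one_sub_pow_eq_one ℚ (d := j)
    have h4 := congrArg (PowerSeries.rescale (-(c : ℚ)⁻¹)) h3
    rw [map_mul, map_pow, map_one] at h4
    rw [h1, mul_pow]
    have h5 : (PowerSeries.C (c : ℚ)) ^ (j + 1) * PowerSeries.C (((c : ℚ)⁻¹) ^ (j + 1)) = 1 := by
      rw [← map_pow, ← map_mul, ← mul_pow, mul_inv_cancel₀ hcQ, one_pow, map_one]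
    calc _ = ((PowerSeries.C (c : ℚ)) ^ (j + 1) * PowerSeries.C (((c : ℚ)⁻¹) ^ (j + 1))) *
          (PowerSeries.rescale (-(c : ℚ)⁻¹) (PowerSeries.mk fun n => (Nat.choose (j + n) j : ℚ)) *
            (PowerSeries.rescale (-(c : ℚ)⁻¹) (1 - PowerSeries.X)) ^ (j + 1)) := by
          simp only [Nat.add_sub_cancel]; ring
      _ = 1 := by rw [h5, one_mul]; exact h4
  have h3 : ((lin c)⁻¹) ^ i = PowerSeries.C (((c : ℚ)⁻¹) ^ i) *
      PowerSeries.rescale (-(c : ℚ)⁻¹) (PowerSeries.mk fun n => (Nat.choose (i - 1 + n) (i - 1) : ℚ)) := by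
    have h4 : ((lin c)⁻¹) ^ i * (lin c) ^ i = 1 := by
      rw [← mul_pow, PowerSeries.inv_mul_cancel _ hne, one_pow]
    calc ((lin c)⁻¹) ^ i = ((lin c)⁻¹) ^ i * ((lin c) ^ i * (PowerSeries.C (((c : ℚ)⁻¹) ^ i) *
        PowerSeries.rescale (-(c : ℚ)⁻¹)
          (PowerSeries.mk fun n => (Nat.choose (i - 1 + n) (i - 1) : ℚ)))) := by rw [h2, mul_one]
      _ = _ := by rw [← mul_assoc, h4, one_mul]
  rw [h3, PowerSeries.coeff_C_mul, PowerSeries.coeff_rescale, PowerSeries.coeff_mk]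
  have h5 : Nat.choose (i - 1 + r) (i - 1) = Nat.choose (i + r - 1) r := by
    have : i + r - 1 = i - 1 + r := by omega
    rw [this]
    exact Nat.choose_symm_add
  rw [h5, neg_pow, pow_add, div_eq_mul_inv, mul_inv, inv_pow, inv_pow]
  ring

/-- Taylor expansion of `R(v) G(v^2)` at the integer `v = k` -/
noncomputable def Tser (q B a b : ℕ) (k : ℤ) (G : ℚ[X]) : PowerSeries ℚ :=
  2 * lin k * (∏ w ∈ oc a b, lin (k + w)) ^ B * ((∏ w ∈ pc a, lin (k + w))⁻¹) ^ q *
    Polynomial.aeval (lin k ^ 2) G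

/-- (TAY) Taylor coefficients of `R(v) G(v^2)` at an integer which is not a pole. -/
theorem coeff_Tser {q B a b : ℕ} (ha : 1 ≤ a) (hab : a ≤ b) (G : ℚ[X])
    (hdeg : 2 * B * (b - a) + 2 * G.natDegree + 2 ≤ q * (2 * a - 1)) (k : ℤ)
    (hk : ∀ u ∈ pc a, k + u ≠ 0) (r : ℕ) :
    PowerSeries.coeff r (Tser q B a b k G) =
      ∑ u ∈ pc a, ∑ i ∈ Finset.Icc 1 q,
        (-1) ^ r * (Nat.choose (i + r - 1) r : ℚ) * Acoef q B a b u i G /
          ((k + u : ℤ) : ℚ) ^ (i + r) := by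
  have h := congrArg (fun P => tay (-k) P) (NP_eq (q := q) (B := B) ha hab G hdeg)
  have hX : ∀ w : ℤ, tay (-k) (X + C (w : ℚ)) = lin (k + w) := by
    intro w
    rw [tay_lin]; congr 1; ring
  have hC : ∀ c : ℚ, tay (-k) (C c) = PowerSeries.C c := by
    intro c; rw [tay, Polynomial.aeval_C]; rfl
  have h2 : tay (-k) (X : ℚ[X]) = lin k := by rw [tay, Polynomial.aeval_X, neg_neg]
  have h3 : tay (-k) (G.comp (X ^ 2)) = Polynomial.aeval (lin k ^ 2) G := by
    rw [tay, Polynomial.aeval_comp]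
    simp
  simp only [NP, QP, map_sum, map_mul, map_pow, map_prod, hX, h2, h3, hC, map_ofNat] at h
  have hlin : ∀ u ∈ pc a, PowerSeries.constantCoeff (lin (k + u)) ≠ 0 := by
    intro u hu
    rw [constantCoeff_lin]
    exact_mod_cast hk u hu
  have hD : PowerSeries.constantCoeff (∏ w ∈ pc a, lin (k + w)) ≠ 0 := by
    rw [map_prod]
    exact Finset.prod_ne_zero_iff.2 hlin
  have hDD : (∏ w ∈ pc a, lin (k + w)) ^ q * ((∏ w ∈ pc a, lin (k + w))⁻¹) ^ q = 1 := by
    rw [← mul_pow, PowerSeries.mul_inv_cancel _ hD, one_pow]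
  have h4 : Tser q B a b k G = ∑ u ∈ pc a, ∑ i ∈ Finset.Icc 1 q,
      PowerSeries.C (Acoef q B a b u i G) * ((lin (k + u))⁻¹) ^ i := by
    calc Tser q B a b k G = (2 * lin k * (∏ w ∈ oc a b, lin (k + w)) ^ B *
          Polynomial.aeval (lin k ^ 2) G) * ((∏ w ∈ pc a, lin (k + w))⁻¹) ^ q := by
          rw [Tser]; ring
      _ = _ := by
          rw [h, Finset.sum_mul]
          refine Finset.sum_congr rfl fun u hu => ?_
          rw [Finset.sum_mul]
          refine Finset.sum_congr rfl fun i hi => ?_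
          rw [Finset.mem_Icc] at hi
          rw [← Finset.mul_prod_erase _ _ hu] at hDD
          rw [← Finset.mul_prod_erase _ _ hu]
          have h5 : (lin (k + u)) ^ i * ((lin (k + u))⁻¹) ^ i = 1 := by
            rw [← mul_pow, PowerSeries.mul_inv_cancel _ (hlin u hu), one_pow]
          have h6 : (lin (k + u)) ^ q = (lin (k + u)) ^ (q - i) * (lin (k + u)) ^ i := by
            rw [← pow_add]; congr 1; omega
          rw [mul_pow, h6] at hDD
          set I : PowerSeries ℚ := ((lin (k + u) * ∏ x ∈ (pc a).erase u, lin (k + x))⁻¹) ^ q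
          set E : PowerSeries ℚ := (∏ x ∈ (pc a).erase u, lin (k + x)) ^ q
          set Y : PowerSeries ℚ := (lin (k + u)) ^ (q - i)
          set Z : PowerSeries ℚ := (lin (k + u)) ^ i
          set Z' : PowerSeries ℚ := ((lin (k + u))⁻¹) ^ i
          calc PowerSeries.C (Acoef q B a b u i G) * (Y * E) * I
              = PowerSeries.C (Acoef q B a b u i G) * (Y * E) * I * (Z * Z') := by
                rw [h5, mul_one]
            _ = PowerSeries.C (Acoef q B a b u i G) * Z' * (Y * Z * E * I) := by ring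
            _ = _ := by rw [hDD, mul_one]
  rw [h4, map_sum]
  refine Finset.sum_congr rfl fun u hu => ?_
  rw [map_sum]
  refine Finset.sum_congr rfl fun i hi => ?_
  rw [Finset.mem_Icc] at hi
  rw [PowerSeries.coeff_C_mul, coeff_lin_inv_pow (hk u hu) i r hi.1]
  ring

/-- (VAN) the zeros of order `B` of `R` kill the low Taylor coefficients -/
theorem sum_van {r q B a b : ℕ} (ha : 1 ≤ a) (hab : a ≤ b) (G : ℚ[X]) (hr : Even r)
    (hrB : r < B) (hdeg : 2 * B * (b - a) + 2 * G.natDegree + 2 ≤ q * (2 * a - 1)) (k : ℤ)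
    (hk1 : (a : ℤ) ≤ k) (hk2 : k < b) :
    ∑ u ∈ pc a, ∑ i ∈ Finset.Icc 1 q,
      (Nat.choose (i + r - 1) r : ℚ) * Acoef q B a b u i G / ((k + u : ℤ) : ℚ) ^ (i + r) = 0 := by
  have h1 := coeff_Tser (q := q) (B := B) ha hab G hdeg k (fun u hu => by
    rw [mem_pc] at hu; omega) r
  have h2 : PowerSeries.coeff r (Tser q B a b k G) = 0 := by
    have h3 : PowerSeries.X ^ B ∣ Tser q B a b k G := by
      rw [Tser]
      refine Dvd.dvd.mul_right (Dvd.dvd.mul_right (Dvd.dvd.mul_left ?_ _) _) _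
      refine pow_dvd_pow_of_dvd ?_ B
      have hm : -k ∈ oc a b := by rw [mem_oc]; omega
      refine dvd_trans ?_ (Finset.dvd_prod_of_mem _ hm)
      rw [lin]; simp
    exact PowerSeries.X_pow_dvd_iff.1 h3 r hrB
  rw [h2] at h1
  rw [h1]
  refine Finset.sum_congr rfl fun u _ => Finset.sum_congr rfl fun i _ => ?_
  rw [hr.neg_one_pow, one_mul]

end Z579
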