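import Pool.Agent.Lib.Z579.ArchProd

/-!
# Numerical certificate for the archimedean bound (parameters of `{5,7,9}`)
-/

set_option autoImplicit false

open Real

namespace Z579

noncomputable section

namespace Arch

/-- a function with nonnegative derivative on `[a, ∞)` is at least its value at `a` -/
theorem le_of_deriv_nonneg {f f' : ℝ → ℝ} {a x : ℝ} (h : ∀ t, a ≤ t → HasDerivAt f (f' t) t)
    (h2 : ∀ t, a ≤ t → 0 ≤ f' t) (hx : a ≤ x) : f a ≤ f x := by
  rcases hx.eq_or_lt with h0 | h0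
  · rw [h0]
  obtain ⟨c, hc, hc2⟩ := exists_hasDerivAt_eq_slope f f' h0
    (fun t ht => (h t ht.1).continuousAt.continuousWithinAt) (fun t ht => h t ht.1.le)
  rw [eq_div_iff (by linarith)] at hc2
  have h3 := h2 c hc.1.le
  have h4 : 0 < x - a := by linarith
  nlinarith

theorem arctan_le {x : ℝ} (hx : 0 ≤ x) : arctan x ≤ x := by
  have h := le_of_deriv_nonneg (f := fun t => t - arctan t) (f' := fun t => 1 - 1 / (1 + t ^ 2))
    (a := 0) (x := x) (fun t _ => (hasDerivAt_id t).sub (hasDerivAt_arctan t)) (fun t _ => by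
      have : 1 / (1 + t ^ 2) ≤ 1 := by
        rw [div_le_one (by positivity)]
        nlinarith [sq_nonneg t]
      linarith) hx
  simp only [arctan_zero, sub_zero] at h
  linarith

theorem le_arctan {x : ℝ} (hx : 0 ≤ x) : x - x ^ 3 / 3 ≤ arctan x := by
  have h := le_of_deriv_nonneg (f := fun t => arctan t - (t - t ^ 3 / 3))
    (f' := fun t => 1 / (1 + t ^ 2) - (1 - t ^ 2))
    (a := 0) (x := x) (fun t _ => by
      have h1 : HasDerivAt (fun t : ℝ => t - t ^ 3 / 3) (1 - t ^ 2) t := by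
        have h2 := (hasDerivAt_id t).sub ((hasDerivAt_pow 3 t).div_const 3)
        refine h2.congr_deriv ?_
        push_cast
        ring
      exact (hasDerivAt_arctan t).sub h1) (fun t _ => by
      have : 1 / (1 + t ^ 2) - (1 - t ^ 2) = t ^ 4 / (1 + t ^ 2) := by
        field_simp
        ring
      rw [this]
      positivity) hx
  simp only [arctan_zero] at h
  norm_num at h
  linarith

/-- the auxiliary convex function -/
def Ah (x : ℝ) : ℝ := x * arctan x - log (1 + x ^ 2) / 2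

theorem hasDerivAt_Ah (x : ℝ) : HasDerivAt Ah (arctan x) x := by
  have h0 : 0 < 1 + x ^ 2 := by positivity
  have h1 : HasDerivAt (fun x : ℝ => 1 + x ^ 2) (2 * x) x := by
    simpa using (hasDerivAt_pow 2 x).const_add 1
  have h2 := (h1.log h0.ne').div_const 2
  have h3 := (hasDerivAt_id x).mul (hasDerivAt_arctan x)
  refine (h3.sub h2).congr_deriv ?_
  simp only [id]
  field_simp
  ring

theorem GG_eq {σ z : ℝ} (hσ : 0 < σ) (hz : 0 < z) :
    GG σ z = σ * log σ - σ + π / 2 * z - σ * Ah (z / σ) := by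
  unfold GG Ah
  have h1 : arctan (σ / z) = π / 2 - arctan (z / σ) := by
    rw [← arctan_inv_of_pos (by positivity), inv_div]
  have h2 : σ ^ 2 + z ^ 2 = σ ^ 2 * (1 + (z / σ) ^ 2) := by
    field_simp
  have h3 : 0 < 1 + (z / σ) ^ 2 := by positivity
  rw [h1, h2, log_mul (by positivity) h3.ne', log_pow]
  push_cast
  field_simp
  ring

/-- the decreasing part -/
def pp (z : ℝ) : ℝ := 11 * (Ah z - 3 * Ah (z / 3)) + 12 * Ah (z / 4)

/-- derivative of `pp` -/
def pp' (z : ℝ) : ℝ := 11 * (arctan z - arctan (z / 3)) + 3 * arctan (z / 4)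

theorem hasDerivAt_pp (z : ℝ) : HasDerivAt pp (pp' z) z := by
  have h1 := hasDerivAt_Ah z
  have h2 : HasDerivAt (fun z => Ah (z / 3)) (arctan (z / 3) * (1 / 3)) z :=
    HasDerivAt.comp (h₂ := Ah) (h := fun z : ℝ => z / 3) z (hasDerivAt_Ah (z / 3))
      ((hasDerivAt_id z).div_const 3)
  have h3 : HasDerivAt (fun z => Ah (z / 4)) (arctan (z / 4) * (1 / 4)) z :=
    HasDerivAt.comp (h₂ := Ah) (h := fun z : ℝ => z / 4) z (hasDerivAt_Ah (z / 4))
      ((hasDerivAt_id z).div_const 4)
  have h4 := ((h1.sub (h2.const_mul 3)).const_mul 11).add (h3.const_mul 12)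
  refine h4.congr_deriv ?_
  unfold pp'
  ring

theorem Ah_zero : Ah 0 = 0 := by simp [Ah]

theorem pp_zero : pp 0 = 0 := by simp [pp, Ah_zero]

/-- the exponent function -/
def hh (z : ℝ) : ℝ := 3 * GG 4 z + 11 * (GG 1 z - GG 3 z) - 2 * π * z

theorem hh_eq {z : ℝ} (hz : 0 < z) :
    hh z = 10 + 24 * log 2 - 33 * log 3 - π / 2 * z - pp z := by
  unfold hh pp
  rw [GG_eq (by norm_num) hz, GG_eq (by norm_num) hz, GG_eq (by norm_num) hz, log_one, div_one]
  have : log 4 = 2 * log 2 := by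
    rw [show (4:ℝ) = 2 ^ 2 by norm_num, log_pow]; push_cast; ring
  rw [this]
  ring

/-- lower bound of the derivative for small `z` -/
theorem pp'_small {z : ℝ} (hz : 0 ≤ z) :
    97 / 12 * z - 707 / 192 * z ^ 3 ≤ pp' z := by
  unfold pp'
  have h1 := le_arctan hz
  have h2 := arctan_le (show 0 ≤ z / 3 by positivity)
  have h3 := le_arctan (show 0 ≤ z / 4 by positivity)
  have h4 : (z / 4) ^ 3 = z ^ 3 / 64 := by ring
  rw [h4] at h3
  linarith

theorem pp_small {z : ℝ} (hz : 0 ≤ z) : 97 / 24 * z ^ 2 - 707 / 768 * z ^ 4 ≤ pp z := by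
  have h := le_of_deriv_nonneg (f := fun t => pp t - (97 / 24 * t ^ 2 - 707 / 768 * t ^ 4))
    (f' := fun t => pp' t - (97 / 12 * t - 707 / 192 * t ^ 3))
    (a := 0) (x := z) (fun t _ => by
      have h1 : HasDerivAt (fun t : ℝ => 97 / 24 * t ^ 2 - 707 / 768 * t ^ 4)
          (97 / 12 * t - 707 / 192 * t ^ 3) t := by
        have h2 := ((hasDerivAt_pow 2 t).const_mul (97 / 24)).sub
          ((hasDerivAt_pow 4 t).const_mul (707 / 768))
        refine h2.congr_deriv ?_
        push_cast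
        ring
      exact (hasDerivAt_pp t).sub h1) (fun t ht => by
      have := pp'_small ht
      linarith) hz
  simp only [pp_zero] at h
  norm_num at h
  linarith

theorem pp_small' {z : ℝ} (hz : 0 ≤ z) (hz1 : z ≤ 17 / 20) : 33 / 10 * z ^ 2 ≤ pp z := by
  refine le_trans ?_ (pp_small hz)
  have h1 : z ^ 2 ≤ (17 / 20) ^ 2 := by nlinarith
  have h2 : 0 ≤ z ^ 2 := sq_nonneg z
  have h3 : z ^ 4 = z ^ 2 * z ^ 2 := by ring
  rw [h3]
  nlinarith

theorem arctan_sub_eq (z : ℝ) : arctan z - arctan (z / 3) = arctan (2 * z / (3 + z ^ 2)) := by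
  have h := arctan_add (x := z) (y := -(z / 3)) (by nlinarith [sq_nonneg z])
  rw [arctan_neg] at h
  have h2 : (z + -(z / 3)) / (1 - z * -(z / 3)) = 2 * z / (3 + z ^ 2) := by
    have : (0:ℝ) < 3 + z ^ 2 := by positivity
    rw [div_eq_div_iff (by nlinarith [sq_nonneg z]) this.ne']
    ring
  rw [h2] at h
  linarith

theorem arctan_sub_ge {z : ℝ} (hz : 0 ≤ z) :
    16 / 9 * (z / (3 + z ^ 2)) ≤ arctan z - arctan (z / 3) := by
  rw [arctan_sub_eq]
  have h0 : (0:ℝ) < 3 + z ^ 2 := by positivity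
  set u := z / (3 + z ^ 2) with hu
  have hu0 : 0 ≤ u := by positivity
  have h1 : 2 * z / (3 + z ^ 2) = 2 * u := by rw [hu]; ring
  rw [h1]
  have h2 : u ^ 2 ≤ 1 / 12 := by
    rw [hu, div_pow, div_le_iff₀ (by positivity)]
    nlinarith [sq_nonneg (z ^ 2 - 3)]
  have h3 := le_arctan (show 0 ≤ 2 * u by positivity)
  refine le_trans ?_ h3
  have h4 : (2 * u) ^ 3 / 3 = 8 / 3 * (u * u ^ 2) := by ring
  rw [h4]
  nlinarith [mul_le_mul_of_nonneg_left h2 hu0]

theorem pp'_large {z : ℝ} (hz : 17 / 20 ≤ z) : 37 / 10 ≤ pp' z := by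
  have hz0 : 0 ≤ z := by linarith
  have h1 := arctan_sub_ge hz0
  unfold pp'
  have h0 : (0:ℝ) < 3 + z ^ 2 := by positivity
  rcases le_or_gt z 4 with h | h
  · have h2 : 0 ≤ arctan (z / 4) := arctan_nonneg.mpr (by positivity)
    have h3 : 333 / 1760 ≤ z / (3 + z ^ 2) := by
      rw [le_div_iff₀ h0]
      nlinarith
    nlinarith
  · have h2 : arctan (z / 4) = π / 2 - arctan (4 / z) := by
      rw [← inv_div z 4, arctan_inv_of_pos (by positivity)]
      ring
    have h3 := arctan_le (show 0 ≤ 4 / z by positivity)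
    have h4 : 12 / 11 / z ≤ 16 / 9 * (z / (3 + z ^ 2)) := by
      rw [← mul_div_assoc, div_le_div_iff₀ (by positivity) h0]
      nlinarith
    have h5 : 12 / 11 / z = 12 / 11 * (1 / z) := by ring
    have h6 : 4 / z = 4 * (1 / z) := by ring
    rw [h2]
    rw [h5] at h4
    rw [h6] at h3 ⊢
    nlinarith [pi_gt_three]

theorem pp_large {z : ℝ} (hz : 17 / 20 ≤ z) : 2384 / 1000 + 37 / 10 * (z - 17 / 20) ≤ pp z := by
  have h := le_of_deriv_nonneg (f := fun t => pp t - 37 / 10 * t)
    (f' := fun t => pp' t - 37 / 10)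
    (a := 17 / 20) (x := z) (fun t _ => by
      have h1 : HasDerivAt (fun t : ℝ => 37 / 10 * t) (37 / 10) t := by
        simpa using (hasDerivAt_id t).const_mul (37 / 10 : ℝ)
      exact (hasDerivAt_pp t).sub h1) (fun t ht => by
      have := pp'_large ht
      linarith) hz
  have h2 := pp_small' (z := 17 / 20) (by norm_num) le_rfl
  linarith

theorem pp_nonneg {z : ℝ} (hz : 0 ≤ z) : 0 ≤ pp z := by
  rcases le_or_gt z (17 / 20) with h | h
  · exact le_trans (by positivity) (pp_small' hz h)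
  · have := pp_large h.le
    linarith

/-- the logarithmic weight -/
def L0 (z : ℝ) : ℝ := log z + log (16 + z ^ 2) / 2

theorem log16_small (z : ℝ) : log (16 + z ^ 2) / 2 ≤ 2 * log 2 + z ^ 2 / 32 := by
  have h1 : 16 + z ^ 2 = 2 ^ 4 * (1 + z ^ 2 / 16) := by ring
  have h2 : 0 < 1 + z ^ 2 / 16 := by positivity
  have h3 := log_le_sub_one_of_pos h2
  rw [h1, log_mul (by norm_num) h2.ne', log_pow]
  push_cast
  linarith

theorem log16_large {z : ℝ} (hz : 17 / 20 ≤ z) :
    log (16 + z ^ 2) / 2 ≤ 2 * log 2 + (17 / 20) ^ 2 / 32 + (z - 17 / 20) / 8 := by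
  have h := le_of_deriv_nonneg (f := fun t => t / 8 - log (16 + t ^ 2) / 2)
    (f' := fun t => 1 / 8 - 2 * t / (16 + t ^ 2) / 2)
    (a := 17 / 20) (x := z) (fun t _ => by
      have h0 : 0 < 16 + t ^ 2 := by positivity
      have h1 : HasDerivAt (fun t : ℝ => 16 + t ^ 2) (2 * t) t := by
        simpa using (hasDerivAt_pow 2 t).const_add 16
      exact ((hasDerivAt_id t).div_const 8).sub ((h1.log h0.ne').div_const 2)) (fun t ht => by
      have h0 : 0 < 16 + t ^ 2 := by positivity
      have : 2 * t / (16 + t ^ 2) ≤ 1 / 4 := by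
        rw [div_le_div_iff₀ h0 (by norm_num)]
        nlinarith [sq_nonneg (t - 4)]
      linarith) hz
  have h2 := log16_small (17 / 20)
  linarith

theorem log_tangent {z t : ℝ} (hz : 0 < z) (ht : 0 < t) : log z ≤ log t + (z / t - 1) := by
  have h := log_le_sub_one_of_pos (show 0 < z / t by positivity)
  rw [log_div hz.ne' ht.ne'] at h
  linarith

theorem cert0 {z : ℝ} (hz : 0 < z) : hh z ≤ -19 / 2 - z / 100 := by
  rw [hh_eq hz]
  have h1 := pp_nonneg hz.le
  have h2 := log_two_lt_d9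
  have h3 := log_three_gt_d9
  have h4 := pi_gt_three
  nlinarith

theorem cert1 {z : ℝ} (hz : 0 < z) : hh z + 7 / 3 * L0 z ≤ -47 / 5 - z / 100 := by
  rw [hh_eq hz]
  unfold L0
  have h2 := log_two_lt_d9
  have h2' := log_two_gt_d9
  have h3 := log_three_gt_d9
  have h4 := pi_gt_d4
  rcases le_or_gt z (17 / 20) with h | h
  · have h5 := pp_small' hz.le h
    have h6 := log16_small z
    have h7 := log_tangent hz (show (0:ℝ) < 1 / 2 by norm_num)
    have h8 : log (1 / 2) = - log 2 := by rw [one_div, log_inv]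
    rw [h8] at h7
    nlinarith [sq_nonneg (z - 12 / 25)]
  · have h5 := pp_large h.le
    have h6 := log16_large h.le
    have h7 := log_tangent hz (show (0:ℝ) < 1 by norm_num)
    rw [log_one] at h7
    nlinarith

theorem cert2 {z : ℝ} (hz : 0 < z) : hh z + 14 / 3 * L0 z ≤ -37 / 5 - z / 100 := by
  rw [hh_eq hz]
  unfold L0
  have h2 := log_two_lt_d9
  have h2' := log_two_gt_d9
  have h3 := log_three_gt_d9
  have h3' := log_three_lt_d9
  have h4 := pi_gt_d4
  rcases le_or_gt z (17 / 20) with h | h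
  · have h5 := pp_small' hz.le h
    have h6 := log16_small z
    have h7 := log_tangent hz (show (0:ℝ) < 3 / 4 by norm_num)
    have h8 : log (3 / 4) = log 3 - 2 * log 2 := by
      rw [log_div (by norm_num) (by norm_num), show (4:ℝ) = 2 ^ 2 by norm_num, log_pow]
      push_cast
      ring
    rw [h8] at h7
    nlinarith [sq_nonneg (z - 739 / 1000)]
  · have h5 := pp_large h.le
    have h6 := log16_large h.le
    have h7 := log_tangent hz (show (0:ℝ) < 1 by norm_num)
    rw [log_one] at h7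
    nlinarith

/-- the certificate, interpolated -/
theorem cert {z s : ℝ} (hz : 0 < z) (hs : 0 ≤ s) (hs2 : s ≤ 14 / 3) :
    hh z + s * L0 z ≤ ch s - z / 100 := by
  have h0 := cert0 hz
  have h1 := cert1 hz
  have h2 := cert2 hz
  unfold ch
  rcases le_or_gt s (7 / 3) with h | h
  · have h3 : hh z + s * L0 z ≤ -19 / 2 + (3 / 70) * s - z / 100 := by
      -- convex combination with weight t = 3 s / 7
      have e1 := mul_le_mul_of_nonneg_left h0 (show 0 ≤ 1 - 3 / 7 * s by linarith)
      have e2 := mul_le_mul_of_nonneg_left h1 (show 0 ≤ 3 / 7 * s by linarith)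
      nlinarith
    have := le_max_left (-19 / 2 + (3 / 70) * s) (-47 / 5 + (6 / 7) * (s - 7 / 3))
    linarith
  · have h3 : hh z + s * L0 z ≤ -47 / 5 + (6 / 7) * (s - 7 / 3) - z / 100 := by
      have e1 := mul_le_mul_of_nonneg_left h1 (show 0 ≤ 2 - 3 / 7 * s by linarith)
      have e2 := mul_le_mul_of_nonneg_left h2 (show 0 ≤ 3 / 7 * s - 1 by linarith)
      nlinarith
    have := le_max_right (-19 / 2 + (3 / 70) * s) (-47 / 5 + (6 / 7) * (s - 7 / 3))
    linarith

/-- Lipschitz bound for `hh` -/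
theorem hh_lip {z w : ℝ} (hz : 0 < z) (hzw : z ≤ w) : hh z ≤ hh w + 24 * (w - z) := by
  rw [hh_eq hz, hh_eq (hz.trans_le hzw)]
  have h := le_of_deriv_nonneg (f := fun t => 22 * t - pp t)
    (f' := fun t => 22 - pp' t)
    (a := z) (x := w) (fun t _ => by
      have h1 : HasDerivAt (fun t : ℝ => 22 * t) 22 t := by
        simpa using (hasDerivAt_id t).const_mul (22 : ℝ)
      exact h1.sub (hasDerivAt_pp t)) (fun t ht => by
      have ht0 : 0 < t := by linarith
      have e1 := arctan_lt_pi_div_two t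
      have e2 : 0 ≤ arctan (t / 3) := arctan_nonneg.mpr (by positivity)
      have e3 := arctan_lt_pi_div_two (t / 4)
      unfold pp'
      have := pi_lt_d4
      linarith) hzw
  have := pi_lt_d4
  nlinarith

end Arch

end

end Z579
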