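import Pool.Agent.Lib.Z579.Defs

/-!
# Exponential decay of the kernel `∑_n (t+n)^{-(r+1)}` on the line `Re t = -1/2`
-/

set_option autoImplicit false

open Complex

namespace Z579

noncomputable section

namespace Arch

theorem tt_neg (y : ℝ) : tt (-y) = (starRingEnd ℂ) (tt y) := by
  unfold tt
  simp [map_ofNat]

theorem tt_re (y : ℝ) : (tt y).re = -(1 / 2) := by
  simp [tt]

theorem tt_im (y : ℝ) : (tt y).im = y := by
  simp [tt]

theorem Ker_conj (r : ℕ) (t : ℂ) : Ker r ((starRingEnd ℂ) t) = (starRingEnd ℂ) (Ker r t) := by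
  unfold Ker
  rw [Complex.conj_tsum]
  congr 1
  ext n
  simp

theorem Ker_norm_neg (r : ℕ) (y : ℝ) : ‖Ker r (tt (-y))‖ = ‖Ker r (tt y)‖ := by
  rw [tt_neg, Ker_conj, Complex.norm_conj]

theorem Ker_bound_small (r : ℕ) (hr : 2 ≤ r) (y : ℝ) :
    ‖Ker r (tt y)‖ ≤ ∑' n : ℤ, 1 / |(n : ℝ) + (-(1 / 2))| ^ ((r : ℝ) + 1) := by
  have hs : Summable (fun n : ℤ ↦ 1 / |(n : ℝ) + (-(1 / 2))| ^ ((r : ℝ) + 1)) := by
    rw [Real.summable_one_div_int_add_rpow]
    have : (2:ℝ) ≤ r := by exact_mod_cast hr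
    linarith
  unfold Ker
  refine tsum_of_norm_bounded hs.hasSum fun n => ?_
  have h0 : |(n : ℝ) + (-(1 / 2))| ≤ ‖tt y + (n : ℂ)‖ := by
    have := Complex.abs_re_le_norm (tt y + (n : ℂ))
    rw [Complex.add_re, tt_re] at this
    simpa [add_comm] using this
  have h1 : 0 < |(n : ℝ) + (-(1 / 2))| := by
    rw [abs_pos]
    intro h
    have h2 : (2 : ℝ) * n = 1 := by linarith
    have h3 : (2 : ℤ) * n = 1 := by exact_mod_cast h2
    omega
  have h2 : |(n : ℝ) + (-(1 / 2))| ^ ((r : ℝ) + 1) = |(n : ℝ) + (-(1 / 2))| ^ (r + 1) := by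
    have : ((r : ℝ) + 1) = ((r + 1 : ℕ) : ℝ) := by push_cast; ring
    rw [this, Real.rpow_natCast]
  rw [h2, norm_div, norm_pow, norm_one]
  exact one_div_le_one_div_of_le (by positivity) (pow_le_pow_left₀ h1.le h0 _)

theorem Ker_bound_large (r : ℕ) (hr : 2 ≤ r) {y : ℝ} (hy : 1 ≤ y) :
    ‖Ker r (tt y)‖ ≤ ((2 * Real.pi) ^ (r + 1) * (2 * ∑' n : ℕ, (n : ℝ) ^ r * (1 / 2) ^ n)) *
      Real.exp (-(2 * Real.pi * y)) := by
  have him : 0 < (tt y).im := by rw [tt_im]; linarith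
  have hid := EisensteinSeries.qExpansion_identity (k := r) (by omega) ⟨tt y, him⟩
  have hS : Summable (fun n : ℕ => (n : ℝ) ^ r * (1 / 2 : ℝ) ^ n) :=
    summable_pow_mul_geometric_of_norm_lt_one r (by norm_num)
  have hker : Ker r (tt y) = ((-2 * Real.pi * I) ^ (r + 1) / (r.factorial : ℂ)) *
    ∑' n : ℕ, (n : ℂ) ^ r * cexp (2 * Real.pi * I * tt y) ^ n := hid
  have hq : ‖cexp (2 * Real.pi * I * tt y)‖ = Real.exp (-(2 * Real.pi * y)) := by
    rw [Complex.norm_exp]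
    congr 1
    simp [tt]
  set x := Real.exp (-(2 * Real.pi * y)) with hx
  have hx0 : 0 < x := Real.exp_pos _
  have hx1 : x ≤ 1 / 2 := by
    have h1 : (1:ℝ) ≤ 2 * Real.pi * y := by nlinarith [Real.pi_gt_three]
    have h2 : x ≤ Real.exp (-1) := Real.exp_le_exp.mpr (by linarith)
    have h3 : Real.exp (-1) ≤ 1 / 2 := by
      rw [Real.exp_neg, one_div]
      exact inv_anti₀ (by norm_num) (by linarith [Real.add_one_le_exp (1:ℝ)])
    linarith
  have hterm : ∀ n : ℕ, ‖(n : ℂ) ^ r * cexp (2 * Real.pi * I * tt y) ^ n‖ ≤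
      x * (2 * ((n : ℝ) ^ r * (1 / 2) ^ n)) := by
    intro n
    rw [norm_mul, norm_pow, norm_pow, hq, Complex.norm_natCast]
    rcases Nat.eq_zero_or_pos n with h | h
    · subst h
      have : (0:ℝ) ^ r = 0 := zero_pow (by omega)
      simp [this]
    · obtain ⟨m, rfl⟩ : ∃ m, n = m + 1 := ⟨n - 1, by omega⟩
      have h1 : x ^ (m + 1) ≤ x * (2 * (1 / 2) ^ (m + 1)) := by
        rw [pow_succ, pow_succ]
        have := pow_le_pow_left₀ hx0.le hx1 m
        nlinarith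
      have h2 : (0:ℝ) ≤ ((m + 1 : ℕ) : ℝ) ^ r := by positivity
      calc ((m + 1 : ℕ) : ℝ) ^ r * x ^ (m + 1) ≤
          ((m + 1 : ℕ) : ℝ) ^ r * (x * (2 * (1 / 2) ^ (m + 1))) :=
            mul_le_mul_of_nonneg_left h1 h2
        _ = _ := by ring
  have hsum : ‖∑' n : ℕ, (n : ℂ) ^ r * cexp (2 * Real.pi * I * tt y) ^ n‖ ≤
      x * (2 * ∑' n : ℕ, (n : ℝ) ^ r * (1 / 2) ^ n) := by
    refine tsum_of_norm_bounded ?_ hterm
    exact (hS.hasSum.mul_left 2).mul_left x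
  rw [hker, norm_mul, norm_div, norm_pow, Complex.norm_natCast]
  have hpi : ‖-2 * (Real.pi : ℂ) * I‖ = 2 * Real.pi := by
    rw [norm_mul, norm_mul, Complex.norm_I, norm_neg, Complex.norm_real, Real.norm_eq_abs,
      abs_of_pos Real.pi_pos]
    simp
  rw [hpi]
  have hf : (1:ℝ) ≤ r.factorial := by exact_mod_cast Nat.one_le_iff_ne_zero.mpr r.factorial_ne_zero
  have h1 : (2 * Real.pi) ^ (r + 1) / (r.factorial : ℝ) ≤ (2 * Real.pi) ^ (r + 1) :=
    div_le_self (by positivity) hf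
  have hS0 : 0 ≤ ∑' n : ℕ, (n : ℝ) ^ r * (1 / 2 : ℝ) ^ n := tsum_nonneg fun n => by positivity
  calc _ ≤ (2 * Real.pi) ^ (r + 1) * (x * (2 * ∑' n : ℕ, (n : ℝ) ^ r * (1 / 2) ^ n)) := by
        gcongr
    _ = _ := by ring

/-- exponential decay of the kernel -/
theorem Ker_bound (r : ℕ) (hr : 2 ≤ r) : ∃ C : ℝ, 0 < C ∧ ∀ y : ℝ,
    ‖Ker r (tt y)‖ ≤ C * Real.exp (-(2 * Real.pi * |y|)) := by
  set C1 := (2 * Real.pi) ^ (r + 1) * (2 * ∑' n : ℕ, (n : ℝ) ^ r * (1 / 2) ^ n) with hC1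
  set C2 := ∑' n : ℤ, 1 / |(n : ℝ) + (-(1 / 2))| ^ ((r : ℝ) + 1) with hC2
  have h1 : 0 ≤ C1 := by
    have hS0 : 0 ≤ ∑' n : ℕ, (n : ℝ) ^ r * (1 / 2 : ℝ) ^ n := tsum_nonneg fun n => by positivity
    positivity
  have h2 : 0 ≤ C2 := tsum_nonneg fun n => by positivity
  have key : ∀ y : ℝ, 0 ≤ y → ‖Ker r (tt y)‖ ≤
      (C1 + C2 * Real.exp (2 * Real.pi) + 1) * Real.exp (-(2 * Real.pi * y)) := by
    intro y hy
    rcases le_or_gt 1 y with h | h
    · refine (Ker_bound_large r hr h).trans ?_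
      have : 0 ≤ C2 * Real.exp (2 * Real.pi) := by positivity
      exact mul_le_mul_of_nonneg_right (by linarith) (Real.exp_pos _).le
    · refine (Ker_bound_small r hr y).trans ?_
      have h3 : 1 ≤ Real.exp (2 * Real.pi) * Real.exp (-(2 * Real.pi * y)) := by
        rw [← Real.exp_add]
        refine Real.one_le_exp ?_
        nlinarith [Real.pi_pos]
      have h4 : 0 ≤ (C1 + 1) * Real.exp (-(2 * Real.pi * y)) := by positivity
      calc C2 = C2 * 1 := by ring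
        _ ≤ C2 * (Real.exp (2 * Real.pi) * Real.exp (-(2 * Real.pi * y))) :=
          mul_le_mul_of_nonneg_left h3 h2
        _ ≤ _ := by nlinarith
  refine ⟨C1 + C2 * Real.exp (2 * Real.pi) + 1, by positivity, fun y => ?_⟩
  rcases le_or_gt 0 y with h | h
  · rw [abs_of_nonneg h]
    exact key y h
  · rw [abs_of_neg h, ← neg_neg y, Ker_norm_neg, neg_neg]
    exact key (-y) (by linarith)

end Arch

end

end Z579
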