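import Pool.Agent.Lib.Z579.Defs

/-!
# Upper bound for the rational function on the line `Re t = -1/2`
-/

set_option autoImplicit false

open Real

namespace Z579

noncomputable section

namespace Arch

/-- `log |s + i y|` -/
def gg (s y : ℝ) : ℝ := log (s ^ 2 + y ^ 2) / 2

/-- `∫_0^σ log |s + i y| ds` -/
def GG (σ y : ℝ) : ℝ := σ / 2 * log (σ ^ 2 + y ^ 2) - σ + y * arctan (σ / y)

theorem hasDerivAt_GG {y : ℝ} (hy : 0 < y) (σ : ℝ) :
    HasDerivAt (fun s => GG s y) (gg σ y) σ := by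
  have h0 : 0 < σ ^ 2 + y ^ 2 := by positivity
  have h1 : HasDerivAt (fun s : ℝ => s ^ 2 + y ^ 2) (2 * σ) σ := by
    simpa using (hasDerivAt_pow 2 σ).add_const (y ^ 2)
  have h2 := h1.log h0.ne'
  have h3 : HasDerivAt (fun s : ℝ => s / 2) (1 / 2) σ := (hasDerivAt_id σ).div_const 2
  have h4 := h3.mul h2
  have h5 : HasDerivAt (fun s : ℝ => s / y) (1 / y) σ := (hasDerivAt_id σ).div_const y
  have h6 := (h5.arctan).const_mul y
  have h7 := (h4.sub (hasDerivAt_id σ)).add h6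
  refine h7.congr_deriv ?_
  unfold gg
  have hy' := hy.ne'
  field_simp
  ring

theorem gg_mono {s t y : ℝ} (hs : 0 ≤ s) (hst : s ≤ t) (hy : 0 < y) : gg s y ≤ gg t y := by
  unfold gg
  have : s ^ 2 + y ^ 2 ≤ t ^ 2 + y ^ 2 := by nlinarith
  have h2 : 0 < s ^ 2 + y ^ 2 := by positivity
  have := log_le_log h2 this
  linarith

theorem GG_sub_le {s t y : ℝ} (hs : 0 ≤ s) (hst : s ≤ t) (hy : 0 < y) :
    GG t y - GG s y ≤ (t - s) * gg t y := by
  rcases hst.eq_or_lt with h | h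
  · subst h; simp
  obtain ⟨c, hc, hc2⟩ := exists_hasDerivAt_eq_slope (fun s => GG s y) (fun s => gg s y) h
    (fun x _ => (hasDerivAt_GG hy x).continuousAt.continuousWithinAt)
    (fun x _ => hasDerivAt_GG hy x)
  rw [eq_div_iff (by linarith)] at hc2
  have h3 := gg_mono (hs.trans hc.1.le) hc.2.le hy
  have h4 : 0 < t - s := by linarith
  rw [← hc2]
  nlinarith

theorem le_GG_sub {s t y : ℝ} (hs : 0 ≤ s) (hst : s ≤ t) (hy : 0 < y) :
    (t - s) * gg s y ≤ GG t y - GG s y := by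
  rcases hst.eq_or_lt with h | h
  · subst h; simp
  obtain ⟨c, hc, hc2⟩ := exists_hasDerivAt_eq_slope (fun s => GG s y) (fun s => gg s y) h
    (fun x _ => (hasDerivAt_GG hy x).continuousAt.continuousWithinAt)
    (fun x _ => hasDerivAt_GG hy x)
  rw [eq_div_iff (by linarith)] at hc2
  have h3 := gg_mono hs hc.1.le hy
  have h4 : 0 < t - s := by linarith
  rw [← hc2]
  nlinarith

/-- upper bound of a half-integer sum -/
theorem sum_gg_le {M N : ℕ} (h : M ≤ N) {y : ℝ} (hy : 0 < y) :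
    ∑ k ∈ Finset.Ico M N, gg (k + 1 / 2) y ≤ GG (N + 1 / 2) y - GG (M + 1 / 2) y := by
  induction N, h using Nat.le_induction with
  | base => simp
  | succ N hN ih =>
    rw [Finset.sum_Ico_succ_top hN]
    have h1 := le_GG_sub (s := (N:ℝ) + 1 / 2) (t := ((N + 1 : ℕ) : ℝ) + 1 / 2) (by positivity)
      (by push_cast; linarith) hy
    have h2 : (((N + 1 : ℕ) : ℝ) + 1 / 2 - ((N:ℝ) + 1 / 2)) = 1 := by push_cast; ring
    rw [h2, one_mul] at h1
    linarith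

/-- lower bound of a half-integer sum -/
theorem le_sum_gg {M N : ℕ} (hM : 1 ≤ M) (h : M ≤ N) {y : ℝ} (hy : 0 < y) :
    GG (N - 1 / 2) y - GG (M - 1 / 2) y ≤ ∑ k ∈ Finset.Ico M N, gg (k + 1 / 2) y := by
  induction N, h using Nat.le_induction with
  | base => simp
  | succ N hN ih =>
    rw [Finset.sum_Ico_succ_top hN]
    have hM' : (1:ℝ) ≤ N := by exact_mod_cast hM.trans hN
    have h1 := GG_sub_le (s := (N:ℝ) - 1 / 2) (t := ((N + 1 : ℕ) : ℝ) - 1 / 2) (by linarith)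
      (by push_cast; linarith) hy
    have h2 : (((N + 1 : ℕ) : ℝ) - 1 / 2 - ((N:ℝ) - 1 / 2)) = 1 := by push_cast; ring
    have h3 : (((N + 1 : ℕ) : ℝ) - 1 / 2) = N + 1 / 2 := by push_cast; ring
    rw [h2, one_mul, h3] at h1
    have h4 : (((N + 1 : ℕ) : ℝ) - 1 / 2) = N + 1 / 2 := h3
    rw [h4]
    linarith

/-- homogeneity -/
theorem GG_scale {a σ Y : ℝ} (ha : 0 < a) (hY : 0 < Y) :
    GG (a * σ) (a * Y) = a * (GG σ Y + σ * log a) := by
  unfold GG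
  have h1 : (a * σ) ^ 2 + (a * Y) ^ 2 = a ^ 2 * (σ ^ 2 + Y ^ 2) := by ring
  have h2 : 0 < σ ^ 2 + Y ^ 2 := by positivity
  rw [h1, log_mul (by positivity) h2.ne', log_pow, mul_div_mul_left _ _ ha.ne']
  push_cast
  ring


theorem gg_le {s y L : ℝ} (hs : 0 ≤ s) (hy : 0 < y) (hL : s + y ≤ L) : gg s y ≤ log L := by
  unfold gg
  have h1 : s ^ 2 + y ^ 2 ≤ L ^ 2 := by nlinarith
  have h2 := log_le_log (by positivity) h1
  rw [log_pow] at h2
  push_cast at h2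
  linarith

theorem neg_one_le_gg {s y : ℝ} (hs : 1 / 2 ≤ s) (_hy : 0 < y) : -1 ≤ gg s y := by
  unfold gg
  have h1 : (1 / 2 : ℝ) ^ 2 ≤ s ^ 2 + y ^ 2 := by nlinarith
  have h2 := log_le_log (by positivity) h1
  rw [log_pow, one_div, log_inv] at h2
  push_cast at h2
  linarith [log_two_lt_d9]

theorem gg_nonneg {s y : ℝ} (hs : 1 ≤ s) (_hy : 0 < y) : 0 ≤ gg s y := by
  unfold gg
  have h1 : (1 : ℝ) ≤ s ^ 2 + y ^ 2 := by nlinarith
  have h2 := log_nonneg h1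
  linarith

theorem neg_one_le_GG_half {y : ℝ} (hy : 0 < y) : -1 ≤ GG (1 / 2) y := by
  unfold GG
  have h1 : (1 / 2 : ℝ) ^ 2 ≤ (1 / 2) ^ 2 + y ^ 2 := by nlinarith
  have h2 := log_le_log (by positivity) h1
  rw [log_pow, one_div, log_inv] at h2
  push_cast at h2
  have h3 : 0 ≤ y * arctan (1 / 2 / y) :=
    mul_nonneg hy.le (arctan_nonneg.mpr (by positivity))
  rw [one_div] at h3 ⊢
  linarith [log_two_lt_d9]

/-- the norm of a linear factor -/
theorem norm_factor (b : ℕ) (w : ℤ) {y : ℝ} (hy : y ≠ 0) :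
    ‖(b : ℂ) + tt y + (w : ℂ)‖ = exp (gg (b + w - 1 / 2) |y|) := by
  have h1 : ((b : ℂ) + tt y + (w : ℂ)) = ⟨b + w - 1 / 2, y⟩ := by
    apply Complex.ext
    · simp [tt]; ring
    · simp [tt]
  have h2 : 0 < ((b:ℝ) + w - 1 / 2) ^ 2 + |y| ^ 2 := by positivity
  rw [h1, Complex.norm_eq_sqrt_sq_add_sq]
  unfold gg
  rw [exp_half, exp_log h2, sq_abs]

theorem sum_Icc_int (f : ℝ → ℝ) (b M N : ℕ) (lo hi : ℤ) (h1 : lo = M + 1 - b)
    (h2 : hi = N - b) :
    ∑ w ∈ Finset.Icc lo hi, f (b + w - 1 / 2) = ∑ k ∈ Finset.Ico M N, f (k + 1 / 2) := by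
  subst h1 h2
  refine Finset.sum_nbij' (fun w => (w + b - 1).toNat) (fun k => (k : ℤ) + 1 - b) ?_ ?_ ?_ ?_ ?_
  · intro w hw
    rw [Finset.mem_Icc] at hw
    rw [Finset.mem_Ico]
    omega
  · intro k hk
    rw [Finset.mem_Ico] at hk
    rw [Finset.mem_Icc]
    omega
  · intro w hw
    rw [Finset.mem_Icc] at hw
    omega
  · intro k hk
    rw [Finset.mem_Ico] at hk
    omega
  · intro w hw
    rw [Finset.mem_Icc] at hw
    have h3 : (((w + b - 1).toNat : ℕ) : ℝ) = w + b - 1 := by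
      have : (((w + b - 1).toNat : ℕ) : ℤ) = w + b - 1 := by omega
      exact_mod_cast this
    rw [h3]
    congr 1
    ring

theorem norm_prod_oc {a b : ℕ} (ha : 1 ≤ a) (hab : a ≤ b) {y : ℝ} (hy : y ≠ 0) :
    ‖∏ w ∈ oc a b, ((b : ℂ) + tt y + (w : ℂ))‖ =
      exp (∑ k ∈ Finset.Ico 0 (b - a), gg (k + 1 / 2) |y| +
        ∑ k ∈ Finset.Ico (a + b - 1) (2 * b - 1), gg (k + 1 / 2) |y|) := by
  rw [norm_prod, Finset.prod_congr rfl (fun w _ => norm_factor b w hy), ← exp_sum]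
  congr 1
  unfold oc
  rw [Finset.sum_union]
  · rw [sum_Icc_int (fun s => gg s |y|) b 0 (b - a), sum_Icc_int (fun s => gg s |y|) b (a + b - 1) (2 * b - 1)]
    all_goals omega
  · rw [Finset.disjoint_left]
    intro w hw hw'
    rw [Finset.mem_Icc] at hw hw'
    omega

theorem norm_prod_pc {a b : ℕ} (ha : 1 ≤ a) (hab : a ≤ b) {y : ℝ} (hy : y ≠ 0) :
    ‖∏ w ∈ pc a, ((b : ℂ) + tt y + (w : ℂ))‖ =
      exp (∑ k ∈ Finset.Ico (b - a) (a + b - 1), gg (k + 1 / 2) |y|) := by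
  rw [norm_prod, Finset.prod_congr rfl (fun w _ => norm_factor b w hy), ← exp_sum]
  congr 1
  unfold pc
  rw [sum_Icc_int (fun s => gg s |y|) b (b - a) (a + b - 1)]
  all_goals omega

/-- the exponent bounding the rational function -/
def LR (q B a b : ℕ) (y : ℝ) : ℝ :=
  B * GG (2 * b) y + (q + B) * (GG ((b : ℝ) - a) y - GG ((b : ℝ) + a) y) +
    ((B + q) * (2 * log (2 * b + 1 + y) + 1) + 1 + log (2 * b + 1 + y))

theorem Rc_bound {q B a b : ℕ} (ha : 1 ≤ a) (hab : a < b) {y : ℝ} (hy : y ≠ 0) :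
    ‖Rc q B a b (b + tt y)‖ ≤ exp (LR q B a b |y|) := by
  have hy' : 0 < |y| := abs_pos.mpr hy
  have hb1 : (1:ℝ) ≤ a := by exact_mod_cast ha
  have hb2 : (a:ℝ) + 1 ≤ b := by exact_mod_cast hab
  unfold Rc
  have hv : ‖(b : ℂ) + tt y‖ = exp (gg (b - 1 / 2) |y|) := by
    have := norm_factor b 0 hy
    simpa using this
  rw [norm_div, norm_mul, norm_mul, norm_pow, norm_pow, norm_prod_oc ha hab.le hy,
    norm_prod_pc ha hab.le hy, hv, ← exp_nat_mul, ← exp_nat_mul, ← exp_log (show (0:ℝ) < ‖(2:ℂ)‖ by simp),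
    ← exp_add, ← exp_add, ← exp_sub]
  refine exp_le_exp.mpr ?_
  have hl2 : log ‖(2:ℂ)‖ ≤ 1 := by
    have : ‖(2:ℂ)‖ = 2 := by simp
    rw [this]
    linarith [log_two_lt_d9]
  set Y := |y| with hY
  set L := log (2 * b + 1 + Y) with hL
  have hL0 : 0 ≤ L := log_nonneg (by linarith)
  have c1 : (((b - a : ℕ) : ℕ) : ℝ) = b - a := by push_cast [hab.le]; ring
  have c2 : (((a + b - 1 : ℕ) : ℕ) : ℝ) = a + b - 1 := by
    rw [Nat.cast_sub (by omega)]; push_cast; ring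
  have c3 : (((2 * b - 1 : ℕ) : ℕ) : ℝ) = 2 * b - 1 := by
    rw [Nat.cast_sub (by omega)]; push_cast; ring
  -- sums
  have s1 := sum_gg_le (M := 0) (N := b - a) (by omega) hy'
  have s2 := sum_gg_le (M := a + b - 1) (N := 2 * b - 1) (by omega) hy'
  have s3 := le_sum_gg (M := b - a) (N := a + b - 1) (by omega) (by omega) hy'
  rw [c1] at s1 s3
  rw [c2] at s2 s3
  rw [c3] at s2
  have e1 := GG_sub_le (s := (b:ℝ) - a) (t := b - a + 1 / 2) (by linarith) (by linarith) hy'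
  have e1' := gg_le (s := (b:ℝ) - a + 1 / 2) (y := Y) (L := 2 * b + 1 + Y) (by linarith) hy' (by linarith)
  have e2 : -1 ≤ GG (((0:ℕ):ℝ) + 1 / 2) Y := by
    have := neg_one_le_GG_half hy'
    simpa using this
  have e3 := le_GG_sub (s := 2 * (b:ℝ) - 1 + 1 / 2) (t := 2 * b) (by linarith) (by linarith) hy'
  have e3' := gg_nonneg (s := 2 * (b:ℝ) - 1 + 1 / 2) (by linarith) hy'
  have e4 := GG_sub_le (s := (a:ℝ) + b - 1 + 1 / 2) (t := b + a) (by linarith) (by linarith) hy'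
  have e4' := gg_le (s := (b:ℝ) + a) (y := Y) (L := 2 * b + 1 + Y) (by linarith) hy' (by linarith)
  have e5 := GG_sub_le (s := (a:ℝ) + b - 1 - 1 / 2) (t := b + a) (by linarith) (by linarith) hy'
  have e6 := le_GG_sub (s := (b:ℝ) - a - 1 / 2) (t := b - a) (by linarith) (by linarith) hy'
  have e6' := neg_one_le_gg (s := (b:ℝ) - a - 1 / 2) (by linarith) hy'
  have e7 := gg_le (s := (b:ℝ) - 1 / 2) (y := Y) (L := 2 * b + 1 + Y) (by linarith) hy' (by linarith)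
  rw [← hL] at e1' e4' e7
  have hB : (0:ℝ) ≤ B := Nat.cast_nonneg _
  have hq : (0:ℝ) ≤ q := Nat.cast_nonneg _
  set S1 := ∑ k ∈ Finset.Ico 0 (b - a), gg (k + 1 / 2) Y
  set S2 := ∑ k ∈ Finset.Ico (a + b - 1) (2 * b - 1), gg (k + 1 / 2) Y
  set S3 := ∑ k ∈ Finset.Ico (b - a) (a + b - 1), gg (k + 1 / 2) Y
  have t1 : S1 + S2 ≤ GG (b - a) Y - GG (b + a) Y + GG (2 * b) Y + (L + 1) := by
    have r1 : ((b:ℝ) - a + 1 / 2 - (b - a)) = 1 / 2 := by ring
    have r2 : ((b:ℝ) + a - (a + b - 1 + 1 / 2)) = 1 / 2 := by ring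
    rw [r1] at e1
    rw [r2] at e4
    have r3 : (2 * (b:ℝ) - (2 * b - 1 + 1 / 2)) = 1 / 2 := by ring
    rw [r3] at e3
    linarith
  have t2 : GG (b + a) Y - GG (b - a) Y - (2 * L + 1) ≤ S3 := by
    have r1 : ((b:ℝ) - a - (b - a - 1 / 2)) = 1 / 2 := by ring
    rw [r1] at e6
    have r2 : ((b:ℝ) + a - (a + b - 1 - 1 / 2)) = 3 / 2 := by ring
    rw [r2] at e5
    linarith
  have t3 := mul_le_mul_of_nonneg_left t1 hB
  have t4 := mul_le_mul_of_nonneg_left t2 hq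
  have t5 : 0 ≤ (B:ℝ) * L := mul_nonneg hB hL0
  unfold LR
  rw [← hL]
  nlinarith [t3, t4, t5, e7, hl2]

end Arch

end

end Z579
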