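import Pool.Agent.Lib.Z579.E3

/-!
# BE1: energy bound for block Hankel determinants (integer points)
-/

open Finset Polynomial

namespace Z579

namespace BE

open EM

/-- monic polynomial with zeros at the squares of the points -/
noncomputable def PN (Z : List ℕ) : ℂ[X] :=
  (Z.map fun x : ℕ => (X - C ((x : ℂ) ^ 2))).prod

/-- potential of a list at a point -/
noncomputable def potN (Z : List ℕ) (y : ℕ) : ℝ :=
  (Z.map fun z : ℕ => KK (y : ℂ) (z : ℂ)).sum

/-- weighted value -/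
noncomputable def valN (w : ℕ → ℝ) (Z : List ℕ) (y : ℕ) : ℝ := w y * Real.exp (potN Z y)

/-- available points: members of `S`; the sites `a ≤ y` may be used only once -/
def av (a : ℕ) (S : Set ℕ) (Z : List ℕ) (y : ℕ) : Prop := y ∈ S ∧ (a ≤ y → y ∉ Z)

lemma PN_cons (p : ℕ) (Z : List ℕ) : PN (p :: Z) = (X - C ((p : ℂ) ^ 2)) * PN Z := by
  simp [PN]

lemma PN_nil : PN [] = 1 := by simp [PN]

lemma PN_monic (Z : List ℕ) : (PN Z).Monic := by
  induction Z with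
  | nil => simp [PN]
  | cons p Z ih => rw [PN_cons]; exact (monic_X_sub_C _).mul ih

lemma PN_natDegree (Z : List ℕ) : (PN Z).natDegree = Z.length := by
  induction Z with
  | nil => simp [PN]
  | cons p Z ih =>
    rw [PN_cons, (monic_X_sub_C _).natDegree_mul (PN_monic Z), natDegree_X_sub_C, ih,
      List.length_cons, add_comm]

lemma potN_cons (p : ℕ) (Z : List ℕ) (y : ℕ) :
    potN (p :: Z) y = KK (y : ℂ) (p : ℂ) + potN Z y := by simp [potN]

lemma potN_nil (y : ℕ) : potN [] y = 0 := by simp [potN]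

lemma potN_nonneg (Z : List ℕ) (y : ℕ) : 0 ≤ potN Z y := by
  induction Z with
  | nil => simp [potN_nil]
  | cons p Z ih => rw [potN_cons]; linarith [KK_nonneg (y : ℂ) (p : ℂ)]

lemma valN_nonneg {w : ℕ → ℝ} (hw : ∀ y, 0 ≤ w y) (Z : List ℕ) (y : ℕ) : 0 ≤ valN w Z y :=
  mul_nonneg (hw y) (Real.exp_nonneg _)

/-- near maximisers exist -/
lemma exists_nearN {a : ℕ} {S : Set ℕ} {w : ℕ → ℝ} (hw : ∀ y, 0 ≤ w y) (Z : List ℕ)
    (hne : ∃ y, av a S Z y) {V : ℝ} (hV : ∀ y, av a S Z y → valN w Z y ≤ V) :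
    ∃ p, av a S Z p ∧ ∀ y, av a S Z y → valN w Z y ≤ 2 * valN w Z p := by
  classical
  obtain ⟨y0, hy0⟩ := hne
  set T : Set ℝ := {x | ∃ p, av a S Z p ∧ x = valN w Z p} with hT
  have hTne : T.Nonempty := ⟨valN w Z y0, y0, hy0, rfl⟩
  have hbd : BddAbove T := ⟨V, by rintro x ⟨p, hp, rfl⟩; exact hV p hp⟩
  by_cases h0 : sSup T ≤ 0
  · refine ⟨y0, hy0, fun y hy => ?_⟩
    have h1 : valN w Z y ≤ 0 := (le_csSup hbd ⟨y, hy, rfl⟩).trans h0
    have h2 := valN_nonneg hw Z y0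
    linarith
  · push Not at h0
    obtain ⟨x, ⟨p, hp, rfl⟩, hx⟩ := exists_lt_of_lt_csSup hTne (show sSup T / 2 < sSup T by linarith)
    refine ⟨p, hp, fun y hy => ?_⟩
    have h1 := le_csSup hbd (show valN w Z y ∈ T from ⟨y, hy, rfl⟩)
    linarith

/-- the greedy sequence -/
theorem exists_greedyN {a : ℕ} {S : Set ℕ} {w : ℕ → ℝ} (hw : ∀ y, 0 ≤ w y) (m : ℕ)
    (hne : ∀ Z : List ℕ, ∃ y, av a S Z y)
    (Bd : ∀ Z : List ℕ, Z.length < m → ∃ V : ℝ, ∀ y, av a S Z y → valN w Z y ≤ V) :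
    ∃ (Z : ℕ → List ℕ) (p : ℕ → ℕ), Z 0 = [] ∧ (∀ i, Z (i + 1) = p i :: Z i) ∧
      (∀ i, av a S (Z i) (p i)) ∧ (∀ i, (Z i).length = i) ∧
      ∀ i < m, ∀ y, av a S (Z i) y → valN w (Z i) y ≤ 2 * valN w (Z i) (p i) := by
  classical
  have h : ∀ Z : List ℕ, ∃ p, av a S Z p ∧ (Z.length < m →
      ∀ y, av a S Z y → valN w Z y ≤ 2 * valN w Z p) := fun Z => by
    by_cases hZ : Z.length < m
    · obtain ⟨V, hV⟩ := Bd Z hZ
      obtain ⟨p, hp, hp'⟩ := exists_nearN hw Z (hne Z) hV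
      exact ⟨p, hp, fun _ => hp'⟩
    · obtain ⟨p, hp⟩ := hne Z
      exact ⟨p, hp, fun h => absurd h hZ⟩
  choose ch hch1 hch2 using h
  set Z : ℕ → List ℕ := fun i => Nat.rec [] (fun _ z => ch z :: z) i with hZ
  have hZ0 : Z 0 = [] := rfl
  have hZs : ∀ i, Z (i + 1) = ch (Z i) :: Z i := fun i => rfl
  have hlen : ∀ i, (Z i).length = i := by
    intro i
    induction i with
    | zero => rfl
    | succ i ih => rw [hZs, List.length_cons, ih]
  exact ⟨Z, fun i => ch (Z i), hZ0, hZs, fun i => hch1 _, hlen,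
    fun i hi y hy => hch2 _ (by rw [hlen]; exact hi) y hy⟩

lemma pot_greedyN {Z : ℕ → List ℕ} {p : ℕ → ℕ} (h0 : Z 0 = []) (hs : ∀ i, Z (i + 1) = p i :: Z i)
    (y : ℕ) (i : ℕ) : potN (Z i) y = ∑ j ∈ range i, KK (y : ℂ) (p j : ℂ) := by
  induction i with
  | zero => simp [potN, h0]
  | succ i ih =>
    rw [Finset.sum_range_succ, ← ih, hs, potN_cons, add_comm]

lemma mem_greedyN {Z : ℕ → List ℕ} {p : ℕ → ℕ} (hs : ∀ i, Z (i + 1) = p i :: Z i)
    {i j : ℕ} (hij : i < j) : p i ∈ Z j := by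
  induction j, Nat.succ_le_of_lt hij using Nat.le_induction with
  | base => rw [Nat.succ_eq_add_one, hs]; exact List.mem_cons_self
  | succ j hj ih =>
    rw [hs]
    exact List.mem_cons_of_mem _ (ih (by omega))

/-- the product of the greedy values -/
theorem prodN_le {a m : ℕ} {S : Set ℕ} {w : ℕ → ℝ} (hw : ∀ y, 0 ≤ w y) {Z : ℕ → List ℕ}
    {p : ℕ → ℕ} (h0 : Z 0 = []) (hs : ∀ i, Z (i + 1) = p i :: Z i) (hav : ∀ i, av a S (Z i) (p i))
    {κ : Type*} (s : Finset κ) (x : κ → ℂ) (c : κ → ℝ) (hc : ∑ k ∈ s, c k = m)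
    (l : ℝ) (ψ : ℕ → ℝ) (hψ : ∀ y, 0 ≤ ψ y) (F : Finset ℕ) (hF : ∀ y, y < a → ψ y = 0)
    (hF' : ∀ y, y ∉ F → ψ y = 0)
    (h : ∀ y ∈ S, w y * Real.exp (∑ k ∈ s, c k * KK (y : ℂ) (x k)) ≤ Real.exp (l + ψ y)) :
    ∏ i ∈ range m, valN w (Z i) (p i) ≤ Real.exp (m * l + ∑ y ∈ F, ψ y -
      (∑ k ∈ s, ∑ k' ∈ s, c k * c k' * KK (x k) (x k')) / 2) := by
  classical
  have h3 : ∏ i ∈ range m, valN w (Z i) (p i) = (∏ i ∈ range m, w (p i)) *
      Real.exp (∑ i ∈ range m, ∑ j ∈ range i, KK (p i : ℂ) (p j : ℂ)) := by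
    rw [Real.exp_sum, ← Finset.prod_mul_distrib]
    refine Finset.prod_congr rfl fun i _ => ?_
    rw [valN, pot_greedyN h0 hs]
  have h4 := double_sum_le (fun i j => KK (p i : ℂ) (p j : ℂ))
    (fun i j => KK_comm _ _) (fun i j => KK_nonneg _ _) m
  rw [← Finset.mul_sum] at h4
  have h5 := energy_dual (range m) (fun i => (p i : ℂ)) s x c (by rw [hc, card_range])
  have h6 : ∏ i ∈ range m, valN w (Z i) (p i) ≤
      (∏ i ∈ range m, (w (p i) * Real.exp (∑ k ∈ s, c k * KK (p i : ℂ) (x k)))) *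
        Real.exp (-((∑ k ∈ s, ∑ k' ∈ s, c k * c k' * KK (x k) (x k')) / 2)) := by
    rw [h3, Finset.prod_mul_distrib, ← Real.exp_sum, mul_assoc, ← Real.exp_add]
    apply mul_le_mul_of_nonneg_left _ (Finset.prod_nonneg fun i _ => hw _)
    apply Real.exp_le_exp.mpr
    linarith
  refine h6.trans ?_
  rw [sub_eq_add_neg, Real.exp_add]
  apply mul_le_mul_of_nonneg_right _ (Real.exp_pos _).le
  have h7 : ∀ i ∈ range m, w (p i) * Real.exp (∑ k ∈ s, c k * KK (p i : ℂ) (x k)) ≤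
      Real.exp (l + ψ (p i)) := fun i _ => h _ (hav i).1
  refine (Finset.prod_le_prod (fun i _ => mul_nonneg (hw _) (Real.exp_pos _).le) h7).trans ?_
  rw [← Real.exp_sum]
  apply Real.exp_le_exp.mpr
  rw [Finset.sum_add_distrib, Finset.sum_const, card_range, nsmul_eq_mul]
  have h8 : ∑ i ∈ range m, ψ (p i) ≤ ∑ y ∈ F, ψ y := by
    set I := (range m).filter (fun i => a ≤ p i ∧ p i ∈ F) with hI
    have e1 : ∑ i ∈ range m, ψ (p i) = ∑ i ∈ I, ψ (p i) := by
      rw [hI, Finset.sum_filter]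
      refine Finset.sum_congr rfl fun i _ => ?_
      split_ifs with hc
      · rfl
      · rw [not_and_or] at hc
        rcases hc with hc | hc
        · exact hF _ (by omega)
        · exact hF' _ hc
    have hinj : Set.InjOn p I := by
      intro i hi j hj hij
      rw [hI, coe_filter, Set.mem_ofPred_eq, mem_range] at hi hj
      by_contra hne
      rcases Nat.lt_or_gt_of_ne hne with hlt | hlt
      · exact (hav j).2 hj.2.1 (by rw [← hij]; exact mem_greedyN hs hlt)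
      · exact (hav i).2 hi.2.1 (by rw [hij]; exact mem_greedyN hs hlt)
    rw [e1, ← Finset.sum_image (f := ψ) (g := p) hinj]
    refine Finset.sum_le_sum_of_subset_of_nonneg ?_ fun y _ _ => hψ y
    intro y hy
    rw [Finset.mem_image] at hy
    obtain ⟨i, hi, rfl⟩ := hy
    rw [hI, Finset.mem_filter] at hi
    exact hi.2.2
  linarith

/-! ## block determinants -/

section block

variable {β : Type*} [Fintype β] [DecidableEq β]

lemma sum_coeff_rep (P : ℂ[X]) (m : ℕ) (h : P.natDegree < m) :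
    P = ∑ k : Fin m, P.coeff k • (X ^ (k : ℕ) : ℂ[X]) := by
  conv_lhs => rw [P.as_sum_range' m h]
  rw [Finset.sum_range]
  refine Finset.sum_congr rfl fun k _ => ?_
  rw [← C_mul_X_pow_eq_monomial, smul_eq_C_mul]

/-- change of bases -/
theorem block_basis (K : β → ℕ) (M : ℕ) (e : (Σ b, Fin (K b)) ≃ Fin M)
    (L : β → (ℂ[X] →ₗ[ℂ] ℂ)) (P : ℕ → ℂ[X]) (hm : ∀ i, (P i).Monic) (hd : ∀ i, (P i).natDegree = i)
    (Q : β → ℕ → ℂ[X]) (hmQ : ∀ b i, (Q b i).Monic) (hdQ : ∀ b i, (Q b i).natDegree = i) :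
    Matrix.det (Matrix.of fun i j : (Σ b, Fin (K b)) => L j.1 (X ^ ((e i : ℕ) + (j.2 : ℕ)))) =
      Matrix.det (Matrix.of fun i j : (Σ b, Fin (K b)) => L j.1 (P (e i) * Q j.1 j.2)) := by
  classical
  set N0 := Matrix.of fun i j : (Σ b, Fin (K b)) => L j.1 (X ^ ((e i : ℕ) + (j.2 : ℕ))) with hN0
  set N1 := Matrix.of fun i j : (Σ b, Fin (K b)) => L j.1 (P (e i) * X ^ (j.2 : ℕ)) with hN1
  set N2 := Matrix.of fun i j : (Σ b, Fin (K b)) => L j.1 (P (e i) * Q j.1 j.2) with hN2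
  -- rows
  set A0 : Matrix (Fin M) (Fin M) ℂ := Matrix.of fun i k => (P i).coeff k with hA0
  have hA0det : A0.det = 1 := by
    rw [Matrix.det_of_isLowerTriangular]
    · refine Finset.prod_eq_one fun i _ => ?_
      rw [hA0, Matrix.of_apply]
      have := hm i
      rw [Monic, leadingCoeff, hd] at this
      exact this
    · intro i j hij
      rw [hA0, Matrix.of_apply]
      apply coeff_eq_zero_of_natDegree_lt
      rw [hd]
      exact hij
  have hr : N1 = A0.submatrix e e * N0 := by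
    ext i j
    rw [Matrix.mul_apply, hN1, Matrix.of_apply]
    conv_lhs => rw [sum_coeff_rep (P (e i)) M (by rw [hd]; exact (e i).2)]
    rw [Finset.sum_mul, map_sum, ← Equiv.sum_comp e]
    refine Finset.sum_congr rfl fun k _ => ?_
    rw [smul_mul_assoc, map_smul, smul_eq_mul, ← pow_add]
    rfl
  have hdet1 : N1.det = N0.det := by
    rw [hr, Matrix.det_mul, Matrix.det_submatrix_equiv_self, hA0det, one_mul]
  -- columns
  set B0 : Matrix (Σ b, Fin (K b)) (Σ b, Fin (K b)) ℂ := Matrix.of fun l j =>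
    if l.1 = j.1 then (Q j.1 j.2).coeff l.2 else 0 with hB0
  have hB0det : B0.det = 1 := by
    have htri : B0.BlockTriangular (fun i : (Σ b, Fin (K b)) => (i.2 : ℕ)) := by
      intro i j hij
      rw [hB0, Matrix.of_apply]
      split_ifs with h
      · apply coeff_eq_zero_of_natDegree_lt
        rw [hdQ]
        exact hij
      · rfl
    rw [htri.det]
    refine Finset.prod_eq_one fun k _ => ?_
    have hone : B0.toSquareBlock (fun i : (Σ b, Fin (K b)) => (i.2 : ℕ)) k = 1 := by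
      ext ⟨⟨b, i⟩, hi⟩ ⟨⟨b', j⟩, hj⟩
      simp only at hi hj
      rw [Matrix.toSquareBlock_def, Matrix.of_apply, hB0, Matrix.of_apply, Matrix.one_apply]
      simp only
      by_cases hbb : b = b'
      · subst hbb
        have hij : i = j := Fin.ext (by rw [hi, hj])
        subst hij
        have := hmQ b i
        rw [Monic, leadingCoeff, hdQ] at this
        simp [this]
      · rw [if_neg hbb, if_neg]
        intro h
        exact hbb (congrArg (fun z => z.1.1) h)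
    rw [hone, Matrix.det_one]
  have hcol : N2 = N1 * B0 := by
    ext i j
    obtain ⟨b, j⟩ := j
    rw [Matrix.mul_apply, hN2, Matrix.of_apply, Fintype.sum_sigma, Finset.sum_eq_single b]
    · simp only
      conv_lhs => rw [sum_coeff_rep (Q b j) (K b) (by rw [hdQ]; exact j.2)]
      rw [Finset.mul_sum, map_sum]
      refine Finset.sum_congr rfl fun k _ => ?_
      rw [mul_smul_comm, map_smul, smul_eq_mul, mul_comm, hB0, Matrix.of_apply, if_pos rfl]
      rfl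
    · intro b' _ hb'
      refine Finset.sum_eq_zero fun l _ => ?_
      rw [hB0, Matrix.of_apply, if_neg hb', mul_zero]
    · intro h
      exact absurd (Finset.mem_univ b) h
  rw [← hdet1, hcol, Matrix.det_mul, hB0det, mul_one]

omit [DecidableEq β] in
theorem det_boundR {ι : Type*} [Fintype ι] [DecidableEq ι] (N : Matrix ι ι ℂ) (g h : ι → ℝ) (c : ℝ)
    (H : ∀ i j, ‖N i j‖ ≤ c * g i * h j) :
    ‖N.det‖ ≤ (Fintype.card ι).factorial * (c ^ (Fintype.card ι) * ((∏ i, g i) * ∏ i, h i)) := by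
  rw [Matrix.det_apply]
  refine (norm_sum_le _ _).trans ?_
  have hb : ∀ σ ∈ (Finset.univ : Finset (Equiv.Perm ι)),
      ‖Equiv.Perm.sign σ • ∏ i, N (σ i) i‖ ≤ c ^ (Fintype.card ι) * ((∏ i, g i) * ∏ i, h i) := by
    intro σ _
    have h1 : ‖Equiv.Perm.sign σ • ∏ i, N (σ i) i‖ = ∏ i, ‖N (σ i) i‖ := by
      rw [← norm_prod]
      rcases Int.units_eq_one_or (Equiv.Perm.sign σ) with h | h <;> rw [h] <;> simp
    rw [h1]
    calc ∏ i, ‖N (σ i) i‖ ≤ ∏ i, (c * g (σ i) * h i) :=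
          Finset.prod_le_prod (fun i _ => norm_nonneg _) fun i _ => H _ _
      _ = c ^ (Fintype.card ι) * ((∏ i, g i) * ∏ i, h i) := by
          rw [Finset.prod_mul_distrib, Finset.prod_mul_distrib, Finset.prod_const,
            Finset.card_univ, Equiv.prod_comp σ g, mul_assoc]
  refine (Finset.sum_le_sum hb).trans ?_
  rw [Finset.sum_const, Finset.card_univ, Fintype.card_perm, nsmul_eq_mul]

/-- the determinant bound by the energy method -/
theorem block_energy (K : β → ℕ) (M : ℕ) (e : (Σ b, Fin (K b)) ≃ Fin M)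
    (L : β → (ℂ[X] →ₗ[ℂ] ℂ)) (a : ℕ) (S : β → Set ℕ) (w : β → ℕ → ℝ) (hw : ∀ b y, 0 ≤ w b y)
    {κ : Type*} (s : Finset κ) (x : κ → ℂ) (c : β → κ → ℝ) (hc : ∀ b, ∑ k ∈ s, c b k = K b)
    (hneR : ∀ Z : List ℕ, ∃ y, av a Set.univ Z y) (hneC : ∀ b, ∀ Z : List ℕ, ∃ y, av a (S b) Z y)
    (C : ℝ) (hC : 0 ≤ C)
    (H : ∀ b, ∀ Z Z' : List ℕ, Z.length < M → Z'.length < K b → ∀ V V' : ℝ, 0 ≤ V → 0 ≤ V' →
      (∀ y, av a Set.univ Z y →
        valN (fun y => Real.exp (-∑ k ∈ s, (∑ b, c b k) * KK (y : ℂ) (x k))) Z y ≤ V) →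
      (∀ y, av a (S b) Z' y →
        valN (fun y => w b y * Real.exp (∑ k ∈ s, (∑ b, c b k) * KK (y : ℂ) (x k))) Z' y ≤ V') →
      ‖L b (PN Z * PN Z')‖ ≤ C * V * V')
    (BdR : ∀ Z : List ℕ, Z.length < M → ∃ V : ℝ, ∀ y, av a Set.univ Z y →
        valN (fun y => Real.exp (-∑ k ∈ s, (∑ b, c b k) * KK (y : ℂ) (x k))) Z y ≤ V)
    (BdC : ∀ b, ∀ Z : List ℕ, Z.length < K b → ∃ V : ℝ, ∀ y, av a (S b) Z y →
        valN (fun y => w b y * Real.exp (∑ k ∈ s, (∑ b, c b k) * KK (y : ℂ) (x k))) Z y ≤ V)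
    (l : β → ℝ) (ψ : β → ℕ → ℝ) (hψ : ∀ b y, 0 ≤ ψ b y) (F : β → Finset ℕ)
    (hF : ∀ b y, y < a → ψ b y = 0) (hF' : ∀ b y, y ∉ F b → ψ b y = 0)
    (h : ∀ b, ∀ y ∈ S b, w b y * Real.exp (∑ k ∈ s, (∑ b, c b k) * KK (y : ℂ) (x k)) *
      Real.exp (∑ k ∈ s, c b k * KK (y : ℂ) (x k)) ≤ Real.exp (l b + ψ b y)) :
    ‖Matrix.det (Matrix.of fun i j : (Σ b, Fin (K b)) => L j.1 (X ^ ((e i : ℕ) + (j.2 : ℕ))))‖ ≤
      M.factorial * ((4 * C) ^ M * Real.exp (∑ b, (K b * l b + ∑ y ∈ F b, ψ b y) -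
        ((∑ k ∈ s, ∑ k' ∈ s, (∑ b, c b k) * (∑ b, c b k') * KK (x k) (x k')) +
          ∑ b, ∑ k ∈ s, ∑ k' ∈ s, c b k * c b k' * KK (x k) (x k')) / 2)) := by
  classical
  have hcard : Fintype.card (Σ b, Fin (K b)) = M := by
    rw [Fintype.card_congr e, Fintype.card_fin]
  have hMsum : (∑ b, K b) = M := by
    rw [← hcard, Fintype.card_sigma]
    simp
  set wR : ℕ → ℝ := fun y => Real.exp (-∑ k ∈ s, (∑ b, c b k) * KK (y : ℂ) (x k)) with hwR
  set wC : β → ℕ → ℝ := fun b y => w b y * Real.exp (∑ k ∈ s, (∑ b, c b k) * KK (y : ℂ) (x k))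
    with hwC
  have hwR0 : ∀ y, 0 ≤ wR y := fun y => Real.exp_nonneg _
  have hwC0 : ∀ b y, 0 ≤ wC b y := fun b y => mul_nonneg (hw b y) (Real.exp_nonneg _)
  obtain ⟨Z, p, hZ0, hZs, hZav, hZlen, hZmax⟩ := exists_greedyN (a := a) (S := Set.univ) hwR0 M
    hneR BdR
  have hcols : ∀ b, ∃ (Z : ℕ → List ℕ) (p : ℕ → ℕ), Z 0 = [] ∧ (∀ i, Z (i + 1) = p i :: Z i) ∧
      (∀ i, av a (S b) (Z i) (p i)) ∧ (∀ i, (Z i).length = i) ∧
      ∀ i < K b, ∀ y, av a (S b) (Z i) y → valN (wC b) (Z i) y ≤ 2 * valN (wC b) (Z i) (p i) :=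
    fun b => exists_greedyN (hwC0 b) (K b) (hneC b) (BdC b)
  choose Zc pc hc0 hcs hcav hclen hcmax using hcols
  rw [block_basis K M e L (fun i => PN (Z i)) (fun i => PN_monic _)
    (fun i => by rw [PN_natDegree, hZlen]) (fun b i => PN (Zc b i)) (fun b i => PN_monic _)
    (fun b i => by rw [PN_natDegree, hclen])]
  have hdet := det_boundR (Matrix.of fun i j : (Σ b, Fin (K b)) =>
      L j.1 (PN (Z (e i)) * PN (Zc j.1 j.2)))
    (fun i => 2 * valN wR (Z (e i)) (p (e i)))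
    (fun j => 2 * valN (wC j.1) (Zc j.1 j.2) (pc j.1 j.2)) C
    (fun i j => by
      rw [Matrix.of_apply]
      exact H j.1 _ _ (by rw [hZlen]; exact (e i).2) (by rw [hclen]; exact j.2.2) _ _
        (by have := valN_nonneg hwR0 (Z (e i)) (p (e i)); positivity)
        (by have := valN_nonneg (hwC0 j.1) (Zc j.1 j.2) (pc j.1 j.2); positivity)
        (hZmax _ (e i).2) (hcmax _ _ j.2.2))
  rw [hcard] at hdet
  refine hdet.trans ?_
  apply mul_le_mul_of_nonneg_left _ (Nat.cast_nonneg _)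
  -- rows
  have hrow : ∏ i, (2 * valN wR (Z (e i)) (p (e i))) =
      2 ^ M * ∏ i ∈ range M, valN wR (Z i) (p i) := by
    rw [Equiv.prod_comp e (fun i : Fin M => 2 * valN wR (Z i) (p i)), Finset.prod_mul_distrib,
      Finset.prod_const, Finset.card_univ, Fintype.card_fin,
      Finset.prod_range (fun i => valN wR (Z i) (p i))]
  have hcol : ∏ j : (Σ b, Fin (K b)), (2 * valN (wC j.1) (Zc j.1 j.2) (pc j.1 j.2)) =
      2 ^ M * ∏ b, ∏ i ∈ range (K b), valN (wC b) (Zc b i) (pc b i) := by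
    rw [Finset.prod_mul_distrib, Finset.prod_const, Finset.card_univ, hcard, Fintype.prod_sigma]
    congr 1
    refine Finset.prod_congr rfl fun b _ => ?_
    rw [Finset.prod_range]
  have hRle := prodN_le (a := a) (m := M) hwR0 hZ0 hZs hZav s x (fun k => ∑ b, c b k) (by
      rw [Finset.sum_comm, Finset.sum_congr rfl fun b _ => hc b, ← Nat.cast_sum, hMsum])
    0 (fun _ => 0) (fun _ => le_rfl) ∅ (fun _ _ => rfl) (fun _ _ => rfl) (by
      intro y _
      rw [hwR, ← Real.exp_add]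
      simp)
  have hCle : ∀ b, ∏ i ∈ range (K b), valN (wC b) (Zc b i) (pc b i) ≤
      Real.exp (K b * l b + ∑ y ∈ F b, ψ b y -
        (∑ k ∈ s, ∑ k' ∈ s, c b k * c b k' * KK (x k) (x k')) / 2) := fun b =>
    prodN_le (hwC0 b) (hc0 b) (hcs b) (hcav b) s x (c b) (hc b) (l b) (ψ b) (hψ b) (F b) (hF b)
      (hF' b) (fun y hy => h b y hy)
  have hCprod : ∏ b, ∏ i ∈ range (K b), valN (wC b) (Zc b i) (pc b i) ≤
      Real.exp (∑ b, (K b * l b + ∑ y ∈ F b, ψ b y -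
        (∑ k ∈ s, ∑ k' ∈ s, c b k * c b k' * KK (x k) (x k')) / 2)) := by
    rw [Real.exp_sum]
    exact Finset.prod_le_prod (fun b _ => Finset.prod_nonneg fun i _ =>
      valN_nonneg (hwC0 b) _ _) fun b _ => hCle b
  rw [hrow, hcol]
  have hRle' : ∏ i ∈ range M, valN wR (Z i) (p i) ≤ Real.exp (-((∑ k ∈ s, ∑ k' ∈ s,
      (∑ b, c b k) * (∑ b, c b k') * KK (x k) (x k')) / 2)) := by
    refine hRle.trans (le_of_eq ?_)
    congr 1
    simp
  have hprod := mul_le_mul hRle' hCprod (Finset.prod_nonneg fun b _ =>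
    Finset.prod_nonneg fun i _ => valN_nonneg (hwC0 b) _ _) (Real.exp_nonneg _)
  rw [← Real.exp_add] at hprod
  calc C ^ M * ((2 ^ M * ∏ i ∈ range M, valN wR (Z i) (p i)) *
        (2 ^ M * ∏ b, ∏ i ∈ range (K b), valN (wC b) (Zc b i) (pc b i)))
      = (4 * C) ^ M * ((∏ i ∈ range M, valN wR (Z i) (p i)) *
        ∏ b, ∏ i ∈ range (K b), valN (wC b) (Zc b i) (pc b i)) := by
        have h44 : (4 : ℝ) = 2 * 2 := by norm_num
        rw [h44, mul_pow, mul_pow]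
        ring
    _ ≤ (4 * C) ^ M * Real.exp (∑ b, (K b * l b + ∑ y ∈ F b, ψ b y) -
        ((∑ k ∈ s, ∑ k' ∈ s, (∑ b, c b k) * (∑ b, c b k') * KK (x k) (x k')) +
          ∑ b, ∑ k ∈ s, ∑ k' ∈ s, c b k * c b k' * KK (x k) (x k')) / 2) := by
        apply mul_le_mul_of_nonneg_left _ (by positivity)
        refine hprod.trans (le_of_eq ?_)
        congr 1
        rw [Finset.sum_sub_distrib, ← Finset.sum_div]
        ring

end block

end BE

end Z579
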