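import Pool.Agent.Lib.Z579.BE9

/-!
# BE10: assembly of `BCert` from integer data
-/

open Finset Set

namespace Z579

namespace BE

open EM Arch Z579.Num

/-! ## jump lists -/

/-- jumps of a piecewise constant density (numerators) -/
def jl : ℤ → ℕ → List ℤ → List (ℕ × ℤ)
  | p, j, [] => if p = 0 then [] else [(j, p)]
  | p, j, c :: cs => if p = c then jl c (j + 1) cs else (j, p - c) :: jl c (j + 1) cs

noncomputable def HJ (n : ℕ) (s : ℝ) : ℝ := GG (n - s) 0 + GG (n + s) 0

lemma FJ_jl (p : ℤ) (j : ℕ) (cs : List ℤ) (s : ℝ) :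
    FJ (jl p j cs) s = p * HJ j s +
      ∑ i ∈ range cs.length, ((cs.getD i 0 : ℤ) : ℝ) * (HJ (j + i + 1) s - HJ (j + i) s) := by
  induction cs generalizing p j with
  | nil =>
    unfold jl
    split_ifs with h
    · subst h; simp [FJ]
    · simp [FJ, T1, HJ]
  | cons c cs ih =>
    have hsum : ∑ i ∈ range (c :: cs).length, (((c :: cs).getD i 0 : ℤ) : ℝ) *
        (HJ (j + i + 1) s - HJ (j + i) s) = c * (HJ (j + 1) s - HJ j s) +
        ∑ i ∈ range cs.length, ((cs.getD i 0 : ℤ) : ℝ) *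
          (HJ (j + 1 + i + 1) s - HJ (j + 1 + i) s) := by
      have e1 : ∑ i ∈ range cs.length, (((c :: cs).getD (i + 1) 0 : ℤ) : ℝ) *
          (HJ (j + (i + 1) + 1) s - HJ (j + (i + 1)) s) =
          ∑ i ∈ range cs.length, ((cs.getD i 0 : ℤ) : ℝ) *
            (HJ (j + 1 + i + 1) s - HJ (j + 1 + i) s) := by
        refine Finset.sum_congr rfl fun i _ => ?_
        rw [List.getD_cons_succ, show j + (i + 1) = j + 1 + i by ring]
      rw [List.length_cons, Finset.sum_range_succ', e1, List.getD_cons_zero, add_zero]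
      ring
    rw [hsum]
    unfold jl
    split_ifs with h
    · subst h
      rw [ih]
      ring
    · simp only [FJ]
      rw [ih]
      unfold T1 HJ
      push_cast
      ring

lemma zipWith_getD (f : ℤ → ℤ → ℤ) : ∀ (l l' : List ℤ), l.length = l'.length →
    ∀ i < l.length, (List.zipWith f l l').getD i 0 = f (l.getD i 0) (l'.getD i 0)
  | [], _, _, i, hi => by simp at hi
  | a :: l, [], h, _, _ => by simp at h
  | a :: l, b :: l', h, i, hi => by
    cases i with
    | zero => simp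
    | succ i =>
      simp only [List.zipWith_cons_cons, List.getD_cons_succ]
      exact zipWith_getD f l l' (by simpa using h) i (by simpa using hi)

/-- combination of densities -/
def cmb (x y : ℤ) (CA CB : List ℤ) : List ℤ := List.zipWith (fun a b => x * a + y * b) CA CB

lemma VB_eq (i : ℕ) (s : ℝ) : VB i (i + 1) s = HJ (i + 1) s - HJ i s := by
  unfold VB HJ
  push_cast
  ring

lemma FJ_cmb {P : BPar} {CA CB : List ℤ} {den : ℤ} (hden : 0 < den)
    (hA : ∀ i, P.cA i = ((CA.getD i 0 : ℤ) : ℝ) / den)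
    (hB : ∀ i, P.cB i = ((CB.getD i 0 : ℤ) : ℝ) / den) (hlA : CA.length = P.N)
    (hlB : CB.length = P.N) (x y : ℤ) (s : ℝ) :
    FJ (jl 0 0 (cmb x y CA CB)) s / den = x * Up P.cA P.N s + y * Up P.cB P.N s := by
  have hd : (den : ℝ) ≠ 0 := by exact_mod_cast hden.ne'
  rw [FJ_jl, Int.cast_zero, zero_mul, zero_add, div_eq_iff hd]
  have hlen : (cmb x y CA CB).length = P.N := by
    unfold cmb
    rw [List.length_zipWith, hlA, hlB, min_self]
  rw [hlen]
  unfold Up
  rw [Finset.mul_sum, Finset.mul_sum, ← Finset.sum_add_distrib, Finset.sum_mul]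
  refine Finset.sum_congr rfl fun i hi => ?_
  rw [Finset.mem_range] at hi
  have h1 : (cmb x y CA CB).getD i 0 = x * CA.getD i 0 + y * CB.getD i 0 := by
    unfold cmb
    rw [zipWith_getD _ _ _ (by rw [hlA, hlB]) i (by rw [hlA]; exact hi)]
  rw [h1, hA, hB, VB_eq]
  simp only [zero_add]
  push_cast
  field_simp

def negL (L : List (ℕ × ℤ)) : List (ℕ × ℤ) := L.map fun t => (t.1, -t.2)

lemma FJ_negL (L : List (ℕ × ℤ)) (s : ℝ) : FJ (negL L) s = -FJ L s := by
  induction L with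
  | nil => simp [negL, FJ]
  | cons t L ih =>
    have : negL (t :: L) = (t.1, -t.2) :: negL L := rfl
    rw [this]
    simp only [FJ]
    rw [ih]
    unfold T1
    push_cast
    ring

/-! ## the tail -/

lemma HJ_mvt {a b s : ℝ} (hab : a < b) (hbs : b < s) (ha : 0 ≤ a) :
    ∃ ξ ∈ Ioo a b, (GG (b - s) 0 + GG (b + s) 0) - (GG (a - s) 0 + GG (a + s) 0) =
      (b - a) * Real.log (s ^ 2 - ξ ^ 2) := by
  have hcont : ContinuousOn (fun p : ℝ => GG (p - s) 0 + GG (p + s) 0) (Icc a b) := by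
    have c1 : Continuous fun p : ℝ => GG (p - s) 0 :=
      continuous_L.comp (continuous_id.sub continuous_const)
    have c2 : Continuous fun p : ℝ => GG (p + s) 0 :=
      continuous_L.comp (continuous_id.add continuous_const)
    exact (c1.add c2).continuousOn
  obtain ⟨ξ, hξ, h⟩ := exists_hasDerivAt_eq_slope (fun p : ℝ => GG (p - s) 0 + GG (p + s) 0)
    (fun p => Real.log (p - s) + Real.log (p + s)) hab hcont (by
      intro p hp
      have n1 : p - s ≠ 0 := by
        have : p - s < 0 := by linarith [hp.2]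
        exact this.ne
      have n2 : p + s ≠ 0 := by
        have : 0 < p + s := by linarith [hp.1]
        exact this.ne'
      have d1 : HasDerivAt (fun p : ℝ => GG (p - s) 0) (Real.log (p - s)) p := by
        have := HasDerivAt.comp p (hasDerivAt_L n1) ((hasDerivAt_id p).sub_const s)
        refine this.congr_deriv ?_
        simp
      have d2 : HasDerivAt (fun p : ℝ => GG (p + s) 0) (Real.log (p + s)) p := by
        have := HasDerivAt.comp p (hasDerivAt_L n2) ((hasDerivAt_id p).add_const s)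
        refine this.congr_deriv ?_
        simp
      exact d1.add d2)
  refine ⟨ξ, hξ, ?_⟩
  rw [eq_div_iff (by linarith)] at h
  have e : Real.log (ξ - s) + Real.log (ξ + s) = Real.log (s ^ 2 - ξ ^ 2) := by
    have h1 : 0 < s - ξ := by linarith [hξ.2]
    have h2 : 0 < ξ + s := by linarith [hξ.1]
    have h3 : Real.log (ξ - s) = Real.log (s - ξ) := by
      rw [← Real.log_neg_eq_log]; congr 1; ring
    rw [h3, ← Real.log_mul h1.ne' h2.ne']
    congr 1
    ring
  rw [e] at h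
  linarith

theorem tail_phi {P : BPar} (hP : P.Ok) {Y0 : ℕ} (hN : P.N < Y0) (hal : P.al < Y0)
    (hdeg : 6 * P.mu + 1 ≤ 2 * P.q * P.al) {s : ℝ} (hs : (Y0 : ℝ) ≤ s) :
    Phi P false s ≤ 6 * P.mu * Real.log Y0 - P.q * P.al * Real.log ((Y0 : ℝ) ^ 2 - P.al ^ 2) -
      (Real.log s - Real.log Y0) := by
  have hal1 : (1 : ℝ) ≤ P.al := by exact_mod_cast hP.al1
  have halY : (P.al : ℝ) < Y0 := by exact_mod_cast hal
  have hY0 : (0 : ℝ) < Y0 := by linarith
  have hs0 : 0 < s := by linarith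
  -- the field
  have hH : P.al * Real.log (s ^ 2 - P.al ^ 2) ≤ HH P.al s := by
    obtain ⟨ξ, hξ, h⟩ := HJ_mvt (a := 0) (b := P.al) (s := s) (by linarith) (by linarith) le_rfl
    have e0 : GG (0 - s) 0 + GG (0 + s) 0 = 0 := by
      rw [zero_sub, zero_add, GG_neg]; ring
    rw [e0, sub_zero, sub_zero] at h
    unfold HH
    rw [h]
    apply mul_le_mul_of_nonneg_left _ (by linarith)
    have h2 : 0 < s ^ 2 - (P.al : ℝ) ^ 2 := by nlinarith
    apply Real.log_le_log h2
    have := hξ.1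
    have := hξ.2
    nlinarith
  -- the potentials
  have hV : ∀ i < P.N, VB i (i + 1) s ≤ 2 * Real.log s := by
    intro i hi
    have hi' : (i : ℝ) + 1 < s := by
      have : (i : ℝ) + 1 ≤ P.N := by exact_mod_cast hi
      have h2 : (P.N : ℝ) < Y0 := by exact_mod_cast hN
      linarith
    have hi0 : (0 : ℝ) ≤ i := Nat.cast_nonneg i
    obtain ⟨ξ, hξ, h⟩ := HJ_mvt (a := (i : ℝ)) (b := (i : ℝ) + 1) (s := s) (by linarith) hi' hi0
    unfold VB
    rw [h, show (i : ℝ) + 1 - i = 1 by ring, one_mul]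
    have e : 2 * Real.log s = Real.log (s ^ 2) := by rw [Real.log_pow]; push_cast; ring
    rw [e]
    have := hξ.1
    have := hξ.2
    apply Real.log_le_log (by nlinarith)
    nlinarith
  have hUp : ∀ c : ℕ → ℝ, (∀ i, 0 ≤ c i) → Up c P.N s ≤ (∑ i ∈ range P.N, c i) * (2 * Real.log s) := by
    intro c hc
    unfold Up
    rw [Finset.sum_mul]
    exact Finset.sum_le_sum fun i hi => mul_le_mul_of_nonneg_left (hV i (Finset.mem_range.1 hi)) (hc i)
  have hA := hUp P.cA hP.cAn
  have hB := hUp P.cB hP.cBn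
  rw [hP.massA] at hA
  rw [hP.massB] at hB
  have hW : WW P false s ≤ 6 * P.mu * Real.log s := by
    unfold WW
    have : P.d false = P.cA := rfl
    rw [this]
    linarith
  -- comparison
  have hlog : Real.log ((Y0 : ℝ) ^ 2 - P.al ^ 2) + 2 * (Real.log s - Real.log Y0) ≤
      Real.log (s ^ 2 - P.al ^ 2) := by
    have p1 : 0 < (Y0 : ℝ) ^ 2 - P.al ^ 2 := by nlinarith
    have p2 : 0 < s ^ 2 - (P.al : ℝ) ^ 2 := by nlinarith
    have e : Real.log ((Y0 : ℝ) ^ 2 - P.al ^ 2) + 2 * (Real.log s - Real.log Y0) =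
        Real.log (((Y0 : ℝ) ^ 2 - P.al ^ 2) * (s ^ 2 / (Y0 : ℝ) ^ 2)) := by
      rw [Real.log_mul p1.ne' (by positivity), Real.log_div (by positivity) (by positivity),
        Real.log_pow, Real.log_pow]
      push_cast
      ring
    rw [e]
    apply Real.log_le_log (by positivity)
    rw [mul_div_assoc', div_le_iff₀ (by positivity)]
    have : (P.al : ℝ) ^ 2 * (Y0 : ℝ) ^ 2 ≤ (P.al : ℝ) ^ 2 * s ^ 2 := by
      apply mul_le_mul_of_nonneg_left _ (by positivity)
      exact pow_le_pow_left₀ hY0.le hs 2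
    nlinarith
  have hls : 0 ≤ Real.log s - Real.log Y0 := by
    have := Real.log_le_log hY0 hs
    linarith
  have hq : (0 : ℝ) ≤ P.q := Nat.cast_nonneg _
  have hqal : (0 : ℝ) ≤ P.q * P.al := by positivity
  have h1 := mul_le_mul_of_nonneg_left hH hq
  have h2 := mul_le_mul_of_nonneg_left hlog hqal
  have hdeg' : (6 : ℝ) * P.mu + 1 ≤ 2 * P.q * P.al := by exact_mod_cast hdeg
  have h3 := mul_le_mul_of_nonneg_right hdeg' hls
  unfold Phi
  nlinarith

/-! ## assembly -/

def tailOK (q al mu Y0 : ℕ) (lA : ℤ) : Bool :=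
  decide (1000 * (6 * mu * (lgI Y0).2 - q * al * (lgI (Y0 ^ 2 - al ^ 2)).1) ≤ lA * 4294967296)

theorem tailOK_spec {q al mu Y0 : ℕ} {lA : ℤ} (hal : al < Y0) (h : tailOK q al mu Y0 lA = true) :
    6 * mu * Real.log Y0 - q * al * Real.log ((Y0 : ℝ) ^ 2 - al ^ 2) ≤ (lA : ℝ) / 1000 := by
  unfold tailOK at h
  rw [decide_eq_true_eq] at h
  have h1 := (lgI_bounds Y0 (by omega)).2
  have hlt : al ^ 2 < Y0 ^ 2 := Nat.pow_lt_pow_left hal (by norm_num)
  have h2 := (lgI_bounds (Y0 ^ 2 - al ^ 2) (by omega)).1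
  have e : (((Y0 ^ 2 - al ^ 2 : ℕ)) : ℝ) = (Y0 : ℝ) ^ 2 - al ^ 2 := by
    rw [Nat.cast_sub hlt.le]; push_cast; ring
  rw [e] at h2
  have h3 : (1000 : ℝ) * (6 * mu * (((lgI Y0).2 : ℤ) : ℝ) -
      q * al * (((lgI (Y0 ^ 2 - al ^ 2)).1 : ℤ) : ℝ)) ≤ lA * 4294967296 := by exact_mod_cast h
  have m1 := mul_le_mul_of_nonneg_left h1 (by positivity : (0 : ℝ) ≤ 6 * mu)
  have m2 := mul_le_mul_of_nonneg_left h2 (by positivity : (0 : ℝ) ≤ (q : ℝ) * al)
  rw [le_div_iff₀ (by norm_num)]
  nlinarith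

/-- integer form of the total, unit `1 / (4000 den)` -/
def totB (mu N Y0 : ℕ) (CA CB : List ℤ) (den lA lB : ℤ) (sL sR eL eR fL fR : List ℤ) : ℤ :=
  4 * den * mu * (lA + lB) + 2 * den * sumZ Y0 (fun i => sL.getD i 0 + sR.getD i 0) -
    sumZ N (fun i => CA.getD i 0 * (eL.getD i 0 + eR.getD i 0)) -
    sumZ N (fun i => CB.getD i 0 * (fL.getD i 0 + fR.getD i 0))

theorem mk_bcert {P : BPar} (hP : P.Ok) {CA CB : List ℤ} {den : ℤ} (hden : 0 < den)
    (hA : ∀ i, P.cA i = ((CA.getD i 0 : ℤ) : ℝ) / den)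
    (hB : ∀ i, P.cB i = ((CB.getD i 0 : ℤ) : ℝ) / den) (hlA : CA.length = P.N)
    (hlB : CB.length = P.N) (hdeg : 6 * P.mu + 1 ≤ 2 * P.q * P.al)
    {JA JB NA NB : List (ℕ × ℤ)} (hJA : jl 0 0 (cmb 2 1 CA CB) = JA)
    (hJB : jl 0 0 (cmb 1 2 CA CB) = JB) (hNA : negL JA = NA) (hNB : negL JB = NB)
    {g : ℕ → ℤ × ℤ} {NT : ℕ} (hT : TabOK g NT) {Y0 : ℕ} (hN : P.N < Y0) (hal : P.al < Y0)
    (hNT : Y0 + P.N + 2 ≤ NT) (hNT' : Y0 + P.al + 2 ≤ NT)
    (hjA : ∀ t ∈ JA, t.1 ≤ P.N) (hjB : ∀ t ∈ JB, t.1 ≤ P.N)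
    (lA lB : ℤ) (sL sR eL eR fL fR : List ℤ)
    (kS : ∀ i, P.al ≤ i → i < Y0 → cell2 g ((P.al, -(P.q * den)) :: JA) den i
      (lA + sL.getD i 0) (lA + sR.getD i 0) = true)
    (kP : ∀ i < Y0, (decide (0 ≤ sL.getD i 0) && decide (0 ≤ sR.getD i 0)) = true)
    (kN : ∀ i, i ≤ P.al → cell2 g ((P.al, -(P.q * den)) :: JB) den i lB lB = true)
    (kEA : ∀ i < P.N, (decide (CA.getD i 0 = 0) ||
      cell2 g NA den i (-eL.getD i 0) (-eR.getD i 0)) = true)
    (kEB : ∀ i < P.N, (decide (CB.getD i 0 = 0) ||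
      cell2 g NB den i (-fL.getD i 0) (-fR.getD i 0)) = true)
    (kT : tailOK P.q P.al P.mu Y0 lA = true) {A0 : ℤ}
    (kTot : totB P.mu P.N Y0 CA CB den lA lB sL sR eL eR fL fR ≤ 4000 * den * A0) :
    Nonempty (BCert P (A0 : ℝ)) := by
  have hd : (den : ℝ) ≠ 0 := by exact_mod_cast hden.ne'
  have hdp : (0 : ℝ) < den := by exact_mod_cast hden
  have hWA : ∀ s, WW P false s = FJ JA s / den := by
    intro s
    rw [← hJA, FJ_cmb hden hA hB hlA hlB]
    unfold WW
    have : P.d false = P.cA := rfl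
    rw [this]
    push_cast
    ring
  have hWB : ∀ s, WW P true s = FJ JB s / den := by
    intro s
    rw [← hJB, FJ_cmb hden hA hB hlA hlB]
    unfold WW
    have : P.d true = P.cB := rfl
    rw [this]
    push_cast
    ring
  have hPA : ∀ s, Phi P false s = FJ ((P.al, -(P.q * den)) :: JA) s / den := by
    intro s
    unfold Phi
    rw [hWA]
    simp only [FJ]
    unfold T1 HH
    push_cast
    field_simp
  have hPB : ∀ s, Phi P true s = FJ ((P.al, -(P.q * den)) :: JB) s / den := by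
    intro s
    unfold Phi
    rw [hWB]
    simp only [FJ]
    unfold T1 HH
    push_cast
    field_simp
  have bA : ∀ i < Y0, ∀ t ∈ (P.al, -((P.q : ℤ) * den)) :: JA, t.1 + i + 1 < NT := by
    intro i hi t ht
    rcases List.mem_cons.1 ht with h | h
    · rw [h]; simp only; omega
    · have := hjA t h; omega
  have bB : ∀ i < Y0, ∀ t ∈ (P.al, -((P.q : ℤ) * den)) :: JB, t.1 + i + 1 < NT := by
    intro i hi t ht
    rcases List.mem_cons.1 ht with h | h
    · rw [h]; simp only; omega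
    · have := hjB t h; omega
  have bNA : ∀ i < Y0, ∀ t ∈ NA, t.1 + i + 1 < NT := by
    intro i hi t ht
    rw [← hNA, negL, List.mem_map] at ht
    obtain ⟨t', ht', rfl⟩ := ht
    have := hjA t' ht'
    simp only
    omega
  have bNB : ∀ i < Y0, ∀ t ∈ NB, t.1 + i + 1 < NT := by
    intro i hi t ht
    rw [← hNB, negL, List.mem_map] at ht
    obtain ⟨t', ht', rfl⟩ := ht
    have := hjB t' ht'
    simp only
    omega
  refine ⟨{ lA := (lA : ℝ) / 1000, lB := (lB : ℝ) / 1000, Y0 := Y0, hY := by omega,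
            sL := fun i => ((sL.getD i 0 : ℤ) : ℝ) / 1000,
            sR := fun i => ((sR.getD i 0 : ℤ) : ℝ) / 1000,
            eL := fun i => ((eL.getD i 0 : ℤ) : ℝ) / 1000,
            eR := fun i => ((eR.getD i 0 : ℤ) : ℝ) / 1000,
            fL := fun i => ((fL.getD i 0 : ℤ) : ℝ) / 1000,
            fR := fun i => ((fR.getD i 0 : ℤ) : ℝ) / 1000,
            sLn := ?_, sRn := ?_, site := ?_, tail := ?_, node := ?_, enA := ?_, enB := ?_,
            tot := ?_ }⟩
  · intro i hi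
    have h := kP i hi
    simp only [Bool.and_eq_true, decide_eq_true_eq] at h
    have : (0 : ℝ) ≤ ((sL.getD i 0 : ℤ) : ℝ) := by exact_mod_cast h.1
    positivity
  · intro i hi
    have h := kP i hi
    simp only [Bool.and_eq_true, decide_eq_true_eq] at h
    have : (0 : ℝ) ≤ ((sR.getD i 0 : ℤ) : ℝ) := by exact_mod_cast h.2
    positivity
  · intro i hi hi' s hs hs'
    have h := cell2_spec hT hden (bA i hi') (kS i hi hi') s hs hs'
    rw [hPA]
    push_cast at h
    calc _ ≤ _ := h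
      _ = _ := by ring
  · intro s hs
    have h1 := tail_phi hP hN hal hdeg hs
    have h2 := tailOK_spec hal kT
    linarith
  · intro i hi s hs hs'
    have h := cell2_spec hT hden (bB i (by omega)) (kN i hi) s hs hs'
    rw [hPB]
    exact h
  · intro i hi hc s hs hs'
    have hk := kEA i hi
    rw [Bool.or_eq_true, decide_eq_true_eq] at hk
    have hne : CA.getD i 0 ≠ 0 := by
      intro h0
      apply hc
      rw [hA, h0]
      simp
    have hk' := hk.resolve_left hne
    have h := cell2_spec hT hden (bNA i (by omega)) hk' s hs hs'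
    show -WW P false s ≤ _
    simp only at h
    rw [← hNA, FJ_negL] at h
    rw [hWA]
    push_cast at h
    calc -(FJ JA s / den) = -FJ JA s / den := by ring
      _ ≤ _ := h
      _ = _ := by ring
  · intro i hi hc s hs hs'
    have hk := kEB i hi
    rw [Bool.or_eq_true, decide_eq_true_eq] at hk
    have hne : CB.getD i 0 ≠ 0 := by
      intro h0
      apply hc
      rw [hB, h0]
      simp
    have hk' := hk.resolve_left hne
    have h := cell2_spec hT hden (bNB i (by omega)) hk' s hs hs'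
    show -WW P true s ≤ _
    simp only at h
    rw [← hNB, FJ_negL] at h
    rw [hWB]
    push_cast at h
    calc -(FJ JB s / den) = -FJ JB s / den := by ring
      _ ≤ _ := h
      _ = _ := by ring
  · have h' : ((totB P.mu P.N Y0 CA CB den lA lB sL sR eL eR fL fR : ℤ) : ℝ) ≤
        4000 * den * A0 := by exact_mod_cast kTot
    rw [totB] at h'
    push_cast [sumZ_eq] at h'
    have e1 : ∑ i ∈ range Y0, (((sL.getD i 0 : ℤ) : ℝ) / 1000 + ((sR.getD i 0 : ℤ) : ℝ) / 1000) / 2 =
        (∑ i ∈ range Y0, (((sL.getD i 0 : ℤ) : ℝ) + ((sR.getD i 0 : ℤ) : ℝ))) / 2000 := by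
      rw [Finset.sum_div]
      exact Finset.sum_congr rfl fun i _ => by ring
    have e2 : ∑ i ∈ range P.N, P.cA i * ((((eL.getD i 0 : ℤ) : ℝ) / 1000 +
        ((eR.getD i 0 : ℤ) : ℝ) / 1000) / 2) = (∑ i ∈ range P.N, ((CA.getD i 0 : ℤ) : ℝ) *
        (((eL.getD i 0 : ℤ) : ℝ) + ((eR.getD i 0 : ℤ) : ℝ))) / (2000 * den) := by
      rw [Finset.sum_div]
      refine Finset.sum_congr rfl fun i _ => ?_
      rw [hA]
      field_simp
      ring
    have e3 : ∑ i ∈ range P.N, P.cB i * ((((fL.getD i 0 : ℤ) : ℝ) / 1000 +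
        ((fR.getD i 0 : ℤ) : ℝ) / 1000) / 2) = (∑ i ∈ range P.N, ((CB.getD i 0 : ℤ) : ℝ) *
        (((fL.getD i 0 : ℤ) : ℝ) + ((fR.getD i 0 : ℤ) : ℝ))) / (2000 * den) := by
      rw [Finset.sum_div]
      refine Finset.sum_congr rfl fun i _ => ?_
      rw [hB]
      field_simp
      ring
    rw [e1, e2, e3]
    rw [← mul_le_mul_iff_right₀ (show (0 : ℝ) < 4000 * den by positivity)]
    refine le_trans (le_of_eq ?_) h'
    field_simp
    ring

end BE

end Z579
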