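import Pool.Agent.Lib.Z579.E5b

/-!
# E5c: products of linear factors at sites and on the line
-/

open MeasureTheory Filter Topology Polynomial Finset

namespace Z579

namespace EM

lemma mul_norm_le_exp_KK (z w : ℂ) : ‖z - w‖ * ‖z + w‖ ≤ Real.exp (KK z w) := by
  unfold KK
  rw [Real.exp_add]
  have h : ∀ x : ℝ, 0 ≤ x → x ≤ Real.exp (1 / 2 * Real.log (1 + x ^ 2)) := by
    intro x hx
    have h1 : Real.exp (1 / 2 * Real.log (1 + x ^ 2)) = √(1 + x ^ 2) := by
      rw [Real.sqrt_eq_rpow, Real.rpow_def_of_pos (by positivity)]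
      congr 1
      ring
    rw [h1]
    apply Real.le_sqrt_of_sq_le
    linarith
  exact mul_le_mul (h _ (norm_nonneg _)) (h _ (norm_nonneg _)) (norm_nonneg _) (Real.exp_pos _).le

lemma norm_le_exp_KK_self (z : ℂ) : ‖z + z‖ ≤ Real.exp (KK z z) := by
  unfold KK
  rw [Real.exp_add, sub_self, norm_zero]
  have h1 : Real.exp (1 / 2 * Real.log (1 + ‖z + z‖ ^ 2)) = √(1 + ‖z + z‖ ^ 2) := by
    rw [Real.sqrt_eq_rpow, Real.rpow_def_of_pos (by positivity)]
    congr 1
    ring
  rw [h1]
  simp only [ne_eq, OfNat.ofNat_ne_zero, not_false_eq_true, zero_pow, add_zero, Real.log_one,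
    mul_zero, Real.exp_zero, one_mul]
  apply Real.le_sqrt_of_sq_le
  linarith

lemma evS_mul (c : ℂ) (P Q : ℂ[X]) : evS c (P * Q) = evS c P * evS c Q := by
  rw [evS, evS, evS, map_mul]

lemma evS_one (c : ℂ) : evS c 1 = 1 := by rw [evS, map_one]

lemma evS_factor (c z : ℂ) : evS c (X - C (z ^ 2)) = linC (c - z) * linC (c + z) := by
  rw [evS, map_sub, aeval_X, aeval_C]
  have : (algebraMap ℂ (PowerSeries ℂ)) (z ^ 2) = PowerSeries.C (z ^ 2) := rfl
  rw [this, linC, linC, linC, map_sub, map_add, map_pow]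
  ring

lemma pos_site (a T t : ℕ) : pos a T (Sum.inl t) = (a : ℂ) + t := rfl

lemma pos_line (a T : ℕ) (y : ℝ) : pos a T (Sum.inr y) = (a : ℂ) + T + tt y := rfl

lemma tt_re (y : ℝ) : (tt y).re = -(1 / 2) := by
  unfold tt
  rw [Complex.add_re, Complex.mul_I_re, Complex.ofReal_im, neg_zero, add_zero, Complex.neg_re]
  norm_num

lemma tt_im (y : ℝ) : (tt y).im = y := by
  unfold tt
  rw [Complex.add_im, Complex.mul_I_im, Complex.ofReal_re, Complex.neg_im]
  norm_num

lemma pos_line_re (a T : ℕ) (y : ℝ) : (pos a T (Sum.inr y)).re = a + T - 1 / 2 := by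
  rw [pos_line, Complex.add_re, Complex.add_re, tt_re, Complex.natCast_re, Complex.natCast_re]
  ring

lemma pos_line_im (a T : ℕ) (y : ℝ) : (pos a T (Sum.inr y)).im = y := by
  rw [pos_line, Complex.add_im, Complex.add_im, tt_im, Complex.natCast_im, Complex.natCast_im]
  ring

lemma pos_site_re (a T t : ℕ) : (pos a T (Sum.inl t)).re = a + t := by
  rw [pos_site, Complex.add_re, Complex.natCast_re, Complex.natCast_re]

lemma pos_site_im (a T t : ℕ) : (pos a T (Sum.inl t)).im = 0 := by
  rw [pos_site, Complex.add_im, Complex.natCast_im, Complex.natCast_im, add_zero]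

/-- factor at a site -/
lemma Maj_factor {a T t : ℕ} (ha : 1 ≤ a) (ht : t < T) (p : Pt)
    (hp : ∀ t', p = Sum.inl t' → t' < T) :
    Maj (Real.exp (KK (pos a T (Sum.inl t)) (pos a T p))) 3
      (evS ((a : ℂ) + t) (X - C ((pos a T p) ^ 2))) := by
  rw [evS_factor]
  have ha' : (1 : ℝ) ≤ a := by exact_mod_cast ha
  have htT : (t : ℝ) + 1 ≤ T := by exact_mod_cast ht
  have ht0 : (0 : ℝ) ≤ t := Nat.cast_nonneg t
  by_cases h : p = Sum.inl t
  · subst h
    have h1 : (a : ℂ) + t - pos a T (Sum.inl t) = 0 := by rw [pos_site]; ring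
    have h2 : linC ((a : ℂ) + t - pos a T (Sum.inl t)) = PowerSeries.X := by
      rw [h1, linC]; simp
    rw [h2]
    have h3 : 1 ≤ ‖(a : ℂ) + t + pos a T (Sum.inl t)‖ := by
      refine le_trans ?_ (Complex.re_le_norm _)
      rw [Complex.add_re, pos_site_re, Complex.add_re, Complex.natCast_re, Complex.natCast_re]
      linarith
    have h4 := Maj.X.mul (Maj.linC (c := (a : ℂ) + t + pos a T (Sum.inl t)) (D := 1)
      zero_le_one (by rw [mul_one]; exact h3))
    refine h4.mono ?_ (by norm_num)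
    rw [one_mul]
    have := norm_le_exp_KK_self (pos a T (Sum.inl t))
    rw [pos_site] at this ⊢
    exact this
  · have h1 : 1 ≤ ‖(a : ℂ) + t - pos a T p‖ * 2 := by
      rcases p with t' | y
      · have hne : t' ≠ t := by
          intro h'; exact h (by rw [h'])
        have h2 : (a : ℂ) + t - pos a T (Sum.inl t') = (((t : ℤ) - t' : ℤ) : ℂ) := by
          rw [pos_site]; push_cast; ring
        rw [h2, Complex.norm_intCast]
        have h3 : (1 : ℤ) ≤ |(t : ℤ) - t'| := Int.one_le_abs (by omega)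
        have h4 : (1 : ℝ) ≤ |(((t : ℤ) - t' : ℤ) : ℝ)| := by exact_mod_cast h3
        linarith
      · have h2 := Complex.abs_re_le_norm ((a : ℂ) + t - pos a T (Sum.inr y))
        rw [Complex.sub_re, pos_line_re, Complex.add_re, Complex.natCast_re,
          Complex.natCast_re] at h2
        have h3 : (1 / 2 : ℝ) ≤ |(a : ℝ) + t - (a + T - 1 / 2)| := by
          rw [abs_of_nonpos (by linarith)]
          linarith
        linarith
    have h2 : 1 ≤ ‖(a : ℂ) + t + pos a T p‖ := by
      refine le_trans ?_ (Complex.re_le_norm _)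
      rw [Complex.add_re, Complex.add_re, Complex.natCast_re, Complex.natCast_re]
      rcases p with t' | y
      · rw [pos_site_re]
        have : (0 : ℝ) ≤ t' := Nat.cast_nonneg _
        linarith
      · rw [pos_line_re]
        linarith
    have h4 := (Maj.linC (c := (a : ℂ) + t - pos a T p) (D := 2) (by norm_num) h1).mul
      (Maj.linC (c := (a : ℂ) + t + pos a T p) (D := 1) zero_le_one (by rw [mul_one]; exact h2))
    refine h4.mono ?_ (by norm_num)
    have := mul_norm_le_exp_KK (pos a T (Sum.inl t)) (pos a T p)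
    rw [pos_site] at this ⊢
    exact this

lemma Maj_PZ {a T t : ℕ} (ha : 1 ≤ a) (ht : t < T) (Z : List Pt)
    (hZ : ∀ t', Sum.inl t' ∈ Z → t' < T) :
    Maj (Real.exp (pot a T Z (Sum.inl t))) (3 * Z.length) (evS ((a : ℂ) + t) (PZ a T Z)) := by
  induction Z with
  | nil =>
    have : evS ((a : ℂ) + t) (PZ a T []) = 1 := by simp [PZ, evS_one]
    rw [this]
    simpa [pot] using Maj.one
  | cons p Z ih =>
    rw [PZ_cons, evS_mul]
    have h1 := Maj_factor ha ht p (fun t' h => hZ t' (by rw [h]; exact List.mem_cons_self))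
    have h2 := ih fun t' h => hZ t' (List.mem_cons_of_mem _ h)
    refine (h1.mul h2).mono (le_of_eq ?_) (le_of_eq ?_)
    · rw [← Real.exp_add]
      simp [pot]
    · rw [List.length_cons]; push_cast; ring

lemma X_pow_dvd_PZ {a T t : ℕ} (Z : List Pt) :
    (PowerSeries.X : PowerSeries ℂ) ^ (cnt Z t) ∣ evS ((a : ℂ) + t) (PZ a T Z) := by
  induction Z with
  | nil => simp [cnt_nil]
  | cons p Z ih =>
    rw [PZ_cons, evS_mul]
    by_cases h : p = Sum.inl t
    · subst h
      rw [cnt_cons_self, pow_succ, mul_comm]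
      refine mul_dvd_mul ?_ ih
      rw [evS_factor]
      apply Dvd.dvd.mul_right
      have h1 : (a : ℂ) + t - pos a T (Sum.inl t) = 0 := by rw [pos_site]; ring
      rw [h1, linC]
      simp
    · rw [cnt_cons_ne _ _ _ h]
      exact ih.mul_left _

/-- a saturated site does not contribute -/
lemma siteC_sat {r q B a b T t : ℕ} (Z Z' : List Pt) (h : r < cnt Z t ∨ r < cnt Z' t) :
    siteC r q B a b t (PZ a T Z * PZ a T Z') = 0 := by
  have h1 : (PowerSeries.X : PowerSeries ℂ) ^ (r + 1) ∣ evS ((a : ℂ) + t) (PZ a T Z * PZ a T Z') := by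
    rw [evS_mul]
    rcases h with h | h
    · exact ((pow_dvd_pow _ h).trans (X_pow_dvd_PZ Z)).mul_right _
    · exact ((pow_dvd_pow _ h).trans (X_pow_dvd_PZ Z')).mul_left _
  rw [siteC]
  exact (PowerSeries.X_pow_dvd_iff.mp (h1.mul_left _)) r (Nat.lt_succ_self r)

/-- bound for a site -/
lemma siteC_le {r q B a b T t m : ℕ} (ha : 1 ≤ a) (hab : a ≤ b) (hrB : r < B ∨ a = b)
    (ht : t < T) (Z Z' : List Pt)
    (hZ : ∀ t', Sum.inl t' ∈ Z → t' < T) (hZ' : ∀ t', Sum.inl t' ∈ Z' → t' < T)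
    (hm : Z.length < m) (hm' : Z'.length < m) :
    ‖siteC r q B a b t (PZ a T Z * PZ a T Z')‖ ≤
      ((1 + B * (2 * (b - a)) + q * (2 * a - 1) + 6 * m) ^ r * ‖Rc q B a b ((a : ℂ) + t)‖) *
        Real.exp (pot a T Z (Sum.inl t)) * Real.exp (pot a T Z' (Sum.inl t)) := by
  have hab' : (a : ℝ) ≤ b := by exact_mod_cast hab
  have ha' : (1 : ℝ) ≤ a := by exact_mod_cast ha
  have hD0 : (0 : ℝ) ≤ 1 + B * (2 * (b - a)) + q * (2 * a - 1) := by
    have h1 : (0 : ℝ) ≤ B * (2 * (b - a)) := by
      apply mul_nonneg (Nat.cast_nonneg _); linarith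
    have h2 : (0 : ℝ) ≤ q * (2 * a - 1) := by
      apply mul_nonneg (Nat.cast_nonneg _); linarith
    linarith
  by_cases hb : b ≤ a + t
  · have h1 := Maj_RS (q := q) (B := B) ha hab hb
    have h2 := Maj_PZ ha ht Z hZ
    have h3 := Maj_PZ ha ht Z' hZ'
    have h4 := h1.mul (h2.mul h3)
    rw [← evS_mul] at h4
    have h5 := h4.2.2 r
    rw [siteC]
    refine h5.trans ?_
    have h6 : (1 + B * (2 * (b - a)) + q * (2 * a - 1) + (3 * Z.length + 3 * Z'.length) : ℝ) ^ r ≤
        (1 + B * (2 * (b - a)) + q * (2 * a - 1) + 6 * m) ^ r := by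
      apply pow_le_pow_left₀ (by positivity)
      have h7 : (Z.length : ℝ) ≤ m := by exact_mod_cast hm.le
      have h8 : (Z'.length : ℝ) ≤ m := by exact_mod_cast hm'.le
      linarith
    calc _ ≤ ‖Rc q B a b ((a : ℂ) + t)‖ * (Real.exp (pot a T Z (Sum.inl t)) *
          Real.exp (pot a T Z' (Sum.inl t))) *
          (1 + B * (2 * (b - a)) + q * (2 * a - 1) + 6 * m) ^ r :=
          mul_le_mul_of_nonneg_left h6 (by positivity)
      _ = _ := by ring
  · rcases hrB with hrB | hrB
    · rw [siteC_zero hrB (by omega), norm_zero]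
      positivity
    · omega

/-- norm of the polynomial on the line -/
lemma norm_eval_PZ_le {a T : ℕ} (Z : List Pt) (p : Pt) :
    ‖(PZ a T Z).eval ((pos a T p) ^ 2)‖ ≤ Real.exp (pot a T Z p) := by
  induction Z with
  | nil => simp [PZ, pot]
  | cons v Z ih =>
    rw [PZ_cons, eval_mul, norm_mul]
    have h1 : ‖(X - C ((pos a T v) ^ 2) : ℂ[X]).eval ((pos a T p) ^ 2)‖ ≤
        Real.exp (KK (pos a T p) (pos a T v)) := by
      rw [eval_sub, eval_X, eval_C]
      have : (pos a T p) ^ 2 - (pos a T v) ^ 2 =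
          (pos a T p - pos a T v) * (pos a T p + pos a T v) := by ring
      rw [this, norm_mul]
      exact mul_norm_le_exp_KK _ _
    have h2 : pot a T (v :: Z) p = KK (pos a T p) (pos a T v) + pot a T Z p := by simp [pot]
    rw [h2, Real.exp_add]
    exact mul_le_mul h1 ih (norm_nonneg _) (Real.exp_pos _).le

end EM

end Z579
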