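import Pool.Agent.Lib.Z579.BE1
import Pool.Agent.Lib.Z579.E5c

/-!
# BE2: boundedness of the values
-/

open Finset Polynomial

namespace Z579

namespace BE

open EM

/-- error term -/
noncomputable def er (z : ℂ) : ℝ := Real.log 2 + Real.log (1 + ‖z‖ ^ 2)

lemma er_nonneg (z : ℂ) : 0 ≤ er z := by
  unfold er
  have h1 : 0 ≤ Real.log 2 := Real.log_nonneg (by norm_num)
  have h2 : 0 ≤ Real.log (1 + ‖z‖ ^ 2) := Real.log_nonneg (by nlinarith [sq_nonneg ‖z‖])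
  linarith

lemma peetre_up (y z : ℂ) : Real.log (1 + ‖y - z‖ ^ 2) ≤ Real.log (1 + ‖y‖ ^ 2) + er z := by
  unfold er
  have h : Real.log (1 + ‖y‖ ^ 2) + (Real.log 2 + Real.log (1 + ‖z‖ ^ 2)) =
      Real.log ((1 + ‖y‖ ^ 2) * (2 * (1 + ‖z‖ ^ 2))) := by
    rw [Real.log_mul (by positivity) (by positivity), Real.log_mul (by norm_num) (by positivity)]
  rw [h]
  apply Real.log_le_log (by positivity)
  have h1 := norm_sub_le y z
  have h2 : ‖y - z‖ ^ 2 ≤ (‖y‖ + ‖z‖) ^ 2 := pow_le_pow_left₀ (norm_nonneg _) h1 2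
  nlinarith [sq_nonneg (‖y‖ - ‖z‖), mul_nonneg (sq_nonneg ‖y‖) (sq_nonneg ‖z‖)]

lemma peetre_down (y z : ℂ) : Real.log (1 + ‖y‖ ^ 2) ≤ Real.log (1 + ‖y - z‖ ^ 2) + er z := by
  have h := peetre_up (y - z) (-z)
  rw [sub_neg_eq_add, sub_add_cancel] at h
  have h2 : er (-z) = er z := by simp [er]
  rwa [h2] at h

lemma KK_up (y z : ℂ) : KK y z ≤ Real.log (1 + ‖y‖ ^ 2) + er z := by
  unfold KK
  have h1 := peetre_up y z
  have h2 := peetre_up y (-z)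
  have h3 : er (-z) = er z := by simp [er]
  rw [sub_neg_eq_add, h3] at h2
  linarith

lemma KK_down (y z : ℂ) : Real.log (1 + ‖y‖ ^ 2) - er z ≤ KK y z := by
  unfold KK
  have h1 := peetre_down y z
  have h2 := peetre_down y (-z)
  have h3 : er (-z) = er z := by simp [er]
  rw [sub_neg_eq_add, h3] at h2
  linarith

lemma potN_up (Z : List ℕ) (y : ℕ) :
    potN Z y ≤ Z.length * Real.log (1 + (y : ℝ) ^ 2) + (Z.map fun z : ℕ => er z).sum := by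
  induction Z with
  | nil => simp [potN]
  | cons p Z ih =>
    rw [potN_cons, List.map_cons, List.sum_cons, List.length_cons]
    have h := KK_up (y : ℂ) (p : ℂ)
    rw [Complex.norm_natCast] at h
    push_cast
    linarith

lemma sum_KK_up {κ : Type*} (s : Finset κ) (x : κ → ℂ) (c : κ → ℝ) (hc : ∀ k ∈ s, 0 ≤ c k)
    (y : ℕ) : ∑ k ∈ s, c k * KK (y : ℂ) (x k) ≤
      (∑ k ∈ s, c k) * Real.log (1 + (y : ℝ) ^ 2) + ∑ k ∈ s, c k * er (x k) := by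
  rw [Finset.sum_mul, ← Finset.sum_add_distrib]
  refine Finset.sum_le_sum fun k hk => ?_
  rw [← mul_add]
  apply mul_le_mul_of_nonneg_left _ (hc k hk)
  have h := KK_up (y : ℂ) (x k)
  rwa [Complex.norm_natCast] at h

lemma sum_KK_down {κ : Type*} (s : Finset κ) (x : κ → ℂ) (c : κ → ℝ) (hc : ∀ k ∈ s, 0 ≤ c k)
    (y : ℕ) : (∑ k ∈ s, c k) * Real.log (1 + (y : ℝ) ^ 2) - ∑ k ∈ s, c k * er (x k) ≤
      ∑ k ∈ s, c k * KK (y : ℂ) (x k) := by
  rw [Finset.sum_mul, ← Finset.sum_sub_distrib]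
  refine Finset.sum_le_sum fun k hk => ?_
  rw [← mul_sub]
  apply mul_le_mul_of_nonneg_left _ (hc k hk)
  have h := KK_down (y : ℂ) (x k)
  rwa [Complex.norm_natCast] at h

lemma log_sq_nonneg (y : ℕ) : 0 ≤ Real.log (1 + (y : ℝ) ^ 2) :=
  Real.log_nonneg (by nlinarith [sq_nonneg (y : ℝ)])

/-- row values are bounded -/
theorem bdR {κ : Type*} (s : Finset κ) (x : κ → ℂ) (c : κ → ℝ) (hc : ∀ k ∈ s, 0 ≤ c k)
    {M : ℕ} (hM : ∑ k ∈ s, c k = M) (Z : List ℕ) (hZ : Z.length < M) :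
    ∃ V : ℝ, ∀ y : ℕ, valN (fun y => Real.exp (-∑ k ∈ s, c k * KK (y : ℂ) (x k))) Z y ≤ V := by
  refine ⟨Real.exp (∑ k ∈ s, c k * er (x k) + (Z.map fun z : ℕ => er z).sum), fun y => ?_⟩
  unfold valN
  rw [← Real.exp_add, Real.exp_le_exp]
  have h1 := potN_up Z y
  have h2 := sum_KK_down s x c hc y
  rw [hM] at h2
  have h3 : (Z.length : ℝ) ≤ M := by exact_mod_cast hZ.le
  have h4 := mul_le_mul_of_nonneg_right h3 (log_sq_nonneg y)
  linarith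

/-- column values are bounded -/
theorem bdC {κ : Type*} (s : Finset κ) (x : κ → ℂ) (c : κ → ℝ) (hc : ∀ k ∈ s, 0 ≤ c k)
    {M K N : ℕ} (hM : ∑ k ∈ s, c k = M) (hN : M + K ≤ N + 1) {S : Set ℕ} {w : ℕ → ℝ} {W : ℝ}
    (hw0 : ∀ y, 0 ≤ w y) (hw : ∀ y ∈ S, w y * (1 + (y : ℝ) ^ 2) ^ N ≤ W) (Z : List ℕ)
    (hZ : Z.length < K) :
    ∃ V : ℝ, ∀ y ∈ S, valN (fun y => w y * Real.exp (∑ k ∈ s, c k * KK (y : ℂ) (x k))) Z y ≤ V := by
  refine ⟨W * Real.exp (∑ k ∈ s, c k * er (x k) + (Z.map fun z : ℕ => er z).sum),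
    fun y hy => ?_⟩
  unfold valN
  have h1 := potN_up Z y
  have h2 := sum_KK_up s x c hc y
  rw [hM] at h2
  have h3 : (M : ℝ) + Z.length ≤ N := by
    have : M + Z.length ≤ N := by omega
    exact_mod_cast this
  have h4 := mul_le_mul_of_nonneg_right h3 (log_sq_nonneg y)
  have h5 : (1 + (y : ℝ) ^ 2) ^ N = Real.exp (N * Real.log (1 + (y : ℝ) ^ 2)) := by
    rw [Real.exp_nat_mul, Real.exp_log (by positivity)]
  have h6 := hw y hy
  rw [h5] at h6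
  calc w y * Real.exp (∑ k ∈ s, c k * KK (y : ℂ) (x k)) * Real.exp (potN Z y)
      = w y * Real.exp (∑ k ∈ s, c k * KK (y : ℂ) (x k) + potN Z y) := by
        rw [Real.exp_add, mul_assoc]
    _ ≤ w y * Real.exp (N * Real.log (1 + (y : ℝ) ^ 2) +
          (∑ k ∈ s, c k * er (x k) + (Z.map fun z : ℕ => er z).sum)) := by
        apply mul_le_mul_of_nonneg_left _ (hw0 y)
        rw [Real.exp_le_exp]
        linarith
    _ = w y * Real.exp (N * Real.log (1 + (y : ℝ) ^ 2)) *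
          Real.exp (∑ k ∈ s, c k * er (x k) + (Z.map fun z : ℕ => er z).sum) := by
        rw [Real.exp_add, mul_assoc]
    _ ≤ _ := mul_le_mul_of_nonneg_right h6 (Real.exp_nonneg _)

/-! ## decay of `R` -/

lemma factor_ge {a y : ℕ} (hay : a ≤ y) {w : ℤ} (hw : w ∈ pc a) :
    ((1 : ℝ) + y) / (a + 1) ≤ ‖(y : ℂ) + (w : ℂ)‖ := by
  rw [mem_pc] at hw
  have h1 : (1 : ℤ) ≤ (y : ℤ) - a + 1 := by omega
  have h2 : (y : ℤ) - a + 1 ≤ y + w := by omega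
  have h3 : ‖(y : ℂ) + (w : ℂ)‖ = (y : ℝ) + w := by
    have e : (y : ℂ) + (w : ℂ) = (((y : ℝ) + w : ℝ) : ℂ) := by push_cast; rfl
    rw [e, Complex.norm_real, Real.norm_of_nonneg]
    have : (0 : ℤ) ≤ y + w := by omega
    exact_mod_cast this
  rw [h3, div_le_iff₀ (by positivity)]
  have h4 : (y : ℝ) - a + 1 ≤ y + w := by exact_mod_cast h2
  have h5 : (a : ℝ) ≤ y := by exact_mod_cast hay
  have h6 : (0 : ℝ) ≤ a := Nat.cast_nonneg a
  have h7 : (1 : ℝ) + y ≤ (y - a + 1) * (a + 1) := by nlinarith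
  exact h7.trans (mul_le_mul_of_nonneg_right h4 (by positivity))

lemma Rc_decay {q a y : ℕ} (ha : 1 ≤ a) (hay : a ≤ y) :
    ‖Rc q 0 a a (y : ℂ)‖ ≤ 2 * ((a : ℝ) + 1) ^ (q * (2 * a - 1)) * (1 + (y : ℝ)) /
      (1 + (y : ℝ)) ^ (q * (2 * a - 1)) := by
  have hprod : (((1 : ℝ) + y) / (a + 1)) ^ (2 * a - 1) ≤ ‖∏ w ∈ pc a, ((y : ℂ) + (w : ℂ))‖ := by
    rw [norm_prod]
    calc (((1 : ℝ) + y) / (a + 1)) ^ (2 * a - 1) = ∏ w ∈ pc a, (((1 : ℝ) + y) / (a + 1)) := by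
          rw [Finset.prod_const, card_pc ha]
      _ ≤ _ := Finset.prod_le_prod (fun _ _ => by positivity) fun w hw => factor_ge hay hw
  unfold Rc
  rw [pow_zero, mul_one, norm_div, norm_pow, norm_mul, Complex.norm_natCast]
  have h2 : ‖(2 : ℂ)‖ = 2 := by simp
  rw [h2]
  have hp : (0 : ℝ) < (((1 : ℝ) + y) / (a + 1)) ^ (2 * a - 1) := by positivity
  have h3 : (2 : ℝ) * y / ‖∏ w ∈ pc a, ((y : ℂ) + (w : ℂ))‖ ^ q ≤
      (2 * (1 + (y : ℝ))) / ((((1 : ℝ) + y) / (a + 1)) ^ (2 * a - 1)) ^ q := by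
    apply div_le_div₀ (by positivity) (by linarith) (by positivity)
    exact pow_le_pow_left₀ hp.le hprod q
  refine h3.trans (le_of_eq ?_)
  rw [← pow_mul, div_pow, mul_comm (2 * a - 1) q]
  field_simp

end BE

end Z579
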