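import Pool.Agent.Lib.Z579.BE2

/-!
# BE3: the functional `F` (sum over the sites) and its entries
-/

open Finset Polynomial

namespace Z579

namespace BE

open EM

/-- weight at the sites -/
noncomputable def wA (q a y : ℕ) : ℝ := (1 + (y : ℝ)) ^ 2 * ‖Rc q 0 a a (y : ℂ)‖

lemma wA_nonneg (q a y : ℕ) : 0 ≤ wA q a y := by unfold wA; positivity

/-- moments of `F` -/
noncomputable def momA (q a k : ℕ) : ℂ :=
  ∑' t : ℕ, Rc q 0 a a ((a + t : ℕ) : ℂ) * (((a + t : ℕ) : ℂ) ^ 2) ^ k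

lemma Rc_decay' {q a y k : ℕ} (ha : 1 ≤ a) (hay : a ≤ y) (hk : 2 * k + 3 ≤ q * (2 * a - 1)) :
    ‖Rc q 0 a a (y : ℂ)‖ * (1 + (y : ℝ) ^ 2) ^ k ≤
      2 * ((a : ℝ) + 1) ^ (q * (2 * a - 1)) * (1 / (1 + (y : ℝ)) ^ 2) := by
  have h := Rc_decay (q := q) ha hay
  set N := q * (2 * a - 1) with hN
  obtain ⟨j, hj⟩ : ∃ j, N = 2 * k + 3 + j := ⟨N - (2 * k + 3), by omega⟩
  have hy0 : (0 : ℝ) ≤ y := Nat.cast_nonneg y
  have h1 : (1 + (y : ℝ) ^ 2) ^ k ≤ (1 + (y : ℝ)) ^ (2 * k) := by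
    rw [pow_mul]
    apply pow_le_pow_left₀ (by positivity)
    nlinarith
  calc ‖Rc q 0 a a (y : ℂ)‖ * (1 + (y : ℝ) ^ 2) ^ k
      ≤ (2 * ((a : ℝ) + 1) ^ N * (1 + (y : ℝ)) / (1 + (y : ℝ)) ^ N) * (1 + (y : ℝ)) ^ (2 * k) :=
        mul_le_mul h h1 (by positivity) (by positivity)
    _ = 2 * ((a : ℝ) + 1) ^ N * (1 / ((1 + (y : ℝ)) ^ 2 * (1 + (y : ℝ)) ^ j)) := by
        have : (1 + (y : ℝ)) ^ N = (1 + (y : ℝ)) * (1 + (y : ℝ)) ^ (2 * k) * (1 + (y : ℝ)) ^ 2 *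
            (1 + (y : ℝ)) ^ j := by
          rw [hj, pow_add, pow_add]; ring
        rw [this]
        field_simp
    _ ≤ _ := by
        apply mul_le_mul_of_nonneg_left _ (by positivity)
        apply div_le_div_of_nonneg_left (by norm_num) (by positivity)
        exact le_mul_of_one_le_right (by positivity) (one_le_pow₀ (by linarith))

lemma summable_site : Summable fun t : ℕ => 1 / ((t : ℝ) + 1) ^ 2 := by
  have h := (summable_nat_add_iff 1).2 (Real.summable_one_div_nat_pow.2 (show 1 < 2 by norm_num))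
  simpa using h

/-- the constant of the site sum -/
noncomputable def CS : ℝ := ∑' t : ℕ, 1 / ((t : ℝ) + 1) ^ 2

lemma CS_nonneg : 0 ≤ CS := tsum_nonneg fun t => by positivity

lemma summable_momA {q a k : ℕ} (ha : 1 ≤ a) (hk : 2 * k + 3 ≤ q * (2 * a - 1)) :
    Summable fun t : ℕ => Rc q 0 a a ((a + t : ℕ) : ℂ) * (((a + t : ℕ) : ℂ) ^ 2) ^ k := by
  refine Summable.of_norm_bounded (g := fun t : ℕ =>
    2 * ((a : ℝ) + 1) ^ (q * (2 * a - 1)) * (1 / ((t : ℝ) + 1) ^ 2))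
    (summable_site.mul_left _) fun t => ?_
  rw [norm_mul, norm_pow, norm_pow, Complex.norm_natCast]
  have h1 := Rc_decay' (q := q) (k := k) ha (Nat.le_add_right a t) hk
  have h2 : ((((a + t : ℕ) : ℝ)) ^ 2) ^ k ≤ (1 + ((a + t : ℕ) : ℝ) ^ 2) ^ k :=
    pow_le_pow_left₀ (by positivity) (by linarith) k
  refine (mul_le_mul_of_nonneg_left h2 (norm_nonneg _)).trans (h1.trans ?_)
  apply mul_le_mul_of_nonneg_left _ (by positivity)
  apply div_le_div_of_nonneg_left (by norm_num) (by positivity)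
  apply pow_le_pow_left₀ (by positivity)
  push_cast
  have : (0 : ℝ) ≤ a := Nat.cast_nonneg a
  linarith

theorem LC_momA {q a D : ℕ} (ha : 1 ≤ a) (hD : 2 * D + 3 ≤ q * (2 * a - 1)) (G : ℂ[X])
    (hG : G.natDegree ≤ D) :
    HasSum (fun t : ℕ => Rc q 0 a a ((a + t : ℕ) : ℂ) * G.eval (((a + t : ℕ) : ℂ) ^ 2))
      (LC (momA q a) G) := by
  have hG' : G.natDegree < D + 1 := by omega
  rw [LC_apply _ _ hG']
  have h1 : ∀ t : ℕ, Rc q 0 a a ((a + t : ℕ) : ℂ) * G.eval (((a + t : ℕ) : ℂ) ^ 2) =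
      ∑ k ∈ Finset.range (D + 1), G.coeff k *
        (Rc q 0 a a ((a + t : ℕ) : ℂ) * (((a + t : ℕ) : ℂ) ^ 2) ^ k) := by
    intro t
    rw [Polynomial.eval_eq_sum_range' hG', Finset.mul_sum]
    exact Finset.sum_congr rfl fun k _ => by ring
  simp_rw [h1]
  refine hasSum_sum fun k hk => ?_
  rw [mem_range] at hk
  exact (summable_momA ha (by omega)).hasSum.mul_left _

/-! ## values of the polynomials -/

lemma norm_eval_PN_le (Z : List ℕ) (y : ℕ) :
    ‖(PN Z).eval ((y : ℂ) ^ 2)‖ ≤ Real.exp (potN Z y) := by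
  induction Z with
  | nil => simp [PN, potN]
  | cons v Z ih =>
    rw [PN_cons, eval_mul, norm_mul, potN_cons, Real.exp_add]
    have h1 : ‖(X - C ((v : ℂ) ^ 2) : ℂ[X]).eval ((y : ℂ) ^ 2)‖ ≤
        Real.exp (KK (y : ℂ) (v : ℂ)) := by
      rw [eval_sub, eval_X, eval_C]
      have : (y : ℂ) ^ 2 - (v : ℂ) ^ 2 = ((y : ℂ) - v) * ((y : ℂ) + v) := by ring
      rw [this, norm_mul]
      exact mul_norm_le_exp_KK _ _
    exact mul_le_mul h1 ih (norm_nonneg _) (Real.exp_pos _).le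

lemma eval_PN_mem {Z : List ℕ} {y : ℕ} (h : y ∈ Z) : (PN Z).eval ((y : ℂ) ^ 2) = 0 := by
  induction Z with
  | nil => simp at h
  | cons v Z ih =>
    rw [PN_cons, eval_mul]
    rcases List.mem_cons.1 h with h | h
    · subst h
      simp
    · rw [ih h, mul_zero]

/-- bound for the entries of the first block -/
theorem entryA {q a M K : ℕ} (ha : 1 ≤ a) (hdeg : 2 * (M + K) + 1 ≤ q * (2 * a - 1)) (U : ℕ → ℝ)
    (Z Z' : List ℕ) (hm : Z.length < M) (hm' : Z'.length < K) (V V' : ℝ) (hV0 : 0 ≤ V)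
    (hV0' : 0 ≤ V')
    (hV : ∀ y, av a Set.univ Z y → valN (fun y => Real.exp (-U y)) Z y ≤ V)
    (hV' : ∀ y, av a {y | a ≤ y} Z' y → valN (fun y => wA q a y * Real.exp (U y)) Z' y ≤ V') :
    ‖LC (momA q a) (PN Z * PN Z')‖ ≤ CS * V * V' := by
  have hd : (PN Z * PN Z').natDegree ≤ M + K - 2 := by
    rw [(PN_monic Z).natDegree_mul (PN_monic Z'), PN_natDegree, PN_natDegree]
    omega
  have hs := LC_momA (q := q) ha (D := M + K - 2) (by omega) _ hd
  rw [← hs.tsum_eq, CS, mul_assoc, ← tsum_mul_right]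
  have hb : ∀ t : ℕ, ‖Rc q 0 a a ((a + t : ℕ) : ℂ) * (PN Z * PN Z').eval (((a + t : ℕ) : ℂ) ^ 2)‖ ≤
      1 / ((t : ℝ) + 1) ^ 2 * (V * V') := by
    intro t
    set y := a + t with hy
    by_cases h : y ∈ Z ∨ y ∈ Z'
    · have h0 : (PN Z * PN Z').eval ((y : ℂ) ^ 2) = 0 := by
        rw [eval_mul]
        rcases h with h | h
        · rw [eval_PN_mem h, zero_mul]
        · rw [eval_PN_mem h, mul_zero]
      rw [h0, mul_zero, norm_zero]
      positivity
    · rw [not_or] at h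
      have h1 := hV y ⟨Set.mem_univ _, fun _ => h.1⟩
      have h2 := hV' y ⟨Nat.le_add_right a t, fun _ => h.2⟩
      have h3 := mul_le_mul h1 h2 (valN_nonneg (fun y => mul_nonneg (wA_nonneg q a y)
        (Real.exp_nonneg _)) Z' y) hV0
      unfold valN at h3
      have e : Real.exp (-U y) * Real.exp (potN Z y) * (wA q a y * Real.exp (U y) *
          Real.exp (potN Z' y)) = wA q a y * (Real.exp (potN Z y) * Real.exp (potN Z' y)) := by
        have : Real.exp (-U y) * Real.exp (U y) = 1 := by rw [← Real.exp_add]; simp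
        linear_combination (wA q a y * (Real.exp (potN Z y) * Real.exp (potN Z' y))) * this
      rw [e] at h3
      have h4 := norm_eval_PN_le Z y
      have h5 := norm_eval_PN_le Z' y
      rw [norm_mul, eval_mul, norm_mul, div_mul_eq_mul_div, one_mul, le_div_iff₀ (by positivity)]
      have h6 : ((t : ℝ) + 1) ^ 2 ≤ (1 + (y : ℝ)) ^ 2 := by
        apply pow_le_pow_left₀ (by positivity)
        rw [hy]
        push_cast
        have : (0 : ℝ) ≤ a := Nat.cast_nonneg a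
        linarith
      calc ‖Rc q 0 a a (y : ℂ)‖ * (‖(PN Z).eval ((y : ℂ) ^ 2)‖ * ‖(PN Z').eval ((y : ℂ) ^ 2)‖) *
            ((t : ℝ) + 1) ^ 2
          ≤ ‖Rc q 0 a a (y : ℂ)‖ * (Real.exp (potN Z y) * Real.exp (potN Z' y)) *
            (1 + (y : ℝ)) ^ 2 := by
            apply mul_le_mul _ h6 (by positivity) (by positivity)
            apply mul_le_mul_of_nonneg_left _ (norm_nonneg _)
            exact mul_le_mul h4 h5 (norm_nonneg _) (Real.exp_nonneg _)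
        _ = wA q a y * (Real.exp (potN Z y) * Real.exp (potN Z' y)) := by
            unfold wA; ring
        _ ≤ _ := h3
  have hsum : Summable fun t : ℕ => 1 / ((t : ℝ) + 1) ^ 2 * (V * V') := summable_site.mul_right _
  exact tsum_of_norm_bounded hsum.hasSum hb

/-- the weight condition for `bdC` -/
theorem wA_bdd {q a N : ℕ} (ha : 1 ≤ a) (hN : 2 * N + 3 ≤ q * (2 * a - 1)) :
    ∃ W : ℝ, ∀ y ∈ {y : ℕ | a ≤ y}, wA q a y * (1 + (y : ℝ) ^ 2) ^ N ≤ W := by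
  refine ⟨2 * ((a : ℝ) + 1) ^ (q * (2 * a - 1)), fun y hy => ?_⟩
  have hay : a ≤ y := hy
  have h := Rc_decay' (q := q) (k := N) ha hay hN
  have hy1 : (0 : ℝ) < (1 + (y : ℝ)) ^ 2 := by positivity
  unfold wA
  calc (1 + (y : ℝ)) ^ 2 * ‖Rc q 0 a a (y : ℂ)‖ * (1 + (y : ℝ) ^ 2) ^ N
      = (‖Rc q 0 a a (y : ℂ)‖ * (1 + (y : ℝ) ^ 2) ^ N) * (1 + (y : ℝ)) ^ 2 := by ring
    _ ≤ (2 * ((a : ℝ) + 1) ^ (q * (2 * a - 1)) * (1 / (1 + (y : ℝ)) ^ 2)) * (1 + (y : ℝ)) ^ 2 :=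
        mul_le_mul_of_nonneg_right h hy1.le
    _ = _ := by field_simp

end BE

end Z579
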