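import Pool.Agent.Lib.Z579.BE3

/-!
# BE4: the functional `λ'` (residues at the nodes) and its entries
-/

open Finset Polynomial

namespace Z579

namespace BE

open EM

/-- weight at the nodes -/
noncomputable def wB (q a y : ℕ) : ℝ := ((∏ w ∈ (pc a).erase (y : ℤ), ‖(w : ℂ) - y‖)⁻¹) ^ q

lemma wB_nonneg (q a y : ℕ) : 0 ≤ wB q a y := by
  unfold wB
  exact pow_nonneg (inv_nonneg.2 (Finset.prod_nonneg fun _ _ => norm_nonneg _)) _

/-- moments of `λ'` -/
noncomputable def momB (q a : ℕ) (β : ℕ → ℚ) (k : ℕ) : ℂ :=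
  ((Lw 0 q 0 a a (fun _ i => β i) (X ^ k) : ℚ) : ℂ)

/-- node functional -/
noncomputable def nodeC (q a : ℕ) (u : ℤ) (s : ℕ) (G : ℂ[X]) : ℂ :=
  PowerSeries.coeff (q - s) (PowerSeries.map (algebraMap ℚ ℂ) (base q 0 a a u) *
    evS ((-u : ℤ) : ℂ) G)

lemma nodeC_X_pow (q a : ℕ) (u : ℤ) (s k : ℕ) :
    nodeC q a u s (X ^ k) = ((Acoef q 0 a a u s (X ^ k) : ℚ) : ℂ) := by
  have h : PowerSeries.map (algebraMap ℚ ℂ) (base q 0 a a u) * evS ((-u : ℤ) : ℂ) (X ^ k) =
      PowerSeries.map (algebraMap ℚ ℂ) (base q 0 a a u *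
        Polynomial.aeval (lin (-u) ^ 2) (X ^ k : ℚ[X])) := by
    rw [map_mul, evS]
    congr 1
    rw [map_pow, aeval_X, map_pow, aeval_X, map_pow, map_pow, map_lin]
  rw [nodeC, h, PowerSeries.coeff_map, Acoef_apply]
  rfl

lemma nodeC_sum (q a : ℕ) (u : ℤ) (s : ℕ) (G : ℂ[X]) {D : ℕ} (hD : G.natDegree < D) :
    nodeC q a u s G = ∑ k ∈ Finset.range D, G.coeff k * nodeC q a u s (X ^ k) := by
  have h : evS ((-u : ℤ) : ℂ) G =
      ∑ k ∈ Finset.range D, G.coeff k • evS ((-u : ℤ) : ℂ) (X ^ k) := by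
    conv_lhs => rw [G.as_sum_range' D hD]
    rw [evS, map_sum]
    refine Finset.sum_congr rfl fun k _ => ?_
    rw [← C_mul_X_pow_eq_monomial, evS, map_mul, aeval_C, Algebra.smul_def]
  rw [nodeC, h, Finset.mul_sum, map_sum]
  refine Finset.sum_congr rfl fun k _ => ?_
  rw [mul_smul_comm, PowerSeries.coeff_smul, smul_eq_mul, nodeC]

theorem LC_momB (q a : ℕ) (β : ℕ → ℚ) (G : ℂ[X]) :
    LC (momB q a β) G = ∑ u ∈ pc a, ∑ s ∈ Finset.Icc 1 q, (β s : ℂ) * nodeC q a u s G := by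
  have hG' : G.natDegree < G.natDegree + 1 := Nat.lt_succ_self _
  rw [LC_apply _ _ hG']
  have h1 : ∀ k, momB q a β k =
      ∑ u ∈ pc a, ∑ s ∈ Finset.Icc 1 q, (β s : ℂ) * nodeC q a u s (X ^ k) := by
    intro k
    rw [momB, Lw_apply]
    push_cast
    refine Finset.sum_congr rfl fun u _ => Finset.sum_congr rfl fun s _ => ?_
    rw [nodeC_X_pow]
    simp
  simp_rw [h1, Finset.mul_sum]
  rw [Finset.sum_comm]
  refine Finset.sum_congr rfl fun u _ => ?_
  rw [Finset.sum_comm]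
  refine Finset.sum_congr rfl fun s _ => ?_
  rw [nodeC_sum q a u s G hG', Finset.mul_sum]
  exact Finset.sum_congr rfl fun k _ => by ring

/-! ## majorants -/

lemma exp_half_log (x : ℝ) : Real.exp (1 / 2 * Real.log (1 + x ^ 2)) = √(1 + x ^ 2) := by
  rw [Real.sqrt_eq_rpow, Real.rpow_def_of_pos (by positivity)]
  congr 1
  ring

lemma Maj.linC' (c : ℂ) : Maj (√(1 + ‖c‖ ^ 2)) 1 (linC c) := by
  refine ⟨Real.sqrt_nonneg _, zero_le_one, fun n => ?_⟩
  rw [one_pow, mul_one, EM.linC, map_add, PowerSeries.coeff_X, PowerSeries.coeff_C]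
  rcases Nat.lt_trichotomy n 1 with h1 | h1 | h1
  · have : n = 0 := by omega
    subst this
    simp only [zero_ne_one, if_false, if_true, zero_add]
    apply Real.le_sqrt_of_sq_le
    linarith
  · subst h1
    simp only [if_true, one_ne_zero, if_false, add_zero, norm_one]
    apply Real.le_sqrt_of_sq_le
    nlinarith [sq_nonneg ‖c‖]
  · rw [if_neg (by omega), if_neg (by omega)]
    simp only [add_zero, norm_zero]
    exact Real.sqrt_nonneg _

lemma exp_KK (c z : ℂ) :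
    Real.exp (KK c z) = √(1 + ‖c - z‖ ^ 2) * √(1 + ‖c + z‖ ^ 2) := by
  unfold KK
  rw [Real.exp_add, exp_half_log, exp_half_log]

/-- potential at a complex point -/
noncomputable def potC (Z : List ℕ) (c : ℂ) : ℝ := (Z.map fun z : ℕ => KK c (z : ℂ)).sum

lemma Maj_PN (Z : List ℕ) (c : ℂ) :
    Maj (Real.exp (potC Z c)) (2 * Z.length) (evS c (PN Z)) := by
  induction Z with
  | nil =>
    rw [PN_nil, evS_one]
    simpa [potC] using Maj.one
  | cons v Z ih =>
    rw [PN_cons, evS_mul, evS_factor]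
    have h1 := (Maj.linC' (c - v)).mul (Maj.linC' (c + v))
    rw [← exp_KK] at h1
    refine (h1.mul ih).mono (le_of_eq ?_) (le_of_eq ?_)
    · rw [← Real.exp_add]
      simp [potC]
    · rw [List.length_cons]; push_cast; ring

lemma KK_neg_left (y z : ℂ) : KK (-y) z = KK y z := by
  unfold KK
  have h1 : ‖-y - z‖ = ‖y + z‖ := by rw [← norm_neg]; congr 1; ring
  have h2 : ‖-y + z‖ = ‖y - z‖ := by rw [← norm_neg]; congr 1; ring
  rw [h1, h2, add_comm]

lemma neg_int_cast_cases (u : ℤ) :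
    ((-u : ℤ) : ℂ) = (u.natAbs : ℂ) ∨ ((-u : ℤ) : ℂ) = -(u.natAbs : ℂ) := by
  rcases Int.natAbs_eq u with h | h
  · right
    generalize u.natAbs = n at h
    rw [h]
    push_cast
    rfl
  · left
    have : (-u : ℤ) = (u.natAbs : ℤ) := by omega
    rw [this]
    generalize u.natAbs = n
    push_cast
    rfl

lemma potC_node (Z : List ℕ) (u : ℤ) : potC Z ((-u : ℤ) : ℂ) = potN Z u.natAbs := by
  unfold potC potN
  congr 1
  refine List.map_congr_left fun z _ => ?_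
  rcases neg_int_cast_cases u with h | h
  · rw [h]
  · rw [h, KK_neg_left]

lemma pc_neg {a : ℕ} {w : ℤ} (hw : w ∈ pc a) : -w ∈ pc a := by
  rw [mem_pc] at *
  omega

lemma wB_node (q a : ℕ) (u : ℤ) :
    ((∏ w ∈ (pc a).erase u, ‖(w : ℂ) - u‖)⁻¹) ^ q = wB q a u.natAbs := by
  unfold wB
  congr 2
  rcases Int.natAbs_eq u with h | h
  · rw [h, Int.natAbs_natCast]
    rfl
  · have hcast : (u : ℂ) = -((u.natAbs : ℕ) : ℂ) := by
      generalize u.natAbs = n at h
      rw [h]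
      push_cast
      rfl
    refine Finset.prod_nbij' (fun w => -w) (fun w => -w) ?_ ?_ ?_ ?_ ?_
    · intro w hw
      rw [Finset.mem_erase] at *
      exact ⟨fun h' => hw.1 (by omega), pc_neg hw.2⟩
    · intro w hw
      rw [Finset.mem_erase] at *
      exact ⟨fun h' => hw.1 (by omega), pc_neg hw.2⟩
    · intro w _; exact neg_neg w
    · intro w _; exact neg_neg w
    · intro w _
      rw [hcast, ← norm_neg]
      congr 1
      push_cast
      ring

lemma map_base (q a : ℕ) (u : ℤ) :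
    PowerSeries.map (algebraMap ℚ ℂ) (base q 0 a a u) =
      (PowerSeries.C (2 : ℂ) * linC ((-u : ℤ) : ℂ)) *
        (∏ w ∈ (pc a).erase u, (linC ((w : ℂ) - u))⁻¹) ^ q := by
  rw [base, pow_zero, mul_one, map_mul, map_mul, map_pow, map_lin]
  have e2 : PowerSeries.map (algebraMap ℚ ℂ) (2 : PowerSeries ℚ) = PowerSeries.C (2 : ℂ) := by
    rw [map_ofNat, map_ofNat]
  have e3 : (∏ w ∈ (pc a).erase u, lin (w - u)) = ∏ w ∈ (pc a).erase u, lin (-u + w) :=
    Finset.prod_congr rfl fun w _ => by rw [neg_add_eq_sub]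
  rw [e2, e3, map_inv_prod_lin (fun w hw => by
    rw [Finset.mem_erase] at hw
    intro h
    exact hw.1 (by omega))]
  congr 2
  refine Finset.prod_congr rfl fun w _ => ?_
  congr 2
  push_cast
  ring

lemma card_pc_erase {a : ℕ} (ha : 1 ≤ a) {u : ℤ} (hu : u ∈ pc a) :
    ((pc a).erase u).card = 2 * a - 2 := by
  rw [Finset.card_erase_of_mem hu, card_pc ha]
  omega

lemma Maj_base {q a : ℕ} (ha : 1 ≤ a) {u : ℤ} (hu : u ∈ pc a) :
    Maj (2 * (a + 1 : ℝ) * wB q a u.natAbs) (1 + q * (2 * a))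
      (PowerSeries.map (algebraMap ℚ ℂ) (base q 0 a a u)) := by
  rw [map_base, ← wB_node]
  have m0 : Maj (‖(2 : ℂ)‖) 0 (PowerSeries.C (2 : ℂ)) := by
    refine ⟨norm_nonneg _, le_rfl, fun n => ?_⟩
    rw [PowerSeries.coeff_C]
    split_ifs with h
    · subst h; simp
    · simp [h]
  have m1 := m0.mul (Maj.linC' ((-u : ℤ) : ℂ))
  have m3 : Maj (∏ w ∈ (pc a).erase u, ‖(w : ℂ) - u‖⁻¹) (∑ w ∈ (pc a).erase u, (1 : ℝ))
      (∏ w ∈ (pc a).erase u, (linC ((w : ℂ) - u))⁻¹) := by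
    refine Maj.prod _ _ _ _ fun w hw => ?_
    rw [Finset.mem_erase] at hw
    have h1 : (1 : ℝ) ≤ ‖(w : ℂ) - u‖ := by
      have e : (w : ℂ) - u = ((w - u : ℤ) : ℂ) := by push_cast; rfl
      rw [e, Complex.norm_intCast]
      have h3 : (1 : ℤ) ≤ |w - u| := Int.one_le_abs (sub_ne_zero.2 hw.1)
      exact_mod_cast h3
    refine Maj.linC_inv ?_ ?_
    · intro h
      rw [h, norm_zero] at h1
      linarith
    · rw [mul_one]; exact h1
  have m4 := m1.mul (m3.pow q)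
  have hu' := (mem_pc.1 hu)
  refine m4.mono ?_ ?_
  · rw [Finset.prod_inv_distrib]
    apply mul_le_mul_of_nonneg_right _ (by positivity)
    have h2 : ‖(2 : ℂ)‖ = 2 := by simp
    rw [h2]
    apply mul_le_mul_of_nonneg_left _ (by norm_num)
    rw [Complex.norm_intCast]
    apply Real.sqrt_le_iff.2
    refine ⟨by positivity, ?_⟩
    have h3 : |((-u : ℤ) : ℝ)| ≤ a := by
      rw [abs_le]
      have h4 : (1 - (a : ℤ)) ≤ u := hu'.1
      have h5 : u ≤ (a : ℤ) - 1 := hu'.2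
      constructor
      · have : (-(a : ℤ)) ≤ -u := by omega
        exact_mod_cast this
      · have : -u ≤ (a : ℤ) := by omega
        exact_mod_cast this
    have h6 : |((-u : ℤ) : ℝ)| ^ 2 ≤ (a : ℝ) ^ 2 := pow_le_pow_left₀ (abs_nonneg _) h3 2
    nlinarith [(Nat.cast_nonneg a : (0 : ℝ) ≤ a)]
  · rw [Finset.sum_const, card_pc_erase ha hu, nsmul_eq_mul, mul_one, zero_add]
    have : ((2 * a - 2 : ℕ) : ℝ) ≤ 2 * a := by
      have h : 2 * a - 2 ≤ 2 * a := by omega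
      exact_mod_cast h
    have := mul_le_mul_of_nonneg_left this (Nat.cast_nonneg (α := ℝ) q)
    linarith

/-- the constant of the second block -/
noncomputable def CB (q a M K : ℕ) (β : ℕ → ℚ) : ℝ :=
  2 * a * ((∑ s ∈ Finset.Icc 1 q, |(β s : ℝ)|) * (2 * (a + 1 : ℝ) *
    (1 + q * (2 * a) + 2 * (M + K)) ^ q))

lemma CB_nonneg (q a M K : ℕ) (β : ℕ → ℚ) : 0 ≤ CB q a M K β := by
  unfold CB
  have : 0 ≤ ∑ s ∈ Finset.Icc 1 q, |(β s : ℝ)| := Finset.sum_nonneg fun _ _ => abs_nonneg _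
  positivity

/-- bound for the entries of the second block -/
theorem entryB {q a M K : ℕ} (ha : 1 ≤ a) (β : ℕ → ℚ) (U : ℕ → ℝ)
    (Z Z' : List ℕ) (hm : Z.length < M) (hm' : Z'.length < K) (V V' : ℝ) (hV0 : 0 ≤ V)
    (_hV0' : 0 ≤ V')
    (hV : ∀ y, av a Set.univ Z y → valN (fun y => Real.exp (-U y)) Z y ≤ V)
    (hV' : ∀ y, av a {y | y < a} Z' y → valN (fun y => wB q a y * Real.exp (U y)) Z' y ≤ V') :
    ‖LC (momB q a β) (PN Z * PN Z')‖ ≤ CB q a M K β * V * V' := by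
  rw [LC_momB]
  have hE : (0 : ℝ) ≤ 2 * (a + 1 : ℝ) * (1 + q * (2 * a) + 2 * (M + K)) ^ q := by positivity
  have hVV : 0 ≤ V * V' := mul_nonneg hV0 _hV0'
  have hnode : ∀ u ∈ pc a, ∀ s, ‖nodeC q a u s (PN Z * PN Z')‖ ≤
      2 * (a + 1 : ℝ) * (1 + q * (2 * a) + 2 * (M + K)) ^ q * (V * V') := by
    intro u hu s
    have hu' := mem_pc.1 hu
    have hlt : u.natAbs < a := by omega
    have h1 := hV u.natAbs ⟨Set.mem_univ _, fun h => by omega⟩
    have h2 := hV' u.natAbs ⟨hlt, fun h => by omega⟩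
    have h3 := mul_le_mul h1 h2 (valN_nonneg (fun y => mul_nonneg (wB_nonneg q a y)
      (Real.exp_nonneg _)) Z' _) hV0
    unfold valN at h3
    have e : Real.exp (-U u.natAbs) * Real.exp (potN Z u.natAbs) * (wB q a u.natAbs *
        Real.exp (U u.natAbs) * Real.exp (potN Z' u.natAbs)) =
        wB q a u.natAbs * (Real.exp (potN Z u.natAbs) * Real.exp (potN Z' u.natAbs)) := by
      have : Real.exp (-U u.natAbs) * Real.exp (U u.natAbs) = 1 := by
        rw [← Real.exp_add]; simp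
      linear_combination (wB q a u.natAbs * (Real.exp (potN Z u.natAbs) *
        Real.exp (potN Z' u.natAbs))) * this
    rw [e] at h3
    have g1 := Maj_base (q := q) ha hu
    have g2 := Maj_PN Z ((-u : ℤ) : ℂ)
    have g3 := Maj_PN Z' ((-u : ℤ) : ℂ)
    rw [potC_node] at g2 g3
    have g4 := g1.mul (g2.mul g3)
    rw [← evS_mul] at g4
    have g5 := g4.2.2 (q - s)
    rw [nodeC]
    refine g5.trans ?_
    have g6 : (1 + q * (2 * a) + (2 * Z.length + 2 * Z'.length) : ℝ) ^ (q - s) ≤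
        (1 + q * (2 * a) + 2 * (M + K)) ^ q := by
      have g7 : (Z.length : ℝ) ≤ M := by exact_mod_cast hm.le
      have g8 : (Z'.length : ℝ) ≤ K := by exact_mod_cast hm'.le
      have g9 : (0 : ℝ) ≤ q * (2 * a) := by positivity
      have g10 : (0 : ℝ) ≤ M := Nat.cast_nonneg _
      have g11 : (0 : ℝ) ≤ K := Nat.cast_nonneg _
      refine (pow_le_pow_left₀ (by positivity) (by linarith) (q - s)).trans
        (pow_le_pow_right₀ (by linarith) (Nat.sub_le q s))
    calc 2 * ((a : ℝ) + 1) * wB q a u.natAbs * (Real.exp (potN Z u.natAbs) *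
          Real.exp (potN Z' u.natAbs)) *
          (1 + q * (2 * a) + (2 * Z.length + 2 * Z'.length) : ℝ) ^ (q - s)
        ≤ 2 * ((a : ℝ) + 1) * wB q a u.natAbs * (Real.exp (potN Z u.natAbs) *
          Real.exp (potN Z' u.natAbs)) * (1 + q * (2 * a) + 2 * (M + K)) ^ q :=
          mul_le_mul_of_nonneg_left g6 (by
            have := wB_nonneg q a u.natAbs
            positivity)
      _ = 2 * (a + 1 : ℝ) * (1 + q * (2 * a) + 2 * (M + K)) ^ q *
          (wB q a u.natAbs * (Real.exp (potN Z u.natAbs) * Real.exp (potN Z' u.natAbs))) := by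
          ring
      _ ≤ _ := mul_le_mul_of_nonneg_left h3 hE
  refine (norm_sum_le _ _).trans ?_
  have h4 : ∀ u ∈ pc a, ‖∑ s ∈ Finset.Icc 1 q, (β s : ℂ) * nodeC q a u s (PN Z * PN Z')‖ ≤
      (∑ s ∈ Finset.Icc 1 q, |(β s : ℝ)|) *
        (2 * (a + 1 : ℝ) * (1 + q * (2 * a) + 2 * (M + K)) ^ q * (V * V')) := by
    intro u hu
    refine (norm_sum_le _ _).trans ?_
    rw [Finset.sum_mul]
    refine Finset.sum_le_sum fun s _ => ?_
    rw [norm_mul]
    have h5 : ‖((β s : ℚ) : ℂ)‖ = |(β s : ℝ)| := by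
      rw [← Complex.ofReal_ratCast, Complex.norm_real, Real.norm_eq_abs]
    rw [h5]
    exact mul_le_mul_of_nonneg_left (hnode u hu s) (abs_nonneg _)
  refine (Finset.sum_le_sum h4).trans ?_
  rw [Finset.sum_const, card_pc ha, nsmul_eq_mul, CB]
  have h6 : ((2 * a - 1 : ℕ) : ℝ) ≤ 2 * a := by
    have h : 2 * a - 1 ≤ 2 * a := by omega
    exact_mod_cast h
  have h7 : 0 ≤ ∑ s ∈ Finset.Icc 1 q, |(β s : ℝ)| := Finset.sum_nonneg fun _ _ => abs_nonneg _
  calc ((2 * a - 1 : ℕ) : ℝ) * ((∑ s ∈ Finset.Icc 1 q, |(β s : ℝ)|) *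
        (2 * (a + 1 : ℝ) * (1 + q * (2 * a) + 2 * (M + K)) ^ q * (V * V')))
      ≤ 2 * a * ((∑ s ∈ Finset.Icc 1 q, |(β s : ℝ)|) *
        (2 * (a + 1 : ℝ) * (1 + q * (2 * a) + 2 * (M + K)) ^ q * (V * V'))) :=
        mul_le_mul_of_nonneg_right h6 (by positivity)
    _ = _ := by ring

end BE

end Z579
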