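import Pool.Agent.Lib.Z579.E6Arch

/-!
# The archimedean bound from a numerical certificate: conclusion
-/

open Finset

namespace Z579

namespace EM

open Arch

variable {P : Par}

lemma sum_block_ge {k : ℕ} (hk : 1 ≤ k) (n : ℕ) {h : ℝ} (L R g : ℕ → ℝ) (c0 : ℝ)
    (hg : ∀ t < n * k, k * (L (t / k) + (R (t / k) - L (t / k)) *
      (((t : ℝ) + h) / k - ((t / k : ℕ) : ℝ))) + c0 ≤ g t) :
    (k : ℝ) ^ 2 * ∑ i ∈ range n, (L i + R i) / 2 + k * ((h - 1 / 2) * ∑ i ∈ range n, (R i - L i)) +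
      n * k * c0 ≤ ∑ t ∈ range (n * k), g t := by
  have h1 := Finset.sum_le_sum (s := range (n * k)) fun t ht => hg t (mem_range.1 ht)
  rw [Finset.sum_add_distrib, ← Finset.mul_sum, sum_aff_cells hk, Finset.sum_const, card_range,
    nsmul_eq_mul, Finset.sum_add_distrib, ← Finset.mul_sum, ← Finset.sum_mul] at h1
  refine le_trans (le_of_eq ?_) h1
  push_cast
  ring

/-- the constant of the energy -/
noncomputable def e0 (P : Par) (eL eR fL fR : ℕ → ℝ) : ℝ :=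
  P.c1 * ∑ i ∈ range P.t1, (eL i + eR i) / 2 + P.c2 * ∑ i ∈ range P.tau, (eL i + eR i) / 2 +
      2 * P.d * ∑ j ∈ range P.eps, (fL j + fR j) / 2

set_option maxHeartbeats 1000000 in
theorem energy_lower (hU1 : U1) (hU2 : U2) (hU3 : U3) (hU4 : U4) (hP : P.Ok)
    (eL eR fL fR : ℕ → ℝ)
    (enS : ∀ i < P.tau, CellLe (fun s => -US P s) i (-eL i) (-eR i))
    (enL : ∀ j < P.eps, CellLe (fun s => -UL P s) j (-fL j) (-fR j)) :
    ∃ C : ℝ, 0 ≤ C ∧ ∀ k : ℕ, 1 ≤ k →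
    (k : ℝ) ^ 2 * (2 * P.mu ^ 2 * Real.log k) + (k : ℝ) ^ 2 * e0 P eL eR fL fR -
      C * (k * Real.log (k + 1)) ≤
    ∑ x ∈ refS P k, ∑ x' ∈ refS P k, refC P k x * refC P k x' * KK (refX P k x) (refX P k x') := by
  obtain ⟨C1, hC1, h1⟩ := pot_site hU1 hU2 hP
  obtain ⟨C2, hC2, h2⟩ := pot_line hU3 hU4 hP
  set Ce : ℝ := |∑ i ∈ range P.t1, (eR i - eL i)| with hCe
  set Ce' : ℝ := |∑ i ∈ range P.tau, (eR i - eL i)| with hCe'
  set C3 : ℝ := C2 * (2 * Real.log ((P.eps : ℝ) + 2 + 1) + 1) with hC3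
  have hC3n : 0 ≤ C3 := by
    have h3 : 0 ≤ Real.log ((P.eps : ℝ) + 2 + 1) :=
      Real.log_nonneg (by
        have : (0 : ℝ) ≤ P.eps := by positivity
        linarith)
    positivity
  have hc1 := hP.c1n
  have hc2 := hP.c2n
  have hd := hP.dn
  refine ⟨P.mu * (C1 + C3) + P.c1 * Ce + P.c2 * Ce', by positivity, ?_⟩
  intro k hk
  have hk0 : (0 : ℝ) < k := by exact_mod_cast hk
  have hk1 : (1 : ℝ) ≤ k := by exact_mod_cast hk
  set Lg := Real.log ((k : ℝ) + 1) with hLg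
  have hLg2 : 1 / 2 ≤ Lg := half_le_log hk
  set F : ℕ ⊕ ℤ → ℝ := fun x => ∑ x' ∈ refS P k, refC P k x' * KK (refX P k x) (refX P k x')
    with hF
  have e1 : ∑ x ∈ refS P k, ∑ x' ∈ refS P k,
      refC P k x * refC P k x' * KK (refX P k x) (refX P k x') =
      ∑ x ∈ refS P k, refC P k x * F x := by
    refine Finset.sum_congr rfl fun x _ => ?_
    rw [hF, Finset.mul_sum]
    exact Finset.sum_congr rfl fun x' _ => by ring
  rw [e1, sum_ref hP]
  set c0 : ℝ := 2 * P.mu * (k * Real.log k) - (C1 + C3) * Lg with hc0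
  have hs : ∀ t < P.tau * k, k * (eL (t / k) + (eR (t / k) - eL (t / k)) *
      (((t : ℝ) + 0) / k - ((t / k : ℕ) : ℝ))) + c0 ≤ F (Sum.inl t) := by
    intro t ht
    have g1 := (abs_le.1 (h1 k t hk ht)).1
    obtain ⟨d1, d2, d3⟩ := div_mem_cell hk ht (h := 0) le_rfl one_pos
    have g2 := enS (t / k) d1 _ d2 d3
    rw [add_zero] at g2 ⊢
    have g3 : eL (t / k) + (eR (t / k) - eL (t / k)) * ((t : ℝ) / k - ((t / k : ℕ) : ℝ)) ≤
        US P (t / k) := by linarith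
    have g4 := mul_le_mul_of_nonneg_left g3 hk0.le
    have g5 : F (Sum.inl t) = ∑ x ∈ refS P k, refC P k x *
      KK (pos (P.al * k + 1) (P.tau * k) (Sum.inl t)) (refX P k x) := rfl
    rw [g5, hc0]
    have g6 : 0 ≤ C3 * Lg := by positivity
    linarith
  have hw : P.t1 * k ≤ P.tau * k := Nat.mul_le_mul_right k hP.t1t
  have b1 := sum_block_ge hk P.t1 eL eR (fun t => F (Sum.inl t)) c0
    (fun t ht => hs t (lt_of_lt_of_le ht hw))
  have b2 := sum_block_ge hk P.tau eL eR (fun t => F (Sum.inl t)) c0 hs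
  -- the line
  set f : ℝ → ℝ := fun v => k * UL P (v / k) + 2 * P.mu * (k * Real.log k) -
    C2 * Real.log (k + 1 + v) with hf
  have b3 : 2 * ∑ l ∈ range (P.eps * k), f ((l : ℝ) + 1 / 2) ≤
      ∑ l ∈ Ico (-((P.eps * k : ℕ) : ℤ)) ((P.eps * k : ℕ) : ℤ), F (Sum.inr l) := by
    rw [← sum_sym]
    refine Finset.sum_le_sum fun l _ => ?_
    have g1 := (abs_le.1 (h2 k ((l : ℝ) + 1 / 2) hk)).1
    have g5 : F (Sum.inr l) = ∑ x ∈ refS P k, refC P k x *
      KK (pos (P.al * k + 1) (P.tau * k) (Sum.inr ((l : ℝ) + 1 / 2))) (refX P k x) := rfl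
    have g10 : f |(l : ℝ) + 1 / 2| = k * UL P (|(l : ℝ) + 1 / 2| / k) +
        2 * P.mu * (k * Real.log k) - C2 * Real.log (k + 1 + |(l : ℝ) + 1 / 2|) := rfl
    rw [g5, g10]
    linarith
  have hl : ∀ t < P.eps * k, k * (fL (t / k) + (fR (t / k) - fL (t / k)) *
      (((t : ℝ) + 1 / 2) / k - ((t / k : ℕ) : ℝ))) + c0 ≤ f ((t : ℝ) + 1 / 2) := by
    intro t ht
    obtain ⟨d1, d2, d3⟩ := div_mem_cell hk ht (h := 1 / 2) (by norm_num) (by norm_num)
    have g2 : -UL P (((t : ℝ) + 1 / 2) / k) ≤ -fL (t / k) + (-fR (t / k) - -fL (t / k)) *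
        (((t : ℝ) + 1 / 2) / k - ((t / k : ℕ) : ℝ)) := enL (t / k) d1 _ d2 d3
    have g3 : fL (t / k) + (fR (t / k) - fL (t / k)) *
        (((t : ℝ) + 1 / 2) / k - ((t / k : ℕ) : ℝ)) ≤ UL P (((t : ℝ) + 1 / 2) / k) := by
      linarith
    have g4 := mul_le_mul_of_nonneg_left g3 hk0.le
    have ht' : (t : ℝ) + 1 ≤ P.eps * k := by exact_mod_cast ht
    have g6 : Real.log (k + 1 + ((t : ℝ) + 1 / 2)) ≤
        (2 * Real.log ((P.eps : ℝ) + 2 + 1) + 1) * Lg := by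
      have := log_lin_le (X := (P.eps : ℝ) + 2) (Y := 1) hk (y := 0) le_rfl (by positivity)
        (by norm_num)
      rw [add_zero, add_zero] at this
      refine le_trans (Real.log_le_log (by positivity) ?_) this
      nlinarith
    have g7 := mul_le_mul_of_nonneg_left g6 hC2
    have g8 : 0 ≤ C1 * Lg := by positivity
    have g10 : f ((t : ℝ) + 1 / 2) = k * UL P (((t : ℝ) + 1 / 2) / k) +
        2 * P.mu * (k * Real.log k) - C2 * Real.log (k + 1 + ((t : ℝ) + 1 / 2)) := rfl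
    rw [g10, hc0]
    have g9 : C3 * Lg = C2 * ((2 * Real.log ((P.eps : ℝ) + 2 + 1) + 1) * Lg) := by rw [hC3]; ring
    linarith
  have b4 := sum_block_ge hk P.eps fL fR (fun t => f ((t : ℝ) + 1 / 2)) c0 hl
  rw [sub_self, zero_mul, mul_zero, add_zero] at b4
  -- combine
  have m1 := mul_le_mul_of_nonneg_left b1 hc1
  have m2 := mul_le_mul_of_nonneg_left b2 hc2
  have m3 := mul_le_mul_of_nonneg_left (mul_le_mul_of_nonneg_left b4 (by norm_num : (0 : ℝ) ≤ 2)) hd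
  have m4 := mul_le_mul_of_nonneg_left b3 hd
  have hmass := hP.mass
  have n1 : P.c1 * (k * ((0 - 1 / 2) * ∑ i ∈ range P.t1, (eR i - eL i))) ≥
      -(P.c1 * Ce * (k * Lg)) := by
    have := (abs_le.1 (le_refl |∑ i ∈ range P.t1, (eR i - eL i)|)).2
    rw [← hCe] at this
    have hCe0 : 0 ≤ Ce := abs_nonneg _
    have q1 : (∑ i ∈ range P.t1, (eR i - eL i)) * (1 / 2) ≤ Ce * Lg := by
      nlinarith
    have q2 := mul_le_mul_of_nonneg_left q1 (mul_nonneg hc1 hk0.le)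
    linarith [q2]
  have n2 : P.c2 * (k * ((0 - 1 / 2) * ∑ i ∈ range P.tau, (eR i - eL i))) ≥
      -(P.c2 * Ce' * (k * Lg)) := by
    have := (abs_le.1 (le_refl |∑ i ∈ range P.tau, (eR i - eL i)|)).2
    rw [← hCe'] at this
    have hCe0 : 0 ≤ Ce' := abs_nonneg _
    have q1 : (∑ i ∈ range P.tau, (eR i - eL i)) * (1 / 2) ≤ Ce' * Lg := by
      nlinarith
    have q2 := mul_le_mul_of_nonneg_left q1 (mul_nonneg hc2 hk0.le)
    linarith [q2]
  have n3 : P.c1 * (P.t1 * k * c0) + P.c2 * (P.tau * k * c0) + P.d * (2 * (P.eps * k * c0)) =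
      P.mu * k * c0 := by
    linear_combination (k * c0) * hmass
  have n4 : P.mu * k * c0 = (k : ℝ) ^ 2 * (2 * P.mu ^ 2 * Real.log k) -
      P.mu * (C1 + C3) * (k * Lg) := by
    rw [hc0]; ring
  unfold e0
  linarith [m1, m2, m3, m4, n1, n2, n3, n4]

end EM

end Z579
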