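import Pool.Agent.Lib.Z579.E6U24

/-!
# U1: potential of a block of sites at a site
-/

open Real Finset

namespace Z579

namespace EM

open Arch Z579.Num

/-- sum of `gg` over a block of integers compared with `GG` -/
lemma blk_sum {D : ℝ} (hD : 0 < D) (x : ℝ) (w : ℕ) :
    |∑ j ∈ range w, gg (x + j) D - (GG (x + w - 1 / 2) D - GG (x - 1 / 2) D)| ≤
      VV D (x + w - 1 / 2) - VV D (x - 1 / 2) := by
  induction w with
  | zero => simp
  | succ w ih =>
    rw [sum_range_succ]
    have h := cell_mid hD (x + w - 1 / 2)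
    rw [show x + (w : ℝ) - 1 / 2 + 1 / 2 = x + w by ring,
      show x + (w : ℝ) - 1 / 2 + 1 = x + ((w + 1 : ℕ) : ℝ) - 1 / 2 by push_cast; ring] at h
    rw [abs_le] at h ih ⊢
    constructor <;> linarith [h.1, h.2, ih.1, ih.2]

lemma GG_x_lip {D x y L : ℝ} (hD : 1 ≤ D) (hx : |x| + D ≤ L) (hy : |y| + D ≤ L) :
    |GG x D - GG y D| ≤ |x - y| * Real.log L := by
  have hD0 : 0 < D := by linarith
  have key : ∀ x y : ℝ, x < y → |x| + D ≤ L → |y| + D ≤ L →
      |GG x D - GG y D| ≤ |x - y| * Real.log L := by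
    intro x y hxy hx hy
    obtain ⟨c, hc, hc2⟩ := exists_hasDerivAt_eq_slope (fun s => GG s D) (fun s => gg s D) hxy
      (fun x _ => (hasDerivAt_GG hD0 x).continuousAt.continuousWithinAt)
      (fun x _ => hasDerivAt_GG hD0 x)
    have h3 : 0 < y - x := by linarith
    rw [eq_div_iff h3.ne'] at hc2
    have h4 : |c| ≤ L - D := by
      rw [abs_le]
      have h5 := neg_abs_le x
      have h6 := le_abs_self y
      constructor <;> linarith [hc.1, hc.2]
    have h5 : gg c D ≤ Real.log L := by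
      rw [← gg_abs]
      exact gg_le (abs_nonneg _) hD0 (by linarith)
    have h6 : 0 ≤ gg c D := by
      unfold gg
      have : (1 : ℝ) ≤ c ^ 2 + D ^ 2 := by nlinarith [sq_nonneg c]
      exact div_nonneg (Real.log_nonneg this) (by norm_num)
    rw [abs_sub_comm, ← hc2, abs_mul, abs_of_nonneg h6, abs_sub_comm x y, mul_comm]
    exact mul_le_mul_of_nonneg_left h5 (abs_nonneg _)
  rcases lt_trichotomy x y with h | h | h
  · exact key x y h hx hy
  · subst h; simp
  · rw [abs_sub_comm, abs_sub_comm x y]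
    exact key y x h hy hx

lemma blk_sum' {x x0 K L : ℝ} (w : ℕ) (hK : |x - 1 / 2 - x0| ≤ K)
    (hL : |x| + |x0| + w + 2 ≤ L) :
    |∑ j ∈ range w, gg (x + j) 1 - (GG (x0 + w) 0 - GG x0 0)| ≤
      2 * Real.log L + 2 * K * Real.log L + π := by
  have hw : (0 : ℝ) ≤ w := Nat.cast_nonneg w
  have ax := abs_nonneg x
  have ax0 := abs_nonneg x0
  have hL2 : 2 ≤ L := by linarith
  have hlog : 0 ≤ Real.log L := Real.log_nonneg (by linarith)
  have h1 := blk_sum one_pos x w
  have hx1 := le_abs_self x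
  have hx2 := neg_abs_le x
  have hy1 := le_abs_self x0
  have hy2 := neg_abs_le x0
  have b1 : |x + w - 1 / 2| + 1 ≤ L := by
    have : |x + w - 1 / 2| ≤ L - 1 := by rw [abs_le]; constructor <;> linarith
    linarith
  have b2 : |x - 1 / 2| + 1 ≤ L := by
    have : |x - 1 / 2| ≤ L - 1 := by rw [abs_le]; constructor <;> linarith
    linarith
  have b3 : |x0 + w| + 1 ≤ L := by
    have : |x0 + w| ≤ L - 1 := by rw [abs_le]; constructor <;> linarith
    linarith
  have b4 : |x0| + 1 ≤ L := by linarith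
  have v1 : |VV 1 (x + w - 1 / 2)| ≤ Real.log L := by
    refine (VV_le le_rfl _).trans ?_
    rw [← gg_abs]
    exact gg_le (abs_nonneg _) one_pos b1
  have v2 : |VV 1 (x - 1 / 2)| ≤ Real.log L := by
    refine (VV_le le_rfl _).trans ?_
    rw [← gg_abs]
    exact gg_le (abs_nonneg _) one_pos b2
  have l1 := GG_x_lip le_rfl b1 b3
  have l2 := GG_x_lip le_rfl b2 b4
  have e1 : |x + w - 1 / 2 - (x0 + w)| ≤ K := by
    rwa [show x + (w : ℝ) - 1 / 2 - (x0 + w) = x - 1 / 2 - x0 by ring]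
  have l1' := l1.trans (mul_le_mul_of_nonneg_right e1 hlog)
  have l2' := l2.trans (mul_le_mul_of_nonneg_right hK hlog)
  have l3 := GG_y_lip (x0 + w) (le_refl (0 : ℝ)) (zero_le_one)
  have l4 := GG_y_lip x0 (le_refl (0 : ℝ)) (zero_le_one)
  rw [sub_zero, abs_one, mul_one] at l3 l4
  rw [abs_le] at h1 v1 v2 l1' l2' l3 l4 ⊢
  constructor <;>
  linarith [h1.1, h1.2, v1.1, v1.2, v2.1, v2.2, l1'.1, l1'.2, l2'.1, l2'.2, l3.1, l3.2, l4.1, l4.2]

/-- U1 -/
theorem u1 : U1 := by
  refine ⟨100, by norm_num, fun A T w t hA hT hw ht => ?_⟩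
  have hA' : (1 : ℝ) ≤ A := by exact_mod_cast hA
  have hT' : (1 : ℝ) ≤ T := by exact_mod_cast hT
  have hw0 : (0 : ℝ) ≤ w := Nat.cast_nonneg w
  have hw' : (w : ℝ) ≤ T := by exact_mod_cast hw
  have ht0 : (0 : ℝ) ≤ t := Nat.cast_nonneg t
  have ht' : (t : ℝ) + 1 ≤ T := by exact_mod_cast ht
  set X : ℝ := A + T + 2 with hX
  have hX4 : 4 ≤ X := by rw [hX]; linarith
  have m1 := blk_sum' (x := -(t : ℝ)) (x0 := -(t : ℝ)) (K := 1 / 2) (L := X ^ 2) w
    (by rw [show -(t : ℝ) - 1 / 2 - -(t : ℝ) = -(1 / 2) by ring, abs_neg]; norm_num)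
    (by rw [abs_neg, abs_of_nonneg ht0]; nlinarith)
  have m2 := blk_sum' (x := 2 * A + 2 + t) (x0 := 2 * A + t) (K := 3 / 2) (L := X ^ 2) w
    (by rw [show (2 * A + 2 + t : ℝ) - 1 / 2 - (2 * A + t) = 3 / 2 by ring]; norm_num)
    (by
      rw [abs_of_nonneg (by positivity), abs_of_nonneg (by positivity)]
      nlinarith)
  have hsum : ∑ t' ∈ range w, KK (pos (A + 1) T (Sum.inl t)) (pos (A + 1) T (Sum.inl t')) =
      ∑ j ∈ range w, gg (-(t : ℝ) + j) 1 + ∑ j ∈ range w, gg (2 * A + 2 + t + j) 1 := by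
    rw [← Finset.sum_add_distrib]
    refine Finset.sum_congr rfl fun j _ => ?_
    unfold KK
    congr 1
    · apply half_log
      rw [← Complex.normSq_eq_norm_sq, Complex.normSq_apply]
      simp only [pos, Complex.sub_re, Complex.add_re, Complex.natCast_re, Complex.one_re,
        Complex.sub_im, Complex.add_im, Complex.natCast_im, Nat.cast_add, Nat.cast_one,
        Complex.one_im]
      ring
    · apply half_log
      rw [← Complex.normSq_eq_norm_sq, Complex.normSq_apply]
      simp only [pos, Complex.sub_re, Complex.add_re, Complex.natCast_re, Complex.one_re,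
        Complex.sub_im, Complex.add_im, Complex.natCast_im, Nat.cast_add, Nat.cast_one,
        Complex.one_im]
      ring
  have hBS : BS A w t = (GG (-(t : ℝ) + w) 0 - GG (-(t : ℝ)) 0) +
      (GG (2 * A + t + w) 0 - GG (2 * A + t) 0) := by
    unfold BS
    rw [GG_neg, show (w : ℝ) - t = -(t : ℝ) + w by ring]
    ring
  rw [hsum, hBS]
  have hlX : Real.log (X ^ 2) = 2 * Real.log X := by rw [Real.log_pow]; norm_num
  rw [hlX] at m1 m2
  have hl4 : 1 ≤ Real.log X := by
    have h2 : Real.log 4 ≤ Real.log X := Real.log_le_log (by norm_num) hX4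
    have h4 : Real.log 4 = 2 * Real.log 2 := by
      rw [show (4 : ℝ) = 2 ^ 2 by norm_num, Real.log_pow]; norm_num
    linarith [Real.log_two_gt_d9]
  have hpi := Real.pi_lt_four
  have hpi0 := Real.pi_pos
  rw [abs_le] at m1 m2 ⊢
  constructor <;> nlinarith [m1.1, m1.2, m2.1, m2.2]

end EM

end Z579
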