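import Pool.Agent.Lib.Z579.E6Defs

/-!
# W1: the weight at the sites
-/

open Finset

namespace Z579

namespace EM

open Arch

lemma GG_zero_eq (s : ℝ) : GG s 0 = s * Real.log |s| - s := by
  unfold GG
  have h : s ^ 2 + 0 ^ 2 = |s| ^ 2 := by rw [sq_abs]; ring
  rw [h, Real.log_pow]
  push_cast
  ring

lemma GG_zero_step {s : ℝ} (hs : 0 ≤ s) : GG (s + 1) 0 - GG s 0 ≤ Real.log (s + 1) := by
  rw [GG_zero_eq, GG_zero_eq, abs_of_nonneg hs, abs_of_nonneg (by linarith : (0 : ℝ) ≤ s + 1)]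
  rcases hs.eq_or_lt with h | h
  · rw [← h]; simp
  · have h1 : Real.log (s + 1) - Real.log s ≤ 1 / s := by
      rw [← Real.log_div (by positivity) (by positivity)]
      have := Real.log_le_sub_one_of_pos (x := (s + 1) / s) (by positivity)
      refine this.trans (le_of_eq ?_)
      field_simp
      ring
    have h2 : s * (Real.log (s + 1) - Real.log s) ≤ 1 := by
      have := mul_le_mul_of_nonneg_left h1 h.le
      refine this.trans (le_of_eq ?_)
      field_simp
    nlinarith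

lemma exp_GG_le_prod (t n : ℕ) :
    Real.exp (GG ((t : ℝ) + n) 0 - GG t 0) ≤ ∏ j ∈ range n, ((t : ℝ) + 1 + j) := by
  induction n with
  | zero => simp
  | succ n ih =>
    rw [Finset.prod_range_succ]
    have h1 := GG_zero_step (s := (t : ℝ) + n) (by positivity)
    have h2 : Real.exp (GG ((t : ℝ) + n + 1) 0 - GG ((t : ℝ) + n) 0) ≤ (t : ℝ) + 1 + n := by
      rw [← Real.exp_log (show (0 : ℝ) < (t : ℝ) + 1 + n by positivity), Real.exp_le_exp]
      refine h1.trans (le_of_eq ?_)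
      congr 1
      ring
    have h3 : GG ((t : ℝ) + ((n + 1 : ℕ) : ℝ)) 0 - GG t 0 =
        (GG ((t : ℝ) + n) 0 - GG t 0) + (GG ((t : ℝ) + n + 1) 0 - GG ((t : ℝ) + n) 0) := by
      push_cast
      ring_nf
    rw [h3, Real.exp_add]
    exact mul_le_mul ih h2 (Real.exp_nonneg _) (by positivity)

lemma norm_prod_pc_site (A T t : ℕ) :
    ‖∏ w ∈ pc (A + 1), (pos (A + 1) T (Sum.inl t) + (w : ℂ))‖ =
      ∏ j ∈ range (2 * A + 1), ((t : ℝ) + 1 + j) := by
  rw [norm_prod]
  unfold pc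
  refine Finset.prod_nbij' (fun w => (w + A).toNat) (fun j => (j : ℤ) - A) ?_ ?_ ?_ ?_ ?_
  · intro w hw; rw [mem_Icc] at hw; rw [mem_range]; push_cast at hw; omega
  · intro j hj; rw [mem_range] at hj; rw [mem_Icc]; push_cast; omega
  · intro w hw; rw [mem_Icc] at hw; push_cast at hw; omega
  · intro j hj; rw [mem_range] at hj; omega
  · intro w hw
    rw [mem_Icc] at hw
    push_cast at hw
    have h1 : (((w + A).toNat : ℕ) : ℝ) = (w : ℝ) + A := by
      have : (((w + A).toNat : ℕ) : ℤ) = w + A := by omega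
      exact_mod_cast this
    have h2 : pos (A + 1) T (Sum.inl t) + (w : ℂ) = (((A : ℝ) + 1 + t + w : ℝ) : ℂ) := by
      simp [pos]
    have h3 : (0 : ℝ) ≤ (A : ℝ) + 1 + t + w := by
      have : (0 : ℤ) ≤ (A : ℤ) + 1 + t + w := by omega
      exact_mod_cast this
    rw [h2, Complex.norm_real, Real.norm_of_nonneg h3, h1]
    ring

/-- W1 -/
theorem w1 : W1 := by
  intro r q KR
  have hlq : 0 ≤ Real.log (2 * (q : ℝ) + 6) := Real.log_nonneg (by
    have : (0 : ℝ) ≤ q := Nat.cast_nonneg q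
    linarith)
  refine ⟨r * (Real.log (2 * (q : ℝ) + 6) + 1) + 2, by positivity, ?_⟩
  intro A T m t hA ht
  have hA1 : (1 : ℝ) ≤ A := by exact_mod_cast hA
  have ht1 : (t : ℝ) + 1 ≤ T := by exact_mod_cast ht
  have hq0 : (0 : ℝ) ≤ q := Nat.cast_nonneg q
  have hm0 : (0 : ℝ) ≤ m := Nat.cast_nonneg m
  have ht0 : (0 : ℝ) ≤ t := Nat.cast_nonneg t
  set X : ℝ := A + T + m + 2 with hX
  have hX4 : 4 ≤ X := by rw [hX]; linarith
  have hlX : 1 ≤ Real.log X := by
    rw [Real.le_log_iff_exp_le (by linarith)]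
    linarith [Real.exp_one_lt_d9]
  have hP := norm_prod_pc_site A T t
  have hprod : Real.exp (GG ((t : ℝ) + 2 * A) 0 - GG t 0) ≤
      ∏ j ∈ range (2 * A + 1), ((t : ℝ) + 1 + j) := by
    have h1 := exp_GG_le_prod t (2 * A)
    push_cast at h1
    rw [Finset.prod_range_succ]
    refine h1.trans ?_
    have h2 : (1 : ℝ) ≤ (t : ℝ) + 1 + ((2 * A : ℕ) : ℝ) := by push_cast; linarith
    exact le_mul_of_one_le_right (by positivity) h2
  have hR : ‖Rc q 0 (A + 1) (A + 1) (pos (A + 1) T (Sum.inl t))‖ ≤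
      2 * X * Real.exp (-(q * (GG ((t : ℝ) + 2 * A) 0 - GG t 0))) := by
    unfold Rc
    rw [pow_zero, mul_one, norm_div, norm_pow, hP, norm_mul]
    have h1 : ‖pos (A + 1) T (Sum.inl t)‖ ≤ X := by
      have h2 : pos (A + 1) T (Sum.inl t) = (((A : ℝ) + 1 + t : ℝ) : ℂ) := by simp [pos]
      rw [h2, Complex.norm_real, Real.norm_of_nonneg (by linarith)]
      rw [hX]; linarith
    have h3 : Real.exp (-(q * (GG ((t : ℝ) + 2 * A) 0 - GG t 0))) =
        ((Real.exp (GG ((t : ℝ) + 2 * A) 0 - GG t 0)) ^ q)⁻¹ := by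
      rw [← Real.exp_nat_mul, ← Real.exp_neg]
    rw [h3, div_eq_mul_inv]
    apply mul_le_mul
    · have : ‖(2 : ℂ)‖ = 2 := by simp
      rw [this]
      linarith
    · apply inv_anti₀ (by positivity)
      exact pow_le_pow_left₀ (Real.exp_nonneg _) hprod q
    · positivity
    · linarith
  have hw : wgt r q 0 (A + 1) (A + 1) T m KR (Sum.inl t) =
      (1 + q * (2 * ((A + 1 : ℕ) : ℝ) - 1) + 6 * m) ^ r *
        ‖Rc q 0 (A + 1) (A + 1) (pos (A + 1) T (Sum.inl t))‖ := by
    unfold wgt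
    simp
  rw [hw]
  have hbase : 1 + q * (2 * ((A + 1 : ℕ) : ℝ) - 1) + 6 * m ≤ (2 * (q : ℝ) + 6) * X := by
    push_cast
    rw [hX]
    nlinarith
  have hbase0 : 0 ≤ 1 + q * (2 * ((A + 1 : ℕ) : ℝ) - 1) + 6 * m := by
    push_cast
    nlinarith
  have hpow : (1 + q * (2 * ((A + 1 : ℕ) : ℝ) - 1) + 6 * m) ^ r ≤
      Real.exp (r * ((Real.log (2 * (q : ℝ) + 6) + 1) * Real.log X)) := by
    refine (pow_le_pow_left₀ hbase0 hbase r).trans ?_
    rw [← Real.exp_log (show 0 < (2 * (q : ℝ) + 6) * X by positivity), ← Real.exp_nat_mul,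
      Real.exp_le_exp, Real.log_mul (by positivity) (by positivity)]
    apply mul_le_mul_of_nonneg_left _ (Nat.cast_nonneg r)
    nlinarith
  have h2X : 2 * X ≤ Real.exp (2 * Real.log X) := by
    have : Real.exp (2 * Real.log X) = X ^ 2 := by
      have h := Real.exp_log (show 0 < X by linarith)
      rw [two_mul, Real.exp_add, h]
      ring
    rw [this]
    nlinarith
  calc _ ≤ Real.exp (r * ((Real.log (2 * (q : ℝ) + 6) + 1) * Real.log X)) *
        (Real.exp (2 * Real.log X) * Real.exp (-(q * (GG ((t : ℝ) + 2 * A) 0 - GG t 0)))) := by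
        apply mul_le_mul hpow _ (norm_nonneg _) (Real.exp_nonneg _)
        exact hR.trans (mul_le_mul_of_nonneg_right h2X (Real.exp_nonneg _))
    _ = _ := by
        rw [← Real.exp_add, ← Real.exp_add]
        congr 1
        ring

end EM

end Z579
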