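import Pool.Agent.Lib.Z579.BE4
import Pool.Agent.Lib.Z579.E6Tot
import Pool.Agent.Lib.Z579.E6U1
import Pool.Agent.Lib.Z579.E6W1

/-!
# BE5: potentials of piecewise constant densities, weights
-/

open Finset Polynomial

namespace Z579

namespace BE

open EM Arch Z579.Num

/-- potential of the block `[p1, p2]` (and its mirror image) -/
noncomputable def VB (p1 p2 s : ℝ) : ℝ :=
  (GG (p2 - s) 0 + GG (p2 + s) 0) - (GG (p1 - s) 0 + GG (p1 + s) 0)

/-- potential of a density which is constant on the cells `[i, i+1]` -/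
noncomputable def Up (c : ℕ → ℝ) (N : ℕ) (s : ℝ) : ℝ := ∑ i ∈ range N, c i * VB i (i + 1) s

lemma VB_scale {k : ℝ} (hk : 0 < k) (p1 p2 s : ℝ) :
    VB (k * p1) (k * p2) (k * s) = k * VB p1 p2 s + 2 * (p2 - p1) * (k * Real.log k) := by
  unfold VB
  have e1 : k * p2 - k * s = k * (p2 - s) := by ring
  have e2 : k * p1 - k * s = k * (p1 - s) := by ring
  have e3 : k * p2 + k * s = k * (p2 + s) := by ring
  have e4 : k * p1 + k * s = k * (p1 + s) := by ring
  rw [e1, e2, e3, e4, GG_scale0 hk, GG_scale0 hk, GG_scale0 hk, GG_scale0 hk]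
  ring

lemma Up_add (c d : ℕ → ℝ) (N : ℕ) (s : ℝ) : Up (fun i => c i + d i) N s = Up c N s + Up d N s := by
  unfold Up
  rw [← Finset.sum_add_distrib]
  exact Finset.sum_congr rfl fun i _ => by ring

/-- block of integers -/
lemma blk_KK (y p w : ℕ) :
    |∑ j ∈ range w, KK (y : ℂ) ((p + j : ℕ) : ℂ) - VB p (p + w) y| ≤
      6 * Real.log (2 * (p + y) + w + 2) + 8 := by
  have hw : (0 : ℝ) ≤ w := Nat.cast_nonneg w
  have hy : (0 : ℝ) ≤ y := Nat.cast_nonneg y
  have hp : (0 : ℝ) ≤ p := Nat.cast_nonneg p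
  set L : ℝ := 2 * (p + y) + w + 2 with hL
  have m1 := blk_sum' (x := (p : ℝ) - y) (x0 := (p : ℝ) - y) (K := 1 / 2) (L := L) w
    (by rw [show (p : ℝ) - y - 1 / 2 - (p - y) = -(1 / 2) by ring, abs_neg]; norm_num)
    (by
      have h : |(p : ℝ) - y| ≤ p + y := by rw [abs_le]; constructor <;> linarith
      linarith)
  have m2 := blk_sum' (x := (p : ℝ) + y) (x0 := (p : ℝ) + y) (K := 1 / 2) (L := L) w
    (by rw [show (p : ℝ) + y - 1 / 2 - (p + y) = -(1 / 2) by ring, abs_neg]; norm_num)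
    (by
      rw [abs_of_nonneg (by positivity)]
      linarith)
  have hsum : ∑ j ∈ range w, KK (y : ℂ) ((p + j : ℕ) : ℂ) =
      ∑ j ∈ range w, gg ((p : ℝ) - y + j) 1 + ∑ j ∈ range w, gg ((p : ℝ) + y + j) 1 := by
    rw [← Finset.sum_add_distrib]
    refine Finset.sum_congr rfl fun j _ => ?_
    unfold KK
    congr 1
    · apply half_log
      have e : (y : ℂ) - ((p + j : ℕ) : ℂ) = (((y : ℝ) - (p + j) : ℝ) : ℂ) := by push_cast; rfl
      rw [e, Complex.norm_real, Real.norm_eq_abs, sq_abs]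
      ring
    · apply half_log
      have e : (y : ℂ) + ((p + j : ℕ) : ℂ) = (((y : ℝ) + (p + j) : ℝ) : ℂ) := by push_cast; rfl
      rw [e, Complex.norm_real, Real.norm_eq_abs, sq_abs]
      ring
  have hVB : VB p (p + w) y = (GG ((p : ℝ) - y + w) 0 - GG ((p : ℝ) - y) 0) +
      (GG ((p : ℝ) + y + w) 0 - GG ((p : ℝ) + y) 0) := by
    unfold VB
    rw [show (p : ℝ) + w - y = p - y + w by ring, show (p : ℝ) + w + y = p + y + w by ring]
    ring
  rw [hsum, hVB]
  have hpi := Real.pi_lt_four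
  rw [abs_le] at m1 m2 ⊢
  constructor <;> linarith [m1.1, m1.2, m2.1, m2.2]

lemma sum_range_mul (N k : ℕ) (f : ℕ → ℝ) :
    ∑ x ∈ range (N * k), f x = ∑ i ∈ range N, ∑ j ∈ range k, f (i * k + j) := by
  induction N with
  | zero => simp
  | succ N ih => rw [Finset.sum_range_succ, ← ih, Nat.add_mul, one_mul, Finset.sum_range_add]

lemma cell_div {i k j : ℕ} (hj : j < k) : (i * k + j) / k = i := by
  rw [Nat.div_eq_iff (by omega)]
  constructor
  · nlinarith
  · have h3 : i * k + k = (i + 1) * k := by ring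
    omega

lemma half_le_log' {k y : ℕ} (hk : 1 ≤ k) : 1 / 2 ≤ Real.log ((k : ℝ) + 1 + y) := by
  have h1 := half_le_log hk
  have h2 : Real.log ((k : ℝ) + 1) ≤ Real.log ((k : ℝ) + 1 + y) :=
    Real.log_le_log (by positivity) (by
      have : (0 : ℝ) ≤ y := Nat.cast_nonneg y
      linarith)
  linarith

/-- potential of the reference configuration at integers -/
theorem pot_nat (c : ℕ → ℝ) (hc : ∀ i, 0 ≤ c i) (N : ℕ) : ∃ C : ℝ, 0 ≤ C ∧ ∀ k y : ℕ, 1 ≤ k →
    |∑ x ∈ range (N * k), c (x / k) * KK (y : ℂ) (x : ℂ) -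
      (k * Up c N (y / k) + 2 * (∑ i ∈ range N, c i) * (k * Real.log k))| ≤
      C * Real.log (k + 1 + y) := by
  have hl0 : 0 ≤ Real.log ((2 * N : ℝ) + 2) := Real.log_nonneg (by
    have : (0 : ℝ) ≤ N := Nat.cast_nonneg N
    linarith)
  have hs0 : 0 ≤ ∑ i ∈ range N, c i := Finset.sum_nonneg fun i _ => hc i
  refine ⟨(∑ i ∈ range N, c i) * (6 * (2 * Real.log ((2 * N : ℝ) + 2) + 1) + 16), by positivity, ?_⟩
  intro k y hk
  have hk0 : (0 : ℝ) < k := by exact_mod_cast hk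
  have hk1 : (1 : ℝ) ≤ k := by exact_mod_cast hk
  have hy0 : (0 : ℝ) ≤ y := Nat.cast_nonneg y
  have hLg := half_le_log' (y := y) hk
  set Lg := Real.log ((k : ℝ) + 1 + y) with hLgdef
  have h1 : ∑ x ∈ range (N * k), c (x / k) * KK (y : ℂ) (x : ℂ) =
      ∑ i ∈ range N, c i * ∑ j ∈ range k, KK (y : ℂ) ((i * k + j : ℕ) : ℂ) := by
    rw [sum_range_mul N k fun x => c (x / k) * KK (y : ℂ) (x : ℂ)]
    refine Finset.sum_congr rfl fun i _ => ?_
    rw [Finset.mul_sum]
    refine Finset.sum_congr rfl fun j hj => ?_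
    rw [cell_div (mem_range.1 hj)]
  have h2 : k * Up c N (y / k) + 2 * (∑ i ∈ range N, c i) * (k * Real.log k) =
      ∑ i ∈ range N, c i * VB ((i * k : ℕ) : ℝ) ((i * k : ℕ) + k : ℝ) y := by
    unfold Up
    rw [Finset.mul_sum, Finset.mul_sum, Finset.sum_mul, ← Finset.sum_add_distrib]
    refine Finset.sum_congr rfl fun i _ => ?_
    have e := VB_scale hk0 (i : ℝ) ((i : ℝ) + 1) (y / k)
    have e1 : (k : ℝ) * (y / k) = y := by field_simp
    have e2 : (k : ℝ) * i = ((i * k : ℕ) : ℝ) := by push_cast; ring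
    have e3 : (k : ℝ) * (i + 1) = ((i * k : ℕ) : ℝ) + k := by push_cast; ring
    rw [e1, e2, e3] at e
    rw [e]
    ring
  rw [h1, h2, ← Finset.sum_sub_distrib]
  refine (Finset.abs_sum_le_sum_abs _ _).trans ?_
  rw [Finset.sum_mul, Finset.sum_mul]
  refine Finset.sum_le_sum fun i hi => ?_
  rw [← mul_sub, abs_mul, abs_of_nonneg (hc i), mul_assoc]
  apply mul_le_mul_of_nonneg_left _ (hc i)
  refine (blk_KK y (i * k) k).trans ?_
  rw [mem_range] at hi
  have hiN : (i : ℝ) + 1 ≤ N := by exact_mod_cast hi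
  have hi0 : (0 : ℝ) ≤ i := Nat.cast_nonneg i
  have h4 : 2 * (((i * k : ℕ) : ℝ) + y) + k + 2 ≤ (2 * N) * k + 2 + 2 * y := by
    push_cast
    nlinarith
  have h5 : Real.log (2 * (((i * k : ℕ) : ℝ) + y) + k + 2) ≤
      (2 * Real.log ((2 * N : ℝ) + 2) + 1) * Lg := by
    refine (Real.log_le_log (by positivity) h4).trans ?_
    have h6 : (2 * (N : ℝ)) * k + 2 + 2 * y ≤ (2 * N + 2) * (k + 1 + y) := by
      have : (0 : ℝ) ≤ N := Nat.cast_nonneg N
      nlinarith [mul_nonneg this hy0]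
    refine (Real.log_le_log (by positivity) h6).trans ?_
    rw [Real.log_mul (by positivity) (by positivity)]
    nlinarith
  linarith

/-! ## weights -/

lemma GG_lip0 {x y L : ℝ} (hx : |x| + 1 ≤ L) (hy : |y| + 1 ≤ L) :
    |GG x 0 - GG y 0| ≤ |x - y| * Real.log L + 4 := by
  have h1 := GG_x_lip (D := 1) le_rfl hx hy
  have h2 := GG_y_lip x (le_refl (0 : ℝ)) zero_le_one
  have h3 := GG_y_lip y (le_refl (0 : ℝ)) zero_le_one
  have hpi := Real.pi_lt_four
  rw [sub_zero, abs_one, mul_one] at h2 h3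
  rw [abs_le] at h1 h2 h3 ⊢
  constructor <;> linarith [h1.1, h1.2, h2.1, h2.2, h3.1, h3.2]

/-- the field -/
noncomputable def HH (al s : ℝ) : ℝ := GG (al - s) 0 + GG (al + s) 0

lemma HH_scale {k : ℝ} (hk : 0 < k) (al s : ℝ) :
    HH (k * al) (k * s) = k * HH al s + 2 * al * (k * Real.log k) := by
  unfold HH
  rw [show k * al - k * s = k * (al - s) by ring, show k * al + k * s = k * (al + s) by ring,
    GG_scale0 hk, GG_scale0 hk]
  ring

lemma HH_shift {A B s L : ℝ} (_hA : 0 ≤ A) (hB : 0 ≤ B) (hs : 0 ≤ s) (hAB : |A - B| ≤ 4)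
    (hL : A + s + 5 ≤ L) : |HH A s - HH B s| ≤ 8 * Real.log L + 8 := by
  have hl : 0 ≤ Real.log L := Real.log_nonneg (by linarith)
  rw [abs_le] at hAB
  have hBA : B ≤ A + 4 := by linarith [hAB.1]
  have a1 : |A - s| + 1 ≤ L := by
    have : |A - s| ≤ A + s := by rw [abs_le]; constructor <;> linarith
    linarith
  have a2 : |B - s| + 1 ≤ L := by
    have : |B - s| ≤ B + s := by rw [abs_le]; constructor <;> linarith
    linarith
  have a3 : |A + s| + 1 ≤ L := by rw [abs_of_nonneg (by linarith)]; linarith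
  have a4 : |B + s| + 1 ≤ L := by rw [abs_of_nonneg (by linarith)]; linarith
  have g1 := GG_lip0 a1 a2
  have g2 := GG_lip0 a3 a4
  have e1 : |A - s - (B - s)| ≤ 4 := by
    rw [show A - s - (B - s) = A - B by ring, abs_le]; exact ⟨by linarith [hAB.1], hAB.2⟩
  have e2 : |A + s - (B + s)| ≤ 4 := by
    rw [show A + s - (B + s) = A - B by ring, abs_le]; exact ⟨by linarith [hAB.1], hAB.2⟩
  have f1 := mul_le_mul_of_nonneg_right e1 hl
  have f2 := mul_le_mul_of_nonneg_right e2 hl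
  unfold HH
  rw [abs_le] at g1 g2 ⊢
  constructor <;> linarith [g1.1, g1.2, g2.1, g2.2]

/-- the weight at the sites -/
theorem wA_le (q : ℕ) : ∃ C : ℝ, 0 ≤ C ∧ ∀ A y : ℕ, 1 ≤ A → A + 1 ≤ y →
    wA q (A + 1) y ≤ Real.exp (-(q * HH A y) + C * Real.log (A + y + 5)) := by
  obtain ⟨C1, hC1, h1⟩ := w1 0 q 1
  refine ⟨C1 + 8 * q + 8 * q + 2, by positivity, ?_⟩
  intro A y hA hy
  obtain ⟨t, rfl⟩ : ∃ t, y = A + 1 + t := ⟨y - (A + 1), by omega⟩
  have g := h1 A (t + 1) 0 t hA (Nat.lt_succ_self t)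
  have e0 : wgt 0 q 0 (A + 1) (A + 1) (t + 1) 0 1 (Sum.inl t) =
      ‖Rc q 0 (A + 1) (A + 1) (((A + 1 + t : ℕ)) : ℂ)‖ := by
    have : pos (A + 1) (t + 1) (Sum.inl t) = (((A + 1 + t : ℕ)) : ℂ) := by
      rw [pos_site]; push_cast; rfl
    unfold wgt
    dsimp only
    rw [this, pow_zero, one_mul]
  rw [e0] at g
  have hA0 : (1 : ℝ) ≤ A := by exact_mod_cast hA
  have ht0 : (0 : ℝ) ≤ t := Nat.cast_nonneg t
  set yy : ℝ := ((A + 1 + t : ℕ) : ℝ) with hyy
  have hyy' : yy = A + 1 + t := by rw [hyy]; push_cast; ring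
  set L : ℝ := A + yy + 5 with hL
  have hlL : 1 ≤ Real.log L := by
    rw [Real.le_log_iff_exp_le (by rw [hL, hyy']; positivity)]
    have := Real.exp_one_lt_d9
    rw [hL, hyy']
    linarith
  have hlog1 : Real.log ((A : ℝ) + ((t + 1 : ℕ) : ℝ) + ((0 : ℕ) : ℝ) + 2) ≤ Real.log L := by
    apply Real.log_le_log (by positivity)
    rw [hL, hyy']
    push_cast
    linarith
  -- compare the fields
  have hGG : |HH A yy - (GG ((t : ℝ) + 2 * A) 0 - GG t 0)| ≤ 2 * Real.log L + 8 := by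
    have a1 : |(A : ℝ) - yy| + 1 ≤ L := by
      have : |(A : ℝ) - yy| ≤ A + yy := by
        rw [abs_le]; constructor <;> rw [hyy'] <;> linarith
      linarith
    have a2 : |-(t : ℝ)| + 1 ≤ L := by
      rw [abs_neg, abs_of_nonneg ht0, hL, hyy']; linarith
    have a3 : |(A : ℝ) + yy| + 1 ≤ L := by
      rw [abs_of_nonneg (by rw [hyy']; positivity)]; linarith
    have a4 : |(t : ℝ) + 2 * A| + 1 ≤ L := by
      rw [abs_of_nonneg (by positivity), hL, hyy']; linarith
    have g1 := GG_lip0 a1 a2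
    have g2 := GG_lip0 a3 a4
    have e1 : |(A : ℝ) - yy - -(t : ℝ)| = 1 := by
      rw [hyy', show (A : ℝ) - (A + 1 + t) - -(t : ℝ) = -1 by ring]; norm_num
    have e2 : |(A : ℝ) + yy - ((t : ℝ) + 2 * A)| = 1 := by
      rw [hyy', show (A : ℝ) + (A + 1 + t) - ((t : ℝ) + 2 * A) = 1 by ring]; norm_num
    rw [e1, one_mul] at g1
    rw [e2, one_mul] at g2
    have e3 : GG (-(t : ℝ)) 0 = -GG t 0 := GG_neg _ _
    rw [e3] at g1
    unfold HH
    rw [abs_le] at g1 g2 ⊢
    constructor <;> linarith [g1.1, g1.2, g2.1, g2.2]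
  have hq0 : (0 : ℝ) ≤ q := Nat.cast_nonneg q
  have hGG' := mul_le_mul_of_nonneg_left (abs_le.1 hGG).2 hq0
  have h2 : (1 + yy) ^ 2 ≤ Real.exp (2 * Real.log L) := by
    have : Real.exp (2 * Real.log L) = L ^ 2 := by
      have h := Real.exp_log (show 0 < L by rw [hL, hyy']; positivity)
      rw [two_mul, Real.exp_add, h]
      ring
    rw [this]
    apply pow_le_pow_left₀ (by rw [hyy']; positivity)
    rw [hL]
    linarith
  unfold wA
  calc (1 + yy) ^ 2 * ‖Rc q 0 (A + 1) (A + 1) (((A + 1 + t : ℕ)) : ℂ)‖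
      ≤ Real.exp (2 * Real.log L) * Real.exp (-(q * (GG ((t : ℝ) + 2 * A) 0 - GG t 0)) +
          C1 * Real.log ((A : ℝ) + ((t + 1 : ℕ) : ℝ) + ((0 : ℕ) : ℝ) + 2)) :=
        mul_le_mul h2 g (norm_nonneg _) (Real.exp_nonneg _)
    _ ≤ _ := by
        rw [← Real.exp_add, Real.exp_le_exp]
        have h3 := mul_le_mul_of_nonneg_left hlog1 hC1
        have h4 : (q : ℝ) * (2 * Real.log L + 8) ≤ (8 * q + 8 * q) * Real.log L := by
          nlinarith [mul_le_mul_of_nonneg_left hlL hq0]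
        nlinarith [hGG', h3, h4]

lemma prod_succ_le (n : ℕ) : Real.exp (GG n 0) ≤ ∏ j ∈ range n, ((j : ℝ) + 1) := by
  have h := exp_GG_le_prod 0 n
  have e : GG ((0 : ℕ) : ℝ) 0 = 0 := by
    rw [Nat.cast_zero]; exact GG_zero_left 0
  rw [e, sub_zero] at h
  refine le_trans (le_of_eq ?_) (h.trans (le_of_eq ?_))
  · simp
  · refine Finset.prod_congr rfl fun j _ => ?_
    push_cast
    ring

/-- the weight at the nodes -/
theorem wB_le (q A y : ℕ) (hy : y ≤ A) : wB q (A + 1) y ≤ Real.exp (-(q * HH A y)) := by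
  have hprod : Real.exp (HH A y) ≤ ∏ w ∈ (pc (A + 1)).erase (y : ℤ), ‖(w : ℂ) - y‖ := by
    have hsplit : (pc (A + 1)).erase (y : ℤ) = Finset.Icc (-(A : ℤ)) ((y : ℤ) - 1) ∪
        Finset.Icc ((y : ℤ) + 1) A := by
      ext w
      rw [Finset.mem_erase, mem_pc, Finset.mem_union, Finset.mem_Icc, Finset.mem_Icc]
      push_cast
      omega
    have hd : Disjoint (Finset.Icc (-(A : ℤ)) ((y : ℤ) - 1)) (Finset.Icc ((y : ℤ) + 1) (A : ℤ)) := by
      rw [Finset.disjoint_left]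
      intro w h1 h2
      rw [Finset.mem_Icc] at h1 h2
      omega
    rw [hsplit, Finset.prod_union hd]
    have h1 : ∏ w ∈ Finset.Icc (-(A : ℤ)) ((y : ℤ) - 1), ‖(w : ℂ) - y‖ =
        ∏ j ∈ range (A + y), ((j : ℝ) + 1) := by
      refine Finset.prod_nbij' (fun w => (y - 1 - w).toNat) (fun j => (y : ℤ) - 1 - j)
        ?_ ?_ ?_ ?_ ?_
      · intro w hw; rw [Finset.mem_Icc] at hw; rw [mem_range]; omega
      · intro j hj; rw [mem_range] at hj; rw [Finset.mem_Icc]; omega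
      · intro w hw; rw [Finset.mem_Icc] at hw; omega
      · intro j hj; rw [mem_range] at hj; omega
      · intro w hw
        rw [Finset.mem_Icc] at hw
        have e : (w : ℂ) - y = (((w - y : ℤ) : ℝ) : ℂ) := by push_cast; rfl
        have e2 : (((y - 1 - w).toNat : ℕ) : ℝ) = (y : ℝ) - 1 - w := by
          have : (((y - 1 - w).toNat : ℕ) : ℤ) = y - 1 - w := by omega
          exact_mod_cast this
        rw [e, Complex.norm_real, Real.norm_eq_abs, e2]
        have h3 : ((w - y : ℤ) : ℝ) ≤ 0 := by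
          have : w - y ≤ 0 := by omega
          exact_mod_cast this
        rw [abs_of_nonpos h3]
        push_cast
        ring
    have h2 : ∏ w ∈ Finset.Icc ((y : ℤ) + 1) (A : ℤ), ‖(w : ℂ) - y‖ =
        ∏ j ∈ range (A - y), ((j : ℝ) + 1) := by
      refine Finset.prod_nbij' (fun w => (w - 1 - y).toNat) (fun j => (y : ℤ) + 1 + j)
        ?_ ?_ ?_ ?_ ?_
      · intro w hw; rw [Finset.mem_Icc] at hw; rw [mem_range]; omega
      · intro j hj; rw [mem_range] at hj; rw [Finset.mem_Icc]; omega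
      · intro w hw; rw [Finset.mem_Icc] at hw; omega
      · intro j hj; rw [mem_range] at hj; omega
      · intro w hw
        rw [Finset.mem_Icc] at hw
        have e : (w : ℂ) - y = (((w - y : ℤ) : ℝ) : ℂ) := by push_cast; rfl
        have e2 : (((w - 1 - y).toNat : ℕ) : ℝ) = (w : ℝ) - 1 - y := by
          have : (((w - 1 - y).toNat : ℕ) : ℤ) = w - 1 - y := by omega
          exact_mod_cast this
        rw [e, Complex.norm_real, Real.norm_eq_abs, e2]
        have h3 : (0 : ℝ) ≤ ((w - y : ℤ) : ℝ) := by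
          have : 0 ≤ w - y := by omega
          exact_mod_cast this
        rw [abs_of_nonneg h3]
        push_cast
        ring
    rw [h1, h2]
    have g1 := prod_succ_le (A + y)
    have g2 := prod_succ_le (A - y)
    rw [Nat.cast_sub hy] at g2
    push_cast at g1
    unfold HH
    rw [add_comm, Real.exp_add]
    exact mul_le_mul g1 g2 (Real.exp_nonneg _) (Finset.prod_nonneg fun _ _ => by positivity)
  unfold wB
  have h3 : Real.exp (-(q * HH A y)) = ((Real.exp (HH A y))⁻¹) ^ q := by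
    rw [← Real.exp_neg, ← Real.exp_nat_mul]
    congr 1
    ring
  rw [h3]
  apply pow_le_pow_left₀ (inv_nonneg.2 (Finset.prod_nonneg fun _ _ => norm_nonneg _))
  exact inv_anti₀ (Real.exp_pos _) hprod

end BE

end Z579
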