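import Pool.Agent.Lib.Z579.E6Tot

/-!
# The archimedean bound from a numerical certificate: `ArchTot`
-/

open Finset

namespace Z579

namespace EM

open Arch

variable {P : Par}

/-- `C k log (k+1) ≤ δ k^2` for large `k` -/
lemma eventually_klog (C δ : ℝ) (hδ : 0 < δ) : ∃ k0 : ℕ, ∀ k : ℕ, k0 ≤ k →
    C * (k * Real.log (k + 1)) ≤ δ * (k : ℝ) ^ 2 := by
  have h1 : Filter.Tendsto (fun x : ℝ => Real.log x / x) Filter.atTop (nhds 0) := by
    have := Real.isLittleO_log_id_atTop.tendsto_div_nhds_zero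
    simpa using this
  have h2 : Filter.Tendsto (fun k : ℕ => (k : ℝ) + 1) Filter.atTop Filter.atTop :=
    Filter.tendsto_atTop_add_const_right _ _ tendsto_natCast_atTop_atTop
  have h3 := h1.comp h2
  have h4 : Filter.Tendsto (fun k : ℕ => 2 * |C| * (Real.log ((k : ℝ) + 1) / ((k : ℝ) + 1)))
      Filter.atTop (nhds (2 * |C| * 0)) := h3.const_mul _
  rw [mul_zero] at h4
  have h5 := h4.eventually_lt_const hδ
  rw [Filter.eventually_atTop] at h5
  obtain ⟨k1, hk1⟩ := h5
  refine ⟨max k1 1, fun k hk => ?_⟩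
  have hk2 := hk1 k ((le_max_left _ _).trans hk)
  have hk3 : 1 ≤ k := (le_max_right _ _).trans hk
  have hk0 : (1 : ℝ) ≤ k := by exact_mod_cast hk3
  have hl : 0 ≤ Real.log ((k : ℝ) + 1) := Real.log_nonneg (by linarith)
  have h6 : 2 * |C| * Real.log ((k : ℝ) + 1) ≤ δ * (k + 1) := by
    have h7 : 2 * |C| * (Real.log ((k : ℝ) + 1) / ((k : ℝ) + 1)) =
      2 * |C| * Real.log ((k : ℝ) + 1) / ((k : ℝ) + 1) := by ring
    rw [h7, div_lt_iff₀ (by linarith)] at hk2
    exact hk2.le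
  have h8 : C * (k * Real.log (k + 1)) ≤ |C| * (k * Real.log (k + 1)) :=
    mul_le_mul_of_nonneg_right (le_abs_self C) (by positivity)
  have h9 : δ * ((k : ℝ) + 1) ≤ 2 * (δ * k) := by nlinarith
  have h10 : |C| * Real.log ((k : ℝ) + 1) ≤ δ * k := by linarith
  calc _ ≤ |C| * (k * Real.log (k + 1)) := h8
    _ = k * (|C| * Real.log ((k : ℝ) + 1)) := by ring
    _ ≤ k * (δ * k) := mul_le_mul_of_nonneg_left h10 (by linarith)
    _ = _ := by ring

lemma log_one_add_absorb {C u : ℝ} (hC : 0 ≤ C) (hu : 0 ≤ u) :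
    C * Real.log (1 + u) ≤ u + (1 + C * Real.log (C + 1)) := by
  have h1 : Real.log (1 + u) = Real.log ((1 + u) / (C + 1)) + Real.log (C + 1) := by
    rw [Real.log_div (by positivity) (by positivity)]; ring
  have h2 : Real.log ((1 + u) / (C + 1)) ≤ (1 + u) / (C + 1) := by
    have := Real.log_le_sub_one_of_pos (x := (1 + u) / (C + 1)) (by positivity)
    linarith
  have h3 : C * ((1 + u) / (C + 1)) ≤ 1 + u := by
    rw [mul_div_assoc', div_le_iff₀ (by positivity)]
    nlinarith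
  rw [h1, mul_add]
  have := mul_le_mul_of_nonneg_left h2 hC
  linarith

set_option maxHeartbeats 1000000 in
theorem archTot_of (hU1 : U1) (hU2 : U2) (hU3 : U3) (hU4 : U4) (hW1 : W1) (hW2 : W2)
    (hP : P.Ok) {A0 : ℝ} (c : Cert P A0) : ArchTot P A0 := by
  intro δ hδ
  obtain ⟨KR, hKR, hKer⟩ := Ker_bound P.r hP.r2
  obtain ⟨C1, hC1, h1⟩ := site_bound hU1 hU2 hW1 hP KR
  obtain ⟨C2, hC2, h2⟩ := line_bound hU3 hU4 hW2 hP KR
  obtain ⟨C3, hC3, h3⟩ := energy_lower hU1 hU2 hU3 hU4 hP c.eL c.eR c.fL c.fR c.enS c.enL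
  have hlY : 0 ≤ Real.log (((c.Y0 : ℝ) + 1) + 1) :=
    Real.log_nonneg (by
      have : (0 : ℝ) ≤ c.Y0 := by positivity
      linarith)
  have hlC : 0 ≤ Real.log (C2 + 1) := Real.log_nonneg (by linarith)
  set C4 : ℝ := C1 + C2 * (2 * Real.log (((c.Y0 : ℝ) + 1) + 1) + 1) +
    2 * (1 + C2 * Real.log (C2 + 1)) with hC4
  have hC4n : 0 ≤ C4 := by positivity
  set C5 : ℝ := P.mu * C4 + P.mu * (2 * Real.log ((P.mu : ℝ) + 1) + 1) +
    P.mu * (2 * Real.log ((2 * P.tau : ℝ) + 2) + 1) +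
    (P.r + 1) * |∑ i ∈ range P.tau, (c.sR i - c.sL i)| + C3 with hC5
  obtain ⟨k0, hk0⟩ := eventually_klog C5 δ hδ
  refine ⟨max k0 1, fun k hk z hz => ?_⟩
  have hk1 : 1 ≤ k := (le_max_right _ _).trans hk
  have hkk := hk0 k ((le_max_left _ _).trans hk)
  have hkp : (0 : ℝ) < k := by exact_mod_cast hk1
  have hk1' : (1 : ℝ) ≤ k := by exact_mod_cast hk1
  set Lg := Real.log ((k : ℝ) + 1) with hLg
  have hLg2 : 1 / 2 ≤ Lg := half_le_log hk1
  set l : ℝ := k * c.l + (4 * P.mu - 2 * P.q * P.al) * (k * Real.log k) + C4 * Lg with hl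
  set ψ : ℕ → ℝ := fun t => if t < P.tau * k then
    k * (c.sL (t / k) + (c.sR (t / k) - c.sL (t / k)) *
      (((t : ℝ) + 0) / k - ((t / k : ℕ) : ℝ))) else 0 with hψ
  have hψ0 : ∀ t, 0 ≤ ψ t := by
    intro t
    by_cases ht : t < P.tau * k
    · have e : ψ t = k * (c.sL (t / k) + (c.sR (t / k) - c.sL (t / k)) *
        (((t : ℝ) + 0) / k - ((t / k : ℕ) : ℝ))) := if_pos ht
      rw [e]
      obtain ⟨d1, d2, d3⟩ := div_mem_cell hk1 ht (h := 0) le_rfl one_pos
      have s1 := c.sLn _ d1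
      have s2 := c.sRn _ d1
      refine mul_nonneg hkp.le ?_
      set x : ℝ := ((t : ℝ) + 0) / k - ((t / k : ℕ) : ℝ) with hx
      have hx0 : 0 ≤ x := by linarith
      have hx1 : x ≤ 1 := by linarith
      nlinarith [mul_nonneg s1 (sub_nonneg.2 hx1), mul_nonneg s2 hx0]
    · have e : ψ t = 0 := if_neg ht
      rw [e]
  have hmain := hank_energy (r := P.r) (q := P.q) (B := 0) (a := P.al * k + 1)
    (b := P.al * k + 1) (T := P.tau * k) (m := P.mu * k) (z := z) hP.er hP.r2 hP.eq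
    (by omega) le_rfl (Or.inr rfl) (by
      have := Nat.mul_le_mul_right k hP.deg
      have e : 2 * (P.al * k + 1) - 1 = 2 * (P.al * k) + 1 := by omega
      rw [e]
      nlinarith) hz hKR.le hKer (refS P k) (refX P k) (refC P k) (mass_ref hP k) l ψ hψ0 ?_ ?_
  · -- conclusion
    refine hmain.trans ?_
    have hen := h3 k hk1
    have hψs : ∑ t ∈ range (P.tau * k), ψ t = (k : ℝ) ^ 2 * ∑ i ∈ range P.tau,
        (c.sL i + c.sR i) / 2 + k * ((0 - 1 / 2) * ∑ i ∈ range P.tau, (c.sR i - c.sL i)) := by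
      have e : ∀ t ∈ range (P.tau * k), ψ t = k * (c.sL (t / k) + (c.sR (t / k) - c.sL (t / k)) *
        (((t : ℝ) + 0) / k - ((t / k : ℕ) : ℝ))) := fun t ht => if_pos (mem_range.1 ht)
      rw [Finset.sum_congr rfl e, ← Finset.mul_sum, sum_aff_cells hk1, Finset.sum_add_distrib,
        ← Finset.mul_sum, ← Finset.sum_mul]
      ring
    have hfac : (((P.mu * k).factorial : ℕ) : ℝ) ≤
        Real.exp (P.mu * k * ((2 * Real.log ((P.mu : ℝ) + 1) + 1) * Lg)) := by
      have f1 : (((P.mu * k).factorial : ℕ) : ℝ) ≤ ((P.mu * k : ℕ) : ℝ) ^ (P.mu * k) := by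
        exact_mod_cast Nat.factorial_le_pow (P.mu * k)
      have hmk : (0 : ℝ) < ((P.mu * k : ℕ) : ℝ) := by
        have : 0 < P.mu * k := Nat.mul_pos hP.mu1 hk1
        exact_mod_cast this
      refine f1.trans ?_
      rw [← Real.exp_log hmk, ← Real.exp_nat_mul, Real.exp_le_exp]
      have f2 : Real.log ((P.mu * k : ℕ) : ℝ) ≤ (2 * Real.log ((P.mu : ℝ) + 1) + 1) * Lg := by
        have := log_lin_le (X := (P.mu : ℝ)) (Y := 1) hk1 (y := 0) le_rfl (by positivity)
          (by norm_num)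
        rw [add_zero, add_zero] at this
        refine le_trans (Real.log_le_log hmk ?_) this
        push_cast
        linarith
      have f3 := mul_le_mul_of_nonneg_left f2 hmk.le
      push_cast at f3 ⊢
      exact f3
    have hpow : (2 * (((P.tau * k : ℕ) : ℝ) + 1)) ^ (P.mu * k) ≤
        Real.exp (P.mu * k * ((2 * Real.log ((2 * P.tau : ℝ) + 2) + 1) * Lg)) := by
      have hmk : (0 : ℝ) < 2 * (((P.tau * k : ℕ) : ℝ) + 1) := by positivity
      rw [← Real.exp_log hmk, ← Real.exp_nat_mul, Real.exp_le_exp]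
      have f2 : Real.log (2 * (((P.tau * k : ℕ) : ℝ) + 1)) ≤
          (2 * Real.log ((2 * P.tau : ℝ) + 2) + 1) * Lg := by
        have := log_lin_le (X := (2 * P.tau : ℝ)) (Y := 2) hk1 (y := 0) le_rfl (by positivity)
          (by norm_num)
        rw [add_zero, add_zero] at this
        refine le_trans (Real.log_le_log hmk ?_) this
        push_cast
        linarith
      have f3 := mul_le_mul_of_nonneg_left f2 (Nat.cast_nonneg (α := ℝ) (P.mu * k))
      push_cast at f3 ⊢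
      exact f3
    refine (mul_le_mul hfac (mul_le_mul_of_nonneg_right hpow (Real.exp_nonneg _))
      (by positivity) (Real.exp_nonneg _)).trans ?_
    rw [← Real.exp_add, ← Real.exp_add, Real.exp_le_exp, hψs]
    have htot := c.tot
    have t1 := mul_le_mul_of_nonneg_left htot (sq_nonneg (k : ℝ))
    have t2 : (P.r + 1) * (k * ((0 - 1 / 2) * ∑ i ∈ range P.tau, (c.sR i - c.sL i))) ≤
        (P.r + 1) * |∑ i ∈ range P.tau, (c.sR i - c.sL i)| * (k * Lg) := by
      have q0 := (abs_le.1 (le_refl |∑ i ∈ range P.tau, (c.sR i - c.sL i)|)).1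
      have q00 : 0 ≤ |∑ i ∈ range P.tau, (c.sR i - c.sL i)| := abs_nonneg _
      have q1 : (0 - 1 / 2) * (∑ i ∈ range P.tau, (c.sR i - c.sL i)) ≤
          |∑ i ∈ range P.tau, (c.sR i - c.sL i)| * Lg := by nlinarith
      have q2 := mul_le_mul_of_nonneg_left q1 (mul_nonneg (by positivity : (0 : ℝ) ≤ P.r + 1)
        hkp.le)
      linarith
    have t3 : (((P.mu * k : ℕ) : ℝ)) * l = (k : ℝ) ^ 2 * (P.mu * c.l) +
        (4 * P.mu ^ 2 - 2 * P.q * P.al * P.mu) * ((k : ℝ) ^ 2 * Real.log k) +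
        P.mu * C4 * (k * Lg) := by
      rw [hl]; push_cast; ring
    have e00 : e0 P c.eL c.eR c.fL c.fR = P.c1 * ∑ i ∈ range P.t1, (c.eL i + c.eR i) / 2 +
      P.c2 * ∑ i ∈ range P.tau, (c.eL i + c.eR i) / 2 +
      2 * P.d * ∑ j ∈ range P.eps, (c.fL j + c.fR j) / 2 := rfl
    rw [e00] at hen
    have hkk' : C5 * (k * Lg) = P.mu * C4 * (k * Lg) +
      P.mu * k * ((2 * Real.log ((P.mu : ℝ) + 1) + 1) * Lg) +
      P.mu * k * ((2 * Real.log ((2 * P.tau : ℝ) + 2) + 1) * Lg) +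
      (P.r + 1) * |∑ i ∈ range P.tau, (c.sR i - c.sL i)| * (k * Lg) + C3 * (k * Lg) := by
      rw [hC5]; ring
    rw [hkk'] at hkk
    rw [t3]
    linarith [t1, t2, hen, hkk]
  · -- the line
    intro y
    refine (h2 k y hk1).trans ?_
    rw [Real.exp_le_exp]
    have hy0 := abs_nonneg y
    set v := |y| with hv
    have hvk : 0 ≤ v / k := by positivity
    have hlog1 : Real.log ((c.Y0 + 1) * k + 1) ≤
        (2 * Real.log (((c.Y0 : ℝ) + 1) + 1) + 1) * Lg := by
      have := log_lin_le (X := (c.Y0 : ℝ) + 1) (Y := 1) hk1 (y := 0) le_rfl (by positivity)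
        (by norm_num)
      rwa [add_zero, add_zero] at this
    have hlog2 := mul_le_mul_of_nonneg_left hlog1 hC2
    have hextra : 0 ≤ (C1 + 2 * (1 + C2 * Real.log (C2 + 1))) * Lg := by positivity
    rcases lt_or_ge (v / k) c.Y0 with hc | hc
    · have i1 : ⌊v / k⌋₊ < c.Y0 := (Nat.floor_lt hvk).2 hc
      have i2 := c.line _ i1 (v / k) (Nat.floor_le hvk) (Nat.lt_floor_add_one _).le
      rw [sub_self, zero_mul, add_zero] at i2
      have i3 := mul_le_mul_of_nonneg_left i2 hkp.le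
      have i4 : Real.log (k + 1 + v) ≤ Real.log ((c.Y0 + 1) * k + 1) := by
        apply Real.log_le_log (by positivity)
        rw [div_lt_iff₀ hkp] at hc
        linarith
      have i5 := mul_le_mul_of_nonneg_left i4 hC2
      rw [hl, hC4]
      linarith
    · have i2 := c.tail (v / k) hc
      have i3 := mul_le_mul_of_nonneg_left i2 hkp.le
      set u := v - c.Y0 * k with hu
      have hu0 : 0 ≤ u := by
        rw [le_div_iff₀ hkp] at hc
        linarith
      have i6 : (k : ℝ) * (c.l - (v / k - c.Y0)) = k * c.l - u := by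
        rw [hu]; field_simp
      rw [i6] at i3
      have i4 : Real.log (k + 1 + v) ≤ Real.log ((c.Y0 + 1) * k + 1) + Real.log (1 + u) := by
        rw [← Real.log_mul (by positivity) (by positivity)]
        apply Real.log_le_log (by positivity)
        have : (0 : ℝ) ≤ (c.Y0 + 1) * k := by positivity
        nlinarith
      have i5 := mul_le_mul_of_nonneg_left i4 hC2
      have i7 := log_one_add_absorb hC2 hu0
      have i8 : 1 + C2 * Real.log (C2 + 1) ≤ 2 * (1 + C2 * Real.log (C2 + 1)) * Lg := by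
        have : 0 ≤ 1 + C2 * Real.log (C2 + 1) := by positivity
        nlinarith
      have i9 : 0 ≤ C1 * Lg := by positivity
      rw [hl, hC4]
      linarith
  · -- the sites
    intro t ht
    refine (h1 k t hk1 ht).trans ?_
    rw [Real.exp_le_exp]
    obtain ⟨d1, d2, d3⟩ := div_mem_cell hk1 ht (h := 0) le_rfl one_pos
    have e : ψ t = k * (c.sL (t / k) + (c.sR (t / k) - c.sL (t / k)) *
        (((t : ℝ) + 0) / k - ((t / k : ℕ) : ℝ))) := if_pos ht
    have i2 := c.site _ d1 _ d2 d3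
    rw [e]
    rw [add_zero] at i2 ⊢
    have i3 := mul_le_mul_of_nonneg_left i2 hkp.le
    have i4 : 0 ≤ (C2 * (2 * Real.log (((c.Y0 : ℝ) + 1) + 1) + 1) +
      2 * (1 + C2 * Real.log (C2 + 1))) * Lg := by positivity
    rw [hl, hC4]
    linarith

end EM

end Z579
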