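import Pool.Agent.Lib.Z579.BE5
import Pool.Agent.Lib.Z579.E6Fin

/-!
# BE6: parameters, certificates, estimates for the two-block problem
-/

open Finset Polynomial

namespace Z579

namespace BE

open EM Arch Z579.Num

/-- parameters in units of a scale `k`: `a = al k + a0`, `K = mu k + m0`; the reference densities
are `cA i`, `cB i` on the cell `[i, i+1]`, `i < N` -/
structure BPar where
  q : ℕ
  al : ℕ
  a0 : ℕ
  mu : ℕ
  m0 : ℕ
  N : ℕ
  cA : ℕ → ℝ
  cB : ℕ → ℝ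

structure BPar.Ok (P : BPar) : Prop where
  al1 : 1 ≤ P.al
  a01 : 1 ≤ P.a0
  a04 : P.a0 ≤ 5
  mu1 : 1 ≤ P.mu
  N1 : 1 ≤ P.N
  cAn : ∀ i, 0 ≤ P.cA i
  cBn : ∀ i, 0 ≤ P.cB i
  massA : ∑ i ∈ range P.N, P.cA i = P.mu
  massB : ∑ i ∈ range P.N, P.cB i = P.mu
  deg : 6 * P.mu ≤ 2 * P.q * P.al
  deg0 : 6 * P.m0 + 1 ≤ P.q * (2 * P.a0 - 1)

/-- densities -/
def BPar.d (P : BPar) : Bool → ℕ → ℝ
  | false => P.cA
  | true => P.cB

/-- potential of both densities plus the own one -/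
noncomputable def WW (P : BPar) (b : Bool) (s : ℝ) : ℝ :=
  Up P.cA P.N s + Up P.cB P.N s + Up (P.d b) P.N s

/-- weighted potential -/
noncomputable def Phi (P : BPar) (b : Bool) (s : ℝ) : ℝ := -(P.q * HH P.al s) + WW P b s

/-- numerical data -/
structure BCert (P : BPar) (A0 : ℝ) where
  lA : ℝ
  lB : ℝ
  Y0 : ℕ
  hY : 1 ≤ Y0
  sL : ℕ → ℝ
  sR : ℕ → ℝ
  eL : ℕ → ℝ
  eR : ℕ → ℝ
  fL : ℕ → ℝ
  fR : ℕ → ℝ
  sLn : ∀ i < Y0, 0 ≤ sL i
  sRn : ∀ i < Y0, 0 ≤ sR i
  site : ∀ i, P.al ≤ i → i < Y0 → CellLe (Phi P false) i (lA + sL i) (lA + sR i)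
  tail : ∀ s : ℝ, (Y0 : ℝ) ≤ s → Phi P false s ≤ lA - (Real.log s - Real.log Y0)
  node : ∀ i, i ≤ P.al → CellLe (Phi P true) i lB lB
  enA : ∀ i < P.N, P.cA i ≠ 0 → CellLe (fun s => -WW P false s) i (-eL i) (-eR i)
  enB : ∀ i < P.N, P.cB i ≠ 0 → CellLe (fun s => -WW P true s) i (-fL i) (-fR i)
  tot : P.mu * lA + P.mu * lB + ∑ i ∈ range Y0, (sL i + sR i) / 2 -
    (∑ i ∈ range P.N, P.cA i * ((eL i + eR i) / 2) +
      ∑ i ∈ range P.N, P.cB i * ((fL i + fR i) / 2)) / 2 ≤ A0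

variable {P : BPar}

lemma BPar.Ok.dn (hP : P.Ok) (b : Bool) (i : ℕ) : 0 ≤ P.d b i := by
  cases b
  · exact hP.cAn i
  · exact hP.cBn i

lemma BPar.Ok.mass (hP : P.Ok) (b : Bool) : ∑ i ∈ range P.N, P.d b i = P.mu := by
  cases b
  · exact hP.massA
  · exact hP.massB

variable (P)

/-- weights of the reference configuration -/
noncomputable def cw (k : ℕ) (b : Bool) (x : ℕ) : ℝ := P.d b (x / k) + if x = 0 then (P.m0 : ℝ) else 0

/-- potential of the reference configuration -/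
noncomputable def PP (k : ℕ) (b : Bool) (y : ℕ) : ℝ :=
  ∑ x ∈ range (P.N * k), cw P k b x * KK (y : ℂ) (x : ℂ)

variable {P}

lemma cw_nonneg (hP : P.Ok) (k : ℕ) (b : Bool) (x : ℕ) : 0 ≤ cw P k b x := by
  unfold cw
  have := hP.dn b (x / k)
  split_ifs <;> positivity

lemma sum_dens (k : ℕ) (N : ℕ) (c : ℕ → ℝ) : ∑ x ∈ range (N * k), c (x / k) =
    k * ∑ i ∈ range N, c i := by
  rw [sum_range_mul N k fun x => c (x / k), Finset.mul_sum]
  refine Finset.sum_congr rfl fun i _ => ?_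
  rw [Finset.sum_congr rfl fun j hj => by rw [cell_div (mem_range.1 hj)], Finset.sum_const,
    card_range, nsmul_eq_mul]

lemma sum_ite_zero {n : ℕ} (hn : 1 ≤ n) (m : ℝ) (f : ℕ → ℝ) :
    ∑ x ∈ range n, (if x = 0 then m else 0) * f x = m * f 0 := by
  rw [Finset.sum_eq_single 0]
  · simp
  · intro x _ hx
    rw [if_neg hx, zero_mul]
  · intro h
    rw [mem_range] at h
    omega

lemma Nk_pos (hP : P.Ok) {k : ℕ} (hk : 1 ≤ k) : 1 ≤ P.N * k := by
  have := hP.N1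
  exact Nat.one_le_iff_ne_zero.2 (by positivity)

lemma cw_mass (hP : P.Ok) {k : ℕ} (hk : 1 ≤ k) (b : Bool) :
    ∑ x ∈ range (P.N * k), cw P k b x = ((P.mu * k + P.m0 : ℕ) : ℝ) := by
  unfold cw
  rw [Finset.sum_add_distrib, sum_dens, hP.mass]
  have h := sum_ite_zero (Nk_pos hP hk) (P.m0 : ℝ) (fun _ => 1)
  simp only [mul_one] at h
  rw [h]
  push_cast
  ring

lemma KK_zero (y : ℕ) : KK (y : ℂ) ((0 : ℕ) : ℂ) = Real.log (1 + (y : ℝ) ^ 2) := by
  unfold KK
  rw [Nat.cast_zero, sub_zero, add_zero, Complex.norm_natCast]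
  ring

lemma log_sq_le {k y : ℕ} (hk : 1 ≤ k) :
    Real.log (1 + (y : ℝ) ^ 2) ≤ 2 * Real.log ((k : ℝ) + 1 + y) := by
  have hk1 : (1 : ℝ) ≤ k := by exact_mod_cast hk
  have hy0 : (0 : ℝ) ≤ y := Nat.cast_nonneg y
  have : 2 * Real.log ((k : ℝ) + 1 + y) = Real.log (((k : ℝ) + 1 + y) ^ 2) := by
    rw [Real.log_pow]; push_cast; ring
  rw [this]
  apply Real.log_le_log (by positivity)
  nlinarith

/-- the potential of the reference configuration -/
theorem PP_bound (hP : P.Ok) : ∃ C : ℝ, 0 ≤ C ∧ ∀ (b : Bool) (k y : ℕ), 1 ≤ k →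
    |PP P k b y - (k * Up (P.d b) P.N (y / k) + 2 * P.mu * (k * Real.log k))| ≤
      C * Real.log (k + 1 + y) := by
  obtain ⟨C1, hC1, h1⟩ := pot_nat P.cA hP.cAn P.N
  obtain ⟨C2, hC2, h2⟩ := pot_nat P.cB hP.cBn P.N
  refine ⟨C1 + C2 + 2 * P.m0, by positivity, ?_⟩
  intro b k y hk
  have hl := half_le_log' (y := y) hk
  have hs := log_sq_le (y := y) hk
  have hs0 := log_sq_nonneg y
  have e : PP P k b y = ∑ x ∈ range (P.N * k), P.d b (x / k) * KK (y : ℂ) (x : ℂ) +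
      P.m0 * Real.log (1 + (y : ℝ) ^ 2) := by
    unfold PP cw
    rw [← KK_zero, ← sum_ite_zero (Nk_pos hP hk) (P.m0 : ℝ) (fun x => KK (y : ℂ) (x : ℂ)),
      ← Finset.sum_add_distrib]
    exact Finset.sum_congr rfl fun x _ => by ring
  have hm : (0 : ℝ) ≤ P.m0 := Nat.cast_nonneg _
  have t1 := mul_le_mul_of_nonneg_left hs hm
  have t2 := mul_nonneg hm hs0
  have hmass := hP.mass b
  have hb : |∑ x ∈ range (P.N * k), P.d b (x / k) * KK (y : ℂ) (x : ℂ) -
      (k * Up (P.d b) P.N (y / k) + 2 * P.mu * (k * Real.log k))| ≤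
      (C1 + C2) * Real.log (k + 1 + y) := by
    cases b
    · have := h1 k y hk
      rw [hP.massA] at this
      refine this.trans ?_
      have := mul_nonneg hC2 (by linarith : 0 ≤ Real.log ((k : ℝ) + 1 + y))
      linarith
    · have := h2 k y hk
      rw [hP.massB] at this
      refine this.trans ?_
      have := mul_nonneg hC1 (by linarith : 0 ≤ Real.log ((k : ℝ) + 1 + y))
      linarith
  rw [e]
  rw [abs_le] at hb ⊢
  constructor <;> linarith [hb.1, hb.2]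

/-- sum of the three potentials -/
theorem WW_bound (hP : P.Ok) : ∃ C : ℝ, 0 ≤ C ∧ ∀ (b : Bool) (k y : ℕ), 1 ≤ k →
    |(PP P k false y + PP P k true y + PP P k b y) -
      (k * WW P b (y / k) + 6 * P.mu * (k * Real.log k))| ≤ C * Real.log (k + 1 + y) := by
  obtain ⟨C, hC, h⟩ := PP_bound hP
  refine ⟨3 * C, by positivity, ?_⟩
  intro b k y hk
  have h1 := h false k y hk
  have h2 := h true k y hk
  have h3 := h b k y hk
  unfold WW
  have e1 : P.d false = P.cA := rfl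
  have e2 : P.d true = P.cB := rfl
  rw [e1] at h1
  rw [e2] at h2
  rw [abs_le] at h1 h2 h3 ⊢
  constructor <;> nlinarith [h1.1, h1.2, h2.1, h2.2, h3.1, h3.2]

/-- the weights -/
noncomputable def wt2 (q a : ℕ) : Bool → ℕ → ℝ
  | false => wA q a
  | true => wB q a

/-- the point sets -/
def St (a : ℕ) : Bool → Set ℕ
  | false => {y | a ≤ y}
  | true => {y | y < a}

theorem wt2_bound (hP : P.Ok) : ∃ C : ℝ, 0 ≤ C ∧ ∀ (b : Bool) (k y : ℕ), 1 ≤ k →
    y ∈ St (P.al * k + P.a0) b →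
    wt2 P.q (P.al * k + P.a0) b y ≤
      Real.exp (-(P.q * (k * HH P.al (y / k) + 2 * P.al * (k * Real.log k))) +
        C * Real.log (k + 1 + y)) := by
  obtain ⟨C1, hC1, h1⟩ := wA_le P.q
  have hl0 : 0 ≤ Real.log ((P.al : ℝ) + P.a0 + 9) := Real.log_nonneg (by
    have : (0 : ℝ) ≤ (P.al : ℝ) + P.a0 := by positivity
    linarith)
  set D : ℝ := 2 * Real.log ((P.al : ℝ) + P.a0 + 9) + 1 with hD
  have hD0 : 1 ≤ D := by rw [hD]; linarith
  refine ⟨C1 * D + P.q * (8 * D + 16), by positivity, ?_⟩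
  intro b k y hk hy
  have hk0 : (0 : ℝ) < k := by exact_mod_cast hk
  have hk1 : (1 : ℝ) ≤ k := by exact_mod_cast hk
  have hy0 : (0 : ℝ) ≤ y := Nat.cast_nonneg y
  have hLg := half_le_log' (y := y) hk
  set Lg := Real.log ((k : ℝ) + 1 + y) with hLgdef
  have ha01 := hP.a01
  have ha04 := hP.a04
  have hal : 1 ≤ P.al * k := Nat.one_le_iff_ne_zero.2 (by
    have := hP.al1
    positivity)
  obtain ⟨A, hA⟩ : ∃ A, P.al * k + P.a0 = A + 1 := ⟨P.al * k + P.a0 - 1, by omega⟩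
  have hAr : (A : ℝ) + 1 = P.al * k + P.a0 := by exact_mod_cast hA.symm
  have ha04' : (P.a0 : ℝ) ≤ 5 := by exact_mod_cast ha04
  have ha01' : (1 : ℝ) ≤ P.a0 := by exact_mod_cast ha01
  have hA0 : (0 : ℝ) ≤ A := Nat.cast_nonneg A
  have hal0 : (0 : ℝ) ≤ P.al * k := by positivity
  have hlog : Real.log ((A : ℝ) + y + 5) ≤ D * Lg := by
    have h3 : (A : ℝ) + y + 5 ≤ ((P.al : ℝ) + P.a0 + 9) * (k + 1 + y) := by
      have t1 : (0 : ℝ) ≤ P.al := Nat.cast_nonneg _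
      nlinarith [mul_nonneg t1 hy0, mul_nonneg (by linarith : (0 : ℝ) ≤ (P.a0 : ℝ)) hy0]
    refine (Real.log_le_log (by positivity) h3).trans ?_
    rw [Real.log_mul (by positivity) (by positivity), hD]
    nlinarith
  have hshift := HH_shift (A := (A : ℝ)) (B := P.al * k) (s := y) (L := (A : ℝ) + y + 5) hA0
    hal0 hy0 (by
      rw [abs_le]; constructor <;> linarith) le_rfl
  have hscale : HH (P.al * k) y = k * HH P.al (y / k) + 2 * P.al * (k * Real.log k) := by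
    rw [← HH_scale hk0]
    congr 1
    · ring
    · field_simp
  rw [hscale] at hshift
  have hq0 : (0 : ℝ) ≤ P.q := Nat.cast_nonneg _
  have hs1 := mul_le_mul_of_nonneg_left (abs_le.1 hshift).1 hq0
  have hs2 : P.q * (8 * Real.log ((A : ℝ) + y + 5) + 8) ≤ P.q * ((8 * D + 16) * Lg) := by
    apply mul_le_mul_of_nonneg_left _ hq0
    nlinarith
  have hC1l := mul_le_mul_of_nonneg_left hlog hC1
  rw [hA] at hy ⊢
  cases b
  · have hy' : A + 1 ≤ y := hy
    have g := h1 A y (by omega) hy'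
    refine g.trans ?_
    rw [Real.exp_le_exp]
    nlinarith
  · have hy' : y < A + 1 := hy
    have g := wB_le P.q A y (by omega)
    refine g.trans ?_
    rw [Real.exp_le_exp]
    have : 0 ≤ C1 * D * Lg := by positivity
    nlinarith

/-- the values against the reference -/
theorem cond_bound (hP : P.Ok) : ∃ C : ℝ, 0 ≤ C ∧ ∀ (b : Bool) (k y : ℕ), 1 ≤ k →
    y ∈ St (P.al * k + P.a0) b →
    wt2 P.q (P.al * k + P.a0) b y * Real.exp (PP P k false y + PP P k true y + PP P k b y) ≤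
      Real.exp (k * Phi P b (y / k) + (6 * P.mu - 2 * P.q * P.al) * (k * Real.log k) +
        C * Real.log (k + 1 + y)) := by
  obtain ⟨C1, hC1, h1⟩ := WW_bound hP
  obtain ⟨C2, hC2, h2⟩ := wt2_bound hP
  refine ⟨C1 + C2, by positivity, ?_⟩
  intro b k y hk hy
  have g1 := (abs_le.1 (h1 b k y hk)).2
  have g2 := h2 b k y hk hy
  refine (mul_le_mul_of_nonneg_right g2 (Real.exp_nonneg _)).trans ?_
  rw [← Real.exp_add, Real.exp_le_exp]
  unfold Phi
  linarith

/-! ## energy -/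

/-- lower bound for the energy of one block -/
theorem energy_block (hP : P.Ok) (b : Bool) (eL eR : ℕ → ℝ)
    (en : ∀ i < P.N, P.d b i ≠ 0 → CellLe (fun s => -WW P b s) i (-eL i) (-eR i)) :
    ∃ C : ℝ, 0 ≤ C ∧ ∀ k : ℕ, 1 ≤ k →
    (k : ℝ) ^ 2 * (6 * P.mu ^ 2 * Real.log k) +
      (k : ℝ) ^ 2 * ∑ i ∈ range P.N, P.d b i * ((eL i + eR i) / 2) -
      C * (k * Real.log (k + 1)) ≤
    ∑ x ∈ range (P.N * k), cw P k b x * (PP P k false x + PP P k true x + PP P k b x) := by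
  obtain ⟨C1, hC1, h1⟩ := WW_bound hP
  have hl0 : 0 ≤ Real.log ((P.N : ℝ) + 2) := Real.log_nonneg (by
    have : (0 : ℝ) ≤ (P.N : ℝ) := by positivity
    linarith)
  set D : ℝ := 2 * Real.log ((P.N : ℝ) + 2) + 1 with hD
  set E : ℝ := |∑ i ∈ range P.N, P.d b i * (eR i - eL i)| with hE
  have hE0 : 0 ≤ E := abs_nonneg _
  refine ⟨P.mu * (C1 * D) + E, by positivity, ?_⟩
  intro k hk
  have hk0 : (0 : ℝ) < k := by exact_mod_cast hk
  have hk1 : (1 : ℝ) ≤ k := by exact_mod_cast hk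
  set Lg := Real.log ((k : ℝ) + 1) with hLg
  have hLg2 : 1 / 2 ≤ Lg := half_le_log hk
  set c0 : ℝ := 6 * P.mu * (k * Real.log k) - C1 * (D * Lg) with hc0
  have hstep : ∑ x ∈ range (P.N * k), P.d b (x / k) * (k * (eL (x / k) +
      (eR (x / k) - eL (x / k)) * (((x : ℝ) + 0) / k - ((x / k : ℕ) : ℝ))) + c0) ≤
      ∑ x ∈ range (P.N * k), cw P k b x * (PP P k false x + PP P k true x + PP P k b x) := by
    refine Finset.sum_le_sum fun x hx => ?_
    rw [mem_range] at hx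
    have hPP : ∀ b', 0 ≤ PP P k b' x := fun b' =>
      Finset.sum_nonneg fun x' _ => mul_nonneg (cw_nonneg hP k b' x') (KK_nonneg _ _)
    have hS : 0 ≤ PP P k false x + PP P k true x + PP P k b x :=
      add_nonneg (add_nonneg (hPP _) (hPP _)) (hPP _)
    have hcw : P.d b (x / k) ≤ cw P k b x := by
      unfold cw
      have : (0 : ℝ) ≤ P.m0 := Nat.cast_nonneg _
      split_ifs <;> linarith
    refine le_trans ?_ (mul_le_mul_of_nonneg_right hcw hS)
    obtain ⟨d1, d2, d3⟩ := div_mem_cell hk hx (h := 0) le_rfl one_pos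
    by_cases hd : P.d b (x / k) = 0
    · rw [hd, zero_mul, zero_mul]
    apply mul_le_mul_of_nonneg_left _ (hP.dn b _)
    have g1 := (abs_le.1 (h1 b k x hk)).1
    have g2 := en (x / k) d1 hd _ d2 d3
    rw [add_zero] at g2 ⊢
    have g3 : eL (x / k) + (eR (x / k) - eL (x / k)) * ((x : ℝ) / k - ((x / k : ℕ) : ℝ)) ≤
        WW P b (x / k) := by linarith
    have g4 := mul_le_mul_of_nonneg_left g3 hk0.le
    have hx' : (x : ℝ) ≤ P.N * k := by exact_mod_cast hx.le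
    have g6 : Real.log ((k : ℝ) + 1 + x) ≤ D * Lg := by
      have h3 : (k : ℝ) + 1 + x ≤ ((P.N : ℝ) + 2) * (k + 1) := by
        have : (0 : ℝ) ≤ (P.N : ℝ) := by positivity
        nlinarith
      refine (Real.log_le_log (by positivity) h3).trans ?_
      rw [Real.log_mul (by positivity) (by positivity), hD]
      nlinarith
    have g7 := mul_le_mul_of_nonneg_left g6 hC1
    rw [hc0]
    linarith
  have hid : ∑ x ∈ range (P.N * k), P.d b (x / k) * (k * (eL (x / k) +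
      (eR (x / k) - eL (x / k)) * (((x : ℝ) + 0) / k - ((x / k : ℕ) : ℝ))) + c0) =
      (k : ℝ) ^ 2 * ∑ i ∈ range P.N, P.d b i * ((eL i + eR i) / 2) + k * c0 * P.mu -
        1 / 2 * k * ∑ i ∈ range P.N, P.d b i * (eR i - eL i) := by
    have h := sum_aff_cells hk P.N 0 (fun i => P.d b i * (k * eL i + c0))
      (fun i => P.d b i * (k * eR i + c0))
    have e1 : ∑ x ∈ range (P.N * k), P.d b (x / k) * (k * (eL (x / k) +
      (eR (x / k) - eL (x / k)) * (((x : ℝ) + 0) / k - ((x / k : ℕ) : ℝ))) + c0) =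
      ∑ t ∈ range (P.N * k), (P.d b (t / k) * (k * eL (t / k) + c0) +
        (P.d b (t / k) * (k * eR (t / k) + c0) - P.d b (t / k) * (k * eL (t / k) + c0)) *
        (((t : ℝ) + 0) / k - ((t / k : ℕ) : ℝ))) :=
      Finset.sum_congr rfl fun x _ => by ring
    rw [e1, h, ← hP.mass b, Finset.mul_sum, Finset.mul_sum, Finset.mul_sum,
      ← Finset.sum_add_distrib, ← Finset.sum_sub_distrib]
    exact Finset.sum_congr rfl fun i _ => by ring
  refine le_trans ?_ (le_trans (le_of_eq hid.symm) hstep)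
  have q0 := (abs_le.1 (le_refl |∑ i ∈ range P.N, P.d b i * (eR i - eL i)|)).2
  rw [← hE] at q0
  have q1 : 1 / 2 * k * ∑ i ∈ range P.N, P.d b i * (eR i - eL i) ≤ E * (k * Lg) := by
    have q2 : 1 / 2 * ∑ i ∈ range P.N, P.d b i * (eR i - eL i) ≤ E * Lg := by nlinarith
    have q3 := mul_le_mul_of_nonneg_left q2 hk0.le
    linarith
  rw [hc0]
  nlinarith [q1]

end BE

end Z579
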