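import Pool.Agent.Lib.Z579.BE6

/-!
# BE7: the archimedean bound for two-block determinants from a certificate
-/

open Finset Polynomial

namespace Z579

namespace BE

open EM Arch Z579.Num

variable {P : BPar}

/-- moments of the two functionals -/
noncomputable def momF (q a : ℕ) (β : ℕ → ℚ) : Bool → ℕ → ℂ
  | false => momA q a
  | true => momB q a β

lemma exists_site (a : ℕ) (Z : List ℕ) : ∃ y, av a (St a false) Z y := by
  obtain ⟨y, hy1, hy2⟩ := (Set.Ici_infinite a).exists_notMem_finset Z.toFinset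
  exact ⟨y, hy1, fun _ h => hy2 (List.mem_toFinset.2 h)⟩

lemma exists_node {a : ℕ} (ha : 1 ≤ a) (Z : List ℕ) : ∃ y, av a (St a true) Z y :=
  ⟨0, (show (0 : ℕ) < a by omega), fun h => by omega⟩

lemma exists_row {a : ℕ} (ha : 1 ≤ a) (Z : List ℕ) : ∃ y, av a Set.univ Z y :=
  ⟨0, Set.mem_univ _, fun h => by omega⟩

/-- excess at the sites -/
noncomputable def psiA {A0 : ℝ} (c : BCert P A0) (k y : ℕ) : ℝ :=
  if P.al * k + P.a0 ≤ y ∧ y < c.Y0 * k then
    k * (c.sL (y / k) + (c.sR (y / k) - c.sL (y / k)) * (((y : ℝ) + 0) / k - ((y / k : ℕ) : ℝ)))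
  else 0

lemma cell_val_nonneg {A0 : ℝ} (c : BCert P A0) {k y : ℕ} (hk : 1 ≤ k) (hy : y < c.Y0 * k) :
    0 ≤ k * (c.sL (y / k) + (c.sR (y / k) - c.sL (y / k)) *
      (((y : ℝ) + 0) / k - ((y / k : ℕ) : ℝ))) := by
  have hkp : (0 : ℝ) < k := by exact_mod_cast hk
  obtain ⟨d1, d2, d3⟩ := div_mem_cell hk hy (h := 0) le_rfl one_pos
  have s1 := c.sLn _ d1
  have s2 := c.sRn _ d1
  refine mul_nonneg hkp.le ?_
  set x : ℝ := ((y : ℝ) + 0) / k - ((y / k : ℕ) : ℝ) with hx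
  have hx0 : 0 ≤ x := by linarith
  have hx1 : x ≤ 1 := by linarith
  nlinarith [mul_nonneg s1 (sub_nonneg.2 hx1), mul_nonneg s2 hx0]

lemma psiA_nonneg {A0 : ℝ} (c : BCert P A0) {k : ℕ} (hk : 1 ≤ k) (y : ℕ) : 0 ≤ psiA c k y := by
  unfold psiA
  split_ifs with h
  · exact cell_val_nonneg c hk h.2
  · exact le_rfl

lemma sum_psiA_le {A0 : ℝ} (c : BCert P A0) {k : ℕ} (hk : 1 ≤ k) :
    ∑ y ∈ range (c.Y0 * k), psiA c k y ≤ (k : ℝ) ^ 2 * ∑ i ∈ range c.Y0, (c.sL i + c.sR i) / 2 +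
      |∑ i ∈ range c.Y0, (c.sR i - c.sL i)| * k := by
  have h1 : ∑ y ∈ range (c.Y0 * k), psiA c k y ≤ ∑ y ∈ range (c.Y0 * k),
      k * (c.sL (y / k) + (c.sR (y / k) - c.sL (y / k)) *
        (((y : ℝ) + 0) / k - ((y / k : ℕ) : ℝ))) := by
    refine Finset.sum_le_sum fun y hy => ?_
    have := cell_val_nonneg c hk (mem_range.1 hy)
    unfold psiA
    split_ifs with h
    · exact le_rfl
    · exact this
  refine h1.trans ?_
  rw [← Finset.mul_sum, sum_aff_cells hk, Finset.sum_add_distrib, ← Finset.mul_sum,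
    ← Finset.sum_mul]
  have q0 := (abs_le.1 (le_refl |∑ i ∈ range c.Y0, (c.sR i - c.sL i)|)).1
  have q1 : 0 ≤ |∑ i ∈ range c.Y0, (c.sR i - c.sL i)| := abs_nonneg _
  have hk0 : (0 : ℝ) ≤ k := Nat.cast_nonneg k
  have q2 : (∑ i ∈ range c.Y0, (c.sR i - c.sL i)) * (0 - 1 / 2) ≤
      |∑ i ∈ range c.Y0, (c.sR i - c.sL i)| := by linarith
  have q3 := mul_le_mul_of_nonneg_left q2 hk0
  calc (k : ℝ) * (k * ∑ i ∈ range c.Y0, (c.sL i + c.sR i) / 2 +
        (∑ i ∈ range c.Y0, (c.sR i - c.sL i)) * (0 - 1 / 2))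
      = (k : ℝ) ^ 2 * ∑ i ∈ range c.Y0, (c.sL i + c.sR i) / 2 +
        k * ((∑ i ∈ range c.Y0, (c.sR i - c.sL i)) * (0 - 1 / 2)) := by ring
    _ ≤ _ := by linarith

/-- the pointwise conditions -/
theorem pointwise (hP : P.Ok) {A0 : ℝ} (c : BCert P A0) : ∃ (C : ℝ) (k0 : ℕ), 0 ≤ C ∧
    ∀ k : ℕ, k0 ≤ k → 1 ≤ k → ∀ (b : Bool) (y : ℕ), y ∈ St (P.al * k + P.a0) b →
    wt2 P.q (P.al * k + P.a0) b y * Real.exp (PP P k false y + PP P k true y + PP P k b y) ≤
      Real.exp (k * cond b c.lB c.lA + (6 * P.mu - 2 * P.q * P.al) * (k * Real.log k) +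
        C * Real.log (k + 1) + cond b 0 (psiA c k y)) := by
  obtain ⟨C, hC, h⟩ := cond_bound hP
  have hY0 : (0 : ℝ) ≤ c.Y0 := Nat.cast_nonneg _
  have hal0 : (0 : ℝ) ≤ P.al := Nat.cast_nonneg _
  have hlY : 0 ≤ Real.log ((c.Y0 : ℝ) + 2) := Real.log_nonneg (by linarith)
  have hlA : 0 ≤ Real.log ((P.al : ℝ) + 3) := Real.log_nonneg (by linarith)
  set D : ℝ := 2 * Real.log ((c.Y0 : ℝ) + 2) + 2 * Real.log ((P.al : ℝ) + 3) + 3 with hD
  have hD0 : 0 ≤ D := by positivity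
  obtain ⟨n, hn⟩ := exists_nat_ge C
  refine ⟨C * D, n + P.a0, by positivity, ?_⟩
  intro k hk hk1 b y hy
  have hkp : (0 : ℝ) < k := by exact_mod_cast hk1
  have hk1' : (1 : ℝ) ≤ k := by exact_mod_cast hk1
  have hkC : C ≤ k := by
    have : (n : ℝ) ≤ k := by
      have : n ≤ k := by omega
      exact_mod_cast this
    linarith
  have hka0 : P.a0 ≤ k := by omega
  set Lg := Real.log ((k : ℝ) + 1) with hLg
  have hLg2 : 1 / 2 ≤ Lg := half_le_log hk1
  have hy0 : (0 : ℝ) ≤ y := Nat.cast_nonneg y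
  refine (h b k y hk1 hy).trans ?_
  rw [Real.exp_le_exp]
  cases b
  · have hya : P.al * k + P.a0 ≤ y := hy
    rcases lt_or_ge y (c.Y0 * k) with hc | hc
    · obtain ⟨d1, d2, d3⟩ := div_mem_cell hk1 hc (h := 0) le_rfl one_pos
      have hal : P.al ≤ y / k := (Nat.le_div_iff_mul_le (by omega)).2 (by omega)
      have i2 := c.site _ hal d1 _ d2 d3
      have e : psiA c k y = k * (c.sL (y / k) + (c.sR (y / k) - c.sL (y / k)) *
          (((y : ℝ) + 0) / k - ((y / k : ℕ) : ℝ))) := if_pos ⟨hya, hc⟩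
      simp only [cond_false]
      rw [e]
      rw [add_zero] at i2 ⊢
      have i3 := mul_le_mul_of_nonneg_left i2 hkp.le
      have hyc : (y : ℝ) ≤ c.Y0 * k := by exact_mod_cast hc.le
      have i4 : Real.log ((k : ℝ) + 1 + y) ≤ D * Lg := by
        have h3 : (k : ℝ) + 1 + y ≤ ((c.Y0 : ℝ) + 2) * (k + 1) := by nlinarith
        refine (Real.log_le_log (by positivity) h3).trans ?_
        rw [Real.log_mul (by positivity) (by positivity), hD]
        nlinarith
      have i5 := mul_le_mul_of_nonneg_left i4 hC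
      linarith
    · have e : psiA c k y = 0 := if_neg (fun h' => absurd h'.2 (by omega))
      simp only [cond_false]
      rw [e, add_zero]
      have hY1 : (1 : ℝ) ≤ c.Y0 := by exact_mod_cast c.hY
      have hyc : (c.Y0 : ℝ) * k ≤ y := by exact_mod_cast hc
      set s : ℝ := (y : ℝ) / k with hs
      have hsY : (c.Y0 : ℝ) ≤ s := by rw [hs, le_div_iff₀ hkp]; exact hyc
      have hs0 : 0 < s := by linarith
      have hyk : (y : ℝ) = k * s := by rw [hs]; field_simp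
      have i2 := c.tail s hsY
      have i3 := mul_le_mul_of_nonneg_left i2 hkp.le
      have hls : 0 ≤ Real.log s - Real.log c.Y0 := by
        have := Real.log_le_log (by linarith) hsY
        linarith
      have i4 : Real.log ((k : ℝ) + 1 + y) ≤ Lg + (Real.log 2 + Real.log s) := by
        have h3 : (k : ℝ) + 1 + y ≤ (k + 1) * (2 * s) := by rw [hyk]; nlinarith
        refine (Real.log_le_log (by positivity) h3).trans (le_of_eq ?_)
        rw [Real.log_mul (by positivity) (by positivity), Real.log_mul (by norm_num) (by linarith)]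
      have i5 := mul_le_mul_of_nonneg_left i4 hC
      have i6 := mul_le_mul_of_nonneg_right hkC hls
      have i7 : Real.log c.Y0 ≤ Real.log ((c.Y0 : ℝ) + 2) :=
        Real.log_le_log (by linarith) (by linarith)
      have i8 : Lg + (Real.log 2 + Real.log c.Y0) ≤ D * Lg := by
        have := Real.log_two_lt_d9
        rw [hD]
        nlinarith
      have i9 := mul_le_mul_of_nonneg_left i8 hC
      nlinarith
  · have hya : y < P.al * k + P.a0 := hy
    have hy2 : y < (P.al + 1) * k := by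
      have : (P.al + 1) * k = P.al * k + k := by ring
      omega
    obtain ⟨d1, d2, d3⟩ := div_mem_cell hk1 hy2 (h := 0) le_rfl one_pos
    have i2 := c.node _ (by omega) _ d2 d3
    simp only [cond_true]
    rw [add_zero] at i2 ⊢
    rw [sub_self, zero_mul, add_zero] at i2
    have i3 := mul_le_mul_of_nonneg_left i2 hkp.le
    have hyc : (y : ℝ) ≤ (P.al + 1) * k := by exact_mod_cast hy2.le
    have i4 : Real.log ((k : ℝ) + 1 + y) ≤ D * Lg := by
      have h3 : (k : ℝ) + 1 + y ≤ ((P.al : ℝ) + 3) * (k + 1) := by nlinarith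
      refine (Real.log_le_log (by positivity) h3).trans ?_
      rw [Real.log_mul (by positivity) (by positivity), hD]
      nlinarith
    have i5 := mul_le_mul_of_nonneg_left i4 hC
    linarith

/-- size of the constants -/
theorem const_bound (P : BPar) (β : ℕ → ℚ) : ∃ C : ℝ, 0 ≤ C ∧ ∀ k : ℕ, 1 ≤ k →
    (((2 * (P.mu * k + P.m0)).factorial : ℕ) : ℝ) *
      (4 * (CS + CB P.q (P.al * k + P.a0) (2 * (P.mu * k + P.m0)) (P.mu * k + P.m0) β)) ^
        (2 * (P.mu * k + P.m0)) ≤ Real.exp (C * (k * Real.log (k + 1))) := by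
  set B : ℝ := ∑ s ∈ Finset.Icc 1 P.q, |(β s : ℝ)| with hB
  have hB0 : 0 ≤ B := Finset.sum_nonneg fun _ _ => abs_nonneg _
  set c : ℝ := (P.al : ℝ) + P.a0 + 1 with hc
  have hc1 : 1 ≤ c := by rw [hc]; have : (0 : ℝ) ≤ (P.al : ℝ) + P.a0 := by positivity
                         linarith
  set m : ℝ := (P.mu : ℝ) + P.m0 with hm
  have hm0 : 0 ≤ m := by rw [hm]; positivity
  set c3 : ℝ := 1 + P.q * (2 * c) + 6 * m with hc3
  have hc30 : 1 ≤ c3 := by
    have : (0 : ℝ) ≤ P.q * (2 * c) := by positivity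
    rw [hc3]; linarith
  set c4 : ℝ := 1 + 4 * (CS + 2 * c * (B * (2 * c * c3 ^ P.q))) with hc4
  have hCS := CS_nonneg
  have hc40 : 1 ≤ c4 := by
    have : 0 ≤ 4 * (CS + 2 * c * (B * (2 * c * c3 ^ P.q))) := by positivity
    rw [hc4]; linarith
  have hl4 : 0 ≤ Real.log c4 := Real.log_nonneg hc40
  have hlm : 0 ≤ Real.log (2 * m + 1) := Real.log_nonneg (by linarith)
  refine ⟨2 * m * (2 * Real.log (2 * m + 1) + 1) + 2 * m * (2 * Real.log c4 + (P.q + 2)),
    by positivity, ?_⟩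
  intro k hk
  have hk0 : (0 : ℝ) < k := by exact_mod_cast hk
  have hk1 : (1 : ℝ) ≤ k := by exact_mod_cast hk
  set Lg := Real.log ((k : ℝ) + 1) with hLg
  have hLg2 : 1 / 2 ≤ Lg := half_le_log hk
  set M : ℕ := 2 * (P.mu * k + P.m0) with hM
  have hMr : (M : ℝ) ≤ 2 * m * k := by
    rw [hM, hm]
    push_cast
    have : (0 : ℝ) ≤ P.m0 := Nat.cast_nonneg _
    nlinarith
  have hM0 : (0 : ℝ) ≤ M := Nat.cast_nonneg _
  have f1 : ((M.factorial : ℕ) : ℝ) ≤ Real.exp (2 * m * (2 * Real.log (2 * m + 1) + 1) * (k * Lg)) := by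
    have g1 : ((M.factorial : ℕ) : ℝ) ≤ (M : ℝ) ^ M := by exact_mod_cast Nat.factorial_le_pow M
    have g2 : (M : ℝ) ≤ (2 * m + 1) * (k + 1) := by nlinarith
    have g3 : (M : ℝ) ^ M ≤ Real.exp (M * (Real.log (2 * m + 1) + Lg)) := by
      rw [← Real.log_mul (by positivity) (by positivity), Real.exp_nat_mul,
        Real.exp_log (by positivity)]
      exact pow_le_pow_left₀ hM0 g2 M
    refine g1.trans (g3.trans ?_)
    rw [Real.exp_le_exp]
    have g4 : Real.log (2 * m + 1) + Lg ≤ (2 * Real.log (2 * m + 1) + 1) * Lg := by nlinarith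
    calc (M : ℝ) * (Real.log (2 * m + 1) + Lg) ≤ M * ((2 * Real.log (2 * m + 1) + 1) * Lg) :=
          mul_le_mul_of_nonneg_left g4 hM0
      _ ≤ 2 * m * k * ((2 * Real.log (2 * m + 1) + 1) * Lg) :=
          mul_le_mul_of_nonneg_right hMr (by positivity)
      _ = _ := by ring
  have f2 : 4 * (CS + CB P.q (P.al * k + P.a0) M (P.mu * k + P.m0) β) ≤
      c4 * ((k : ℝ) + 1) ^ (P.q + 2) := by
    have ha : (((P.al * k + P.a0 : ℕ) : ℝ)) + 1 ≤ c * (k + 1) := by
      rw [hc]; push_cast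
      have : (0 : ℝ) ≤ P.al := Nat.cast_nonneg _
      have : (0 : ℝ) ≤ P.a0 := Nat.cast_nonneg _
      nlinarith
    have ha' : (((P.al * k + P.a0 : ℕ) : ℝ)) ≤ c * (k + 1) := by linarith
    have hKr : (((P.mu * k + P.m0 : ℕ) : ℝ)) ≤ m * (k + 1) := by
      rw [hm]; push_cast
      have : (0 : ℝ) ≤ P.mu := Nat.cast_nonneg _
      have : (0 : ℝ) ≤ P.m0 := Nat.cast_nonneg _
      nlinarith
    have hq0 : (0 : ℝ) ≤ P.q := Nat.cast_nonneg _
    have hin : 1 + P.q * (2 * ((P.al * k + P.a0 : ℕ) : ℝ)) + 2 * ((M : ℝ) +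
        ((P.mu * k + P.m0 : ℕ) : ℝ)) ≤ c3 * (k + 1) := by
      have h1 := mul_le_mul_of_nonneg_left ha' hq0
      have h2 : (M : ℝ) = 2 * ((P.mu * k + P.m0 : ℕ) : ℝ) := by rw [hM]; push_cast; ring
      rw [h2, hc3]
      nlinarith
    have hin0 : 0 ≤ 1 + P.q * (2 * ((P.al * k + P.a0 : ℕ) : ℝ)) + 2 * ((M : ℝ) +
        ((P.mu * k + P.m0 : ℕ) : ℝ)) := by positivity
    have hpow := pow_le_pow_left₀ hin0 hin P.q
    have hCB : CB P.q (P.al * k + P.a0) M (P.mu * k + P.m0) β ≤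
        (2 * (c * (k + 1))) * (B * (2 * (c * (k + 1)) * (c3 * (k + 1)) ^ P.q)) := by
      unfold CB
      rw [← hB]
      apply mul_le_mul _ _ (by positivity) (by positivity)
      · exact mul_le_mul_of_nonneg_left ha' (by norm_num)
      · apply mul_le_mul_of_nonneg_left _ hB0
        apply mul_le_mul _ hpow (by positivity) (by positivity)
        exact mul_le_mul_of_nonneg_left ha (by norm_num)
    have hone : (1 : ℝ) ≤ ((k : ℝ) + 1) ^ (P.q + 2) := one_le_pow₀ (by linarith)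
    have e1 : (2 * (c * ((k : ℝ) + 1))) * (B * (2 * (c * (k + 1)) * (c3 * (k + 1)) ^ P.q)) =
        (2 * c * (B * (2 * c * c3 ^ P.q))) * ((k : ℝ) + 1) ^ (P.q + 2) := by
      rw [mul_pow, pow_add]; ring
    rw [e1] at hCB
    rw [hc4]
    have h5 : CS ≤ CS * ((k : ℝ) + 1) ^ (P.q + 2) := le_mul_of_one_le_right hCS hone
    nlinarith
  have f3 : (4 * (CS + CB P.q (P.al * k + P.a0) M (P.mu * k + P.m0) β)) ^ M ≤
      Real.exp (2 * m * (2 * Real.log c4 + (P.q + 2)) * (k * Lg)) := by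
    have hCB0 := CB_nonneg P.q (P.al * k + P.a0) M (P.mu * k + P.m0) β
    have g3 : (c4 * ((k : ℝ) + 1) ^ (P.q + 2)) ^ M ≤
        Real.exp (M * (Real.log c4 + (P.q + 2) * Lg)) := by
      have e2 : Real.log c4 + (P.q + 2) * Lg = Real.log (c4 * ((k : ℝ) + 1) ^ (P.q + 2)) := by
        rw [Real.log_mul (by positivity) (by positivity), Real.log_pow]
        push_cast
        ring
      rw [e2, Real.exp_nat_mul, Real.exp_log (by positivity)]
    refine (pow_le_pow_left₀ (by positivity) f2 M).trans (g3.trans ?_)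
    rw [Real.exp_le_exp]
    have hq0 : (0 : ℝ) ≤ P.q := Nat.cast_nonneg _
    have g4 : Real.log c4 + (P.q + 2) * Lg ≤ (2 * Real.log c4 + (P.q + 2)) * Lg := by nlinarith
    calc (M : ℝ) * (Real.log c4 + (P.q + 2) * Lg) ≤ M * ((2 * Real.log c4 + (P.q + 2)) * Lg) :=
          mul_le_mul_of_nonneg_left g4 hM0
      _ ≤ 2 * m * k * ((2 * Real.log c4 + (P.q + 2)) * Lg) :=
          mul_le_mul_of_nonneg_right hMr (by positivity)
      _ = _ := by ring
  refine (mul_le_mul f1 f3 (pow_nonneg (by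
    have := CB_nonneg P.q (P.al * k + P.a0) M (P.mu * k + P.m0) β
    positivity) _) (Real.exp_nonneg _)).trans (le_of_eq ?_)
  rw [← Real.exp_add]
  congr 1
  ring

end BE

end Z579
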