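import Pool.Agent.Lib.Z579.Num4

/-!
# Assembly of `EM.Cert` from integer data
-/

open Real Finset Set

namespace Z579

namespace Num

open Arch EM

def allB : ℕ → (ℕ → Bool) → Bool
  | 0, _ => true
  | n + 1, f => f n && allB n f

lemma allB_spec {n : ℕ} {f : ℕ → Bool} (h : allB n f = true) : ∀ i < n, f i = true := by
  induction n with
  | zero => intro i hi; omega
  | succ n ih =>
    simp only [allB, Bool.and_eq_true] at h
    intro i hi
    rcases Nat.lt_succ_iff_lt_or_eq.mp hi with h1 | h1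
    · exact ih h.2 i h1
    · subst h1; exact h.1

def sumZ : ℕ → (ℕ → ℤ) → ℤ
  | 0, _ => 0
  | n + 1, f => sumZ n f + f n

lemma sumZ_eq (n : ℕ) (f : ℕ → ℤ) : ((sumZ n f : ℤ) : ℝ) = ∑ i ∈ range n, (f i : ℝ) := by
  induction n with
  | zero => simp [sumZ]
  | succ n ih => rw [sumZ, Finset.sum_range_succ, ← ih]; push_cast; ring

/-- integer data, in units of `1 / 1000` -/
structure Dat where
  l : ℤ
  sL : List ℤ
  sR : List ℤ
  eL : List ℤ
  eR : List ℤ
  fL : List ℤ
  fR : List ℤ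

def chkLine (q al t1 tau eps C1 C2 Dd den l : ℤ) (j : ℕ) : Bool :=
  cellOK (TL q al t1 tau eps C1 C2 Dd den) (8 * den) den j l l

def chkSite (q al t1 tau eps C1 C2 Dd den : ℤ) (D : Dat) (i : ℕ) : Bool :=
  cellOK (TS q al t1 tau eps C1 C2 Dd den) 0 den i (D.l + D.sL.getD i 0) (D.l + D.sR.getD i 0) &&
    decide (0 ≤ D.sL.getD i 0) && decide (0 ≤ D.sR.getD i 0)

def chkS (al t1 tau eps C1 C2 Dd den : ℤ) (D : Dat) (i : ℕ) : Bool :=
  cellOK (TUS al t1 tau eps C1 C2 Dd) 0 den i (-D.eL.getD i 0) (-D.eR.getD i 0)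

def chkL (al t1 tau eps C1 C2 Dd den : ℤ) (D : Dat) (j : ℕ) : Bool :=
  cellOK (TUL al t1 tau eps C1 C2 Dd) 0 den j (-D.fL.getD j 0) (-D.fR.getD j 0)

/-- integer form of the total, in units `1 / (2000 den)` -/
def totZ (r mu t1 tau eps : ℕ) (C1 C2 Dd den : ℤ) (D : Dat) : ℤ :=
  2 * den * mu * D.l + (r + 1) * den * sumZ tau (fun i => D.sL.getD i 0 + D.sR.getD i 0) -
    (C1 * sumZ t1 (fun i => D.eL.getD i 0 + D.eR.getD i 0) +
      C2 * sumZ tau (fun i => D.eL.getD i 0 + D.eR.getD i 0) +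
      2 * Dd * sumZ eps (fun j => D.fL.getD j 0 + D.fR.getD j 0))

theorem mk_cert (P : Par) (hP : P.Ok) {C1 C2 Dd den : ℤ} (hden : 0 < den) (h1 : P.c1 = C1 / den)
    (h2 : P.c2 = C2 / den) (h3 : P.d = Dd / den) (D : Dat) (Y0 : ℕ) (A0 : ℤ)
    (hY : P.eps < Y0)
    (hd : 4 * (P.c1 * P.t1 + P.c2 * P.tau) / Y0 + 8 * P.d * (Y0 * P.eps / ((Y0 : ℝ) - P.eps) ^ 2)
      ≤ 528 / 100)
    (kL : ∀ j < Y0, chkLine P.q P.al P.t1 P.tau P.eps C1 C2 Dd den D.l j = true)
    (kS : ∀ i < P.tau, chkSite P.q P.al P.t1 P.tau P.eps C1 C2 Dd den D i = true)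
    (kES : ∀ i < P.tau, chkS P.al P.t1 P.tau P.eps C1 C2 Dd den D i = true)
    (kEL : ∀ j < P.eps, chkL P.al P.t1 P.tau P.eps C1 C2 Dd den D j = true)
    (kT : totZ P.r P.mu P.t1 P.tau P.eps C1 C2 Dd den D ≤ 2000 * den * A0) :
    Nonempty (Cert P (A0 : ℝ)) := by
  have hdr : (den : ℝ) ≠ 0 := by exact_mod_cast hden.ne'
  have hline : ∀ j < Y0, CellLe (PhiL P) j ((D.l : ℝ) / 1000) ((D.l : ℝ) / 1000) := by
    intro j hj s hs hs'
    have h := cellOK_spec (by omega) hden (kL j hj) hs hs'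
    rw [PhiL_eq P hden h1 h2 h3]
    have e : ((8 * den : ℤ) : ℝ) * π * s / (4 * den) = 2 * π * s := by
      push_cast; field_simp; ring
    rw [e] at h
    exact h
  refine ⟨{ l := (D.l : ℝ) / 1000, Y0 := Y0,
            sL := fun i => ((D.sL.getD i 0 : ℤ) : ℝ) / 1000,
            sR := fun i => ((D.sR.getD i 0 : ℤ) : ℝ) / 1000,
            eL := fun i => ((D.eL.getD i 0 : ℤ) : ℝ) / 1000,
            eR := fun i => ((D.eR.getD i 0 : ℤ) : ℝ) / 1000,
            fL := fun i => ((D.fL.getD i 0 : ℤ) : ℝ) / 1000,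
            fR := fun i => ((D.fR.getD i 0 : ℤ) : ℝ) / 1000,
            sLn := ?_, sRn := ?_, line := hline, tail := ?_, site := ?_, enS := ?_, enL := ?_,
            tot := ?_ }⟩
  · intro i hi
    have h := kS i hi
    simp only [chkSite, Bool.and_eq_true, decide_eq_true_eq] at h
    have : (0 : ℝ) ≤ ((D.sL.getD i 0 : ℤ) : ℝ) := by exact_mod_cast h.1.2
    positivity
  · intro i hi
    have h := kS i hi
    simp only [chkSite, Bool.and_eq_true, decide_eq_true_eq] at h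
    have : (0 : ℝ) ≤ ((D.sR.getD i 0 : ℤ) : ℝ) := by exact_mod_cast h.2
    positivity
  · apply tail_bd P hP _ Y0 (by exact_mod_cast hY) hd
    obtain ⟨Y, rfl⟩ : ∃ Y, Y0 = Y + 1 := ⟨Y0 - 1, by omega⟩
    have h := hline Y (by omega) ((Y : ℝ) + 1) (by linarith) (le_refl _)
    push_cast
    linarith
  · intro i hi s hs hs'
    have h := kS i hi
    simp only [chkSite, Bool.and_eq_true] at h
    have h' := cellOK_spec (le_refl 0) hden h.1.1 hs hs'
    rw [PhiS_eq P hden h1 h2 h3]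
    push_cast at h'
    simp only [zero_mul, zero_div, sub_zero] at h'
    calc _ ≤ _ := h'
      _ = _ := by ring
  · intro i hi s hs hs'
    have h' := cellOK_spec (le_refl 0) hden (kES i hi) hs hs'
    show -US P s ≤ _
    rw [US_eq P hden h1 h2 h3]
    push_cast at h'
    simp only [zero_mul, zero_div, sub_zero] at h'
    calc _ ≤ _ := h'
      _ = _ := by ring
  · intro i hi s hs hs'
    have h' := cellOK_spec (le_refl 0) hden (kEL i hi) hs hs'
    show -UL P s ≤ _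
    rw [UL_eq P hden h1 h2 h3]
    push_cast at h'
    simp only [zero_mul, zero_div, sub_zero] at h'
    calc _ ≤ _ := h'
      _ = _ := by ring
  · have h := kT
    have h' : ((totZ P.r P.mu P.t1 P.tau P.eps C1 C2 Dd den D : ℤ) : ℝ) ≤ 2000 * den * A0 := by
      exact_mod_cast h
    rw [totZ] at h'
    push_cast [sumZ_eq] at h'
    have hdp : (0 : ℝ) < den := by exact_mod_cast hden
    rw [h1, h2, h3]
    have e : ∀ (n : ℕ) (f g : ℕ → ℤ), ∑ i ∈ range n, ((f i : ℝ) / 1000 + (g i : ℝ) / 1000) / 2 =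
        (∑ i ∈ range n, ((f i : ℝ) + (g i : ℝ))) / 2000 := by
      intro n f g
      rw [Finset.sum_div]
      refine Finset.sum_congr rfl fun i _ => by ring
    rw [e P.tau (fun i => D.sL.getD i 0) (fun i => D.sR.getD i 0),
      e P.t1 (fun i => D.eL.getD i 0) (fun i => D.eR.getD i 0),
      e P.tau (fun i => D.eL.getD i 0) (fun i => D.eR.getD i 0),
      e P.eps (fun i => D.fL.getD i 0) (fun i => D.fR.getD i 0)]
    rw [← mul_le_mul_iff_right₀ (show (0 : ℝ) < 2000 * den by positivity)]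
    refine le_trans (le_of_eq ?_) h'
    field_simp
    ring

end Num

end Z579
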