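import Pool.Agent.Lib.Z579.BE6
import Pool.Agent.Lib.Z579.Num5

/-!
# BE9: cell bounds for sums of `w (GG (j - s) + GG (j + s))`
-/

open Finset Set

namespace Z579

namespace BE

open EM Arch Z579.Num

/-! ## tables -/

def tabOK (g : ℕ → ℤ × ℤ) (n : ℕ) : Bool :=
  if n = 0 then decide ((g 0).1 ≤ 0) && decide (0 ≤ (g 0).2)
  else decide ((g n).1 ≤ n * (lgI n).1 - 4294967296 * n) &&
    decide (n * (lgI n).2 - 4294967296 * n ≤ (g n).2)

/-- the table contains bounds for `2^32 GG n` -/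
def TabOK (g : ℕ → ℤ × ℤ) (NT : ℕ) : Prop := ∀ n < NT,
  (((g n).1 : ℤ) : ℝ) ≤ 2 ^ 32 * GG n 0 ∧ 2 ^ 32 * GG n 0 ≤ (((g n).2 : ℤ) : ℝ)

theorem tab_spec {g : ℕ → ℤ × ℤ} {NT : ℕ} (h : ∀ n < NT, tabOK g n = true) : TabOK g NT := by
  intro n hn
  have h1 := h n hn
  unfold tabOK at h1
  split_ifs at h1 with h0
  · subst h0
    simp only [Bool.and_eq_true, decide_eq_true_eq] at h1
    rw [Nat.cast_zero, GG_zero_left, mul_zero]
    exact ⟨by exact_mod_cast h1.1, by exact_mod_cast h1.2⟩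
  · simp only [Bool.and_eq_true, decide_eq_true_eq] at h1
    have hb := lgI_bounds n (by omega)
    have hn0 : (0 : ℝ) ≤ n := Nat.cast_nonneg n
    have h2 : (((g n).1 : ℤ) : ℝ) ≤ n * (((lgI n).1 : ℤ) : ℝ) - 4294967296 * n := by
      exact_mod_cast h1.1
    have h3 : n * (((lgI n).2 : ℤ) : ℝ) - 4294967296 * n ≤ (((g n).2 : ℤ) : ℝ) := by
      exact_mod_cast h1.2
    have m1 := mul_le_mul_of_nonneg_left hb.1 hn0
    have m2 := mul_le_mul_of_nonneg_left hb.2 hn0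
    rw [GG_zero_right]
    constructor <;> nlinarith

/-- signed table -/
def gs (g : ℕ → ℤ × ℤ) (z : ℤ) : ℤ × ℤ :=
  if 0 ≤ z then g z.toNat else let t := g (-z).toNat; (-t.2, -t.1)

theorem gs_spec {g : ℕ → ℤ × ℤ} {NT : ℕ} (hT : TabOK g NT) {z : ℤ} (hz : z.natAbs < NT) :
    (((gs g z).1 : ℤ) : ℝ) ≤ 2 ^ 32 * GG z 0 ∧ 2 ^ 32 * GG z 0 ≤ (((gs g z).2 : ℤ) : ℝ) := by
  unfold gs
  split_ifs with h
  · have h1 := hT z.toNat (by omega)
    have e : ((z.toNat : ℕ) : ℝ) = z := by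
      have : ((z.toNat : ℕ) : ℤ) = z := Int.toNat_of_nonneg h
      exact_mod_cast this
    rwa [e] at h1
  · have h1 := hT (-z).toNat (by omega)
    have e : (((-z).toNat : ℕ) : ℝ) = -z := by
      have : (((-z).toNat : ℕ) : ℤ) = -z := Int.toNat_of_nonneg (by omega)
      exact_mod_cast this
    rw [e, GG_neg] at h1
    push_cast
    constructor <;> linarith [h1.1, h1.2]

/-! ## sums -/

/-- one term -/
noncomputable def T1 (t : ℕ × ℤ) (s : ℝ) : ℝ := (t.2 : ℝ) * (GG (t.1 - s) 0 + GG (t.1 + s) 0)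

noncomputable def FJ : List (ℕ × ℤ) → ℝ → ℝ
  | [], _ => 0
  | t :: L, s => T1 t s + FJ L s

def node1 (g : ℕ → ℤ × ℤ) (t : ℕ × ℤ) (i : ℕ) : ℤ :=
  ub t.2 (gs g ((t.1 : ℤ) - i)) + ub t.2 (g (t.1 + i))

def nodeV (g : ℕ → ℤ × ℤ) : List (ℕ × ℤ) → ℕ → ℤ
  | [], _ => 0
  | t :: L, i => node1 g t i + nodeV g L i

lemma node1_spec {g : ℕ → ℤ × ℤ} {NT : ℕ} (hT : TabOK g NT) (t : ℕ × ℤ) (i : ℕ)
    (h : t.1 + i < NT) : 2 ^ 32 * T1 t i ≤ ((node1 g t i : ℤ) : ℝ) := by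
  have h1 := gs_spec hT (z := (t.1 : ℤ) - i) (by omega)
  have h2 := hT (t.1 + i) h
  have u1 := ub_spec t.2 _ h1.1 h1.2
  have u2 := ub_spec t.2 _ h2.1 h2.2
  unfold node1 T1
  push_cast at u1 u2 ⊢
  linarith

/-- ceiling division -/
def cdiv (a b : ℤ) : ℤ := -((-a) / b)

lemma cdiv_spec (a b : ℤ) (hb : 0 < b) : (a : ℝ) / b ≤ ((cdiv a b : ℤ) : ℝ) := by
  have h := (floor_div_bounds (-a) b hb).1
  unfold cdiv
  push_cast at h ⊢
  rw [neg_div] at h
  linarith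

/-- (adjacent weight, curvature) of a term on the cell `[i, i+1]` -/
def cur1 (t : ℕ × ℤ) (i : ℕ) : ℤ × ℤ :=
  if t.1 = 0 then (0, 0)
  else if t.1 = i then
    (max t.2 0, if 0 ≤ t.2 then cdiv (-(t.2 * 4294967296)) (2 * i + 1)
      else cdiv (-(t.2 * 4294967296)) (2 * i))
  else if t.1 = i + 1 then
    (max (-t.2) 0, if 0 ≤ t.2 then cdiv (-(t.2 * 4294967296)) (2 * i + 2)
      else cdiv (-(t.2 * 4294967296)) (2 * i + 1))
  else if i < t.1 then
    (0, if 0 ≤ t.2 then cdiv (-(2 * t.1 * t.2 * 4294967296)) ((t.1 : ℤ) ^ 2 - (i : ℤ) ^ 2)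
      else cdiv (-(2 * t.1 * t.2 * 4294967296)) ((t.1 : ℤ) ^ 2 - ((i : ℤ) + 1) ^ 2))
  else
    (0, if 0 ≤ t.2 then cdiv (2 * t.1 * t.2 * 4294967296) ((i : ℤ) ^ 2 - (t.1 : ℤ) ^ 2)
      else cdiv (2 * t.1 * t.2 * 4294967296) (((i : ℤ) + 1) ^ 2 - (t.1 : ℤ) ^ 2))

def curV : List (ℕ × ℤ) → ℕ → ℤ × ℤ
  | [], _ => (0, 0)
  | t :: L, i => let x := cur1 t i; let y := curV L i; (x.1 + y.1, x.2 + y.2)

/-! ## analysis -/

lemma hasDerivAt_L {x : ℝ} (hx : x ≠ 0) : HasDerivAt (fun x => GG x 0) (Real.log x) x := by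
  have h := hasDerivAt_GG_x (D := 0) (x := x) le_rfl (fun _ => hx)
  refine h.congr_deriv ?_
  unfold gg
  rw [zero_pow two_ne_zero, add_zero, Real.log_pow]
  norm_num

lemma continuous_L : Continuous (fun x => GG x 0) := by
  have : (fun x => GG x 0) = fun x => x * Real.log x - x := by
    funext x; exact GG_zero_right x
  rw [this]
  exact Real.continuous_mul_log.sub continuous_id

/-- chord bound with curvature -/
lemma chord_curv {f f' f'' : ℝ → ℝ} {i κ : ℝ} (hc : Continuous f)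
    (h1 : ∀ s ∈ Ioo i (i + 1), HasDerivAt f (f' s) s)
    (h2 : ∀ s ∈ Ioo i (i + 1), HasDerivAt f' (f'' s) s)
    (h3 : ∀ s ∈ Ioo i (i + 1), -f'' s ≤ κ) {s : ℝ} (hs : i ≤ s) (hs' : s ≤ i + 1) :
    f s ≤ (1 - (s - i)) * f i + (s - i) * f (i + 1) + κ * ((s - i) * (1 - (s - i)) / 2) := by
  have hconv : ConvexOn ℝ (Icc i (i + 1)) (fun s => f s + κ / 2 * s ^ 2) := by
    refine convexOn_of_hasDerivWithinAt2_nonneg (f' := fun s => f' s + κ * s)
      (f'' := fun s => f'' s + κ) (convex_Icc _ _) ?_ ?_ ?_ ?_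
    · fun_prop
    · intro x hx
      rw [interior_Icc] at hx
      have h4 : HasDerivAt (fun s : ℝ => κ / 2 * s ^ 2) (κ * x) x := by
        have := (hasDerivAt_pow 2 x).const_mul (κ / 2)
        refine this.congr_deriv ?_
        push_cast
        ring
      exact ((h1 x hx).add h4).hasDerivWithinAt
    · intro x hx
      rw [interior_Icc] at hx
      have h4 : HasDerivAt (fun s : ℝ => κ * s) κ x := by
        simpa using (hasDerivAt_id x).const_mul κ
      exact ((h2 x hx).add h4).hasDerivWithinAt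
    · intro x hx
      rw [interior_Icc] at hx
      linarith [h3 x hx]
  have m0 : i ∈ Icc i (i + 1) := ⟨le_rfl, by linarith⟩
  have m1 : i + 1 ∈ Icc i (i + 1) := ⟨by linarith, le_rfl⟩
  have h := chord_convex hconv m0 m1 hs hs'
  nlinarith

/-- smooth term -/
lemma T1_smooth (w : ℝ) (j i : ℕ) {κ : ℝ}
    (h3 : ∀ s ∈ Ioo (i : ℝ) (i + 1), -(w * (1 / (j - s) + 1 / (j + s))) ≤ κ) {s : ℝ}
    (hs : (i : ℝ) ≤ s) (hs' : s ≤ i + 1) :
    w * (GG (j - s) 0 + GG (j + s) 0) ≤ (1 - (s - i)) * (w * (GG (j - i) 0 + GG (j + i) 0)) +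
      (s - i) * (w * (GG (j - (i + 1)) 0 + GG (j + (i + 1)) 0)) +
      κ * ((s - i) * (1 - (s - i)) / 2) := by
  have hne : ∀ s ∈ Ioo (i : ℝ) (i + 1), (j : ℝ) - s ≠ 0 := by
    intro s hs h
    have h1 : (j : ℝ) = s := by linarith
    rw [← h1] at hs
    have h2 : i < j := by exact_mod_cast hs.1
    have h3 : j < i + 1 := by exact_mod_cast hs.2
    omega
  have hne' : ∀ s ∈ Ioo (i : ℝ) (i + 1), (j : ℝ) + s ≠ 0 := by
    intro s hs h
    have h1 : (0 : ℝ) ≤ i := Nat.cast_nonneg i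
    have h2 : (0 : ℝ) ≤ j := Nat.cast_nonneg j
    linarith [hs.1]
  refine chord_curv (f := fun s => w * (GG (j - s) 0 + GG (j + s) 0))
    (f' := fun s => w * (-Real.log (j - s) + Real.log (j + s)))
    (f'' := fun s => w * (1 / (j - s) + 1 / (j + s))) ?_ ?_ ?_ h3 hs hs'
  · have c1 : Continuous fun s : ℝ => GG ((j : ℝ) - s) 0 :=
      continuous_L.comp (continuous_const.sub continuous_id)
    have c2 : Continuous fun s : ℝ => GG ((j : ℝ) + s) 0 :=
      continuous_L.comp (continuous_const.add continuous_id)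
    exact continuous_const.mul (c1.add c2)
  · intro s hs
    have d1 : HasDerivAt (fun s : ℝ => GG ((j : ℝ) - s) 0) (-Real.log (j - s)) s := by
      have := HasDerivAt.comp s (hasDerivAt_L (hne s hs)) ((hasDerivAt_id s).const_sub (j : ℝ))
      refine this.congr_deriv ?_
      ring
    have d2 : HasDerivAt (fun s : ℝ => GG ((j : ℝ) + s) 0) (Real.log (j + s)) s := by
      have := HasDerivAt.comp s (hasDerivAt_L (hne' s hs)) ((hasDerivAt_id s).const_add (j : ℝ))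
      refine this.congr_deriv ?_
      ring
    exact (d1.add d2).const_mul w
  · intro s hs
    have d1 : HasDerivAt (fun s : ℝ => -Real.log ((j : ℝ) - s)) (1 / (j - s)) s := by
      have := ((hasDerivAt_id s).const_sub (j : ℝ)).log (hne s hs)
      refine this.neg.congr_deriv ?_
      simp only [id]
      ring
    have d2 : HasDerivAt (fun s : ℝ => Real.log ((j : ℝ) + s)) (1 / (j + s)) s := by
      exact ((hasDerivAt_id s).const_add (j : ℝ)).log (hne' s hs)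
    exact (d1.add d2).const_mul w

/-- smooth half of a term -/
lemma half_smooth (w : ℝ) (j i : ℕ) {κ : ℝ}
    (h3 : ∀ s ∈ Ioo (i : ℝ) (i + 1), -(w * (1 / (j + s))) ≤ κ) {s : ℝ}
    (hs : (i : ℝ) ≤ s) (hs' : s ≤ i + 1) :
    w * GG (j + s) 0 ≤ (1 - (s - i)) * (w * GG (j + i) 0) +
      (s - i) * (w * GG (j + (i + 1)) 0) + κ * ((s - i) * (1 - (s - i)) / 2) := by
  have hne' : ∀ s ∈ Ioo (i : ℝ) (i + 1), (j : ℝ) + s ≠ 0 := by
    intro s hs h
    have h1 : (0 : ℝ) ≤ i := Nat.cast_nonneg i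
    have h2 : (0 : ℝ) ≤ j := Nat.cast_nonneg j
    linarith [hs.1]
  refine chord_curv (f := fun s => w * GG (j + s) 0)
    (f' := fun s => w * Real.log (j + s)) (f'' := fun s => w * (1 / (j + s))) ?_ ?_ ?_ h3 hs hs'
  · exact continuous_const.mul (continuous_L.comp (continuous_const.add continuous_id))
  · intro s hs
    have d2 : HasDerivAt (fun s : ℝ => GG ((j : ℝ) + s) 0) (Real.log (j + s)) s := by
      have := HasDerivAt.comp s (hasDerivAt_L (hne' s hs)) ((hasDerivAt_id s).const_add (j : ℝ))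
      refine this.congr_deriv ?_
      ring
    exact d2.const_mul w
  · intro s hs
    have d2 : HasDerivAt (fun s : ℝ => Real.log ((j : ℝ) + s)) (1 / (j + s)) s := by
      exact ((hasDerivAt_id s).const_add (j : ℝ)).log (hne' s hs)
    exact d2.const_mul w

/-- `2^32 / e`, rounded up -/
def E32 : ℤ := 1580040000

lemma L_lower {x : ℝ} (hx : 0 ≤ x) : -x - Real.exp (-1) ≤ GG x 0 := by
  rw [GG_zero_right]
  have h : -Real.exp (-1) ≤ x * Real.log x := by
    rcases hx.eq_or_lt with h0 | h0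
    · rw [← h0, zero_mul]
      have := Real.exp_pos (-1)
      linarith
    · have h1 := Real.add_one_le_exp (-1 - Real.log x)
      have h2 : Real.exp (-1 - Real.log x) * x = Real.exp (-1) := by
        rw [Real.exp_sub, Real.exp_log h0]
        field_simp
      have h3 := mul_le_mul_of_nonneg_right h1 hx
      rw [h2] at h3
      linarith
  linarith

lemma L_upper {x : ℝ} (hx : 0 ≤ x) (hx1 : x ≤ 1) : GG x 0 ≤ -x := by
  rw [GG_zero_right]
  have : x * Real.log x ≤ 0 := mul_nonpos_of_nonneg_of_nonpos hx (Real.log_nonpos hx hx1)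
  linarith

lemma exp_neg_one_le : 2 ^ 32 * Real.exp (-1) ≤ ((E32 : ℤ) : ℝ) := by
  have h1 : Real.exp (-1) ≤ 1 / 2.7182818283 := by
    rw [Real.exp_neg, ← one_div]
    exact one_div_le_one_div_of_le (by norm_num) Real.exp_one_gt_d9.le
  unfold E32
  norm_num at h1 ⊢
  linarith

/-- singular half, left -/
lemma sing_left (w : ℤ) {x : ℝ} (hx : 0 ≤ x) (hx1 : x ≤ 1) :
    2 ^ 32 * ((w : ℝ) * GG (-x) 0) ≤ 2 ^ 32 * (x * w) + E32 * (max w 0 : ℤ) := by
  have he := exp_neg_one_le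
  have hp := Real.exp_pos (-1)
  rw [GG_neg]
  rcases le_or_gt 0 w with hw | hw
  · have hw' : (0 : ℝ) ≤ w := by exact_mod_cast hw
    have h1 := mul_le_mul_of_nonneg_left (L_lower hx) hw'
    have h2 := mul_le_mul_of_nonneg_left he hw'
    rw [max_eq_left hw]
    nlinarith
  · have hw' : (w : ℝ) ≤ 0 := by exact_mod_cast hw.le
    have h1 := mul_le_mul_of_nonpos_left (L_upper hx hx1) hw'
    rw [max_eq_right hw.le]
    push_cast
    nlinarith

/-- singular half, right -/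
lemma sing_right (w : ℤ) {x : ℝ} (hx : 0 ≤ x) (hx1 : x ≤ 1) :
    2 ^ 32 * ((w : ℝ) * GG x 0) ≤ 2 ^ 32 * (-(x * w)) + E32 * (max (-w) 0 : ℤ) := by
  have h := sing_left (-w) hx hx1
  rw [GG_neg] at h
  push_cast at h ⊢
  linarith

lemma GG_one : GG 1 0 = -1 := by rw [GG_zero_right]; simp

lemma adj_left (w κ : ℤ) (i : ℕ)
    (hκ : ∀ s ∈ Ioo (i : ℝ) (i + 1), -((w : ℝ) * (1 / (i + s))) ≤ (κ : ℝ) / 2 ^ 32) {s : ℝ}
    (hs : (i : ℝ) ≤ s) (hs' : s ≤ i + 1) :
    2 ^ 32 * T1 (i, w) s ≤ (1 - (s - i)) * (2 ^ 32 * T1 (i, w) i) +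
      (s - i) * (2 ^ 32 * T1 (i, w) ((i : ℝ) + 1)) +
      E32 * (max w 0 : ℤ) + (κ : ℝ) * ((s - i) * (1 - (s - i)) / 2) := by
  have hx0 : 0 ≤ s - i := by linarith
  have hx1 : s - i ≤ 1 := by linarith
  have h1 := half_smooth (w := (w : ℝ)) i i hκ hs hs'
  have h2 := sing_left w hx0 hx1
  unfold T1
  simp only
  rw [show (i : ℝ) - s = -(s - i) by ring, show (i : ℝ) - i = 0 by ring,
    show (i : ℝ) - (i + 1) = -1 by ring, GG_zero_left, GG_neg 1, GG_one]
  have h3 : (κ : ℝ) / 2 ^ 32 * ((s - i) * (1 - (s - i)) / 2) * 2 ^ 32 =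
      (κ : ℝ) * ((s - i) * (1 - (s - i)) / 2) := by field_simp
  nlinarith

lemma adj_right (w κ : ℤ) (i : ℕ)
    (hκ : ∀ s ∈ Ioo (i : ℝ) (i + 1), -((w : ℝ) * (1 / (((i + 1 : ℕ) : ℝ) + s))) ≤ (κ : ℝ) / 2 ^ 32)
    {s : ℝ} (hs : (i : ℝ) ≤ s) (hs' : s ≤ i + 1) :
    2 ^ 32 * T1 (i + 1, w) s ≤ (1 - (s - i)) * (2 ^ 32 * T1 (i + 1, w) i) +
      (s - i) * (2 ^ 32 * T1 (i + 1, w) ((i : ℝ) + 1)) +
      E32 * (max (-w) 0 : ℤ) + (κ : ℝ) * ((s - i) * (1 - (s - i)) / 2) := by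
  have hx0 : 0 ≤ 1 - (s - i) := by linarith
  have hx1 : 1 - (s - i) ≤ 1 := by linarith
  have h1 := half_smooth (w := (w : ℝ)) (i + 1) i hκ hs hs'
  have h2 := sing_right w hx0 hx1
  unfold T1
  simp only
  have e1 : (((i + 1 : ℕ) : ℝ)) - s = 1 - (s - i) := by push_cast; ring
  have e2 : (((i + 1 : ℕ) : ℝ)) - i = 1 := by push_cast; ring
  have e3 : (((i + 1 : ℕ) : ℝ)) - ((i : ℝ) + 1) = 0 := by push_cast; ring
  rw [e1, e2, e3, GG_zero_left, GG_one]
  have h3 : (κ : ℝ) / 2 ^ 32 * ((s - i) * (1 - (s - i)) / 2) * 2 ^ 32 =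
      (κ : ℝ) * ((s - i) * (1 - (s - i)) / 2) := by field_simp
  nlinarith

lemma far_term (w κ : ℤ) (j i : ℕ)
    (hκ : ∀ s ∈ Ioo (i : ℝ) (i + 1), -((w : ℝ) * (1 / (j - s) + 1 / (j + s))) ≤
      (κ : ℝ) / 2 ^ 32) {s : ℝ} (hs : (i : ℝ) ≤ s) (hs' : s ≤ i + 1) :
    2 ^ 32 * T1 (j, w) s ≤ (1 - (s - i)) * (2 ^ 32 * T1 (j, w) i) +
      (s - i) * (2 ^ 32 * T1 (j, w) ((i : ℝ) + 1)) + (κ : ℝ) * ((s - i) * (1 - (s - i)) / 2) := by
  have h1 := T1_smooth (w := (w : ℝ)) j i hκ hs hs'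
  unfold T1
  simp only
  have h3 : (κ : ℝ) / 2 ^ 32 * ((s - i) * (1 - (s - i)) / 2) * 2 ^ 32 =
      (κ : ℝ) * ((s - i) * (1 - (s - i)) / 2) := by field_simp
  nlinarith

lemma cdiv_neg_le {a d : ℤ} (hd : 0 < d) {r : ℝ} (h : r ≤ (a : ℝ) / (2 ^ 32 * d)) :
    r ≤ ((cdiv a d : ℤ) : ℝ) / 2 ^ 32 := by
  have h1 := cdiv_spec a d hd
  have hd' : (0 : ℝ) < d := by exact_mod_cast hd
  refine h.trans ?_
  rw [div_le_div_iff₀ (by positivity) (by positivity)]
  rw [div_le_iff₀ hd'] at h1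
  nlinarith

lemma pos_div_le {w a b : ℝ} (hw : 0 ≤ w) (ha : 0 < a) (hab : a ≤ b) : w / b ≤ w / a :=
  div_le_div_of_nonneg_left hw ha hab

lemma neg_div_le' {w a b : ℝ} (hw : w ≤ 0) (ha : 0 < a) (hab : a ≤ b) : w / a ≤ w / b := by
  rw [div_le_div_iff₀ ha (by linarith)]
  nlinarith

lemma term_bd (t : ℕ × ℤ) (i : ℕ) {s : ℝ} (hs : (i : ℝ) ≤ s) (hs' : s ≤ i + 1) :
    2 ^ 32 * T1 t s ≤ (1 - (s - i)) * (2 ^ 32 * T1 t i) + (s - i) * (2 ^ 32 * T1 t ((i : ℝ) + 1)) +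
      E32 * ((cur1 t i).1 : ℤ) + ((cur1 t i).2 : ℤ) * ((s - i) * (1 - (s - i)) / 2) := by
  obtain ⟨j, w⟩ := t
  have hi0 : (0 : ℝ) ≤ i := Nat.cast_nonneg i
  have hj0 : (0 : ℝ) ≤ j := Nat.cast_nonneg j
  unfold cur1
  simp only
  by_cases c0 : j = 0
  · subst c0
    rw [if_pos rfl]
    have e : ∀ v : ℝ, T1 (0, w) v = 0 := by
      intro v
      unfold T1
      simp only
      rw [Nat.cast_zero, zero_sub, zero_add, GG_neg]
      ring
    rw [e, e, e]
    simp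
  rw [if_neg c0]
  have hj1 : (1 : ℝ) ≤ j := by
    have : 1 ≤ j := by omega
    exact_mod_cast this
  by_cases c1 : j = i
  · subst c1
    rw [if_pos rfl]
    simp only
    apply adj_left _ _ _ _ hs hs'
    intro v hv
    by_cases hw : 0 ≤ w
    · rw [if_pos hw]
      have hw' : (0 : ℝ) ≤ w := by exact_mod_cast hw
      apply cdiv_neg_le (by omega)
      push_cast
      have h2 : (w : ℝ) / (2 * j + 1) ≤ w * (1 / (j + v)) := by
        rw [mul_one_div]
        exact div_le_div_of_nonneg_left hw' (by linarith [hv.1]) (by linarith [hv.2])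
      have h3 : -((w : ℝ) * 4294967296) / (2 ^ 32 * (2 * j + 1)) = -(w / (2 * j + 1)) := by
        field_simp
        norm_num
      rw [h3]
      linarith
    · rw [if_neg hw]
      have hw' : (w : ℝ) ≤ 0 := by exact_mod_cast (not_le.1 hw).le
      apply cdiv_neg_le (by omega)
      push_cast
      have h2 : (w : ℝ) / (2 * j) ≤ w * (1 / (j + v)) := by
        rw [mul_one_div]
        exact neg_div_le' hw' (by linarith) (by linarith [hv.1])
      have h3 : -((w : ℝ) * 4294967296) / (2 ^ 32 * (2 * j)) = -(w / (2 * j)) := by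
        field_simp
        norm_num
      rw [h3]
      linarith
  rw [if_neg c1]
  by_cases c2 : j = i + 1
  · subst c2
    rw [if_pos rfl]
    simp only
    apply adj_right _ _ _ _ hs hs'
    intro v hv
    push_cast
    by_cases hw : 0 ≤ w
    · rw [if_pos hw]
      have hw' : (0 : ℝ) ≤ w := by exact_mod_cast hw
      apply cdiv_neg_le (by omega)
      push_cast
      have h2 : (w : ℝ) / (2 * i + 2) ≤ w * (1 / (i + 1 + v)) := by
        rw [mul_one_div]
        exact pos_div_le hw' (by linarith [hv.1]) (by linarith [hv.2])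
      have h3 : -((w : ℝ) * 4294967296) / (2 ^ 32 * (2 * i + 2)) = -(w / (2 * i + 2)) := by
        field_simp
        norm_num
      rw [h3]
      linarith
    · rw [if_neg hw]
      have hw' : (w : ℝ) ≤ 0 := by exact_mod_cast (not_le.1 hw).le
      apply cdiv_neg_le (by omega)
      push_cast
      have h2 : (w : ℝ) / (2 * i + 1) ≤ w * (1 / (i + 1 + v)) := by
        rw [mul_one_div]
        exact neg_div_le' hw' (by linarith) (by linarith [hv.1])
      have h3 : -((w : ℝ) * 4294967296) / (2 ^ 32 * (2 * i + 1)) = -(w / (2 * i + 1)) := by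
        field_simp
        norm_num
      rw [h3]
      linarith
  rw [if_neg c2]
  by_cases c3 : i < j
  · rw [if_pos c3]
    simp only [Int.cast_zero, mul_zero, add_zero]
    have hij : i + 2 ≤ j := by omega
    have hij' : (i : ℝ) + 2 ≤ j := by exact_mod_cast hij
    apply far_term _ _ _ _ _ hs hs'
    intro v hv
    have hv1 := hv.1
    have hv2 := hv.2
    have hid : (w : ℝ) * (1 / (j - v) + 1 / (j + v)) = 2 * j * w / ((j : ℝ) ^ 2 - v ^ 2) := by
      have g1 : (j : ℝ) - v ≠ 0 := by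
        have : 0 < (j : ℝ) - v := by linarith
        exact this.ne'
      have g2 : (j : ℝ) + v ≠ 0 := by
        have : 0 < (j : ℝ) + v := by linarith
        exact this.ne'
      have g3 : (j : ℝ) ^ 2 - v ^ 2 ≠ 0 := by
        have : (j : ℝ) ^ 2 - v ^ 2 = (j - v) * (j + v) := by ring
        rw [this]; exact mul_ne_zero g1 g2
      field_simp
      ring
    rw [hid]
    by_cases hw : 0 ≤ w
    · rw [if_pos hw]
      have hw' : (0 : ℝ) ≤ w := by exact_mod_cast hw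
      have hd : (0 : ℤ) < (j : ℤ) ^ 2 - (i : ℤ) ^ 2 := by
        have : (i : ℤ) + 2 ≤ j := by exact_mod_cast hij
        nlinarith
      have hdr : (0 : ℝ) < (j : ℝ) ^ 2 - (i : ℝ) ^ 2 := by exact_mod_cast hd
      apply cdiv_neg_le hd
      push_cast
      have h2 : 2 * (j : ℝ) * w / ((j : ℝ) ^ 2 - (i : ℝ) ^ 2) ≤
          2 * j * w / ((j : ℝ) ^ 2 - v ^ 2) :=
        pos_div_le (by positivity) (by nlinarith) (by nlinarith)
      have h3 : -(2 * (j : ℝ) * w * 4294967296) / (2 ^ 32 * ((j : ℝ) ^ 2 - (i : ℝ) ^ 2)) =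
          -(2 * j * w / ((j : ℝ) ^ 2 - (i : ℝ) ^ 2)) := by
        field_simp
        ring
      rw [h3]
      linarith
    · rw [if_neg hw]
      have hw' : (w : ℝ) ≤ 0 := by exact_mod_cast (not_le.1 hw).le
      have hd : (0 : ℤ) < (j : ℤ) ^ 2 - ((i : ℤ) + 1) ^ 2 := by
        have : (i : ℤ) + 2 ≤ j := by exact_mod_cast hij
        nlinarith
      have hdr : (0 : ℝ) < (j : ℝ) ^ 2 - ((i : ℝ) + 1) ^ 2 := by exact_mod_cast hd
      apply cdiv_neg_le hd
      push_cast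
      have h2 : 2 * (j : ℝ) * w / ((j : ℝ) ^ 2 - ((i : ℝ) + 1) ^ 2) ≤
          2 * j * w / ((j : ℝ) ^ 2 - v ^ 2) :=
        neg_div_le' (by nlinarith) hdr (by nlinarith)
      have h3 : -(2 * (j : ℝ) * w * 4294967296) / (2 ^ 32 * ((j : ℝ) ^ 2 - ((i : ℝ) + 1) ^ 2)) =
          -(2 * j * w / ((j : ℝ) ^ 2 - ((i : ℝ) + 1) ^ 2)) := by
        field_simp
        ring
      rw [h3]
      linarith
  · rw [if_neg c3]
    simp only [Int.cast_zero, mul_zero, add_zero]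
    have hij : j + 1 ≤ i := by omega
    have hij' : (j : ℝ) + 1 ≤ i := by exact_mod_cast hij
    apply far_term _ _ _ _ _ hs hs'
    intro v hv
    have hv1 := hv.1
    have hv2 := hv.2
    have hid : -((w : ℝ) * (1 / (j - v) + 1 / (j + v))) = 2 * j * w / (v ^ 2 - (j : ℝ) ^ 2) := by
      have g1 : (j : ℝ) - v ≠ 0 := by
        have : (j : ℝ) - v < 0 := by linarith
        exact this.ne
      have g2 : (j : ℝ) + v ≠ 0 := by
        have : 0 < (j : ℝ) + v := by linarith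
        exact this.ne'
      have g3 : v ^ 2 - (j : ℝ) ^ 2 ≠ 0 := by
        have : v ^ 2 - (j : ℝ) ^ 2 = -((j - v) * (j + v)) := by ring
        rw [this]; exact neg_ne_zero.2 (mul_ne_zero g1 g2)
      field_simp
      ring
    rw [hid]
    by_cases hw : 0 ≤ w
    · rw [if_pos hw]
      have hw' : (0 : ℝ) ≤ w := by exact_mod_cast hw
      have hd : (0 : ℤ) < (i : ℤ) ^ 2 - (j : ℤ) ^ 2 := by
        have : (j : ℤ) + 1 ≤ i := by exact_mod_cast hij
        nlinarith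
      have hdr : (0 : ℝ) < (i : ℝ) ^ 2 - (j : ℝ) ^ 2 := by exact_mod_cast hd
      apply cdiv_neg_le hd
      push_cast
      have h2 : 2 * (j : ℝ) * w / (v ^ 2 - (j : ℝ) ^ 2) ≤
          2 * j * w / ((i : ℝ) ^ 2 - (j : ℝ) ^ 2) :=
        pos_div_le (by positivity) hdr (by nlinarith)
      have h3 : 2 * (j : ℝ) * w * 4294967296 / (2 ^ 32 * ((i : ℝ) ^ 2 - (j : ℝ) ^ 2)) =
          2 * j * w / ((i : ℝ) ^ 2 - (j : ℝ) ^ 2) := by
        field_simp
        ring
      rw [h3]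
      exact h2
    · rw [if_neg hw]
      have hw' : (w : ℝ) ≤ 0 := by exact_mod_cast (not_le.1 hw).le
      have hd : (0 : ℤ) < ((i : ℤ) + 1) ^ 2 - (j : ℤ) ^ 2 := by
        have : (j : ℤ) + 1 ≤ i := by exact_mod_cast hij
        nlinarith
      have hdr : (0 : ℝ) < ((i : ℝ) + 1) ^ 2 - (j : ℝ) ^ 2 := by exact_mod_cast hd
      apply cdiv_neg_le hd
      push_cast
      have h2 : 2 * (j : ℝ) * w / (v ^ 2 - (j : ℝ) ^ 2) ≤
          2 * j * w / (((i : ℝ) + 1) ^ 2 - (j : ℝ) ^ 2) :=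
        neg_div_le' (by nlinarith) (by nlinarith) (by nlinarith)
      have h3 : 2 * (j : ℝ) * w * 4294967296 / (2 ^ 32 * (((i : ℝ) + 1) ^ 2 - (j : ℝ) ^ 2)) =
          2 * j * w / (((i : ℝ) + 1) ^ 2 - (j : ℝ) ^ 2) := by
        field_simp
        ring
      rw [h3]
      exact h2

/-! ## cells -/

/-- error of a cell -/
def errV (L : List (ℕ × ℤ)) (i : ℕ) : ℤ :=
  let x := curV L i
  E32 * x.1 + (max x.2 0) / 8 + 1

theorem FJ_cell {g : ℕ → ℤ × ℤ} {NT : ℕ} (hT : TabOK g NT) (L : List (ℕ × ℤ)) (i : ℕ)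
    (hL : ∀ t ∈ L, t.1 + i + 1 < NT) {s : ℝ} (hs : (i : ℝ) ≤ s) (hs' : s ≤ i + 1) :
    2 ^ 32 * FJ L s ≤ (1 - (s - i)) * ((nodeV g L i : ℤ) : ℝ) +
      (s - i) * ((nodeV g L (i + 1) : ℤ) : ℝ) + E32 * ((curV L i).1 : ℤ) +
      ((curV L i).2 : ℤ) * ((s - i) * (1 - (s - i)) / 2) := by
  have hx0 : 0 ≤ s - i := by linarith
  have hx1 : 0 ≤ 1 - (s - i) := by linarith
  induction L with
  | nil => simp [FJ, nodeV, curV]
  | cons t L ih =>
    have h1 := term_bd t i hs hs'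
    have h2 := ih fun t ht => hL t (List.mem_cons_of_mem _ ht)
    have ht := hL t List.mem_cons_self
    have n0 := node1_spec hT t i (by omega)
    have n1 := node1_spec hT t (i + 1) (by omega)
    have m0 := mul_le_mul_of_nonneg_left n0 hx1
    have m1 := mul_le_mul_of_nonneg_left n1 hx0
    push_cast at m1
    simp only [FJ, nodeV, curV]
    push_cast
    linarith

/-- the check of a cell, unit `1 / 1000` -/
def cell2 (g : ℕ → ℤ × ℤ) (L : List (ℕ × ℤ)) (den : ℤ) (i : ℕ) (A B : ℤ) : Bool :=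
  let e := errV L i
  decide (1000 * (nodeV g L i + e) ≤ A * den * 4294967296) &&
    decide (1000 * (nodeV g L (i + 1) + e) ≤ B * den * 4294967296)

theorem cell2_spec {g : ℕ → ℤ × ℤ} {NT : ℕ} (hT : TabOK g NT) {L : List (ℕ × ℤ)} {den : ℤ}
    (hden : 0 < den) {i : ℕ} (hL : ∀ t ∈ L, t.1 + i + 1 < NT) {A B : ℤ}
    (h : cell2 g L den i A B = true) :
    CellLe (fun s => FJ L s / den) i ((A : ℝ) / 1000) ((B : ℝ) / 1000) := by
  intro s hs hs'
  simp only [cell2, Bool.and_eq_true, decide_eq_true_eq] at h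
  have hd' : (0 : ℝ) < den := by exact_mod_cast hden
  have hx0 : 0 ≤ s - i := by linarith
  have hx1 : 0 ≤ 1 - (s - i) := by linarith
  have h1 := FJ_cell hT L i hL hs hs'
  set n0 := nodeV g L i with hn0
  set n1 := nodeV g L (i + 1) with hn1
  have he : E32 * ((curV L i).1 : ℤ) + ((curV L i).2 : ℤ) * ((s - i) * (1 - (s - i)) / 2) ≤
      ((errV L i : ℤ) : ℝ) := by
    unfold errV
    simp only
    generalize curV L i = x
    push_cast
    have h2 := Int.lt_ediv_add_one_mul_self (max x.2 0) (show (0 : ℤ) < 8 by norm_num)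
    have h3 : ((max x.2 0 : ℤ) : ℝ) ≤ (((max x.2 0) / 8 : ℤ) : ℝ) * 8 + 8 := by
      have : max x.2 0 ≤ (max x.2 0) / 8 * 8 + 8 := by omega
      exact_mod_cast this
    have h4 : (s - i) * (1 - (s - i)) / 2 ≤ 1 / 8 := by nlinarith [sq_nonneg (s - i - 1 / 2)]
    have h5 : (x.2 : ℝ) * ((s - i) * (1 - (s - i)) / 2) ≤ ((max x.2 0 : ℤ) : ℝ) * (1 / 8) := by
      have h6 : (x.2 : ℝ) ≤ ((max x.2 0 : ℤ) : ℝ) := by exact_mod_cast le_max_left _ _
      have h7 : (0 : ℝ) ≤ ((max x.2 0 : ℤ) : ℝ) := by exact_mod_cast le_max_right _ _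
      have h8 : 0 ≤ (s - i) * (1 - (s - i)) / 2 := by positivity
      exact mul_le_mul h6 h4 h8 h7
    push_cast at h3 h5 ⊢
    linarith
  have g1 : (1000 : ℝ) * ((n0 : ℝ) + (errV L i : ℤ)) ≤ A * den * 4294967296 := by
    exact_mod_cast h.1
  have g2 : (1000 : ℝ) * ((n1 : ℝ) + (errV L i : ℤ)) ≤ B * den * 4294967296 := by
    exact_mod_cast h.2
  have m0 := mul_le_mul_of_nonneg_left g1 hx1
  have m1 := mul_le_mul_of_nonneg_left g2 hx0
  show FJ L s / den ≤ _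
  rw [div_le_iff₀ hd']
  nlinarith

end BE

end Z579
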