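import Pool.Agent.Lib.Z579.Local

/-!
# Computable form of the local moments
-/

open Polynomial Finset

namespace Z579

/-- coefficient of `x^k` in `(x+1)^B x^n (x-1)^(-q)`, `q` even -/
def alc (q B n k : ℕ) : ℤ :=
  if k < n then 0 else
    ∑ j ∈ Finset.range (k - n + 1), (Nat.choose B j : ℤ) * Nat.choose (q - 1 + (k - n - j)) (q - 1)

/-- coefficient of `x^k` in `(x+2)^B (x+1)^n (x+1)^(-q)` -/
def bec (q B n k : ℕ) : ℤ :=
  ∑ i ∈ Finset.range (k + 1), ((Nat.choose B i : ℤ) * 2 ^ (B - i)) *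
    ∑ j ∈ Finset.range (k - i + 1), (Nat.choose n j : ℤ) *
      ((-1) ^ (k - i - j) * Nat.choose (q - 1 + (k - i - j)) (q - 1))

/-- local moments, computable -/
def lmc (r q B n : ℕ) : ℤ :=
  ∑ i ∈ Finset.range q, (Nat.choose (i + r) r : ℤ) *
    (alc q B n (q - (i + 1)) + (-1) ^ (i + 2) * bec q B n (q - (i + 1)))

lemma coeff_lin_pow (c : ℤ) (B j : ℕ) :
    PowerSeries.coeff j ((lin c) ^ B) = (Nat.choose B j : ℚ) * (c : ℚ) ^ (B - j) := by
  have h1 : (lin c) = (((X + Polynomial.C (c : ℚ)) : ℚ[X]) : PowerSeries ℚ) := by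
    rw [lin]; push_cast; simp
  rw [h1, ← Polynomial.coe_pow, Polynomial.coeff_coe, Polynomial.coeff_X_add_C_pow]
  ring

lemma lin_neg_one_inv : (lin (-1))⁻¹ = -(PowerSeries.mk (1 : ℕ → ℚ)) := by
  have h : PowerSeries.constantCoeff (lin (-1)) ≠ 0 := by simp [lin]
  rw [eq_comm, PowerSeries.eq_inv_iff_mul_eq_one h]
  have h2 := PowerSeries.mk_one_mul_one_sub_eq_one ℚ
  rw [lin]
  push_cast
  rw [map_neg, map_one]
  linear_combination h2

lemma inv_pow_coeff {q : ℕ} (hq : Even q) (hq0 : q ≠ 0) (k : ℕ) :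
    PowerSeries.coeff k (((lin (-1))⁻¹) ^ q) = (Nat.choose (q - 1 + k) (q - 1) : ℚ) := by
  rw [lin_neg_one_inv, hq.neg_pow]
  obtain ⟨d, hd⟩ := Nat.exists_eq_succ_of_ne_zero hq0
  subst hd
  have := PowerSeries.mk_one_pow_eq_mk_choose_add ℚ d
  rw [Nat.succ_eq_add_one, this, PowerSeries.coeff_mk]
  simp

lemma inv_pow_coeff' {q : ℕ} (hq : Even q) (hq0 : q ≠ 0) (k : ℕ) :
    PowerSeries.coeff k (((lin 1)⁻¹) ^ q) =
      (-1) ^ k * (Nat.choose (q - 1 + k) (q - 1) : ℚ) := by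
  have h : PowerSeries.constantCoeff (lin (-1)) ≠ 0 := by simp [lin]
  have h1 : ((lin 1)⁻¹) ^ q = PowerSeries.rescale (-1 : ℚ) (((lin (-1))⁻¹) ^ q) := by
    rw [map_pow, rescale_inv _ _ h, rescale_neg_one_lin, neg_neg]
    have h2 : (-lin 1)⁻¹ = -(lin 1)⁻¹ := by
      rw [eq_comm, PowerSeries.eq_inv_iff_mul_eq_one (by simp [lin])]
      have h3 : PowerSeries.constantCoeff (lin 1) ≠ 0 := by simp [lin]
      rw [neg_mul_neg, PowerSeries.inv_mul_cancel _ h3]
    rw [h2, hq.neg_pow]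
  rw [h1, PowerSeries.coeff_rescale, inv_pow_coeff hq hq0]

lemma al_eq {q B n k : ℕ} (hq : Even q) (hq0 : q ≠ 0) : al q B n k = (alc q B n k : ℚ) := by
  rw [al, alc]
  have h1 : lin 1 ^ B * PowerSeries.X ^ n * (lin (-1))⁻¹ ^ q =
      (lin 1 ^ B * (lin (-1))⁻¹ ^ q) * PowerSeries.X ^ n := by ring
  rw [h1, PowerSeries.coeff_mul_X_pow']
  split_ifs with h2 h3 h3
  · omega
  · rw [PowerSeries.coeff_mul, Finset.Nat.sum_antidiagonal_eq_sum_range_succ_mk]
    push_cast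
    refine Finset.sum_congr rfl fun j _ => ?_
    rw [coeff_lin_pow, inv_pow_coeff hq hq0]
    push_cast
    rw [one_pow, mul_one]
  · simp
  · omega

lemma be_eq {q B n k : ℕ} (hq : Even q) (hq0 : q ≠ 0) : be q B n k = (bec q B n k : ℚ) := by
  rw [be, bec, mul_assoc, PowerSeries.coeff_mul, Finset.Nat.sum_antidiagonal_eq_sum_range_succ_mk]
  push_cast
  refine Finset.sum_congr rfl fun i _ => ?_
  rw [coeff_lin_pow, PowerSeries.coeff_mul, Finset.Nat.sum_antidiagonal_eq_sum_range_succ_mk]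
  push_cast
  congr 1
  refine Finset.sum_congr rfl fun j _ => ?_
  rw [coeff_lin_pow, inv_pow_coeff' hq hq0]
  push_cast
  rw [one_pow, mul_one]

lemma lmom_eq {r q B n : ℕ} (hq : Even q) (hq0 : q ≠ 0) :
    lmom r q B n = (lmc r q B n : ℚ) := by
  rw [lmom, lmc]
  push_cast
  have h1 : Finset.Icc 1 q = Finset.Ico (0 + 1) (q + 1) := by
    ext x; simp only [Finset.mem_Icc, Finset.mem_Ico]; omega
  rw [h1, ← Finset.sum_Ico_add', Finset.range_eq_Ico]
  refine Finset.sum_congr rfl fun i _ => ?_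
  rw [al_eq hq hq0, be_eq hq hq0]
  have h2 : i + 1 + r - 1 = i + r := by omega
  rw [h2]

/-- computable local Hankel matrix -/
def lhc (r q B N : ℕ) : Matrix (Fin N) (Fin N) ℤ := fun i j => lmc r q B ((i : ℕ) + (j : ℕ))

lemma lhank_eq {r q B N : ℕ} (hq : Even q) (hq0 : q ≠ 0) :
    lhank r q B N = ((lhc r q B N).det : ℚ) := by
  rw [lhank]
  have : (Matrix.of fun i j : Fin N => lmom r q B ((i : ℕ) + (j : ℕ))) =
      (Int.castRingHom ℚ).mapMatrix (lhc r q B N) := by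
    ext i j
    simp only [Matrix.of_apply, RingHom.mapMatrix_apply, Matrix.map_apply, lhc]
    rw [lmom_eq hq hq0]
    simp
  rw [this, ← RingHom.map_det]
  simp

/-- a certificate for nonvanishing: an inverse modulo `l` -/
lemma lhank_ne_zero_of {r q B N l : ℕ} (hl : 1 < l) (hq : Even q) (hq0 : q ≠ 0)
    (W : Matrix (Fin N) (Fin N) ℤ)
    (h : ∀ i j, (∑ k, lhc r q B N i k * W k j - (if i = j then 1 else 0)) % (l : ℤ) = 0) :
    lhank r q B N ≠ 0 := by
  rw [lhank_eq hq hq0]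
  intro h0
  have h1 : (lhc r q B N).det = 0 := by exact_mod_cast h0
  haveI : Fact (1 < l) := ⟨hl⟩
  let φ := Int.castRingHom (ZMod l)
  have h2 : φ.mapMatrix (lhc r q B N) * φ.mapMatrix W = 1 := by
    rw [← map_mul]
    ext i j
    rw [RingHom.mapMatrix_apply, Matrix.map_apply, Matrix.mul_apply, Matrix.one_apply]
    have h3 := h i j
    have h4 : (l : ℤ) ∣ (∑ k, lhc r q B N i k * W k j - (if i = j then 1 else 0)) :=
      Int.dvd_of_emod_eq_zero h3
    rw [← ZMod.intCast_zmod_eq_zero_iff_dvd] at h4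
    push_cast at h4
    rw [sub_eq_zero] at h4
    simp only [φ, Int.coe_castRingHom]
    push_cast
    rw [h4]
  have h5 := congrArg Matrix.det h2
  rw [Matrix.det_mul, Matrix.det_one, ← RingHom.map_det, h1, map_zero, zero_mul] at h5
  exact zero_ne_one h5

end Z579
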