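import Pool.Agent.Lib.Z579.VGL
import Pool.Agent.Lib.Z579.LH

/-!
# The local functional at a two-pole class for `r = 2`, `q = 6`

Pairs of power series (expansions at the two poles `s = 0`, `s = 1`), first order jets, and the
degenerate polynomial `pi6 = ((1-s)^9 - s^9) / ((1-s)^3 - s^3)`.
-/

open Polynomial Finset

namespace Z579

namespace C54

/-- pairs of power series -/
abbrev A2 : Type := PowerSeries ℚ × PowerSeries ℚ

/-- the coordinate `s`, expanded at `0` and at `1` -/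
noncomputable def xx : A2 := (PowerSeries.X, PowerSeries.X + 1)

/-- the local functional -/
noncomputable def Lam : A2 →ₗ[ℚ] ℚ :=
  ∑ i ∈ Finset.Icc 1 6, (Nat.choose (i + 2 - 1) 2 : ℚ) •
    ((PowerSeries.coeff (R := ℚ) (6 - i)) ∘ₗ (LinearMap.mulRight ℚ ((lin (-1))⁻¹ ^ 6)) ∘ₗ
        (LinearMap.fst ℚ (PowerSeries ℚ) (PowerSeries ℚ)) +
      ((-1 : ℚ) ^ (i + 1)) • ((PowerSeries.coeff (R := ℚ) (6 - i)) ∘ₗ
        (LinearMap.mulRight ℚ ((lin 1)⁻¹ ^ 6)) ∘ₗ
        (LinearMap.snd ℚ (PowerSeries ℚ) (PowerSeries ℚ))))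

lemma Lam_apply (f : A2) : Lam f = ∑ i ∈ Finset.Icc 1 6, (Nat.choose (i + 2 - 1) 2 : ℚ) *
    (PowerSeries.coeff (6 - i) (f.1 * (lin (-1))⁻¹ ^ 6) +
      (-1) ^ (i + 1) * PowerSeries.coeff (6 - i) (f.2 * (lin 1)⁻¹ ^ 6)) := by
  simp [Lam, LinearMap.sum_apply, mul_add]

lemma Lam_pow (n : ℕ) : Lam (xx ^ n) = lmom 2 6 0 n := by
  rw [Lam_apply, lmom]
  refine Finset.sum_congr rfl fun i _ => ?_
  rw [al, be]
  have h : PowerSeries.X + 1 = lin 1 := by simp [lin]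
  simp only [xx, Prod.pow_fst, Prod.pow_snd, pow_zero, one_mul, h]

/-- the degenerate polynomial, evaluated -/
noncomputable def pe : A2 := xx ^ 6 - 3 * xx ^ 5 + 12 * xx ^ 4 - 19 * xx ^ 3 + 15 * xx ^ 2 -
  6 * xx + 1

/-- its derivative, evaluated -/
noncomputable def de : A2 := 6 * xx ^ 5 - 15 * xx ^ 4 + 48 * xx ^ 3 - 57 * xx ^ 2 + 30 * xx - 6

lemma lmc_orth : ∀ k < 9, lmc 2 6 0 (k + 6) - 3 * lmc 2 6 0 (k + 5) + 12 * lmc 2 6 0 (k + 4) -
    19 * lmc 2 6 0 (k + 3) + 15 * lmc 2 6 0 (k + 2) - 6 * lmc 2 6 0 (k + 1) + lmc 2 6 0 k = 0 := by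
  decide +kernel

lemma natCast_smul_A2 (n : ℕ) (f : A2) : (n : A2) * f = (n : ℚ) • f := by
  rw [← nsmul_eq_mul]
  exact (Nat.cast_smul_eq_nsmul ℚ n f).symm

lemma Lam_orth (k : ℕ) (hk : k < 9) : Lam (pe * xx ^ k) = 0 := by
  have h1 : pe * xx ^ k = xx ^ (k + 6) - (3 : ℚ) • xx ^ (k + 5) + (12 : ℚ) • xx ^ (k + 4) -
      (19 : ℚ) • xx ^ (k + 3) + (15 : ℚ) • xx ^ (k + 2) - (6 : ℚ) • xx ^ (k + 1) + xx ^ k := by
    have h3 := natCast_smul_A2 3 (xx ^ (k + 5))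
    have h12 := natCast_smul_A2 12 (xx ^ (k + 4))
    have h19 := natCast_smul_A2 19 (xx ^ (k + 3))
    have h15 := natCast_smul_A2 15 (xx ^ (k + 2))
    have h6 := natCast_smul_A2 6 (xx ^ (k + 1))
    push_cast at h3 h12 h19 h15 h6
    rw [← h3, ← h12, ← h19, ← h15, ← h6, pe]
    ring
  rw [h1]
  simp only [map_add, map_sub, map_smul, smul_eq_mul, Lam_pow]
  have he : Even 6 := by decide
  simp only [lmom_eq he (by norm_num : (6 : ℕ) ≠ 0)]
  have := lmc_orth k hk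
  exact_mod_cast this

lemma Lam_orth' (R : ℚ[X]) (hR : R.natDegree < 9) : Lam (pe * Polynomial.aeval xx R) = 0 := by
  rw [Polynomial.aeval_eq_sum_range, Finset.mul_sum, map_sum]
  refine Finset.sum_eq_zero fun k hk => ?_
  rw [Finset.mem_range] at hk
  rw [mul_smul_comm, map_smul, Lam_orth k (by omega), smul_zero]

/-- constants -/
noncomputable abbrev kap : ℚ →+* A2 := algebraMap ℚ A2

lemma Lam_kap (a : ℚ) (f : A2) : Lam (kap a * f) = a * Lam f := by
  rw [kap, ← Algebra.smul_def, map_smul, smul_eq_mul]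

lemma Lam_natCast (a : ℕ) (f : A2) : Lam ((a : A2) * f) = a * Lam f := by
  have : (a : A2) = kap (a : ℚ) := (map_natCast kap a).symm
  rw [this, Lam_kap]

lemma Lam_natCast_pow (a k : ℕ) (f : A2) : Lam ((a : A2) ^ k * f) = a ^ k * Lam f := by
  have := Lam_natCast (a ^ k) f
  push_cast at this
  exact this

section
variable (p : ℕ) [hp : Fact p.Prime]

/-- integral pairs -/
noncomputable def SS : Subring A2 where
  carrier := {f | WA p 0 0 f.1 ∧ WA p 0 0 f.2}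
  mul_mem' := by
    rintro f g ⟨h1, h2⟩ ⟨h3, h4⟩
    exact ⟨by simpa using h1.mul h3, by simpa using h2.mul h4⟩
  one_mem' := ⟨WA.one' 0, WA.one' 0⟩
  add_mem' := by
    rintro f g ⟨h1, h2⟩ ⟨h3, h4⟩
    exact ⟨h1.add h3, h2.add h4⟩
  zero_mem' := ⟨fun j => by simpa using VG.zero' _ _, fun j => by simpa using VG.zero' _ _⟩
  neg_mem' := by
    rintro f ⟨h1, h2⟩
    exact ⟨fun j => by simpa using (h1 j).neg, fun j => by simpa using (h2 j).neg⟩

variable {p}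

lemma mem_SS {f : A2} : f ∈ SS p ↔ WA p 0 0 f.1 ∧ WA p 0 0 f.2 := Iff.rfl

lemma WA_X : WA p 0 0 (PowerSeries.X) := by
  have := WA.lin0 (p := p) (K := 0) le_rfl 0
  simpa [lin] using this

lemma xx_mem : xx ∈ SS p := by
  refine ⟨WA_X, ?_⟩
  exact (WA_X (p := p)).add (WA.one' 0)

lemma kap_mem {a : ℚ} (ha : VG p 0 a) : kap a ∈ SS p :=
  ⟨WA.const ha, WA.const ha⟩

lemma VG_Lam {f : A2} (hf : f ∈ SS p) : VG p 0 (Lam f) := by
  rw [Lam_apply]
  refine VG.sum fun i _ => ?_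
  have h1 : WA p 0 0 (lin (-1))⁻¹ := by
    have hv : padicValRat p ((-1 : ℤ) : ℚ) = 0 := by simp
    have := WA.lin_inv (p := p) (K := 0) (c := -1) (by norm_num) (by rw [hv]; simp)
    rw [hv] at this
    simpa using this
  have h2 : WA p 0 0 (lin 1)⁻¹ := by
    have hv : padicValRat p ((1 : ℤ) : ℚ) = 0 := by simp
    have := WA.lin_inv (p := p) (K := 0) (c := 1) (by norm_num) (by rw [hv]; simp)
    rw [hv] at this
    simpa using this
  have h3 := (hf.1.mul (h1.pow 6)) (6 - i)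
  have h4 := (hf.2.mul (h2.pow 6)) (6 - i)
  have h5 : VG p 0 ((-1 : ℚ) ^ (i + 1)) := by
    have := VG.int (p := p) ((-1) ^ (i + 1))
    simpa using this
  have h6 := (VG.nat (p := p) (Nat.choose (i + 2 - 1) 2)).mul (h3.add (by simpa using h5.mul h4))
  simpa using h6

/-- the subring of first order jets `a₀ + a₁ p s + O(p²)` -/
noncomputable def S1 (p : ℕ) [Fact p.Prime] : Subring A2 where
  carrier := {f | ∃ a b : ℚ, VG p 0 a ∧ VG p 0 b ∧ ∃ g ∈ SS p,
    f = kap a + (p : A2) * kap b * xx + (p : A2) ^ 2 * g}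
  mul_mem' := by
    rintro _ _ ⟨a, b, ha, hb, g, hg, rfl⟩ ⟨a', b', ha', hb', g', hg', rfl⟩
    refine ⟨a * a', a * b' + b * a', ?_, ?_,
      kap b * kap b' * xx ^ 2 + g * (kap a' + (p : A2) * kap b' * xx + (p : A2) ^ 2 * g') +
        (kap a + (p : A2) * kap b * xx) * g', ?_, ?_⟩
    · simpa using ha.mul ha'
    · simpa using (ha.mul hb').add (by simpa using hb.mul ha')
    · have hx := xx_mem (p := p)
      have hpm : (p : A2) ∈ SS p := natCast_mem _ _
      have h1 := kap_mem ha; have h2 := kap_mem hb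
      have h3 := kap_mem ha'; have h4 := kap_mem hb'
      refine add_mem (add_mem (mul_mem (mul_mem h2 h4) (pow_mem hx 2)) (mul_mem hg
        (add_mem (add_mem h3 (mul_mem (mul_mem hpm h4) hx)) (mul_mem (pow_mem hpm 2) hg'))))
        (mul_mem (add_mem h1 (mul_mem (mul_mem hpm h2) hx)) hg')
    · simp only [map_mul, map_add]
      ring
  one_mem' := ⟨1, 0, VG.one, VG.zero' _ _, 0, zero_mem _, by rw [map_one, map_zero]; ring⟩
  add_mem' := by
    rintro _ _ ⟨a, b, ha, hb, g, hg, rfl⟩ ⟨a', b', ha', hb', g', hg', rfl⟩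
    refine ⟨a + a', b + b', ha.add ha', hb.add hb', g + g', add_mem hg hg', ?_⟩
    simp only [map_add]
    ring
  zero_mem' := ⟨0, 0, VG.zero' _ _, VG.zero' _ _, 0, zero_mem _, by rw [map_zero]; ring⟩
  neg_mem' := by
    rintro _ ⟨a, b, ha, hb, g, hg, rfl⟩
    refine ⟨-a, -b, ha.neg, hb.neg, -g, neg_mem hg, ?_⟩
    simp only [map_neg]
    ring

lemma S1_le {f : A2} (hf : f ∈ S1 p) : f ∈ SS p := by
  obtain ⟨a, b, ha, hb, g, hg, rfl⟩ := hf
  have hpm : (p : A2) ∈ SS p := natCast_mem _ _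
  exact add_mem (add_mem (kap_mem ha) (mul_mem (mul_mem hpm (kap_mem hb)) xx_mem))
    (mul_mem (pow_mem hpm 2) hg)

/-- `d + p s` -/
lemma dps_mem (d : ℤ) : (d : A2) + (p : A2) * xx ∈ S1 p := by
  refine ⟨d, 1, VG.int d, VG.one, 0, zero_mem _, ?_⟩
  have : kap (d : ℚ) = (d : A2) := map_intCast kap d
  rw [this, map_one]
  ring

/-- the inverse of `d + p s`, `d` prime to `p` -/
lemma dps_inv_mem {d : ℤ} (hd : ¬ (p : ℤ) ∣ d) {f : A2} (hf : f ∈ SS p)
    (hfd : ((d : A2) + (p : A2) * xx) * f = 1) : f ∈ S1 p := by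
  have hd0 : (d : ℚ) ≠ 0 := by
    intro h
    apply hd
    have : d = 0 := by exact_mod_cast h
    rw [this]; exact dvd_zero _
  have hv : VG p 0 ((d : ℚ)⁻¹) := by
    right
    rw [padicValRat.inv, padicValRat.of_int, padicValInt.eq_zero_of_not_dvd hd]
    simp
  refine ⟨(d : ℚ)⁻¹, -((d : ℚ)⁻¹ * (d : ℚ)⁻¹), hv, (by simpa using (hv.mul hv).neg),
    kap (d : ℚ)⁻¹ * kap (d : ℚ)⁻¹ * xx ^ 2 * f, ?_, ?_⟩
  · exact mul_mem (mul_mem (mul_mem (kap_mem hv) (kap_mem hv)) (pow_mem xx_mem 2)) hf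
  · have h1 : kap (d : ℚ)⁻¹ * (d : A2) = 1 := by
      have : kap (d : ℚ) = (d : A2) := map_intCast kap d
      rw [← this, ← map_mul, inv_mul_cancel₀ hd0, map_one]
    set e := kap (d : ℚ)⁻¹ with he
    have h2 : kap (-((d : ℚ)⁻¹ * (d : ℚ)⁻¹)) = -(e * e) := by
      rw [map_neg, map_mul]
    rw [h2]
    set D := (d : A2)
    set P := (p : A2)
    -- `e - P e² s + P² e² s² f = f`
    have h3 : e * D = 1 := h1
    have h4 : P * xx * f = 1 - D * f := by rw [← hfd]; ring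
    have h5 : P ^ 2 * (e * e * xx ^ 2 * f) = e * e * (P * xx) * (P * xx * f) := by ring
    rw [h5, h4]
    have h6 : e * e * (P * xx) * (1 - D * f) = e * e * P * xx - (e * D) * e * (P * xx * f) := by ring
    rw [h6, h3, h4]
    have h7 : 1 * e * (1 - D * f) = e - (e * D) * f := by ring
    rw [h7, h3]
    ring

end

end C54

end Z579
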