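import Pool.Agent.Lib.Z579.C54a

/-!
# The class polynomials and the gain of one or two powers of `p`
-/

open Polynomial Finset

namespace Z579

namespace C54

/-- the homogeneous form of the degenerate polynomial -/
def PQ {R : Type*} [CommRing R] (Y H : R) : R :=
  Y ^ 6 - 3 * Y ^ 5 * H + 12 * Y ^ 4 * H ^ 2 - 19 * Y ^ 3 * H ^ 3 + 15 * Y ^ 2 * H ^ 4 -
    6 * Y * H ^ 5 + H ^ 6

lemma map_PQ {R S : Type*} [CommRing R] [CommRing S] (f : R →+* S) (Y H : R) :
    f (PQ Y H) = PQ (f Y) (f H) := by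
  unfold PQ
  simp only [map_add, map_sub, map_mul, map_pow, map_ofNat]

lemma PQ_scale {R : Type*} [CommRing R] (a Y H : R) : PQ (a * Y) (a * H) = a ^ 6 * PQ Y H := by
  unfold PQ
  ring

/-- the class polynomial of degree `6` -/
noncomputable def PiC (p : ℕ) (c : ℤ) : ℤ[X] := PQ (X - C (c ^ 2)) (C (-2 * c * p))

/-- class polynomials -/
noncomputable def polZ (p : ℕ) (c : ℤ) (n : ℕ) : ℤ[X] :=
  if n < 6 then (X - C (c ^ 2)) ^ n else PiC p c

lemma PiC_natDegree_le (p : ℕ) (c : ℤ) : (PiC p c).natDegree ≤ 6 := by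
  unfold PiC PQ
  compute_degree!

lemma PiC_coeff (p : ℕ) (c : ℤ) : (PiC p c).coeff 6 = 1 := by
  unfold PiC PQ
  compute_degree!

lemma PiC_monic (p : ℕ) (c : ℤ) : (PiC p c).Monic :=
  monic_of_natDegree_le_of_coeff_eq_one 6 (PiC_natDegree_le p c) (PiC_coeff p c)

lemma PiC_natDegree (p : ℕ) (c : ℤ) : (PiC p c).natDegree = 6 :=
  le_antisymm (PiC_natDegree_le p c) (le_natDegree_of_ne_zero (by rw [PiC_coeff]; exact one_ne_zero))

lemma polZ_monic (p : ℕ) (c : ℤ) (n : ℕ) : (polZ p c n).Monic := by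
  unfold polZ
  split_ifs
  · exact (monic_X_sub_C _).pow _
  · exact PiC_monic p c

lemma polZ_natDegree (p : ℕ) (c : ℤ) {n : ℕ} (hn : n ≤ 6) : (polZ p c n).natDegree = n := by
  unfold polZ
  split_ifs with h
  · rw [(monic_X_sub_C _).natDegree_pow, natDegree_X_sub_C, mul_one]
  · rw [PiC_natDegree]; omega

/-- the variable `v = -c + p s` -/
noncomputable def vv (p : ℕ) (c : ℤ) : A2 := ((-c : ℤ) : A2) + (p : A2) * xx

/-- `(v² - c²) / p` -/
noncomputable def tau (p : ℕ) (c : ℤ) : A2 := (-2 * (c : A2)) * xx + (p : A2) * xx ^ 2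

lemma vv_sq (p : ℕ) (c : ℤ) : vv p c ^ 2 - (c : A2) ^ 2 = (p : A2) * tau p c := by
  unfold vv tau
  push_cast
  ring

/-- the class factors -/
noncomputable def VV (p : ℕ) (c : ℤ) (n : ℕ) : A2 :=
  if n < 6 then tau p c ^ n else PQ (tau p c) (-2 * (c : A2))

lemma aeval_X_sub (p : ℕ) (c : ℤ) :
    Polynomial.aeval (vv p c ^ 2) (X - C (c ^ 2) : ℤ[X]) = (p : A2) * tau p c := by
  rw [map_sub, Polynomial.aeval_X, Polynomial.aeval_C, ← vv_sq]
  congr 1
  rw [eq_intCast (algebraMap ℤ A2)]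
  push_cast
  rfl

lemma aeval_polZ (p : ℕ) (c : ℤ) {n : ℕ} (hn : n ≤ 6) :
    Polynomial.aeval (vv p c ^ 2) (polZ p c n) = (p : A2) ^ n * VV p c n := by
  unfold polZ VV
  split_ifs with h
  · rw [map_pow, aeval_X_sub, mul_pow]
  · have h6 : n = 6 := by omega
    subst h6
    have h1 : Polynomial.aeval (vv p c ^ 2) (C (-2 * c * p) : ℤ[X]) =
        (p : A2) * (-2 * (c : A2)) := by
      rw [Polynomial.aeval_C, eq_intCast (algebraMap ℤ A2)]
      push_cast
      ring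
    have h2 := map_PQ (Polynomial.aeval (R := ℤ) (vv p c ^ 2)).toRingHom (X - C (c ^ 2))
      (C (-2 * c * p))
    simp only [AlgHom.toRingHom_eq_coe, RingHom.coe_coe] at h2
    rw [PiC, h2, aeval_X_sub, h1, PQ_scale]

section
variable {p : ℕ} [hp : Fact p.Prime]

lemma p_mem : (p : A2) ∈ SS p := natCast_mem _ _

lemma h_mem (c : ℤ) : (-2 * (c : A2)) ∈ SS p := by
  have := intCast_mem (SS p) (-2 * c)
  push_cast at this
  exact this

lemma tau_mem (c : ℤ) : tau p c ∈ SS p :=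
  add_mem (mul_mem (h_mem c) xx_mem) (mul_mem p_mem (pow_mem xx_mem 2))

lemma of_mem (n : ℕ) [n.AtLeastTwo] : (OfNat.ofNat n : A2) ∈ SS p := ofNat_mem _ _

lemma VV_mem (c : ℤ) (n : ℕ) : VV p c n ∈ SS p := by
  unfold VV PQ
  have ht := tau_mem (p := p) c
  have hh := h_mem (p := p) c
  split_ifs
  · exact pow_mem ht _
  · refine add_mem (sub_mem (add_mem (sub_mem (add_mem (sub_mem (pow_mem ht _) ?_) ?_) ?_) ?_) ?_)
      (pow_mem hh _)
    · exact mul_mem (mul_mem (of_mem 3) (pow_mem ht _)) hh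
    · exact mul_mem (mul_mem (of_mem 12) (pow_mem ht _)) (pow_mem hh _)
    · exact mul_mem (mul_mem (of_mem 19) (pow_mem ht _)) (pow_mem hh _)
    · exact mul_mem (mul_mem (of_mem 15) (pow_mem ht _)) (pow_mem hh _)
    · exact mul_mem (mul_mem (of_mem 6) ht) (pow_mem hh _)

lemma VV_six (c : ℤ) : ∃ U ∈ SS p, VV p c 6 = (-2 * (c : A2)) ^ 6 * pe +
    (p : A2) * ((-2 * (c : A2)) ^ 5 * xx ^ 2 * de) + (p : A2) ^ 2 * U := by
  have hh := h_mem (p := p) c
  have hx := xx_mem (p := p)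
  have hP := p_mem (p := p)
  refine ⟨15 * (-2 * (c : A2)) ^ 4 * xx ^ 4 - 57 * (-2 * (c : A2)) ^ 4 * xx ^ 5 +
    72 * (-2 * (c : A2)) ^ 4 * xx ^ 6 - 30 * (-2 * (c : A2)) ^ 4 * xx ^ 7 +
    15 * (-2 * (c : A2)) ^ 4 * xx ^ 8 - 19 * (p : A2) * (-2 * (c : A2)) ^ 3 * xx ^ 6 +
    48 * (p : A2) * (-2 * (c : A2)) ^ 3 * xx ^ 7 - 30 * (p : A2) * (-2 * (c : A2)) ^ 3 * xx ^ 8 +
    20 * (p : A2) * (-2 * (c : A2)) ^ 3 * xx ^ 9 + 12 * (p : A2) ^ 2 * (-2 * (c : A2)) ^ 2 * xx ^ 8 -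
    15 * (p : A2) ^ 2 * (-2 * (c : A2)) ^ 2 * xx ^ 9 + 15 * (p : A2) ^ 2 * (-2 * (c : A2)) ^ 2 * xx ^ 10 -
    3 * (p : A2) ^ 3 * (-2 * (c : A2)) * xx ^ 10 + 6 * (p : A2) ^ 3 * (-2 * (c : A2)) * xx ^ 11 +
    (p : A2) ^ 4 * xx ^ 12, ?_, ?_⟩
  · have key : ∀ (n : ℕ) [n.AtLeastTwo] (a b : A2), a ∈ SS p → b ∈ SS p →
        (OfNat.ofNat n : A2) * a * b ∈ SS p := fun n _ a b ha hb =>
      mul_mem (mul_mem (of_mem n) ha) hb
    have key2 : ∀ (n : ℕ) [n.AtLeastTwo] (a b d : A2), a ∈ SS p → b ∈ SS p → d ∈ SS p →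
        (OfNat.ofNat n : A2) * a * b * d ∈ SS p := fun n _ a b d ha hb hd =>
      mul_mem (mul_mem (mul_mem (of_mem n) ha) hb) hd
    have hx' : ∀ k : ℕ, xx ^ k ∈ SS p := fun k => pow_mem hx k
    have hh' : ∀ k : ℕ, (-2 * (c : A2)) ^ k ∈ SS p := fun k => pow_mem hh k
    have hP' : ∀ k : ℕ, (p : A2) ^ k ∈ SS p := fun k => pow_mem hP k
    refine add_mem (add_mem (sub_mem (add_mem (sub_mem (add_mem (add_mem (sub_mem (add_mem
      (sub_mem (add_mem (sub_mem (add_mem (sub_mem ?_ ?_) ?_) ?_) ?_) ?_) ?_) ?_) ?_) ?_) ?_)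
      ?_) ?_) ?_) ?_
    · exact key 15 _ _ (hh' _) (hx' _)
    · exact key 57 _ _ (hh' _) (hx' _)
    · exact key 72 _ _ (hh' _) (hx' _)
    · exact key 30 _ _ (hh' _) (hx' _)
    · exact key 15 _ _ (hh' _) (hx' _)
    · exact key2 19 _ _ _ hP (hh' _) (hx' _)
    · exact key2 48 _ _ _ hP (hh' _) (hx' _)
    · exact key2 30 _ _ _ hP (hh' _) (hx' _)
    · exact key2 20 _ _ _ hP (hh' _) (hx' _)
    · exact key2 12 _ _ _ (hP' _) (hh' _) (hx' _)
    · exact key2 15 _ _ _ (hP' _) (hh' _) (hx' _)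
    · exact key2 15 _ _ _ (hP' _) (hh' _) (hx' _)
    · exact key2 3 _ _ _ (hP' _) hh (hx' _)
    · exact key2 6 _ _ _ (hP' _) hh (hx' _)
    · exact mul_mem (hP' _) (hx' _)
  · unfold VV
    rw [if_neg (lt_irrefl 6)]
    unfold tau pe de PQ
    ring

lemma pow_split {a b : A2} (ha : a ∈ SS p) (hb : b ∈ SS p) (n : ℕ) :
    ∃ w ∈ SS p, (a + (p : A2) * b) ^ n = a ^ n + (p : A2) * w := by
  induction n with
  | zero => exact ⟨0, zero_mem _, by ring⟩
  | succ n ih =>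
    obtain ⟨w, hw, h⟩ := ih
    refine ⟨a ^ n * b + w * (a + (p : A2) * b), ?_, ?_⟩
    · exact add_mem (mul_mem (pow_mem ha n) hb) (mul_mem hw (add_mem ha (mul_mem p_mem hb)))
    · rw [pow_succ, h]; ring

lemma VG_ppow (k : ℕ) {x : ℚ} (hx : VG p 0 x) : VG p k ((p : ℚ) ^ k * x) := by
  have h1 : VG p 1 (p : ℚ) := by
    have := VG.of_dvd (p := p) (n := (p : ℤ)) dvd_rfl
    simpa using this
  have := (h1.pow k).mul hx
  simpa using this

/-- no gain -/
lemma Lam_case1 (c : ℤ) (n n' : ℕ) {E : A2} (hE : E ∈ SS p) :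
    VG p ((n : ℝ) + n') (Lam ((p : A2) ^ n * VV p c n * ((p : A2) ^ n' * VV p c n') * E)) := by
  have h1 : (p : A2) ^ n * VV p c n * ((p : A2) ^ n' * VV p c n') * E =
      (p : A2) ^ (n + n') * (VV p c n * VV p c n' * E) := by ring
  rw [h1, Lam_natCast_pow]
  have := VG_ppow (p := p) (n + n') (VG_Lam (mul_mem (mul_mem (VV_mem c n) (VV_mem c n')) hE))
  push_cast at this
  exact this

/-- gain of one power -/
lemma Lam_case2 (c : ℤ) {n : ℕ} (hn : n < 6) {E : A2} (hE : E ∈ S1 p) :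
    VG p ((n : ℝ) + 7) (Lam ((p : A2) ^ n * VV p c n * ((p : A2) ^ 6 * VV p c 6) * E)) := by
  obtain ⟨U, hU, hV6⟩ := VV_six (p := p) c
  obtain ⟨w, hw, hVn⟩ := pow_split (p := p) (mul_mem (h_mem (p := p) c) (xx_mem (p := p)))
    (pow_mem (xx_mem (p := p)) 2) n
  have hVn' : VV p c n = ((-2 * (c : A2)) * xx) ^ n + (p : A2) * w := by
    rw [← hVn]
    unfold VV
    rw [if_pos hn, tau]
  obtain ⟨a, b, ha, hb, g, hg, hE'⟩ := hE
  set h := (-2 * (c : A2)) with hh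
  have hhm : h ∈ SS p := h_mem c
  have hx := xx_mem (p := p)
  have hpe : pe ∈ SS p := by
    unfold pe
    exact add_mem (sub_mem (add_mem (sub_mem (add_mem (sub_mem (pow_mem hx _)
      (mul_mem (of_mem 3) (pow_mem hx _))) (mul_mem (of_mem 12) (pow_mem hx _)))
      (mul_mem (of_mem 19) (pow_mem hx _))) (mul_mem (of_mem 15) (pow_mem hx _)))
      (mul_mem (of_mem 6) hx)) (one_mem _)
  have hde : de ∈ SS p := by
    unfold de
    exact sub_mem (add_mem (sub_mem (add_mem (sub_mem (mul_mem (of_mem 6) (pow_mem hx _))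
      (mul_mem (of_mem 15) (pow_mem hx _))) (mul_mem (of_mem 48) (pow_mem hx _)))
      (mul_mem (of_mem 57) (pow_mem hx _))) (mul_mem (of_mem 30) hx)) (of_mem 6)
  have hP := p_mem (p := p)
  have ha' := kap_mem (p := p) ha
  have hb' := kap_mem (p := p) hb
  -- `V_n V_6 E = h^(n+6) a x^n pe + p * R`
  obtain ⟨R, hR, hprod⟩ : ∃ R ∈ SS p, VV p c n * VV p c 6 * E =
      kap a * (h ^ (n + 6) * (pe * xx ^ n)) + (p : A2) * R := by
    refine ⟨w * VV p c 6 * E + (h * xx) ^ n * (h ^ 5 * xx ^ 2 * de + (p : A2) * U) * E +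
      (h * xx) ^ n * (h ^ 6 * pe) * (kap b * xx + (p : A2) * g), ?_, ?_⟩
    · have hEm : E ∈ SS p := S1_le ⟨a, b, ha, hb, g, hg, hE'⟩
      refine add_mem (add_mem (mul_mem (mul_mem hw (VV_mem c 6)) hEm) (mul_mem (mul_mem
        (pow_mem (mul_mem hhm hx) n) (add_mem (mul_mem (mul_mem (pow_mem hhm 5) (pow_mem hx 2)) hde)
        (mul_mem hP hU))) hEm)) (mul_mem (mul_mem (pow_mem (mul_mem hhm hx) n)
        (mul_mem (pow_mem hhm 6) hpe)) (add_mem (mul_mem hb' hx) (mul_mem hP hg)))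
    · have e1 : VV p c n * VV p c 6 * E = (h * xx) ^ n * (h ^ 6 * pe) * E +
          (p : A2) * (w * VV p c 6 * E + (h * xx) ^ n * (h ^ 5 * xx ^ 2 * de + (p : A2) * U) * E) := by
        have e2 : VV p c n * VV p c 6 * E = ((h * xx) ^ n + (p : A2) * w) * VV p c 6 * E := by
          rw [← hVn']
        have e3 : ((h * xx) ^ n + (p : A2) * w) * VV p c 6 * E = (h * xx) ^ n * VV p c 6 * E +
          (p : A2) * (w * VV p c 6 * E) := by ring
        rw [e2, e3]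
        have e4 : (h * xx) ^ n * VV p c 6 * E = (h * xx) ^ n * (h ^ 6 * pe) * E +
          (p : A2) * ((h * xx) ^ n * (h ^ 5 * xx ^ 2 * de + (p : A2) * U) * E) := by
          rw [hV6]; ring
        rw [e4]; ring
      have e5 : (h * xx) ^ n * (h ^ 6 * pe) * E = kap a * (h ^ (n + 6) * (pe * xx ^ n)) +
          (p : A2) * ((h * xx) ^ n * (h ^ 6 * pe) * (kap b * xx + (p : A2) * g)) := by
        rw [hE', mul_pow]; ring
      rw [e1, e5]; ring
  have h1 : (p : A2) ^ n * VV p c n * ((p : A2) ^ 6 * VV p c 6) * E =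
      (p : A2) ^ (n + 6) * (VV p c n * VV p c 6 * E) := by ring
  have hker : Lam (kap a * (h ^ (n + 6) * (pe * xx ^ n))) = 0 := by
    have hk : h = kap (-2 * (c : ℚ)) := by
      rw [map_mul, map_neg, map_ofNat, map_intCast]
    rw [Lam_kap, hk, ← map_pow, Lam_kap, Lam_orth n (by omega)]
    simp
  have h2 : Lam ((p : A2) ^ (n + 6) * (VV p c n * VV p c 6 * E)) =
      (p : ℚ) ^ (n + 7) * Lam R := by
    rw [Lam_natCast_pow, hprod, map_add, hker, Lam_natCast]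
    ring
  rw [h1, h2]
  have := VG_ppow (p := p) (n + 7) (VG_Lam hR)
  push_cast at this
  exact this

/-- gain of two powers -/
lemma Lam_case3 (c : ℤ) {E : A2} (hE : E ∈ S1 p) :
    VG p 14 (Lam ((p : A2) ^ 6 * VV p c 6 * ((p : A2) ^ 6 * VV p c 6) * E)) := by
  obtain ⟨U, hU, hV6⟩ := VV_six (p := p) c
  obtain ⟨a, b, ha, hb, g, hg, hE'⟩ := hE
  have hEm : E ∈ SS p := S1_le ⟨a, b, ha, hb, g, hg, hE'⟩
  set h := (-2 * (c : A2)) with hh
  have hhm : h ∈ SS p := h_mem c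
  have hx := xx_mem (p := p)
  have hpe : pe ∈ SS p := by
    unfold pe
    exact add_mem (sub_mem (add_mem (sub_mem (add_mem (sub_mem (pow_mem hx _)
      (mul_mem (of_mem 3) (pow_mem hx _))) (mul_mem (of_mem 12) (pow_mem hx _)))
      (mul_mem (of_mem 19) (pow_mem hx _))) (mul_mem (of_mem 15) (pow_mem hx _)))
      (mul_mem (of_mem 6) hx)) (one_mem _)
  have hde : de ∈ SS p := by
    unfold de
    exact sub_mem (add_mem (sub_mem (add_mem (sub_mem (mul_mem (of_mem 6) (pow_mem hx _))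
      (mul_mem (of_mem 15) (pow_mem hx _))) (mul_mem (of_mem 48) (pow_mem hx _)))
      (mul_mem (of_mem 57) (pow_mem hx _))) (mul_mem (of_mem 30) hx)) (of_mem 6)
  have hP := p_mem (p := p)
  have ha' := kap_mem (p := p) ha
  have hb' := kap_mem (p := p) hb
  -- `V = V0 + p V1 + p² U`
  set V0 := h ^ 6 * pe with hV0
  set V1 := h ^ 5 * xx ^ 2 * de with hV1
  have hV0m : V0 ∈ SS p := mul_mem (pow_mem hhm 6) hpe
  have hV1m : V1 ∈ SS p := mul_mem (mul_mem (pow_mem hhm 5) (pow_mem hx 2)) hde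
  have hVV := VV_mem (p := p) c 6
  obtain ⟨R, hR, hprod⟩ : ∃ R ∈ SS p, VV p c 6 * VV p c 6 * E =
      kap a * (V0 * V0) + (p : A2) * (kap b * (V0 * V0 * xx) + kap a * (2 * (V0 * V1))) +
        (p : A2) ^ 2 * R := by
    refine ⟨(V1 * V1 + U * (VV p c 6 + (V0 + (p : A2) * V1))) * E + V0 * V0 * g +
      2 * (V0 * V1) * (kap b * xx + (p : A2) * g), ?_, ?_⟩
    · refine add_mem (add_mem (mul_mem (add_mem (mul_mem hV1m hV1m) (mul_mem hU (add_mem hVV
        (add_mem hV0m (mul_mem hP hV1m))))) hEm) (mul_mem (mul_mem hV0m hV0m) hg))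
        (mul_mem (mul_mem (of_mem 2) (mul_mem hV0m hV1m)) (add_mem (mul_mem hb' hx) (mul_mem hP hg)))
    · have e1 : VV p c 6 * VV p c 6 = V0 * V0 + (p : A2) * (2 * (V0 * V1)) +
          (p : A2) ^ 2 * (V1 * V1 + U * (VV p c 6 + (V0 + (p : A2) * V1))) := by
        rw [hV6]; ring
      rw [e1]
      have e2 : (V0 * V0 + (p : A2) * (2 * (V0 * V1)) +
          (p : A2) ^ 2 * (V1 * V1 + U * (VV p c 6 + (V0 + (p : A2) * V1)))) * E =
          V0 * V0 * E + (p : A2) * (2 * (V0 * V1)) * E +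
          (p : A2) ^ 2 * ((V1 * V1 + U * (VV p c 6 + (V0 + (p : A2) * V1))) * E) := by ring
      rw [e2]
      have e3 : V0 * V0 * E = kap a * (V0 * V0) + (p : A2) * (kap b * (V0 * V0 * xx)) +
          (p : A2) ^ 2 * (V0 * V0 * g) := by rw [hE']; ring
      have e4 : (p : A2) * (2 * (V0 * V1)) * E = (p : A2) * (kap a * (2 * (V0 * V1))) +
          (p : A2) ^ 2 * (2 * (V0 * V1) * (kap b * xx + (p : A2) * g)) := by rw [hE']; ring
      rw [e3, e4]
      ring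
  have hk : h = kap (-2 * (c : ℚ)) := by
    rw [map_mul, map_neg, map_ofNat, map_intCast]
  have hk0 : Lam (V0 * V0) = 0 := by
    have e : V0 * V0 = kap ((-2 * (c : ℚ)) ^ 12) * (pe * Polynomial.aeval xx
        (X ^ 6 - 3 * X ^ 5 + 12 * X ^ 4 - 19 * X ^ 3 + 15 * X ^ 2 - 6 * X + 1 : ℚ[X])) := by
      rw [map_pow, ← hk, hV0]
      simp only [map_add, map_sub, map_mul, map_pow, Polynomial.aeval_X, map_ofNat, map_one]
      unfold pe
      ring
    rw [e, Lam_kap, Lam_orth', mul_zero]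
    refine lt_of_le_of_lt (b := 6) ?_ (by norm_num)
    compute_degree
  have hk1 : Lam (V0 * V0 * xx) = 0 := by
    have e : V0 * V0 * xx = kap ((-2 * (c : ℚ)) ^ 12) * (pe * Polynomial.aeval xx
        ((X ^ 6 - 3 * X ^ 5 + 12 * X ^ 4 - 19 * X ^ 3 + 15 * X ^ 2 - 6 * X + 1) * X : ℚ[X])) := by
      rw [map_pow, ← hk, hV0]
      simp only [map_add, map_sub, map_mul, map_pow, Polynomial.aeval_X, map_ofNat, map_one]
      unfold pe
      ring
    rw [e, Lam_kap, Lam_orth', mul_zero]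
    refine lt_of_le_of_lt (b := 7) ?_ (by norm_num)
    compute_degree
  have hk2 : Lam (2 * (V0 * V1)) = 0 := by
    have e : 2 * (V0 * V1) = kap (2 * (-2 * (c : ℚ)) ^ 11) * (pe * Polynomial.aeval xx
        (X ^ 2 * (6 * X ^ 5 - 15 * X ^ 4 + 48 * X ^ 3 - 57 * X ^ 2 + 30 * X - 6) : ℚ[X])) := by
      rw [map_mul kap 2, map_ofNat, map_pow, ← hk, hV0, hV1]
      simp only [map_add, map_sub, map_mul, map_pow, Polynomial.aeval_X, map_ofNat, map_one]
      unfold de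
      ring
    rw [e, Lam_kap, Lam_orth', mul_zero]
    refine lt_of_le_of_lt (b := 7) ?_ (by norm_num)
    compute_degree
  have h1 : (p : A2) ^ 6 * VV p c 6 * ((p : A2) ^ 6 * VV p c 6) * E =
      (p : A2) ^ 12 * (VV p c 6 * VV p c 6 * E) := by ring
  have h2 : Lam ((p : A2) ^ 12 * (VV p c 6 * VV p c 6 * E)) = (p : ℚ) ^ 14 * Lam R := by
    rw [Lam_natCast_pow, hprod, map_add, map_add, Lam_kap, hk0, Lam_natCast, map_add, Lam_kap,
      Lam_kap, hk1, hk2, Lam_natCast_pow]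
    ring
  rw [h1, h2]
  have := VG_ppow (p := p) 14 (VG_Lam hR)
  push_cast at this
  exact this

/-- slot values -/
noncomputable def th (n : ℕ) : ℝ := if n < 6 then 14 - 2 * (n : ℝ) else 0

/-- the main local estimate -/
theorem Lam_main (c : ℤ) {n n' : ℕ} (hn : n ≤ 6) (hn' : n' ≤ 6) {E : A2} (hE : E ∈ S1 p) :
    VG p (14 - (th n + th n') / 2)
      (Lam ((p : A2) ^ n * VV p c n * ((p : A2) ^ n' * VV p c n') * E)) := by
  unfold th
  rcases lt_or_ge n 6 with h | h <;> rcases lt_or_ge n' 6 with h' | h'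
  · rw [if_pos h, if_pos h']
    exact (Lam_case1 c n n' (S1_le hE)).mono (le_of_eq (by ring))
  · have : n' = 6 := by omega
    subst this
    rw [if_pos h, if_neg (lt_irrefl 6)]
    exact (Lam_case2 c h hE).mono (le_of_eq (by ring))
  · have : n = 6 := by omega
    subst this
    rw [if_neg (lt_irrefl 6), if_pos h', mul_comm ((p : A2) ^ 6 * VV p c 6)]
    exact (Lam_case2 c h' hE).mono (le_of_eq (by ring))
  · have h1 : n' = 6 := by omega
    have h2 : n = 6 := by omega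
    subst h1; subst h2
    rw [if_neg (lt_irrefl 6)]
    exact (Lam_case3 c hE).mono (le_of_eq (by ring))

end

end C54

end Z579
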