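import Pool.Agent.Lib.Z579.M6

open Polynomial Finset

namespace Z579

lemma oc_self (a : ℕ) : oc a a = ∅ := by
  ext w
  simp only [oc, Finset.mem_union, Finset.mem_Icc, Finset.notMem_empty, iff_false]
  omega

/-- General two-pole bound without outer points (`a = b`, `a ≤ p ≤ 2a-1`), every `l ≥ 0`. -/
theorem m6z (p r q B a m : ℕ) (ω : ℤ → ℕ → ℚ) (l : ℝ) (hl : 0 ≤ l)
    (hp : p.Prime) (hp2 : p ≠ 2) (hap : a ≤ p) (hpa : p + 1 ≤ 2 * a) (hpsq : 2 * a ≤ p ^ 2)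
    (hq : 1 ≤ q)
    (hω : ∀ u ∈ pc a, ∀ i : ℕ, 1 ≤ i → i ≤ q → VG p (-((i : ℝ) + r)) (ω u i))
    (hω' : ∀ u ∈ pc a, u + a - 1 < p → ∀ i : ℕ, 1 ≤ i → i ≤ q → VG p 0 (ω u i)) :
    VG p (-(l * m + (2 * (q : ℝ) + r + 1 - l) ^ 2 * (2 * (a : ℝ) - 1 - p) / 8))
      (hank (Lw r q B a a ω) m) := by
  have ha : 1 ≤ a := by
    by_contra h
    have : a = 0 := by omega
    subst this
    omega
  have hpa' : p ≤ 2 * a - 1 := by omega
  have h1 := m6_two p r q B a a m ω l hl hp hp2 ha le_rfl (by omega) hq hω hω'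
  refine VG_mono h1 (neg_le_neg ?_)
  rw [sum_filter_Ip p (fun c => 2 ≤ cnt p (pc a) c)
    (fun c => by rw [cnt_neg (fun w hw => pc_neg hw)]) (cnt_zero hp ha hap)
    (fun c => ((r : ℝ) - (Scl p q B a a c : ℝ) + 1 - l) ^ 2)
    (fun c => by simp only [Scl_even])]
  have h2 : ∀ c ∈ (Rp p).filter (fun c => 2 ≤ cnt p (pc a) c),
      ((r : ℝ) - (Scl p q B a a c : ℝ) + 1 - l) ^ 2 = (2 * (q : ℝ) + r + 1 - l) ^ 2 := by
    intro c hc
    rw [Finset.mem_filter] at hc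
    have h3 : cnt p (pc a) c = 2 := le_antisymm (cnt_pc_le hp ha hap c) hc.2
    have h4 : cnt p (oc a a) c = 0 := by
      unfold cnt
      rw [oc_self]
      simp
    rw [Scl_eq, h3, h4]
    push_cast
    ring
  rw [Finset.sum_congr rfl h2, Finset.sum_const, card_two hp hp2 ha hap hpa', nsmul_eq_mul,
    Nat.cast_sub hpa', Nat.cast_sub (show 1 ≤ 2 * a by omega)]
  push_cast
  linarith

end Z579
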