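import Pool.Agent.Lib.Z579.M8c

/-!
# Nonvanishing of the Hankel determinant: two-pole classes without outer zeros
-/

open Polynomial Finset

namespace Z579

section
variable {p : ℕ} [hp : Fact p.Prime]

/-- local expansion of `base` at a pole of a two-pole class without outer points -/
lemma base_two0 {q B a b : ℕ} {u w1 l1 : ℤ} (hw1 : w1 ∈ (pc a).erase u)
    (h1 : w1 - u = p * l1) (hl1 : (l1 : ZMod p) ≠ 0)
    (hi : ∀ w ∈ ((pc a).erase u).erase w1, ((w - u : ℤ) : ZMod p) ≠ 0) :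
    ∃ F : PowerSeries ℚ,
      PowerSeries.rescale (p : ℚ) (base q B a b u) =
        PowerSeries.C ((p : ℚ) ^ (-(q : ℤ))) * F ∧
      Red p F (PowerSeries.C (2 * ((-u : ℤ) : ZMod p) *
          (∏ w ∈ (oc a b), ((w - u : ℤ) : ZMod p)) ^ B *
          ((∏ w ∈ ((pc a).erase u).erase w1, ((w - u : ℤ) : ZMod p))⁻¹) ^ q) *
        ((linp p l1)⁻¹) ^ q) := by
  have hp0 : (p : ℚ) ≠ 0 := by exact_mod_cast hp.out.ne_zero
  have hne : PowerSeries.constantCoeff (∏ w ∈ (pc a).erase u, lin (w - u)) ≠ 0 :=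
    constantCoeff_prod_lin_ne fun w hw => (Finset.mem_erase.1 hw).1
  set Po : PowerSeries ℚ := ∏ w ∈ (oc a b), PowerSeries.rescale (p : ℚ) (lin (w - u))
    with hPo
  set Pi : PowerSeries ℚ := ∏ w ∈ ((pc a).erase u).erase w1,
    PowerSeries.rescale (p : ℚ) (lin (w - u)) with hPi
  refine ⟨2 * PowerSeries.rescale (p : ℚ) (lin (-u)) * Po ^ B *
    ((lin l1)⁻¹ * Pi⁻¹) ^ q, ?_, ?_⟩
  · rw [base]
    simp only [map_mul, map_pow]
    rw [rescale_inv _ _ hne, map_prod, map_prod,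
      ← Finset.mul_prod_erase _ _ hw1, resc_lin_p l1 h1, ← hPo, ← hPi]
    have h3 : PowerSeries.rescale (p : ℚ) (2 : PowerSeries ℚ) = 2 := map_ofNat _ 2
    rw [h3, PowerSeries.mul_inv_rev, PowerSeries.mul_inv_rev]
    have h4 : PowerSeries.C ((p : ℚ) ^ (-(q : ℤ))) =
        ((PowerSeries.C (p : ℚ))⁻¹) ^ q := by
      rw [PowerSeries.C_inv, ← map_pow]
      congr 1
      rw [zpow_neg, zpow_natCast, inv_pow]
    rw [h4]
    ring
  · have hRo : Red p Po (PowerSeries.C (∏ w ∈ (oc a b), ((w - u : ℤ) : ZMod p))) := by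
      rw [map_prod]
      exact Red_prod _ _ _ fun w _ => Red_resc_lin _
    have hRi : Red p Pi (PowerSeries.C (∏ w ∈ ((pc a).erase u).erase w1,
        ((w - u : ℤ) : ZMod p))) := by
      rw [map_prod]
      exact Red_prod _ _ _ fun w _ => Red_resc_lin _
    have hRi' : Red p Pi⁻¹ (PowerSeries.C ((∏ w ∈ ((pc a).erase u).erase w1,
        ((w - u : ℤ) : ZMod p))⁻¹)) := by
      rw [← PowerSeries.C_inv]
      refine Red_inv hRi ?_
      rw [PowerSeries.constantCoeff_C]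
      exact Finset.prod_ne_zero_iff.2 hi
    have hRl : Red p (lin l1)⁻¹ (linp p l1)⁻¹ := by
      refine Red_inv (Red_lin l1) ?_
      rw [constantCoeff_linp]; exact hl1
    have key := Red_mul (Red_mul (Red_mul Red_two (Red_resc_lin (p := p) (-u)))
      (Red_pow hRo B)) (Red_pow (Red_mul hRl hRi') q)
    convert key using 1
    simp only [map_mul, map_pow, mul_pow]
    ring

/-- partial fraction coefficients at a two-pole class -/
lemma Acoef_two0 {q B a b : ℕ} {D : Finset ℤ} {n : ℤ → ℕ} {c u w1 l0 l1 : ℤ} (hc : c ∈ D)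
    (h0 : -u + c = p * l0) (hw1 : w1 ∈ (pc a).erase u)
    (h1 : w1 - u = p * l1) (hl1 : (l1 : ZMod p) ≠ 0)
    (hi : ∀ w ∈ ((pc a).erase u).erase w1, ((w - u : ℤ) : ZMod p) ≠ 0) {i : ℕ} (hiq : i ≤ q) :
    ∃ x : ℚ, Acoef q B a b u i (PolyN D n) = (p : ℚ) ^ ((n c : ℤ) + (0 : ℕ) + i - 2 * q) * x ∧
      red p x (PowerSeries.coeff (q - i) (PowerSeries.C ((2 * ((-u : ℤ) : ZMod p) *
          (∏ w ∈ oc a b, ((w - u : ℤ) : ZMod p)) ^ B *
          ((∏ w ∈ ((pc a).erase u).erase w1, ((w - u : ℤ) : ZMod p))⁻¹) ^ q) *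
          (((-u - c : ℤ) : ZMod p) ^ (n c) *
          ∏ d ∈ D.erase c, (((-u - d) * (-u + d) : ℤ) : ZMod p) ^ (n d))) *
        (linp p l0 ^ (n c) * ((linp p l1)⁻¹) ^ q))) := by
  have hp0 : (p : ℚ) ≠ 0 := by exact_mod_cast hp.out.ne_zero
  obtain ⟨F1, hF1, hR1⟩ := base_two0 (q := q) (B := B) (b := b) hw1 h1 hl1 hi
  obtain ⟨F2, hF2, hR2⟩ := aeval_two (p := p) (n := n) hc h0
  have hR := Red_mul hR1 hR2
  refine ⟨PowerSeries.coeff (q - i) (F1 * F2), ?_, ?_⟩
  · rw [Acoef_apply]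
    have h3 : PowerSeries.coeff (q - i) (PowerSeries.rescale (p : ℚ)
        (base q B a b u * Polynomial.aeval (lin (-u) ^ 2) (PolyN D n))) =
        (p : ℚ) ^ (-(q : ℤ) + n c) * PowerSeries.coeff (q - i) (F1 * F2) := by
      rw [map_mul, hF1, hF2]
      have : PowerSeries.C ((p : ℚ) ^ (-(q : ℤ))) * F1 * (PowerSeries.C ((p : ℚ) ^ (n c)) * F2) =
          PowerSeries.C ((p : ℚ) ^ (-(q : ℤ) + n c)) * (F1 * F2) := by
        rw [zpow_add₀ hp0, zpow_natCast, map_mul]; ring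
      rw [this, PowerSeries.coeff_C_mul]
    rw [PowerSeries.coeff_rescale] at h3
    have h4 : (p : ℚ) ^ (q - i) ≠ 0 := pow_ne_zero _ hp0
    have h5 : (p : ℚ) ^ ((n c : ℤ) + (0 : ℕ) + i - 2 * q) * (p : ℚ) ^ (q - i) =
        (p : ℚ) ^ (-(q : ℤ) + n c) := by
      rw [← zpow_natCast (p : ℚ) (q - i), ← zpow_add₀ hp0]
      congr 1
      push_cast [hiq]
      ring
    have h6 : (p : ℚ) ^ (q - i) * PowerSeries.coeff (q - i)
        (base q B a b u * Polynomial.aeval (lin (-u) ^ 2) (PolyN D n)) =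
        (p : ℚ) ^ (q - i) * ((p : ℚ) ^ ((n c : ℤ) + (0 : ℕ) + i - 2 * q) *
          PowerSeries.coeff (q - i) (F1 * F2)) := by
      rw [h3, ← h5]; ring
    exact mul_left_cancel₀ h4 h6
  · have := hR (q - i)
    convert this using 2
    rw [map_mul]
    ring

/-- residue constant attached to a class -/
noncomputable def Kc0 (p : ℕ) [Fact p.Prime] (q B a b : ℕ) (D : Finset ℤ) (n : ℤ → ℕ) (c : ℤ) :
    ZMod p :=
  (2 * (-(c : ZMod p)) * (∏ w ∈ (oc a b), ((w : ZMod p) - c)) ^ B *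
    ((∏ w ∈ ((pc a).erase c).erase (c - p), ((w : ZMod p) - c))⁻¹) ^ q) *
    ((-2 * (c : ZMod p)) ^ (n c) * ∏ d ∈ D.erase c, ((c : ZMod p) ^ 2 - d ^ 2) ^ (n d))

/-- geometry of the two-pole classes without outer points -/
structure Geo0 (p a b : ℕ) (c : ℤ) : Prop where
  odd : p % 2 = 1
  hb : a + b ≤ 2 * p + 1
  ha : a ≤ p
  hab : a ≤ b
  c1 : (p : ℤ) - a + 1 ≤ c
  c2 : 2 * c ≤ p - 1

lemma Geo0.pos {a b : ℕ} {c : ℤ} (h : Geo0 p a b c) : 0 < c := by
  have := h.c1; have := h.ha; omega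

lemma Geo0.c_lt {a b : ℕ} {c : ℤ} (h : Geo0 p a b c) : c < p := by
  have := h.c2; have := h.pos; omega

lemma Geo0.a_pos {a b : ℕ} {c : ℤ} (h : Geo0 p a b c) : 1 ≤ a := by
  have := h.c1; have := h.c_lt; omega

/-- elements `w ≡ c (mod p)`, `|w| ≤ b-1` are `c-p, c` -/
lemma Geo0.cases {a b : ℕ} {c : ℤ} (h : Geo0 p a b c) {w : ℤ} (hw1 : 1 - (b : ℤ) ≤ w)
    (hw2 : w ≤ (b : ℤ) - 1) (hd : ((w - c : ℤ) : ZMod p) = 0) : w = c - p ∨ w = c := by
  rw [ZMod.intCast_zmod_eq_zero_iff_dvd] at hd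
  obtain ⟨k, hk⟩ := hd
  have h1 := h.pos
  have h2 := h.c2
  have h3 := h.hb
  have h4 := h.c_lt
  have h5 := h.c1
  have hk1 : -2 < k := by
    by_contra hcc
    push Not at hcc
    have : (p : ℤ) * k ≤ p * (-2) := mul_le_mul_of_nonneg_left hcc (by positivity)
    omega
  have hk2 : k < 1 := by
    by_contra hcc
    push Not at hcc
    have : (p : ℤ) * 1 ≤ p * k := mul_le_mul_of_nonneg_left hcc (by positivity)
    omega
  interval_cases k
  · left; omega
  · right; omega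

lemma Geo0.mem_c {a b : ℕ} {c : ℤ} (h : Geo0 p a b c) : c ∈ pc a := by
  rw [mem_pc]; have := h.c1; have := h.c2; have := h.pos; omega

lemma Geo0.mem_cp {a b : ℕ} {c : ℤ} (h : Geo0 p a b c) : c - p ∈ pc a := by
  rw [mem_pc]; have := h.c1; have := h.c2; have := h.pos; omega

lemma Geo0.ho {a b : ℕ} {c : ℤ} (h : Geo0 p a b c) :
    ∀ w ∈ (oc a b), ((w - c : ℤ) : ZMod p) ≠ 0 := by
  intro w hw h0
  rw [mem_oc] at hw
  have h1 := h.c1; have h2 := h.c2; have h3 := h.pos; have h4 := h.hb; have h5 := h.ha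
  have h8 := h.hab
  rcases h.cases (by omega) (by omega) h0 with h6 | h6
  · omega
  · omega

lemma Geo0.hi {a b : ℕ} {c : ℤ} (h : Geo0 p a b c) :
    ∀ w ∈ ((pc a).erase c).erase (c - p), ((w - c : ℤ) : ZMod p) ≠ 0 := by
  intro w hw h0
  rw [Finset.mem_erase, Finset.mem_erase, mem_pc] at hw
  have h1 := h.c1; have h2 := h.c2; have h3 := h.pos; have h4 := h.hb; have h5 := h.ha
  have h7 := h.hab
  rcases h.cases (by omega) (by omega) h0 with h6 | h6
  · exact hw.1 h6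
  · exact hw.2.1 h6

/-- coefficients at the pole `c` -/
lemma Acoef0_c {q B a b : ℕ} {D : Finset ℤ} {n : ℤ → ℕ} {c : ℤ} (h : Geo0 p a b c) (hc : c ∈ D)
    {i : ℕ} (hiq : i ≤ q) :
    ∃ x : ℚ, Acoef q B a b c i (PolyN D n) = (p : ℚ) ^ ((n c : ℤ) + (0 : ℕ) + i - 2 * q) * x ∧
      red p x (Kc0 p q B a b D n c * alp p q 0 (n c) (q - i)) := by
  have hpp := hp.out.pos
  obtain ⟨x, hx1, hx2⟩ := Acoef_two0 (p := p) (q := q) (B := B) (a := a) (b := b) (n := n)
    (c := c) (u := c) (w1 := c - p) (l0 := 0) (l1 := -1) hc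
    (by ring) (Finset.mem_erase.2 ⟨by omega, h.mem_cp⟩) (by ring)
    neg_one_ne h.hi hiq
  refine ⟨x, hx1, ?_⟩
  rw [PowerSeries.coeff_C_mul] at hx2
  have hK : Kc0 p q B a b D n c = 2 * ((-c : ℤ) : ZMod p) *
      (∏ w ∈ (oc a b), ((w - c : ℤ) : ZMod p)) ^ B *
      ((∏ w ∈ ((pc a).erase c).erase (c - p), ((w - c : ℤ) : ZMod p))⁻¹) ^ q *
      (((-c - c : ℤ) : ZMod p) ^ n c *
        ∏ d ∈ D.erase c, (((-c - d) * (-c + d) : ℤ) : ZMod p) ^ n d) := by
    rw [Kc0]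
    push_cast
    congr 1
    congr 1
    · ring
    · refine Finset.prod_congr rfl fun d _ => ?_
      ring
  rw [hK, alp, pow_zero, mul_one]
  exact hx2

/-- coefficients at the pole `c - p` -/
lemma Acoef0_cp {q B a b : ℕ} {D : Finset ℤ} {n : ℤ → ℕ} {c : ℤ} (h : Geo0 p a b c) (hc : c ∈ D)
    {i : ℕ} (hiq : i ≤ q) :
    ∃ x : ℚ, Acoef q B a b (c - p) i (PolyN D n) =
        (p : ℚ) ^ ((n c : ℤ) + (0 : ℕ) + i - 2 * q) * x ∧
      red p x (Kc0 p q B a b D n c * bep p q 0 (n c) (q - i)) := by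
  have hpp := hp.out.pos
  have hi' : ∀ w ∈ ((pc a).erase (c - p)).erase c, ((w - (c - p) : ℤ) : ZMod p) ≠ 0 := by
    intro w hw
    rw [cast_sub_p]
    rw [Finset.erase_right_comm] at hw
    have := h.hi w hw
    push_cast at this
    exact this
  obtain ⟨x, hx1, hx2⟩ := Acoef_two0 (p := p) (q := q) (B := B) (a := a) (b := b) (n := n)
    (c := c) (u := c - p) (w1 := c) (l0 := 1) (l1 := 1) hc
    (by ring) (Finset.mem_erase.2 ⟨by omega, h.mem_c⟩) (by ring)
    one_ne hi' hiq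
  · refine ⟨x, hx1, ?_⟩
    rw [PowerSeries.coeff_C_mul] at hx2
    have hK : Kc0 p q B a b D n c = 2 * ((-(c - p) : ℤ) : ZMod p) *
        (∏ w ∈ (oc a b), ((w - (c - p) : ℤ) : ZMod p)) ^ B *
        ((∏ w ∈ ((pc a).erase (c - p)).erase c, ((w - (c - p) : ℤ) : ZMod p))⁻¹) ^ q *
        (((-(c - p) - c : ℤ) : ZMod p) ^ n c *
          ∏ d ∈ D.erase c, (((-(c - p) - d) * (-(c - p) + d) : ℤ) : ZMod p) ^ n d) := by
      rw [Kc0, Finset.erase_right_comm (a := c) (b := c - p)]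
      simp only [cast_sub_p]
      push_cast
      simp only [CharP.cast_eq_zero, sub_zero]
      congr 1
      congr 1
      · ring
      · refine Finset.prod_congr rfl fun d _ => ?_
        ring
    rw [hK, bep, pow_zero, mul_one]
    exact hx2

/-- general form of the contribution of a pole in a two-pole class -/
lemma Su_two0 {r q B a b τ e k : ℕ} {ω : ℤ → ℕ → ℚ} {u : ℤ} {D : Finset ℤ} {n : ℤ → ℕ} {c : ℤ}
    (he : e + 0 = r + 2 * q) (hk : n c + τ = e + k)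
    (s : ℕ → ℤ) (y v : ℕ → ZMod p)
    (hA : ∀ i ∈ Finset.Icc 1 q, ∃ x : ℚ, Acoef q B a b u i (PolyN D n) =
      (s i : ℚ) * ((p : ℚ) ^ ((n c : ℤ) + (0 : ℕ) + i - 2 * q) * x) ∧ red p x (y i))
    (hw : ∀ i ∈ Finset.Icc 1 q, red p ((p : ℚ) ^ (i + r) * ω u i) (v i)) :
    red p ((p : ℚ) ^ τ * Su r q B a b ω u (PolyN D n))
      ((0 : ZMod p) ^ k * ∑ i ∈ Finset.Icc 1 q, ((Nat.choose (i + r - 1) r : ZMod p) * v i) *
        ((s i : ZMod p) * y i)) := by
  rw [Su, Finset.mul_sum, Finset.mul_sum]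
  refine red_sum _ _ _ fun i hi => ?_
  obtain ⟨x, hx1, hx2⟩ := hA i hi
  rw [term_eq he hk hx1]
  refine red_mul (red_pow red_p k) (red_mul (red_mul (red_nat _) (hw i hi))
    (red_mul (red_int _) hx2))

/-- every two-pole residue has a representative -/
lemma exists_rep0 {a b : ℕ} (hodd : p % 2 = 1) (hb : a + b ≤ 2 * p + 1) (ha : a ≤ p) (hab : a ≤ b)
    {u : ℤ} (hu : u ∈ pc a) (h2 : (p : ℤ) - a + 1 ≤ |u|) :
    ∃ c, Geo0 p a b c ∧ (u = c ∨ u = c - p ∨ u = -c ∨ u = p - c) := by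
  rw [mem_pc] at hu
  rcases le_or_gt 0 u with h0 | h0
  · rw [abs_of_nonneg h0] at h2
    by_cases h3 : 2 * u ≤ p - 1
    · exact ⟨u, ⟨hodd, hb, ha, hab, by omega, h3⟩, Or.inl rfl⟩
    · refine ⟨p - u, ⟨hodd, hb, ha, hab, by omega, by omega⟩, Or.inr (Or.inr (Or.inr (by ring)))⟩
  · rw [abs_of_neg h0] at h2
    by_cases h3 : 2 * (-u) ≤ p - 1
    · exact ⟨-u, ⟨hodd, hb, ha, hab, by omega, h3⟩, Or.inr (Or.inr (Or.inl (by ring)))⟩
    · refine ⟨p + u, ⟨hodd, hb, ha, hab, by omega, by omega⟩, Or.inr (Or.inl (by ring))⟩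

lemma Kc0_ne_zero {q B a b : ℕ} {D : Finset ℤ} {n : ℤ → ℕ} {c : ℤ}
    (hD : ∀ d ∈ D, Geo0 p a b d) (hc : c ∈ D) : Kc0 p q B a b D n c ≠ 0 := by
  have h := hD c hc
  have h2 : (2 : ZMod p) ≠ 0 := by
    have : ((2 : ℤ) : ZMod p) ≠ 0 := by
      rw [Ne, ZMod.intCast_zmod_eq_zero_iff_dvd]
      intro hd
      have := Int.le_of_dvd (by norm_num) hd
      have := h.c2; have := h.pos; omega
    simpa using this
  have hcne : (c : ZMod p) ≠ 0 := by
    rw [Ne, ZMod.intCast_zmod_eq_zero_iff_dvd]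
    intro hd
    have := Int.le_of_dvd h.pos hd
    have := h.c_lt; omega
  unfold Kc0
  refine mul_ne_zero (mul_ne_zero (mul_ne_zero (mul_ne_zero h2 (neg_ne_zero.2 hcne)) ?_) ?_)
    (mul_ne_zero ?_ ?_)
  · refine pow_ne_zero _ (Finset.prod_ne_zero_iff.2 fun w hw => ?_)
    have := h.ho w hw
    push_cast at this
    exact this
  · refine pow_ne_zero _ (inv_ne_zero (Finset.prod_ne_zero_iff.2 fun w hw => ?_))
    have := h.hi w hw
    push_cast at this
    exact this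
  · refine pow_ne_zero _ (mul_ne_zero (neg_ne_zero.2 h2) hcne)
  · refine Finset.prod_ne_zero_iff.2 fun d hd => pow_ne_zero _ ?_
    rw [Finset.mem_erase] at hd
    have hd' := hD d hd.2
    have h3 : ((c - d : ℤ) : ZMod p) ≠ 0 := by
      rw [Ne, ZMod.intCast_zmod_eq_zero_iff_dvd]
      intro hdv
      obtain ⟨k, hk⟩ := hdv
      have := h.pos; have := h.c_lt; have := hd'.pos; have := hd'.c_lt
      have hpp : (0 : ℤ) < p := by exact_mod_cast hp.out.pos
      have hk1 : -1 < k := by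
        by_contra hcc
        push Not at hcc
        have : (p : ℤ) * k ≤ p * (-1) := mul_le_mul_of_nonneg_left hcc hpp.le
        omega
      have hk2 : k < 1 := by
        by_contra hcc
        push Not at hcc
        have : (p : ℤ) * 1 ≤ p * k := mul_le_mul_of_nonneg_left hcc hpp.le
        omega
      have h0 : k = 0 := by omega
      rw [h0] at hk
      apply hd.1
      omega
    have h4 : ((c + d : ℤ) : ZMod p) ≠ 0 := by
      rw [Ne, ZMod.intCast_zmod_eq_zero_iff_dvd]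
      intro hdv
      have := Int.le_of_dvd (by have := h.pos; have := hd'.pos; omega) hdv
      have := h.c2; have := hd'.c2; omega
    have h5 : (c : ZMod p) ^ 2 - d ^ 2 = ((c - d : ℤ) : ZMod p) * ((c + d : ℤ) : ZMod p) := by
      push_cast; ring
    rw [h5]
    exact mul_ne_zero h3 h4

variable {r q B a b τ e : ℕ} {z : ℕ → ℚ} {D : Finset ℤ} {n : ℤ → ℕ}

/-- coefficients for all four poles of a class -/
lemma Acoef_four0 (ha1 : 1 ≤ a) (hq : Even q) {c u : ℤ} (h : Geo0 p a b c) (hc : c ∈ D)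
    (hu : u = c ∨ u = c - p ∨ u = -c ∨ u = p - c) :
    ∃ (s : ℕ → ℤ) (y : ℕ → ZMod p), ∀ i ∈ Finset.Icc 1 q, ∃ x : ℚ,
      Acoef q B a b u i (PolyN D n) =
      (s i : ℚ) * ((p : ℚ) ^ ((n c : ℤ) + (0 : ℕ) + i - 2 * q) * x) ∧ red p x (y i) := by
  rcases hu with rfl | rfl | rfl | rfl
  · refine ⟨fun _ => 1, fun i => Kc0 p q B a b D n u * alp p q 0 (n u) (q - i), fun i hi => ?_⟩
    rw [Finset.mem_Icc] at hi
    obtain ⟨x, hx1, hx2⟩ := Acoef0_c (q := q) (B := B) (n := n) h hc hi.2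
    exact ⟨x, by rw [hx1]; push_cast; ring, hx2⟩
  · refine ⟨fun _ => 1, fun i => Kc0 p q B a b D n c * bep p q 0 (n c) (q - i), fun i hi => ?_⟩
    rw [Finset.mem_Icc] at hi
    obtain ⟨x, hx1, hx2⟩ := Acoef0_cp (q := q) (B := B) (n := n) h hc hi.2
    exact ⟨x, by rw [hx1]; push_cast; ring, hx2⟩
  · refine ⟨fun i => (-1) ^ (i + 1), fun i => Kc0 p q B a b D n c * alp p q 0 (n c) (q - i),
      fun i hi => ?_⟩
    rw [Finset.mem_Icc] at hi
    obtain ⟨x, hx1, hx2⟩ := Acoef0_c (q := q) (B := B) (n := n) h hc hi.2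
    exact ⟨x, by rw [Acoef_neg ha1 h.mem_c hq hi.2, hx1]; push_cast; ring, hx2⟩
  · refine ⟨fun i => (-1) ^ (i + 1), fun i => Kc0 p q B a b D n c * bep p q 0 (n c) (q - i),
      fun i hi => ?_⟩
    rw [Finset.mem_Icc] at hi
    obtain ⟨x, hx1, hx2⟩ := Acoef0_cp (q := q) (B := B) (n := n) h hc hi.2
    refine ⟨x, ?_, hx2⟩
    rw [show (p : ℤ) - c = -(c - p) by ring, Acoef_neg ha1 h.mem_cp hq hi.2, hx1]
    push_cast; ring

/-- a pole whose class has too many factors contributes zero -/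
lemma Su_zero_of0 (hr : 1 ≤ r) (hz : ∀ s, VG p 0 (z s)) (he : e + 0 = r + 2 * q)
    (hq : Even q) (ha : a ≤ p) {c u : ℤ} (h : Geo0 p a b c) (hc : c ∈ D)
    (hu : u = c ∨ u = c - p ∨ u = -c ∨ u = p - c) (hk : e < n c + τ) :
    red p ((p : ℚ) ^ τ * Su r q B a b (wt r a 1 z) u (PolyN D n)) 0 := by
  have hupc : u ∈ pc a := by
    rcases hu with rfl | rfl | rfl | rfl
    · exact h.mem_c
    · exact h.mem_cp
    · exact neg_mem_pc.2 h.mem_c
    · rw [show (p : ℤ) - c = -(c - p) by ring]; exact neg_mem_pc.2 h.mem_cp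
  obtain ⟨s, y, hA⟩ := Acoef_four0 (q := q) (B := B) (n := n) h.a_pos hq h hc hu
  have hw : ∀ i ∈ Finset.Icc 1 q, ∃ v, red p ((p : ℚ) ^ (i + r) * wt r a 1 z u i) v :=
    fun i _ => wt_any hr hz ha hupc i
  choose! v hv using hw
  obtain ⟨k, hk'⟩ := Nat.exists_eq_add_of_lt hk
  have key := Su_two0 (ω := wt r a 1 z) (u := u) (n := n) (c := c) (k := k + 1) he
    (by omega) s y v hA hv
  simpa using key

/-- low poles of a class contribute zero -/
lemma Su_low0 (hr : 1 ≤ r) (hz : ∀ s, VG p 0 (z s)) (he : e + 0 = r + 2 * q)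
    (hq : Even q) {c u : ℤ} (h : Geo0 p a b c) (hc : c ∈ D)
    (hu : u = c - p ∨ u = -c) (hk : e ≤ n c + τ) :
    red p ((p : ℚ) ^ τ * Su r q B a b (wt r a 1 z) u (PolyN D n)) 0 := by
  have hlow : u + a - 1 < p := by
    have := h.pos; have := h.c_lt; have := h.ha; have := h.c1; have := h.c2
    rcases hu with rfl | rfl <;> omega
  have hu' : u = c ∨ u = c - p ∨ u = -c ∨ u = p - c := by tauto
  obtain ⟨s, y, hA⟩ := Acoef_four0 (q := q) (B := B) (n := n) h.a_pos hq h hc hu'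
  obtain ⟨k, hk'⟩ := Nat.exists_eq_add_of_le hk
  have key := Su_two0 (ω := wt r a 1 z) (u := u) (n := n) (c := c) (k := k) he
    (by omega) s y (fun _ => 0) hA (fun i _ => wt_low hr hz hlow i)
  simpa using key

lemma Su_top_c0 (hr : 1 ≤ r) (hz : ∀ s, VG p 0 (z s)) (he : e + 0 = r + 2 * q)
    {c : ℤ} (h : Geo0 p a b c) (hc : c ∈ D) (hk : n c + τ = e) :
    red p ((p : ℚ) ^ τ * Su r q B a b (wt r a 1 z) c (PolyN D n))
      (-(Kc0 p q B a b D n c * ∑ i ∈ Finset.Icc 1 q, (Nat.choose (i + r - 1) r : ZMod p) *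
        alp p q 0 (n c) (q - i))) := by
  have htop : (p : ℤ) ≤ c + a - 1 := by have := h.c1; omega
  have htop2 : c + a - 1 < 2 * p := by have := h.c_lt; have := h.ha; omega
  have key := Su_two0 (ω := wt r a 1 z) (u := c) (n := n) (c := c) (k := 0) he
    (by omega) (fun _ => 1) (fun i => Kc0 p q B a b D n c * alp p q 0 (n c) (q - i))
    (fun _ => -1) (fun i hi => by
      rw [Finset.mem_Icc] at hi
      obtain ⟨x, hx1, hx2⟩ := Acoef0_c (q := q) (B := B) (n := n) h hc hi.2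
      exact ⟨x, by rw [hx1]; push_cast; ring, hx2⟩)
    (fun i _ => red_wt_top hz htop htop2 (by omega))
  convert key using 1
  rw [pow_zero, one_mul, Finset.mul_sum, ← Finset.sum_neg_distrib]
  refine Finset.sum_congr rfl fun i _ => ?_
  push_cast
  ring

lemma Su_top_pc0 (hr : 1 ≤ r) (hz : ∀ s, VG p 0 (z s)) (he : e + 0 = r + 2 * q) (hq : Even q)
    {c : ℤ} (h : Geo0 p a b c) (hc : c ∈ D) (hk : n c + τ = e) :
    red p ((p : ℚ) ^ τ * Su r q B a b (wt r a 1 z) (p - c) (PolyN D n))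
      (-(Kc0 p q B a b D n c * ∑ i ∈ Finset.Icc 1 q, (Nat.choose (i + r - 1) r : ZMod p) *
        ((-1) ^ (i + 1) * bep p q 0 (n c) (q - i)))) := by
  have htop : (p : ℤ) ≤ (p - c) + a - 1 := by
    have := h.c2; have := h.c1; have := h.pos; omega
  have htop2 : ((p : ℤ) - c) + a - 1 < 2 * p := by have := h.pos; have := h.ha; omega
  have key := Su_two0 (ω := wt r a 1 z) (u := p - c) (n := n) (c := c) (k := 0) he
    (by omega) (fun i => (-1) ^ (i + 1))
    (fun i => Kc0 p q B a b D n c * bep p q 0 (n c) (q - i))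
    (fun _ => -1) (fun i hi => by
      rw [Finset.mem_Icc] at hi
      obtain ⟨x, hx1, hx2⟩ := Acoef0_cp (q := q) (B := B) (n := n) h hc hi.2
      refine ⟨x, ?_, hx2⟩
      rw [show (p : ℤ) - c = -(c - p) by ring, Acoef_neg h.a_pos h.mem_cp hq hi.2, hx1]
      push_cast; ring)
    (fun i _ => red_wt_top hz htop htop2 (by omega))
  convert key using 1
  rw [pow_zero, one_mul, Finset.mul_sum, ← Finset.sum_neg_distrib]
  refine Finset.sum_congr rfl fun i _ => ?_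
  push_cast
  ring

lemma geo_of_mem0 (hodd : p % 2 = 1) (hb : a + b ≤ 2 * p + 1) (ha : a ≤ p) (hab : a ≤ b) {c : ℤ}
    (hc : c ∈ Dset p a) : Geo0 p a b c := by
  rw [Dset, Finset.mem_Icc] at hc
  exact ⟨hodd, hb, ha, hab, hc.1, by omega⟩

lemma mem_Dset0 {c : ℤ} (h : Geo0 p a b c) : c ∈ Dset p a := by
  rw [Dset, Finset.mem_Icc]
  have := h.c1; have := h.c2
  constructor <;> omega

/-- off-diagonal entries -/
lemma entry_off0 (hr : 1 ≤ r) (hz : ∀ s, VG p 0 (z s)) (he : e + 0 = r + 2 * q)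
    (hq : Even q) (hodd : p % 2 = 1) (hb : a + b ≤ 2 * p + 1) (ha : a ≤ p) (hab : a ≤ b) (hτ : τ ≠ 0)
    (hn : ∀ c ∈ Dset p a, e < n c + τ) :
    red p ((p : ℚ) ^ τ * Lw r q B a b (wt r a 1 z) (PolyN (Dset p a) n)) 0 := by
  rw [Lw_eq_sum_Su, Finset.mul_sum]
  have : (0 : ZMod p) = ∑ u ∈ pc a, 0 := by simp
  rw [this]
  refine red_sum _ _ _ fun u hu => ?_
  by_cases h2 : (p : ℤ) - a + 1 ≤ |u|
  · obtain ⟨c, hg, hcu⟩ := exists_rep0 hodd hb ha hab hu h2
    exact Su_zero_of0 hr hz he hq ha hg (mem_Dset0 hg) hcu (hn c (mem_Dset0 hg))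
  · have h3 : |u| ≤ (p : ℤ) - a := by omega
    refine Su_single (single_of hu h3) (fun i => ?_) hτ
    refine red_wt_low hz ?_ i
    have := (abs_le.1 h3).2
    omega

/-- diagonal block entries -/
lemma entry_main0 (hr : 1 ≤ r) (hz : ∀ s, VG p 0 (z s)) (he : e + 0 = r + 2 * q)
    (hq : Even q) (hodd : p % 2 = 1) (hb : a + b ≤ 2 * p + 1) (ha : a ≤ p) (hab : a ≤ b) (hτ : τ ≠ 0)
    {c : ℤ} (hc : c ∈ Dset p a) (hk : n c + τ = e)
    (hn : ∀ c' ∈ Dset p a, c' ≠ c → e < n c' + τ) :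
    red p ((p : ℚ) ^ τ * Lw r q B a b (wt r a 1 z) (PolyN (Dset p a) n))
      (-(Kc0 p q B a b (Dset p a) n c * lmp p r q 0 (n c))) := by
  have hg := geo_of_mem0 hodd hb ha hab hc
  have hne : c ≠ p - c := by have := hg.c2; omega
  rw [Lw_eq_sum_Su, Finset.mul_sum]
  set V1 : ZMod p := -(Kc0 p q B a b (Dset p a) n c * ∑ i ∈ Finset.Icc 1 q,
    (Nat.choose (i + r - 1) r : ZMod p) * alp p q 0 (n c) (q - i)) with hV1
  set V2 : ZMod p := -(Kc0 p q B a b (Dset p a) n c * ∑ i ∈ Finset.Icc 1 q,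
    (Nat.choose (i + r - 1) r : ZMod p) * ((-1) ^ (i + 1) * bep p q 0 (n c) (q - i))) with hV2
  have hsum : -(Kc0 p q B a b (Dset p a) n c * lmp p r q 0 (n c)) =
      ∑ u ∈ pc a, ((if u = c then V1 else 0) + (if u = p - c then V2 else 0)) := by
    rw [Finset.sum_add_distrib, Finset.sum_ite_eq', Finset.sum_ite_eq', if_pos hg.mem_c,
      if_pos (by rw [show (p : ℤ) - c = -(c - p) by ring]; exact neg_mem_pc.2 hg.mem_cp),
      hV1, hV2, lmp, ← neg_add, ← mul_add, ← Finset.sum_add_distrib]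
    congr 2
    refine Finset.sum_congr rfl fun i _ => ?_
    ring
  rw [hsum]
  refine red_sum _ _ _ fun u hu => ?_
  by_cases h2 : (p : ℤ) - a + 1 ≤ |u|
  · obtain ⟨c', hg', hcu⟩ := exists_rep0 hodd hb ha hab hu h2
    have h1 := hg.pos; have h3 := hg.c2; have h4 := hg'.pos; have h5 := hg'.c2
    by_cases hcc : c' = c
    · subst hcc
      rcases hcu with rfl | rfl | rfl | rfl
      · rw [if_pos rfl, if_neg hne, add_zero]
        exact Su_top_c0 hr hz he hg hc hk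
      · rw [if_neg (by omega), if_neg (by omega), add_zero]
        exact Su_low0 hr hz he hq hg hc (Or.inl rfl) hk.ge
      · rw [if_neg (by omega), if_neg (by omega), add_zero]
        exact Su_low0 hr hz he hq hg hc (Or.inr rfl) hk.ge
      · rw [if_neg (by omega), if_pos rfl, zero_add]
        exact Su_top_pc0 hr hz he hq hg hc hk
    · rw [if_neg (by omega), if_neg (by omega), add_zero]
      exact Su_zero_of0 hr hz he hq ha hg' (mem_Dset0 hg') hcu (hn c' (mem_Dset0 hg') hcc)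
  · have h3 : |u| ≤ (p : ℤ) - a := by omega
    have h6 := abs_le.1 h3
    have h7 := hg.c1; have h8 := hg.c2; have h9 := hg.pos
    rw [if_neg (by omega), if_neg (by omega), add_zero]
    refine Su_single (single_of hu h3) (fun i => ?_) hτ
    refine red_wt_low hz ?_ i
    omega

lemma Kc0_factor {q B a b N : ℕ} {D : Finset ℤ} {c : ℤ} {j j' : ℕ} :
    Kc0 p q B a b D (nloc N c j + nloc N c j') c =
      Kc0 p q B a b D (nloc (N + N) c 0) c * ((-2 * (c : ZMod p)) ^ j * (-2 * (c : ZMod p)) ^ j') := by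
  unfold Kc0
  have h1 : (nloc N c j + nloc N c j') c = j + j' := by simp [nloc]
  have h2 : nloc (N + N) c 0 c = 0 := by simp [nloc]
  have h3 : ∏ d ∈ D.erase c, ((c : ZMod p) ^ 2 - d ^ 2) ^ ((nloc N c j + nloc N c j') d) =
      ∏ d ∈ D.erase c, ((c : ZMod p) ^ 2 - d ^ 2) ^ (nloc (N + N) c 0 d) := by
    refine Finset.prod_congr rfl fun d hd => ?_
    have hne := (Finset.mem_erase.1 hd).1
    simp [nloc, hne]
  rw [h1, h2, h3, pow_add, pow_zero]
  ring

/-- determinant of a local block -/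
lemma block_det_ne0 {r q B N : ℕ} (U x : ZMod p) (hU : U ≠ 0) (hx : x ≠ 0)
    (hl : Matrix.det (Matrix.of fun i j : Fin N => lmp p r q 0 ((i : ℕ) + (j : ℕ))) ≠ 0) :
    Matrix.det (Matrix.of fun i j : Fin N =>
      -(U * (x ^ (i : ℕ) * x ^ (j : ℕ)) * lmp p r q 0 ((i : ℕ) + (j : ℕ)))) ≠ 0 := by
  have h1 : (Matrix.of fun i j : Fin N =>
      -(U * (x ^ (i : ℕ) * x ^ (j : ℕ)) * lmp p r q 0 ((i : ℕ) + (j : ℕ)))) =
      Matrix.of fun i j : Fin N => (-(U * x ^ (i : ℕ))) *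
        (Matrix.of fun i j : Fin N => lmp p r q 0 ((i : ℕ) + (j : ℕ))) i j * (x ^ (j : ℕ)) := by
    ext i j
    simp only [Matrix.of_apply]
    ring
  rw [h1, det_scale]
  refine mul_ne_zero (mul_ne_zero (Finset.prod_ne_zero_iff.2 fun i _ => ?_) hl)
    (Finset.prod_ne_zero_iff.2 fun i _ => pow_ne_zero _ hx)
  exact neg_ne_zero.2 (mul_ne_zero hU (pow_ne_zero _ hx))

theorem m8z_aux {r q B N a b m : ℕ} {z : ℕ → ℚ} (hr : 1 ≤ r) (hq : Even q)
    (hBN : 2 * N ≤ r + 2 * q + 1) (hl : lhank r q 0 N ≠ 0)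
    (hpl : (lhank r q 0 N).num.natAbs < p)
    (hodd : p % 2 = 1) (hb : a + b ≤ 2 * p + 1) (ha : a ≤ p) (ha2 : p + 1 ≤ 2 * a) (hab : a ≤ b)
    (hm : 2 * m = N * (2 * a - 1 - p)) (hz : ∀ s, VG p 0 (z s)) :
    hank (Lw r q B a b (wt r a 1 z)) m ≠ 0 := by
  classical
  rcases Nat.eq_zero_or_pos N with hN | hN
  · have hm0 : m = 0 := by rw [hN] at hm; omega
    subst hm0
    simp [hank]
  intro hH
  -- local Hankel determinant is nonzero mod p
  have hl' : Matrix.det (Matrix.of fun i j : Fin N => lmp p r q 0 ((i : ℕ) + (j : ℕ))) ≠ 0 := by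
    intro h0
    have h1 := red_lhank (p := p) r q 0 N
    rw [h0] at h1
    have h2 := dvd_num_of_red_zero h1
    have h3 : (p : ℤ) ∣ ((lhank r q 0 N).num.natAbs : ℤ) := Int.dvd_natAbs.2 h2
    have h4 : p ∣ (lhank r q 0 N).num.natAbs := by exact_mod_cast h3
    have h5 : 0 < (lhank r q 0 N).num.natAbs := by
      rw [Int.natAbs_pos]
      exact Rat.num_ne_zero.2 hl
    have := Nat.le_of_dvd h5 h4
    omega
  obtain ⟨e, he⟩ : ∃ e, e + 0 = r + 2 * q := ⟨r + 2 * q, by omega⟩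
  set D := Dset p a with hD
  let ι := Fin N × {c // c ∈ D}
  let P : ι → ℚ[X] := fun α => PolyN D (nloc N α.2.1 α.1)
  have hcardD : 2 * D.card = 2 * a - 1 - p := by
    rw [hD, Dset, Int.card_Icc]
    omega
  have hcard : Fintype.card ι = m := by
    have h1 : Fintype.card ι = N * D.card := by
      simp [ι, Fintype.card_prod, Fintype.card_fin]
    rw [h1]
    have : 2 * (N * D.card) = 2 * m := by rw [hm, ← hcardD]; ring
    omega
  have hdeg : ∀ α : ι, (P α).natDegree < m ∨ P α = 0 := by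
    intro α
    left
    rw [natDegree_PolyN, ← Finset.add_sum_erase _ _ α.2.2]
    have h1 : ∑ d ∈ D.erase α.2.1, nloc N α.2.1 α.1 d = (D.card - 1) * N := by
      rw [← Finset.card_erase_of_mem α.2.2, ← smul_eq_mul, ← Finset.sum_const]
      refine Finset.sum_congr rfl fun d hd => ?_
      simp [nloc, (Finset.mem_erase.1 hd).1]
    have h2 : nloc N α.2.1 α.1 α.2.1 = (α.1 : ℕ) := by simp [nloc]
    rw [h1, h2]
    have h3 : 0 < D.card := Finset.card_pos.2 ⟨_, α.2.2⟩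
    have h4 : m = N * D.card := by
      rw [← hcard]; simp [ι, Fintype.card_prod, Fintype.card_fin]
    have h5 : (D.card - 1) * N + N = N * D.card := by
      obtain ⟨k, hk⟩ := Nat.exists_eq_add_of_lt h3
      rw [hk]; simp; ring
    have := α.1.2
    omega
  let L := Lw r q B a b (wt r a 1 z)
  have hG := gram_eq L m P hdeg
  have hG0 : (Matrix.of fun i j : ι => L (P i * P j)).det = 0 := by
    rw [hG]
    exact det_gram_zero hcard _ _ hH
  have hp0 : (p : ℚ) ≠ 0 := by exact_mod_cast hp.out.ne_zero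
  -- scaled matrix
  have hlt : ∀ α β : ι, (α.1 : ℕ) + β.1 + 1 ≤ e := by
    intro α β
    have := α.1.2; have := β.1.2
    omega
  let Mt : Matrix ι ι ℚ := Matrix.of fun α β =>
    (p : ℚ) ^ (e - ((α.1 : ℕ) + β.1)) * L (P α * P β)
  have hMt : Mt.det = 0 := by
    have h1 : Mt = Matrix.of fun α β => ((p : ℚ) ^ e * ((p : ℚ) ^ (α.1 : ℕ))⁻¹) *
        (Matrix.of fun i j : ι => L (P i * P j)) α β * ((p : ℚ) ^ (β.1 : ℕ))⁻¹ := by
      ext α β
      simp only [Mt, Matrix.of_apply]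
      have h2 : (p : ℚ) ^ (e - ((α.1 : ℕ) + β.1)) =
          (p : ℚ) ^ e * ((p : ℚ) ^ (α.1 : ℕ))⁻¹ * ((p : ℚ) ^ (β.1 : ℕ))⁻¹ := by
        rw [pow_sub₀ _ hp0 (by have := hlt α β; omega), pow_add, mul_inv]
        ring
      rw [h2]; ring
    rw [h1, det_scale, hG0]
    ring
  -- reduction
  let Mb : Matrix ι ι (ZMod p) := Matrix.blockDiagonal fun c : {c // c ∈ D} =>
    Matrix.of fun i j : Fin N => -(Kc0 p q B a b D (nloc (N + N) c.1 0) c.1 *
      ((-2 * ((c.1 : ℤ) : ZMod p)) ^ (i : ℕ) * (-2 * ((c.1 : ℤ) : ZMod p)) ^ (j : ℕ)) *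
      lmp p r q 0 ((i : ℕ) + (j : ℕ)))
  have hred : ∀ α β : ι, red p (Mt α β) (Mb α β) := by
    intro α β
    have hτ : e - ((α.1 : ℕ) + β.1) ≠ 0 := by have := hlt α β; omega
    have hPP : P α * P β = PolyN D (nloc N α.2.1 α.1 + nloc N β.2.1 β.1) := PolyN_mul _ _ _
    have h1 : Mt α β = (p : ℚ) ^ (e - ((α.1 : ℕ) + β.1)) *
        L (PolyN D (nloc N α.2.1 α.1 + nloc N β.2.1 β.1)) := by
      rw [← hPP]; rfl
    rw [h1]
    by_cases hc : α.2 = β.2
    · have h2 : Mb α β = -(Kc0 p q B a b D (nloc (N + N) α.2.1 0) α.2.1 *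
          ((-2 * ((α.2.1 : ℤ) : ZMod p)) ^ (α.1 : ℕ) * (-2 * ((α.2.1 : ℤ) : ZMod p)) ^ (β.1 : ℕ)) *
          lmp p r q 0 ((α.1 : ℕ) + (β.1 : ℕ))) := by
        simp only [Mb, Matrix.blockDiagonal_apply, hc, if_true, Matrix.of_apply]
      rw [h2, ← Kc0_factor, ← hc]
      have h3 : (nloc N α.2.1 α.1 + nloc N α.2.1 β.1) α.2.1 = (α.1 : ℕ) + β.1 := by simp [nloc]
      have key := entry_main0 (p := p) (r := r) (q := q) (B := B) (a := a) (b := b) (e := e)
        (z := z) (n := nloc N α.2.1 α.1 + nloc N α.2.1 β.1) (c := α.2.1) hr hz he hq hodd hb ha hab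
        hτ α.2.2 (by rw [h3]; have := hlt α β; omega) (by
          intro c' _ hcc
          have h4 : (nloc N α.2.1 α.1 + nloc N α.2.1 β.1) c' = N + N := by simp [nloc, hcc]
          rw [h4]
          have := α.1.2; have := β.1.2; have := hlt α β
          omega)
      rw [h3] at key
      exact key
    · have h2 : Mb α β = 0 := by
        simp only [Mb, Matrix.blockDiagonal_apply, hc, if_false]
      rw [h2]
      refine entry_off0 (p := p) hr hz he hq hodd hb ha hab hτ ?_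
      intro c' _
      have hne : α.2.1 ≠ β.2.1 := fun h => hc (Subtype.ext h)
      have := α.1.2; have := β.1.2; have := hlt α β
      simp only [Pi.add_apply, nloc]
      split_ifs with h5 h6 h6
      · exact absurd (h5.symm.trans h6) hne
      · omega
      · omega
      · omega
  have hdet := red_det Mt Mb hred
  rw [hMt] at hdet
  have h0 : Mb.det = 0 := (red_unique hdet red_zero)
  rw [Matrix.det_blockDiagonal] at h0
  obtain ⟨c, _, hc⟩ := Finset.prod_eq_zero_iff.1 h0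
  have hgeo : ∀ d ∈ D, Geo0 p a b d := fun d hd => geo_of_mem0 hodd hb ha hab hd
  have hcg := hgeo c.1 c.2
  refine block_det_ne0 (B := 0) _ _ (Kc0_ne_zero (q := q) (B := B) (n := nloc (N + N) c.1 0) hgeo c.2) ?_ hl' hc
  have hcne : ((c.1 : ℤ) : ZMod p) ≠ 0 := by
    rw [Ne, ZMod.intCast_zmod_eq_zero_iff_dvd]
    intro hd
    have := Int.le_of_dvd hcg.pos hd
    have := hcg.c_lt; omega
  have h2 : (-2 : ZMod p) ≠ 0 := by
    have : ((2 : ℤ) : ZMod p) ≠ 0 := by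
      rw [Ne, ZMod.intCast_zmod_eq_zero_iff_dvd]
      intro hd
      have := Int.le_of_dvd (by norm_num) hd
      have := hcg.c2; have := hcg.pos; omega
    simpa using this
  exact mul_ne_zero h2 hcne

end

/-- nonvanishing, version without outer points in the two-pole classes -/
def M8z : Prop := ∀ (r q B N : ℕ), Even r → 2 ≤ r → Even q → 2 ≤ q →
  2 * N ≤ r + 2 * q + 1 → lhank r q 0 N ≠ 0 → ∃ p₀ : ℕ, ∀ (p a b m : ℕ) (z : ℕ → ℚ),
  p₀ ≤ p → p.Prime → a + b ≤ 2 * p + 1 → a ≤ p → p + 1 ≤ 2 * a → a ≤ b →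
  2 * m = N * (2 * a - 1 - p) → (∀ s, VG p 0 (z s)) →
  hank (Lw r q B a b (wt r a 1 z)) m ≠ 0

theorem m8z : M8z := by
  intro r q B N _ hr hq _ hBN hl
  refine ⟨(lhank r q 0 N).num.natAbs + 3, ?_⟩
  intro p a b m z hp0 hpp hb ha ha2 hab hm hz
  have : Fact p.Prime := ⟨hpp⟩
  have hodd : p % 2 = 1 := by
    rcases hpp.eq_two_or_odd with h | h
    · omega
    · exact h
  exact m8z_aux (by omega) hq hBN hl (by omega) hodd hb ha ha2 hab hm hz

end Z579
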