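import Pool.Agent.Lib.Z579.C54b
import Pool.Agent.Lib.Z579.M8z
import Pool.Agent.Lib.Z579.M6z

/-!
# Partial fraction coefficients at a two-pole class, exact form
-/

open Polynomial Finset

namespace Z579

set_option linter.unusedSectionVars false

namespace C54

section
variable {p : ℕ} [hp : Fact p.Prime]

lemma p_ne : (p : ℚ) ≠ 0 := by exact_mod_cast hp.out.ne_zero

lemma rescale_WA {N : ℝ} {f : PowerSeries ℚ} (h : WA p 1 N f) :
    WA p 0 N (PowerSeries.rescale (p : ℚ) f) := fun j => by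
  rw [PowerSeries.coeff_rescale]
  have h1 := VG_ppow (p := p) j (VG.one (p := p))
  rw [mul_one] at h1
  refine (h1.mul (h j)).mono (le_of_eq ?_)
  ring

/-- componentwise inverse -/
noncomputable def inv2 (f : A2) : A2 := (f.1⁻¹, f.2⁻¹)

lemma natCast_PS (n : ℕ) : (n : PowerSeries ℚ) = PowerSeries.C (n : ℚ) := by simp

lemma intCast_PS (n : ℤ) : (n : PowerSeries ℚ) = PowerSeries.C (n : ℚ) := by simp

lemma dps_fst (d : ℤ) : ((d : A2) + (p : A2) * xx).1 = PowerSeries.rescale (p : ℚ) (lin d) := by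
  rw [rescale_lin, Prod.fst_add, Prod.fst_mul, Prod.fst_intCast, Prod.fst_natCast, xx,
    intCast_PS, natCast_PS, add_comm]

lemma dps_snd (d : ℤ) : ((d : A2) + (p : A2) * xx).2 =
    PowerSeries.rescale (p : ℚ) (lin (d + p)) := by
  rw [rescale_lin, Prod.snd_add, Prod.snd_mul, Prod.snd_intCast, Prod.snd_natCast, xx,
    intCast_PS, natCast_PS]
  push_cast
  rw [map_add]
  ring

lemma lin_inv_WA {d : ℤ} (hd : ¬ (p : ℤ) ∣ d) : WA p 1 0 (lin d)⁻¹ := by
  have hd0 : d ≠ 0 := by rintro rfl; exact hd (dvd_zero _)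
  have hv : padicValRat p ((d : ℤ) : ℚ) = 0 := by
    rw [padicValRat.of_int, padicValInt.eq_zero_of_not_dvd hd]; rfl
  have := WA.lin_inv (p := p) (K := 1) hd0 (by rw [hv]; simp)
  rw [hv] at this
  simpa using this

lemma cc_ne {d : ℤ} (hd : ¬ (p : ℤ) ∣ d) : PowerSeries.constantCoeff (lin d) ≠ 0 := by
  rw [constantCoeff_lin]
  have hd0 : d ≠ 0 := by rintro rfl; exact hd (dvd_zero _)
  exact_mod_cast hd0

lemma inv2_mem {d : ℤ} (hd : ¬ (p : ℤ) ∣ d) : inv2 ((d : A2) + (p : A2) * xx) ∈ S1 p := by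
  have hd' : ¬ (p : ℤ) ∣ d + p := by
    intro h
    apply hd
    have := dvd_sub h (dvd_refl (p : ℤ))
    simpa using this
  have h1 := rescale_WA (lin_inv_WA hd)
  have h2 := rescale_WA (lin_inv_WA hd')
  rw [rescale_inv _ _ (cc_ne hd)] at h1
  rw [rescale_inv _ _ (cc_ne hd')] at h2
  refine dps_inv_mem hd (f := inv2 ((d : A2) + (p : A2) * xx)) ⟨?_, ?_⟩ ?_
  · rw [inv2]
    simp only
    rw [dps_fst]
    exact h1
  · rw [inv2]
    simp only
    rw [dps_snd]
    exact h2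
  · have hcc : ∀ e : ℤ, ¬ (p : ℤ) ∣ e →
        PowerSeries.constantCoeff (PowerSeries.rescale (p : ℚ) (lin e)) ≠ 0 := by
      intro e he
      rw [← PowerSeries.coeff_zero_eq_constantCoeff_apply, PowerSeries.coeff_rescale]
      have := cc_ne (p := p) he
      simpa using this
    refine Prod.ext ?_ ?_
    · rw [Prod.fst_mul, inv2]
      simp only
      rw [dps_fst, Prod.fst_one]
      exact PowerSeries.mul_inv_cancel _ (hcc d hd)
    · rw [Prod.snd_mul, inv2]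
      simp only
      rw [dps_snd, Prod.snd_one]
      exact PowerSeries.mul_inv_cancel _ (hcc _ hd')

/-- geometry of a two-pole class -/
structure G2 (p a : ℕ) (c : ℤ) : Prop where
  ha : a ≤ p
  c1 : (p : ℤ) - a + 1 ≤ c
  c2 : c ≤ (a : ℤ) - 1

lemma G2.pos {a : ℕ} {c : ℤ} (h : G2 p a c) : 0 < c := by
  have := h.c1; have := h.ha; omega

lemma G2.lt {a : ℕ} {c : ℤ} (h : G2 p a c) : c < p := by
  have := h.c2; have := h.ha; omega

lemma G2.a_pos {a : ℕ} {c : ℤ} (h : G2 p a c) : 1 ≤ a := by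
  have := h.c2; have := h.pos; omega

lemma G2.mem_c {a : ℕ} {c : ℤ} (h : G2 p a c) : c ∈ pc a := by
  rw [mem_pc]; have := h.c2; have := h.pos; omega

lemma G2.mem_cp {a : ℕ} {c : ℤ} (h : G2 p a c) : c - p ∈ pc a := by
  rw [mem_pc]; have := h.c1; have := h.c2; have := h.ha; omega

lemma G2.hi {a : ℕ} {c : ℤ} (h : G2 p a c) :
    ∀ w ∈ ((pc a).erase c).erase (c - p), ¬ (p : ℤ) ∣ w - c := by
  intro w hw hd
  rw [Finset.mem_erase, Finset.mem_erase, mem_pc] at hw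
  obtain ⟨k, hk⟩ := hd
  have h1 := h.pos
  have h2 := h.c2
  have h3 := h.ha
  have h4 := h.lt
  have h5 := h.c1
  have hp0 : (0 : ℤ) < p := by exact_mod_cast hp.out.pos
  have hk1 : -2 < k := by
    by_contra hcc
    push Not at hcc
    have : (p : ℤ) * k ≤ p * (-2) := mul_le_mul_of_nonneg_left hcc (by positivity)
    omega
  have hk2 : k < 1 := by
    by_contra hcc
    push Not at hcc
    have : (p : ℤ) * 1 ≤ p * k := mul_le_mul_of_nonneg_left hcc (by positivity)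
    omega
  interval_cases k
  · apply hw.1; omega
  · apply hw.2.1; omega

/-- the unit factor -/
noncomputable def Phi (p a : ℕ) (c : ℤ) : A2 :=
  2 * vv p c * (∏ w ∈ ((pc a).erase c).erase (c - p), inv2 (((w - c : ℤ) : A2) + (p : A2) * xx)) ^ 6

lemma vv_mem (c : ℤ) : vv p c ∈ S1 p := dps_mem (-c)

lemma Phi_mem {a : ℕ} {c : ℤ} (h : G2 p a c) : Phi p a c ∈ S1 p := by
  unfold Phi
  refine mul_mem (mul_mem (ofNat_mem _ _) (vv_mem c)) (pow_mem (prod_mem fun w hw => ?_) 6)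
  exact inv2_mem (h.hi w hw)

/-- expansion of `base` at a pole of a two-pole class -/
lemma base_two_eq {q B a b : ℕ} {u w1 l1 : ℤ} (hw1 : w1 ∈ (pc a).erase u)
    (h1 : w1 - u = p * l1) :
      PowerSeries.rescale (p : ℚ) (base q B a b u) =
        PowerSeries.C (((p : ℚ)⁻¹) ^ q) * (2 * PowerSeries.rescale (p : ℚ) (lin (-u)) *
          (∏ w ∈ (oc a b), PowerSeries.rescale (p : ℚ) (lin (w - u))) ^ B *
          ((lin l1)⁻¹ * ∏ w ∈ ((pc a).erase u).erase w1,
            (PowerSeries.rescale (p : ℚ) (lin (w - u)))⁻¹) ^ q) := by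
  have hp0 : (p : ℚ) ≠ 0 := p_ne
  have hne : PowerSeries.constantCoeff (∏ w ∈ (pc a).erase u, lin (w - u)) ≠ 0 :=
    constantCoeff_prod_lin_ne fun w hw => (Finset.mem_erase.1 hw).1
  rw [base]
  simp only [map_mul, map_pow]
  rw [rescale_inv _ _ hne, map_prod, map_prod,
    ← Finset.mul_prod_erase _ _ hw1, resc_lin_p l1 h1, PowerSeries.mul_inv_rev,
    PowerSeries.mul_inv_rev, PS_prod_inv]
  have h3 : PowerSeries.rescale (p : ℚ) (2 : PowerSeries ℚ) = 2 := map_ofNat _ 2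
  rw [h3]
  have h4 : PowerSeries.C (((p : ℚ)⁻¹)) = (PowerSeries.C (p : ℚ))⁻¹ := by
    rw [PowerSeries.C_inv]
  rw [h4]
  ring

lemma snd_prod {ι : Type*} (s : Finset ι) (f : ι → A2) : (∏ i ∈ s, f i).2 = ∏ i ∈ s, (f i).2 :=
  map_prod (RingHom.snd (PowerSeries ℚ) (PowerSeries ℚ)) f s

lemma fst_prod {ι : Type*} (s : Finset ι) (f : ι → A2) : (∏ i ∈ s, f i).1 = ∏ i ∈ s, (f i).1 :=
  map_prod (RingHom.fst (PowerSeries ℚ) (PowerSeries ℚ)) f s

lemma base_c {a : ℕ} {c : ℤ} (h : G2 p a c) :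
    PowerSeries.rescale (p : ℚ) (base 6 0 a a c) =
      PowerSeries.C (((p : ℚ)⁻¹) ^ 6) * ((Phi p a c).1 * (lin (-1))⁻¹ ^ 6) := by
  have hpp := hp.out.pos
  rw [base_two_eq (p := p) (w1 := c - p) (l1 := -1) (Finset.mem_erase.2 ⟨by omega, h.mem_cp⟩)
    (by ring)]
  congr 1
  have h1 : (Phi p a c).1 = 2 * PowerSeries.rescale (p : ℚ) (lin (-c)) *
      (∏ w ∈ ((pc a).erase c).erase (c - p), (PowerSeries.rescale (p : ℚ) (lin (w - c)))⁻¹) ^ 6 := by
    unfold Phi vv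
    have e2 : ∏ w ∈ ((pc a).erase c).erase (c - p), (inv2 (((w - c : ℤ) : A2) + (p : A2) * xx)).1 =
        ∏ w ∈ ((pc a).erase c).erase (c - p), (PowerSeries.rescale (p : ℚ) (lin (w - c)))⁻¹ := by
      refine Finset.prod_congr rfl fun w _ => ?_
      rw [inv2]
      simp only
      rw [dps_fst]
    rw [Prod.fst_mul, Prod.fst_mul, Prod.pow_fst, fst_prod, dps_fst, Prod.fst_ofNat, e2]
  rw [h1, pow_zero]
  ring

lemma base_cp {a : ℕ} {c : ℤ} (h : G2 p a c) :
    PowerSeries.rescale (p : ℚ) (base 6 0 a a (c - p)) =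
      PowerSeries.C (((p : ℚ)⁻¹) ^ 6) * ((Phi p a c).2 * (lin 1)⁻¹ ^ 6) := by
  have hpp := hp.out.pos
  rw [base_two_eq (p := p) (w1 := c) (l1 := 1) (Finset.mem_erase.2 ⟨by omega, h.mem_c⟩)
    (by ring)]
  congr 1
  have h1 : (Phi p a c).2 = 2 * PowerSeries.rescale (p : ℚ) (lin (-(c - p))) *
      (∏ w ∈ ((pc a).erase c).erase (c - p),
        (PowerSeries.rescale (p : ℚ) (lin (w - (c - p))))⁻¹) ^ 6 := by
    unfold Phi vv
    have e1 : -c + (p : ℤ) = -(c - p) := by ring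
    have e3 : ∏ w ∈ ((pc a).erase c).erase (c - p), (inv2 (((w - c : ℤ) : A2) + (p : A2) * xx)).2 =
        ∏ w ∈ ((pc a).erase c).erase (c - p),
          (PowerSeries.rescale (p : ℚ) (lin (w - (c - p))))⁻¹ := by
      refine Finset.prod_congr rfl fun w _ => ?_
      rw [inv2]
      simp only
      rw [dps_snd]
      have e2 : w - c + (p : ℤ) = w - (c - p) := by ring
      rw [e2]
    rw [Prod.snd_mul, Prod.snd_mul, Prod.pow_snd, snd_prod, dps_snd, Prod.snd_ofNat, e1, e3]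
  rw [h1, pow_zero, Finset.erase_right_comm (a := c) (b := c - p)]
  ring

lemma aeval_fst (y : A2) (G : ℤ[X]) : (Polynomial.aeval y G).1 = Polynomial.aeval y.1 G :=
  (Polynomial.aeval_algHom_apply (AlgHom.fst ℤ (PowerSeries ℚ) (PowerSeries ℚ)) y G).symm

lemma aeval_snd (y : A2) (G : ℤ[X]) : (Polynomial.aeval y G).2 = Polynomial.aeval y.2 G :=
  (Polynomial.aeval_algHom_apply (AlgHom.snd ℤ (PowerSeries ℚ) (PowerSeries ℚ)) y G).symm

lemma aeval_map_int (y : PowerSeries ℚ) (G : ℤ[X]) :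
    Polynomial.aeval y (G.map (Int.castRingHom ℚ)) = Polynomial.aeval y G := by
  rw [← algebraMap_int_eq, Polynomial.aeval_map_algebraMap]

lemma resc_aeval_c (c : ℤ) (G : ℤ[X]) :
    PowerSeries.rescale (p : ℚ) (Polynomial.aeval (lin (-c) ^ 2) (G.map (Int.castRingHom ℚ))) =
      (Polynomial.aeval (vv p c ^ 2) G).1 := by
  rw [rescale_aeval, map_pow, aeval_map_int, aeval_fst, Prod.pow_fst, vv, dps_fst]

lemma resc_aeval_cp (c : ℤ) (G : ℤ[X]) :
    PowerSeries.rescale (p : ℚ) (Polynomial.aeval (lin (-(c - p)) ^ 2)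
      (G.map (Int.castRingHom ℚ))) = (Polynomial.aeval (vv p c ^ 2) G).2 := by
  rw [rescale_aeval, map_pow, aeval_map_int, aeval_snd, Prod.pow_snd, vv, dps_snd]
  have e1 : -c + (p : ℤ) = -(c - p) := by ring
  rw [e1]

lemma coef_scale {u : ℤ} {a : ℕ} {G : ℚ[X]} {F : PowerSeries ℚ}
    (h : PowerSeries.rescale (p : ℚ) (base 6 0 a a u * Polynomial.aeval (lin (-u) ^ 2) G) =
      PowerSeries.C (((p : ℚ)⁻¹) ^ 6) * F) {i : ℕ} (hi : i ≤ 6) :
    (p : ℚ) ^ (12 - i) * Acoef 6 0 a a u i G = PowerSeries.coeff (6 - i) F := by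
  have hp0 : (p : ℚ) ≠ 0 := p_ne
  have h1 := congrArg (PowerSeries.coeff (6 - i)) h
  rw [PowerSeries.coeff_rescale, PowerSeries.coeff_C_mul] at h1
  rw [Acoef_apply]
  have h2 : 12 - i = 6 + (6 - i) := by omega
  rw [h2, pow_add, mul_assoc, h1, ← mul_assoc, ← mul_pow, mul_inv_cancel₀ hp0, one_pow, one_mul]

lemma coef_c {a : ℕ} {c : ℤ} (h : G2 p a c) (G : ℤ[X]) {i : ℕ} (hi : i ≤ 6) :
    (p : ℚ) ^ (12 - i) * Acoef 6 0 a a c i (G.map (Int.castRingHom ℚ)) =
      PowerSeries.coeff (6 - i) ((Polynomial.aeval (vv p c ^ 2) G * Phi p a c).1 *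
        (lin (-1))⁻¹ ^ 6) := by
  refine coef_scale ?_ hi
  rw [map_mul, base_c h, resc_aeval_c, Prod.fst_mul]
  ring

lemma coef_cp {a : ℕ} {c : ℤ} (h : G2 p a c) (G : ℤ[X]) {i : ℕ} (hi : i ≤ 6) :
    (p : ℚ) ^ (12 - i) * Acoef 6 0 a a (c - p) i (G.map (Int.castRingHom ℚ)) =
      PowerSeries.coeff (6 - i) ((Polynomial.aeval (vv p c ^ 2) G * Phi p a c).2 *
        (lin 1)⁻¹ ^ 6) := by
  refine coef_scale ?_ hi
  rw [map_mul, base_cp h, resc_aeval_cp, Prod.snd_mul]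
  ring

/-- the main part of the contribution of a class -/
lemma Lam_eq {a : ℕ} {c : ℤ} (h : G2 p a c) (G : ℤ[X]) :
    ∑ i ∈ Finset.Icc 1 6, (Nat.choose (i + 2 - 1) 2 : ℚ) * (1 / (p : ℚ) ^ (i + 2)) *
      (Acoef 6 0 a a c i (G.map (Int.castRingHom ℚ)) +
        Acoef 6 0 a a (p - c) i (G.map (Int.castRingHom ℚ))) =
      ((p : ℚ) ^ 14)⁻¹ * Lam (Polynomial.aeval (vv p c ^ 2) G * Phi p a c) := by
  have hp0 : (p : ℚ) ≠ 0 := p_ne
  rw [Lam_apply, Finset.mul_sum]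
  refine Finset.sum_congr rfl fun i hi => ?_
  rw [Finset.mem_Icc] at hi
  rw [← coef_c h G hi.2, ← coef_cp h G hi.2]
  have e : ((p : ℤ) - c) = -(c - p) := by ring
  rw [e, Acoef_neg h.a_pos h.mem_cp (by decide) hi.2]
  have h3 : (p : ℚ) ^ 14 = (p : ℚ) ^ (i + 2) * (p : ℚ) ^ (12 - i) := by
    rw [← pow_add]; congr 1; omega
  rw [h3]
  field_simp

lemma ppow_cancel {k : ℕ} {t : ℝ} {x : ℚ} (h : VG p t ((p : ℚ) ^ k * x)) : VG p (t - k) x := by
  have hp0 : (p : ℚ) ≠ 0 := p_ne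
  rcases h with h | h
  · left
    rcases mul_eq_zero.1 h with h | h
    · exact absurd h (pow_ne_zero _ hp0)
    · exact h
  · by_cases hx : x = 0
    · exact Or.inl hx
    right
    rw [padicValRat.mul (pow_ne_zero _ hp0) hx, padicValRat.pow] at h
    have h1 : padicValRat p (p : ℚ) = 1 := padicValRat.self hp.out.one_lt
    rw [h1] at h
    push_cast at h
    linarith

/-- valuation of the coefficients at the four poles -/
lemma coef_VG {a : ℕ} {c u : ℤ} (h : G2 p a c) (hu : u = c ∨ u = c - p ∨ u = -c ∨ u = p - c)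
    (G : ℤ[X]) {n : ℕ} {F : A2} (hF : F ∈ SS p)
    (hG : Polynomial.aeval (vv p c ^ 2) G = (p : A2) ^ n * F) {i : ℕ} (hi : i ≤ 6) :
    VG p ((n : ℝ) - 12 + i) (Acoef 6 0 a a u i (G.map (Int.castRingHom ℚ))) := by
  have hF' : F * Phi p a c ∈ SS p := mul_mem hF (S1_le (Phi_mem h))
  have hc : VG p ((n : ℝ) - 12 + i) (Acoef 6 0 a a c i (G.map (Int.castRingHom ℚ))) := by
    refine (ppow_cancel (k := 12 - i) (t := n) ?_).mono (le_of_eq ?_)
    · rw [coef_c h G hi, hG, mul_assoc]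
      have e1 : ((p : A2) ^ n * (F * Phi p a c)).1 * (lin (-1))⁻¹ ^ 6 =
          PowerSeries.C ((p : ℚ) ^ n) * ((F * Phi p a c).1 * (lin (-1))⁻¹ ^ 6) := by
        rw [Prod.fst_mul, Prod.pow_fst, Prod.fst_natCast, natCast_PS, map_pow]
        ring
      rw [e1, PowerSeries.coeff_C_mul]
      refine VG_ppow n ?_
      have h1 : WA p 0 0 (lin (-1))⁻¹ := by
        have hv : padicValRat p ((-1 : ℤ) : ℚ) = 0 := by simp
        have := WA.lin_inv (p := p) (K := 0) (c := -1) (by norm_num) (by rw [hv]; simp)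
        rw [hv] at this
        simpa using this
      have := (hF'.1.mul (h1.pow 6)) (6 - i)
      simpa using this
    · have : ((12 - i : ℕ) : ℝ) = 12 - i := by
        rw [Nat.cast_sub (by omega)]; norm_num
      rw [this]; ring
  have hcp : VG p ((n : ℝ) - 12 + i) (Acoef 6 0 a a (c - p) i (G.map (Int.castRingHom ℚ))) := by
    refine (ppow_cancel (k := 12 - i) (t := n) ?_).mono (le_of_eq ?_)
    · rw [coef_cp h G hi, hG, mul_assoc]
      have e1 : ((p : A2) ^ n * (F * Phi p a c)).2 * (lin 1)⁻¹ ^ 6 =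
          PowerSeries.C ((p : ℚ) ^ n) * ((F * Phi p a c).2 * (lin 1)⁻¹ ^ 6) := by
        rw [Prod.snd_mul, Prod.pow_snd, Prod.snd_natCast, natCast_PS, map_pow]
        ring
      rw [e1, PowerSeries.coeff_C_mul]
      refine VG_ppow n ?_
      have h1 : WA p 0 0 (lin 1)⁻¹ := by
        have hv : padicValRat p ((1 : ℤ) : ℚ) = 0 := by simp
        have := WA.lin_inv (p := p) (K := 0) (c := 1) (by norm_num) (by rw [hv]; simp)
        rw [hv] at this
        simpa using this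
      have := (hF'.2.mul (h1.pow 6)) (6 - i)
      simpa using this
    · have : ((12 - i : ℕ) : ℝ) = 12 - i := by
        rw [Nat.cast_sub (by omega)]; norm_num
      rw [this]; ring
  have hsgn : VG p 0 ((-1 : ℚ) ^ (i + 1)) := by
    have := VG.int (p := p) ((-1) ^ (i + 1))
    simpa using this
  rcases hu with rfl | rfl | rfl | rfl
  · exact hc
  · exact hcp
  · rw [Acoef_neg h.a_pos h.mem_c (by decide) hi]
    simpa using hsgn.mul hc
  · rw [show (p : ℤ) - c = -(c - p) by ring, Acoef_neg h.a_pos h.mem_cp (by decide) hi]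
    simpa using hsgn.mul hcp

end

end C54

end Z579
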