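import Pool.Agent.Lib.Z579.C54c

/-!
# The class bound `54`
-/

open Polynomial Finset

namespace Z579

set_option linter.unusedSectionVars false

namespace C54

section
variable {p : ℕ} [hp : Fact p.Prime]

/-- the level of the class `t` at the step `i` -/
def lev (K t i : ℕ) : ℕ := min 6 (if t < i % K then i / K + 1 else i / K)

lemma lev_le (K t i : ℕ) : lev K t i ≤ 6 := min_le_left _ _

/-- the representatives of the classes -/
def cl (p a t : ℕ) : ℤ := (p : ℤ) - a + 1 + t

/-- the basis polynomials -/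
noncomputable def PP (p a K i : ℕ) : ℤ[X] :=
  (∏ t ∈ Finset.range K, polZ p (cl p a t) (lev K t i)) * X ^ (i - 6 * K)

lemma PP_monic (p a K i : ℕ) : (PP p a K i).Monic :=
  (monic_prod_of_monic _ _ fun t _ => polZ_monic _ _ _).mul (monic_X_pow _)

lemma lev_sum (K i : ℕ) : ∑ t ∈ Finset.range K, lev K t i + (i - 6 * K) = i := by
  rcases Nat.eq_zero_or_pos K with h0 | h0
  · subst h0; simp
  rcases lt_or_ge i (6 * K) with h | h
  · have h1 : i / K < 6 := by
      rw [Nat.div_lt_iff_lt_mul h0]; exact h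
    have h2 : ∀ t ∈ Finset.range K, lev K t i = i / K + if t < i % K then 1 else 0 := by
      intro t _
      unfold lev
      split_ifs <;> omega
    rw [Finset.sum_congr rfl h2, Finset.sum_add_distrib, Finset.sum_const, Finset.card_range,
      Finset.sum_ite, Finset.sum_const_zero, add_zero, Finset.sum_const]
    have h3 : (Finset.range K).filter (fun t => t < i % K) = Finset.range (i % K) := by
      ext t
      rw [Finset.mem_filter, Finset.mem_range, Finset.mem_range]
      have := Nat.mod_lt i h0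
      omega
    rw [h3, Finset.card_range]
    simp only [smul_eq_mul, mul_one]
    have := Nat.div_add_mod i K
    omega
  · have h1 : 6 ≤ i / K := by
      rw [Nat.le_div_iff_mul_le h0]; exact h
    have h2 : ∀ t ∈ Finset.range K, lev K t i = 6 := by
      intro t _
      unfold lev
      split_ifs <;> omega
    rw [Finset.sum_congr rfl h2, Finset.sum_const, Finset.card_range, smul_eq_mul]
    omega

lemma PP_natDegree (p a K i : ℕ) : (PP p a K i).natDegree = i := by
  unfold PP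
  rw [(monic_prod_of_monic _ _ fun t _ => polZ_monic _ _ _).natDegree_mul (monic_X_pow _),
    natDegree_prod_of_monic _ _ fun t _ => polZ_monic _ _ _, natDegree_X_pow,
    Finset.sum_congr rfl fun t _ => polZ_natDegree p (cl p a t) (lev_le K t i)]
  exact lev_sum K i

/-- step values -/
noncomputable def thi (K i : ℕ) : ℝ := if i < 6 * K then 14 - 2 * ((i / K : ℕ) : ℝ) else 0

lemma thi_nonneg (K i : ℕ) : 0 ≤ thi K i := by
  unfold thi
  split_ifs with h
  · have h0 : 0 < K := by omega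
    have h1 : i / K < 6 := by rw [Nat.div_lt_iff_lt_mul h0]; exact h
    have : ((i / K : ℕ) : ℝ) ≤ 6 := by exact_mod_cast h1.le
    linarith
  · exact le_rfl

lemma th_nonneg (n : ℕ) : 0 ≤ th n := by
  unfold th
  split_ifs with h
  · have : (n : ℝ) ≤ 6 := by exact_mod_cast h.le
    linarith
  · exact le_rfl

lemma th_lev_le {K t i : ℕ} (ht : t < K) : th (lev K t i) ≤ thi K i := by
  have h0 : 0 < K := by omega
  unfold thi
  split_ifs with h
  · have h1 : i / K < 6 := by rw [Nat.div_lt_iff_lt_mul h0]; exact h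
    have h2 : i / K ≤ lev K t i := by
      unfold lev
      split_ifs <;> omega
    have h3 : ((i / K : ℕ) : ℝ) ≤ lev K t i := by exact_mod_cast h2
    have h4 : ((i / K : ℕ) : ℝ) ≤ 5 := by exact_mod_cast (by omega : i / K ≤ 5)
    unfold th
    split_ifs
    · linarith
    · linarith
  · have h1 : 6 ≤ i / K := by
      rw [Nat.le_div_iff_mul_le h0]; omega
    have h2 : lev K t i = 6 := by
      unfold lev
      split_ifs <;> omega
    rw [h2]
    unfold th
    rw [if_neg (lt_irrefl 6)]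

lemma sum_div (K N : ℕ) (h0 : 0 < K) (f : ℕ → ℝ) :
    ∑ i ∈ Finset.range (N * K), f (i / K) = K * ∑ n ∈ Finset.range N, f n := by
  induction N with
  | zero => simp
  | succ N ih =>
    rw [Nat.succ_mul, Finset.sum_range_add, ih, Finset.sum_range_succ, mul_add]
    congr 1
    have : ∀ x ∈ Finset.range K, f ((N * K + x) / K) = f N := by
      intro x hx
      rw [Finset.mem_range] at hx
      have : (N * K + x) / K = N := by
        rw [mul_comm, Nat.mul_add_div h0, Nat.div_eq_of_lt hx, add_zero]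
      rw [this]
    rw [Finset.sum_congr rfl this, Finset.sum_const, Finset.card_range, nsmul_eq_mul]

lemma thi_sum (K m : ℕ) : ∑ i ∈ Finset.range m, thi K i ≤ 54 * K := by
  rcases Nat.eq_zero_or_pos K with h0 | h0
  · subst h0
    simp [thi]
  have h1 : ∑ i ∈ Finset.range m, thi K i ≤ ∑ i ∈ Finset.range (6 * K + m), thi K i :=
    Finset.sum_le_sum_of_subset_of_nonneg (Finset.range_subset_range.2 (by omega))
      fun i _ _ => thi_nonneg K i
  refine h1.trans (le_of_eq ?_)
  rw [Finset.sum_range_add]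
  have h2 : ∑ x ∈ Finset.range m, thi K (6 * K + x) = 0 := by
    refine Finset.sum_eq_zero fun x _ => ?_
    unfold thi
    rw [if_neg (by omega)]
  have h3 : ∀ i ∈ Finset.range (6 * K), thi K i = (fun n : ℕ => 14 - 2 * (n : ℝ)) (i / K) := by
    intro i hi
    rw [Finset.mem_range] at hi
    unfold thi
    rw [if_pos hi]
  rw [h2, add_zero, Finset.sum_congr rfl h3, sum_div K 6 h0 (fun n : ℕ => 14 - 2 * (n : ℝ))]
  simp only [Finset.sum_range_succ, Finset.sum_range_zero]
  push_cast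
  ring

/-- evaluation of an integral polynomial in a subring -/
lemma aeval_mem_sub (S : Subring A2) {y : A2} (hy : y ∈ S) (G : ℤ[X]) :
    Polynomial.aeval y G ∈ S := by
  rw [Polynomial.aeval_eq_sum_range]
  exact sum_mem fun i _ => zsmul_mem (pow_mem hy i) _

/-- the product of two basis polynomials at a class -/
lemma PP_split {a K t i j : ℕ} (ht : t < K) :
    ∃ H : ℤ[X], PP p a K i * PP p a K j =
      polZ p (cl p a t) (lev K t i) * polZ p (cl p a t) (lev K t j) * H := by
  have hm : t ∈ Finset.range K := Finset.mem_range.2 ht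
  refine ⟨(∏ s ∈ (Finset.range K).erase t, polZ p (cl p a s) (lev K s i)) * X ^ (i - 6 * K) *
    ((∏ s ∈ (Finset.range K).erase t, polZ p (cl p a s) (lev K s j)) * X ^ (j - 6 * K)), ?_⟩
  unfold PP
  rw [← Finset.mul_prod_erase _ _ hm, ← Finset.mul_prod_erase _ (fun s => polZ p (cl p a s)
    (lev K s j)) hm]
  ring

/-- the two top poles of a class -/
lemma pair_VG {a K t i j : ℕ} {Q : ℚ} {ω : ℤ → ℕ → ℚ} (ht : t < K) (hQ : VG p 0 Q)
    (hg : G2 p a (cl p a t))
    (h1 : ∀ i ∈ Finset.Icc 1 6, VG p 0 (ω (cl p a t) i + Q / (p : ℚ) ^ (i + 2)))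
    (h2 : ∀ i ∈ Finset.Icc 1 6, VG p 0 (ω (p - cl p a t) i + Q / (p : ℚ) ^ (i + 2))) :
    VG p (-((thi K i + thi K j) / 2))
      (Su 2 6 0 a a ω (cl p a t) ((PP p a K i * PP p a K j).map (Int.castRingHom ℚ)) +
        Su 2 6 0 a a ω (p - cl p a t) ((PP p a K i * PP p a K j).map (Int.castRingHom ℚ))) := by
  set c := cl p a t with hc
  set G := PP p a K i * PP p a K j with hG
  set n := lev K t i with hn
  set n' := lev K t j with hn'
  obtain ⟨H, hH⟩ := PP_split (p := p) (a := a) (K := K) (t := t) (i := i) (j := j) ht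
  have hn6 : n ≤ 6 := lev_le K t i
  have hn6' : n' ≤ 6 := lev_le K t j
  have hev : Polynomial.aeval (vv p c ^ 2) G =
      (p : A2) ^ n * VV p c n * ((p : A2) ^ n' * VV p c n') * Polynomial.aeval (vv p c ^ 2) H := by
    rw [hG, hH, map_mul, map_mul, aeval_polZ p c hn6, aeval_polZ p c hn6']
  have hHm : Polynomial.aeval (vv p c ^ 2) H ∈ S1 p :=
    aeval_mem_sub _ (pow_mem (vv_mem c) 2) H
  have hev2 : Polynomial.aeval (vv p c ^ 2) G = (p : A2) ^ (n + n') *
      (VV p c n * VV p c n' * Polynomial.aeval (vv p c ^ 2) H) := by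
    rw [hev]; ring
  have hF : VV p c n * VV p c n' * Polynomial.aeval (vv p c ^ 2) H ∈ SS p :=
    mul_mem (mul_mem (VV_mem c n) (VV_mem c n')) (S1_le hHm)
  have hthi := th_lev_le (t := t) (i := i) ht
  have hthj := th_lev_le (t := t) (i := j) ht
  rw [← hn] at hthi
  rw [← hn'] at hthj
  -- main part
  have hmain : VG p (-((thi K i + thi K j) / 2)) (((p : ℚ) ^ 14)⁻¹ *
      Lam (Polynomial.aeval (vv p c ^ 2) G * Phi p a c)) := by
    rw [hev, mul_assoc ((p : A2) ^ n * VV p c n * ((p : A2) ^ n' * VV p c n'))]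
    have h3 := Lam_main (p := p) c hn6 hn6' (mul_mem hHm (Phi_mem hg))
    have h4 : VG p (-14) (((p : ℚ) ^ 14)⁻¹) := by
      right
      rw [padicValRat.inv, padicValRat.pow, padicValRat.self hp.out.one_lt]
      norm_num
    refine (h4.mul h3).mono ?_
    linarith
  -- remainder
  have hrem : ∀ u : ℤ, (u = c ∨ u = c - p ∨ u = -c ∨ u = p - c) → ∀ e : ℕ → ℚ,
      (∀ i ∈ Finset.Icc 1 6, VG p 0 (e i)) → VG p (-((thi K i + thi K j) / 2))
      (∑ i ∈ Finset.Icc 1 6, (Nat.choose (i + 2 - 1) 2 : ℚ) * e i *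
        Acoef 6 0 a a u i (G.map (Int.castRingHom ℚ))) := by
    intro u hu e he
    refine VG.sum fun l hl => ?_
    have h5 := he l hl
    rw [Finset.mem_Icc] at hl
    have h6 := coef_VG hg hu G hF hev2 hl.2
    refine (((VG.nat (p := p) (Nat.choose (l + 2 - 1) 2)).mul h5).mul h6).mono ?_
    have h7 : (1 : ℝ) ≤ l := by exact_mod_cast hl.1
    have h8 : ∀ k : ℕ, k ≤ 6 → 6 ≤ (k : ℝ) + th k / 2 := by
      intro k hk
      unfold th
      split_ifs with h
      · have : (k : ℝ) ≤ 6 := by exact_mod_cast hk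
        linarith
      · have : k = 6 := by omega
        subst this
        norm_num
    have h9 := h8 n hn6
    have h10 := h8 n' hn6'
    push_cast
    linarith
  have hsplit : Su 2 6 0 a a ω c (G.map (Int.castRingHom ℚ)) +
      Su 2 6 0 a a ω (p - c) (G.map (Int.castRingHom ℚ)) =
      -Q * (((p : ℚ) ^ 14)⁻¹ * Lam (Polynomial.aeval (vv p c ^ 2) G * Phi p a c)) +
      (∑ i ∈ Finset.Icc 1 6, (Nat.choose (i + 2 - 1) 2 : ℚ) * (ω c i + Q / (p : ℚ) ^ (i + 2)) *
        Acoef 6 0 a a c i (G.map (Int.castRingHom ℚ))) +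
      (∑ i ∈ Finset.Icc 1 6, (Nat.choose (i + 2 - 1) 2 : ℚ) * (ω (p - c) i + Q / (p : ℚ) ^ (i + 2)) *
        Acoef 6 0 a a (p - c) i (G.map (Int.castRingHom ℚ))) := by
    rw [← Lam_eq hg G, Su, Su, Finset.mul_sum, ← Finset.sum_add_distrib, ← Finset.sum_add_distrib,
      ← Finset.sum_add_distrib]
    refine Finset.sum_congr rfl fun l _ => ?_
    ring
  rw [hsplit]
  refine VG.add (VG.add ?_ ?_) ?_
  · have := hQ.neg.mul hmain
    simpa using this
  · exact hrem c (Or.inl rfl) _ h1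
  · exact hrem (p - c) (Or.inr (Or.inr (Or.inr rfl))) _ h2

/-- a low pole of a class -/
lemma low_VG {a K t i j : ℕ} {ω : ℤ → ℕ → ℚ} (ht : t < K) (hg : G2 p a (cl p a t)) {u : ℤ}
    (hu : u = cl p a t ∨ u = cl p a t - p ∨ u = -cl p a t ∨ u = p - cl p a t)
    (h1 : ∀ i ∈ Finset.Icc 1 6, VG p 0 (ω u i)) :
    VG p (-((thi K i + thi K j) / 2))
      (Su 2 6 0 a a ω u ((PP p a K i * PP p a K j).map (Int.castRingHom ℚ))) := by
  set c := cl p a t with hc
  set G := PP p a K i * PP p a K j with hG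
  set n := lev K t i with hn
  set n' := lev K t j with hn'
  obtain ⟨H, hH⟩ := PP_split (p := p) (a := a) (K := K) (t := t) (i := i) (j := j) ht
  have hn6 : n ≤ 6 := lev_le K t i
  have hn6' : n' ≤ 6 := lev_le K t j
  have hHm : Polynomial.aeval (vv p c ^ 2) H ∈ S1 p :=
    aeval_mem_sub _ (pow_mem (vv_mem c) 2) H
  have hev2 : Polynomial.aeval (vv p c ^ 2) G = (p : A2) ^ (n + n') *
      (VV p c n * VV p c n' * Polynomial.aeval (vv p c ^ 2) H) := by
    rw [hG, hH, map_mul, map_mul, aeval_polZ p c hn6, aeval_polZ p c hn6']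
    ring
  have hF : VV p c n * VV p c n' * Polynomial.aeval (vv p c ^ 2) H ∈ SS p :=
    mul_mem (mul_mem (VV_mem c n) (VV_mem c n')) (S1_le hHm)
  have hthi := th_lev_le (t := t) (i := i) ht
  have hthj := th_lev_le (t := t) (i := j) ht
  rw [← hn] at hthi
  rw [← hn'] at hthj
  rw [Su]
  refine VG.sum fun l hl => ?_
  have h5 := h1 l hl
  rw [Finset.mem_Icc] at hl
  have h6 := coef_VG hg hu G hF hev2 hl.2
  refine (((VG.nat (p := p) (Nat.choose (l + 2 - 1) 2)).mul h5).mul h6).mono ?_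
  have h7 : (1 : ℝ) ≤ l := by exact_mod_cast hl.1
  have h8 : ∀ k : ℕ, k ≤ 6 → 6 ≤ (k : ℝ) + th k / 2 := by
    intro k hk
    unfold th
    split_ifs with h
    · have : (k : ℝ) ≤ 6 := by exact_mod_cast hk
      linarith
    · have : k = 6 := by omega
      subst this
      norm_num
  have h9 := h8 n hn6
  have h10 := h8 n' hn6'
  push_cast
  linarith

/-- a pole of a single-pole class -/
lemma single_VG {a : ℕ} {ω : ℤ → ℕ → ℚ} {u : ℤ} (hu2 : |u| ≤ (p : ℤ) - a)
    (G : ℤ[X]) (h1 : ∀ i ∈ Finset.Icc 1 6, VG p 0 (ω u i)) :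
    VG p 0 (Su 2 6 0 a a ω u (G.map (Int.castRingHom ℚ))) := by
  have hone : ∀ w ∈ pc a, (p : ℤ) ∣ w - u → w = u := by
    intro w hw hd
    rw [mem_pc] at hw
    have h3 := abs_le.1 hu2
    obtain ⟨k, hk⟩ := hd
    have hp0 : (0 : ℤ) < p := by exact_mod_cast hp.out.pos
    have hk1 : -1 < k := by
      by_contra hcc
      push Not at hcc
      have : (p : ℤ) * k ≤ p * (-1) := mul_le_mul_of_nonneg_left hcc (by positivity)
      omega
    have hk2 : k < 1 := by
      by_contra hcc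
      push Not at hcc
      have : (p : ℤ) * 1 ≤ p * k := mul_le_mul_of_nonneg_left hcc (by positivity)
      omega
    have h0 : k = 0 := by omega
    rw [h0, mul_zero] at hk
    omega
  rw [Su]
  refine VG.sum fun l hl => ?_
  have h5 := h1 l hl
  rw [Finset.mem_Icc] at hl
  have h2 := base_WA_zero (p := p) (q := 6) (B := 0) (b := a) hone
  have h3 : WA p 0 0 (Polynomial.aeval (lin (-u) ^ 2) (G.map (Int.castRingHom ℚ))) :=
    WA.aeval_int le_rfl (-u) G
  have h4 := (h2.mul h3) (6 - l)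
  have := ((VG.nat (p := p) (Nat.choose (l + 2 - 1) 2)).mul h5).mul h4
  simpa [Acoef_apply] using this

lemma VG_half (hp2 : p ≠ 2) {t : ℝ} {x : ℚ} (h : VG p t (2 * x)) : VG p t x := by
  have h2 : VG p 0 ((2 : ℚ)⁻¹) := by
    right
    have h3 : padicValRat p ((2 : ℕ) : ℚ) = 0 := by
      rw [padicValRat.of_nat]
      have : padicValNat p 2 = 0 := padicValNat_primes hp2
      rw [this]; rfl
    rw [padicValRat.inv]
    have h4 : padicValRat p (2 : ℚ) = 0 := by exact_mod_cast h3
    rw [h4]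
    simp
  have := h2.mul h
  simpa using this

/-- the entries of the Gram matrix -/
theorem entry_VG {a K i j : ℕ} {Q : ℚ} {ω : ℤ → ℕ → ℚ} (hp2 : p ≠ 2) (hap : a ≤ p)
    (hK : 2 * K + 1 + p = 2 * a) (hQ : VG p 0 Q)
    (hlow : ∀ u ∈ pc a, u + a - 1 < p → ∀ i ∈ Finset.Icc 1 6, VG p 0 (ω u i))
    (htop : ∀ u ∈ pc a, (p : ℤ) ≤ u + a - 1 → ∀ i ∈ Finset.Icc 1 6,
      VG p 0 (ω u i + Q / (p : ℚ) ^ (i + 2))) :
    VG p (-((thi K i + thi K j) / 2))
      (Lw 2 6 0 a a ω ((PP p a K i).map (Int.castRingHom ℚ) *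
        (PP p a K j).map (Int.castRingHom ℚ))) := by
  rw [← Polynomial.map_mul, Lw_eq_sum_Su]
  set G := (PP p a K i * PP p a K j).map (Int.castRingHom ℚ) with hG
  have hi0 := thi_nonneg K i
  have hj0 := thi_nonneg K j
  -- geometry
  have hgeo : ∀ t < K, G2 p a (cl p a t) := by
    intro t ht
    refine ⟨hap, ?_, ?_⟩ <;> unfold cl <;> omega
  -- split
  have hsub : Finset.Icc ((p : ℤ) - a + 1) ((a : ℤ) - 1) ⊆ pc a := by
    intro u hu
    rw [Finset.mem_Icc] at hu
    rw [mem_pc]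
    omega
  rw [← Finset.sum_sdiff hsub]
  refine VG.add ?_ ?_
  · -- low poles
    refine VG.sum fun u hu => ?_
    rw [Finset.mem_sdiff, Finset.mem_Icc] at hu
    obtain ⟨hu1, hu2⟩ := hu
    have hu3 := mem_pc.1 hu1
    have hlt : u + a - 1 < p := by omega
    by_cases h3 : |u| ≤ (p : ℤ) - a
    · refine (single_VG h3 _ (hlow u hu1 hlt)).mono ?_
      linarith
    · have h4 : u < -((p : ℤ) - a) := by
        by_contra h5
        apply h3
        rw [abs_le]
        omega
      by_cases h5 : 2 * (-u) ≤ p - 1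
      · -- `u = -c`
        obtain ⟨t, ht⟩ : ∃ t : ℕ, -u = (p : ℤ) - a + 1 + t := ⟨(-u - (p - a + 1)).toNat, by omega⟩
        have htK : t < K := by omega
        have hcl : u = -cl p a t := by unfold cl; omega
        exact low_VG htK (hgeo t htK) (Or.inr (Or.inr (Or.inl hcl))) (hlow u hu1 hlt)
      · -- `u = c - p`
        obtain ⟨t, ht⟩ : ∃ t : ℕ, u + p = (p : ℤ) - a + 1 + t :=
          ⟨(u + p - (p - a + 1)).toNat, by omega⟩
        have htK : t < K := by omega
        have hcl : u = cl p a t - p := by unfold cl; omega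
        exact low_VG htK (hgeo t htK) (Or.inr (Or.inl hcl)) (hlow u hu1 hlt)
  · -- top poles
    refine VG_half hp2 ?_
    have hrefl : ∑ u ∈ Finset.Icc ((p : ℤ) - a + 1) ((a : ℤ) - 1), Su 2 6 0 a a ω u G =
        ∑ u ∈ Finset.Icc ((p : ℤ) - a + 1) ((a : ℤ) - 1), Su 2 6 0 a a ω (p - u) G := by
      refine Finset.sum_nbij' (fun u => (p : ℤ) - u) (fun u => (p : ℤ) - u) ?_ ?_ ?_ ?_ ?_
      · intro u hu; rw [Finset.mem_Icc] at hu ⊢; omega
      · intro u hu; rw [Finset.mem_Icc] at hu ⊢; omega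
      · intro u _; ring
      · intro u _; ring
      · intro u _
        congr 1; ring
    have h2 : 2 * ∑ u ∈ Finset.Icc ((p : ℤ) - a + 1) ((a : ℤ) - 1), Su 2 6 0 a a ω u G =
        ∑ u ∈ Finset.Icc ((p : ℤ) - a + 1) ((a : ℤ) - 1),
          (Su 2 6 0 a a ω u G + Su 2 6 0 a a ω (p - u) G) := by
      rw [Finset.sum_add_distrib, ← hrefl]
      ring
    rw [h2]
    refine VG.sum fun u hu => ?_
    have hu1 := hsub hu
    rw [Finset.mem_Icc] at hu
    have hu2 : (p : ℤ) - u ∈ pc a := by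
      rw [mem_pc]; omega
    have ht1 := htop u hu1 (by omega)
    have ht2 := htop ((p : ℤ) - u) hu2 (by omega)
    by_cases h5 : 2 * u ≤ p - 1
    · obtain ⟨t, ht⟩ : ∃ t : ℕ, u = (p : ℤ) - a + 1 + t := ⟨(u - (p - a + 1)).toNat, by omega⟩
      have htK : t < K := by omega
      have hcl : u = cl p a t := by unfold cl; omega
      rw [hcl] at ht1 ht2 ⊢
      exact pair_VG htK hQ (hgeo t htK) ht1 ht2
    · obtain ⟨t, ht⟩ : ∃ t : ℕ, (p : ℤ) - u = (p : ℤ) - a + 1 + t :=
        ⟨((p : ℤ) - u - (p - a + 1)).toNat, by omega⟩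
      have htK : t < K := by omega
      have hcl : (p : ℤ) - u = cl p a t := by unfold cl; omega
      have hcl2 : u = (p : ℤ) - cl p a t := by omega
      rw [hcl] at ht2
      rw [hcl2] at ht1
      have e : VG p (-((thi K i + thi K j) / 2)) (Su 2 6 0 a a ω (cl p a t) G +
        Su 2 6 0 a a ω (p - cl p a t) G) := pair_VG htK hQ (hgeo t htK) ht2 ht1
      rw [add_comm (Su 2 6 0 a a ω (cl p a t) G)] at e
      rw [hcl, hcl2]
      exact e

/-- the class bound -/
theorem hank_VG {a K m : ℕ} {Q : ℚ} {ω : ℤ → ℕ → ℚ} (hp2 : p ≠ 2) (hap : a ≤ p)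
    (hK : 2 * K + 1 + p = 2 * a) (hQ : VG p 0 Q)
    (hlow : ∀ u ∈ pc a, u + a - 1 < p → ∀ i ∈ Finset.Icc 1 6, VG p 0 (ω u i))
    (htop : ∀ u ∈ pc a, (p : ℤ) ≤ u + a - 1 → ∀ i ∈ Finset.Icc 1 6,
      VG p 0 (ω u i + Q / (p : ℚ) ^ (i + 2))) :
    VG p (-(54 * (K : ℝ))) (hank (Lw 2 6 0 a a ω) m) := by
  have h1 := VG_hank (p := p) (Lw 2 6 0 a a ω) m
    (fun i => (PP p a K i).map (Int.castRingHom ℚ)) (thi K)
    (fun i => (PP_monic p a K i).map _)
    (fun i => by rw [(PP_monic p a K i).natDegree_map, PP_natDegree])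
    (fun i j => entry_VG hp2 hap hK hQ hlow htop)
  refine h1.mono (neg_le_neg ?_)
  exact thi_sum K m

end

end C54

end Z579
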