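import Pool.Agent.Lib.Z579.Num5

/-!
# The certificate 2
-/

open Real Finset Set

namespace Z579

namespace Num

open Arch EM

set_option maxRecDepth 100000

/-- parameters for `{9, 11, ..., 21}` -/
noncomputable def P2 : Par :=
  { r := 6, q := 16, al := 16, t1 := 10, tau := 20, eps := 22, mu := 126, c1 := 43 / 10,
    c2 := 23 / 10, d := 37 / 44 }

def D2 : Dat :=
  { l := -198507
    sL := [412616, 297697, 223750, 165723, 118446, 79612, 48047, 23235, 5258, 0, 4440, 8673, 6698, 2864, 0, 0, 0, 0, 0, 0]
    sR := [297699, 223752, 165725, 118448, 79614, 48048, 23236, 5259, 0, 141, 9522, 6885, 2946, 0, 0, 0, 0, 0, 0, 0]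
    eL := [734830, 715891, 704181, 696316, 691282, 688643, 688221, 690015, 694215, 701186, 716289, 731341, 741177, 749491, 757067, 764300, 771453, 778756, 786466, 794892]
    eR := [715245, 704044, 696261, 691258, 688636, 688229, 690046, 694300, 701605, 714135, 731339, 741176, 749491, 757070, 764305, 771463, 778776, 786514, 795117, 805829]
    fL := [806953, 810671, 814595, 818714, 823016, 827481, 832093, 836831, 841680, 846626, 851656, 856764, 861943, 867194, 872517, 877920, 883414, 889015, 894750, 900657, 906801, 913275]
    fR := [810670, 814593, 818712, 823013, 827479, 832090, 836829, 841678, 846624, 851655, 856762, 861942, 867193, 872517, 877921, 883415, 889017, 894753, 900664, 906819, 913357, 920720] }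

lemma line2_0 : allB 20 (fun j => chkLine 16 16 10 20 22 946 506 185 220 (-198507) (0 + j)) = true := by decide +kernel

lemma line2_1 : allB 20 (fun j => chkLine 16 16 10 20 22 946 506 185 220 (-198507) (20 + j)) = true := by decide +kernel

lemma line2_2 : allB 20 (fun j => chkLine 16 16 10 20 22 946 506 185 220 (-198507) (40 + j)) = true := by decide +kernel

lemma line2_3 : allB 20 (fun j => chkLine 16 16 10 20 22 946 506 185 220 (-198507) (60 + j)) = true := by decide +kernel

lemma line2_4 : allB 20 (fun j => chkLine 16 16 10 20 22 946 506 185 220 (-198507) (80 + j)) = true := by decide +kernel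

lemma line2_5 : allB 20 (fun j => chkLine 16 16 10 20 22 946 506 185 220 (-198507) (100 + j)) = true := by decide +kernel

lemma site2 : allB 20 (fun i => chkSite 16 16 10 20 22 946 506 185 220 D2 i) = true := by decide +kernel

lemma es2 : allB 20 (fun i => chkS 16 10 20 22 946 506 185 220 D2 i) = true := by decide +kernel

lemma el2 : allB 22 (fun i => chkL 16 10 20 22 946 506 185 220 D2 i) = true := by decide +kernel

lemma tot2 : totZ 6 126 10 20 22 946 506 185 220 D2 ≤ 2000 * 220 * (-112185) := by decide +kernel

lemma ok2 : (P2).Ok := by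
  constructor <;> norm_num [P2]

theorem cert2 : Nonempty (Cert P2 (-112185 : ℤ)) := by
  refine mk_cert P2 ok2 (C1 := 946) (C2 := 506) (Dd := 185) (den := 220) (by norm_num)
    (by norm_num [P2]) (by norm_num [P2]) (by norm_num [P2]) D2 120 (-112185) (by norm_num [P2])
    (by norm_num [P2]) ?_ ?_ ?_ ?_ ?_
  · intro j hj
    rcases lt_or_ge j 20 with h | h
    · obtain ⟨i, rfl⟩ : ∃ i, j = 0 + i := ⟨j - 0, by omega⟩
      exact allB_spec line2_0 i (by omega)
    rcases lt_or_ge j 40 with h | h
    · obtain ⟨i, rfl⟩ : ∃ i, j = 20 + i := ⟨j - 20, by omega⟩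
      exact allB_spec line2_1 i (by omega)
    rcases lt_or_ge j 60 with h | h
    · obtain ⟨i, rfl⟩ : ∃ i, j = 40 + i := ⟨j - 40, by omega⟩
      exact allB_spec line2_2 i (by omega)
    rcases lt_or_ge j 80 with h | h
    · obtain ⟨i, rfl⟩ : ∃ i, j = 60 + i := ⟨j - 60, by omega⟩
      exact allB_spec line2_3 i (by omega)
    rcases lt_or_ge j 100 with h | h
    · obtain ⟨i, rfl⟩ : ∃ i, j = 80 + i := ⟨j - 80, by omega⟩
      exact allB_spec line2_4 i (by omega)
    obtain ⟨i, rfl⟩ : ∃ i, j = 100 + i := ⟨j - 100, by omega⟩
    exact allB_spec line2_5 i (by omega)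
  · exact fun i hi => allB_spec site2 i hi
  · exact fun i hi => allB_spec es2 i hi
  · exact fun i hi => allB_spec el2 i hi
  · exact tot2

end Num

end Z579
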