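import Pool.Agent.Lib.Z579.Num5

/-!
# The certificate 3
-/

open Real Finset Set

namespace Z579

namespace Num

open Arch EM

set_option maxRecDepth 100000

/-- parameters for `{7, 9, 11, 13, 15}` -/
noncomputable def P3 : Par :=
  { r := 4, q := 12, al := 12, t1 := 8, tau := 13, eps := 13, mu := 70, c1 := 27 / 10, c2 := 2,
    d := 56 / 65 }

def D3 : Dat :=
  { l := -137463
    sL := [242931, 163770, 114627, 77206, 47815, 24922, 7961, 0, 0, 255, 0, 0, 0]
    sR := [163772, 114628, 77208, 47817, 24923, 7962, 0, 0, 788, 0, 0, 0, 0]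
    eL := [363876, 351387, 344112, 339669, 337382, 337011, 338553, 342181, 351237, 360596, 367065, 373071, 379288]
    eR := [350929, 344018, 339636, 337373, 337023, 338604, 342444, 349888, 360602, 367079, 373111, 379482, 387436]
    fL := [388394, 391712, 395358, 399288, 403447, 407785, 412268, 416874, 421602, 426463, 431491, 436746, 442322]
    fR := [391708, 395353, 399283, 403442, 407782, 412265, 416873, 421602, 426466, 431497, 436763, 442405, 448875] }

lemma line3_0 : allB 20 (fun j => chkLine 12 12 8 13 13 351 260 112 130 (-137463) (0 + j)) = true := by decide +kernel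

lemma line3_1 : allB 20 (fun j => chkLine 12 12 8 13 13 351 260 112 130 (-137463) (20 + j)) = true := by decide +kernel

lemma line3_2 : allB 20 (fun j => chkLine 12 12 8 13 13 351 260 112 130 (-137463) (40 + j)) = true := by decide +kernel

lemma line3_3 : allB 20 (fun j => chkLine 12 12 8 13 13 351 260 112 130 (-137463) (60 + j)) = true := by decide +kernel

lemma site3 : allB 13 (fun i => chkSite 12 12 8 13 13 351 260 112 130 D3 i) = true := by decide +kernel

lemma es3 : allB 13 (fun i => chkS 12 8 13 13 351 260 112 130 D3 i) = true := by decide +kernel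

lemma el3 : allB 13 (fun i => chkL 12 8 13 13 351 260 112 130 D3 i) = true := by decide +kernel

lemma tot3 : totZ 4 70 8 13 13 351 260 112 130 D3 ≤ 2000 * 130 * (-32752) := by decide +kernel

lemma ok3 : (P3).Ok := by
  constructor <;> norm_num [P3]

theorem cert3 : Nonempty (Cert P3 (-32752 : ℤ)) := by
  refine mk_cert P3 ok3 (C1 := 351) (C2 := 260) (Dd := 112) (den := 130) (by norm_num)
    (by norm_num [P3]) (by norm_num [P3]) (by norm_num [P3]) D3 80 (-32752) (by norm_num [P3])
    (by norm_num [P3]) ?_ ?_ ?_ ?_ ?_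
  · intro j hj
    rcases lt_or_ge j 20 with h | h
    · obtain ⟨i, rfl⟩ : ∃ i, j = 0 + i := ⟨j - 0, by omega⟩
      exact allB_spec line3_0 i (by omega)
    rcases lt_or_ge j 40 with h | h
    · obtain ⟨i, rfl⟩ : ∃ i, j = 20 + i := ⟨j - 20, by omega⟩
      exact allB_spec line3_1 i (by omega)
    rcases lt_or_ge j 60 with h | h
    · obtain ⟨i, rfl⟩ : ∃ i, j = 40 + i := ⟨j - 40, by omega⟩
      exact allB_spec line3_2 i (by omega)
    obtain ⟨i, rfl⟩ : ∃ i, j = 60 + i := ⟨j - 60, by omega⟩
    exact allB_spec line3_3 i (by omega)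
  · exact fun i hi => allB_spec site3 i hi
  · exact fun i hi => allB_spec es3 i hi
  · exact fun i hi => allB_spec el3 i hi
  · exact tot3

end Num

end Z579
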