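import Pool.Agent.Lib.Z579.Num5

/-!
# Certificate for `{5, 7}` with `m = 3 a`, scale 24
-/

set_option autoImplicit false

open Real Finset Set

namespace Z579

namespace Num

open Arch EM

set_option maxRecDepth 100000

/-- parameters for `{5, 7}`, `a = 24 k + 1`, `m = 72 k` -/
noncomputable def PS24 : Par :=
  { r := 2, q := 6, al := 24, t1 := 11, tau := 15, eps := 17, mu := 72, c1 := 3 / 4,
    c2 := 17 / 8, d := 15 / 16 }

def DS24 : Dat :=
  { l := -152491
    sL := [226865, 176125, 141835, 113888, 90174, 69723, 52002, 36706, 23683, 12924, 4636, 873,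
      0, 0, 0]
    sR := [176125, 141834, 113888, 90173, 69722, 52002, 36706, 23683, 12923, 4636, 123, 0, 0, 0,
      0]
    eL := [449145, 439583, 433099, 428207, 424447, 421608, 419580, 418313, 417799, 418079,
      419244, 422274, 425826, 429146, 433093]
    eR := [439301, 433039, 428182, 424435, 421602, 419578, 418315, 417806, 418098, 419322,
      421908, 425844, 429190, 433302, 439411]
    fL := [440459, 443858, 447367, 450962, 454620, 458322, 462059, 465827, 469629, 473474,
      477375, 481349, 485422, 489628, 494016, 498661, 503671]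
    fR := [443857, 447365, 450960, 454618, 458321, 462058, 465827, 469630, 473475, 477376,
      481351, 485425, 489633, 494025, 498682, 503763, 509764] }

private lemma lineS24_0 : allB 20 (fun j => chkLine 6 24 11 15 17 12 34 15 16 (-152491) (0 + j)) = true := by
  decide +kernel

private lemma lineS24_1 : allB 20 (fun j => chkLine 6 24 11 15 17 12 34 15 16 (-152491) (20 + j)) = true := by
  decide +kernel

private lemma lineS24_2 : allB 20 (fun j => chkLine 6 24 11 15 17 12 34 15 16 (-152491) (40 + j)) = true := by
  decide +kernel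

private lemma lineS24_3 : allB 12 (fun j => chkLine 6 24 11 15 17 12 34 15 16 (-152491) (60 + j)) = true := by
  decide +kernel

private lemma siteS24 : allB 15 (fun i => chkSite 6 24 11 15 17 12 34 15 16 DS24 i) = true := by
  decide +kernel

private lemma esS24 : allB 15 (fun i => chkS 24 11 15 17 12 34 15 16 DS24 i) = true := by
  decide +kernel

private lemma elS24 : allB 17 (fun i => chkL 24 11 15 17 12 34 15 16 DS24 i) = true := by
  decide +kernel

private lemma totS24 : totZ 2 72 11 15 17 12 34 15 16 DS24 ≤ 2000 * 16 * (-40625) := by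
  decide +kernel

lemma okS24 : (PS24).Ok := by
  constructor <;> norm_num [PS24]

theorem certS24 : Nonempty (Cert PS24 (-40625 : ℤ)) := by
  refine mk_cert PS24 okS24 (C1 := 12) (C2 := 34) (Dd := 15) (den := 16) (by norm_num)
    (by norm_num [PS24]) (by norm_num [PS24]) (by norm_num [PS24]) DS24 72 (-40625) (by norm_num [PS24])
    (by norm_num [PS24]) ?_ ?_ ?_ ?_ ?_
  · intro j hj
    rcases lt_or_ge j 20 with h | h
    · obtain ⟨i, rfl⟩ : ∃ i, j = 0 + i := ⟨j - 0, by omega⟩
      exact allB_spec lineS24_0 i (by omega)
    rcases lt_or_ge j 40 with h | h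
    · obtain ⟨i, rfl⟩ : ∃ i, j = 20 + i := ⟨j - 20, by omega⟩
      exact allB_spec lineS24_1 i (by omega)
    rcases lt_or_ge j 60 with h | h
    · obtain ⟨i, rfl⟩ : ∃ i, j = 40 + i := ⟨j - 40, by omega⟩
      exact allB_spec lineS24_2 i (by omega)
    obtain ⟨i, rfl⟩ : ∃ i, j = 60 + i := ⟨j - 60, by omega⟩
    exact allB_spec lineS24_3 i (by omega)
  · exact fun i hi => allB_spec siteS24 i hi
  · exact fun i hi => allB_spec esS24 i hi
  · exact fun i hi => allB_spec elS24 i hi
  · exact totS24

end Num

end Z579
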