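import Pool.Agent.Lib.Z579.Num5

/-!
# Certificate for `{5, 7}` with `m = 3 a`, scale 36
-/

set_option autoImplicit false

open Real Finset Set

namespace Z579

namespace Num

open Arch EM

set_option maxRecDepth 100000

/-- parameters for `{5, 7}`, `a = 36 k + 1`, `m = 108 k` -/
noncomputable def PS36 : Par :=
  { r := 2, q := 6, al := 36, t1 := 16, tau := 23, eps := 25, mu := 108, c1 := 29 / 30,
    c2 := 31 / 15, d := 9 / 10 }

def DS36 : Dat :=
  { l := -228396
    sL := [333247, 276741, 237089, 203894, 174960, 149258, 126194, 105387, 86582, 69602, 54332,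
      40703, 28696, 18346, 9780, 3330, 1631, 0, 0, 0, 0, 0, 0]
    sR := [276741, 237089, 203894, 174960, 149258, 126194, 105387, 86581, 69602, 54332, 40703,
      28695, 18346, 9780, 3330, 664, 0, 0, 0, 0, 0, 0, 0]
    eL := [758629, 747456, 739485, 733139, 727921, 723591, 720008, 717087, 714773, 713030,
      711844, 711211, 711150, 711696, 712923, 714940, 718983, 723247, 726614, 729975, 733599,
      737720, 742607]
    eR := [747157, 739420, 733111, 727906, 723582, 720003, 717084, 714771, 713030, 711844,
      711214, 711154, 711705, 712944, 715037, 718502, 723250, 726620, 729985, 733618, 737764,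
      742810, 749862]
    fL := [750885, 754175, 757550, 761003, 764525, 768106, 771736, 775407, 779113, 782850,
      786616, 790411, 794236, 798095, 801992, 805933, 809927, 813985, 818119, 822347, 826690,
      831181, 835863, 840808, 846116]
    fR := [754175, 757549, 761002, 764524, 768105, 771735, 775406, 779112, 782850, 786616,
      790411, 794236, 798095, 801992, 805933, 809928, 813986, 818120, 822349, 826693, 831186,
      835872, 840828, 846205, 852475] }

private lemma lineS36_0 : allB 20 (fun j => chkLine 6 36 16 23 25 29 62 27 30 (-228396) (0 + j)) = true := by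
  decide +kernel

private lemma lineS36_1 : allB 20 (fun j => chkLine 6 36 16 23 25 29 62 27 30 (-228396) (20 + j)) = true := by
  decide +kernel

private lemma lineS36_2 : allB 20 (fun j => chkLine 6 36 16 23 25 29 62 27 30 (-228396) (40 + j)) = true := by
  decide +kernel

private lemma lineS36_3 : allB 20 (fun j => chkLine 6 36 16 23 25 29 62 27 30 (-228396) (60 + j)) = true := by
  decide +kernel

private lemma lineS36_4 : allB 20 (fun j => chkLine 6 36 16 23 25 29 62 27 30 (-228396) (80 + j)) = true := by
  decide +kernel

private lemma lineS36_5 : allB 8 (fun j => chkLine 6 36 16 23 25 29 62 27 30 (-228396) (100 + j)) = true := by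
  decide +kernel

private lemma siteS36 : allB 23 (fun i => chkSite 6 36 16 23 25 29 62 27 30 DS36 i) = true := by
  decide +kernel

private lemma esS36 : allB 23 (fun i => chkS 36 16 23 25 29 62 27 30 DS36 i) = true := by
  decide +kernel

private lemma elS36 : allB 25 (fun i => chkL 36 16 23 25 29 62 27 30 DS36 i) = true := by
  decide +kernel

private lemma totS36 : totZ 2 108 16 23 25 29 62 27 30 DS36 ≤ 2000 * 30 * (-100927) := by
  decide +kernel

lemma okS36 : (PS36).Ok := by
  constructor <;> norm_num [PS36]

theorem certS36 : Nonempty (Cert PS36 (-100927 : ℤ)) := by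
  refine mk_cert PS36 okS36 (C1 := 29) (C2 := 62) (Dd := 27) (den := 30) (by norm_num)
    (by norm_num [PS36]) (by norm_num [PS36]) (by norm_num [PS36]) DS36 108 (-100927) (by norm_num [PS36])
    (by norm_num [PS36]) ?_ ?_ ?_ ?_ ?_
  · intro j hj
    rcases lt_or_ge j 20 with h | h
    · obtain ⟨i, rfl⟩ : ∃ i, j = 0 + i := ⟨j - 0, by omega⟩
      exact allB_spec lineS36_0 i (by omega)
    rcases lt_or_ge j 40 with h | h
    · obtain ⟨i, rfl⟩ : ∃ i, j = 20 + i := ⟨j - 20, by omega⟩
      exact allB_spec lineS36_1 i (by omega)
    rcases lt_or_ge j 60 with h | h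
    · obtain ⟨i, rfl⟩ : ∃ i, j = 40 + i := ⟨j - 40, by omega⟩
      exact allB_spec lineS36_2 i (by omega)
    rcases lt_or_ge j 80 with h | h
    · obtain ⟨i, rfl⟩ : ∃ i, j = 60 + i := ⟨j - 60, by omega⟩
      exact allB_spec lineS36_3 i (by omega)
    rcases lt_or_ge j 100 with h | h
    · obtain ⟨i, rfl⟩ : ∃ i, j = 80 + i := ⟨j - 80, by omega⟩
      exact allB_spec lineS36_4 i (by omega)
    obtain ⟨i, rfl⟩ : ∃ i, j = 100 + i := ⟨j - 100, by omega⟩
    exact allB_spec lineS36_5 i (by omega)
  · exact fun i hi => allB_spec siteS36 i hi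
  · exact fun i hi => allB_spec esS36 i hi
  · exact fun i hi => allB_spec elS36 i hi
  · exact totS36

end Num

end Z579
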