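import Mathlib

/-!
# E1: the kernel `log (1 + |x - y|^2)` is conditionally negative definite
-/

open Finset Filter Topology MeasureTheory

namespace Z579

namespace EM

/-- the real inner product on `ℂ` -/
noncomputable def ip (x y : ℂ) : ℝ := x.re * y.re + x.im * y.im

lemma norm_sub_sq_ip (x y : ℂ) : ‖x - y‖ ^ 2 = ‖x‖ ^ 2 + ‖y‖ ^ 2 - 2 * ip x y := by
  unfold ip
  rw [Complex.sq_norm, Complex.sq_norm, Complex.sq_norm, Complex.normSq_apply,
    Complex.normSq_apply, Complex.normSq_apply, Complex.sub_re, Complex.sub_im]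
  ring

lemma ip_pow_psd {ι : Type*} (s : Finset ι) (x : ι → ℂ) (a : ι → ℝ) (k : ℕ) :
    0 ≤ ∑ i ∈ s, ∑ j ∈ s, a i * a j * ip (x i) (x j) ^ k := by
  have h : ∑ i ∈ s, ∑ j ∈ s, a i * a j * ip (x i) (x j) ^ k =
      ∑ m ∈ Finset.range (k + 1), (k.choose m : ℝ) *
        (∑ i ∈ s, a i * ((x i).re ^ m * (x i).im ^ (k - m))) ^ 2 := by
    have h1 : ∀ i j, a i * a j * ip (x i) (x j) ^ k = ∑ m ∈ Finset.range (k + 1),
        (k.choose m : ℝ) * ((a i * ((x i).re ^ m * (x i).im ^ (k - m))) *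
          (a j * ((x j).re ^ m * (x j).im ^ (k - m)))) := by
      intro i j
      unfold ip
      rw [add_pow, Finset.mul_sum]
      refine Finset.sum_congr rfl fun m _ => ?_
      rw [mul_pow, mul_pow]
      ring
    simp_rw [h1]
    rw [Finset.sum_congr rfl fun i _ => Finset.sum_comm]
    rw [Finset.sum_comm]
    refine Finset.sum_congr rfl fun m _ => ?_
    rw [sq, Finset.sum_mul_sum, Finset.mul_sum]
    refine Finset.sum_congr rfl fun i _ => ?_
    rw [Finset.mul_sum]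
  rw [h]
  exact Finset.sum_nonneg fun m _ => mul_nonneg (Nat.cast_nonneg _) (sq_nonneg _)

lemma exp_ip_psd {ι : Type*} (s : Finset ι) (x : ι → ℂ) (a : ι → ℝ) (c : ℝ) (hc : 0 ≤ c) :
    0 ≤ ∑ i ∈ s, ∑ j ∈ s, a i * a j * Real.exp (c * ip (x i) (x j)) := by
  have h1 : ∀ i j, HasSum (fun k : ℕ => a i * a j * (c ^ k / k.factorial * ip (x i) (x j) ^ k))
      (a i * a j * Real.exp (c * ip (x i) (x j))) := by
    intro i j
    have := (NormedSpace.expSeries_div_hasSum_exp (𝔸 := ℝ) (c * ip (x i) (x j)))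
    rw [← Real.exp_eq_exp_ℝ] at this
    refine (this.mul_left (a i * a j)).congr_fun ?_ |> fun h => h
    intro k
    rw [mul_pow]
    ring
  have h2 : HasSum (fun k : ℕ => ∑ i ∈ s, ∑ j ∈ s,
      a i * a j * (c ^ k / k.factorial * ip (x i) (x j) ^ k))
      (∑ i ∈ s, ∑ j ∈ s, a i * a j * Real.exp (c * ip (x i) (x j))) :=
    hasSum_sum fun i _ => hasSum_sum fun j _ => h1 i j
  refine h2.nonneg fun k => ?_
  have h3 : ∑ i ∈ s, ∑ j ∈ s, a i * a j * (c ^ k / k.factorial * ip (x i) (x j) ^ k) =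
      c ^ k / k.factorial * ∑ i ∈ s, ∑ j ∈ s, a i * a j * ip (x i) (x j) ^ k := by
    rw [Finset.mul_sum]
    refine Finset.sum_congr rfl fun i _ => ?_
    rw [Finset.mul_sum]
    refine Finset.sum_congr rfl fun j _ => ?_
    ring
  rw [h3]
  exact mul_nonneg (by positivity) (ip_pow_psd s x a k)

lemma gauss_psd {ι : Type*} (s : Finset ι) (x : ι → ℂ) (δ : ι → ℝ) (c : ℝ) (hc : 0 ≤ c) :
    0 ≤ ∑ i ∈ s, ∑ j ∈ s, δ i * δ j * Real.exp (-(c * ‖x i - x j‖ ^ 2)) := by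
  have h := exp_ip_psd s x (fun i => δ i * Real.exp (-(c * ‖x i‖ ^ 2))) (2 * c) (by positivity)
  refine h.trans (le_of_eq ?_)
  refine Finset.sum_congr rfl fun i _ => Finset.sum_congr rfl fun j _ => ?_
  rw [norm_sub_sq_ip]
  have : Real.exp (-(c * (‖x i‖ ^ 2 + ‖x j‖ ^ 2 - 2 * ip (x i) (x j)))) =
      Real.exp (-(c * ‖x i‖ ^ 2)) * Real.exp (-(c * ‖x j‖ ^ 2)) *
        Real.exp (2 * c * ip (x i) (x j)) := by
    rw [← Real.exp_add, ← Real.exp_add]
    congr 1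
    ring
  rw [this]
  ring

lemma resolvent_psd {ι : Type*} (s : Finset ι) (x : ι → ℂ) (δ : ι → ℝ) (u : ℝ) (hu : 0 ≤ u) :
    0 ≤ ∑ i ∈ s, ∑ j ∈ s, δ i * δ j * (1 + u * ‖x i - x j‖ ^ 2)⁻¹ := by
  have h1 : ∀ i j, (1 + u * ‖x i - x j‖ ^ 2)⁻¹ =
      ∫ t : ℝ in Set.Ioi 0, Real.exp (-(1 + u * ‖x i - x j‖ ^ 2) * t) := by
    intro i j
    have hpos : 0 < 1 + u * ‖x i - x j‖ ^ 2 := by positivity
    rw [integral_exp_mul_Ioi (by linarith) 0]
    rw [mul_zero, Real.exp_zero, neg_div_neg_eq, one_div]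
  have hint : ∀ i j, IntegrableOn (fun t : ℝ => δ i * δ j *
      Real.exp (-(1 + u * ‖x i - x j‖ ^ 2) * t)) (Set.Ioi 0) := by
    intro i j
    have hpos : 0 < 1 + u * ‖x i - x j‖ ^ 2 := by positivity
    exact (integrableOn_exp_mul_Ioi (by linarith) 0).const_mul _
  have h2 : ∑ i ∈ s, ∑ j ∈ s, δ i * δ j * (1 + u * ‖x i - x j‖ ^ 2)⁻¹ =
      ∫ t : ℝ in Set.Ioi 0, ∑ i ∈ s, ∑ j ∈ s, δ i * δ j *
        Real.exp (-(1 + u * ‖x i - x j‖ ^ 2) * t) := by
    rw [integral_finset_sum _ fun i _ => integrable_finset_sum _ fun j _ => hint i j]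
    refine Finset.sum_congr rfl fun i _ => ?_
    rw [integral_finset_sum _ fun j _ => hint i j]
    refine Finset.sum_congr rfl fun j _ => ?_
    rw [integral_const_mul, h1]
  rw [h2]
  refine setIntegral_nonneg measurableSet_Ioi fun t ht => ?_
  have ht0 : 0 ≤ t := (Set.mem_Ioi.mp ht).le
  have h3 : ∑ i ∈ s, ∑ j ∈ s, δ i * δ j * Real.exp (-(1 + u * ‖x i - x j‖ ^ 2) * t) =
      Real.exp (-t) * ∑ i ∈ s, ∑ j ∈ s, δ i * δ j * Real.exp (-((u * t) * ‖x i - x j‖ ^ 2)) := by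
    rw [Finset.mul_sum]
    refine Finset.sum_congr rfl fun i _ => ?_
    rw [Finset.mul_sum]
    refine Finset.sum_congr rfl fun j _ => ?_
    have : Real.exp (-(1 + u * ‖x i - x j‖ ^ 2) * t) =
        Real.exp (-t) * Real.exp (-((u * t) * ‖x i - x j‖ ^ 2)) := by
      rw [← Real.exp_add]; congr 1; ring
    rw [this]
    ring
  rw [h3]
  exact mul_nonneg (Real.exp_pos _).le (gauss_psd s x δ _ (by positivity))

/-- conditional negative definiteness of `log (1 + |x - y|^2)` -/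
theorem cnd_log {ι : Type*} (s : Finset ι) (x : ι → ℂ) (δ : ι → ℝ) (h : ∑ i ∈ s, δ i = 0) :
    ∑ i ∈ s, ∑ j ∈ s, δ i * δ j * Real.log (1 + ‖x i - x j‖ ^ 2) ≤ 0 := by
  set f : ℝ → ℝ := fun u => ∑ i ∈ s, ∑ j ∈ s, δ i * δ j * Real.log (1 + u * ‖x i - x j‖ ^ 2)
    with hf
  have hder : ∀ u : ℝ, 0 ≤ u → HasDerivAt f
      (∑ i ∈ s, ∑ j ∈ s, δ i * δ j * (‖x i - x j‖ ^ 2 * (1 + u * ‖x i - x j‖ ^ 2)⁻¹)) u := by
    intro u hu
    rw [hf]
    refine HasDerivAt.fun_sum fun i _ => HasDerivAt.fun_sum fun j _ => ?_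
    have hpos : 0 < 1 + u * ‖x i - x j‖ ^ 2 := by positivity
    have h1 : HasDerivAt (fun u : ℝ => 1 + u * ‖x i - x j‖ ^ 2) (‖x i - x j‖ ^ 2) u := by
      simpa using ((hasDerivAt_id u).mul_const (‖x i - x j‖ ^ 2)).const_add 1
    have h2 := (h1.log hpos.ne').const_mul (δ i * δ j)
    simpa [div_eq_mul_inv] using h2
  have hanti : AntitoneOn f (Set.Icc 0 1) := by
    apply antitoneOn_of_deriv_nonpos (convex_Icc 0 1)
    · intro u hu
      exact (hder u hu.1).continuousAt.continuousWithinAt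
    · intro u hu
      rw [interior_Icc] at hu
      exact (hder u hu.1.le).differentiableAt.differentiableWithinAt
    · intro u hu
      rw [interior_Icc] at hu
      rw [(hder u hu.1.le).deriv]
      have hu0 : 0 < u := hu.1
      have h1 : ∑ i ∈ s, ∑ j ∈ s, δ i * δ j * (‖x i - x j‖ ^ 2 * (1 + u * ‖x i - x j‖ ^ 2)⁻¹) =
          (1 / u) * ((∑ i ∈ s, δ i) * (∑ j ∈ s, δ j) -
            ∑ i ∈ s, ∑ j ∈ s, δ i * δ j * (1 + u * ‖x i - x j‖ ^ 2)⁻¹) := by
        rw [Finset.sum_mul_sum, ← Finset.sum_sub_distrib, Finset.mul_sum]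
        refine Finset.sum_congr rfl fun i _ => ?_
        rw [← Finset.sum_sub_distrib, Finset.mul_sum]
        refine Finset.sum_congr rfl fun j _ => ?_
        have hpos : 0 < 1 + u * ‖x i - x j‖ ^ 2 := by positivity
        field_simp
        ring
      rw [h1, h]
      have h2 := resolvent_psd s x δ u hu0.le
      have h3 : 0 < 1 / u := by positivity
      nlinarith
  have h0 : f 0 = 0 := by simp [hf]
  have h1 := hanti (Set.left_mem_Icc.mpr zero_le_one) (Set.right_mem_Icc.mpr zero_le_one)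
    zero_le_one
  rw [h0] at h1
  simpa [hf] using h1

end EM

end Z579
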