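import Pool.Agent.Lib.Z579.E1

/-!
# E2: energy of a configuration is bounded by its potential in a reference field
-/

open Finset

namespace Z579

namespace EM

/-- smoothed symmetric logarithmic kernel -/
noncomputable def KK (z w : ℂ) : ℝ :=
  1 / 2 * Real.log (1 + ‖z - w‖ ^ 2) + 1 / 2 * Real.log (1 + ‖z + w‖ ^ 2)

lemma KK_nonneg (z w : ℂ) : 0 ≤ KK z w := by
  unfold KK
  have h1 : 0 ≤ Real.log (1 + ‖z - w‖ ^ 2) := Real.log_nonneg (by nlinarith [sq_nonneg ‖z - w‖])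
  have h2 : 0 ≤ Real.log (1 + ‖z + w‖ ^ 2) := Real.log_nonneg (by nlinarith [sq_nonneg ‖z + w‖])
  positivity

lemma KK_comm (z w : ℂ) : KK z w = KK w z := by
  unfold KK
  rw [norm_sub_rev, add_comm z w]

/-- `KK` is conditionally negative definite -/
theorem cnd_KK {ι : Type*} (s : Finset ι) (x : ι → ℂ) (δ : ι → ℝ) (h : ∑ i ∈ s, δ i = 0) :
    ∑ i ∈ s, ∑ j ∈ s, δ i * δ j * KK (x i) (x j) ≤ 0 := by
  have h1 := cnd_log (s ×ˢ (Finset.univ : Finset Bool))
    (fun p => if p.2 then x p.1 else -(x p.1)) (fun p => δ p.1) (by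
      rw [Finset.sum_product]
      simp [h, ← Finset.mul_sum])
  have h2 : ∑ p ∈ s ×ˢ (Finset.univ : Finset Bool), ∑ p' ∈ s ×ˢ (Finset.univ : Finset Bool),
      δ p.1 * δ p'.1 * Real.log (1 + ‖(if p.2 then x p.1 else -(x p.1)) -
        (if p'.2 then x p'.1 else -(x p'.1))‖ ^ 2) =
      4 * ∑ i ∈ s, ∑ j ∈ s, δ i * δ j * KK (x i) (x j) := by
    rw [Finset.sum_product, Finset.mul_sum]
    refine Finset.sum_congr rfl fun i _ => ?_
    simp_rw [Finset.sum_product]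
    rw [Finset.sum_comm, Finset.mul_sum]
    refine Finset.sum_congr rfl fun j _ => ?_
    have e1 : ‖-x i - x j‖ = ‖x i + x j‖ := by
      rw [← norm_neg]; congr 1; ring
    have e2 : ‖-x i - -x j‖ = ‖x i - x j‖ := by
      rw [← norm_neg]; congr 1; ring
    have e3 : ‖x i - -x j‖ = ‖x i + x j‖ := by
      congr 1; ring
    simp only [Fintype.sum_bool, if_true, Bool.false_eq_true, if_false, e1, e2, e3]
    unfold KK
    ring
  rw [h2] at h1
  linarith

/-- the energy bound -/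
theorem energy_dual {ι κ : Type*} (s : Finset ι) (z : ι → ℂ) (t : Finset κ) (x : κ → ℂ)
    (c : κ → ℝ) (hc : ∑ k ∈ t, c k = s.card) :
    ∑ i ∈ s, ∑ j ∈ s, KK (z i) (z j) ≤
      2 * ∑ i ∈ s, ∑ k ∈ t, c k * KK (z i) (x k) -
        ∑ k ∈ t, ∑ l ∈ t, c k * c l * KK (x k) (x l) := by
  have h1 := cnd_KK (s.disjSum t) (Sum.elim z x) (Sum.elim (fun _ => 1) (fun k => -c k)) (by
    rw [Finset.sum_disjSum]
    simp [hc])
  rw [Finset.sum_disjSum] at h1
  simp_rw [Finset.sum_disjSum] at h1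
  simp only [Sum.elim_inl, Sum.elim_inr, one_mul, mul_one] at h1
  rw [Finset.sum_add_distrib, Finset.sum_add_distrib] at h1
  have e1 : ∑ i ∈ s, ∑ k ∈ t, -c k * KK (z i) (x k) =
      -∑ i ∈ s, ∑ k ∈ t, c k * KK (z i) (x k) := by
    rw [← Finset.sum_neg_distrib]
    refine Finset.sum_congr rfl fun i _ => ?_
    rw [← Finset.sum_neg_distrib]
    refine Finset.sum_congr rfl fun k _ => ?_
    ring
  have e2 : ∑ k ∈ t, ∑ i ∈ s, -c k * KK (x k) (z i) =
      -∑ i ∈ s, ∑ k ∈ t, c k * KK (z i) (x k) := by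
    rw [Finset.sum_comm, ← e1]
    refine Finset.sum_congr rfl fun i _ => Finset.sum_congr rfl fun k _ => ?_
    rw [KK_comm]
  have e3 : ∑ k ∈ t, ∑ l ∈ t, -c k * -c l * KK (x k) (x l) =
      ∑ k ∈ t, ∑ l ∈ t, c k * c l * KK (x k) (x l) := by
    refine Finset.sum_congr rfl fun i _ => Finset.sum_congr rfl fun k _ => ?_
    ring
  rw [e1, e2, e3] at h1
  linarith

end EM

end Z579
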