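import Pool.Agent.Lib.Z579.Defs
import Pool.Agent.Lib.Z579.E2

/-!
# E3: greedy choice of zeros and the determinant bound
-/

open Finset Polynomial

namespace Z579

namespace EM

/-- points: sites `t < T` and points of the vertical line -/
abbrev Pt := ℕ ⊕ ℝ

/-- position in the `v` plane -/
noncomputable def pos (b T : ℕ) : Pt → ℂ
  | Sum.inl t => (b : ℂ) + t
  | Sum.inr y => (b : ℂ) + T + tt y

/-- monic polynomial with zeros at the squares of the points -/
noncomputable def PZ (b T : ℕ) (Z : List Pt) : ℂ[X] :=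
  (Z.map fun p => (X - C ((pos b T p) ^ 2))).prod

open Classical in
/-- multiplicity -/
noncomputable def cnt (Z : List Pt) (t : ℕ) : ℕ :=
  (Z.map fun p => if p = Sum.inl t then 1 else 0).sum

/-- available points -/
noncomputable def avail (r T : ℕ) (Z : List Pt) : Pt → Prop
  | Sum.inl t => t < T ∧ cnt Z t ≤ r
  | Sum.inr _ => True

/-- admissible lists -/
def good (r T : ℕ) (Z : List Pt) : Prop := ∀ t, Sum.inl t ∈ Z → t < T ∧ cnt Z t ≤ r + 1

/-- potential of a list at a point -/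
noncomputable def pot (b T : ℕ) (Z : List Pt) (p : Pt) : ℝ :=
  (Z.map fun v => KK (pos b T p) (pos b T v)).sum

/-- weighted value -/
noncomputable def val (b T : ℕ) (w : Pt → ℝ) (Z : List Pt) (p : Pt) : ℝ :=
  w p * Real.exp (2 * pot b T Z p)

lemma PZ_cons (b T : ℕ) (p : Pt) (Z : List Pt) :
    PZ b T (p :: Z) = (X - C ((pos b T p) ^ 2)) * PZ b T Z := by
  simp [PZ]

lemma PZ_monic (b T : ℕ) (Z : List Pt) : (PZ b T Z).Monic := by
  induction Z with
  | nil => simp [PZ]
  | cons p Z ih => rw [PZ_cons]; exact (monic_X_sub_C _).mul ih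

lemma PZ_natDegree (b T : ℕ) (Z : List Pt) : (PZ b T Z).natDegree = Z.length := by
  induction Z with
  | nil => simp [PZ]
  | cons p Z ih =>
    rw [PZ_cons, (monic_X_sub_C _).natDegree_mul (PZ_monic b T Z), natDegree_X_sub_C, ih,
      List.length_cons, add_comm]

/-- basis change over the complex numbers -/
theorem hankC_eq (L : ℂ[X] →ₗ[ℂ] ℂ) (m : ℕ) (P : ℕ → ℂ[X]) (hm : ∀ i, (P i).Monic)
    (hd : ∀ i, (P i).natDegree = i) :
    Matrix.det (Matrix.of fun i j : Fin m => L (X ^ ((i : ℕ) + (j : ℕ)))) =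
      Matrix.det (Matrix.of fun i j : Fin m => L (P i * P j)) := by
  have hrep : ∀ i : Fin m, P i = ∑ k : Fin m, (P i).coeff k • (X ^ (k : ℕ) : ℂ[X]) := by
    intro i
    conv_lhs => rw [(P i).as_sum_range' m (by rw [hd]; exact i.2)]
    rw [Finset.sum_range]
    refine Finset.sum_congr rfl fun k _ => ?_
    rw [← C_mul_X_pow_eq_monomial, smul_eq_C_mul]
  have h : (Matrix.of fun i j : Fin m => L (P i * P j)) =
      (Matrix.of fun (i : Fin m) (k : Fin m) => (P i).coeff k) *
        (Matrix.of fun i j : Fin m => L (X ^ ((i : ℕ) + (j : ℕ)))) *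
        (Matrix.of fun (i : Fin m) (k : Fin m) => (P i).coeff k).transpose := by
    ext i j
    simp only [Matrix.of_apply, Matrix.mul_apply, Matrix.transpose_apply]
    conv_lhs => rw [hrep i, hrep j]
    rw [Finset.sum_mul_sum, map_sum]
    simp_rw [map_sum]
    rw [Finset.sum_comm]
    refine Finset.sum_congr rfl fun l _ => ?_
    rw [Finset.sum_mul]
    refine Finset.sum_congr rfl fun k _ => ?_
    rw [smul_mul_smul_comm, map_smul, smul_eq_mul, pow_add]
    ring
  rw [h, Matrix.det_mul, Matrix.det_mul, Matrix.det_transpose]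
  have hT : (Matrix.of fun (i : Fin m) (k : Fin m) => (P i).coeff k).det = 1 := by
    rw [Matrix.det_of_isLowerTriangular]
    · refine Finset.prod_eq_one fun i _ => ?_
      rw [Matrix.of_apply]
      have := hm i
      rw [Monic, leadingCoeff, hd] at this
      exact this
    · intro i j hij
      rw [Matrix.of_apply]
      apply coeff_eq_zero_of_natDegree_lt
      rw [hd]
      exact hij
  rw [hT]
  ring

theorem det_boundC (m : ℕ) (M : Matrix (Fin m) (Fin m) ℂ) (g : Fin m → ℝ) (c : ℝ) (hc : 0 ≤ c)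
    (hg : ∀ i, 0 ≤ g i) (h : ∀ i j, ‖M i j‖ ≤ c * g i * g j) :
    ‖M.det‖ ≤ m.factorial * (c ^ m * ∏ i, g i ^ 2) := by
  rw [Matrix.det_apply]
  refine (norm_sum_le _ _).trans ?_
  have hb : ∀ σ ∈ (Finset.univ : Finset (Equiv.Perm (Fin m))),
      ‖Equiv.Perm.sign σ • ∏ i, M (σ i) i‖ ≤ c ^ m * ∏ i, g i ^ 2 := by
    intro σ _
    have h1 : ‖Equiv.Perm.sign σ • ∏ i, M (σ i) i‖ = ∏ i, ‖M (σ i) i‖ := by
      rw [← norm_prod]
      rcases Int.units_eq_one_or (Equiv.Perm.sign σ) with h | h <;> rw [h] <;> simp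
    rw [h1]
    calc ∏ i, ‖M (σ i) i‖ ≤ ∏ i, (c * g (σ i) * g i) :=
          Finset.prod_le_prod (fun i _ => norm_nonneg _) fun i _ => h _ _
      _ = c ^ m * ∏ i, g i ^ 2 := by
          rw [Finset.prod_mul_distrib, Finset.prod_mul_distrib, Finset.prod_const,
            Finset.card_univ, Fintype.card_fin, Equiv.prod_comp σ g, mul_assoc,
            ← Finset.prod_mul_distrib]
          congr 2
          funext i
          ring
  refine (Finset.sum_le_sum hb).trans ?_
  rw [Finset.sum_const, Finset.card_univ, Fintype.card_perm, Fintype.card_fin, nsmul_eq_mul]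

section greedy

variable {r b T m : ℕ} {w : Pt → ℝ}

lemma cnt_nil (t : ℕ) : cnt [] t = 0 := by simp [cnt]

lemma cnt_cons_self (t : ℕ) (Z : List Pt) : cnt (Sum.inl t :: Z) t = cnt Z t + 1 := by
  simp [cnt, add_comm]

lemma cnt_cons_ne (t : ℕ) (p : Pt) (Z : List Pt) (h : p ≠ Sum.inl t) :
    cnt (p :: Z) t = cnt Z t := by
  simp [cnt, h]

lemma cnt_eq_zero (t : ℕ) (Z : List Pt) (h : Sum.inl t ∉ Z) : cnt Z t = 0 := by
  induction Z with
  | nil => simp [cnt]
  | cons p Z ih =>
    rw [List.mem_cons, not_or] at h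
    rw [cnt_cons_ne _ _ _ (fun h' => h.1 h'.symm), ih h.2]

lemma cnt_cons_le (t : ℕ) (p : Pt) (Z : List Pt) : cnt (p :: Z) t ≤ cnt Z t + 1 := by
  by_cases h : p = Sum.inl t
  · rw [h, cnt_cons_self]
  · rw [cnt_cons_ne _ _ _ h]; omega

lemma good_nil : good r T [] := by intro t ht; simp at ht

lemma good_cons {p : Pt} {Z : List Pt} (h : good r T Z) (hp : avail r T Z p) :
    good r T (p :: Z) := by
  intro t ht
  by_cases hpt : p = Sum.inl t
  · subst hpt
    rw [cnt_cons_self]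
    have : t < T ∧ cnt Z t ≤ r := hp
    exact ⟨this.1, by omega⟩
  · rw [cnt_cons_ne _ _ _ hpt]
    rw [List.mem_cons] at ht
    rcases ht with h1 | h1
    · exact absurd h1.symm hpt
    · exact h t h1

/-- near maximisers exist -/
lemma exists_near (hw : ∀ p, 0 ≤ w p) (Z : List Pt) {V : ℝ}
    (hV : ∀ p, avail r T Z p → val b T w Z p ≤ V) :
    ∃ p, avail r T Z p ∧ ∀ p', avail r T Z p' → val b T w Z p' ≤ 2 * val b T w Z p := by
  classical
  set S : Set ℝ := {x | ∃ p, avail r T Z p ∧ x = val b T w Z p} with hS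
  have hne : S.Nonempty := ⟨val b T w Z (Sum.inr 0), Sum.inr 0, trivial, rfl⟩
  have hbd : BddAbove S := ⟨V, by rintro x ⟨p, hp, rfl⟩; exact hV p hp⟩
  have hnn : ∀ p, 0 ≤ val b T w Z p := fun p => mul_nonneg (hw p) (Real.exp_pos _).le
  by_cases h0 : sSup S ≤ 0
  · refine ⟨Sum.inr 0, trivial, fun p' hp' => ?_⟩
    have h1 : val b T w Z p' ≤ 0 := (le_csSup hbd ⟨p', hp', rfl⟩).trans h0
    have h2 := hnn (Sum.inr 0)
    linarith
  · push Not at h0
    obtain ⟨x, ⟨p, hp, rfl⟩, hx⟩ := exists_lt_of_lt_csSup hne (show sSup S / 2 < sSup S by linarith)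
    refine ⟨p, hp, fun p' hp' => ?_⟩
    have h1 := le_csSup hbd (show val b T w Z p' ∈ S from ⟨p', hp', rfl⟩)
    linarith

/-- the greedy sequence -/
theorem exists_greedy (hw : ∀ p, 0 ≤ w p)
    (Bd : ∀ Z : List Pt, ∃ V : ℝ, ∀ p, avail r T Z p → val b T w Z p ≤ V) :
    ∃ (Z : ℕ → List Pt) (p : ℕ → Pt), Z 0 = [] ∧ (∀ i, Z (i + 1) = p i :: Z i) ∧
      (∀ i, good r T (Z i)) ∧ (∀ i, (Z i).length = i) ∧
      ∀ i p', avail r T (Z i) p' → val b T w (Z i) p' ≤ 2 * val b T w (Z i) (p i) := by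
  classical
  have h : ∀ Z : List Pt, ∃ p, avail r T Z p ∧
      ∀ p', avail r T Z p' → val b T w Z p' ≤ 2 * val b T w Z p := fun Z => by
    obtain ⟨V, hV⟩ := Bd Z
    exact exists_near hw Z hV
  choose ch hch1 hch2 using h
  set Z : ℕ → List Pt := fun i => Nat.rec [] (fun _ z => ch z :: z) i with hZ
  have hZ0 : Z 0 = [] := rfl
  have hZs : ∀ i, Z (i + 1) = ch (Z i) :: Z i := fun i => rfl
  refine ⟨Z, fun i => ch (Z i), hZ0, hZs, ?_, ?_, fun i p' hp' => hch2 _ _ hp'⟩
  · intro i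
    induction i with
    | zero => exact good_nil
    | succ i ih => rw [hZs]; exact good_cons ih (hch1 _)
  · intro i
    induction i with
    | zero => rfl
    | succ i ih => rw [hZs, List.length_cons, ih]

lemma pot_greedy {Z : ℕ → List Pt} {p : ℕ → Pt} (h0 : Z 0 = []) (hs : ∀ i, Z (i + 1) = p i :: Z i)
    (q : Pt) (i : ℕ) :
    pot b T (Z i) q = ∑ j ∈ Finset.range i, KK (pos b T q) (pos b T (p j)) := by
  induction i with
  | zero => simp [pot, h0]
  | succ i ih =>
    rw [Finset.sum_range_succ, ← ih, hs]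
    simp [pot, add_comm]

lemma sum_site_eq (ψ : ℕ → ℝ) (Z : List Pt) (hZ : ∀ t, Sum.inl t ∈ Z → t < T) :
    (Z.map fun p : Pt => Sum.elim ψ (fun _ => (0 : ℝ)) p).sum =
      ∑ t ∈ Finset.range T, (cnt Z t : ℝ) * ψ t := by
  induction Z with
  | nil => simp [cnt_nil]
  | cons p Z ih =>
    have ih' := ih (fun t ht => hZ t (List.mem_cons_of_mem _ ht))
    rw [List.map_cons, List.sum_cons, ih']
    rcases p with t₀ | y
    · have ht₀ : t₀ < T := hZ t₀ List.mem_cons_self
      rw [Sum.elim_inl]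
      have e1 : ∀ t ∈ Finset.range T, (cnt (Sum.inl t₀ :: Z) t : ℝ) * ψ t =
          (cnt Z t : ℝ) * ψ t + if t = t₀ then ψ t₀ else 0 := by
        intro t _
        split_ifs with h
        · subst h
          rw [cnt_cons_self]
          push_cast
          ring
        · rw [cnt_cons_ne _ _ _ (by intro h'; exact h (Sum.inl_injective h').symm)]
          ring
      rw [Finset.sum_congr rfl e1, Finset.sum_add_distrib, Finset.sum_ite_eq' (Finset.range T),
        if_pos (Finset.mem_range.mpr ht₀)]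
      ring
    · rw [Sum.elim_inr, zero_add]
      refine Finset.sum_congr rfl fun t _ => ?_
      rw [cnt_cons_ne _ _ _ (by simp)]

lemma double_sum_le (f : ℕ → ℕ → ℝ) (hs : ∀ i j, f i j = f j i) (hn : ∀ i j, 0 ≤ f i j) (m : ℕ) :
    ∑ i ∈ Finset.range m, 2 * ∑ j ∈ Finset.range i, f i j ≤
      ∑ i ∈ Finset.range m, ∑ j ∈ Finset.range m, f i j := by
  induction m with
  | zero => simp
  | succ m ih =>
    rw [Finset.sum_range_succ, Finset.sum_range_succ]
    have h1 : ∑ i ∈ Finset.range m, ∑ j ∈ Finset.range (m + 1), f i j =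
        ∑ i ∈ Finset.range m, ∑ j ∈ Finset.range m, f i j + ∑ i ∈ Finset.range m, f i m := by
      rw [← Finset.sum_add_distrib]
      exact Finset.sum_congr rfl fun i _ => Finset.sum_range_succ _ _
    have h2 : ∑ i ∈ Finset.range m, f i m = ∑ j ∈ Finset.range m, f m j :=
      Finset.sum_congr rfl fun i _ => hs i m
    rw [h1, h2, Finset.sum_range_succ]
    have := hn m m
    linarith

/-- the determinant bound by the energy method -/
theorem det_energy (L : ℂ[X] →ₗ[ℂ] ℂ) (hw : ∀ p, 0 ≤ w p) (K : ℝ) (hK : 0 ≤ K)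
    (H : ∀ Z Z' : List Pt, Z.length < m → Z'.length < m → good r T Z → good r T Z' →
      ∀ V V' : ℝ, 0 ≤ V → 0 ≤ V' → (∀ p, avail r T Z p → val b T w Z p ≤ V) →
      (∀ p, avail r T Z' p → val b T w Z' p ≤ V') →
      ‖L (PZ b T Z * PZ b T Z')‖ ≤ K * √V * √V')
    (Bd : ∀ Z : List Pt, ∃ V : ℝ, ∀ p, avail r T Z p → val b T w Z p ≤ V)
    {κ : Type*} (s : Finset κ) (x : κ → ℂ) (c : κ → ℝ) (hc : ∑ k ∈ s, c k = m)
    (l : ℝ) (ψ : ℕ → ℝ) (hψ : ∀ t, 0 ≤ ψ t)
    (hline : ∀ y : ℝ, w (Sum.inr y) *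
      Real.exp (2 * ∑ k ∈ s, c k * KK (pos b T (Sum.inr y)) (x k)) ≤ Real.exp l)
    (hsite : ∀ t : ℕ, t < T → w (Sum.inl t) *
      Real.exp (2 * ∑ k ∈ s, c k * KK (pos b T (Sum.inl t)) (x k)) ≤ Real.exp (l + ψ t)) :
    ‖Matrix.det (Matrix.of fun i j : Fin m => L (X ^ ((i : ℕ) + (j : ℕ))))‖ ≤
      m.factorial * ((2 * K) ^ m * Real.exp (m * l + (r + 1) * ∑ t ∈ Finset.range T, ψ t -
        ∑ k ∈ s, ∑ k' ∈ s, c k * c k' * KK (x k) (x k'))) := by
  obtain ⟨Z, p, hZ0, hZs, hgood, hlen, hmax⟩ := exists_greedy (r := r) (T := T) hw Bd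
  have hnn : ∀ Z p, 0 ≤ val b T w Z p := fun Z p => mul_nonneg (hw p) (Real.exp_pos _).le
  rw [hankC_eq L m (fun i => PZ b T (Z i)) (fun i => PZ_monic b T _)
    (fun i => by rw [PZ_natDegree, hlen])]
  have h1 := det_boundC m (Matrix.of fun i j : Fin m => L (PZ b T (Z i) * PZ b T (Z j)))
    (fun i => √(2 * val b T w (Z i) (p i))) K hK (fun i => Real.sqrt_nonneg _) (by
      intro i j
      exact H (Z i) (Z j) (by rw [hlen]; exact i.2) (by rw [hlen]; exact j.2) (hgood _) (hgood _)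
        _ _ (by have := hnn (Z i) (p i); positivity) (by have := hnn (Z j) (p j); positivity)
        (hmax i) (hmax j))
  refine h1.trans ?_
  apply mul_le_mul_of_nonneg_left _ (Nat.cast_nonneg _)
  have h2 : ∏ i : Fin m, √(2 * val b T w (Z i) (p i)) ^ 2 =
      2 ^ m * ∏ i ∈ Finset.range m, val b T w (Z i) (p i) := by
    rw [Finset.prod_range, ← Fin.prod_const, ← Finset.prod_mul_distrib]
    refine Finset.prod_congr rfl fun i _ => ?_
    exact Real.sq_sqrt (by have := hnn (Z i) (p i); positivity)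
  rw [h2, mul_pow, ← mul_assoc, mul_comm (K ^ m)]
  apply mul_le_mul_of_nonneg_left _ (by positivity)
  -- the product
  have h3 : ∏ i ∈ Finset.range m, val b T w (Z i) (p i) =
      (∏ i ∈ Finset.range m, w (p i)) * Real.exp (∑ i ∈ Finset.range m,
        2 * ∑ j ∈ Finset.range i, KK (pos b T (p i)) (pos b T (p j))) := by
    rw [Real.exp_sum, ← Finset.prod_mul_distrib]
    refine Finset.prod_congr rfl fun i _ => ?_
    rw [val, pot_greedy hZ0 hZs]
  have h4 := double_sum_le (fun i j => KK (pos b T (p i)) (pos b T (p j)))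
    (fun i j => KK_comm _ _) (fun i j => KK_nonneg _ _) m
  have h5 := energy_dual (Finset.range m) (fun i => pos b T (p i)) s x c (by
    rw [hc, Finset.card_range])
  have h6 : ∏ i ∈ Finset.range m, val b T w (Z i) (p i) ≤
      (∏ i ∈ Finset.range m, (w (p i) * Real.exp (2 * ∑ k ∈ s, c k * KK (pos b T (p i)) (x k)))) *
        Real.exp (-∑ k ∈ s, ∑ k' ∈ s, c k * c k' * KK (x k) (x k')) := by
    rw [h3, Finset.prod_mul_distrib, ← Real.exp_sum, mul_assoc, ← Real.exp_add]
    apply mul_le_mul_of_nonneg_left _ (Finset.prod_nonneg fun i _ => hw _)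
    apply Real.exp_le_exp.mpr
    have e1 := Finset.mul_sum (Finset.range m)
      (fun i => ∑ k ∈ s, c k * KK (pos b T (p i)) (x k)) 2
    linarith
  refine h6.trans ?_
  rw [sub_eq_add_neg, Real.exp_add]
  apply mul_le_mul_of_nonneg_right _ (Real.exp_pos _).le
  -- sites and line
  have h7 : ∀ i ∈ Finset.range m, w (p i) * Real.exp (2 * ∑ k ∈ s, c k * KK (pos b T (p i)) (x k)) ≤
      Real.exp (l + Sum.elim ψ (fun _ => (0 : ℝ)) (p i)) := by
    intro i hi
    have hmem : p i ∈ Z (i + 1) := by rw [hZs]; exact List.mem_cons_self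
    rcases hpi : p i with t | y
    · rw [hpi] at hmem
      have := (hgood (i + 1) t hmem).1
      simpa using hsite t this
    · simpa using hline y
  refine (Finset.prod_le_prod (fun i _ => mul_nonneg (hw _) (Real.exp_pos _).le) h7).trans ?_
  rw [← Real.exp_sum]
  apply Real.exp_le_exp.mpr
  rw [Finset.sum_add_distrib, Finset.sum_const, Finset.card_range, nsmul_eq_mul]
  have h8 : ∀ k : ℕ, ((Z k).map fun q : Pt => Sum.elim ψ (fun _ => (0 : ℝ)) q).sum =
      ∑ i ∈ Finset.range k, Sum.elim ψ (fun _ => (0 : ℝ)) (p i) := by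
    intro k
    induction k with
    | zero => simp [hZ0]
    | succ k ih => rw [hZs, List.map_cons, List.sum_cons, ih, Finset.sum_range_succ, add_comm]
  rw [← h8 m, sum_site_eq ψ (Z m) (fun t ht => (hgood m t ht).1), Finset.mul_sum]
  have h9 : ∀ t ∈ Finset.range T, (cnt (Z m) t : ℝ) * ψ t ≤ ((r : ℝ) + 1) * ψ t := by
    intro t _
    apply mul_le_mul_of_nonneg_right _ (hψ t)
    by_cases hmem : Sum.inl t ∈ Z m
    · exact_mod_cast (hgood m t hmem).2
    · rw [cnt_eq_zero t _ hmem]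
      push_cast
      positivity
  have := Finset.sum_le_sum h9
  linarith

end greedy

end EM

end Z579
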