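import Pool.Agent.Lib.Z579.RealId
import Pool.Agent.Lib.Z579.E3

/-!
# E4: mixed representation: finitely many sites plus a vertical line
-/

open MeasureTheory Filter Topology Polynomial Finset

namespace Z579

namespace EM

lemma Hs_succ (s n : ℕ) : Hs s (n + 1) = Hs s n + 1 / ((n : ℚ) + 1) ^ s := by
  rw [Hs, Hs, Finset.sum_range_succ]

/-- harmonic sums against the partial fraction coefficients -/
lemma sum_sites {r q B a b : ℕ} (ha : 1 ≤ a) (hab : a ≤ b) (G : ℚ[X]) (hr : Even r)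
    (hdeg : 2 * B * (b - a) + 2 * G.natDegree + 2 ≤ q * (2 * a - 1)) (T : ℕ) :
    ∑ t ∈ Finset.range T, PowerSeries.coeff r (Tser q B a b ((a : ℤ) + t) G) =
      ∑ u ∈ pc a, ∑ i ∈ Finset.Icc 1 q, (Nat.choose (i + r - 1) r : ℚ) * Acoef q B a b u i G *
        (Hs (i + r) ((a : ℤ) + T + u - 1).toNat - Hs (i + r) ((a : ℤ) + u - 1).toNat) := by
  induction T with
  | zero => simp
  | succ T ih =>
    rw [Finset.sum_range_succ, ih, coeff_Tser ha hab G hdeg _ (fun u hu => by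
      rw [mem_pc] at hu; omega), hr.neg_one_pow, ← Finset.sum_add_distrib]
    refine Finset.sum_congr rfl fun u hu => ?_
    rw [← Finset.sum_add_distrib]
    refine Finset.sum_congr rfl fun i _ => ?_
    rw [mem_pc] at hu
    have e1 : ((a : ℤ) + (T + 1 : ℕ) + u - 1).toNat = ((a : ℤ) + T + u - 1).toNat + 1 := by
      push_cast; omega
    rw [e1, Hs_succ]
    have e2 : ((((a : ℤ) + T + u - 1).toNat : ℕ) : ℚ) + 1 = (((a : ℤ) + T + u : ℤ) : ℚ) := by
      have : ((((a : ℤ) + T + u - 1).toNat : ℕ) : ℤ) = (a : ℤ) + T + u - 1 :=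
        Int.toNat_of_nonneg (by omega)
      have h2 : ((((a : ℤ) + T + u - 1).toNat : ℕ) : ℚ) = (((a : ℤ) + T + u - 1 : ℤ) : ℚ) := by
        rw [← this]; push_cast; rfl
      rw [h2]; push_cast; ring
    rw [e2]
    push_cast
    ring

/-- integrand on the line `Re v = a + T - 1/2` -/
noncomputable def lineInt (r q B a b T : ℕ) (G : ℚ[X]) (y : ℝ) : ℂ :=
  Rc q B a b ((a : ℂ) + T + tt y) * Polynomial.aeval (((a : ℂ) + T + tt y) ^ 2) G * Ker r (tt y)

lemma lineInt_eq {r q B a b : ℕ} (ha : 1 ≤ a) (hab : a ≤ b) (G : ℚ[X])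
    (hdeg : 2 * B * (b - a) + 2 * G.natDegree + 2 ≤ q * (2 * a - 1)) (T : ℕ) (y : ℝ) :
    lineInt r q B a b T G y = ∑ u ∈ pc a, ∑ i ∈ Finset.Icc 1 q, (Acoef q B a b u i G : ℂ) *
        ((((((a : ℤ) + T + u).toNat : ℕ) : ℂ) + tt y)⁻¹ ^ i * Ker r (tt y)) := by
  have hk : ∀ u ∈ pc a, ∃ k : ℕ, 1 ≤ k ∧ (k : ℤ) = (a : ℤ) + T + u := by
    intro u hu
    rw [mem_pc] at hu
    exact ⟨((a : ℤ) + T + u).toNat, by omega, by omega⟩
  have hkc : ∀ u : ℤ, ∀ k : ℕ, (k : ℤ) = (a : ℤ) + T + u → (k : ℂ) = (a : ℂ) + T + (u : ℂ) := by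
    intro u k hk
    have := congrArg (fun x : ℤ => (x : ℂ)) hk
    push_cast at this
    exact this
  rw [lineInt, Rc_mul_aeval ha hab G hdeg, Finset.sum_mul]
  · refine Finset.sum_congr rfl fun u hu => ?_
    rw [Finset.sum_mul]
    refine Finset.sum_congr rfl fun i _ => ?_
    obtain ⟨k, hk1, hk2⟩ := hk u hu
    rw [← hk2, Int.toNat_natCast]
    have h1 : (a : ℂ) + T + tt y + (u : ℂ) = (k : ℂ) + tt y := by
      rw [hkc u k hk2]; ring
    rw [h1, inv_pow, div_eq_mul_inv]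
    ring
  · intro u hu
    obtain ⟨k, hk1, hk2⟩ := hk u hu
    have h1 : (a : ℂ) + T + tt y + (u : ℂ) = cf ((k : ℝ) - 1 / 2) y := by
      rw [← nat_add_tt, hkc u k hk2]
      ring
    rw [h1]
    apply cf_ne
    have : (1 : ℝ) ≤ k := by exact_mod_cast hk1
    intro h; linarith

lemma integrable_term {r q B a b : ℕ} (hr2 : 2 ≤ r) (G : ℚ[X]) (T : ℕ) :
    ∀ u ∈ pc a, ∀ i ∈ Finset.Icc 1 q, Integrable fun y : ℝ =>
      (Acoef q B a b u i G : ℂ) *
        ((((((a : ℤ) + T + u).toNat : ℕ) : ℂ) + tt y)⁻¹ ^ i * Ker r (tt y)) := by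
  intro u hu i hi
  rw [Finset.mem_Icc] at hi
  rw [mem_pc] at hu
  exact (integrable_ker hr2 hi.1 (by omega)).const_mul _

lemma integrable_lineInt {r q B a b : ℕ} (hr2 : 2 ≤ r) (ha : 1 ≤ a) (hab : a ≤ b) (G : ℚ[X])
    (hdeg : 2 * B * (b - a) + 2 * G.natDegree + 2 ≤ q * (2 * a - 1)) (T : ℕ) :
    Integrable (lineInt r q B a b T G) := by
  have h : lineInt r q B a b T G = fun y => ∑ u ∈ pc a, ∑ i ∈ Finset.Icc 1 q,
      (Acoef q B a b u i G : ℂ) *
        ((((((a : ℤ) + T + u).toNat : ℕ) : ℂ) + tt y)⁻¹ ^ i * Ker r (tt y)) := by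
    funext y; exact lineInt_eq ha hab G hdeg T y
  rw [h]
  exact integrable_finsetSum _ fun u hu => integrable_finsetSum _ fun i hi =>
    integrable_term hr2 G T u hu i hi

/-- mixed identity -/
theorem m1T {r q B a b : ℕ} {z : ℕ → ℚ} (G : ℚ[X]) (hr : Even r) (hr2 : 2 ≤ r) (hq : Even q)
    (ha : 1 ≤ a) (hab : a ≤ b)
    (hdeg : 2 * B * (b - a) + 2 * G.natDegree + 3 ≤ q * (2 * a - 1)) (hz : IsZ r q z) (T : ℕ) :
    ((Lw r q B a b (wt r a 1 z) G : ℚ) : ℂ) =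
      ((∑ t ∈ Finset.range T, PowerSeries.coeff r (Tser q B a b ((a : ℤ) + t) G) : ℚ) : ℂ) +
      -(1 / (2 * Real.pi)) * ∫ y : ℝ, lineInt r q B a b T G y := by
  have hdeg2 : 2 * B * (b - a) + 2 * G.natDegree + 2 ≤ q * (2 * a - 1) := by omega
  simp only [lineInt_eq ha hab G hdeg2 T]
  have hint := integrable_term (q := q) (B := B) (a := a) (b := b) hr2 G T
  rw [integral_finsetSum _ fun u hu => integrable_finsetSum _ fun i hi => hint u hu i hi]
  have h2 : ∀ u ∈ pc a, ∫ y : ℝ, ∑ i ∈ Finset.Icc 1 q, (Acoef q B a b u i G : ℂ) *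
        ((((((a : ℤ) + T + u).toNat : ℕ) : ℂ) + tt y)⁻¹ ^ i * Ker r (tt y)) =
      ∑ i ∈ Finset.Icc 1 q, (Acoef q B a b u i G : ℂ) * (-(2 * Real.pi) *
        ((Nat.choose (i + r - 1) r : ℂ) *
          ((zr (i + r) - (Hs (i + r) ((a : ℤ) + T + u - 1).toNat : ℝ) : ℝ) : ℂ))) := by
    intro u hu
    rw [integral_finsetSum _ fun i hi => hint u hu i hi]
    refine Finset.sum_congr rfl fun i hi => ?_
    rw [Finset.mem_Icc] at hi
    rw [mem_pc] at hu
    rw [integral_const_mul, integral_ker hr hr2 hi.1 (by omega),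
      tsum_tail_complex (by omega) (by omega)]
    have : ((a : ℤ) + T + u).toNat - 1 = ((a : ℤ) + T + u - 1).toNat := by omega
    rw [this]
  rw [Finset.sum_congr rfl h2]
  have h3 : -(1 / (2 * (Real.pi : ℂ))) * ∑ u ∈ pc a, ∑ i ∈ Finset.Icc 1 q,
      (Acoef q B a b u i G : ℂ) * (-(2 * Real.pi) * ((Nat.choose (i + r - 1) r : ℂ) *
          ((zr (i + r) - (Hs (i + r) ((a : ℤ) + T + u - 1).toNat : ℝ) : ℝ) : ℂ))) =
      ((∑ u ∈ pc a, ∑ i ∈ Finset.Icc 1 q, (Nat.choose (i + r - 1) r : ℝ) *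
        (Acoef q B a b u i G : ℝ) *
          (zr (i + r) - (Hs (i + r) ((a : ℤ) + T + u - 1).toNat : ℝ)) : ℝ) : ℂ) := by
    rw [Finset.mul_sum]
    push_cast
    refine Finset.sum_congr rfl fun u _ => ?_
    rw [Finset.mul_sum]
    refine Finset.sum_congr rfl fun i _ => ?_
    have : (Real.pi : ℂ) ≠ 0 := by exact_mod_cast Real.pi_ne_zero
    field_simp
  rw [h3]
  have h4 : ((Lw r q B a b (wt r a 1 z) G : ℚ) : ℝ) =
      ((∑ t ∈ Finset.range T, PowerSeries.coeff r (Tser q B a b ((a : ℤ) + t) G) : ℚ) : ℝ) +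
      ∑ u ∈ pc a, ∑ i ∈ Finset.Icc 1 q, (Nat.choose (i + r - 1) r : ℝ) *
        (Acoef q B a b u i G : ℝ) *
          (zr (i + r) - (Hs (i + r) ((a : ℤ) + T + u - 1).toNat : ℝ)) := by
    rw [sum_sites ha hab G hr hdeg2 T, Lw_apply]
    have h6 := sum_z_eq (q := q) (B := B) G hr hq ha hab hdeg hz
    have e0 : ((∑ u ∈ pc a, ∑ i ∈ Finset.Icc 1 q, (Nat.choose (i + r - 1) r : ℚ) *
        wt r a 1 z u i * Acoef q B a b u i G : ℚ) : ℝ) =
        ∑ u ∈ pc a, ∑ i ∈ Finset.Icc 1 q, (Nat.choose (i + r - 1) r : ℝ) *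
        (Acoef q B a b u i G : ℝ) * (z (i + r) : ℝ) -
        ∑ u ∈ pc a, ∑ i ∈ Finset.Icc 1 q, (Nat.choose (i + r - 1) r : ℝ) *
        (Acoef q B a b u i G : ℝ) * (Hs (i + r) ((a : ℤ) + u - 1).toNat : ℝ) := by
      push_cast
      rw [← Finset.sum_sub_distrib]
      refine Finset.sum_congr rfl fun u _ => ?_
      rw [← Finset.sum_sub_distrib]
      refine Finset.sum_congr rfl fun i _ => ?_
      have e : u + (a : ℤ) - 1 = (a : ℤ) + u - 1 := by ring
      rw [wt, e]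
      push_cast
      ring
    rw [e0, h6]
    push_cast
    rw [← Finset.sum_sub_distrib, ← Finset.sum_add_distrib]
    refine Finset.sum_congr rfl fun u _ => ?_
    rw [← Finset.sum_sub_distrib, ← Finset.sum_add_distrib]
    refine Finset.sum_congr rfl fun i _ => ?_
    ring
  have h5 := congrArg (fun x : ℝ => (x : ℂ)) h4
  simp only [Complex.ofReal_add, Complex.ofReal_ratCast] at h5
  exact h5

end EM

end Z579
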