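import Pool.Agent.Lib.Z579.E4

/-!
# E5a: the complex linear functional and its mixed representation
-/

open MeasureTheory Filter Topology Polynomial Finset

namespace Z579

namespace EM

/-- moments -/
noncomputable def mom (r q B a b : ℕ) (z : ℕ → ℚ) (k : ℕ) : ℂ :=
  ((Lw r q B a b (wt r a 1 z) (X ^ k) : ℚ) : ℂ)

/-- the functional with given moments -/
noncomputable def LC (μ : ℕ → ℂ) : ℂ[X] →ₗ[ℂ] ℂ :=
  Polynomial.lsum fun k => LinearMap.toSpanSingleton ℂ ℂ (μ k)

lemma LC_monomial (μ : ℕ → ℂ) (k : ℕ) (c : ℂ) : LC μ (monomial k c) = c * μ k := by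
  simp [LC, Polynomial.lsum_apply]

lemma LC_X_pow (μ : ℕ → ℂ) (k : ℕ) : LC μ (X ^ k) = μ k := by
  rw [← monomial_one_right_eq_X_pow, LC_monomial, one_mul]

lemma LC_apply (μ : ℕ → ℂ) (G : ℂ[X]) {D : ℕ} (hD : G.natDegree < D) :
    LC μ G = ∑ k ∈ Finset.range D, G.coeff k * μ k := by
  conv_lhs => rw [G.as_sum_range' D hD]
  rw [map_sum]
  exact Finset.sum_congr rfl fun k _ => LC_monomial _ _ _

/-- complex Taylor series of `R` at `a + t` -/
noncomputable def RS (q B a b t : ℕ) : PowerSeries ℂ :=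
  PowerSeries.map (algebraMap ℚ ℂ) (2 * lin ((a : ℤ) + t) *
    (∏ w ∈ oc a b, lin ((a : ℤ) + t + w)) ^ B * ((∏ w ∈ pc a, lin ((a : ℤ) + t + w))⁻¹) ^ q)

/-- complex linear series -/
noncomputable def linC (c : ℂ) : PowerSeries ℂ := PowerSeries.X + PowerSeries.C c

lemma map_lin (k : ℤ) : PowerSeries.map (algebraMap ℚ ℂ) (lin k) = linC k := by
  rw [lin, linC, map_add, PowerSeries.map_X, PowerSeries.map_C]
  simp

/-- evaluation at `(c+x)^2` -/
noncomputable def evS (c : ℂ) (G : ℂ[X]) : PowerSeries ℂ := Polynomial.aeval (linC c ^ 2) G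

/-- site functional -/
noncomputable def siteC (r q B a b t : ℕ) (G : ℂ[X]) : ℂ :=
  PowerSeries.coeff r (RS q B a b t * evS ((a : ℂ) + t) G)

lemma siteC_X_pow (r q B a b t k : ℕ) : siteC r q B a b t (X ^ k) =
    ((PowerSeries.coeff r (Tser q B a b ((a : ℤ) + t) (X ^ k)) : ℚ) : ℂ) := by
  have h : RS q B a b t * evS ((a : ℂ) + t) (X ^ k) =
      PowerSeries.map (algebraMap ℚ ℂ) (Tser q B a b ((a : ℤ) + t) (X ^ k)) := by
    rw [Tser, map_mul, RS, evS]
    congr 1
    rw [map_pow, aeval_X, map_pow, aeval_X, map_pow, map_pow, map_lin]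
    push_cast
    rfl
  rw [siteC, h, PowerSeries.coeff_map]
  rfl

lemma siteC_sum (r q B a b t : ℕ) (G : ℂ[X]) {D : ℕ} (hD : G.natDegree < D) :
    siteC r q B a b t G = ∑ k ∈ Finset.range D, G.coeff k * siteC r q B a b t (X ^ k) := by
  have h : evS ((a : ℂ) + t) G = ∑ k ∈ Finset.range D, G.coeff k • evS ((a : ℂ) + t) (X ^ k) := by
    conv_lhs => rw [G.as_sum_range' D hD]
    rw [evS, map_sum]
    refine Finset.sum_congr rfl fun k _ => ?_
    rw [← C_mul_X_pow_eq_monomial, evS, map_mul, aeval_C, Algebra.smul_def]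
  rw [siteC, h, Finset.mul_sum, map_sum]
  refine Finset.sum_congr rfl fun k _ => ?_
  rw [mul_smul_comm, PowerSeries.coeff_smul, smul_eq_mul, siteC]

/-- complex line integrand -/
noncomputable def lineC (r q B a b T : ℕ) (G : ℂ[X]) (y : ℝ) : ℂ :=
  Rc q B a b ((a : ℂ) + T + tt y) * G.eval (((a : ℂ) + T + tt y) ^ 2) * Ker r (tt y)

lemma lineC_X_pow (r q B a b T k : ℕ) (y : ℝ) :
    lineC r q B a b T (X ^ k) y = lineInt r q B a b T (X ^ k) y := by
  rw [lineC, lineInt]
  simp

lemma lineC_sum (r q B a b T : ℕ) (G : ℂ[X]) {D : ℕ} (hD : G.natDegree < D) (y : ℝ) :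
    lineC r q B a b T G y = ∑ k ∈ Finset.range D, G.coeff k * lineC r q B a b T (X ^ k) y := by
  rw [lineC, Polynomial.eval_eq_sum_range' hD, Finset.mul_sum, Finset.sum_mul]
  refine Finset.sum_congr rfl fun k _ => ?_
  rw [lineC, eval_pow, eval_X]
  ring

/-- the mixed representation for complex polynomials -/
theorem LC_formula {r q B a b D : ℕ} {z : ℕ → ℚ} (hr : Even r) (hr2 : 2 ≤ r) (hq : Even q)
    (ha : 1 ≤ a) (hab : a ≤ b) (hD : 2 * B * (b - a) + 2 * D + 3 ≤ q * (2 * a - 1))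
    (hz : IsZ r q z) (T : ℕ) (G : ℂ[X]) (hG : G.natDegree ≤ D) :
    LC (mom r q B a b z) G = ∑ t ∈ Finset.range T, siteC r q B a b t G +
      -(1 / (2 * Real.pi)) * ∫ y : ℝ, lineC r q B a b T G y := by
  have hG' : G.natDegree < D + 1 := by omega
  rw [LC_apply _ _ hG']
  have h1 : ∀ k ∈ Finset.range (D + 1), mom r q B a b z k =
      ∑ t ∈ Finset.range T, siteC r q B a b t (X ^ k) +
      -(1 / (2 * Real.pi)) * ∫ y : ℝ, lineC r q B a b T (X ^ k) y := by
    intro k hk
    rw [Finset.mem_range] at hk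
    rw [mom, m1T (X ^ k) hr hr2 hq ha hab (by rw [natDegree_X_pow]; omega) hz T]
    simp only [siteC_X_pow, lineC_X_pow]
    push_cast
    rfl
  rw [Finset.sum_congr rfl fun k hk => by rw [h1 k hk]]
  have h2 : (fun y => lineC r q B a b T G y) =
      fun y => ∑ k ∈ Finset.range (D + 1), G.coeff k * lineC r q B a b T (X ^ k) y := by
    funext y; exact lineC_sum r q B a b T G hG' y
  have hint : ∀ k ∈ Finset.range (D + 1), Integrable fun y =>
      G.coeff k * lineC r q B a b T (X ^ k) y := by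
    intro k hk
    rw [Finset.mem_range] at hk
    have := integrable_lineInt (q := q) (B := B) hr2 ha hab (X ^ k) (by
      rw [natDegree_X_pow]; omega) T
    refine (this.const_mul (G.coeff k)).congr (Eventually.of_forall fun y => ?_)
    simp only [lineC_X_pow]
  rw [h2, integral_finsetSum _ hint]
  simp only [integral_const_mul]
  rw [Finset.sum_congr rfl fun t _ => siteC_sum r q B a b t G hG', Finset.sum_comm,
    Finset.mul_sum, ← Finset.sum_add_distrib]
  refine Finset.sum_congr rfl fun k _ => ?_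
  rw [← Finset.mul_sum]
  ring

end EM

end Z579
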