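import Pool.Agent.Lib.Z579.E5a

/-!
# E5b: majorants and the bound for the sites
-/

open MeasureTheory Filter Topology Polynomial Finset

namespace Z579

namespace EM

/-- geometric majorant -/
def Maj (A D : ℝ) (f : PowerSeries ℂ) : Prop :=
  0 ≤ A ∧ 0 ≤ D ∧ ∀ n, ‖PowerSeries.coeff n f‖ ≤ A * D ^ n

lemma Maj.mono {A D A' D' : ℝ} {f : PowerSeries ℂ} (h : Maj A D f) (hA : A ≤ A') (hD : D ≤ D') :
    Maj A' D' f := by
  refine ⟨h.1.trans hA, h.2.1.trans hD, fun n => (h.2.2 n).trans ?_⟩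
  exact mul_le_mul hA (pow_le_pow_left₀ h.2.1 hD n) (pow_nonneg h.2.1 _) (h.1.trans hA)

lemma Maj.mul {A D A' D' : ℝ} {f g : PowerSeries ℂ} (h : Maj A D f) (h' : Maj A' D' g) :
    Maj (A * A') (D + D') (f * g) := by
  obtain ⟨hA, hD, hf⟩ := h
  obtain ⟨hA', hD', hg⟩ := h'
  refine ⟨mul_nonneg hA hA', add_nonneg hD hD', fun n => ?_⟩
  rw [PowerSeries.coeff_mul]
  refine (norm_sum_le _ _).trans ?_
  rw [add_pow, Finset.mul_sum]
  rw [Finset.Nat.sum_antidiagonal_eq_sum_range_succ_mk]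
  refine Finset.sum_le_sum fun k hk => ?_
  rw [norm_mul]
  have h1 := mul_le_mul (hf k) (hg (n - k)) (norm_nonneg _) (mul_nonneg hA (pow_nonneg hD _))
  refine h1.trans ?_
  have h2 : (1 : ℝ) ≤ (n.choose k : ℝ) := by
    exact_mod_cast Nat.choose_pos (by rw [Finset.mem_range] at hk; omega)
  have h3 : 0 ≤ A * A' * (D ^ k * D' ^ (n - k)) := by positivity
  nlinarith

lemma Maj.one : Maj 1 0 1 := by
  refine ⟨zero_le_one, le_rfl, fun n => ?_⟩
  rw [PowerSeries.coeff_one]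
  split_ifs with h
  · subst h; simp
  · simp [h]

lemma Maj.prod {ι : Type*} (s : Finset ι) (f : ι → PowerSeries ℂ) (A D : ι → ℝ)
    (h : ∀ i ∈ s, Maj (A i) (D i) (f i)) : Maj (∏ i ∈ s, A i) (∑ i ∈ s, D i) (∏ i ∈ s, f i) := by
  classical
  induction s using Finset.induction_on with
  | empty => simpa using Maj.one
  | insert i s hi ih =>
    rw [Finset.prod_insert hi, Finset.prod_insert hi, Finset.sum_insert hi]
    exact (h i (Finset.mem_insert_self _ _)).mul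
      (ih fun j hj => h j (Finset.mem_insert_of_mem hj))

lemma Maj.pow {A D : ℝ} {f : PowerSeries ℂ} (h : Maj A D f) (n : ℕ) :
    Maj (A ^ n) (n * D) (f ^ n) := by
  induction n with
  | zero => simpa using Maj.one
  | succ n ih =>
    rw [pow_succ, pow_succ]
    have := ih.mul h
    push_cast
    rw [add_mul, one_mul]
    exact this

lemma Maj.linC {c : ℂ} {D : ℝ} (hD : 0 ≤ D) (h : 1 ≤ ‖c‖ * D) : Maj ‖c‖ D (linC c) := by
  refine ⟨norm_nonneg _, hD, fun n => ?_⟩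
  rw [EM.linC, map_add, PowerSeries.coeff_X, PowerSeries.coeff_C]
  rcases Nat.lt_trichotomy n 1 with h1 | h1 | h1
  · have : n = 0 := by omega
    subst this
    simp
  · subst h1
    simpa using h
  · rw [if_neg (by omega), if_neg (by omega)]
    simp only [add_zero, norm_zero]
    positivity

lemma coeff_linC_inv {c : ℂ} (hc : c ≠ 0) (n : ℕ) :
    ‖PowerSeries.coeff n (linC c)⁻¹‖ = ‖c‖⁻¹ * (‖c‖⁻¹) ^ n := by
  have h0 : PowerSeries.constantCoeff (linC c) ≠ 0 := by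
    simp [linC, hc]
  have h1 : (linC c)⁻¹ * linC c = 1 := PowerSeries.inv_mul_cancel _ h0
  have hc' : ‖c‖ ≠ 0 := norm_ne_zero_iff.mpr hc
  induction n with
  | zero =>
    rw [pow_zero, mul_one, PowerSeries.coeff_zero_eq_constantCoeff_apply,
      PowerSeries.constantCoeff_inv, norm_inv]
    congr 2
    simp [linC]
  | succ n ih =>
    have h2 := congrArg (PowerSeries.coeff (n + 1)) h1
    rw [linC, mul_add, map_add, PowerSeries.coeff_succ_mul_X, PowerSeries.coeff_mul_C,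
      PowerSeries.coeff_one, if_neg (by omega)] at h2
    have h3 : PowerSeries.coeff (n + 1) (linC c)⁻¹ = -(PowerSeries.coeff n (linC c)⁻¹) / c := by
      rw [eq_div_iff hc]
      rw [linC]
      linear_combination h2
    rw [h3, norm_div, norm_neg, ih, pow_succ]
    field_simp

lemma Maj.linC_inv {c : ℂ} {D : ℝ} (hc : c ≠ 0) (h : 1 ≤ ‖c‖ * D) :
    Maj ‖c‖⁻¹ D (EM.linC c)⁻¹ := by
  have hc' : 0 < ‖c‖ := norm_pos_iff.mpr hc
  have h1 : ‖c‖⁻¹ ≤ D := by
    rw [inv_le_iff_one_le_mul₀ hc']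
    linarith [mul_comm ‖c‖ D]
  have hD : 0 ≤ D := (inv_nonneg.mpr hc'.le).trans h1
  refine ⟨inv_nonneg.mpr hc'.le, hD, fun n => ?_⟩
  rw [coeff_linC_inv hc]
  exact mul_le_mul_of_nonneg_left (pow_le_pow_left₀ (inv_nonneg.mpr hc'.le) h1 n)
    (inv_nonneg.mpr hc'.le)

lemma Maj.X : Maj 1 1 (PowerSeries.X : PowerSeries ℂ) := by
  refine ⟨zero_le_one, zero_le_one, fun n => ?_⟩
  rw [PowerSeries.coeff_X]
  split_ifs <;> simp

lemma map_inv_prod_lin {s : Finset ℤ} {c : ℤ} (h : ∀ w ∈ s, c + w ≠ 0) :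
    PowerSeries.map (algebraMap ℚ ℂ) ((∏ w ∈ s, lin (c + w))⁻¹) =
      ∏ w ∈ s, (linC ((c : ℂ) + w))⁻¹ := by
  have hne : PowerSeries.constantCoeff (∏ w ∈ s, lin (c + w)) ≠ 0 := by
    rw [map_prod, Finset.prod_ne_zero_iff]
    intro w hw
    simp only [lin, map_add, PowerSeries.constantCoeff_X, PowerSeries.constantCoeff_C, zero_add]
    exact_mod_cast h w hw
  have h1 : PowerSeries.map (algebraMap ℚ ℂ) ((∏ w ∈ s, lin (c + w))⁻¹) *
      PowerSeries.map (algebraMap ℚ ℂ) (∏ w ∈ s, lin (c + w)) = 1 := by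
    rw [← map_mul, PowerSeries.inv_mul_cancel _ hne, map_one]
  have h2 : PowerSeries.map (algebraMap ℚ ℂ) (∏ w ∈ s, lin (c + w)) =
      ∏ w ∈ s, linC ((c : ℂ) + w) := by
    rw [map_prod]
    refine Finset.prod_congr rfl fun w _ => ?_
    rw [map_lin]
    push_cast
    rfl
  have h3 : (∏ w ∈ s, (linC ((c : ℂ) + w))⁻¹) * ∏ w ∈ s, linC ((c : ℂ) + w) = 1 := by
    rw [← Finset.prod_mul_distrib]
    refine Finset.prod_eq_one fun w hw => ?_
    apply PowerSeries.inv_mul_cancel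
    simp only [linC, map_add, PowerSeries.constantCoeff_X, PowerSeries.constantCoeff_C, zero_add]
    exact_mod_cast h w hw
  rw [h2] at h1
  have h4 : (∏ w ∈ s, linC ((c : ℂ) + w)) ≠ 0 := by
    intro h5
    rw [h5, mul_zero] at h3
    exact zero_ne_one h3
  exact mul_right_cancel₀ h4 (h1.trans h3.symm)

lemma norm_intCast_pos {d : ℤ} (hd : 1 ≤ d) : ((1 : ℝ) ≤ ‖(d : ℂ)‖) := by
  rw [Complex.norm_intCast]
  have h1 : (1 : ℝ) ≤ (d : ℝ) := by exact_mod_cast hd
  rw [abs_of_nonneg (by linarith)]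
  exact h1

/-- the majorant of `R` at a site which is not a zero -/
theorem Maj_RS {q B a b t : ℕ} (ha : 1 ≤ a) (hab : a ≤ b) (ht : b ≤ a + t) :
    Maj ‖Rc q B a b ((a : ℂ) + t)‖ (1 + B * (2 * (b - a)) + q * (2 * a - 1) : ℝ)
      (RS q B a b t) := by
  have hpos : ∀ w ∈ pc a, 1 ≤ (a : ℤ) + t + w := by
    intro w hw; rw [mem_pc] at hw; omega
  have hpos' : ∀ w ∈ oc a b, 1 ≤ (a : ℤ) + t + w := by
    intro w hw
    rw [oc, Finset.mem_union, Finset.mem_Icc, Finset.mem_Icc] at hw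
    omega
  have e1 : RS q B a b t = (PowerSeries.C (2 : ℂ) * linC ((a : ℂ) + t)) *
      (∏ w ∈ oc a b, linC ((a : ℂ) + t + w)) ^ B * (∏ w ∈ pc a, (linC ((a : ℂ) + t + w))⁻¹) ^ q := by
    rw [RS, map_mul, map_mul, map_mul, map_pow, map_pow, map_inv_prod_lin (fun w hw => by
      have := hpos w hw; omega), map_prod, map_lin]
    have e2 : PowerSeries.map (algebraMap ℚ ℂ) (2 : PowerSeries ℚ) = PowerSeries.C (2 : ℂ) := by
      rw [map_ofNat, map_ofNat]
    rw [e2]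
    push_cast
    congr 2
    congr 1
    refine Finset.prod_congr rfl fun w _ => ?_
    rw [map_lin]
    push_cast
    rfl
  have m1 : Maj (‖(2 : ℂ)‖ * ‖(a : ℂ) + t‖) (0 + 1)
      (PowerSeries.C (2 : ℂ) * linC ((a : ℂ) + t)) := by
    refine Maj.mul ⟨norm_nonneg _, le_rfl, fun n => ?_⟩ (Maj.linC zero_le_one ?_)
    · rw [PowerSeries.coeff_C]
      split_ifs with h
      · subst h; simp
      · simp [h]
    · rw [mul_one]
      have := norm_intCast_pos (d := (a : ℤ) + t) (by omega)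
      push_cast at this
      exact this
  have m2 : Maj (∏ w ∈ oc a b, ‖(a : ℂ) + t + w‖) (∑ w ∈ oc a b, (1 : ℝ))
      (∏ w ∈ oc a b, linC ((a : ℂ) + t + w)) := by
    refine Maj.prod _ _ _ _ fun w hw => Maj.linC zero_le_one ?_
    rw [mul_one]
    have := norm_intCast_pos (hpos' w hw)
    push_cast at this
    exact this
  have m3 : Maj (∏ w ∈ pc a, ‖(a : ℂ) + t + w‖⁻¹) (∑ w ∈ pc a, (1 : ℝ))
      (∏ w ∈ pc a, (linC ((a : ℂ) + t + w))⁻¹) := by
    refine Maj.prod _ _ _ _ fun w hw => ?_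
    have := norm_intCast_pos (hpos w hw)
    push_cast at this
    refine Maj.linC_inv ?_ ?_
    · intro h
      rw [h, norm_zero] at this
      linarith
    · rw [mul_one]; exact this
  have m4 := (m1.mul (m2.pow B)).mul (m3.pow q)
  rw [← e1] at m4
  refine m4.mono (le_of_eq ?_) (le_of_eq ?_)
  · rw [Rc, norm_div, norm_mul, norm_mul, norm_pow, norm_pow, norm_prod, norm_prod,
      Finset.prod_inv_distrib, inv_pow, div_eq_mul_inv]
  · rw [Finset.sum_const, Finset.sum_const, card_oc ha hab, card_pc ha, nsmul_eq_mul, nsmul_eq_mul]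
    rw [Nat.cast_mul, Nat.cast_sub hab, Nat.cast_sub (by omega)]
    push_cast
    ring

/-- zeros of `R` kill the sites `t < b - a` -/
theorem siteC_zero {r q B a b t : ℕ} (hrB : r < B) (ht : a + t < b) (G : ℂ[X]) :
    siteC r q B a b t G = 0 := by
  have hmem : -((a : ℤ) + t) ∈ oc a b := by
    rw [oc, Finset.mem_union, Finset.mem_Icc, Finset.mem_Icc]
    omega
  have h1 : (PowerSeries.X : PowerSeries ℂ) ∣ PowerSeries.map (algebraMap ℚ ℂ)
      (∏ w ∈ oc a b, lin ((a : ℤ) + t + w)) := by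
    rw [map_prod]
    refine Dvd.dvd.trans ?_ (Finset.dvd_prod_of_mem _ hmem)
    rw [map_lin, linC]
    have : ((((a : ℤ) + t + -((a : ℤ) + t) : ℤ)) : ℂ) = 0 := by simp
    rw [this]
    simp
  have h2 : (PowerSeries.X : PowerSeries ℂ) ^ B ∣ RS q B a b t := by
    rw [RS, map_mul, map_mul, map_pow]
    exact Dvd.dvd.mul_right (Dvd.dvd.mul_left (pow_dvd_pow_of_dvd h1 B) _) _
  rw [siteC]
  exact (PowerSeries.X_pow_dvd_iff.mp (h2.mul_right _)) r hrB

end EM

end Z579
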