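import Pool.Agent.Lib.Z579.E5c
import Pool.Agent.Lib.Z579.ArchKer

/-!
# E5d: entry bound and boundedness of the values
-/

open MeasureTheory Filter Topology Polynomial Finset

namespace Z579

namespace EM

/-- the weight -/
noncomputable def wgt (r q B a b T m : ℕ) (KR : ℝ) : Pt → ℝ
  | Sum.inl t => (1 + B * (2 * (b - a)) + q * (2 * a - 1) + 6 * m) ^ r *
      ‖Rc q B a b (pos a T (Sum.inl t))‖
  | Sum.inr y => KR * (1 + y ^ 2) * ‖Rc q B a b (pos a T (Sum.inr y))‖ *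
      Real.exp (-(2 * Real.pi * |y|))

lemma wgt_nonneg {r q B a b T m : ℕ} {KR : ℝ} (hK : 0 ≤ KR) (ha : 1 ≤ a) (hab : a ≤ b) (p : Pt) :
    0 ≤ wgt r q B a b T m KR p := by
  have hab' : (a : ℝ) ≤ b := by exact_mod_cast hab
  have ha' : (1 : ℝ) ≤ a := by exact_mod_cast ha
  rcases p with t | y
  · unfold wgt
    have h1 : (0 : ℝ) ≤ B * (2 * (b - a)) := by
      apply mul_nonneg (Nat.cast_nonneg _); linarith
    have h2 : (0 : ℝ) ≤ q * (2 * a - 1) := by
      apply mul_nonneg (Nat.cast_nonneg _); linarith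
    positivity
  · unfold wgt
    positivity

/-- the bound for the matrix entries -/
theorem entry_bound {r q B a b T m : ℕ} {z : ℕ → ℚ} (hr : Even r) (hr2 : 2 ≤ r) (hq : Even q)
    (ha : 1 ≤ a) (hab : a ≤ b) (hrB : r < B ∨ a = b)
    (hD : 2 * B * (b - a) + 4 * m ≤ q * (2 * a - 1)) (hz : IsZ r q z)
    {KR : ℝ} (hK : 0 ≤ KR) (hKer : ∀ y : ℝ, ‖Ker r (tt y)‖ ≤ KR * Real.exp (-(2 * Real.pi * |y|)))
    (Z Z' : List Pt) (hm : Z.length < m) (hm' : Z'.length < m) (hg : good r T Z)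
    (hg' : good r T Z') (V V' : ℝ) (hV0 : 0 ≤ V) (hV0' : 0 ≤ V')
    (hV : ∀ p, avail r T Z p → val a T (wgt r q B a b T m KR) Z p ≤ V)
    (hV' : ∀ p, avail r T Z' p → val a T (wgt r q B a b T m KR) Z' p ≤ V') :
    ‖LC (mom r q B a b z) (PZ a T Z * PZ a T Z')‖ ≤ (T + 1 : ℝ) * √V * √V' := by
  have hdeg : (PZ a T Z * PZ a T Z').natDegree ≤ 2 * m - 2 := by
    rw [(PZ_monic a T Z).natDegree_mul (PZ_monic a T Z'), PZ_natDegree, PZ_natDegree]
    omega
  rw [LC_formula hr hr2 hq ha hab (D := 2 * m - 2) (by omega) hz T _ hdeg]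
  -- mixed bound
  have hmix : ∀ p, avail r T Z p → avail r T Z' p →
      wgt r q B a b T m KR p * Real.exp (pot a T Z p) * Real.exp (pot a T Z' p) ≤ √V * √V' := by
    intro p hp hp'
    have hw := wgt_nonneg (r := r) (q := q) (B := B) (T := T) (m := m) hK ha hab p
    have h1 := hV p hp
    have h2 := hV' p hp'
    rw [val, two_mul, Real.exp_add] at h1 h2
    have e1 : wgt r q B a b T m KR p * Real.exp (pot a T Z p) * Real.exp (pot a T Z' p) =
        √(wgt r q B a b T m KR p * (Real.exp (pot a T Z p) * Real.exp (pot a T Z p))) *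
        √(wgt r q B a b T m KR p * (Real.exp (pot a T Z' p) * Real.exp (pot a T Z' p))) := by
      rw [Real.sqrt_mul hw, Real.sqrt_mul hw, Real.sqrt_mul_self (Real.exp_pos _).le,
        Real.sqrt_mul_self (Real.exp_pos _).le]
      have := Real.mul_self_sqrt hw
      calc _ = (√(wgt r q B a b T m KR p) * √(wgt r q B a b T m KR p)) *
            Real.exp (pot a T Z p) * Real.exp (pot a T Z' p) := by rw [this]
        _ = _ := by ring
    rw [e1]
    exact mul_le_mul (Real.sqrt_le_sqrt h1) (Real.sqrt_le_sqrt h2) (Real.sqrt_nonneg _)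
      (Real.sqrt_nonneg _)
  have hVV : 0 ≤ √V * √V' := mul_nonneg (Real.sqrt_nonneg _) (Real.sqrt_nonneg _)
  have hsites : ‖∑ t ∈ Finset.range T, siteC r q B a b t (PZ a T Z * PZ a T Z')‖ ≤
      T * (√V * √V') := by
    refine (norm_sum_le _ _).trans ?_
    have : ∀ t ∈ Finset.range T, ‖siteC r q B a b t (PZ a T Z * PZ a T Z')‖ ≤ √V * √V' := by
      intro t ht
      rw [Finset.mem_range] at ht
      by_cases hs : r < cnt Z t ∨ r < cnt Z' t
      · rw [siteC_sat Z Z' hs, norm_zero]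
        exact hVV
      · rw [not_or] at hs
        refine (siteC_le ha hab hrB ht Z Z' (fun t' h => (hg t' h).1) (fun t' h => (hg' t' h).1)
          hm hm').trans ?_
        exact hmix (Sum.inl t) ⟨ht, by omega⟩ ⟨ht, by omega⟩
    refine (Finset.sum_le_sum this).trans ?_
    rw [Finset.sum_const, Finset.card_range, nsmul_eq_mul]
  have hline : ‖∫ y : ℝ, lineC r q B a b T (PZ a T Z * PZ a T Z') y‖ ≤ Real.pi * (√V * √V') := by
    have hb : ∀ y : ℝ, ‖lineC r q B a b T (PZ a T Z * PZ a T Z') y‖ ≤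
        (√V * √V') * (1 + y ^ 2)⁻¹ := by
      intro y
      have hy : (0 : ℝ) < 1 + y ^ 2 := by positivity
      rw [lineC, norm_mul, norm_mul, eval_mul, norm_mul]
      have h1 := norm_eval_PZ_le (a := a) (T := T) Z (Sum.inr y)
      have h2 := norm_eval_PZ_le (a := a) (T := T) Z' (Sum.inr y)
      rw [pos_line] at h1 h2
      have h3 := hmix (Sum.inr y) trivial trivial
      rw [wgt, pos_line] at h3
      rw [← div_eq_mul_inv, le_div_iff₀ hy]
      calc _ ≤ ‖Rc q B a b ((a : ℂ) + T + tt y)‖ *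
            (Real.exp (pot a T Z (Sum.inr y)) * Real.exp (pot a T Z' (Sum.inr y))) *
            (KR * Real.exp (-(2 * Real.pi * |y|))) * (1 + y ^ 2) := by
            apply mul_le_mul_of_nonneg_right _ hy.le
            apply mul_le_mul _ (hKer y) (norm_nonneg _) (by positivity)
            apply mul_le_mul_of_nonneg_left _ (norm_nonneg _)
            exact mul_le_mul h1 h2 (norm_nonneg _) (Real.exp_pos _).le
        _ = KR * (1 + y ^ 2) * ‖Rc q B a b ((a : ℂ) + T + tt y)‖ *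
              Real.exp (-(2 * Real.pi * |y|)) * Real.exp (pot a T Z (Sum.inr y)) *
              Real.exp (pot a T Z' (Sum.inr y)) := by ring
        _ ≤ _ := h3
    refine (norm_integral_le_of_norm_le (integrable_inv_one_add_sq.const_mul _)
      (Eventually.of_forall hb)).trans ?_
    rw [integral_const_mul, integral_univ_inv_one_add_sq]
    exact le_of_eq (mul_comm _ _)
  refine (norm_add_le _ _).trans ?_
  have h4 : ‖-(1 / (2 * (Real.pi : ℂ))) *
      ∫ y : ℝ, lineC r q B a b T (PZ a T Z * PZ a T Z') y‖ ≤ √V * √V' := by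
    rw [norm_mul, norm_neg, norm_div, norm_one, norm_mul, Complex.norm_real, Complex.norm_ofNat,
      Real.norm_of_nonneg Real.pi_pos.le]
    have hpi := Real.pi_pos
    calc 1 / (2 * Real.pi) * ‖∫ y : ℝ, lineC r q B a b T (PZ a T Z * PZ a T Z') y‖ ≤
          1 / (2 * Real.pi) * (Real.pi * (√V * √V')) :=
          mul_le_mul_of_nonneg_left hline (by positivity)
      _ = 1 / 2 * (√V * √V') := by field_simp
      _ ≤ √V * √V' := by linarith
  calc _ ≤ T * (√V * √V') + √V * √V' := add_le_add hsites h4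
    _ = _ := by ring

/-- polynomial growth -/
def PG (f : ℝ → ℝ) : Prop := ∃ (A : ℝ) (D : ℕ), 0 ≤ A ∧ ∀ y, |f y| ≤ A * (1 + |y|) ^ D

lemma PG.mul {f g : ℝ → ℝ} (hf : PG f) (hg : PG g) : PG fun y => f y * g y := by
  obtain ⟨A, D, hA, hf⟩ := hf
  obtain ⟨A', D', hA', hg⟩ := hg
  refine ⟨A * A', D + D', mul_nonneg hA hA', fun y => ?_⟩
  rw [abs_mul, pow_add]
  calc |f y| * |g y| ≤ (A * (1 + |y|) ^ D) * (A' * (1 + |y|) ^ D') :=
        mul_le_mul (hf y) (hg y) (abs_nonneg _) (by positivity)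
    _ = _ := by ring

lemma PG.const (c : ℝ) : PG fun _ => c := ⟨|c|, 0, abs_nonneg _, fun y => by simp⟩

lemma PG.of_le {f g : ℝ → ℝ} (hg : PG g) (h : ∀ y, |f y| ≤ |g y|) : PG f := by
  obtain ⟨A, D, hA, hg⟩ := hg
  exact ⟨A, D, hA, fun y => (h y).trans (hg y)⟩

lemma PG.linear (c : ℝ) (hc : 0 ≤ c) : PG fun y => c + |y| := by
  refine ⟨c + 1, 1, by linarith, fun y => ?_⟩
  have := abs_nonneg y
  rw [abs_of_nonneg (by positivity), pow_one]
  nlinarith

lemma PG.prod {ι : Type*} (s : Finset ι) (f : ι → ℝ → ℝ) (h : ∀ i ∈ s, PG (f i)) :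
    PG fun y => ∏ i ∈ s, f i y := by
  classical
  induction s using Finset.induction_on with
  | empty => simpa using PG.const 1
  | insert i s hi ih =>
    simp_rw [Finset.prod_insert hi]
    exact (h i (Finset.mem_insert_self _ _)).mul
      (ih fun j hj => h j (Finset.mem_insert_of_mem hj))

lemma PG.pow {f : ℝ → ℝ} (hf : PG f) (n : ℕ) : PG fun y => f y ^ n := by
  induction n with
  | zero => simpa using PG.const 1
  | succ n ih =>
    simp_rw [pow_succ]
    exact ih.mul hf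

lemma PG.bdd {f : ℝ → ℝ} (hf : PG f) : ∃ V, ∀ y, f y * Real.exp (-(2 * Real.pi * |y|)) ≤ V := by
  obtain ⟨A, D, hA, hf⟩ := hf
  refine ⟨A * (D.factorial * Real.exp 1), fun y => ?_⟩
  have h0 := abs_nonneg y
  have h1 := Real.pow_div_factorial_le_exp (1 + |y|) (by positivity) D
  have hD : (0 : ℝ) < D.factorial := by exact_mod_cast D.factorial_pos
  rw [div_le_iff₀ hD] at h1
  have h2 : f y ≤ A * (1 + |y|) ^ D := (le_abs_self _).trans (hf y)
  have h3 : Real.exp (1 + |y|) * Real.exp (-(2 * Real.pi * |y|)) ≤ Real.exp 1 := by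
    rw [← Real.exp_add]
    apply Real.exp_le_exp.mpr
    have := Real.pi_gt_three
    nlinarith
  calc f y * Real.exp (-(2 * Real.pi * |y|)) ≤
        (A * (Real.exp (1 + |y|) * D.factorial)) * Real.exp (-(2 * Real.pi * |y|)) := by
        apply mul_le_mul_of_nonneg_right _ (Real.exp_pos _).le
        exact h2.trans (mul_le_mul_of_nonneg_left h1 hA)
    _ = A * D.factorial * (Real.exp (1 + |y|) * Real.exp (-(2 * Real.pi * |y|))) := by ring
    _ ≤ A * D.factorial * Real.exp 1 := mul_le_mul_of_nonneg_left h3 (by positivity)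
    _ = _ := by ring

lemma norm_pos_line_le (a T : ℕ) (y : ℝ) : ‖pos a T (Sum.inr y)‖ ≤ (a + T + 1) + |y| := by
  refine (Complex.norm_le_abs_re_add_abs_im _).trans ?_
  rw [pos_line_re, pos_line_im]
  have h1 : (0 : ℝ) ≤ a := Nat.cast_nonneg _
  have h2 : (0 : ℝ) ≤ T := Nat.cast_nonneg _
  have h3 : |(a : ℝ) + T - 1 / 2| ≤ a + T + 1 := by
    rw [abs_le]; constructor <;> linarith
  linarith

lemma exp_two_KK (z w : ℂ) : Real.exp (2 * KK z w) = (1 + ‖z - w‖ ^ 2) * (1 + ‖z + w‖ ^ 2) := by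
  unfold KK
  have e : 2 * (1 / 2 * Real.log (1 + ‖z - w‖ ^ 2) + 1 / 2 * Real.log (1 + ‖z + w‖ ^ 2)) =
      Real.log (1 + ‖z - w‖ ^ 2) + Real.log (1 + ‖z + w‖ ^ 2) := by ring
  rw [e, Real.exp_add, Real.exp_log (by positivity), Real.exp_log (by positivity)]

lemma PG_norm_sub (a T : ℕ) (w : ℂ) : PG fun y => ‖pos a T (Sum.inr y) - w‖ := by
  refine (PG.linear (a + T + 1 + ‖w‖) (by positivity)).of_le fun y => ?_
  have h1 := norm_pos_line_le a T y
  have h2 := norm_sub_le (pos a T (Sum.inr y)) w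
  rw [abs_of_nonneg (norm_nonneg _), abs_of_nonneg (by positivity)]
  linarith

lemma PG_norm_add (a T : ℕ) (w : ℂ) : PG fun y => ‖pos a T (Sum.inr y) + w‖ := by
  have := PG_norm_sub a T (-w)
  simpa using this

lemma PG_one_add_sq {f : ℝ → ℝ} (hf : PG f) : PG fun y => 1 + f y ^ 2 := by
  obtain ⟨A, D, hA, h⟩ := hf.pow 2
  refine ⟨A + 1, D, by linarith, fun y => ?_⟩
  have h0 := abs_nonneg y
  have h1 : (1 : ℝ) ≤ (1 + |y|) ^ D := one_le_pow₀ (by linarith)
  have h2 := h y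
  have h3 : |1 + f y ^ 2| ≤ 1 + |f y ^ 2| := by
    refine (abs_add_le _ _).trans ?_
    simp
  nlinarith

lemma PG_pot (a T : ℕ) (Z : List Pt) : PG fun y => Real.exp (2 * pot a T Z (Sum.inr y)) := by
  induction Z with
  | nil => simpa [pot] using PG.const 1
  | cons v Z ih =>
    have h : (fun y => Real.exp (2 * pot a T (v :: Z) (Sum.inr y))) = fun y =>
        ((1 + ‖pos a T (Sum.inr y) - pos a T v‖ ^ 2) *
          (1 + ‖pos a T (Sum.inr y) + pos a T v‖ ^ 2)) *
        Real.exp (2 * pot a T Z (Sum.inr y)) := by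
      funext y
      rw [← exp_two_KK, ← Real.exp_add]
      congr 1
      simp [pot]
      ring
    rw [h]
    exact ((PG_one_add_sq (PG_norm_sub a T _)).mul (PG_one_add_sq (PG_norm_add a T _))).mul ih

lemma PG_Rc {q B a b : ℕ} (ha : 1 ≤ a) (T : ℕ) :
    PG fun y => ‖Rc q B a b (pos a T (Sum.inr y))‖ := by
  have h1 : PG fun y => (‖(2 : ℂ)‖ * ‖pos a T (Sum.inr y)‖) *
      (∏ w ∈ oc a b, ‖pos a T (Sum.inr y) + (w : ℂ)‖) ^ B * (∏ w ∈ pc a, (2 : ℝ)) ^ q := by
    refine (((PG.const _).mul ?_).mul ((PG.prod _ _ fun w _ => PG_norm_add a T _).pow B)).mul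
      (PG.const _)
    have := PG_norm_sub a T 0
    simpa using this
  refine h1.of_le fun y => ?_
  rw [abs_of_nonneg (norm_nonneg _), abs_of_nonneg (by positivity), Rc, norm_div, norm_mul,
    norm_mul, norm_pow, norm_pow, norm_prod, norm_prod, div_eq_mul_inv, ← inv_pow,
    ← Finset.prod_inv_distrib]
  apply mul_le_mul_of_nonneg_left _ (by positivity)
  apply pow_le_pow_left₀ (Finset.prod_nonneg fun w _ => inv_nonneg.mpr (norm_nonneg _))
  refine Finset.prod_le_prod (fun w _ => inv_nonneg.mpr (norm_nonneg _)) fun w hw => ?_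
  rw [mem_pc] at hw
  have h2 : (1 / 2 : ℝ) ≤ ‖pos a T (Sum.inr y) + (w : ℂ)‖ := by
    refine le_trans ?_ (Complex.re_le_norm _)
    rw [Complex.add_re, pos_line_re, Complex.intCast_re]
    have h3 : (1 : ℝ) - a ≤ w := by exact_mod_cast hw.1
    have h4 : (0 : ℝ) ≤ T := Nat.cast_nonneg _
    linarith
  rw [inv_le_comm₀ (by linarith) (by norm_num)]
  linarith

/-- boundedness of the values -/
theorem val_bdd {r q B a b T m : ℕ} {KR : ℝ} (ha : 1 ≤ a) (Z : List Pt) :
    ∃ V : ℝ, ∀ p, avail r T Z p → val a T (wgt r q B a b T m KR) Z p ≤ V := by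
  have h1 : PG fun y => KR * (1 + y ^ 2) * ‖Rc q B a b (pos a T (Sum.inr y))‖ *
      Real.exp (2 * pot a T Z (Sum.inr y)) := by
    refine (((PG.const KR).mul ?_).mul (PG_Rc ha T)).mul (PG_pot a T Z)
    have h2 : PG fun y : ℝ => y := (PG.linear 0 le_rfl).of_le fun y => by simp
    exact PG_one_add_sq h2
  obtain ⟨V1, hV1⟩ := h1.bdd
  obtain ⟨V2, hV2⟩ : ∃ V2 : ℝ, ∀ t < T, val a T (wgt r q B a b T m KR) Z (Sum.inl t) ≤ V2 := by
    refine ⟨∑ t ∈ Finset.range T, |val a T (wgt r q B a b T m KR) Z (Sum.inl t)|, fun t ht => ?_⟩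
    exact (le_abs_self _).trans (Finset.single_le_sum
      (f := fun t => |val a T (wgt r q B a b T m KR) Z (Sum.inl t)|)
      (fun t _ => abs_nonneg _) (Finset.mem_range.mpr ht))
  refine ⟨max V1 V2, fun p hp => ?_⟩
  rcases p with t | y
  · exact (hV2 t hp.1).trans (le_max_right _ _)
  · refine le_trans (le_of_eq ?_) ((hV1 y).trans (le_max_left _ _))
    rw [val, wgt]
    ring

/-- the determinant bound for the Hankel determinant -/
theorem hank_energy {r q B a b T m : ℕ} {z : ℕ → ℚ} (hr : Even r) (hr2 : 2 ≤ r) (hq : Even q)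
    (ha : 1 ≤ a) (hab : a ≤ b) (hrB : r < B ∨ a = b)
    (hD : 2 * B * (b - a) + 4 * m ≤ q * (2 * a - 1)) (hz : IsZ r q z)
    {KR : ℝ} (hK : 0 ≤ KR) (hKer : ∀ y : ℝ, ‖Ker r (tt y)‖ ≤ KR * Real.exp (-(2 * Real.pi * |y|)))
    {κ : Type*} (s : Finset κ) (x : κ → ℂ) (c : κ → ℝ) (hc : ∑ k ∈ s, c k = m)
    (l : ℝ) (ψ : ℕ → ℝ) (hψ : ∀ t, 0 ≤ ψ t)
    (hline : ∀ y : ℝ, wgt r q B a b T m KR (Sum.inr y) *
      Real.exp (2 * ∑ k ∈ s, c k * KK (pos a T (Sum.inr y)) (x k)) ≤ Real.exp l)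
    (hsite : ∀ t : ℕ, t < T → wgt r q B a b T m KR (Sum.inl t) *
      Real.exp (2 * ∑ k ∈ s, c k * KK (pos a T (Sum.inl t)) (x k)) ≤ Real.exp (l + ψ t)) :
    |((hank (Lw r q B a b (wt r a 1 z)) m : ℚ) : ℝ)| ≤
      m.factorial * ((2 * (T + 1)) ^ m * Real.exp (m * l + (r + 1) * ∑ t ∈ Finset.range T, ψ t -
        ∑ k ∈ s, ∑ k' ∈ s, c k * c k' * KK (x k) (x k'))) := by
  have h := det_energy (m := m) (b := a) (T := T) (r := r) (LC (mom r q B a b z))
    (wgt_nonneg (r := r) (q := q) (B := B) (T := T) (m := m) hK ha hab) (T + 1 : ℝ) (by positivity)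
    (fun Z Z' hm hm' hg hg' V V' h1 h2 h3 h4 => entry_bound hr hr2 hq ha hab hrB hD hz hK hKer
      Z Z' hm hm' hg hg' V V' h1 h2 h3 h4) (fun Z => val_bdd ha Z) s x c hc l ψ hψ hline hsite
  refine le_trans (le_of_eq ?_) h
  have e1 : (Matrix.of fun i j : Fin m => LC (mom r q B a b z) (X ^ ((i : ℕ) + (j : ℕ)))) =
      (Matrix.of fun i j : Fin m =>
        (Lw r q B a b (wt r a 1 z)) (X ^ ((i : ℕ) + (j : ℕ)))).map (algebraMap ℚ ℂ) := by
    ext i j
    rw [Matrix.of_apply, Matrix.map_apply, Matrix.of_apply, LC_X_pow, mom]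
    rfl
  rw [e1, ← RingHom.mapMatrix_apply, ← RingHom.map_det, hank]
  have e2 : ∀ x : ℚ, ‖(algebraMap ℚ ℂ) x‖ = |((x : ℚ) : ℝ)| := by
    intro x
    rw [eq_ratCast, ← Complex.ofReal_ratCast, Complex.norm_real, Real.norm_eq_abs]
  rw [e2]

end EM

end Z579
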