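import Pool.Agent.Lib.Z579.E6c

/-!
# The archimedean bound from a numerical certificate
-/

open Finset

namespace Z579

namespace EM

open Arch

variable {P : Par}

/-! ## values at the sites and on the line -/

theorem site_bound (hU1 : U1) (hU2 : U2) (hW1 : W1) (hP : P.Ok) (KR : ℝ) :
    ∃ C : ℝ, 0 ≤ C ∧ ∀ k t : ℕ, 1 ≤ k → t < P.tau * k →
    wgt P.r P.q 0 (P.al * k + 1) (P.al * k + 1) (P.tau * k) (P.mu * k) KR (Sum.inl t) *
      Real.exp (2 * ∑ x ∈ refS P k, refC P k x *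
        KK (pos (P.al * k + 1) (P.tau * k) (Sum.inl t)) (refX P k x)) ≤
    Real.exp (k * PhiS P (t / k) + (4 * P.mu - 2 * P.q * P.al) * (k * Real.log k) +
      C * Real.log (k + 1)) := by
  obtain ⟨C1, hC1, h1⟩ := pot_site hU1 hU2 hP
  obtain ⟨C2, hC2, h2⟩ := hW1 P.r P.q KR
  have hl0 : 0 ≤ Real.log ((P.al + P.tau + P.mu : ℝ) + 2) :=
    Real.log_nonneg (by
      have : (0 : ℝ) ≤ P.al + P.tau + P.mu := by positivity
      linarith)
  refine ⟨2 * C1 + C2 * (2 * Real.log ((P.al + P.tau + P.mu) + 2) + 1), by positivity, ?_⟩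
  intro k t hk ht
  have hk0 : (0 : ℝ) < k := by exact_mod_cast hk
  have hA : 1 ≤ P.al * k := Nat.one_le_iff_ne_zero.2 (by
    have := hP.al1
    positivity)
  have g1 := (abs_le.1 (h1 k t hk ht)).2
  have g2 := h2 (P.al * k) (P.tau * k) (P.mu * k) t hA ht
  refine (mul_le_mul_of_nonneg_right g2 (Real.exp_nonneg _)).trans ?_
  rw [← Real.exp_add, Real.exp_le_exp]
  have hts : (t : ℝ) = k * (t / k) := by field_simp
  have e1 : GG ((t : ℝ) + 2 * ((P.al * k : ℕ) : ℝ)) 0 =
      k * (GG (t / k + 2 * P.al) 0 + (t / k + 2 * P.al) * Real.log k) := by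
    rw [← GG_scale0 hk0]
    congr 1
    push_cast
    field_simp
  have e2 : GG (t : ℝ) 0 = k * (GG (t / k) 0 + (t / k) * Real.log k) := by
    rw [← GG_scale0 hk0, ← hts]
  have l1 : Real.log (((P.al * k : ℕ) : ℝ) + ((P.tau * k : ℕ) : ℝ) + ((P.mu * k : ℕ) : ℝ) + 2) ≤
      (2 * Real.log ((P.al + P.tau + P.mu) + 2) + 1) * Real.log (k + 1) := by
    have := log_lin_le (X := P.al + P.tau + P.mu) (Y := 2) hk (y := 0) le_rfl (by positivity)
      (by norm_num)
    rw [add_zero, add_zero] at this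
    refine le_trans (Real.log_le_log (by positivity) ?_) this
    push_cast
    nlinarith
  have t1 := mul_le_mul_of_nonneg_left l1 hC2
  rw [e1, e2]
  unfold PhiS
  nlinarith [g1, t1]

theorem line_bound (hU3 : U3) (hU4 : U4) (hW2 : W2) (hP : P.Ok) (KR : ℝ) :
    ∃ C : ℝ, 0 ≤ C ∧ ∀ (k : ℕ) (y : ℝ), 1 ≤ k →
    wgt P.r P.q 0 (P.al * k + 1) (P.al * k + 1) (P.tau * k) (P.mu * k) KR (Sum.inr y) *
      Real.exp (2 * ∑ x ∈ refS P k, refC P k x *
        KK (pos (P.al * k + 1) (P.tau * k) (Sum.inr y)) (refX P k x)) ≤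
    Real.exp (k * PhiL P (|y| / k) + (4 * P.mu - 2 * P.q * P.al) * (k * Real.log k) +
      C * Real.log (k + 1 + |y|)) := by
  obtain ⟨C1, hC1, h1⟩ := pot_line hU3 hU4 hP
  obtain ⟨C2, hC2, h2⟩ := hW2 P.r P.q KR
  have hl0 : 0 ≤ Real.log ((P.al + P.tau : ℝ) + 2) :=
    Real.log_nonneg (by
      have : (0 : ℝ) ≤ P.al + P.tau := by positivity
      linarith)
  refine ⟨2 * C1 + C2 * (2 * Real.log ((P.al + P.tau) + 2) + 1), by positivity, ?_⟩
  intro k y hk
  have hk0 : (0 : ℝ) < k := by exact_mod_cast hk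
  have hy0 := abs_nonneg y
  have hA : 1 ≤ P.al * k := Nat.one_le_iff_ne_zero.2 (by
    have := hP.al1
    positivity)
  have hT : 2 ≤ P.tau * k := le_trans hP.tau2 (Nat.le_mul_of_pos_right _ (by omega))
  have g1 := (abs_le.1 (h1 k y hk)).2
  have g2 := h2 (P.al * k) (P.tau * k) (P.mu * k) y hA hT
  refine (mul_le_mul_of_nonneg_right g2 (Real.exp_nonneg _)).trans ?_
  rw [← Real.exp_add, Real.exp_le_exp]
  have hts : |y| = k * (|y| / k) := by field_simp
  have e1 : GG (((P.tau * k : ℕ) : ℝ) + 2 * ((P.al * k : ℕ) : ℝ)) |y| =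
      k * (GG (P.tau + 2 * P.al) (|y| / k) + (P.tau + 2 * P.al) * Real.log k) := by
    rw [← GG_scale' hk0, ← hts]
    congr 1
    push_cast
    ring
  have e2 : GG ((P.tau * k : ℕ) : ℝ) |y| =
      k * (GG P.tau (|y| / k) + P.tau * Real.log k) := by
    rw [← GG_scale' hk0, ← hts]
    congr 1
    push_cast
    ring
  have e3 : 2 * Real.pi * |y| = k * (2 * Real.pi * (|y| / k)) := by field_simp
  have l1 : Real.log (((P.al * k : ℕ) : ℝ) + ((P.tau * k : ℕ) : ℝ) + 2 + |y|) ≤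
      (2 * Real.log ((P.al + P.tau) + 2) + 1) * Real.log (k + 1 + |y|) := by
    have := log_lin_le (X := P.al + P.tau) (Y := 2) hk hy0 (by positivity)
      (by norm_num)
    refine le_trans (Real.log_le_log (by positivity) ?_) this
    push_cast
    nlinarith
  have t1 := mul_le_mul_of_nonneg_left l1 hC2
  rw [e1, e2, e3]
  unfold PhiL
  nlinarith [g1, t1]

/-! ## sums over cells -/

lemma sum_lin (k : ℕ) (a b : ℝ) :
    ∑ j ∈ range k, (a + b * j) = k * a + b * (k * (k - 1) / 2) := by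
  induction k with
  | zero => simp
  | succ k ih => rw [Finset.sum_range_succ, ih]; push_cast; ring

lemma sum_aff_cells {k : ℕ} (hk : 1 ≤ k) (n : ℕ) (h : ℝ) (L R : ℕ → ℝ) :
    ∑ t ∈ range (n * k), (L (t / k) + (R (t / k) - L (t / k)) *
      (((t : ℝ) + h) / k - ((t / k : ℕ) : ℝ))) =
    ∑ i ∈ range n, (k * ((L i + R i) / 2) + (R i - L i) * (h - 1 / 2)) := by
  have hk0 : (k : ℝ) ≠ 0 := by
    have : k ≠ 0 := by omega
    exact_mod_cast this
  induction n with
  | zero => simp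
  | succ n ih =>
    rw [Finset.sum_range_succ, ← ih, Nat.add_mul, one_mul, Finset.sum_range_add]
    congr 1
    have h1 : ∀ j ∈ range k, (L ((n * k + j) / k) + (R ((n * k + j) / k) - L ((n * k + j) / k)) *
      ((((n * k + j : ℕ) : ℝ) + h) / k - (((n * k + j) / k : ℕ) : ℝ))) =
        (L n + (R n - L n) * (h / k)) + ((R n - L n) / k) * j := by
      intro j hj
      rw [mem_range] at hj
      have h2 : (n * k + j) / k = n := by
        rw [Nat.div_eq_iff (by omega)]
        constructor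
        · nlinarith
        · have : n * k + j < (n + 1) * k := by nlinarith
          have h3 : (n + 1) * k = n * k + k := by ring
          omega
      rw [h2]
      push_cast
      field_simp
      ring
    rw [Finset.sum_congr rfl h1, sum_lin]
    field_simp
    ring

lemma div_mem_cell {k t n : ℕ} (hk : 1 ≤ k) (ht : t < n * k) {h : ℝ} (h0 : 0 ≤ h) (h1 : h < 1) :
    t / k < n ∧ ((t / k : ℕ) : ℝ) ≤ ((t : ℝ) + h) / k ∧ ((t : ℝ) + h) / k ≤ ((t / k : ℕ) : ℝ) + 1 := by
  have hk0 : (0 : ℝ) < k := by exact_mod_cast hk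
  refine ⟨(Nat.div_lt_iff_lt_mul (by omega)).2 ht, ?_, ?_⟩
  · rw [le_div_iff₀ hk0]
    have : t / k * k ≤ t := Nat.div_mul_le_self t k
    have h2 : ((t / k : ℕ) : ℝ) * k ≤ t := by exact_mod_cast this
    linarith
  · rw [div_le_iff₀ hk0]
    have : t < (t / k + 1) * k := by
      have := Nat.lt_div_mul_add (a := t) (b := k) (by omega)
      nlinarith
    have h2 : t + 1 ≤ (t / k + 1) * k := this
    have h3 : ((t : ℝ) + 1) ≤ (((t / k : ℕ) : ℝ) + 1) * k := by exact_mod_cast h2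
    linarith

lemma sum_sym (E : ℕ) (f : ℝ → ℝ) :
    ∑ l ∈ Ico (-(E : ℤ)) (E : ℤ), f |(l : ℝ) + 1 / 2| =
      2 * ∑ l ∈ range E, f ((l : ℝ) + 1 / 2) := by
  have h0 : Ico (-(E : ℤ)) (E : ℤ) = Ico (-(E : ℤ)) 0 ∪ Ico 0 (E : ℤ) := by
    ext x; simp only [mem_Ico, mem_union]; omega
  have hd : Disjoint (Ico (-(E : ℤ)) 0) (Ico 0 (E : ℤ)) := by
    rw [Finset.disjoint_left]
    intro x hx hx'
    rw [mem_Ico] at hx hx'
    omega
  rw [h0, Finset.sum_union hd, two_mul]
  congr 1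
  · refine Finset.sum_nbij' (fun l => (-l - 1).toNat) (fun j => -(j : ℤ) - 1) ?_ ?_ ?_ ?_ ?_
    · intro l hl; rw [mem_Ico] at hl; rw [mem_range]; omega
    · intro j hj; rw [mem_range] at hj; rw [mem_Ico]; omega
    · intro l hl; rw [mem_Ico] at hl; omega
    · intro j hj; rw [mem_range] at hj; omega
    · intro l hl
      rw [mem_Ico] at hl
      have h3 : (((-l - 1).toNat : ℕ) : ℝ) = -(l : ℝ) - 1 := by
        have : (((-l - 1).toNat : ℕ) : ℤ) = -l - 1 := by omega
        exact_mod_cast this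
      have h4 : (l : ℝ) ≤ -1 := by
        have : l ≤ -1 := by omega
        exact_mod_cast this
      rw [h3, abs_of_nonpos (by linarith)]
      congr 1
      ring
  · refine Finset.sum_nbij' (fun l => l.toNat) (fun j => (j : ℤ)) ?_ ?_ ?_ ?_ ?_
    · intro l hl; rw [mem_Ico] at hl; rw [mem_range]; omega
    · intro j hj; rw [mem_range] at hj; rw [mem_Ico]; omega
    · intro l hl; rw [mem_Ico] at hl; omega
    · intro j hj; rw [mem_range] at hj; omega
    · intro l hl
      rw [mem_Ico] at hl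
      have h3 : ((l.toNat : ℕ) : ℝ) = (l : ℝ) := by
        have : ((l.toNat : ℕ) : ℤ) = l := by omega
        exact_mod_cast this
      have h4 : (0 : ℝ) ≤ l := by exact_mod_cast hl.1
      rw [h3, abs_of_nonneg (by linarith)]

end EM

end Z579
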