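import Pool.Agent.Lib.Z579.E5d
import Pool.Agent.Lib.Z579.ArchProd

/-!
# E6: statements for the asymptotic part of the energy method (case `a = b`)
-/

open Finset

namespace Z579

namespace EM

open Arch

/-! ## potentials of blocks -/

/-- potential of the block of sites `[0, w]` at the site `s` (weight one per unit length) -/
noncomputable def BS (A w s : ℝ) : ℝ :=
  GG s 0 + GG (w - s) 0 + GG (2 * A + s + w) 0 - GG (2 * A + s) 0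

/-- potential of the block `[-E, E]` of the line at the site `s` -/
noncomputable def BSl (A T E s : ℝ) : ℝ :=
  2 * GG E (T - s) + 2 * GG E (2 * A + T + s)

/-- potential of the block of sites `[0, w]` at the point `y ≥ 0` of the line -/
noncomputable def BL (A T w y : ℝ) : ℝ :=
  GG T y - GG (T - w) y + GG (2 * A + T + w) y - GG (2 * A + T) y

/-- potential of the block `[-E, E]` of the line at the point `y ≥ 0` of the line -/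
noncomputable def BLl (A T E y : ℝ) : ℝ :=
  GG (y + E) 0 - GG (y - E) 0 + GG (y + E) (2 * A + 2 * T) - GG (y - E) (2 * A + 2 * T)

/-- U1 (site, site) -/
def U1 : Prop := ∃ C : ℝ, 0 ≤ C ∧ ∀ A T w t : ℕ, 1 ≤ A → 1 ≤ T → w ≤ T → t < T →
  |∑ t' ∈ range w, KK (pos (A + 1) T (Sum.inl t)) (pos (A + 1) T (Sum.inl t')) - BS A w t| ≤
    C * Real.log (A + T + 2)

/-- U2 (site, line) -/
def U2 : Prop := ∃ C : ℝ, 0 ≤ C ∧ ∀ A T E t : ℕ, 1 ≤ A → 1 ≤ T → t < T →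
  |∑ l ∈ Ico (-(E : ℤ)) E, KK (pos (A + 1) T (Sum.inl t)) (pos (A + 1) T (Sum.inr ((l : ℝ) + 1 / 2))) -
    BSl A T E t| ≤ C * Real.log (A + T + E + 2)

/-- U3 (line, site) -/
def U3 : Prop := ∃ C : ℝ, 0 ≤ C ∧ ∀ A T w : ℕ, ∀ y : ℝ, 1 ≤ A → 1 ≤ T → w ≤ T →
  |(∑ t' ∈ range w, KK (pos (A + 1) T (Sum.inr y)) (pos (A + 1) T (Sum.inl t')) - BL A T w |y|)| ≤
    C * Real.log (A + T + 2 + |y|)

/-- U4 (line, line) -/
def U4 : Prop := ∃ C : ℝ, 0 ≤ C ∧ ∀ A T E : ℕ, ∀ y : ℝ, 1 ≤ A → 1 ≤ T →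
  |(∑ l ∈ Ico (-(E : ℤ)) E, KK (pos (A + 1) T (Sum.inr y)) (pos (A + 1) T (Sum.inr ((l : ℝ) + 1 / 2))) -
    BLl A T E |y|)| ≤ C * Real.log (A + T + E + 2 + |y|)

/-- W1: the weight at the sites -/
def W1 : Prop := ∀ (r q : ℕ) (KR : ℝ), ∃ C : ℝ, 0 ≤ C ∧ ∀ A T m t : ℕ, 1 ≤ A → t < T →
  wgt r q 0 (A + 1) (A + 1) T m KR (Sum.inl t) ≤
    Real.exp (-(q * (GG (t + 2 * A) 0 - GG t 0)) + C * Real.log (A + T + m + 2))

/-- W2: the weight on the line -/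
def W2 : Prop := ∀ (r q : ℕ) (KR : ℝ), ∃ C : ℝ, 0 ≤ C ∧ ∀ (A T m : ℕ) (y : ℝ), 1 ≤ A → 2 ≤ T →
  wgt r q 0 (A + 1) (A + 1) T m KR (Sum.inr y) ≤
    Real.exp (-(q * (GG (T + 2 * A) |y| - GG T |y|)) - 2 * Real.pi * |y| +
      C * Real.log (A + T + 2 + |y|))

/-! ## parameters -/

/-- parameters, in units of a scale `k`: `a = al k + 1`, `m = mu k`, `T = tau k`;
the reference configuration has weight `c1 + c2` on the sites `t < t1 k`, `c2` on the sites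
`t1 k ≤ t < tau k` and `d` at the `2 eps k` points `y = l + 1/2`, `-eps k ≤ l < eps k` of the line -/
structure Par where
  r : ℕ
  q : ℕ
  al : ℕ
  t1 : ℕ
  tau : ℕ
  eps : ℕ
  mu : ℕ
  c1 : ℝ
  c2 : ℝ
  d : ℝ

structure Par.Ok (P : Par) : Prop where
  er : Even P.r
  r2 : 2 ≤ P.r
  eq : Even P.q
  q2 : 2 ≤ P.q
  al1 : 1 ≤ P.al
  t1t : P.t1 ≤ P.tau
  tau2 : 2 ≤ P.tau
  eps1 : 1 ≤ P.eps
  mu1 : 1 ≤ P.mu
  c1n : 0 ≤ P.c1
  c2n : 0 ≤ P.c2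
  dn : 0 ≤ P.d
  mass : P.c1 * P.t1 + P.c2 * P.tau + 2 * P.d * P.eps = P.mu
  deg : 4 * P.mu ≤ 2 * P.q * P.al

/-- unit scale potential of the reference configuration at the sites -/
noncomputable def US (P : Par) (s : ℝ) : ℝ :=
  P.c1 * BS P.al P.t1 s + P.c2 * BS P.al P.tau s + P.d * BSl P.al P.tau P.eps s

/-- unit scale potential of the reference configuration on the line -/
noncomputable def UL (P : Par) (y : ℝ) : ℝ :=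
  P.c1 * BL P.al P.tau P.t1 y + P.c2 * BL P.al P.tau P.tau y + P.d * BLl P.al P.tau P.eps y

/-- weighted potential at the sites -/
noncomputable def PhiS (P : Par) (s : ℝ) : ℝ :=
  -(P.q * (GG (s + 2 * P.al) 0 - GG s 0)) + 2 * US P s

/-- weighted potential on the line -/
noncomputable def PhiL (P : Par) (y : ℝ) : ℝ :=
  -(P.q * (GG (P.tau + 2 * P.al) y - GG P.tau y)) - 2 * Real.pi * y + 2 * UL P y

/-- affine upper bound on the cell `[i, i+1]` -/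
def CellLe (f : ℝ → ℝ) (i : ℕ) (L R : ℝ) : Prop :=
  ∀ s : ℝ, (i : ℝ) ≤ s → s ≤ i + 1 → f s ≤ L + (R - L) * (s - i)

/-- numerical data for the archimedean bound with parameters `P`; `A0` is the resulting constant -/
structure Cert (P : Par) (A0 : ℝ) where
  l : ℝ
  Y0 : ℕ
  sL : ℕ → ℝ
  sR : ℕ → ℝ
  eL : ℕ → ℝ
  eR : ℕ → ℝ
  fL : ℕ → ℝ
  fR : ℕ → ℝ
  sLn : ∀ i < P.tau, 0 ≤ sL i
  sRn : ∀ i < P.tau, 0 ≤ sR i
  line : ∀ j < Y0, CellLe (PhiL P) j l l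
  tail : ∀ y : ℝ, (Y0 : ℝ) ≤ y → PhiL P y ≤ l - (y - Y0)
  site : ∀ i < P.tau, CellLe (PhiS P) i (l + sL i) (l + sR i)
  enS : ∀ i < P.tau, CellLe (fun s => -US P s) i (-eL i) (-eR i)
  enL : ∀ j < P.eps, CellLe (fun s => -UL P s) j (-fL j) (-fR j)
  tot : P.mu * l + (P.r + 1) * ∑ i ∈ range P.tau, (sL i + sR i) / 2 -
    (P.c1 * ∑ i ∈ range P.t1, (eL i + eR i) / 2 + P.c2 * ∑ i ∈ range P.tau, (eL i + eR i) / 2 +
      2 * P.d * ∑ j ∈ range P.eps, (fL j + fR j) / 2) ≤ A0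

/-- the archimedean bound -/
def ArchTot (P : Par) (A0 : ℝ) : Prop := ∀ δ : ℝ, 0 < δ → ∃ k0 : ℕ, ∀ k : ℕ, k0 ≤ k →
  ∀ z : ℕ → ℚ, IsZ P.r P.q z →
  |((hank (Lw P.r P.q 0 (P.al * k + 1) (P.al * k + 1) (wt P.r (P.al * k + 1) 1 z)) (P.mu * k) : ℚ) : ℝ)| ≤
    Real.exp (k ^ 2 * ((2 * P.mu ^ 2 - 2 * P.q * P.al * P.mu) * Real.log k + A0 + δ))

/-! ## `p`-adic side -/

/-- sharp form of M7a -/
noncomputable def cK (K : ℕ) : ℝ := ∑ i ∈ range K, 1 / ((i : ℝ) + 1) - Real.log K - 1 / K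

def MertensUB (c : ℝ) : Prop := ∀ ε : ℝ, 0 < ε → ∃ n₀ : ℕ, ∀ n : ℕ, n₀ ≤ n →
  ∑ p ∈ (Finset.Icc 1 n).filter Nat.Prime, Real.log p / ((p : ℝ) - 1) ≤ Real.log n - c + ε

/-- `2 q a m - 2 m ^ 2` for `a = al k + 1`, `m = mu k` -/
noncomputable def Eg (q al mu k : ℕ) : ℝ :=
  2 * q * (al * k + 1) * (mu * k) - 2 * (mu * k) ^ 2

/-- the constant of the p-adic total -/
noncomputable def P0 (r q al mu : ℕ) (l1 x1 c : ℝ) : ℝ :=
  (2 * q * al * mu - 2 * mu ^ 2) * (Real.log al - c) + (r + 1) * mu * al + q ^ 2 * al ^ 2 / 64 +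
    (x1 - al) * l1 * mu + (2 * q + r + 1 - l1) ^ 2 / 16 * (al ^ 2 - (2 * al - x1) ^ 2) +
    (2 * q + r + 1) ^ 2 / 16 * (2 * al - x1) ^ 2

/-- the p-adic total -/
def M9g : Prop := ∀ (r q al mu : ℕ) (l1 x1 c : ℝ), 1 ≤ al → 1 ≤ mu → mu ≤ q * al → 0 ≤ l1 →
  l1 ≤ 2 * q + r + 1 → (al : ℝ) ≤ x1 → x1 ≤ 2 * al → MertensUB c →
  ∀ C δ : ℝ, 0 ≤ C → 0 < δ → ∃ k0 : ℕ, ∀ k : ℕ, k0 ≤ k → ∀ β : ℕ → ℝ,
  (∀ p : ℕ, p.Prime → p ^ 2 < 2 * (al * k + 1) →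
    β p ≤ Eg q al mu k / (p - 1) +
      C * (1 + Nat.log p (2 * ((al * k + 1) + (al * k + 1) + mu * k))) * (mu * k)) →
  (∀ p : ℕ, p.Prime → 2 * (al * k + 1) ≤ p ^ 2 → p ≤ al * k + 1 →
    β p ≤ (r + 1) * (mu * k) + Eg q al mu k / p + (q : ℝ) ^ 2 / 32 * p +
      1 / 8 * (4 * (mu * k) / p + q) ^ 2) →
  (∀ p : ℕ, p.Prime → al * k + 1 < p → (p : ℝ) ≤ x1 * k →
    β p ≤ l1 * (mu * k) + (2 * q + r + 1 - l1) ^ 2 * (2 * (al * k + 1) - p) / 8) →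
  (∀ p : ℕ, p.Prime → al * k + 1 < p → x1 * k < (p : ℝ) → p ≤ 2 * (al * k + 1) →
    β p ≤ (2 * q + r + 1) ^ 2 * (2 * (al * k + 1) - p) / 8) →
  ∑ p ∈ (Finset.Icc 1 (2 * (al * k + 1))).filter Nat.Prime, β p * Real.log p ≤
    k ^ 2 * ((2 * q * al * mu - 2 * mu ^ 2) * Real.log k + P0 r q al mu l1 x1 c + δ)

end EM

end Z579
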