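import Pool.Agent.Lib.Z579.Num1
import Pool.Agent.Lib.Z579.ArchProd

/-!
# Certified bounds for linear combinations of `GG` on unit cells
-/

open Real Finset Set

namespace Z579

namespace Num

open Arch

/-! ## analysis of `GG` -/

lemma GG_zero_right (x : ℝ) : GG x 0 = x * log x - x := by
  unfold GG
  have : log (x ^ 2 + 0 ^ 2) = 2 * log x := by
    rw [zero_pow two_ne_zero, add_zero, log_pow]; norm_num
  rw [this]; ring

lemma GG_neg (x y : ℝ) : GG (-x) y = -GG x y := by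
  unfold GG
  rw [neg_div, neg_div, arctan_neg, neg_sq]
  ring

lemma GG_zero_left (y : ℝ) : GG 0 y = 0 := by
  unfold GG; simp

lemma convexOn_GG {D : ℝ} (hD : 0 ≤ D) : ConvexOn ℝ (Ici 0) (fun x => GG x D) := by
  rcases hD.eq_or_lt with h | h
  · subst h
    have h1 : ConvexOn ℝ (Ici (0 : ℝ)) (fun x => x * log x - x) :=
      (Real.convexOn_mul_log).sub (concaveOn_id (convex_Ici 0))
    refine h1.congr ?_
    intro x _
    exact (GG_zero_right x).symm
  · have hd : ∀ x : ℝ, deriv (fun x => GG x D) x = gg x D := fun x => (hasDerivAt_GG h x).deriv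
    refine MonotoneOn.convexOn_of_deriv (convex_Ici 0) ?_ ?_ ?_
    · exact fun x _ => (hasDerivAt_GG h x).continuousAt.continuousWithinAt
    · exact fun x _ => (hasDerivAt_GG h x).differentiableAt.differentiableWithinAt
    · intro x hx y hy hxy
      rw [interior_Ici] at hx hy
      simp only [hd]
      exact gg_mono (le_of_lt hx) hxy h

lemma concaveOn_GG {D : ℝ} (hD : 0 ≤ D) : ConcaveOn ℝ (Iic 0) (fun x => GG x D) := by
  have h1 := (convexOn_GG hD)
  refine ⟨convex_Iic 0, ?_⟩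
  intro x hx y hy a b ha hb hab
  have h2 := h1.2 (x := -x) (y := -y) (by simpa using hx) (by simpa using hy) ha hb hab
  simp only [smul_eq_mul] at h2 ⊢
  have e : a * -x + b * -y = -(a * x + b * y) := by ring
  rw [e, GG_neg, GG_neg, GG_neg] at h2
  linarith

lemma hasDerivAt_GG_x {D x : ℝ} (hD : 0 ≤ D) (hx : D = 0 → x ≠ 0) :
    HasDerivAt (fun x => GG x D) (gg x D) x := by
  rcases hD.eq_or_lt with h | h
  · have hx0 := hx h.symm
    subst h
    have h1 : HasDerivAt (fun x => x * log x - x) (log x + 1 - 1) x := by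
      have h2 := (hasDerivAt_id x).mul (hasDerivAt_log hx0)
      have h3 := h2.sub (hasDerivAt_id x)
      refine h3.congr_deriv ?_
      simp only [id]
      field_simp
    have h2 : (fun x => GG x 0) = fun x => x * log x - x := by
      ext x; exact GG_zero_right x
    rw [h2]
    refine h1.congr_deriv ?_
    unfold gg
    rw [zero_pow two_ne_zero, add_zero, log_pow]
    norm_num
  · exact hasDerivAt_GG h x

lemma hasDerivAt_GG_y {x y : ℝ} (hy : 0 < y) :
    HasDerivAt (fun y => GG x y) (arctan (x / y)) y := by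
  unfold GG
  have hy' := hy.ne'
  have h0 : 0 < x ^ 2 + y ^ 2 := by positivity
  have h1 : HasDerivAt (fun s : ℝ => x ^ 2 + s ^ 2) (2 * y) y := by
    simpa using (hasDerivAt_pow 2 y).const_add (x ^ 2)
  have h2 := (h1.log h0.ne').const_mul (x / 2)
  have h3 : HasDerivAt (fun s : ℝ => x / s) (-x / y ^ 2) y := by
    have := (hasDerivAt_inv hy').const_mul x
    refine (this.congr_deriv ?_).congr_of_eventuallyEq ?_
    · ring
    · filter_upwards with s
      rw [div_eq_mul_inv]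
  have h4 := (hasDerivAt_id y).mul h3.arctan
  have h5 := (h2.sub_const x).add h4
  refine h5.congr_deriv ?_
  simp only [id]
  field_simp
  ring

lemma continuous_GG_y (x : ℝ) : ContinuousOn (fun y => GG x y) (Ici 0) := by
  intro y hy
  rcases (show (0 : ℝ) ≤ y from hy).eq_or_lt with h | h
  · subst h
    -- at zero
    rcases eq_or_ne x 0 with hx | hx
    · subst hx
      have : (fun y => GG 0 y) = fun _ => (0 : ℝ) := by ext y; exact GG_zero_left y
      rw [this]; exact continuousWithinAt_const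
    · unfold GG
      have h1 : ContinuousAt (fun y : ℝ => x / 2 * log (x ^ 2 + y ^ 2) - x) 0 := by
        have : x ^ 2 + (0 : ℝ) ^ 2 ≠ 0 := by positivity
        fun_prop (disch := assumption)
      have h2 : ContinuousAt (fun y : ℝ => y * arctan (x / y)) 0 := by
        have h3 : Filter.Tendsto (fun y : ℝ => y * arctan (x / y)) (nhds 0) (nhds 0) := by
          have h4 : Filter.Tendsto (fun y : ℝ => |y| * (π / 2)) (nhds 0) (nhds 0) := by
            have : Continuous (fun y : ℝ => |y| * (π / 2)) := by fun_prop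
            have := this.tendsto 0
            simpa using this
          refine squeeze_zero_norm (fun y => ?_) h4
          rw [norm_mul, norm_eq_abs, norm_eq_abs]
          apply mul_le_mul_of_nonneg_left _ (abs_nonneg _)
          rw [abs_le]
          exact ⟨(neg_pi_div_two_lt_arctan _).le, (arctan_lt_pi_div_two _).le⟩
        have h5 : (0 : ℝ) * arctan (x / 0) = 0 := by simp
        rw [ContinuousAt, h5]
        exact h3
      exact (h1.add h2).continuousWithinAt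
  · exact (hasDerivAt_GG_y h).continuousAt.continuousWithinAt

lemma concaveOn_GG_y {x : ℝ} (hx : 0 ≤ x) : ConcaveOn ℝ (Ici 0) (fun y => GG x y) := by
  refine AntitoneOn.concaveOn_of_deriv (convex_Ici 0) (continuous_GG_y x) ?_ ?_
  · intro y hy
    rw [interior_Ici] at hy
    exact (hasDerivAt_GG_y hy).differentiableAt.differentiableWithinAt
  · intro y hy z hz hyz
    rw [interior_Ici] at hy hz
    rw [(hasDerivAt_GG_y hy).deriv, (hasDerivAt_GG_y hz).deriv]
    exact arctan_strictMono.monotone (div_le_div_of_nonneg_left hx hy hyz)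

/-! ## chords and tangents -/

lemma chord_convex {f : ℝ → ℝ} {S : Set ℝ} (hf : ConvexOn ℝ S f) {i s : ℝ} (h0 : i ∈ S)
    (h1 : i + 1 ∈ S) (hs : i ≤ s) (hs' : s ≤ i + 1) :
    f s ≤ (1 - (s - i)) * f i + (s - i) * f (i + 1) := by
  have h := hf.2 h0 h1 (show (0 : ℝ) ≤ 1 - (s - i) by linarith)
    (show (0 : ℝ) ≤ s - i by linarith) (by ring)
  simp only [smul_eq_mul] at h
  have e : (1 - (s - i)) * i + (s - i) * (i + 1) = s := by ring
  rwa [e] at h

lemma chord_concave {f : ℝ → ℝ} {S : Set ℝ} (hf : ConcaveOn ℝ S f) {i s : ℝ} (h0 : i ∈ S)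
    (h1 : i + 1 ∈ S) (hs : i ≤ s) (hs' : s ≤ i + 1) :
    (1 - (s - i)) * f i + (s - i) * f (i + 1) ≤ f s := by
  have h := hf.2 h0 h1 (show (0 : ℝ) ≤ 1 - (s - i) by linarith)
    (show (0 : ℝ) ≤ s - i by linarith) (by ring)
  simp only [smul_eq_mul] at h
  have e : (1 - (s - i)) * i + (s - i) * (i + 1) = s := by ring
  rwa [e] at h

lemma tangent_convex {f : ℝ → ℝ} {S : Set ℝ} (hf : ConvexOn ℝ S f) {m s d : ℝ} (hm : m ∈ S)
    (hs : s ∈ S) (hd : HasDerivAt f d m) : f m + d * (s - m) ≤ f s := by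
  rcases lt_trichotomy m s with h | h | h
  · have := hf.le_slope_of_hasDerivAt hm hs h hd
    rw [slope_def_field, le_div_iff₀ (by linarith)] at this
    linarith
  · subst h; simp
  · have := hf.slope_le_of_hasDerivAt hs hm h hd
    rw [slope_def_field, div_le_iff₀ (by linarith)] at this
    linarith

lemma tangent_concave {f : ℝ → ℝ} {S : Set ℝ} (hf : ConcaveOn ℝ S f) {m s d : ℝ} (hm : m ∈ S)
    (hs : s ∈ S) (hd : HasDerivAt f d m) : f s ≤ f m + d * (s - m) := by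
  have h := tangent_convex (f := -f) hf.neg hm hs hd.neg
  simp only [Pi.neg_apply] at h
  linarith

/-! ## interval evaluation of `GG` at half integers, unit `1 / 2 ^ 34` -/

/-- `2 ^ 32 * (log (n / 4))` -/
def lgQ (n : ℤ) : ℤ × ℤ :=
  let l := lgI n.toNat
  (l.1 - 5954088946, l.2 - 5954088940)

def GI (X Y : ℤ) : ℤ × ℤ :=
  let l := lgQ (X ^ 2 + Y ^ 2)
  if Y = 0 then (X * l.1 - 8589934592 * X, X * l.2 - 8589934592 * X)
  else
    let t := atJ X Y
    (X * l.1 - 8589934592 * X + 2 * Y * t.1, X * l.2 - 8589934592 * X + 2 * Y * t.2)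

def GIs (X Y : ℤ) : ℤ × ℤ :=
  if X = 0 then (0, 0) else if 0 < X then GI X Y else
    let g := GI (-X) Y
    (-g.2, -g.1)

lemma lgQ_bounds (n : ℤ) (hn : 1 ≤ n) :
    (((lgQ n).1 : ℤ) : ℝ) ≤ 2 ^ 32 * log ((n : ℝ) / 4) ∧
      2 ^ 32 * log ((n : ℝ) / 4) ≤ (((lgQ n).2 : ℤ) : ℝ) := by
  have h1 := lgI_bounds n.toNat (by omega)
  have h2 : ((n.toNat : ℕ) : ℝ) = n := by
    have : ((n.toNat : ℕ) : ℤ) = n := Int.toNat_of_nonneg (by omega)
    exact_mod_cast this
  have hn0 : (0 : ℝ) < n := by exact_mod_cast (by omega : 0 < n)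
  rw [h2] at h1
  have h3 : log ((n : ℝ) / 4) = log n - 2 * log 2 := by
    rw [log_div hn0.ne' (by norm_num), show (4 : ℝ) = 2 ^ 2 by norm_num, log_pow]
    norm_num
  rw [h3]
  have g1 := log_two_gt_d9
  have g2 := log_two_lt_d9
  have g3 : (2977044470 : ℝ) ≤ 2 ^ 32 * log 2 := by norm_num at g1 ⊢; linarith
  have g4 : 2 ^ 32 * log 2 ≤ (2977044473 : ℝ) := by norm_num at g2 ⊢; linarith
  simp only [lgQ]
  push_cast
  constructor
  · linarith [h1.1]
  · linarith [h1.2]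

lemma GI_bounds (X Y : ℤ) (hX : 0 < X) (hY : 0 ≤ Y) :
    (((GI X Y).1 : ℤ) : ℝ) ≤ 2 ^ 34 * GG (X / 2) (Y / 2) ∧
      2 ^ 34 * GG (X / 2) (Y / 2) ≤ (((GI X Y).2 : ℤ) : ℝ) := by
  have hX' : (0 : ℝ) < X := by exact_mod_cast hX
  have hN : 1 ≤ X ^ 2 + Y ^ 2 := by nlinarith [sq_nonneg Y]
  have h1 := lgQ_bounds (X ^ 2 + Y ^ 2) hN
  have e1 : ((X : ℝ) / 2) ^ 2 + ((Y : ℝ) / 2) ^ 2 = ((X ^ 2 + Y ^ 2 : ℤ) : ℝ) / 4 := by
    push_cast; ring
  unfold GI GG
  rw [e1]
  generalize lgQ (X ^ 2 + Y ^ 2) = l at h1 ⊢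
  generalize log (((X ^ 2 + Y ^ 2 : ℤ) : ℝ) / 4) = lg at h1 ⊢
  have m1 := mul_le_mul_of_nonneg_left h1.1 hX'.le
  have m2 := mul_le_mul_of_nonneg_left h1.2 hX'.le
  by_cases hY0 : Y = 0
  · subst hY0
    simp only [if_true]
    push_cast
    rw [zero_div, div_zero, arctan_zero, zero_mul, add_zero]
    constructor
    · nlinarith
    · nlinarith
  · simp only [if_neg hY0]
    have hYp : 0 < Y := lt_of_le_of_ne hY (Ne.symm hY0)
    have hY' : (0 : ℝ) < Y := by exact_mod_cast hYp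
    have h2 := atJ_bounds X Y hX.le hYp
    have e2 : (X : ℝ) / 2 / (Y / 2) = X / Y := by
      rw [div_div_div_cancel_right₀ (by norm_num : (2 : ℝ) ≠ 0)]
    rw [e2]
    have n1 := mul_le_mul_of_nonneg_left h2.1 hY'.le
    have n2 := mul_le_mul_of_nonneg_left h2.2 hY'.le
    push_cast
    constructor
    · nlinarith
    · nlinarith

lemma GIs_bounds (X Y : ℤ) (hY : 0 ≤ Y) :
    (((GIs X Y).1 : ℤ) : ℝ) ≤ 2 ^ 34 * GG (X / 2) (Y / 2) ∧
      2 ^ 34 * GG (X / 2) (Y / 2) ≤ (((GIs X Y).2 : ℤ) : ℝ) := by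
  unfold GIs
  split_ifs with h1 h2
  · subst h1
    simp [GG_zero_left]
  · exact GI_bounds X Y h2 hY
  · have h3 : 0 < -X := by omega
    have h4 := GI_bounds (-X) Y h3 hY
    have h5 : GG ((X : ℝ) / 2) (Y / 2) = -GG (((-X : ℤ) : ℝ) / 2) (Y / 2) := by
      rw [← GG_neg]; push_cast; congr 1; ring
    rw [h5]
    push_cast at h4 ⊢
    constructor
    · linarith [h4.2]
    · linarith [h4.1]

/-! ## terms -/

/-- a term: `w * GG (a + sg * s) b` if `k`, else `w * GG a (b + sg * s)` -/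
structure Trm where
  w : ℤ
  k : Bool
  a : ℤ
  b : ℤ
  sg : Bool

/-- the sign -/
def sgn (b : Bool) : ℤ := if b then 1 else -1

noncomputable def Trm.val (t : Trm) (s : ℝ) : ℝ :=
  t.w * (if t.k then GG (t.a + sgn t.sg * s) t.b else GG t.a (t.b + sgn t.sg * s))

/-- upper bound of `w * x` for `x` in an interval -/
def ub (w : ℤ) (I : ℤ × ℤ) : ℤ := if 0 ≤ w then w * I.2 else w * I.1

lemma ub_spec (w : ℤ) (I : ℤ × ℤ) {x : ℝ} (h1 : ((I.1 : ℤ) : ℝ) ≤ x) (h2 : x ≤ ((I.2 : ℤ) : ℝ)) :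
    (w : ℝ) * x ≤ ((ub w I : ℤ) : ℝ) := by
  unfold ub
  split_ifs with h
  · push_cast
    have : (0 : ℝ) ≤ w := by exact_mod_cast h
    exact mul_le_mul_of_nonneg_left h2 this
  · push_cast
    have : (w : ℝ) ≤ 0 := by exact_mod_cast (not_le.mp h).le
    exact mul_le_mul_of_nonpos_left h1 this

def sgI (b : Bool) (I : ℤ × ℤ) : ℤ × ℤ := if b then I else (-I.2, -I.1)

lemma sgI_spec (b : Bool) (I : ℤ × ℤ) {x : ℝ} (h1 : ((I.1 : ℤ) : ℝ) ≤ x)
    (h2 : x ≤ ((I.2 : ℤ) : ℝ)) :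
    (((sgI b I).1 : ℤ) : ℝ) ≤ sgn b * x ∧ (sgn b : ℝ) * x ≤ (((sgI b I).2 : ℤ) : ℝ) := by
  cases b
  · simp only [sgI, sgn, Bool.false_eq_true, if_false]
    push_cast
    constructor <;> linarith
  · simp only [sgI, sgn, if_true]
    push_cast
    constructor <;> linarith

/-- end point bounds of a term on the cell `[i, i+1]` -/
def Trm.bd (t : Trm) (i : ℤ) : ℤ × ℤ :=
  if t.k then
    let x0 := t.a + sgn t.sg * i
    let x1 := t.a + sgn t.sg * (i + 1)
    if (decide (0 ≤ x0 ∧ 0 ≤ x1)) = decide (0 ≤ t.w) then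
      (ub t.w (GIs (2 * x0) (2 * t.b)), ub t.w (GIs (2 * x1) (2 * t.b)))
    else
      let g := ub t.w (GIs (x0 + x1) (2 * t.b))
      let d := sgI t.sg (lgQ ((x0 + x1) ^ 2 + (2 * t.b) ^ 2))
      (g + ub (-t.w) d, g + ub t.w d)
  else
    let y0 := t.b + sgn t.sg * i
    let y1 := t.b + sgn t.sg * (i + 1)
    if t.w < 0 then
      (ub t.w (GIs (2 * t.a) (2 * y0)), ub t.w (GIs (2 * t.a) (2 * y1)))
    else
      let g := ub t.w (GIs (2 * t.a) (y0 + y1))
      let d := sgI t.sg (atJ (2 * t.a) (y0 + y1))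
      (g + ub (-(2 * t.w)) d, g + ub (2 * t.w) d)

/-- admissibility of a term on a cell -/
def Trm.ok (t : Trm) (i : ℤ) : Bool :=
  if t.k then decide (0 ≤ t.b)
  else decide (0 ≤ t.a) && decide (0 ≤ t.b + sgn t.sg * i) &&
    decide (0 ≤ t.b + sgn t.sg * (i + 1))

lemma combine {x θ L R A B : ℝ} (h : x ≤ (1 - θ) * A + θ * B) (hA : 2 ^ 34 * A ≤ L)
    (hB : 2 ^ 34 * B ≤ R) (h0 : 0 ≤ θ) (h1 : θ ≤ 1) : 2 ^ 34 * x ≤ L + (R - L) * θ := by
  have h2 := mul_le_mul_of_nonneg_left hA (by linarith : 0 ≤ 1 - θ)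
  have h3 := mul_le_mul_of_nonneg_left hB h0
  nlinarith

lemma sgn_cases (b : Bool) : sgn b = 1 ∨ sgn b = -1 := by cases b <;> simp [sgn]

/-- chord bound with a sign weight -/
lemma weighted_chord {f : ℝ → ℝ} {w i s : ℝ} (hs : i ≤ s) (hs' : s ≤ i + 1)
    (h : (0 ≤ w ∧ ConvexOn ℝ (Icc i (i + 1)) f) ∨ (w ≤ 0 ∧ ConcaveOn ℝ (Icc i (i + 1)) f)) :
    w * f s ≤ (1 - (s - i)) * (w * f i) + (s - i) * (w * f (i + 1)) := by
  have m0 : i ∈ Icc i (i + 1) := ⟨le_refl _, by linarith⟩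
  have m1 : i + 1 ∈ Icc i (i + 1) := ⟨by linarith, le_refl _⟩
  rcases h with ⟨hw, hf⟩ | ⟨hw, hf⟩
  · have := mul_le_mul_of_nonneg_left (chord_convex hf m0 m1 hs hs') hw
    linarith
  · have := mul_le_mul_of_nonpos_left (chord_concave hf m0 m1 hs hs') hw
    linarith

lemma weighted_tangent {f : ℝ → ℝ} {w i s d : ℝ} (hs : i ≤ s) (hs' : s ≤ i + 1)
    (hd : HasDerivAt f d (i + 1 / 2))
    (h : (0 ≤ w ∧ ConcaveOn ℝ (Icc i (i + 1)) f) ∨ (w ≤ 0 ∧ ConvexOn ℝ (Icc i (i + 1)) f)) :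
    w * f s ≤ (1 - (s - i)) * (w * f (i + 1 / 2) - w * d / 2) +
      (s - i) * (w * f (i + 1 / 2) + w * d / 2) := by
  have m0 : i + 1 / 2 ∈ Icc i (i + 1) := ⟨by linarith, by linarith⟩
  have m1 : s ∈ Icc i (i + 1) := ⟨hs, hs'⟩
  rcases h with ⟨hw, hf⟩ | ⟨hw, hf⟩
  · have := mul_le_mul_of_nonneg_left (tangent_concave hf m0 m1 hd) hw
    linarith
  · have := mul_le_mul_of_nonpos_left (tangent_convex hf m0 m1 hd) hw
    linarith

end Num

end Z579
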