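import Pool.Agent.Lib.Z579.E6Defs
import Pool.Agent.Lib.Z579.Num2

/-!
# U2 and U4: potentials of the block of the line
-/

open Real Finset

namespace Z579

namespace EM

open Arch Z579.Num

/-! ## `GG` in the second variable -/

lemma GG_y_lip_aux (x : ℝ) {d D : ℝ} (hd : 0 ≤ d) (hdD : d ≤ D) :
    |GG x D - GG x d| ≤ π / 2 * (D - d) := by
  rcases hdD.eq_or_lt with h | h
  · subst h; simp
  obtain ⟨c, hc, hc2⟩ := exists_hasDerivAt_eq_slope (fun y => GG x y) (fun y => arctan (x / y)) h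
    ((continuous_GG_y x).mono (fun y hy => hd.trans hy.1))
    (fun y hy => hasDerivAt_GG_y (lt_of_le_of_lt hd hy.1))
  have h3 : 0 < D - d := by linarith
  rw [eq_div_iff h3.ne'] at hc2
  rw [← hc2, abs_mul, abs_of_pos h3]
  refine mul_le_mul_of_nonneg_right ?_ h3.le
  rw [abs_le]
  exact ⟨(neg_pi_div_two_lt_arctan _).le, (arctan_lt_pi_div_two _).le⟩

lemma GG_y_lip (x : ℝ) {d D : ℝ} (hd : 0 ≤ d) (hD : 0 ≤ D) :
    |GG x D - GG x d| ≤ π / 2 * |D - d| := by
  rcases le_total d D with h | h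
  · rw [abs_of_nonneg (sub_nonneg.mpr h)]
    exact GG_y_lip_aux x hd h
  · rw [abs_sub_comm, abs_sub_comm D d, abs_of_nonneg (sub_nonneg.mpr h)]
    exact GG_y_lip_aux x hD h

/-! ## midpoint sums -/

lemma gg_neg (s y : ℝ) : gg (-s) y = gg s y := by
  unfold gg; rw [neg_sq]

lemma gg_abs (s y : ℝ) : gg |s| y = gg s y := by
  unfold gg; rw [sq_abs]

/-- the variation function of `gg` -/
noncomputable def VV (D s : ℝ) : ℝ := if 0 ≤ s then gg s D - gg 0 D else gg 0 D - gg s D

lemma gg_zero_le {D : ℝ} (hD : 0 < D) (s : ℝ) : gg 0 D ≤ gg s D := by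
  rw [← gg_abs s]
  exact gg_mono le_rfl (abs_nonneg s) hD

lemma VV_mono {D : ℝ} (hD : 0 < D) {s t : ℝ} (hst : s ≤ t) : VV D s ≤ VV D t := by
  unfold VV
  split_ifs with h1 h2 h2
  · have := gg_mono h1 hst hD
    linarith
  · exact absurd (h1.trans hst) h2
  · have a := gg_zero_le hD s
    have b := gg_zero_le hD t
    linarith
  · push Not at h1 h2
    have := gg_mono (s := -t) (t := -s) (by linarith) (by linarith) hD
    rw [gg_neg, gg_neg] at this
    linarith

lemma gg_sub_abs {D : ℝ} (hD : 0 < D) (s t : ℝ) : |gg s D - gg t D| ≤ |VV D s - VV D t| := by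
  have a := gg_zero_le hD s
  have b := gg_zero_le hD t
  unfold VV
  split_ifs
  · exact le_of_eq (by congr 1; ring)
  · rw [show gg s D - gg 0 D - (gg 0 D - gg t D) = (gg s D - gg 0 D) + (gg t D - gg 0 D) by ring,
      abs_of_nonneg (show 0 ≤ (gg s D - gg 0 D) + (gg t D - gg 0 D) by linarith), abs_le]
    constructor <;> linarith
  · rw [show gg 0 D - gg s D - (gg t D - gg 0 D) = -((gg s D - gg 0 D) + (gg t D - gg 0 D)) by ring,
      abs_neg, abs_of_nonneg (show 0 ≤ (gg s D - gg 0 D) + (gg t D - gg 0 D) by linarith), abs_le]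
    constructor <;> linarith
  · rw [abs_sub_comm]
    exact le_of_eq (by congr 1; ring)

lemma cell_mid {D : ℝ} (hD : 0 < D) (x : ℝ) :
    |gg (x + 1 / 2) D - (GG (x + 1) D - GG x D)| ≤ VV D (x + 1) - VV D x := by
  obtain ⟨c, hc, hc2⟩ := exists_hasDerivAt_eq_slope (fun s => GG s D) (fun s => gg s D)
    (show x < x + 1 by linarith)
    (fun x _ => (hasDerivAt_GG hD x).continuousAt.continuousWithinAt)
    (fun x _ => hasDerivAt_GG hD x)
  rw [show x + 1 - x = 1 by ring, div_one] at hc2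
  rw [← hc2]
  refine (gg_sub_abs hD _ _).trans ?_
  have h1 := VV_mono hD (show x ≤ x + 1 / 2 by linarith)
  have h2 := VV_mono hD (show x + 1 / 2 ≤ x + 1 by linarith)
  have h3 := VV_mono hD hc.1.le
  have h4 := VV_mono hD hc.2.le
  rw [abs_le]
  constructor <;> linarith

/-- midpoint sum over `2 E` cells -/
lemma mid_sum {D : ℝ} (hD : 0 < D) (y : ℝ) (E : ℕ) :
    |∑ l ∈ Ico (-(E : ℤ)) E, gg (y + ((l : ℝ) + 1 / 2)) D - (GG (y + E) D - GG (y - E) D)| ≤
      VV D (y + E) - VV D (y - E) := by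
  induction E with
  | zero => simp
  | succ E ih =>
    have h1 : Ico (-((E + 1 : ℕ) : ℤ)) ((E + 1 : ℕ) : ℤ) =
        insert (-(E : ℤ) - 1) (insert (E : ℤ) (Ico (-(E : ℤ)) E)) := by
      ext x
      simp only [mem_Ico, mem_insert]
      push_cast
      omega
    have n1 : (E : ℤ) ∉ Ico (-(E : ℤ)) E := by simp
    have n2 : (-(E : ℤ) - 1) ∉ insert (E : ℤ) (Ico (-(E : ℤ)) E) := by
      simp only [mem_Ico, mem_insert]
      omega
    rw [h1, sum_insert n2, sum_insert n1]
    have c1 := cell_mid hD (y + E)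
    have c2 := cell_mid hD (y - (E + 1))
    have e1 : y + E + 1 / 2 = y + (((E : ℤ) : ℝ) + 1 / 2) := by push_cast; ring
    have e2 : y - (E + 1) + 1 / 2 = y + (((-(E : ℤ) - 1 : ℤ) : ℝ) + 1 / 2) := by push_cast; ring
    have e3 : y - ((E : ℝ) + 1) + 1 = y - E := by ring
    have e4 : y + (E : ℝ) + 1 = y + ((E + 1 : ℕ) : ℝ) := by push_cast; ring
    have e5 : y - ((E : ℝ) + 1) = y - ((E + 1 : ℕ) : ℝ) := by push_cast; ring
    rw [e1, e4] at c1
    rw [e2, e3, e5] at c2
    rw [abs_le] at c1 c2 ih ⊢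
    constructor <;> linarith [c1.1, c1.2, c2.1, c2.2, ih.1, ih.2]

lemma VV_le {D : ℝ} (hD : 1 ≤ D) (s : ℝ) : |VV D s| ≤ gg s D := by
  have hD0 : 0 < D := by linarith
  have a := gg_zero_le hD0 s
  have b : 0 ≤ gg 0 D := by
    unfold gg
    have : (1 : ℝ) ≤ 0 ^ 2 + D ^ 2 := by nlinarith
    exact div_nonneg (Real.log_nonneg this) (by norm_num)
  unfold VV
  rw [abs_le]
  split_ifs <;> constructor <;> linarith

lemma VV_sub_le {D y L : ℝ} {E : ℕ} (hD : 1 ≤ D) (hL : |y| + E + D ≤ L) :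
    VV D (y + E) - VV D (y - E) ≤ 2 * Real.log L := by
  have hD0 : 0 < D := by linarith
  have h1 := VV_le hD (y + E)
  have h2 := VV_le hD (y - E)
  have hE : (0 : ℝ) ≤ E := Nat.cast_nonneg E
  have h3 : gg (y + E) D ≤ Real.log L := by
    rw [← gg_abs]
    refine gg_le (abs_nonneg _) hD0 ?_
    have := abs_add_le y E
    rw [abs_of_nonneg hE] at this
    linarith
  have h4 : gg (y - E) D ≤ Real.log L := by
    rw [← gg_abs]
    refine gg_le (abs_nonneg _) hD0 ?_
    have := abs_sub y E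
    rw [abs_of_nonneg hE] at this
    linarith
  rw [abs_le] at h1 h2
  linarith [h1.1, h1.2, h2.1, h2.2]

/-- the sum compared with `GG`, with the second argument moved -/
lemma mid_sum' {D d y L K : ℝ} {E : ℕ} (hD : 1 ≤ D) (hd : 0 ≤ d) (hDd : |D - d| ≤ K)
    (hL : |y| + E + D ≤ L) :
    |∑ l ∈ Ico (-(E : ℤ)) E, gg (y + ((l : ℝ) + 1 / 2)) D - (GG (y + E) d - GG (y - E) d)| ≤
      2 * Real.log L + π * K := by
  have hD0 : 0 < D := by linarith
  have h1 := mid_sum hD0 y E
  have h2 := VV_sub_le hD hL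
  have h3 := GG_y_lip (y + E) hd hD0.le
  have h4 := GG_y_lip (y - E) hd hD0.le
  have h5 : π / 2 * |D - d| ≤ π / 2 * K := mul_le_mul_of_nonneg_left hDd (by positivity)
  rw [abs_le] at h1 h3 h4 ⊢
  constructor <;> linarith [h1.1, h1.2, h3.1, h3.2, h4.1, h4.2]

lemma half_log (s D : ℝ) (X : ℝ) (h : X = s ^ 2 + D ^ 2) : 1 / 2 * Real.log X = gg s D := by
  unfold gg; rw [h]; ring

/-- U2 -/
theorem u2 : U2 := by
  refine ⟨100, by norm_num, fun A T E t hA hT ht => ?_⟩
  have hA' : (1 : ℝ) ≤ A := by exact_mod_cast hA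
  have hT' : (1 : ℝ) ≤ T := by exact_mod_cast hT
  have hE' : (0 : ℝ) ≤ E := Nat.cast_nonneg E
  have ht0 : (0 : ℝ) ≤ t := Nat.cast_nonneg t
  have ht' : (t : ℝ) + 1 ≤ T := by exact_mod_cast ht
  set D1 := √(1 + (T - t - 1 / 2 : ℝ) ^ 2) with hD1
  set D2 := √(1 + (2 * A + T + t + 3 / 2 : ℝ) ^ 2) with hD2
  have s1 : D1 ^ 2 = 1 + (T - t - 1 / 2 : ℝ) ^ 2 := Real.sq_sqrt (by positivity)
  have s2 : D2 ^ 2 = 1 + (2 * A + T + t + 3 / 2 : ℝ) ^ 2 := Real.sq_sqrt (by positivity)
  have d1 : 1 ≤ D1 := by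
    rw [hD1]
    apply Real.one_le_sqrt.mpr
    nlinarith [sq_nonneg (T - t - 1 / 2 : ℝ)]
  have d2 : 1 ≤ D2 := by
    rw [hD2]
    apply Real.one_le_sqrt.mpr
    nlinarith [sq_nonneg (2 * A + T + t + 3 / 2 : ℝ)]
  have b1 : |D1 - (T - t)| ≤ 1 := by
    rw [abs_le]
    constructor
    · nlinarith
    · have : D1 ≤ (T - t) + 1 := by
        rw [hD1, Real.sqrt_le_left (by linarith)]
        nlinarith
      linarith
  have b2 : |D2 - (2 * A + T + t)| ≤ 3 := by
    rw [abs_le]
    constructor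
    · have : (2 * A + T + t : ℝ) ≤ D2 := by
        rw [hD2]
        apply Real.le_sqrt_of_sq_le
        nlinarith
      linarith
    · have : D2 ≤ (2 * A + T + t) + 3 := by
        rw [hD2, Real.sqrt_le_left (by linarith)]
        nlinarith
      linarith
  set X : ℝ := A + T + E + 2 with hX
  have hX4 : 4 ≤ X := by rw [hX]; linarith
  have L1 : |(0 : ℝ)| + E + D1 ≤ X ^ 2 := by
    rw [abs_le] at b1
    rw [abs_zero]
    nlinarith [b1.2]
  have L2 : |(0 : ℝ)| + E + D2 ≤ X ^ 2 := by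
    rw [abs_le] at b2
    rw [abs_zero]
    nlinarith [b2.2]
  have m1 := mid_sum' (y := 0) (E := E) d1 (show (0 : ℝ) ≤ T - t by linarith) b1 L1
  have m2 := mid_sum' (y := 0) (E := E) d2 (show (0 : ℝ) ≤ 2 * A + T + t by linarith) b2 L2
  have hsum : ∑ l ∈ Ico (-(E : ℤ)) E,
      KK (pos (A + 1) T (Sum.inl t)) (pos (A + 1) T (Sum.inr ((l : ℝ) + 1 / 2))) =
      ∑ l ∈ Ico (-(E : ℤ)) E, gg (0 + ((l : ℝ) + 1 / 2)) D1 +
      ∑ l ∈ Ico (-(E : ℤ)) E, gg (0 + ((l : ℝ) + 1 / 2)) D2 := by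
    rw [← Finset.sum_add_distrib]
    refine Finset.sum_congr rfl fun l _ => ?_
    unfold KK
    congr 1
    · apply half_log
      rw [s1, ← Complex.normSq_eq_norm_sq, Complex.normSq_apply]
      simp only [pos, tt, Complex.sub_re, Complex.add_re, Complex.natCast_re, Complex.one_re,
        Complex.sub_im, Complex.add_im, Complex.natCast_im, Complex.mul_re, Complex.mul_im,
        Complex.ofReal_re, Complex.ofReal_im, Complex.I_re, Complex.I_im, Complex.neg_re,
        Complex.neg_im, Nat.cast_add, Nat.cast_one, Complex.one_im]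
      norm_num
      ring
    · apply half_log
      rw [s2, ← Complex.normSq_eq_norm_sq, Complex.normSq_apply]
      simp only [pos, tt, Complex.sub_re, Complex.add_re, Complex.natCast_re, Complex.one_re,
        Complex.sub_im, Complex.add_im, Complex.natCast_im, Complex.mul_re, Complex.mul_im,
        Complex.ofReal_re, Complex.ofReal_im, Complex.I_re, Complex.I_im, Complex.neg_re,
        Complex.neg_im, Nat.cast_add, Nat.cast_one, Complex.one_im]
      norm_num
      ring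
  have hBS : BSl A T E t = (GG (0 + E) (T - t) - GG (0 - E) (T - t)) +
      (GG (0 + E) (2 * A + T + t) - GG (0 - E) (2 * A + T + t)) := by
    unfold BSl
    rw [zero_add, zero_sub, GG_neg, GG_neg]
    ring
  rw [hsum, hBS]
  have hlX : Real.log (X ^ 2) = 2 * Real.log X := by rw [Real.log_pow]; norm_num
  rw [hlX] at m1 m2
  have hl4 : 1 ≤ Real.log X := by
    have h2 : Real.log 4 ≤ Real.log X := Real.log_le_log (by norm_num) hX4
    have h4 : Real.log 4 = 2 * Real.log 2 := by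
      rw [show (4 : ℝ) = 2 ^ 2 by norm_num, Real.log_pow]; norm_num
    linarith [Real.log_two_gt_d9]
  have hpi := Real.pi_lt_four
  have hpi0 := Real.pi_pos
  rw [abs_le] at m1 m2 ⊢
  constructor <;> nlinarith [m1.1, m1.2, m2.1, m2.2]

/-- U4 -/
theorem u4 : U4 := by
  refine ⟨100, by norm_num, fun A T E y hA hT => ?_⟩
  have hA' : (1 : ℝ) ≤ A := by exact_mod_cast hA
  have hT' : (1 : ℝ) ≤ T := by exact_mod_cast hT
  have hE' : (0 : ℝ) ≤ E := Nat.cast_nonneg E
  have hy0 := abs_nonneg y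
  set D2 := √(1 + (2 * A + 2 * T + 1 : ℝ) ^ 2) with hD2
  have s2 : D2 ^ 2 = 1 + (2 * A + 2 * T + 1 : ℝ) ^ 2 := Real.sq_sqrt (by positivity)
  have d2 : 1 ≤ D2 := by
    rw [hD2]
    apply Real.one_le_sqrt.mpr
    nlinarith [sq_nonneg (2 * A + 2 * T + 1 : ℝ)]
  have b2 : |D2 - (2 * A + 2 * T)| ≤ 3 := by
    rw [abs_le]
    constructor
    · have : (2 * A + 2 * T : ℝ) ≤ D2 := by
        rw [hD2]
        apply Real.le_sqrt_of_sq_le
        nlinarith
      linarith
    · have : D2 ≤ (2 * A + 2 * T) + 3 := by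
        rw [hD2, Real.sqrt_le_left (by linarith)]
        nlinarith
      linarith
  set X : ℝ := A + T + E + 2 + |y| with hX
  have hX4 : 4 ≤ X := by rw [hX]; linarith
  have L1 : |(-y)| + E + 1 ≤ X ^ 2 := by
    rw [abs_neg]
    nlinarith
  have L2 : |y| + E + D2 ≤ X ^ 2 := by
    rw [abs_le] at b2
    nlinarith [b2.2]
  have m1 := mid_sum' (y := -y) (E := E) (D := 1) (d := 0) (K := 1) le_rfl le_rfl (by norm_num) L1
  have m2 := mid_sum' (y := y) (E := E) d2 (show (0 : ℝ) ≤ 2 * A + 2 * T by linarith) b2 L2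
  have hsum : ∑ l ∈ Ico (-(E : ℤ)) E,
      KK (pos (A + 1) T (Sum.inr y)) (pos (A + 1) T (Sum.inr ((l : ℝ) + 1 / 2))) =
      ∑ l ∈ Ico (-(E : ℤ)) E, gg (-y + ((l : ℝ) + 1 / 2)) 1 +
      ∑ l ∈ Ico (-(E : ℤ)) E, gg (y + ((l : ℝ) + 1 / 2)) D2 := by
    rw [← Finset.sum_add_distrib]
    refine Finset.sum_congr rfl fun l _ => ?_
    unfold KK
    congr 1
    · apply half_log
      rw [← Complex.normSq_eq_norm_sq, Complex.normSq_apply]
      simp only [pos, tt, Complex.sub_re, Complex.add_re, Complex.natCast_re, Complex.one_re,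
        Complex.sub_im, Complex.add_im, Complex.natCast_im, Complex.mul_re, Complex.mul_im,
        Complex.ofReal_re, Complex.ofReal_im, Complex.I_re, Complex.I_im, Complex.neg_re,
        Complex.neg_im, Nat.cast_add, Nat.cast_one, Complex.one_im]
      norm_num
      ring
    · apply half_log
      rw [s2, ← Complex.normSq_eq_norm_sq, Complex.normSq_apply]
      simp only [pos, tt, Complex.sub_re, Complex.add_re, Complex.natCast_re, Complex.one_re,
        Complex.sub_im, Complex.add_im, Complex.natCast_im, Complex.mul_re, Complex.mul_im,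
        Complex.ofReal_re, Complex.ofReal_im, Complex.I_re, Complex.I_im, Complex.neg_re,
        Complex.neg_im, Nat.cast_add, Nat.cast_one, Complex.one_im]
      norm_num
      ring
  have hBS : BLl A T E |y| = (GG (-y + E) 0 - GG (-y - E) 0) +
      (GG (y + E) (2 * A + 2 * T) - GG (y - E) (2 * A + 2 * T)) := by
    unfold BLl
    have g : ∀ z d : ℝ, GG (-z + E) d - GG (-z - E) d = GG (z + E) d - GG (z - E) d := by
      intro z d
      rw [show -z + (E : ℝ) = -(z - E) by ring, show -z - (E : ℝ) = -(z + E) by ring, GG_neg,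
        GG_neg]
      ring
    rw [g]
    rcases abs_choice y with h | h
    · rw [h]; ring
    · rw [h]
      have g1 := g y 0
      have g2 := g y (2 * A + 2 * T)
      linarith
  rw [hsum, hBS]
  have hlX : Real.log (X ^ 2) = 2 * Real.log X := by rw [Real.log_pow]; norm_num
  rw [hlX] at m1 m2
  have hl4 : 1 ≤ Real.log X := by
    have h2 : Real.log 4 ≤ Real.log X := Real.log_le_log (by norm_num) hX4
    have h4 : Real.log 4 = 2 * Real.log 2 := by
      rw [show (4 : ℝ) = 2 ^ 2 by norm_num, Real.log_pow]; norm_num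
    linarith [Real.log_two_gt_d9]
  have hpi := Real.pi_lt_four
  have hpi0 := Real.pi_pos
  rw [abs_le] at m1 m2 ⊢
  constructor <;> nlinarith [m1.1, m1.2, m2.1, m2.2]

end EM

end Z579
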