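import Pool.Agent.Lib.Z579.E6U24

/-!
# U3: potential of a block of sites on the line
-/

open Real Finset

namespace Z579

namespace EM

open Arch Z579.Num

/-- midpoint sum over consecutive cells -/
lemma sum_cells {D : ℝ} (hD : 0 < D) (x : ℝ) (n : ℕ) :
    |∑ i ∈ range n, gg (x + i + 1 / 2) D - (GG (x + n) D - GG x D)| ≤
      VV D (x + n) - VV D x := by
  induction n with
  | zero => simp
  | succ n ih =>
    rw [sum_range_succ]
    have c1 := cell_mid hD (x + n)
    have e4 : x + (n : ℝ) + 1 = x + ((n + 1 : ℕ) : ℝ) := by push_cast; ring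
    rw [e4] at c1
    rw [abs_le] at c1 ih ⊢
    constructor <;> linarith [c1.1, c1.2, ih.1, ih.2]

lemma sum_cells' {D d x L K : ℝ} {n : ℕ} (hD : 1 ≤ D) (hd : 0 ≤ d) (hDd : |D - d| ≤ K)
    (h1 : |x| + D ≤ L) (h2 : |x + n| + D ≤ L) :
    |∑ i ∈ range n, gg (x + i + 1 / 2) D - (GG (x + n) d - GG x d)| ≤
      2 * Real.log L + π * K := by
  have hD0 : 0 < D := by linarith
  have a1 := sum_cells hD0 x n
  have a2 := VV_le hD (x + n)
  have a3 := VV_le hD x
  have b1 : gg (x + n) D ≤ Real.log L := by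
    rw [← gg_abs]
    exact gg_le (abs_nonneg _) hD0 h2
  have b2 : gg x D ≤ Real.log L := by
    rw [← gg_abs]
    exact gg_le (abs_nonneg _) hD0 h1
  have h3 := GG_y_lip (x + n) hd hD0.le
  have h4 := GG_y_lip x hd hD0.le
  have h5 : π / 2 * |D - d| ≤ π / 2 * K := mul_le_mul_of_nonneg_left hDd (by positivity)
  rw [abs_le] at a1 a2 a3 h3 h4 ⊢
  constructor <;> linarith [a1.1, a1.2, a2.1, a2.2, a3.1, a3.2, h3.1, h3.2, h4.1, h4.2]

/-- shift of a block by one -/
lemma GG_shift {D x L : ℝ} {n : ℕ} (hD : 1 ≤ D) (hx : 0 ≤ x) (h2 : x + n + 1 + D ≤ L) :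
    |(GG (x + 1 + n) D - GG (x + 1) D) - (GG (x + n) D - GG x D)| ≤ Real.log L := by
  have hD0 : 0 < D := by linarith
  have hn : (0 : ℝ) ≤ n := Nat.cast_nonneg n
  have a1 := GG_sub_le (s := x + n) (t := x + 1 + n) (y := D) (by linarith) (by linarith) hD0
  have a2 := le_GG_sub (s := x + n) (t := x + 1 + n) (y := D) (by linarith) (by linarith) hD0
  have a3 := GG_sub_le (s := x) (t := x + 1) (y := D) (by linarith) (by linarith) hD0
  have a4 := le_GG_sub (s := x) (t := x + 1) (y := D) (by linarith) (by linarith) hD0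
  have e1 : x + 1 + n - (x + n) = 1 := by ring
  have e2 : x + 1 - x = 1 := by ring
  rw [e1, one_mul] at a1 a2
  rw [e2, one_mul] at a3 a4
  have g0 : ∀ s : ℝ, 0 ≤ gg s D := by
    intro s
    refine le_trans ?_ (gg_zero_le hD0 s)
    unfold gg
    have : (1 : ℝ) ≤ 0 ^ 2 + D ^ 2 := by nlinarith
    exact div_nonneg (Real.log_nonneg this) (by norm_num)
  have b1 := gg_le (s := x + 1 + n) (y := D) (L := L) (by linarith) hD0 (by linarith)
  have b2 := gg_le (s := x + 1) (y := D) (L := L) (by linarith) hD0 (by linarith)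
  have c1 := g0 (x + n)
  have c2 := g0 x
  rw [abs_le]
  constructor <;> linarith

/-- U3 -/
theorem u3 : U3 := by
  refine ⟨100, by norm_num, fun A T w y hA hT hw => ?_⟩
  have hA' : (1 : ℝ) ≤ A := by exact_mod_cast hA
  have hT' : (1 : ℝ) ≤ T := by exact_mod_cast hT
  have hw0 : (0 : ℝ) ≤ w := Nat.cast_nonneg w
  have hw' : (w : ℝ) ≤ T := by exact_mod_cast hw
  have hy0 := abs_nonneg y
  set D := √(1 + y ^ 2) with hDdef
  have sD : D ^ 2 = 1 + y ^ 2 := Real.sq_sqrt (by positivity)
  have hD1 : 1 ≤ D := by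
    rw [hDdef]
    apply Real.one_le_sqrt.mpr
    nlinarith [sq_nonneg y]
  have hDy : abs (D - |y|) ≤ 1 := by
    rw [abs_le]
    constructor
    · have : |y| ≤ D := by
        rw [hDdef]
        apply Real.le_sqrt_of_sq_le
        rw [sq_abs]; linarith
      linarith
    · have : D ≤ |y| + 1 := by
        rw [hDdef, Real.sqrt_le_left (by linarith)]
        rw [← sq_abs y]
        nlinarith
      linarith
  have hDy' : D ≤ |y| + 1 := by
    rw [abs_le] at hDy
    linarith [hDy.2]
  set X : ℝ := A + T + 2 + |y| with hX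
  have hX4 : 4 ≤ X := by rw [hX]; linarith
  have hX2 : 4 * X ≤ X ^ 2 := by nlinarith
  have m1 := sum_cells' (x := -(T : ℝ)) (n := w) (L := X ^ 2) hD1 hy0 hDy
    (by rw [abs_neg, abs_of_nonneg (by linarith)]; linarith)
    (by rw [abs_of_nonpos (by linarith)]; linarith)
  have m2 := sum_cells' (x := 2 * A + T + 1) (n := w) (L := X ^ 2) hD1 hy0 hDy
    (by rw [abs_of_nonneg (by linarith)]; linarith)
    (by rw [abs_of_nonneg (by linarith)]; linarith)
  have m3 := GG_shift (D := D) (x := 2 * A + T) (n := w) (L := X ^ 2) hD1 (by linarith)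
    (by linarith)
  have k1 := GG_y_lip (2 * A + T + 1 + w) hy0 (show (0 : ℝ) ≤ D by linarith)
  have k2 := GG_y_lip (2 * A + T + 1) hy0 (show (0 : ℝ) ≤ D by linarith)
  have k3 := GG_y_lip (2 * A + T + w) hy0 (show (0 : ℝ) ≤ D by linarith)
  have k4 := GG_y_lip (2 * A + T) hy0 (show (0 : ℝ) ≤ D by linarith)
  have k5 : π / 2 * abs (D - |y|) ≤ π / 2 * 1 := mul_le_mul_of_nonneg_left hDy (by positivity)
  have hsum : ∑ t' ∈ range w, KK (pos (A + 1) T (Sum.inr y)) (pos (A + 1) T (Sum.inl t')) =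
      ∑ i ∈ range w, gg (-(T : ℝ) + i + 1 / 2) D +
      ∑ i ∈ range w, gg (2 * A + T + 1 + i + 1 / 2) D := by
    rw [← Finset.sum_add_distrib]
    refine Finset.sum_congr rfl fun l _ => ?_
    unfold KK
    congr 1
    · apply half_log
      rw [sD, ← Complex.normSq_eq_norm_sq, Complex.normSq_apply]
      simp only [pos, tt, Complex.sub_re, Complex.add_re, Complex.natCast_re, Complex.one_re,
        Complex.sub_im, Complex.add_im, Complex.natCast_im, Complex.mul_re, Complex.mul_im,
        Complex.ofReal_re, Complex.ofReal_im, Complex.I_re, Complex.I_im, Complex.neg_re,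
        Complex.neg_im, Nat.cast_add, Nat.cast_one, Complex.one_im]
      norm_num
      ring
    · apply half_log
      rw [sD, ← Complex.normSq_eq_norm_sq, Complex.normSq_apply]
      simp only [pos, tt, Complex.sub_re, Complex.add_re, Complex.natCast_re, Complex.one_re,
        Complex.sub_im, Complex.add_im, Complex.natCast_im, Complex.mul_re, Complex.mul_im,
        Complex.ofReal_re, Complex.ofReal_im, Complex.I_re, Complex.I_im, Complex.neg_re,
        Complex.neg_im, Nat.cast_add, Nat.cast_one, Complex.one_im]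
      norm_num
      ring
  have e1 : GG (-(T : ℝ) + w) |y| = -GG (T - w) |y| := by
    rw [show -(T : ℝ) + w = -(T - w) by ring, GG_neg]
  have e2 : GG (-(T : ℝ)) |y| = -GG T |y| := GG_neg _ _
  rw [e1, e2] at m1
  rw [hsum]
  unfold BL
  have hlX : Real.log (X ^ 2) = 2 * Real.log X := by rw [Real.log_pow]; norm_num
  rw [hlX] at m1 m2 m3
  have hl4 : 1 ≤ Real.log X := by
    have h2 : Real.log 4 ≤ Real.log X := Real.log_le_log (by norm_num) hX4
    have h4 : Real.log 4 = 2 * Real.log 2 := by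
      rw [show (4 : ℝ) = 2 ^ 2 by norm_num, Real.log_pow]; norm_num
    linarith [Real.log_two_gt_d9]
  have hpi := Real.pi_lt_four
  have hpi0 := Real.pi_pos
  rw [abs_le] at m1 m2 m3 k1 k2 k3 k4 ⊢
  constructor <;> linarith [m1.1, m1.2, m2.1, m2.2, m3.1, m3.2, k1.1, k1.2, k2.1, k2.2, k3.1,
    k3.2, k4.1, k4.2]

end EM

end Z579
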