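import Pool.Agent.Lib.Z579.E6Defs
import Pool.Agent.Lib.Z579.Num2

/-!
# W2: the weight on the line
-/

open Real Finset Filter Topology

namespace Z579

namespace EM

open Arch Z579.Num

lemma pos_inr_eq (A T : ℕ) (y : ℝ) :
    pos (A + 1) T (Sum.inr y) = ((A + 1 + T : ℕ) : ℂ) + tt y := by
  unfold pos
  push_cast
  ring

/-- lower bound for the product of the factors -/
lemma prod_pc_ge {A T : ℕ} (hT : 2 ≤ T) {y : ℝ} (hy : y ≠ 0) :
    exp (GG (T + 2 * A) |y| - GG T |y|) ≤
      ‖∏ w ∈ pc (A + 1), (((A + 1 + T : ℕ) : ℂ) + tt y + (w : ℂ))‖ := by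
  have hy' : 0 < |y| := abs_pos.mpr hy
  rw [norm_prod_pc (by omega) (by omega) hy]
  apply exp_le_exp.mpr
  have e1 : A + 1 + T - (A + 1) = T := by omega
  have e2 : A + 1 + (A + 1 + T) - 1 = 2 * A + 1 + T := by omega
  rw [e1, e2]
  have h1 := le_sum_gg (M := T) (N := 2 * A + 1 + T) (by omega) (by omega) hy'
  have hT' : (2 : ℝ) ≤ T := by exact_mod_cast hT
  have hA' : (0 : ℝ) ≤ A := Nat.cast_nonneg A
  have h2 := le_GG_sub (s := (T : ℝ) + 2 * A) (t := ((2 * A + 1 + T : ℕ) : ℝ) - 1 / 2)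
    (by linarith) (by push_cast; linarith) hy'
  have h3 := gg_nonneg (s := (T : ℝ) + 2 * A) (by linarith) hy'
  have h4 := le_GG_sub (s := (T : ℝ) - 1 / 2) (t := (T : ℝ)) (by linarith) (by linarith) hy'
  have h5 := gg_nonneg (s := (T : ℝ) - 1 / 2) (by linarith) hy'
  have h6 : 0 ≤ (((2 * A + 1 + T : ℕ) : ℝ) - 1 / 2 - ((T : ℝ) + 2 * A)) * gg ((T : ℝ) + 2 * A) |y| := by
    apply mul_nonneg _ h3
    push_cast
    linarith
  have h7 : 0 ≤ ((T : ℝ) - ((T : ℝ) - 1 / 2)) * gg ((T : ℝ) - 1 / 2) |y| := by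
    apply mul_nonneg _ h5
    linarith
  linarith

lemma norm_v_le (A T : ℕ) (y : ℝ) :
    ‖((A + 1 + T : ℕ) : ℂ) + tt y‖ ≤ A + T + 2 + |y| := by
  have h : ((A + 1 + T : ℕ) : ℂ) + tt y = (((A : ℝ) + T + 1 / 2 : ℝ) : ℂ) + (y : ℂ) * Complex.I := by
    unfold tt
    push_cast
    ring
  rw [h]
  refine (norm_add_le _ _).trans ?_
  rw [norm_mul, Complex.norm_I, mul_one, Complex.norm_real, Complex.norm_real, Real.norm_eq_abs,
    Real.norm_eq_abs, abs_of_nonneg (by positivity : (0 : ℝ) ≤ (A : ℝ) + T + 1 / 2)]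
  linarith

lemma wgt_line_bound (r q : ℕ) (KR : ℝ) (n : ℕ) (hn : 2 * |KR| ≤ 2 ^ n) {A T : ℕ} (m : ℕ)
    (hT : 2 ≤ T) {y : ℝ} (hy : y ≠ 0) :
    wgt r q 0 (A + 1) (A + 1) T m KR (Sum.inr y) ≤
    Real.exp (-(q * (GG (T + 2 * A) |y| - GG T |y|)) - 2 * Real.pi * |y| +
      ((n + 3 : ℕ) : ℝ) * Real.log (A + T + 2 + |y|)) := by
  have hA' : (0 : ℝ) ≤ A := Nat.cast_nonneg A
  have hT' : (2 : ℝ) ≤ T := by exact_mod_cast hT
  have hy0 := abs_nonneg y
  set X : ℝ := A + T + 2 + |y| with hX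
  have hX2 : 2 ≤ X := by rw [hX]; linarith
  have hX0 : 0 < X := by linarith
  have h1 := prod_pc_ge (A := A) hT hy
  have h2 := norm_v_le A T y
  rw [← hX] at h2
  set Pn := ‖∏ w ∈ pc (A + 1), (((A + 1 + T : ℕ) : ℂ) + tt y + (w : ℂ))‖ with hPn
  set G := GG (T + 2 * A) |y| - GG T |y| with hG
  have hRc : ‖Rc q 0 (A + 1) (A + 1) (pos (A + 1) T (Sum.inr y))‖ ≤ 2 * X * exp (-(q * G)) := by
    rw [pos_inr_eq]
    unfold Rc
    rw [pow_zero, mul_one, norm_div, norm_mul, norm_pow, ← hPn]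
    have e1 : ‖(2 : ℂ)‖ = 2 := by simp
    rw [e1]
    have e2 : exp (-(q * G)) = (exp G ^ q)⁻¹ := by
      rw [exp_neg, ← exp_nat_mul]
    rw [e2, div_eq_mul_inv]
    apply mul_le_mul
    · exact mul_le_mul_of_nonneg_left h2 (by norm_num)
    · apply inv_anti₀ (by positivity)
      exact pow_le_pow_left₀ (exp_pos _).le h1 q
    · positivity
    · positivity
  have hlog : exp (((n + 3 : ℕ) : ℝ) * Real.log X) = X ^ (n + 3) := by
    rw [exp_nat_mul, exp_log hX0]
  have hpow : (2 : ℝ) ^ n ≤ X ^ n := pow_le_pow_left₀ (by norm_num) hX2 n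
  have hy2 : 1 + y ^ 2 ≤ X ^ 2 := by
    rw [← sq_abs y]
    nlinarith
  unfold wgt
  calc KR * (1 + y ^ 2) * ‖Rc q 0 (A + 1) (A + 1) (pos (A + 1) T (Sum.inr y))‖ *
        exp (-(2 * π * |y|))
      ≤ |KR| * X ^ 2 * (2 * X * exp (-(q * G))) * exp (-(2 * π * |y|)) := by
        apply mul_le_mul_of_nonneg_right _ (exp_pos _).le
        apply mul_le_mul _ hRc (norm_nonneg _) (by positivity)
        apply mul_le_mul (le_abs_self KR) hy2 (by positivity) (abs_nonneg _)
    _ = (2 * |KR|) * X ^ 3 * (exp (-(q * G)) * exp (-(2 * π * |y|))) := by ring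
    _ ≤ X ^ n * X ^ 3 * (exp (-(q * G)) * exp (-(2 * π * |y|))) := by
        apply mul_le_mul_of_nonneg_right _ (by positivity)
        exact mul_le_mul_of_nonneg_right (hn.trans hpow) (by positivity)
    _ = exp (-(q * G) - 2 * π * |y| + ((n + 3 : ℕ) : ℝ) * Real.log X) := by
        rw [exp_add, hlog, sub_eq_add_neg, exp_add, pow_add]
        ring

lemma continuous_GG_abs (x : ℝ) : Continuous (fun y : ℝ => GG x |y|) := by
  have h := continuous_GG_y x
  rw [continuousOn_iff_continuous_domRestrict] at h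
  exact h.comp (continuous_abs.subtype_mk (fun y => abs_nonneg y))

/-- W2 -/
theorem w2 : W2 := by
  intro r q KR
  obtain ⟨n, hn⟩ := pow_unbounded_of_one_lt (2 * |KR|) (one_lt_two)
  refine ⟨((n + 3 : ℕ) : ℝ), Nat.cast_nonneg _, fun A T m y hA hT => ?_⟩
  rcases eq_or_ne y 0 with hy | hy
  swap
  · exact wgt_line_bound r q KR n hn.le m hT hy
  subst hy
  -- continuity at `0`
  have hf : Tendsto (fun y : ℝ => wgt r q 0 (A + 1) (A + 1) T m KR (Sum.inr y)) (𝓝[≠] 0)
      (𝓝 (wgt r q 0 (A + 1) (A + 1) T m KR (Sum.inr 0))) := by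
    apply tendsto_nhdsWithin_of_tendsto_nhds
    have hv : Continuous (fun y : ℝ => pos (A + 1) T (Sum.inr y)) := by
      unfold pos tt
      fun_prop
    have hR : ContinuousAt (fun y : ℝ => Rc q 0 (A + 1) (A + 1) (pos (A + 1) T (Sum.inr y))) 0 := by
      unfold Rc
      apply ContinuousAt.div
      · simp only [pow_zero, mul_one]
        exact (continuous_const.mul hv).continuousAt
      · refine ContinuousAt.pow ?_ q
        exact (continuous_finsetProd _ fun w _ => hv.add continuous_const).continuousAt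
      · refine pow_ne_zero q ?_
        rw [Finset.prod_ne_zero_iff]
        intro w hw
        unfold pc at hw
        rw [Finset.mem_Icc] at hw
        rw [pos_inr_eq]
        intro h
        have h2 := congrArg Complex.re h
        simp only [tt, Complex.add_re, Complex.natCast_re, Complex.intCast_re, Complex.zero_re,
          Complex.neg_re, Complex.mul_re, Complex.ofReal_re, Complex.ofReal_im, Complex.I_re,
          Complex.I_im] at h2
        have hw1 : (1 - ((A + 1 : ℕ) : ℤ) : ℝ) ≤ w := by exact_mod_cast hw.1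
        push_cast at hw1 h2
        have hT' : (2 : ℝ) ≤ T := by exact_mod_cast hT
        norm_num at h2
        linarith
    have h1 : ContinuousAt (fun y : ℝ => wgt r q 0 (A + 1) (A + 1) T m KR (Sum.inr y)) 0 := by
      unfold wgt
      apply ContinuousAt.mul
      · apply ContinuousAt.mul
        · fun_prop
        · exact hR.norm
      · fun_prop
    exact h1
  have hg : Tendsto (fun y : ℝ => Real.exp (-(q * (GG (T + 2 * A) |y| - GG T |y|)) -
      2 * Real.pi * |y| + ((n + 3 : ℕ) : ℝ) * Real.log (A + T + 2 + |y|))) (𝓝[≠] 0)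
      (𝓝 (Real.exp (-(q * (GG (T + 2 * A) |(0 : ℝ)| - GG T |(0 : ℝ)|)) - 2 * Real.pi * |(0 : ℝ)| +
      ((n + 3 : ℕ) : ℝ) * Real.log (A + T + 2 + |(0 : ℝ)|)))) := by
    apply tendsto_nhdsWithin_of_tendsto_nhds
    have h1 : ContinuousAt (fun y : ℝ => Real.exp (-(q * (GG (T + 2 * A) |y| - GG T |y|)) -
        2 * Real.pi * |y| + ((n + 3 : ℕ) : ℝ) * Real.log (A + T + 2 + |y|))) 0 := by
      apply ContinuousAt.rexp
      apply ContinuousAt.add
      · apply ContinuousAt.sub
        · exact ((continuous_const.mul ((continuous_GG_abs _).sub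
            (continuous_GG_abs _))).neg).continuousAt
        · fun_prop
      · apply ContinuousAt.mul continuousAt_const
        apply ContinuousAt.log
        · fun_prop
        · have hT' : (2 : ℝ) ≤ T := by exact_mod_cast hT
          have hA' : (0 : ℝ) ≤ A := Nat.cast_nonneg A
          rw [abs_zero]
          linarith
    exact h1
  refine le_of_tendsto_of_tendsto hf hg ?_
  filter_upwards [self_mem_nhdsWithin] with y hy
  exact wgt_line_bound r q KR n hn.le m hT hy

end EM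

end Z579
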