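import Pool.Agent.Lib.Z579.E6Defs
import Pool.Agent.Lib.Z579.ArchKer

/-!
# E6c: the archimedean bound from the block potentials and the numerical certificate
-/

open Finset

namespace Z579

namespace EM

open Arch

/-! ## homogeneity -/

lemma GG_scale' {k : ℝ} (hk : 0 < k) (x y : ℝ) :
    GG (k * x) (k * y) = k * (GG x y + x * Real.log k) := by
  unfold GG
  have h1 : (k * x) ^ 2 + (k * y) ^ 2 = k ^ 2 * (x ^ 2 + y ^ 2) := by ring
  rcases eq_or_ne (x ^ 2 + y ^ 2) 0 with h2 | h2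
  · have hx : x = 0 := by nlinarith [sq_nonneg x, sq_nonneg y]
    subst hx
    simp
  · rw [h1, Real.log_mul (by positivity) h2, Real.log_pow, mul_div_mul_left _ _ hk.ne']
    push_cast
    ring

lemma GG_scale0 {k : ℝ} (hk : 0 < k) (x : ℝ) :
    GG (k * x) 0 = k * (GG x 0 + x * Real.log k) := by
  have := GG_scale' hk x 0
  rwa [mul_zero] at this

lemma BS_scale {k : ℝ} (hk : 0 < k) (A w s : ℝ) :
    BS (k * A) (k * w) (k * s) = k * BS A w s + 2 * w * (k * Real.log k) := by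
  unfold BS
  have e1 : k * w - k * s = k * (w - s) := by ring
  have e2 : 2 * (k * A) + k * s + k * w = k * (2 * A + s + w) := by ring
  have e3 : 2 * (k * A) + k * s = k * (2 * A + s) := by ring
  rw [e1, e2, e3, GG_scale0 hk, GG_scale0 hk, GG_scale0 hk, GG_scale0 hk]
  ring

lemma BSl_scale {k : ℝ} (hk : 0 < k) (A T E s : ℝ) :
    BSl (k * A) (k * T) (k * E) (k * s) = k * BSl A T E s + 4 * E * (k * Real.log k) := by
  unfold BSl
  have e1 : k * T - k * s = k * (T - s) := by ring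
  have e2 : 2 * (k * A) + k * T + k * s = k * (2 * A + T + s) := by ring
  rw [e1, e2, GG_scale' hk, GG_scale' hk]
  ring

lemma BL_scale {k : ℝ} (hk : 0 < k) (A T w y : ℝ) :
    BL (k * A) (k * T) (k * w) (k * y) = k * BL A T w y + 2 * w * (k * Real.log k) := by
  unfold BL
  have e1 : k * T - k * w = k * (T - w) := by ring
  have e2 : 2 * (k * A) + k * T + k * w = k * (2 * A + T + w) := by ring
  have e3 : 2 * (k * A) + k * T = k * (2 * A + T) := by ring
  rw [e1, e2, e3, GG_scale' hk, GG_scale' hk, GG_scale' hk, GG_scale' hk]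
  ring

lemma BLl_scale {k : ℝ} (hk : 0 < k) (A T E y : ℝ) :
    BLl (k * A) (k * T) (k * E) (k * y) = k * BLl A T E y + 4 * E * (k * Real.log k) := by
  unfold BLl
  have e1 : k * y + k * E = k * (y + E) := by ring
  have e2 : k * y - k * E = k * (y - E) := by ring
  have e3 : 2 * (k * A) + 2 * (k * T) = k * (2 * A + 2 * T) := by ring
  rw [e1, e2, e3, GG_scale0 hk, GG_scale0 hk, GG_scale' hk, GG_scale' hk]
  ring

/-! ## logarithms -/

lemma log_two_le_log {k : ℕ} (hk : 1 ≤ k) : Real.log 2 ≤ Real.log (k + 1) := by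
  have : (1 : ℝ) ≤ k := by exact_mod_cast hk
  exact Real.log_le_log (by norm_num) (by linarith)

lemma half_le_log {k : ℕ} (hk : 1 ≤ k) : 1 / 2 ≤ Real.log ((k : ℝ) + 1) := by
  have := log_two_le_log hk
  linarith [Real.log_two_gt_d9]

/-- logarithms of linear forms -/
lemma log_lin_le {X Y : ℝ} {k : ℕ} (hk : 1 ≤ k) {y : ℝ} (hy : 0 ≤ y) (hX : 0 ≤ X) (hY : 1 ≤ Y) :
    Real.log (X * k + Y + y) ≤ (2 * Real.log (X + Y) + 1) * Real.log (k + 1 + y) := by
  have hk1 : (1 : ℝ) ≤ k := by exact_mod_cast hk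
  have h0 : 0 ≤ Real.log (X + Y) := Real.log_nonneg (by linarith)
  have h1 : X * k + Y + y ≤ (X + Y) * (k + 1 + y) := by nlinarith
  have h2 : Real.log (X * k + Y + y) ≤ Real.log ((X + Y) * (k + 1 + y)) :=
    Real.log_le_log (by positivity) h1
  rw [Real.log_mul (by positivity) (by positivity)] at h2
  have h3 : 1 / 2 ≤ Real.log (k + 1 + y) :=
    (half_le_log hk).trans (Real.log_le_log (by positivity) (by linarith))
  nlinarith

/-! ## the reference configuration -/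

variable (P : Par)

/-- index set of the reference configuration -/
noncomputable def refS (k : ℕ) : Finset (ℕ ⊕ ℤ) :=
  (range (P.tau * k)).disjSum (Ico (-((P.eps * k : ℕ) : ℤ)) ((P.eps * k : ℕ) : ℤ))

/-- positions of the reference configuration -/
noncomputable def refX (k : ℕ) : ℕ ⊕ ℤ → ℂ
  | Sum.inl t => pos (P.al * k + 1) (P.tau * k) (Sum.inl t)
  | Sum.inr l => pos (P.al * k + 1) (P.tau * k) (Sum.inr ((l : ℝ) + 1 / 2))

/-- weights of the reference configuration -/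
noncomputable def refC (k : ℕ) : ℕ ⊕ ℤ → ℝ
  | Sum.inl t => P.c2 + if t < P.t1 * k then P.c1 else 0
  | Sum.inr _ => P.d

variable {P}

lemma sum_ref (hP : P.Ok) (k : ℕ) (f : ℕ ⊕ ℤ → ℝ) :
    ∑ x ∈ refS P k, refC P k x * f x =
      P.c1 * ∑ t ∈ range (P.t1 * k), f (Sum.inl t) + P.c2 * ∑ t ∈ range (P.tau * k), f (Sum.inl t) +
      P.d * ∑ l ∈ Ico (-((P.eps * k : ℕ) : ℤ)) ((P.eps * k : ℕ) : ℤ), f (Sum.inr l) := by
  unfold refS
  rw [Finset.sum_disjSum]
  have h1 : ∑ t ∈ range (P.tau * k), refC P k (Sum.inl t) * f (Sum.inl t) =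
      P.c1 * ∑ t ∈ range (P.t1 * k), f (Sum.inl t) +
        P.c2 * ∑ t ∈ range (P.tau * k), f (Sum.inl t) := by
    have h2 : ∀ t, refC P k (Sum.inl t) * f (Sum.inl t) =
        (if t < P.t1 * k then P.c1 * f (Sum.inl t) else 0) + P.c2 * f (Sum.inl t) := by
      intro t
      have h3 : refC P k (Sum.inl t) = P.c2 + if t < P.t1 * k then P.c1 else 0 := rfl
      rw [h3]
      by_cases h : t < P.t1 * k
      · rw [if_pos h, if_pos h]; ring
      · rw [if_neg h, if_neg h]; ring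
    simp_rw [h2]
    rw [Finset.sum_add_distrib, ← Finset.sum_filter, Finset.mul_sum, Finset.mul_sum]
    congr 1
    refine Finset.sum_congr ?_ fun _ _ => rfl
    ext t
    simp only [mem_filter, mem_range]
    have := Nat.mul_le_mul_right k hP.t1t
    omega
  rw [h1, Finset.mul_sum (f := fun l => f (Sum.inr l))]
  rfl

lemma mass_ref (hP : P.Ok) (k : ℕ) : ∑ x ∈ refS P k, refC P k x = ((P.mu * k : ℕ) : ℝ) := by
  have h := sum_ref hP k (fun _ => 1)
  simp only [mul_one, sum_const, card_range, Int.card_Ico, nsmul_eq_mul] at h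
  rw [h]
  have h1 : (((P.eps * k : ℕ) : ℤ) - -((P.eps * k : ℕ) : ℤ)).toNat = 2 * (P.eps * k) := by omega
  rw [h1]
  push_cast
  have := hP.mass
  linear_combination (k : ℝ) * this

/-! ## potentials of the reference configuration -/

lemma abs_comb {a b c x y z x' y' z' ex ey ez : ℝ} (ha : 0 ≤ a) (hb : 0 ≤ b) (hc : 0 ≤ c)
    (h1 : |x - x'| ≤ ex) (h2 : |y - y'| ≤ ey) (h3 : |z - z'| ≤ ez) :
    |(a * x + b * y + c * z) - (a * x' + b * y' + c * z')| ≤ a * ex + b * ey + c * ez := by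
  rw [abs_le] at *
  constructor
  · nlinarith [mul_le_mul_of_nonneg_left h1.1 ha, mul_le_mul_of_nonneg_left h2.1 hb,
      mul_le_mul_of_nonneg_left h3.1 hc]
  · nlinarith [mul_le_mul_of_nonneg_left h1.2 ha, mul_le_mul_of_nonneg_left h2.2 hb,
      mul_le_mul_of_nonneg_left h3.2 hc]

/-- potential of the reference configuration at the sites -/
theorem pot_site (hU1 : U1) (hU2 : U2) (hP : P.Ok) : ∃ C : ℝ, 0 ≤ C ∧ ∀ k t : ℕ, 1 ≤ k →
    t < P.tau * k →
    |(∑ x ∈ refS P k, refC P k x * KK (pos (P.al * k + 1) (P.tau * k) (Sum.inl t)) (refX P k x)) -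
      (k * US P (t / k) + 2 * P.mu * (k * Real.log k))| ≤ C * Real.log (k + 1) := by
  obtain ⟨C1, hC1, h1⟩ := hU1
  obtain ⟨C2, hC2, h2⟩ := hU2
  refine ⟨(P.c1 * C1 + P.c2 * C1 + P.d * C2) *
    (2 * Real.log ((P.al + P.tau + P.eps) + 2) + 1), ?_, ?_⟩
  · have h5 := hP.c1n
    have h6 := hP.c2n
    have h7 := hP.dn
    have h3 : 0 ≤ Real.log ((P.al + P.tau + P.eps : ℝ) + 2) :=
      Real.log_nonneg (by
        have : (0 : ℝ) ≤ P.al + P.tau + P.eps := by positivity
        linarith)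
    positivity
  intro k t hk ht
  have hk0 : (0 : ℝ) < k := by exact_mod_cast hk
  have hA : 1 ≤ P.al * k := Nat.one_le_iff_ne_zero.2 (by
    have := hP.al1
    positivity)
  have hT : 1 ≤ P.tau * k := Nat.one_le_iff_ne_zero.2 (by
    have := hP.tau2
    have : P.tau ≠ 0 := by omega
    have : k ≠ 0 := by omega
    positivity)
  have hw : P.t1 * k ≤ P.tau * k := Nat.mul_le_mul_right k hP.t1t
  rw [sum_ref hP]
  have g1 := h1 (P.al * k) (P.tau * k) (P.t1 * k) t hA hT hw ht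
  have g2 := h1 (P.al * k) (P.tau * k) (P.tau * k) t hA hT le_rfl ht
  have g3 := h2 (P.al * k) (P.tau * k) (P.eps * k) t hA hT ht
  have hts : (t : ℝ) = k * (t / k) := by field_simp
  have e1 : BS ((P.al * k : ℕ) : ℝ) ((P.t1 * k : ℕ) : ℝ) t =
      k * BS P.al P.t1 (t / k) + 2 * P.t1 * (k * Real.log k) := by
    rw [← BS_scale hk0, ← hts]
    push_cast
    rw [mul_comm (P.al : ℝ), mul_comm (P.t1 : ℝ)]
  have e2 : BS ((P.al * k : ℕ) : ℝ) ((P.tau * k : ℕ) : ℝ) t =
      k * BS P.al P.tau (t / k) + 2 * P.tau * (k * Real.log k) := by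
    rw [← BS_scale hk0, ← hts]
    push_cast
    rw [mul_comm (P.al : ℝ), mul_comm (P.tau : ℝ)]
  have e3 : BSl ((P.al * k : ℕ) : ℝ) ((P.tau * k : ℕ) : ℝ) ((P.eps * k : ℕ) : ℝ) t =
      k * BSl P.al P.tau P.eps (t / k) + 4 * P.eps * (k * Real.log k) := by
    rw [← BSl_scale hk0, ← hts]
    push_cast
    rw [mul_comm (P.al : ℝ), mul_comm (P.tau : ℝ), mul_comm (P.eps : ℝ)]
  rw [e1] at g1
  rw [e2] at g2
  rw [e3] at g3
  have key := abs_comb hP.c1n hP.c2n hP.dn g1 g2 g3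
  have e4 : (P.c1 * (k * BS P.al P.t1 (t / k) + 2 * P.t1 * (k * Real.log k)) +
      P.c2 * (k * BS P.al P.tau (t / k) + 2 * P.tau * (k * Real.log k)) +
      P.d * (k * BSl P.al P.tau P.eps (t / k) + 4 * P.eps * (k * Real.log k))) =
      k * US P (t / k) + 2 * P.mu * (k * Real.log k) := by
    unfold US
    have := hP.mass
    linear_combination (2 * (k * Real.log k)) * this
  rw [e4] at key
  refine key.trans ?_
  have l1 : Real.log (((P.al * k : ℕ) : ℝ) + ((P.tau * k : ℕ) : ℝ) + 2) ≤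
      (2 * Real.log ((P.al + P.tau + P.eps) + 2) + 1) * Real.log (k + 1) := by
    have := log_lin_le (X := P.al + P.tau + P.eps) (Y := 2) hk (y := 0) le_rfl (by positivity)
      (by norm_num)
    rw [add_zero, add_zero] at this
    refine le_trans (Real.log_le_log (by positivity) ?_) this
    push_cast
    have : (0 : ℝ) ≤ P.eps * k := by positivity
    nlinarith
  have l2 : Real.log (((P.al * k : ℕ) : ℝ) + ((P.tau * k : ℕ) : ℝ) + ((P.eps * k : ℕ) : ℝ) + 2) ≤
      (2 * Real.log ((P.al + P.tau + P.eps) + 2) + 1) * Real.log (k + 1) := by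
    have := log_lin_le (X := P.al + P.tau + P.eps) (Y := 2) hk (y := 0) le_rfl (by positivity)
      (by norm_num)
    rw [add_zero, add_zero] at this
    refine le_trans (Real.log_le_log (by positivity) ?_) this
    push_cast
    nlinarith
  have t1 := mul_le_mul_of_nonneg_left l1 (mul_nonneg hP.c1n hC1)
  have t2 := mul_le_mul_of_nonneg_left l1 (mul_nonneg hP.c2n hC1)
  have t3 := mul_le_mul_of_nonneg_left l2 (mul_nonneg hP.dn hC2)
  calc _ = P.c1 * C1 * Real.log (((P.al * k : ℕ) : ℝ) + ((P.tau * k : ℕ) : ℝ) + 2) +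
        P.c2 * C1 * Real.log (((P.al * k : ℕ) : ℝ) + ((P.tau * k : ℕ) : ℝ) + 2) +
        P.d * C2 * Real.log (((P.al * k : ℕ) : ℝ) + ((P.tau * k : ℕ) : ℝ) +
          ((P.eps * k : ℕ) : ℝ) + 2) := by ring
    _ ≤ _ := by linarith

/-- potential of the reference configuration on the line -/
theorem pot_line (hU3 : U3) (hU4 : U4) (hP : P.Ok) : ∃ C : ℝ, 0 ≤ C ∧ ∀ (k : ℕ) (y : ℝ), 1 ≤ k →
    |(∑ x ∈ refS P k, refC P k x * KK (pos (P.al * k + 1) (P.tau * k) (Sum.inr y)) (refX P k x)) -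
      (k * UL P (|y| / k) + 2 * P.mu * (k * Real.log k))| ≤ C * Real.log (k + 1 + |y|) := by
  obtain ⟨C1, hC1, h1⟩ := hU3
  obtain ⟨C2, hC2, h2⟩ := hU4
  refine ⟨(P.c1 * C1 + P.c2 * C1 + P.d * C2) *
    (2 * Real.log ((P.al + P.tau + P.eps) + 2) + 1), ?_, ?_⟩
  · have h5 := hP.c1n
    have h6 := hP.c2n
    have h7 := hP.dn
    have h3 : 0 ≤ Real.log ((P.al + P.tau + P.eps : ℝ) + 2) :=
      Real.log_nonneg (by
        have : (0 : ℝ) ≤ P.al + P.tau + P.eps := by positivity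
        linarith)
    positivity
  intro k y hk
  have hk0 : (0 : ℝ) < k := by exact_mod_cast hk
  have hy0 := abs_nonneg y
  have hA : 1 ≤ P.al * k := Nat.one_le_iff_ne_zero.2 (by
    have := hP.al1
    positivity)
  have hT : 1 ≤ P.tau * k := Nat.one_le_iff_ne_zero.2 (by
    have := hP.tau2
    have : P.tau ≠ 0 := by omega
    have : k ≠ 0 := by omega
    positivity)
  have hw : P.t1 * k ≤ P.tau * k := Nat.mul_le_mul_right k hP.t1t
  rw [sum_ref hP]
  have g1 := h1 (P.al * k) (P.tau * k) (P.t1 * k) y hA hT hw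
  have g2 := h1 (P.al * k) (P.tau * k) (P.tau * k) y hA hT le_rfl
  have g3 := h2 (P.al * k) (P.tau * k) (P.eps * k) y hA hT
  have hts : |y| = k * (|y| / k) := by field_simp
  have e1 : BL ((P.al * k : ℕ) : ℝ) ((P.tau * k : ℕ) : ℝ) ((P.t1 * k : ℕ) : ℝ) |y| =
      k * BL P.al P.tau P.t1 (|y| / k) + 2 * P.t1 * (k * Real.log k) := by
    rw [← BL_scale hk0, ← hts]
    push_cast
    rw [mul_comm (P.al : ℝ), mul_comm (P.t1 : ℝ), mul_comm (P.tau : ℝ)]
  have e2 : BL ((P.al * k : ℕ) : ℝ) ((P.tau * k : ℕ) : ℝ) ((P.tau * k : ℕ) : ℝ) |y| =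
      k * BL P.al P.tau P.tau (|y| / k) + 2 * P.tau * (k * Real.log k) := by
    rw [← BL_scale hk0, ← hts]
    push_cast
    rw [mul_comm (P.al : ℝ), mul_comm (P.tau : ℝ)]
  have e3 : BLl ((P.al * k : ℕ) : ℝ) ((P.tau * k : ℕ) : ℝ) ((P.eps * k : ℕ) : ℝ) |y| =
      k * BLl P.al P.tau P.eps (|y| / k) + 4 * P.eps * (k * Real.log k) := by
    rw [← BLl_scale hk0, ← hts]
    push_cast
    rw [mul_comm (P.al : ℝ), mul_comm (P.tau : ℝ), mul_comm (P.eps : ℝ)]
  rw [e1] at g1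
  rw [e2] at g2
  rw [e3] at g3
  have key := abs_comb hP.c1n hP.c2n hP.dn g1 g2 g3
  have e4 : (P.c1 * (k * BL P.al P.tau P.t1 (|y| / k) + 2 * P.t1 * (k * Real.log k)) +
      P.c2 * (k * BL P.al P.tau P.tau (|y| / k) + 2 * P.tau * (k * Real.log k)) +
      P.d * (k * BLl P.al P.tau P.eps (|y| / k) + 4 * P.eps * (k * Real.log k))) =
      k * UL P (|y| / k) + 2 * P.mu * (k * Real.log k) := by
    unfold UL
    have := hP.mass
    linear_combination (2 * (k * Real.log k)) * this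
  rw [e4] at key
  refine key.trans ?_
  have l0 := log_lin_le (X := P.al + P.tau + P.eps) (Y := 2) hk hy0 (by positivity)
    (by norm_num)
  have l1 : Real.log (((P.al * k : ℕ) : ℝ) + ((P.tau * k : ℕ) : ℝ) + 2 + |y|) ≤
      (2 * Real.log ((P.al + P.tau + P.eps) + 2) + 1) * Real.log (k + 1 + |y|) := by
    refine le_trans (Real.log_le_log (by positivity) ?_) l0
    push_cast
    have : (0 : ℝ) ≤ P.eps * k := by positivity
    nlinarith
  have l2 : Real.log (((P.al * k : ℕ) : ℝ) + ((P.tau * k : ℕ) : ℝ) + ((P.eps * k : ℕ) : ℝ) + 2 +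
      |y|) ≤ (2 * Real.log ((P.al + P.tau + P.eps) + 2) + 1) * Real.log (k + 1 + |y|) := by
    refine le_trans (Real.log_le_log (by positivity) ?_) l0
    push_cast
    nlinarith
  have t1 := mul_le_mul_of_nonneg_left l1 (mul_nonneg hP.c1n hC1)
  have t2 := mul_le_mul_of_nonneg_left l1 (mul_nonneg hP.c2n hC1)
  have t3 := mul_le_mul_of_nonneg_left l2 (mul_nonneg hP.dn hC2)
  calc _ = P.c1 * C1 * Real.log (((P.al * k : ℕ) : ℝ) + ((P.tau * k : ℕ) : ℝ) + 2 + |y|) +
        P.c2 * C1 * Real.log (((P.al * k : ℕ) : ℝ) + ((P.tau * k : ℕ) : ℝ) + 2 + |y|) +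
        P.d * C2 * Real.log (((P.al * k : ℕ) : ℝ) + ((P.tau * k : ℕ) : ℝ) +
          ((P.eps * k : ℕ) : ℝ) + 2 + |y|) := by ring
    _ ≤ _ := by linarith

end EM

end Z579
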