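import Pool.Agent.Lib.Z579.Main

namespace Z579

theorem irrational_of_m1 (h1 : M1) :
    Irrational (∑' n : ℕ, 1 / ((n : ℝ) + 1) ^ 5) ∨ Irrational (∑' n : ℕ, 1 / ((n : ℝ) + 1) ^ 7) ∨
      Irrational (∑' n : ℕ, 1 / ((n : ℝ) + 1) ^ 9) := by
  by_contra hcon
  push Not at hcon
  obtain ⟨h5, h7, h9⟩ := hcon
  unfold Irrational at h5 h7 h9
  push Not at h5 h7 h9
  obtain ⟨x5, hx5⟩ := h5
  obtain ⟨x7, hx7⟩ := h7
  obtain ⟨x9, hx9⟩ := h9
  refine no_z h1 (fun s => if s = 5 then x5 else if s = 7 then x7 else if s = 9 then x9 else 0) ?_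
  intro s
  by_cases h : Odd s ∧ 2 + 3 ≤ s ∧ s ≤ 2 + 8 - 1
  · rw [if_pos h]
    obtain ⟨⟨k, hk⟩, h1, h2⟩ := h
    have : s = 5 ∨ s = 7 ∨ s = 9 := by omega
    rcases this with rfl | rfl | rfl
    · simpa [zr] using hx5
    · simpa [zr] using hx7
    · simpa [zr] using hx9
  · rw [if_neg h]
    have h5' : s ≠ 5 := by rintro rfl; exact h ⟨by decide, by norm_num, by norm_num⟩
    have h7' : s ≠ 7 := by rintro rfl; exact h ⟨by decide, by norm_num, by norm_num⟩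
    have h9' : s ≠ 9 := by rintro rfl; exact h ⟨by decide, by norm_num, by norm_num⟩
    simp [h5', h7', h9']

end Z579
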