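import Pool.Agent.Lib.Z579.LH

namespace Z579

theorem lhank_2_8_3_7 : lhank 2 8 3 7 ≠ 0 := by
  refine lhank_ne_zero_of (l := 2) (by norm_num) (by decide) (by decide)
    (Matrix.of ![![1, 1, 1, 1, 0, 1, 1], ![1, 0, 1, 1, 0, 1, 1], ![1, 1, 0, 0, 0, 0, 0], ![1, 1, 0, 1, 1, 0, 1], ![0, 0, 0, 1, 1, 0, 0], ![1, 1, 0, 0, 0, 1, 1], ![1, 1, 0, 1, 0, 1, 1]]) ?_
  decide +kernel

end Z579
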