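import Pool.Agent.Lib.Z579.LH

/-!
# Nonvanishing of the local determinants used without outer zeros in the two-pole classes
-/

namespace Z579

set_option maxRecDepth 100000

/-- certificate with an explicit list of the moments modulo `l` -/
lemma lhank_ne_zero_of_list {r q B N l : ℕ} (hl : 1 < l) (hq : Even q) (hq0 : q ≠ 0)
    (L : List ℤ) (W : Matrix (Fin N) (Fin N) ℤ)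
    (h1 : ∀ n : Fin (2 * N), (lmc r q B n - L.getD n 0) % (l : ℤ) = 0)
    (h2 : ∀ i j : Fin N, (∑ k : Fin N, L.getD ((i : ℕ) + k) 0 * W k j -
      (if i = j then 1 else 0)) % (l : ℤ) = 0) :
    lhank r q B N ≠ 0 := by
  refine lhank_ne_zero_of hl hq hq0 W fun i j => ?_
  have h3 : ∀ i k : Fin N, (l : ℤ) ∣ lhc r q B N i k - L.getD ((i : ℕ) + k) 0 := by
    intro i k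
    have := h1 ⟨(i : ℕ) + k, by omega⟩
    exact Int.dvd_of_emod_eq_zero this
  have h4 := Int.dvd_of_emod_eq_zero (h2 i j)
  apply Int.emod_eq_zero_of_dvd
  have h5 : (∑ k, lhc r q B N i k * W k j - (if i = j then 1 else 0)) =
      ∑ k : Fin N, (lhc r q B N i k - L.getD ((i : ℕ) + k) 0) * W k j +
      (∑ k : Fin N, L.getD ((i : ℕ) + k) 0 * W k j - (if i = j then 1 else 0)) := by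
    rw [← add_sub_assoc, ← Finset.sum_add_distrib]
    congr 1
    refine Finset.sum_congr rfl fun k _ => ?_
    ring
  rw [h5]
  refine dvd_add (Finset.dvd_sum fun k _ => Dvd.dvd.mul_right (h3 i k) _) h4

theorem lhank_4_10_0_10 : lhank 4 10 0 10 ≠ 0 := by
  refine lhank_ne_zero_of_list (l := 2) (by norm_num) (by decide) (by decide)
    [0, 0, 0, 0, 0, 0, 0, 0, 0, 1, 1, 0, 1, 0, 1, 0, 0, 0, 0, 0]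
    (Matrix.of ![![0, 1, 0, 0, 1, 1, 0, 1, 1, 1], ![1, 0, 0, 1, 1, 0, 1, 1, 1, 0], ![0, 0, 1, 1, 0, 1, 1, 1, 0, 0], ![0, 1, 1, 0, 1, 1, 1, 0, 0, 0], ![1, 1, 0, 1, 1, 1, 0, 0, 0, 0], ![1, 0, 1, 1, 1, 0, 0, 0, 0, 0], ![0, 1, 1, 1, 0, 0, 0, 0, 0, 0], ![1, 1, 1, 0, 0, 0, 0, 0, 0, 0], ![1, 1, 0, 0, 0, 0, 0, 0, 0, 0], ![1, 0, 0, 0, 0, 0, 0, 0, 0, 0]]) ?_ ?_
  · decide +kernel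
  · decide +kernel

theorem lhank_4_12_0_14 : lhank 4 12 0 14 ≠ 0 := by
  refine lhank_ne_zero_of_list (l := 2) (by norm_num) (by decide) (by decide)
    [0, 1, 1, 1, 1, 1, 1, 1, 1, 1, 1, 1, 1, 0, 0, 0, 1, 0, 0, 0, 0, 0, 0, 0, 0, 0, 0, 0]
    (Matrix.of ![![0, 1, 0, 0, 0, 1, 1, 1, 1, 0, 1, 0, 1, 1], ![1, 1, 0, 0, 1, 0, 0, 0, 1, 1, 1, 1, 0, 1], ![0, 0, 1, 0, 0, 0, 1, 1, 1, 1, 0, 1, 0, 1], ![0, 0, 0, 0, 0, 0, 0, 0, 0, 0, 0, 0, 0, 1], ![0, 1, 0, 0, 0, 1, 1, 1, 1, 0, 1, 0, 0, 1], ![1, 0, 0, 0, 1, 1, 1, 1, 0, 1, 0, 0, 1, 0], ![1, 0, 1, 0, 1, 1, 0, 0, 1, 0, 1, 0, 1, 1], ![1, 0, 1, 0, 1, 1, 0, 0, 1, 1, 0, 0, 1, 0], ![1, 1, 1, 0, 1, 0, 1, 1, 1, 0, 1, 0, 1, 1], ![0, 1, 1, 0, 0, 1, 0, 1, 0, 1, 1, 0, 0, 1], ![1, 1, 0, 0, 1, 0, 1,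 0, 1, 1, 0, 0, 1, 0], ![0, 1, 1, 0, 0, 0, 0, 0, 0, 0, 0, 0, 0, 0], ![1, 0, 0, 0, 0, 1, 1, 1, 1, 0, 1, 0, 1, 1], ![1, 1, 1, 1, 1, 0, 1, 0, 1, 1, 0, 0, 1, 0]]) ?_ ?_
  · decide +kernel
  · decide +kernel

theorem lhank_6_16_0_18 : lhank 6 16 0 18 ≠ 0 := by
  refine lhank_ne_zero_of_list (l := 2) (by norm_num) (by decide) (by decide)
    [0, 0, 0, 0, 0, 0, 0, 1, 0, 0, 0, 0, 0, 0, 1, 1, 0, 0, 0, 0, 0, 0, 1, 0, 0, 0, 0, 0, 0, 0, 0, 0, 0, 0, 0, 0]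
    (Matrix.of ![![0, 1, 0, 0, 0, 0, 0, 0, 1, 1, 0, 0, 0, 0, 0, 1, 1, 1], ![1, 1, 0, 0, 0, 0, 0, 1, 0, 1, 0, 0, 0, 0, 1, 0, 0, 1], ![0, 0, 0, 1, 1, 0, 0, 0, 0, 0, 1, 0, 1, 0, 0, 0, 0, 1], ![0, 0, 1, 1, 0, 0, 0, 0, 0, 1, 0, 1, 0, 0, 0, 0, 1, 0], ![0, 0, 1, 0, 0, 0, 0, 0, 0, 1, 1, 0, 0, 0, 0, 0, 1, 1], ![0, 0, 0, 0, 0, 0, 0, 0, 0, 0, 0, 0, 0, 0, 0, 0, 0, 1], ![0, 0, 0, 0, 0, 0, 0, 0, 0, 0, 0, 0, 0, 0, 0, 0, 1, 0], ![0, 1, 0, 0, 0, 0, 0, 0, 1, 1, 0, 0, 0, 0, 0, 0, 1, 1], ![1, 0, 0, 0, 0, 0, 0, 1, 1, 0, 0, 0, 0, 0, 0, 1, 1, 0], ![1, 1, 0, 1, 1, 0, 0, 1, 0, 1, 1, 0, 1, 1, 1, 0, 0, 0], ![0, 0, 1, 0, 1, 0, 0, 0, 0, 1, 1, 1, 0, 0, 0, 0, 1, 1], ![0, 0, 0, 1, 0, 0, 0, 0, 0, 0, 1, 0, 0, 0, 0, 0, 0, 1], ![0, 0, 1, 0, 0, 0, 0, 0, 0,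 1, 0, 0, 0, 0, 0, 0, 1, 0], ![0, 0, 0, 0, 0, 0, 0, 0, 0, 1, 0, 0, 0, 0, 0, 0, 1, 1], ![0, 1, 0, 0, 0, 0, 0, 0, 0, 1, 0, 0, 0, 0, 0, 0, 0, 1], ![1, 0, 0, 0, 0, 0, 0, 0, 1, 0, 0, 0, 0, 0, 0, 0, 1, 0], ![1, 0, 0, 1, 1, 0, 1, 1, 1, 0, 1, 0, 1, 1, 0, 1, 1, 1], ![1, 1, 1, 0, 1, 1, 0, 1, 0, 0, 1, 1, 0, 1, 1, 0, 1, 0]]) ?_ ?_
  · decide +kernel
  · decide +kernel

theorem lhank_6_18_0_18 : lhank 6 18 0 18 ≠ 0 := by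
  refine lhank_ne_zero_of_list (l := 2) (by norm_num) (by decide) (by decide)
    [0, 0, 0, 0, 0, 0, 0, 0, 0, 0, 0, 1, 0, 1, 0, 1, 0, 1, 1, 0, 1, 0, 1, 0, 1, 0, 0, 0, 0, 0, 0, 0, 0, 0, 0, 0]
    (Matrix.of ![![1, 1, 0, 0, 0, 0, 0, 0, 1, 1, 0, 0, 0, 0, 0, 0, 1, 1], ![1, 1, 0, 1, 1, 0, 1, 1, 1, 1, 1, 0, 1, 1, 0, 1, 1, 0], ![0, 0, 1, 0, 1, 1, 0, 1, 0, 1, 1, 1, 0, 1, 1, 1, 1, 1], ![0, 1, 0, 1, 1, 0, 1, 0, 1, 1, 1, 0, 1, 1, 1, 1, 1, 0], ![0, 1, 1, 1, 0, 1, 0, 1, 0, 0, 0, 1, 1, 1, 1, 1, 1, 1], ![0, 0, 1, 0, 1, 0, 1, 0, 1, 1, 1, 1, 1, 1, 1, 1, 0, 1], ![0, 1, 0, 1, 0, 1, 0, 1, 1, 1, 1, 1, 1, 1, 1, 0, 1, 0], ![0, 1, 1, 0, 1, 0, 1, 1, 0, 0, 1, 1, 1, 1, 0, 1, 1, 1], ![1, 1, 0, 1, 0, 1, 1, 0, 0, 1, 1, 1, 1, 0, 1, 1, 1, 0], ![1, 1,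 1, 1, 0, 1, 1, 0, 1, 0, 0, 1, 1, 0, 1, 1, 0, 0], ![0, 1, 1, 1, 0, 1, 1, 1, 1, 0, 0, 1, 1, 0, 1, 0, 1, 1], ![0, 0, 1, 0, 1, 1, 1, 1, 1, 1, 1, 1, 0, 1, 0, 1, 0, 1], ![0, 1, 0, 1, 1, 1, 1, 1, 1, 1, 1, 0, 1, 0, 1, 0, 1, 0], ![0, 1, 1, 1, 1, 1, 1, 1, 0, 0, 0, 1, 0, 1, 0, 1, 1, 1], ![0, 0, 1, 1, 1, 1, 1, 0, 1, 1, 1, 0, 1, 0, 1, 1, 0, 1], ![0, 1, 1, 1, 1, 1, 0, 1, 1, 1, 0, 1, 0, 1, 1, 0, 1, 0], ![1, 1, 1, 1, 1, 0, 1, 1, 1, 0, 1, 0, 1, 1, 0, 1, 0, 0], ![1, 0, 1, 0, 1, 1, 0, 1, 0, 0, 1, 1, 0, 1, 1, 0, 0, 0]]) ?_ ?_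
  · decide +kernel
  · decide +kernel

end Z579
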