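import Pool.Agent.Lib.Z579.PF

/-!
# Integrals over vertical lines
-/

open MeasureTheory Filter Topology

namespace Z579

/-- the linear factor `α + i y` -/
noncomputable def cf (α y : ℝ) : ℂ := (α : ℂ) + (y : ℂ) * Complex.I

lemma norm_cf_sq (α y : ℝ) : ‖cf α y‖ ^ 2 = α ^ 2 + y ^ 2 := by
  rw [cf, Complex.sq_norm, Complex.normSq_add_mul_I]

lemma cf_ne {α : ℝ} (hα : α ≠ 0) (y : ℝ) : cf α y ≠ 0 := by
  intro h
  have h1 := norm_cf_sq α y
  rw [h] at h1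
  have h2 : 0 < α ^ 2 := by positivity
  have h3 : 0 ≤ y ^ 2 := sq_nonneg y
  simp at h1
  linarith

lemma abs_le_norm_cf (α y : ℝ) : |y| ≤ ‖cf α y‖ := by
  have h1 := norm_cf_sq α y
  have h2 : |y| ^ 2 ≤ ‖cf α y‖ ^ 2 := by
    rw [h1, sq_abs]
    have := sq_nonneg α
    linarith
  exact abs_le_of_sq_le_sq' h2 (norm_nonneg _) |>.2

lemma abs_le_norm_cf' (α y : ℝ) : |α| ≤ ‖cf α y‖ := by
  have h1 := norm_cf_sq α y
  have h2 : |α| ^ 2 ≤ ‖cf α y‖ ^ 2 := by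
    rw [h1, sq_abs]
    have := sq_nonneg y
    linarith
  exact abs_le_of_sq_le_sq' h2 (norm_nonneg _) |>.2

lemma continuous_cf (α : ℝ) : Continuous (cf α) := by
  unfold cf
  fun_prop

lemma continuous_cf_inv {α : ℝ} (hα : α ≠ 0) : Continuous fun y => (cf α y)⁻¹ :=
  (continuous_cf α).inv₀ (cf_ne hα)

lemma norm_cf_inv_sq_le {α K : ℝ} (hK : 1 ≤ K) (hKα : 1 ≤ K * |α|) (y : ℝ) :
    ‖(cf α y)⁻¹‖ ≤ K * (Real.sqrt (1 + y ^ 2))⁻¹ := by
  have hα : α ≠ 0 := by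
    rintro rfl
    simp at hKα
    linarith
  have hpos : 0 < ‖cf α y‖ := norm_pos_iff.2 (cf_ne hα y)
  have hs : 0 < Real.sqrt (1 + y ^ 2) := Real.sqrt_pos.2 (by positivity)
  rw [norm_inv, inv_le_comm₀ hpos (by positivity), mul_inv, inv_inv]
  rw [← div_eq_inv_mul, div_le_iff₀ (by linarith)]
  rw [Real.sqrt_le_left (by positivity), mul_pow, norm_cf_sq]
  have h1 : 1 ≤ K ^ 2 := by nlinarith
  have h2 : 1 ≤ K ^ 2 * α ^ 2 := by
    have : 1 ≤ (K * |α|) ^ 2 := by nlinarith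
    rwa [mul_pow, sq_abs] at this
  have h3 : 0 ≤ y ^ 2 := sq_nonneg y
  nlinarith

lemma sqrt_inv_le_one (y : ℝ) : (Real.sqrt (1 + y ^ 2))⁻¹ ≤ 1 := by
  apply inv_le_one_of_one_le₀
  rw [Real.one_le_sqrt]
  have := sq_nonneg y
  linarith

lemma sqrt_inv_sq (y : ℝ) : ((Real.sqrt (1 + y ^ 2))⁻¹) ^ 2 = (1 + y ^ 2)⁻¹ := by
  rw [inv_pow, Real.sq_sqrt (by positivity)]

lemma integrable_cf {α β : ℝ} (hα : α ≠ 0) (hβ : β ≠ 0) {i j : ℕ} (hij : 2 ≤ i + j) :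
    Integrable fun y => ((cf α y)⁻¹) ^ i * ((cf β y)⁻¹) ^ j := by
  set K : ℝ := max 1 (max |α|⁻¹ |β|⁻¹) with hKdef
  have hK : 1 ≤ K := le_max_left _ _
  have hKα : 1 ≤ K * |α| := by
    have h1 : |α|⁻¹ ≤ K := (le_max_left _ _).trans (le_max_right _ _)
    have h2 : 0 < |α| := abs_pos.2 hα
    calc (1 : ℝ) = |α|⁻¹ * |α| := by field_simp
      _ ≤ K * |α| := by gcongr
  have hKβ : 1 ≤ K * |β| := by
    have h1 : |β|⁻¹ ≤ K := (le_max_right _ _).trans (le_max_right _ _)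
    have h2 : 0 < |β| := abs_pos.2 hβ
    calc (1 : ℝ) = |β|⁻¹ * |β| := by field_simp
      _ ≤ K * |β| := by gcongr
  have hint : Integrable fun y : ℝ => K ^ (i + j) * (1 + y ^ 2)⁻¹ :=
    integrable_inv_one_add_sq.const_mul _
  refine hint.mono' ?_ (Eventually.of_forall fun y => ?_)
  · exact (((continuous_cf_inv hα).pow i).mul ((continuous_cf_inv hβ).pow j)).aestronglyMeasurable
  · rw [norm_mul, norm_pow, norm_pow]
    have h1 := norm_cf_inv_sq_le hK hKα y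
    have h2 := norm_cf_inv_sq_le hK hKβ y
    set s : ℝ := (Real.sqrt (1 + y ^ 2))⁻¹ with hs
    have hs0 : 0 ≤ s := by positivity
    have hs1 : s ≤ 1 := sqrt_inv_le_one y
    calc ‖(cf α y)⁻¹‖ ^ i * ‖(cf β y)⁻¹‖ ^ j ≤ (K * s) ^ i * (K * s) ^ j := by gcongr
      _ = K ^ (i + j) * s ^ (i + j) := by rw [← pow_add, mul_pow]
      _ ≤ K ^ (i + j) * s ^ 2 := by
          have := pow_le_pow_of_le_one hs0 hs1 hij
          gcongr
      _ = K ^ (i + j) * (1 + y ^ 2)⁻¹ := by rw [hs, sqrt_inv_sq]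

/-- the integrals -/
noncomputable def J (i j : ℕ) (α β : ℝ) : ℂ := ∫ y : ℝ, ((cf α y)⁻¹) ^ i * ((cf β y)⁻¹) ^ j

lemma hasDerivAt_cf (α y : ℝ) : HasDerivAt (cf α) Complex.I y := by
  unfold cf
  have h1 : HasDerivAt (fun y : ℝ => (y : ℂ)) 1 y := Complex.ofRealCLM.hasDerivAt
  simpa using (h1.mul_const Complex.I).const_add (α : ℂ)

lemma tendsto_norm_cf_atTop (α : ℝ) : Tendsto (fun y => ‖cf α y‖) atTop atTop :=
  tendsto_atTop_mono (abs_le_norm_cf α) tendsto_abs_atTop_atTop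

lemma tendsto_norm_cf_atBot (α : ℝ) : Tendsto (fun y => ‖cf α y‖) atBot atTop :=
  tendsto_atTop_mono (abs_le_norm_cf α) tendsto_abs_atBot_atTop

lemma tendsto_cf_inv {l : Filter ℝ} {α : ℝ} (h : Tendsto (fun y => ‖cf α y‖) l atTop) :
    Tendsto (fun y => (cf α y)⁻¹) l (𝓝 0) := by
  rw [tendsto_zero_iff_norm_tendsto_zero]
  simp only [norm_inv]
  exact tendsto_inv_atTop_zero.comp h

lemma integral_cf_pow {α : ℝ} (hα : α ≠ 0) {i : ℕ} (hi : 2 ≤ i) :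
    ∫ y : ℝ, ((cf α y)⁻¹) ^ i = 0 := by
  obtain ⟨m, rfl⟩ := Nat.exists_eq_add_of_le' hi
  have hderiv : ∀ y : ℝ, HasDerivAt (fun y => (Complex.I / ((m : ℂ) + 1)) * ((cf α y)⁻¹) ^ (m + 1))
      (((cf α y)⁻¹) ^ (m + 2)) y := by
    intro y
    have h1 := (((hasDerivAt_cf α y).inv (cf_ne hα y)).pow (m + 1)).const_mul
      (Complex.I / ((m : ℂ) + 1))
    refine h1.congr_deriv ?_
    have h2 : ((m : ℂ) + 1) ≠ 0 := by exact_mod_cast Nat.succ_ne_zero m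
    have h3 := cf_ne hα y
    have h4 : -Complex.I / cf α y ^ 2 = -Complex.I * ((cf α y)⁻¹) ^ 2 := by
      rw [div_eq_mul_inv, inv_pow]
    have h5 : Complex.I / ((m : ℂ) + 1) * ((m : ℂ) + 1) = Complex.I := div_mul_cancel₀ _ h2
    simp only [Nat.add_sub_cancel, Pi.inv_apply]
    rw [h4]
    push_cast
    linear_combination (((cf α y)⁻¹) ^ m * (-Complex.I * ((cf α y)⁻¹) ^ 2)) * h5 -
      ((cf α y)⁻¹) ^ (m + 2) * Complex.I_mul_I
  have hint : Integrable fun y => ((cf α y)⁻¹) ^ (m + 2) := by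
    have := integrable_cf hα hα (i := m + 2) (j := 0) (by omega)
    simpa using this
  have ht : ∀ {l : Filter ℝ}, Tendsto (fun y => ‖cf α y‖) l atTop →
      Tendsto (fun y => (Complex.I / ((m : ℂ) + 1)) * ((cf α y)⁻¹) ^ (m + 1)) l (𝓝 0) := by
    intro l hl
    have := ((tendsto_cf_inv hl).pow (m + 1)).const_mul (Complex.I / ((m : ℂ) + 1))
    simpa using this
  rw [integral_of_hasDerivAt_of_tendsto hderiv hint (ht (tendsto_norm_cf_atBot α))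
    (ht (tendsto_norm_cf_atTop α)), sub_zero]

lemma J_zero_right {α β : ℝ} (hα : α ≠ 0) {i : ℕ} (hi : 2 ≤ i) : J i 0 α β = 0 := by
  rw [J]; simpa using integral_cf_pow hα hi

lemma J_zero_left {α β : ℝ} (hβ : β ≠ 0) {j : ℕ} (hj : 2 ≤ j) : J 0 j α β = 0 := by
  rw [J]; simpa using integral_cf_pow hβ hj

lemma integral_poisson {α : ℝ} (hα : α ≠ 0) :
    ∫ y : ℝ, α / (α ^ 2 + y ^ 2) = (|α| / α) * Real.pi := by
  have h1 : ∀ y : ℝ, α / (α ^ 2 + y ^ 2) = α⁻¹ * (1 + (y / α) ^ 2)⁻¹ := by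
    intro y
    have : α ^ 2 + y ^ 2 ≠ 0 := by positivity
    have h2 : 1 + (y / α) ^ 2 ≠ 0 := by positivity
    field_simp
  simp only [h1]
  rw [integral_const_mul, Measure.integral_comp_div (fun y => (1 + y ^ 2)⁻¹) α,
    integral_univ_inv_one_add_sq, smul_eq_mul]
  ring

lemma integrable_poisson {α : ℝ} (hα : α ≠ 0) :
    Integrable fun y : ℝ => α / (α ^ 2 + y ^ 2) := by
  have h1 : ∀ y : ℝ, α / (α ^ 2 + y ^ 2) = α⁻¹ * (1 + (y / α) ^ 2)⁻¹ := by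
    intro y
    have : α ^ 2 + y ^ 2 ≠ 0 := by positivity
    have h2 : 1 + (y / α) ^ 2 ≠ 0 := by positivity
    field_simp
  simp only [h1]
  exact (integrable_inv_one_add_sq.comp_div hα).const_mul _

lemma cf_inv_sub {α β : ℝ} (hα : α ≠ 0) (hβ : β ≠ 0) (hαβ : α ≠ β) (y : ℝ) :
    (cf α y)⁻¹ * (cf β y)⁻¹ = ((β : ℂ) - α)⁻¹ * ((cf α y)⁻¹ - (cf β y)⁻¹) := by
  have h1 := cf_ne hα y
  have h2 := cf_ne hβ y
  have h3 : ((β : ℂ) - α) ≠ 0 := by
    rw [sub_ne_zero]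
    exact_mod_cast hαβ.symm
  have h4 : (β : ℂ) - α = cf β y - cf α y := by simp [cf]
  rw [h4] at h3 ⊢
  field_simp

lemma cf_inv_add_neg {α : ℝ} (hα : α ≠ 0) (y : ℝ) :
    (cf α y)⁻¹ + (cf α (-y))⁻¹ = ((2 * (α / (α ^ 2 + y ^ 2)) : ℝ) : ℂ) := by
  have h1 := cf_ne hα y
  have h2 := cf_ne hα (-y)
  have h3 : cf α y * cf α (-y) = ((α ^ 2 + y ^ 2 : ℝ) : ℂ) := by
    simp only [cf]
    push_cast
    ring_nf
    simp [Complex.I_sq]
  have h4 : cf α y + cf α (-y) = ((2 * α : ℝ) : ℂ) := by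
    simp only [cf]
    push_cast
    ring
  have h5 : ((α ^ 2 + y ^ 2 : ℝ) : ℂ) ≠ 0 := by
    rw [← h3]; exact mul_ne_zero h1 h2
  have h6 : (cf α y)⁻¹ + (cf α (-y))⁻¹ = (cf α y + cf α (-y)) / (cf α y * cf α (-y)) := by
    field_simp
    ring
  rw [h6, h3, h4]
  push_cast
  ring

lemma J_one_one {α β : ℝ} (hα : α ≠ 0) (hβ : β ≠ 0) (hαβ : α ≠ β) :
    J 1 1 α β = ((β : ℂ) - α)⁻¹ * (((|α| / α - |β| / β) * Real.pi : ℝ) : ℂ) := by
  have hint : Integrable fun y => ((cf α y)⁻¹) ^ 1 * ((cf β y)⁻¹) ^ 1 :=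
    integrable_cf hα hβ (by norm_num)
  have h1 : J 1 1 α β + J 1 1 α β =
      ∫ y : ℝ, (((cf α y)⁻¹) ^ 1 * ((cf β y)⁻¹) ^ 1 +
        ((cf α (-y))⁻¹) ^ 1 * ((cf β (-y))⁻¹) ^ 1) := by
    rw [integral_add hint hint.comp_neg]
    congr 1
    rw [J, integral_neg_eq_self (fun y => ((cf α y)⁻¹) ^ 1 * ((cf β y)⁻¹) ^ 1)]
  have h2 : ∀ y : ℝ, ((cf α y)⁻¹) ^ 1 * ((cf β y)⁻¹) ^ 1 +
      ((cf α (-y))⁻¹) ^ 1 * ((cf β (-y))⁻¹) ^ 1 =
      ((β : ℂ) - α)⁻¹ * ((2 * (α / (α ^ 2 + y ^ 2)) - 2 * (β / (β ^ 2 + y ^ 2)) : ℝ) : ℂ) := by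
    intro y
    rw [pow_one, pow_one, pow_one, pow_one, cf_inv_sub hα hβ hαβ, cf_inv_sub hα hβ hαβ]
    rw [Complex.ofReal_sub, ← cf_inv_add_neg hα, ← cf_inv_add_neg hβ]
    ring
  have h3 : ∫ y : ℝ, (2 * (α / (α ^ 2 + y ^ 2)) - 2 * (β / (β ^ 2 + y ^ 2))) =
      2 * ((|α| / α - |β| / β) * Real.pi) := by
    rw [integral_sub ((integrable_poisson hα).const_mul 2) ((integrable_poisson hβ).const_mul 2),
      integral_const_mul, integral_const_mul, integral_poisson hα, integral_poisson hβ]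
    ring
  simp only [h2] at h1
  rw [integral_const_mul, integral_complex_ofReal, h3] at h1
  have h4 : (2 : ℂ) * J 1 1 α β =
      2 * (((β : ℂ) - α)⁻¹ * (((|α| / α - |β| / β) * Real.pi : ℝ) : ℂ)) := by
    rw [two_mul, h1]
    push_cast
    ring
  exact mul_left_cancel₀ two_ne_zero h4

lemma J_rec {α β : ℝ} (hα : α ≠ 0) (hβ : β ≠ 0) (hαβ : α ≠ β) {i j : ℕ} (hij : 1 ≤ i + j) :
    J (i + 1) (j + 1) α β = ((β : ℂ) - α)⁻¹ * (J (i + 1) j α β - J i (j + 1) α β) := by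
  rw [J, J, J, ← integral_sub (integrable_cf hα hβ (by omega)) (integrable_cf hα hβ (by omega)),
    ← integral_const_mul]
  congr 1
  funext y
  rw [pow_succ ((cf α y)⁻¹) i, pow_succ ((cf β y)⁻¹) j]
  have h := cf_inv_sub hα hβ hαβ y
  linear_combination (((cf α y)⁻¹) ^ i * ((cf β y)⁻¹) ^ j) * h

lemma J_pos_pos {α β : ℝ} (hα : 0 < α) (hβ : 0 < β) {i j : ℕ} (hij : 2 ≤ i + j) :
    J i j α β = 0 := by
  by_cases hαβ : α = β
  · subst hαβ
    rw [J]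
    simp only [← pow_add]
    exact integral_cf_pow hα.ne' hij
  obtain ⟨n, hn⟩ : ∃ n, n = i + j := ⟨_, rfl⟩
  induction n using Nat.strong_induction_on generalizing i j with
  | _ n ih =>
    rcases Nat.eq_zero_or_pos i with rfl | hi
    · exact J_zero_left hβ.ne' (by omega)
    rcases Nat.eq_zero_or_pos j with rfl | hj
    · exact J_zero_right hα.ne' (by omega)
    obtain ⟨i, rfl⟩ := Nat.exists_eq_add_of_le' hi
    obtain ⟨j, rfl⟩ := Nat.exists_eq_add_of_le' hj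
    by_cases h11 : i + j = 0
    · obtain ⟨rfl, rfl⟩ : i = 0 ∧ j = 0 := by omega
      rw [J_one_one hα.ne' hβ.ne' hαβ, abs_of_pos hα, abs_of_pos hβ, div_self hα.ne',
        div_self hβ.ne']
      simp
    · rw [J_rec hα.ne' hβ.ne' hαβ (by omega), ih (i + 1 + j) (by omega) (by omega) rfl,
        ih (i + (j + 1)) (by omega) (by omega) rfl]
      simp

lemma J_pos_neg {α β : ℝ} (hα : 0 < α) (hβ : β < 0) (i j : ℕ) :
    J (i + 1) (j + 1) α β =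
      -(2 * Real.pi) * (-1) ^ j * (Nat.choose (i + j) j : ℂ) * (((α : ℂ) - β)⁻¹) ^ (i + j + 1) := by
  have hαβ : α ≠ β := (hβ.trans hα).ne'
  obtain ⟨n, hn⟩ : ∃ n, n = i + j := ⟨_, rfl⟩
  have hneg : ((β : ℂ) - α)⁻¹ = -((α : ℂ) - β)⁻¹ := by
    rw [← neg_sub, inv_neg]
  induction n generalizing i j with
  | zero =>
    obtain ⟨rfl, rfl⟩ : i = 0 ∧ j = 0 := by omega
    rw [J_one_one hα.ne' hβ.ne hαβ, abs_of_pos hα, abs_of_neg hβ, div_self hα.ne', neg_div,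
      div_self hβ.ne, hneg]
    push_cast
    simp
    ring
  | succ n ih =>
    rw [J_rec hα.ne' hβ.ne hαβ (by omega), hneg]
    generalize ((α : ℂ) - β)⁻¹ = D at ih ⊢
    rcases Nat.eq_zero_or_pos i with rfl | hi
    · obtain ⟨j, rfl⟩ : ∃ k, j = k + 1 := ⟨j - 1, by omega⟩
      rw [J_zero_left hβ.ne (by omega), ih 0 j (by omega)]
      simp
      ring
    · obtain ⟨i, rfl⟩ : ∃ k, i = k + 1 := ⟨i - 1, by omega⟩
      rcases Nat.eq_zero_or_pos j with rfl | hj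
      · rw [J_zero_right hα.ne' (by omega), ih i 0 (by omega)]
        simp
        ring
      · obtain ⟨j, rfl⟩ : ∃ k, j = k + 1 := ⟨j - 1, by omega⟩
        rw [ih (i + 1) j (by omega), ih i (j + 1) (by omega)]
        have h1 : Nat.choose (i + 1 + (j + 1)) (j + 1) =
            Nat.choose (i + 1 + j) j + Nat.choose (i + (j + 1)) (j + 1) := by
          have : i + 1 + (j + 1) = (i + 1 + j) + 1 := by ring
          rw [this, Nat.choose_succ_succ]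
          congr 2
          ring
        have e1 : i + (j + 1) + 1 = i + 1 + j + 1 := by ring
        have e2 : i + 1 + (j + 1) + 1 = (i + 1 + j + 1) + 1 := by ring
        rw [h1, e1, e2, pow_succ D (i + 1 + j + 1)]
        push_cast
        ring

end Z579
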