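import Pool.Agent.Lib.Z579.Local2

/-!
# Weights and single-pole classes modulo `p`
-/

open Polynomial Finset

namespace Z579

section
variable {p : ℕ} [hp : Fact p.Prime]

lemma red_inv_pow_nat {k : ℕ} (hk : ¬ p ∣ k) (s : ℕ) :
    ∃ y, red p (1 / ((k : ℚ)) ^ s) y := by
  have h := red_nat (p := p) k
  have hk' : (k : ZMod p) ≠ 0 := by
    rw [Ne, ZMod.natCast_eq_zero_iff]; exact hk
  refine ⟨((k : ZMod p)⁻¹) ^ s, ?_⟩
  rw [one_div, ← inv_pow]
  exact red_pow (red_inv h hk') s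

lemma red_Hs_small {s n : ℕ} (hn : n < p) : ∃ y, red p (Hs s n) y := by
  have h : ∀ k ∈ Finset.range n, ∃ y, red p (1 / ((k : ℚ) + 1) ^ s) y := by
    intro k hk
    rw [Finset.mem_range] at hk
    have := red_inv_pow_nat (p := p) (k := k + 1) (fun hd => by
      have := Nat.le_of_dvd (by omega) hd
      omega) s
    push_cast at this
    exact this
  choose! f hf using h
  exact ⟨∑ k ∈ Finset.range n, f k, red_sum _ _ _ hf⟩

lemma red_Hs_top {s n : ℕ} (hs : s ≠ 0) (hn : p ≤ n) (hn2 : n < 2 * p) :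
    red p ((p : ℚ) ^ s * Hs s n) 1 := by
  have hp0 : (p : ℚ) ≠ 0 := by exact_mod_cast hp.out.ne_zero
  have hp1 := hp.out.one_lt
  have hmem : p - 1 ∈ Finset.range n := by rw [Finset.mem_range]; omega
  rw [Hs, ← Finset.add_sum_erase _ _ hmem, mul_add]
  have h1 : (p : ℚ) ^ s * (1 / (((p - 1 : ℕ) : ℚ) + 1) ^ s) = 1 := by
    have : (((p - 1 : ℕ) : ℚ) + 1) = p := by
      have : p - 1 + 1 = p := by omega
      exact_mod_cast this
    rw [this]
    field_simp
  rw [h1]
  have h : ∀ k ∈ (Finset.range n).erase (p - 1), ∃ y, red p (1 / ((k : ℚ) + 1) ^ s) y := by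
    intro k hk
    rw [Finset.mem_erase, Finset.mem_range] at hk
    have := red_inv_pow_nat (p := p) (k := k + 1) (fun hd => by
      obtain ⟨c, hc⟩ := hd
      have hc1 : c < 2 := by
        by_contra hcc
        push Not at hcc
        have : p * 2 ≤ p * c := Nat.mul_le_mul_left p hcc
        omega
      interval_cases c <;> omega) s
    push_cast at this
    exact this
  choose! f hf using h
  have h2 := red_ppow_mul (red_sum _ _ _ hf) hs
  have := red_add (red_one (p := p)) h2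
  simpa using this

lemma red_wt_low {r a : ℕ} {z : ℕ → ℚ} (hz : ∀ s, VG p 0 (z s)) {u : ℤ}
    (hu1 : u + a - 1 < p) (i : ℕ) : ∃ y, red p (wt r a 1 z u i) y := by
  have hn : (u + a - 1).toNat < p := by
    have := hp.out.pos
    omega
  obtain ⟨y, hy⟩ := red_Hs_small (p := p) (s := i + r) hn
  obtain ⟨y', hy'⟩ := exists_red (hz (i + r))
  refine ⟨y' - y, ?_⟩
  rw [wt]
  simpa using red_sub hy' hy

lemma red_wt_top {r a : ℕ} {z : ℕ → ℚ} (hz : ∀ s, VG p 0 (z s)) {u : ℤ}
    (hu0 : (p : ℤ) ≤ u + a - 1) (hu1 : u + a - 1 < 2 * p) {i : ℕ} (hi : i + r ≠ 0) :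
    red p ((p : ℚ) ^ (i + r) * wt r a 1 z u i) (-1) := by
  have h1 : p ≤ (u + a - 1).toNat := by omega
  have h2 : (u + a - 1).toNat < 2 * p := by omega
  have hH := red_Hs_top (p := p) hi h1 h2
  obtain ⟨y', hy'⟩ := exists_red (hz (i + r))
  have h3 := red_sub (red_ppow_mul hy' hi) hH
  rw [wt]
  have h4 : (p : ℚ) ^ (i + r) * ((1 : ℕ) * (z (i + r) - Hs (i + r) (u + a - 1).toNat)) =
      (p : ℚ) ^ (i + r) * z (i + r) - (p : ℚ) ^ (i + r) * Hs (i + r) (u + a - 1).toNat := by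
    push_cast; ring
  rw [h4]
  simpa using h3

/-- single-pole classes: the partial fraction coefficients are `p`-integral -/
lemma red_Acoef_single {q B a b : ℕ} {u : ℤ} {D : Finset ℤ} {n : ℤ → ℕ}
    (hs : ∀ w ∈ (pc a).erase u, ((w - u : ℤ) : ZMod p) ≠ 0) (i : ℕ) :
    ∃ y, red p (Acoef q B a b u i (PolyN D n)) y := by
  have h1 : Red p (∏ w ∈ (pc a).erase u, lin (w - u)) (∏ w ∈ (pc a).erase u, linp p (w - u)) :=
    Red_prod _ _ _ fun w _ => Red_lin _
  have h2 : Red p (∏ w ∈ (pc a).erase u, lin (w - u))⁻¹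
      (∏ w ∈ (pc a).erase u, linp p (w - u))⁻¹ := by
    refine Red_inv h1 ?_
    rw [map_prod]
    refine Finset.prod_ne_zero_iff.2 fun w hw => ?_
    rw [constantCoeff_linp]
    exact hs w hw
  have h3 := Red_mul (Red_mul (Red_mul Red_two (Red_lin (p := p) (-u)))
    (Red_pow (Red_prod (oc a b) _ _ fun w _ => Red_lin (p := p) (w - u)) B)) (Red_pow h2 q)
  have h4 : Red p (Polynomial.aeval (lin (-u) ^ 2) (PolyN D n))
      (∏ d ∈ D, (linp p (-u - d) * linp p (-u + d)) ^ (n d)) := by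
    rw [PolyN, map_prod]
    refine Red_prod _ _ _ fun d _ => ?_
    rw [map_pow, aeval_lin_sq]
    exact Red_pow (Red_mul (Red_lin _) (Red_lin _)) _
  exact ⟨_, (Red_mul h3 h4) (q - i)⟩

/-- local coefficients modulo `p` -/
noncomputable def alp (p : ℕ) (q B n k : ℕ) [Fact p.Prime] : ZMod p :=
  PowerSeries.coeff k (linp p 0 ^ n * linp p 1 ^ B * ((linp p (-1))⁻¹) ^ q)

/-- local coefficients modulo `p` -/
noncomputable def bep (p : ℕ) (q B n k : ℕ) [Fact p.Prime] : ZMod p :=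
  PowerSeries.coeff k (linp p 1 ^ n * linp p 2 ^ B * ((linp p 1)⁻¹) ^ q)

lemma one_ne : ((1 : ℤ) : ZMod p) ≠ 0 := by simp
lemma neg_one_ne : ((-1 : ℤ) : ZMod p) ≠ 0 := by simp

lemma red_al (q B n k : ℕ) : red p (al q B n k) (alp p q B n k) := by
  have h := Red_mul (Red_mul (Red_pow (Red_lin (p := p) 0) n) (Red_pow (Red_lin (p := p) 1) B))
    (Red_pow (Red_inv (Red_lin (p := p) (-1)) (by rw [constantCoeff_linp]; exact neg_one_ne)) q)
  have h2 := h k
  rw [al, alp]
  have h3 : lin 0 = PowerSeries.X := by simp [lin]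
  rw [h3] at h2
  rw [mul_comm (lin 1 ^ B)]
  exact h2

lemma red_be (q B n k : ℕ) : red p (be q B n k) (bep p q B n k) := by
  have h := Red_mul (Red_mul (Red_pow (Red_lin (p := p) 1) n) (Red_pow (Red_lin (p := p) 2) B))
    (Red_pow (Red_inv (Red_lin (p := p) 1) (by rw [constantCoeff_linp]; exact one_ne)) q)
  have h2 := h k
  rw [be, bep]
  rw [mul_comm (lin 2 ^ B)]
  exact h2

/-- local moments modulo `p` -/
noncomputable def lmp (p : ℕ) (r q B n : ℕ) [Fact p.Prime] : ZMod p :=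
  ∑ i ∈ Finset.Icc 1 q, (Nat.choose (i + r - 1) r : ZMod p) *
    (alp p q B n (q - i) + (-1) ^ (i + 1) * bep p q B n (q - i))

lemma red_lmom (r q B n : ℕ) : red p (lmom r q B n) (lmp p r q B n) := by
  rw [lmom, lmp]
  refine red_sum _ _ _ fun i _ => ?_
  refine red_mul (red_nat _) (red_add (red_al _ _ _ _) (red_mul ?_ (red_be _ _ _ _)))
  have := red_pow (red_neg (red_one (p := p))) (i + 1)
  exact this

lemma red_det {ι : Type*} [Fintype ι] [DecidableEq ι] (A : Matrix ι ι ℚ)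
    (A' : Matrix ι ι (ZMod p)) (h : ∀ i j, red p (A i j) (A' i j)) : red p A.det A'.det := by
  rw [Matrix.det_apply, Matrix.det_apply]
  refine red_sum _ _ _ fun σ _ => ?_
  have h1 : red p (∏ i, A (σ i) i) (∏ i, A' (σ i) i) := red_prod _ _ _ fun i _ => h _ _
  rcases Int.units_eq_one_or (Equiv.Perm.sign σ) with hs | hs
  · rw [hs, one_smul, one_smul]; exact h1
  · rw [hs]
    simpa using red_neg h1

lemma red_lhank (r q B N : ℕ) : red p (lhank r q B N)
    (Matrix.det (Matrix.of fun i j : Fin N => lmp p r q B ((i : ℕ) + (j : ℕ)))) :=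
  red_det _ _ fun _ _ => red_lmom _ _ _ _

end

end Z579
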