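import Pool.Agent.Lib.Z579.M9

/-!
# M10: the archimedean total for `{5,7,9}`
-/

open Filter Topology Finset MeasureTheory

namespace Z579

/-- auxiliary telescoping function -/
noncomputable def g10 (n i : ℕ) : ℝ := (max 0 ((i : ℝ) - 7 / 2 * n)) ^ 2 / ar n

lemma ch_le (n i : ℕ) : ch ((2 * i : ℕ) / ar n) ≤
    -19 / 2 + 3 / 70 * (2 * i / ar n) + 57 / 70 * (g10 n (i + 1) - g10 n i) := by
  have ha := ar_pos n
  have ha' : ar n = 3 * n + 1 := ar_eq n
  have hn0 : (0 : ℝ) ≤ n := Nat.cast_nonneg n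
  have hmono : max 0 ((i : ℝ) - 7 / 2 * n) ≤ max 0 (((i + 1 : ℕ) : ℝ) - 7 / 2 * n) := by
    apply max_le_max le_rfl
    push_cast
    linarith
  have hg : g10 n i ≤ g10 n (i + 1) := by
    unfold g10
    apply div_le_div_of_nonneg_right _ ha.le
    exact pow_le_pow_left₀ (le_max_left _ _) hmono 2
  unfold ch
  have e0 : ((2 * i : ℕ) : ℝ) / ar n = 2 * i / ar n := by push_cast; ring
  rw [e0]
  apply max_le
  · linarith
  · -- second line
    have h1 : 2 * (i : ℝ) / ar n - 7 / 3 ≤ g10 n (i + 1) - g10 n i := by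
      by_cases hi : (i : ℝ) ≤ 7 / 2 * n
      · have : 2 * (i : ℝ) / ar n - 7 / 3 ≤ 0 := by
          rw [sub_nonpos, div_le_iff₀ ha, ha']
          linarith
        linarith
      · push Not at hi
        have m1 : max 0 ((i : ℝ) - 7 / 2 * n) = i - 7 / 2 * n := max_eq_right (by linarith)
        have m2 : max 0 (((i + 1 : ℕ) : ℝ) - 7 / 2 * n) = i + 1 - 7 / 2 * n := by
          push_cast
          exact max_eq_right (by linarith)
        unfold g10
        rw [m1, m2, ← sub_div, le_div_iff₀ ha, sub_mul, div_mul_cancel₀ _ ha.ne', ha']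
        nlinarith
    have h2 : (-47 / 5 + 6 / 7 * (2 * (i : ℝ) / ar n - 7 / 3)) =
        -19 / 2 + 3 / 70 * (2 * i / ar n) + 57 / 70 * (2 * (i : ℝ) / ar n - 7 / 3) := by ring
    rw [h2]
    linarith

lemma sum_ch_le (n : ℕ) : ∑ i ∈ Finset.range (7 * n), ar n * ch ((2 * i : ℕ) / ar n) ≤
    -(133 / 2) * (ar n * n) + 483 / 40 * n ^ 2 := by
  have ha := ar_pos n
  have hn0 : (0 : ℝ) ≤ n := Nat.cast_nonneg n
  rw [← Finset.mul_sum]
  have h1 : ∑ i ∈ Finset.range (7 * n), ch ((2 * i : ℕ) / ar n) ≤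
      ∑ i ∈ Finset.range (7 * n), (-19 / 2 + 3 / 70 * (2 * i / ar n) +
        57 / 70 * (g10 n (i + 1) - g10 n i)) := Finset.sum_le_sum fun i _ => ch_le n i
  have h2 : ∑ i ∈ Finset.range (7 * n), (-19 / 2 + 3 / 70 * (2 * (i : ℝ) / ar n) +
        57 / 70 * (g10 n (i + 1) - g10 n i)) =
      -19 / 2 * (7 * n) + 3 / 70 * (2 / ar n) * (∑ i ∈ Finset.range (7 * n), (i : ℝ)) +
        57 / 70 * (g10 n (7 * n) - g10 n 0) := by
    rw [Finset.sum_add_distrib, Finset.sum_add_distrib, Finset.sum_const, Finset.card_range,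
      nsmul_eq_mul, ← Finset.mul_sum, ← Finset.mul_sum, Finset.sum_range_sub, Finset.mul_sum,
      Finset.mul_sum]
    push_cast
    congr 2
    · ring
    · refine Finset.sum_congr rfl fun i _ => ?_
      ring
  have h3 : ∑ i ∈ Finset.range (7 * n), (i : ℝ) ≤ (7 * n) ^ 2 / 2 := by
    have : ∀ m : ℕ, ∑ i ∈ Finset.range m, (i : ℝ) ≤ (m : ℝ) ^ 2 / 2 := by
      intro m
      induction m with
      | zero => simp
      | succ m ih =>
        rw [Finset.sum_range_succ]
        push_cast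
        nlinarith
    have := this (7 * n)
    push_cast at this
    exact this
  have h4 : g10 n (7 * n) = (7 / 2 * n) ^ 2 / ar n := by
    unfold g10
    have : max 0 (((7 * n : ℕ) : ℝ) - 7 / 2 * n) = 7 / 2 * n := by
      push_cast
      rw [max_eq_right (by linarith)]
      ring
    rw [this]
  have h5 : 0 ≤ g10 n 0 := by unfold g10; positivity
  have h6 : 3 / 70 * (2 / ar n) * (∑ i ∈ Finset.range (7 * n), (i : ℝ)) ≤
      3 / 70 * (2 / ar n) * ((7 * n) ^ 2 / 2) := mul_le_mul_of_nonneg_left h3 (by positivity)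
  have h7 : ∑ i ∈ Finset.range (7 * n), ch ((2 * i : ℕ) / ar n) ≤
      -19 / 2 * (7 * n) + 3 / 70 * (2 / ar n) * ((7 * n) ^ 2 / 2) +
        57 / 70 * ((7 / 2 * n) ^ 2 / ar n) := by
    rw [← h4]
    rw [h2] at h1
    linarith
  calc ar n * ∑ i ∈ Finset.range (7 * n), ch ((2 * i : ℕ) / ar n) ≤
        ar n * (-19 / 2 * (7 * n) + 3 / 70 * (2 / ar n) * ((7 * n) ^ 2 / 2) +
        57 / 70 * ((7 / 2 * n) ^ 2 / ar n)) := mul_le_mul_of_nonneg_left h7 ha.le
    _ = _ := by field_simp; ring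

lemma tendsto_log_div_ar (K : ℝ) (hK : 0 < K) :
    Tendsto (fun n : ℕ => Real.log (K * ar n) / ar n) atTop (𝓝 0) := by
  have h1 := (tendsto_logX_sqrt K hK).mul
    (tendsto_inv_atTop_zero.comp ((Real.tendsto_sqrt_atTop).comp tendsto_ar))
  rw [zero_mul] at h1
  refine h1.congr fun n => ?_
  simp only [Function.comp]
  have hs : 0 < √(ar n) := Real.sqrt_pos.mpr (ar_pos n)
  have hsq : √(ar n) * √(ar n) = ar n := Real.mul_self_sqrt (ar_pos n).le
  rw [div_mul_eq_mul_div, ← div_eq_mul_inv, div_div, hsq]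

/-- M10 -/
theorem m10 : M10 := by
  intro C Q hQ
  have k1 : Tendsto (fun n : ℕ => 7 * Real.log Q * ((n : ℝ) / ar n * (ar n)⁻¹)) atTop
      (𝓝 (7 * Real.log Q * (1 / 3 * 0))) :=
    (tendsto_n_div.mul (tendsto_inv_atTop_zero.comp tendsto_ar)).const_mul _
  have k2 : Tendsto (fun n : ℕ => 3 * (Real.log (3 * ar n) / ar n)) atTop (𝓝 (3 * 0)) :=
    (tendsto_log_div_ar 3 (by norm_num)).const_mul _
  have k3 : Tendsto (fun n : ℕ => 7 * |C| * ((n : ℝ) / ar n * (Real.log (2 * ar n) / ar n))) atTop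
      (𝓝 (7 * |C| * (1 / 3 * 0))) :=
    (tendsto_n_div.mul (tendsto_log_div_ar 2 (by norm_num))).const_mul _
  have k4 := (tendsto_n_div.const_mul (-(133 / 2)))
  have k5 := ((tendsto_n_div.pow 2).const_mul (483 / 40))
  have K := (((k1.add k2).add k3).add k4).add k5
  have hnum : 7 * Real.log Q * (1 / 3 * 0) + 3 * 0 + 7 * |C| * (1 / 3 * 0) +
      -(133 / 2) * (1 / 3) + 483 / 40 * (1 / 3) ^ 2 < -(103 / 5 : ℝ) := by
    simp only [mul_zero, zero_add]; norm_num
  have hev := K.eventually_lt_const hnum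
  rw [eventually_atTop] at hev
  obtain ⟨n₀, hn₀⟩ := hev
  refine ⟨n₀, fun n hn => ?_⟩
  have h := hn₀ n hn
  have ha := ar_pos n
  have ha1 : 1 ≤ ar n := by rw [ar_eq]; linarith [Nat.cast_nonneg (α := ℝ) n]
  have hn0 : (0 : ℝ) ≤ n := Nat.cast_nonneg n
  have hcast : ((3 * n + 1 : ℕ) : ℝ) = ar n := rfl
  have hs := sum_ch_le n
  simp only [hcast]
  have hsum : ∑ i ∈ Finset.range (7 * n), (C * Real.log (ar n + 1) +
      (2 * ((2 * i : ℕ) : ℝ) - 10 * ar n) * Real.log (ar n) +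
      ar n * ch ((2 * i : ℕ) / ar n)) =
      7 * n * (C * Real.log (ar n + 1)) + (2 * (7 * n) * (7 * n - 1) - 10 * ar n * (7 * n)) *
        Real.log (ar n) + ∑ i ∈ Finset.range (7 * n), ar n * ch ((2 * i : ℕ) / ar n) := by
    rw [Finset.sum_add_distrib, Finset.sum_add_distrib, Finset.sum_const, Finset.card_range,
      nsmul_eq_mul, ← Finset.sum_mul]
    congr 1
    congr 1
    · push_cast; ring
    · congr 1
      rw [Finset.sum_sub_distrib, Finset.sum_const, Finset.card_range, nsmul_eq_mul]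
      have : ∀ m : ℕ, ∑ i ∈ Finset.range m, 2 * ((2 * i : ℕ) : ℝ) = 2 * (m : ℝ) * (m - 1) := by
        intro m
        induction m with
        | zero => simp
        | succ m ih =>
          rw [Finset.sum_range_succ, ih]
          push_cast
          ring
      rw [this]
      push_cast
      ring
  rw [hsum]
  have hEn : En n = 10 * ar n * (7 * n) - 2 * (7 * n) ^ 2 := by unfold En; rw [ar_eq]
  rw [← ar_eq]
  have hfac := log_factorial_le (7 * n)
  have hfac2 : Real.log ((7 * n).factorial : ℝ) ≤ 3 * ar n * Real.log (3 * ar n) := by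
    refine hfac.trans ?_
    have e1 : ((7 * n : ℕ) : ℝ) + 1 ≤ 3 * ar n := by rw [ar_eq]; push_cast; linarith
    have e2 : (1 : ℝ) ≤ ((7 * n : ℕ) : ℝ) + 1 := by
      have : (0 : ℝ) ≤ ((7 * n : ℕ) : ℝ) := Nat.cast_nonneg _
      linarith
    have e3 : Real.log (((7 * n : ℕ) : ℝ) + 1) ≤ Real.log (3 * ar n) :=
      Real.log_le_log (by linarith) e1
    have e4 : 0 ≤ Real.log (((7 * n : ℕ) : ℝ) + 1) := Real.log_nonneg e2
    have e5 : 0 ≤ ((7 * n : ℕ) : ℝ) := Nat.cast_nonneg _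
    calc (((7 * n : ℕ) : ℝ) + 1) * Real.log (((7 * n : ℕ) : ℝ) + 1) - ((7 * n : ℕ) : ℝ) ≤
          (((7 * n : ℕ) : ℝ) + 1) * Real.log (((7 * n : ℕ) : ℝ) + 1) := by linarith
      _ ≤ 3 * ar n * Real.log (3 * ar n) := mul_le_mul e1 e3 e4 (by positivity)
  have hlogC : 7 * n * (C * Real.log (ar n + 1)) ≤ 7 * n * (|C| * Real.log (2 * ar n)) := by
    apply mul_le_mul_of_nonneg_left _ (by positivity)
    have e1 : Real.log (ar n + 1) ≤ Real.log (2 * ar n) := Real.log_le_log (by linarith) (by linarith)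
    have e2 : 0 ≤ Real.log (ar n + 1) := Real.log_nonneg (by linarith)
    calc C * Real.log (ar n + 1) ≤ |C| * Real.log (ar n + 1) :=
          mul_le_mul_of_nonneg_right (le_abs_self C) e2
      _ ≤ |C| * Real.log (2 * ar n) := mul_le_mul_of_nonneg_left e1 (abs_nonneg C)
  have hla : 0 ≤ Real.log (ar n) := Real.log_nonneg ha1
  have hmul := mul_lt_mul_of_pos_right h (show 0 < ar n ^ 2 by positivity)
  have hexp : (7 * Real.log Q * ((n : ℝ) / ar n * (ar n)⁻¹) + 3 * (Real.log (3 * ar n) / ar n) +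
      7 * |C| * ((n : ℝ) / ar n * (Real.log (2 * ar n) / ar n)) + -(133 / 2) * (n / ar n) +
      483 / 40 * (n / ar n) ^ 2) * ar n ^ 2 =
      7 * n * Real.log Q + 3 * ar n * Real.log (3 * ar n) + 7 * n * (|C| * Real.log (2 * ar n)) +
      (-(133 / 2) * (ar n * n) + 483 / 40 * n ^ 2) := by
    field_simp
    ring
  rw [hexp] at hmul
  have hlast : (2 * (7 * (n : ℝ)) * (7 * n - 1) - 10 * ar n * (7 * n)) * Real.log (ar n) =
      -(En n * Real.log (ar n)) - 14 * n * Real.log (ar n) := by rw [hEn]; ring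
  rw [hlast]
  have hpos : 0 ≤ 14 * n * Real.log (ar n) := by positivity
  linarith

end Z579
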