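import Pool.Agent.Lib.Z579.RealId

/-!
# The shifted identity: first `T` terms exactly, the rest as a line integral
-/

open MeasureTheory Filter Topology Polynomial Finset

namespace Z579

/-- the tail `t ≥ c` of the series as a finite combination of zeta tails -/
theorem hasSum_tail {r q B a b : ℕ} (G : ℚ[X]) (hr : Even r) (hr2 : 2 ≤ r)
    (ha : 1 ≤ a) (hab : a ≤ b)
    (hdeg : 2 * B * (b - a) + 2 * G.natDegree + 2 ≤ q * (2 * a - 1)) (c : ℕ) (hc : a ≤ c) :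
    HasSum (fun t : ℕ => ((PowerSeries.coeff r (Tser q B a b ((c : ℤ) + t) G) : ℚ) : ℝ))
      (∑ u ∈ pc a, ∑ i ∈ Finset.Icc 1 q, (Nat.choose (i + r - 1) r : ℝ) *
        (Acoef q B a b u i G : ℝ) *
        (zr (i + r) - (Hs (i + r) ((c : ℤ) + u - 1).toNat : ℝ))) := by
  have hterm : ∀ u ∈ pc a, ∀ i ∈ Finset.Icc 1 q, HasSum
      (fun t : ℕ => (Nat.choose (i + r - 1) r : ℝ) * (Acoef q B a b u i G : ℝ) *
        (1 / ((t : ℝ) + (((c : ℤ) + u).toNat : ℕ)) ^ (i + r)))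
      ((Nat.choose (i + r - 1) r : ℝ) * (Acoef q B a b u i G : ℝ) *
        (zr (i + r) - (Hs (i + r) ((c : ℤ) + u - 1).toNat : ℝ))) := by
    intro u hu i hi
    rw [Finset.mem_Icc] at hi
    rw [mem_pc] at hu
    have h1 := tsum_tail (s := i + r) (k := ((c : ℤ) + u).toNat) (by omega) (by omega)
    have e : ((c : ℤ) + u).toNat - 1 = ((c : ℤ) + u - 1).toNat := by omega
    rw [e] at h1
    rw [← h1]
    refine (Summable.hasSum ?_).mul_left _
    have h2 := (summable_nat_add_iff (((c : ℤ) + u).toNat - 1)).2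
      (summable_zr (s := i + r) (by omega))
    refine h2.congr fun t => ?_
    have h3 : (((((c : ℤ) + u).toNat - 1 : ℕ)) : ℝ) = ((((c : ℤ) + u).toNat : ℕ) : ℝ) - 1 := by
      rw [Nat.cast_sub (by omega)]; simp
    push_cast
    rw [h3]
    congr 2
    ring
  have hsum := hasSum_sum (s := pc a) fun u hu => hasSum_sum (s := Finset.Icc 1 q) fun i hi =>
    hterm u hu i hi
  have hfun : (fun t : ℕ => ((PowerSeries.coeff r (Tser q B a b ((c : ℤ) + t) G) : ℚ) : ℝ)) =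
      fun t : ℕ => ∑ u ∈ pc a, ∑ i ∈ Finset.Icc 1 q, (Nat.choose (i + r - 1) r : ℝ) *
        (Acoef q B a b u i G : ℝ) * (1 / ((t : ℝ) + (((c : ℤ) + u).toNat : ℕ)) ^ (i + r)) := by
    funext t
    rw [coeff_Tser ha hab G hdeg _ (fun u hu => by rw [mem_pc] at hu; omega), hr.neg_one_pow]
    push_cast
    refine Finset.sum_congr rfl fun u hu => Finset.sum_congr rfl fun i _ => ?_
    rw [mem_pc] at hu
    have h3 : ((((c : ℤ) + u).toNat : ℕ) : ℝ) = (c : ℝ) + u := by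
      have h4 : ((((c : ℤ) + u).toNat : ℕ) : ℤ) = (c : ℤ) + u := Int.toNat_of_nonneg (by omega)
      exact_mod_cast h4
    rw [h3]
    have e : (t : ℝ) + ((c : ℝ) + u) = (c : ℝ) + t + u := by ring
    rw [e, one_mul, mul_one_div]
  rw [hfun]
  exact hsum

/-- the same tail as a line integral along `Re v = c - 1/2` -/
theorem integral_tail {r q B a b : ℕ} (G : ℚ[X]) (hr : Even r) (hr2 : 2 ≤ r)
    (ha : 1 ≤ a) (hab : a ≤ b)
    (hdeg : 2 * B * (b - a) + 2 * G.natDegree + 2 ≤ q * (2 * a - 1)) (c : ℕ) (hc : a ≤ c) :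
    -(1 / (2 * (Real.pi : ℂ))) * ∫ y : ℝ, Rc q B a b (c + tt y) *
      Polynomial.aeval ((c + tt y) ^ 2) G * Ker r (tt y) =
      ((∑ u ∈ pc a, ∑ i ∈ Finset.Icc 1 q, (Nat.choose (i + r - 1) r : ℝ) *
        (Acoef q B a b u i G : ℝ) *
        (zr (i + r) - (Hs (i + r) ((c : ℤ) + u - 1).toNat : ℝ)) : ℝ) : ℂ) := by
  have hk : ∀ u ∈ pc a, ∃ k : ℕ, 1 ≤ k ∧ (k : ℤ) = (c : ℤ) + u := by
    intro u hu
    rw [mem_pc] at hu
    exact ⟨((c : ℤ) + u).toNat, by omega, by omega⟩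
  have hpt : ∀ y : ℝ, Rc q B a b (c + tt y) * Polynomial.aeval ((c + tt y) ^ 2) G * Ker r (tt y) =
      ∑ u ∈ pc a, ∑ i ∈ Finset.Icc 1 q, (Acoef q B a b u i G : ℂ) *
        ((((((c : ℤ) + u).toNat : ℕ) : ℂ) + tt y)⁻¹ ^ i * Ker r (tt y)) := by
    intro y
    rw [Rc_mul_aeval ha hab G hdeg, Finset.sum_mul]
    · refine Finset.sum_congr rfl fun u hu => ?_
      rw [Finset.sum_mul]
      refine Finset.sum_congr rfl fun i _ => ?_
      obtain ⟨k, hk1, hk2⟩ := hk u hu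
      rw [← hk2, Int.toNat_natCast]
      have h1 : (c : ℂ) + tt y + (u : ℂ) = (k : ℂ) + tt y := by
        have : (k : ℂ) = (c : ℂ) + (u : ℂ) := by exact_mod_cast congrArg (fun x : ℤ => (x : ℂ)) hk2
        rw [this]; ring
      rw [h1, inv_pow, div_eq_mul_inv]
      ring
    · intro u hu
      obtain ⟨k, hk1, hk2⟩ := hk u hu
      have h1 : (c : ℂ) + tt y + (u : ℂ) = cf ((k : ℝ) - 1 / 2) y := by
        rw [← nat_add_tt]
        have : (k : ℂ) = (c : ℂ) + (u : ℂ) := by exact_mod_cast congrArg (fun x : ℤ => (x : ℂ)) hk2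
        rw [this]; ring
      rw [h1]
      apply cf_ne
      have : (1 : ℝ) ≤ k := by exact_mod_cast hk1
      intro h; linarith
  simp only [hpt]
  have hint : ∀ u ∈ pc a, ∀ i ∈ Finset.Icc 1 q, Integrable fun y : ℝ =>
      (Acoef q B a b u i G : ℂ) *
        ((((((c : ℤ) + u).toNat : ℕ) : ℂ) + tt y)⁻¹ ^ i * Ker r (tt y)) := by
    intro u hu i hi
    rw [Finset.mem_Icc] at hi
    rw [mem_pc] at hu
    exact (integrable_ker hr2 hi.1 (by omega)).const_mul _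
  rw [integral_finsetSum _ fun u hu => integrable_finsetSum _ fun i hi => hint u hu i hi]
  have h2 : ∀ u ∈ pc a, ∫ y : ℝ, ∑ i ∈ Finset.Icc 1 q, (Acoef q B a b u i G : ℂ) *
        ((((((c : ℤ) + u).toNat : ℕ) : ℂ) + tt y)⁻¹ ^ i * Ker r (tt y)) =
      ∑ i ∈ Finset.Icc 1 q, (Acoef q B a b u i G : ℂ) * (-(2 * Real.pi) *
        ((Nat.choose (i + r - 1) r : ℂ) *
          ((zr (i + r) - (Hs (i + r) ((c : ℤ) + u - 1).toNat : ℝ) : ℝ) : ℂ))) := by
    intro u hu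
    rw [integral_finsetSum _ fun i hi => hint u hu i hi]
    refine Finset.sum_congr rfl fun i hi => ?_
    rw [Finset.mem_Icc] at hi
    rw [mem_pc] at hu
    rw [integral_const_mul, integral_ker hr hr2 hi.1 (by omega),
      tsum_tail_complex (by omega) (by omega)]
    have : ((c : ℤ) + u).toNat - 1 = ((c : ℤ) + u - 1).toNat := by omega
    rw [this]
  rw [Finset.sum_congr rfl h2, Finset.mul_sum]
  push_cast
  refine Finset.sum_congr rfl fun u _ => ?_
  rw [Finset.mul_sum]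
  refine Finset.sum_congr rfl fun i _ => ?_
  have : (Real.pi : ℂ) ≠ 0 := by exact_mod_cast Real.pi_ne_zero
  field_simp

/-- (M1T) first terms `a ≤ v < c` exactly, the rest as a line integral along `Re v = c - 1/2`. -/
theorem m1T {r q B a b : ℕ} {z : ℕ → ℚ} (G : ℚ[X]) (hr : Even r) (hr2 : 2 ≤ r)
    (hq : Even q) (ha : 1 ≤ a) (hab : a ≤ b)
    (hdeg : 2 * B * (b - a) + 2 * G.natDegree + 3 ≤ q * (2 * a - 1)) (hz : IsZ r q z)
    (c : ℕ) (hc : a ≤ c) :
    ((Lw r q B a b (wt r a 1 z) G : ℚ) : ℂ) =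
      ∑ t ∈ Finset.range (c - a),
        ((PowerSeries.coeff r (Tser q B a b ((a : ℤ) + t) G) : ℚ) : ℂ) +
      -(1 / (2 * (Real.pi : ℂ))) * ∫ y : ℝ, Rc q B a b (c + tt y) *
        Polynomial.aeval ((c + tt y) ^ 2) G * Ker r (tt y) := by
  have hdeg2 : 2 * B * (b - a) + 2 * G.natDegree + 2 ≤ q * (2 * a - 1) := by omega
  have h1 := hasSum_Lw G hr hr2 hq ha hab hdeg hz
  have h2 := hasSum_tail (q := q) (B := B) G hr hr2 ha hab hdeg2 c hc
  have h3 := h1.summable.sum_add_tsum_nat_add (c - a)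
  rw [h1.tsum_eq] at h3
  have h4 : (∑' t : ℕ, ((PowerSeries.coeff r (Tser q B a b ((a : ℤ) + (t + (c - a) : ℕ)) G) : ℚ) : ℝ))
      = ∑ u ∈ pc a, ∑ i ∈ Finset.Icc 1 q, (Nat.choose (i + r - 1) r : ℝ) *
        (Acoef q B a b u i G : ℝ) *
        (zr (i + r) - (Hs (i + r) ((c : ℤ) + u - 1).toNat : ℝ)) := by
    rw [← h2.tsum_eq]
    refine tsum_congr fun t => ?_
    have : (a : ℤ) + ((t + (c - a) : ℕ) : ℤ) = (c : ℤ) + t := by
      push_cast [Nat.cast_sub hc]; ring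
    rw [this]
  rw [h4] at h3
  rw [integral_tail G hr hr2 ha hab hdeg2 c hc, ← Complex.ofReal_ratCast, ← h3]
  push_cast
  rfl

/-- the zeros of order `B > r` kill the terms `a ≤ v < b` -/
theorem coeff_Tser_van {r q B a b : ℕ} (G : ℚ[X]) (hrB : r < B) (k : ℤ)
    (hk1 : (a : ℤ) ≤ k) (hk2 : k < b) :
    PowerSeries.coeff r (Tser q B a b k G) = 0 := by
  have h3 : PowerSeries.X ^ B ∣ Tser q B a b k G := by
    rw [Tser]
    refine Dvd.dvd.mul_right (Dvd.dvd.mul_right (Dvd.dvd.mul_left ?_ _) _) _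
    refine pow_dvd_pow_of_dvd ?_ B
    have hm : -k ∈ oc a b := by rw [mem_oc]; omega
    refine dvd_trans ?_ (Finset.dvd_prod_of_mem _ hm)
    rw [lin]; simp
  exact PowerSeries.X_pow_dvd_iff.1 h3 r hrB

/-- (M1T) with zeros of order `B ≥ r + 1`: the terms `v = b, ..., b + T - 1` exactly, the rest
as a line integral along `Re v = b + T - 1/2`. For `a = b` the hypothesis `r < B` is not needed,
see `m1T`. -/
theorem m1T_zero {r q B a b : ℕ} {z : ℕ → ℚ} (G : ℚ[X]) (hr : Even r) (hr2 : 2 ≤ r)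
    (hq : Even q) (ha : 1 ≤ a) (hab : a ≤ b) (hrB : r < B ∨ a = b)
    (hdeg : 2 * B * (b - a) + 2 * G.natDegree + 3 ≤ q * (2 * a - 1)) (hz : IsZ r q z)
    (T : ℕ) :
    ((Lw r q B a b (wt r a 1 z) G : ℚ) : ℂ) =
      ∑ t ∈ Finset.range T,
        ((PowerSeries.coeff r (Tser q B a b ((b : ℤ) + t) G) : ℚ) : ℂ) +
      -(1 / (2 * (Real.pi : ℂ))) * ∫ y : ℝ, Rc q B a b ((b + T : ℕ) + tt y) *
        Polynomial.aeval (((b + T : ℕ) + tt y) ^ 2) G * Ker r (tt y) := by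
  rw [m1T G hr hr2 hq ha hab hdeg hz (b + T) (by omega)]
  congr 1
  have e : b + T - a = (b - a) + T := by omega
  rw [e, Finset.sum_range_add]
  have h1 : ∑ t ∈ Finset.range (b - a),
      ((PowerSeries.coeff r (Tser q B a b ((a : ℤ) + t) G) : ℚ) : ℂ) = 0 := by
    refine Finset.sum_eq_zero fun t ht => ?_
    rw [Finset.mem_range] at ht
    rcases hrB with h | h
    · rw [coeff_Tser_van G h _ (by omega) (by omega)]
      simp
    · omega
  rw [h1, zero_add]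
  refine Finset.sum_congr rfl fun t _ => ?_
  have : (a : ℤ) + ((b - a + t : ℕ) : ℤ) = (b : ℤ) + t := by
    push_cast [Nat.cast_sub hab]; ring
  rw [this]

end Z579
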