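import Pool.Agent.Lib.Z579.ArchKer
import Pool.Agent.Lib.Z579.ArchCert

/-!
# M2: the archimedean bound for the shifted moments
-/

set_option autoImplicit false

open Real Polynomial MeasureTheory

namespace Z579

noncomputable section

namespace Arch

theorem ch_lip {s t : ℝ} (h : s ≤ t) : ch t ≤ ch s + 6 / 7 * (t - s) := by
  unfold ch
  refine max_le ?_ ?_
  · have := le_max_left (-19 / 2 + (3 / 70) * s) (-47 / 5 + (6 / 7) * (s - 7 / 3))
    nlinarith
  · have := le_max_right (-19 / 2 + (3 / 70) * s) (-47 / 5 + (6 / 7) * (s - 7 / 3))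
    nlinarith

/-- the constant in the main inequality -/
def K1 : ℝ := 12 + 23 * log 2300

theorem main_ineq {a Y s : ℝ} (ha : 1 ≤ a) (hY : 0 < Y) (hs : 0 ≤ s) (hs2 : s ≤ 14 / 3) :
    3 * GG (4 * a) Y + 11 * (GG a Y - GG (3 * a) Y) + 23 * log (4 * a + 1 + Y) - 2 * π * Y
      + a * s * (gg (1 / 2) Y + gg (4 * a - 1 / 2) Y) ≤
    a * ch s - 10 * a * log a + 2 * (a * s) * log a + 23 * log (a + 1) + K1 := by
  have ha0 : 0 < a := by linarith
  set z := Y / a with hz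
  have hz0 : 0 < z := by positivity
  have hYz : Y = a * z := by rw [hz]; field_simp
  set ρ := sqrt (1 / 4 + Y ^ 2) with hρ
  have hρ2 : ρ ^ 2 = 1 / 4 + Y ^ 2 := by rw [hρ, sq_sqrt (by positivity)]
  have hρ0 : 0 < ρ := by rw [hρ]; exact sqrt_pos.mpr (by positivity)
  have hρY : Y ≤ ρ := by
    rw [hρ]; exact le_sqrt_of_sq_le (by linarith)
  have hρY2 : ρ ≤ 1 / 2 + Y := by
    rw [hρ]; exact sqrt_le_iff.mpr ⟨by positivity, by nlinarith⟩
  set z' := ρ / a with hz'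
  have hz'0 : 0 < z' := by positivity
  have hρz : ρ = a * z' := by rw [hz']; field_simp
  have hzz' : z ≤ z' := by
    rw [hz, hz']; gcongr
  have hzz'2 : a * (z' - z) ≤ 1 / 2 := by
    have : a * (z' - z) = ρ - Y := by rw [hρz, hYz]; ring
    linarith
  -- scaling
  have g1 : GG (4 * a) Y = a * (GG 4 z + 4 * log a) := by
    rw [mul_comm 4 a, hYz]; exact GG_scale ha0 hz0
  have g2 : GG a Y = a * (GG 1 z + 1 * log a) := by
    have := GG_scale (a := a) (σ := 1) (Y := z) ha0 hz0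
    rw [mul_one] at this
    rw [hYz]; exact this
  have g3 : GG (3 * a) Y = a * (GG 3 z + 3 * log a) := by
    rw [mul_comm 3 a, hYz]; exact GG_scale ha0 hz0
  have e1 : 3 * GG (4 * a) Y + 11 * (GG a Y - GG (3 * a) Y) - 2 * π * Y =
      a * hh z - 10 * a * log a := by
    rw [g1, g2, g3, hYz]
    unfold hh
    ring
  have e2 := hh_lip hz0 hzz'
  have e2' : a * hh z ≤ a * hh z' + 12 := by
    have h1 := mul_le_mul_of_nonneg_left e2 ha0.le
    have h2 : a * (hh z' + 24 * (z' - z)) = a * hh z' + 24 * (a * (z' - z)) := by ring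
    rw [h2] at h1
    linarith
  -- the weight
  have w1 : gg (1 / 2) Y = log a + log z' := by
    unfold gg
    have : (1 / 2 : ℝ) ^ 2 + Y ^ 2 = (a * z') ^ 2 := by rw [← hρz, hρ2]; ring
    rw [this, log_pow, log_mul ha0.ne' hz'0.ne']
    push_cast
    ring
  have w2 : gg (4 * a - 1 / 2) Y ≤ log a + log (16 + z' ^ 2) / 2 := by
    unfold gg
    have h1 : (4 * a - 1 / 2) ^ 2 + Y ^ 2 ≤ a ^ 2 * (16 + z' ^ 2) := by
      have : a ^ 2 * (16 + z' ^ 2) = 16 * a ^ 2 + (a * z') ^ 2 := by ring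
      rw [this, ← hρz, hρ2]
      nlinarith
    have h0 : 0 < (4 * a - 1 / 2) ^ 2 + Y ^ 2 := by positivity
    have h2 := log_le_log h0 h1
    have h3 : 0 < 16 + z' ^ 2 := by positivity
    rw [log_mul (by positivity) h3.ne', log_pow] at h2
    push_cast at h2
    linarith
  have w3 : a * s * (gg (1 / 2) Y + gg (4 * a - 1 / 2) Y) ≤
      2 * (a * s) * log a + a * (s * L0 z') := by
    have h1 : gg (1 / 2) Y + gg (4 * a - 1 / 2) Y ≤ 2 * log a + L0 z' := by
      unfold L0; linarith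
    have h2 : 0 ≤ a * s := by positivity
    have h3 := mul_le_mul_of_nonneg_left h1 h2
    have h4 : a * s * (2 * log a + L0 z') = 2 * (a * s) * log a + a * (s * L0 z') := by ring
    rw [h4] at h3
    exact h3
  have e3 : a * hh z' + a * (s * L0 z') ≤ a * ch s - a * z' / 100 := by
    have h1 := mul_le_mul_of_nonneg_left (cert hz'0 hs hs2) ha0.le
    have h2 : a * (hh z' + s * L0 z') = a * hh z' + a * (s * L0 z') := by ring
    have h3 : a * (ch s - z' / 100) = a * ch s - a * z' / 100 := by ring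
    rw [h2, h3] at h1
    exact h1
  -- the logarithmic error
  have l1 : log (4 * a + 1 + Y) ≤ log (a + 1) + log (4 + z) := by
    rw [← log_mul (by positivity) (by positivity)]
    refine log_le_log (by positivity) ?_
    rw [hYz]
    nlinarith
  have l2 : log (4 + z) ≤ log 2300 + ((4 + z) / 2300 - 1) :=
    log_tangent (by positivity) (by norm_num)
  have l3 : z ≤ a * z' := by
    have := mul_le_mul_of_nonneg_right ha hz'0.le
    linarith
  unfold K1
  linarith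

theorem norm_aeval (a j : ℕ) (y : ℝ) :
    ‖(Polynomial.aeval ((((2 * a : ℕ) : ℂ) + tt y) ^ 2))
      ((X - Polynomial.C (4 * (a : ℚ) ^ 2)) ^ j)‖ =
      (‖tt y‖ * ‖((2 * a : ℕ) : ℂ) + tt y + ((2 * a : ℤ) : ℂ)‖) ^ j := by
  rw [← norm_mul, ← norm_pow, map_pow, map_sub, aeval_X, aeval_C]
  congr 2
  have : (algebraMap ℚ ℂ) (4 * (a : ℚ) ^ 2) = 4 * (a : ℂ) ^ 2 := by
    simp
  rw [this]
  push_cast
  ring

/-- pointwise bound of the integrand -/
theorem integrand_bound {Ck : ℝ} (hCk : 0 < Ck)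
    (hK : ∀ y : ℝ, ‖Ker 2 (tt y)‖ ≤ Ck * exp (-(2 * π * |y|)))
    {a j : ℕ} (ha : 1 ≤ a) (hj : 3 * j + 3 ≤ 14 * a) {y : ℝ} (hy : y ≠ 0) :
    ‖Rc 8 3 a (2 * a) (((2 * a : ℕ) : ℂ) + tt y) *
      Polynomial.aeval ((((2 * a : ℕ) : ℂ) + tt y) ^ 2)
        ((X - Polynomial.C (4 * (a : ℚ) ^ 2)) ^ j) * Ker 2 (tt y)‖ ≤
    exp (a * ch (j / a) + (2 * (j : ℝ) - 10 * a) * log a + 2 * log a + 23 * log (a + 1) +
      (K1 + 13 + log Ck)) * (4 * (1 + y ^ 2)⁻¹) := by
  have hY : 0 < |y| := abs_pos.mpr hy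
  have har : (1:ℝ) ≤ a := by exact_mod_cast ha
  have ha0 : (0:ℝ) < a := by linarith
  set Y := |y| with hYd
  set W := ‖tt y‖ * ‖((2 * a : ℕ) : ℂ) + tt y + ((2 * a : ℤ) : ℂ)‖ with hW
  have n1 : ‖tt y‖ = exp (gg (1 / 2) Y) := by
    have := norm_factor 0 0 hy
    simp only [Nat.cast_zero, Int.cast_zero, zero_add, add_zero, zero_sub] at this
    rw [this]
    unfold gg
    congr 3
    ring
  have n2 : ‖((2 * a : ℕ) : ℂ) + tt y + ((2 * a : ℤ) : ℂ)‖ = exp (gg (4 * a - 1 / 2) Y) := by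
    rw [norm_factor (2 * a) (2 * a) hy]
    congr 2
    push_cast
    ring
  have hWe : W = exp (gg (1 / 2) Y + gg (4 * a - 1 / 2) Y) := by
    rw [hW, n1, n2, exp_add]
  have hW0 : 0 < W := by rw [hWe]; exact exp_pos _
  have hWl : (1 + y ^ 2) / 4 ≤ W := by
    have h1 : gg (1 / 2) Y ≤ gg (4 * a - 1 / 2) Y := gg_mono (by norm_num) (by linarith) hY
    have h2 : exp (gg (1 / 2) Y + gg (1 / 2) Y) ≤ W := by
      rw [hWe]; exact exp_le_exp.mpr (by linarith)
    have h3 : exp (gg (1 / 2) Y + gg (1 / 2) Y) = 1 / 4 + y ^ 2 := by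
      unfold gg
      have h4 : (0:ℝ) < (1 / 2) ^ 2 + Y ^ 2 := by positivity
      rw [add_halves, exp_log h4, hYd, sq_abs]
      ring
    rw [h3] at h2
    nlinarith [sq_nonneg y]
  have hWinv : 1 / W ≤ 4 * (1 + y ^ 2)⁻¹ := by
    have h1 : 1 / W ≤ 1 / ((1 + y ^ 2) / 4) :=
      one_div_le_one_div_of_le (by positivity) hWl
    have h2 : 1 / ((1 + y ^ 2) / 4) = 4 * (1 + y ^ 2)⁻¹ := by
      field_simp
    rwa [h2] at h1
  rw [norm_mul, norm_mul, norm_aeval, ← hW]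
  have b1 := Rc_bound (q := 8) (B := 3) (a := a) (b := 2 * a) ha (by omega) hy
  rw [← hYd] at b1
  have b3 := hK y
  rw [← hYd] at b3
  -- total exponent
  set s : ℝ := ((j : ℝ) + 1) / a with hs
  have hs0 : 0 ≤ s := by positivity
  have hjr : 3 * (j : ℝ) + 3 ≤ 14 * a := by exact_mod_cast hj
  have hs2 : s ≤ 14 / 3 := by
    rw [hs, div_le_div_iff₀ ha0 (by norm_num)]
    linarith
  have has : a * s = j + 1 := by rw [hs]; field_simp
  have hm := main_ineq har hY hs0 hs2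
  have hch : a * ch s ≤ a * ch (j / a) + 6 / 7 := by
    have h1 : (j : ℝ) / a ≤ s := by
      rw [hs]; gcongr; linarith
    have h2 := mul_le_mul_of_nonneg_left (ch_lip h1) ha0.le
    have h3 : (a : ℝ) * (6 / 7 * (s - j / a)) = 6 / 7 := by
      rw [hs]; field_simp; ring
    nlinarith
  have hLR : LR 8 3 a (2 * a) Y = 3 * GG (4 * a) Y + 11 * (GG a Y - GG (3 * a) Y) +
      23 * log (4 * a + 1 + Y) + 12 := by
    unfold LR
    have r1 : (2 * ((2 * a : ℕ) : ℝ)) = 4 * a := by push_cast; ring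
    have r2 : (((2 * a : ℕ) : ℝ) - a) = a := by push_cast; ring
    have r3 : (((2 * a : ℕ) : ℝ) + a) = 3 * a := by push_cast; ring
    rw [r1, r2, r3]
    push_cast
    ring
  calc ‖Rc 8 3 a (2 * a) (((2 * a : ℕ) : ℂ) + tt y)‖ * W ^ j * ‖Ker 2 (tt y)‖
      ≤ exp (LR 8 3 a (2 * a) Y) * W ^ j * (Ck * exp (-(2 * π * Y))) := by
        gcongr
    _ = exp (LR 8 3 a (2 * a) Y) * W ^ (j + 1) * (exp (log Ck) * exp (-(2 * π * Y))) *
        (1 / W) := by
        rw [exp_log hCk, pow_succ]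
        field_simp
    _ = exp (LR 8 3 a (2 * a) Y + (j + 1) * (gg (1 / 2) Y + gg (4 * a - 1 / 2) Y) +
        (log Ck - 2 * π * Y)) * (1 / W) := by
        rw [hWe, ← exp_nat_mul, ← exp_add, ← exp_add, ← exp_add]
        push_cast
        ring_nf
    _ ≤ exp (a * ch (j / a) + (2 * (j : ℝ) - 10 * a) * log a + 2 * log a + 23 * log (a + 1) +
        (K1 + 13 + log Ck)) * (4 * (1 + y ^ 2)⁻¹) := by
        refine mul_le_mul (exp_le_exp.mpr ?_) hWinv (by positivity) (exp_pos _).le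
        rw [hLR]
        rw [has] at hm
        linarith

/-- the bound for large `a` -/
theorem m2_large (h : M1) : ∃ C : ℝ, 0 ≤ C ∧ ∀ (a j : ℕ) (z : ℕ → ℚ), 14 ≤ a →
    3 * j + 3 ≤ 14 * a → IsZ 2 8 z →
    |((Lw 2 8 3 a (2 * a) (wt 2 a 1 z) ((X - Polynomial.C (4 * (a : ℚ) ^ 2)) ^ j) : ℚ) : ℝ)| ≤
      Real.exp (C * Real.log (a + 1) + (2 * (j : ℝ) - 10 * a) * Real.log a + a * ch (j / a)) := by
  obtain ⟨Ck, hCk, hK⟩ := Ker_bound 2 le_rfl
  refine ⟨25 + 2 * (|K1 + 13 + log Ck| + 1), by positivity, fun a j z ha hj hz => ?_⟩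
  have ha1 : 1 ≤ a := by omega
  have har : (1:ℝ) ≤ a := by exact_mod_cast ha1
  set G : ℚ[X] := (X - Polynomial.C (4 * (a : ℚ) ^ 2)) ^ j with hG
  have hdeg : G.natDegree = j := by
    rw [hG, natDegree_pow, natDegree_X_sub_C, mul_one]
  have h1 := h 2 8 3 a (2 * a) z G (by decide) le_rfl (by decide) (by norm_num) ha1 (by omega)
    le_rfl (by rw [hdeg]; omega) hz
  set M := exp (a * ch (j / a) + (2 * (j : ℝ) - 10 * a) * log a + 2 * log a +
    23 * log (a + 1) + (K1 + 13 + log Ck)) with hM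
  have hM0 : 0 < M := exp_pos _
  have h2 : ‖∫ y : ℝ, Rc 8 3 a (2 * a) (((2 * a : ℕ) : ℂ) + tt y) *
      Polynomial.aeval ((((2 * a : ℕ) : ℂ) + tt y) ^ 2) G * Ker 2 (tt y)‖ ≤
      ∫ y : ℝ, M * (4 * (1 + y ^ 2)⁻¹) := by
    refine norm_integral_le_of_norm_le ?_ ?_
    · exact (integrable_inv_one_add_sq.const_mul 4).const_mul M
    · have h3 : ∀ᵐ y : ℝ, y ≠ 0 := by
        rw [ae_iff]
        simp
      filter_upwards [h3] with y hy
      exact integrand_bound hCk hK ha1 hj hy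
  rw [integral_const_mul, integral_const_mul, integral_univ_inv_one_add_sq] at h2
  have h4 : |((Lw 2 8 3 a (2 * a) (wt 2 a 1 z) G : ℚ) : ℝ)| ≤ 2 * M := by
    have h5 : |((Lw 2 8 3 a (2 * a) (wt 2 a 1 z) G : ℚ) : ℝ)| =
        ‖((Lw 2 8 3 a (2 * a) (wt 2 a 1 z) G : ℚ) : ℂ)‖ := by
      rw [← Complex.ofReal_ratCast, Complex.norm_real, norm_eq_abs]
    rw [h5, h1, norm_mul]
    have h6 : ‖-(1 / (2 * (π : ℂ)))‖ = 1 / (2 * π) := by
      rw [norm_neg, norm_div, norm_mul, Complex.norm_real, norm_eq_abs, abs_of_pos pi_pos]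
      simp
    rw [h6]
    calc 1 / (2 * π) * _ ≤ 1 / (2 * π) * (M * (4 * π)) :=
          mul_le_mul_of_nonneg_left h2 (by positivity)
      _ = 2 * M := by field_simp; ring
  refine h4.trans ?_
  have h7 : 2 * M = exp (log 2 + (a * ch (j / a) + (2 * (j : ℝ) - 10 * a) * log a + 2 * log a +
    23 * log (a + 1) + (K1 + 13 + log Ck))) := by
    rw [exp_add, exp_log (by norm_num), ← hM]
  rw [h7]
  refine exp_le_exp.mpr ?_
  have l1 : log a ≤ log (a + 1) := log_le_log (by linarith) (by linarith)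
  have l2 : log 2 ≤ log ((a:ℝ) + 1) := log_le_log (by norm_num) (by linarith)
  have l3 := log_two_gt_d9
  have l4 := log_two_lt_d9
  have l5 := le_abs_self (K1 + 13 + log Ck)
  have l6 := abs_nonneg (K1 + 13 + log Ck)
  have l7 : |K1 + 13 + log Ck| + 1 ≤ 2 * (|K1 + 13 + log Ck| + 1) * log ((a:ℝ) + 1) := by
    nlinarith
  nlinarith

theorem isZ_unique {r q : ℕ} {z z' : ℕ → ℚ} (h : IsZ r q z) (h' : IsZ r q z') : z = z' := by
  funext s
  have := (h s).trans (h' s).symm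
  exact_mod_cast this

/-- a constant for each pair -/
theorem m2_single (a j : ℕ) (ha : 1 ≤ a) : ∃ C : ℝ, 0 ≤ C ∧ ∀ (z : ℕ → ℚ), IsZ 2 8 z →
    |((Lw 2 8 3 a (2 * a) (wt 2 a 1 z) ((X - Polynomial.C (4 * (a : ℚ) ^ 2)) ^ j) : ℚ) : ℝ)| ≤
      Real.exp (C * Real.log (a + 1) + (2 * (j : ℝ) - 10 * a) * Real.log a + a * ch (j / a)) := by
  by_cases hz : ∃ z : ℕ → ℚ, IsZ 2 8 z
  · obtain ⟨z0, hz0⟩ := hz
    set X0 := |((Lw 2 8 3 a (2 * a) (wt 2 a 1 z0)
      ((X - Polynomial.C (4 * (a : ℚ) ^ 2)) ^ j) : ℚ) : ℝ)| with hX0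
    set D := log (X0 + 1) - ((2 * (j : ℝ) - 10 * a) * Real.log a + a * ch (j / a)) with hD
    have hX00 : 0 ≤ X0 := abs_nonneg _
    refine ⟨2 * |D|, by positivity, fun z hz => ?_⟩
    rw [isZ_unique hz hz0, ← hX0]
    have h1 : X0 ≤ exp (log (X0 + 1)) := by rw [exp_log (by positivity)]; linarith
    refine h1.trans (exp_le_exp.mpr ?_)
    have har : (1:ℝ) ≤ a := by exact_mod_cast ha
    have l2 : log 2 ≤ log ((a:ℝ) + 1) := log_le_log (by norm_num) (by linarith)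
    have l3 := log_two_gt_d9
    have l5 := le_abs_self D
    have l6 := abs_nonneg D
    have l7 : |D| ≤ 2 * |D| * log ((a:ℝ) + 1) := by nlinarith
    linarith
  · exact ⟨0, le_rfl, fun z h => absurd ⟨z, h⟩ hz⟩

end Arch

open Arch in
/-- M2, given M1. -/
theorem m2 (h : M1) : M2 := by
  obtain ⟨C0, hC0, hl⟩ := m2_large h
  choose C hC hCb using fun p : {p : ℕ × ℕ // 1 ≤ p.1} => m2_single p.1.1 p.1.2 p.2
  classical
  let D : ℕ × ℕ → ℝ := fun p => if hp : 1 ≤ p.1 then C ⟨p, hp⟩ else 0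
  have hD : ∀ p, 0 ≤ D p := by
    intro p
    by_cases hp : 1 ≤ p.1
    · simp only [D, dif_pos hp]; exact hC _
    · simp only [D, dif_neg hp]; exact le_rfl
  refine ⟨C0 + ∑ p ∈ Finset.range 14 ×ˢ Finset.range 70, D p, fun a j z ha hj hz => ?_⟩
  have har : (1:ℝ) ≤ a := by exact_mod_cast ha
  have hlog : 0 ≤ log ((a:ℝ) + 1) := log_nonneg (by linarith)
  have hS : 0 ≤ ∑ p ∈ Finset.range 14 ×ˢ Finset.range 70, D p :=
    Finset.sum_nonneg fun p _ => hD p
  rcases le_or_gt 14 a with h14 | h14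
  · refine (hl a j z h14 hj hz).trans (exp_le_exp.mpr ?_)
    nlinarith
  · have h1 := hCb ⟨(a, j), ha⟩ z hz
    refine h1.trans (exp_le_exp.mpr ?_)
    have h2 : D (a, j) ≤ ∑ p ∈ Finset.range 14 ×ˢ Finset.range 70, D p := by
      refine Finset.single_le_sum (f := D) (fun p _ => hD p) ?_
      rw [Finset.mem_product, Finset.mem_range, Finset.mem_range]
      exact ⟨h14, by dsimp only; omega⟩
    have h3 : D (a, j) = C ⟨(a, j), ha⟩ := by
      simp only [D, dif_pos ha]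
    rw [← h3]
    nlinarith

end

end Z579
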