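import Pool.Agent.Lib.Z579.Defs

open Polynomial Finset

namespace Z579

theorem det_bound (m : ℕ) (M : Matrix (Fin m) (Fin m) ℝ) (g : Fin m → ℝ)
    (h : ∀ i j, |M i j| ≤ Real.exp ((g i + g j) / 2)) :
    |M.det| ≤ m.factorial * Real.exp (∑ i, g i) := by
  rw [Matrix.det_apply]
  refine (Finset.abs_sum_le_sum_abs _ _).trans ?_
  have hb : ∀ σ ∈ (Finset.univ : Finset (Equiv.Perm (Fin m))),
      |Equiv.Perm.sign σ • ∏ i, M (σ i) i| ≤ Real.exp (∑ i, g i) := by
    intro σ _
    have h1 : |Equiv.Perm.sign σ • ∏ i, M (σ i) i| = ∏ i, |M (σ i) i| := by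
      rw [← Finset.abs_prod]
      rcases Int.units_eq_one_or (Equiv.Perm.sign σ) with h | h <;> rw [h] <;> simp
    rw [h1]
    calc ∏ i, |M (σ i) i| ≤ ∏ i, Real.exp ((g (σ i) + g i) / 2) :=
          Finset.prod_le_prod (fun i _ => abs_nonneg _) fun i _ => h _ _
      _ = Real.exp (∑ i, g i) := by
          rw [← Real.exp_sum, ← Finset.sum_div, Finset.sum_add_distrib,
            Equiv.sum_comp σ g]
          congr 1
          ring
  refine (Finset.sum_le_sum hb).trans ?_
  rw [Finset.sum_const, Finset.card_univ, Fintype.card_perm, Fintype.card_fin, nsmul_eq_mul]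

end Z579
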