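import Pool.Agent.Lib.Z579.M7b

/-!
# M7a: Mertens type upper bound
-/

open Filter Topology Finset MeasureTheory

namespace Z579

lemma log_factorial_le (n : ℕ) :
    Real.log (n.factorial : ℝ) ≤ (n + 1) * Real.log (n + 1) - n := by
  induction n with
  | zero => simp
  | succ n ih =>
    rw [Nat.factorial_succ]
    push_cast
    rw [Real.log_mul (by positivity) (by positivity)]
    have h1 : (0 : ℝ) < n + 1 := by positivity
    have h2 : (0 : ℝ) < n + 2 := by positivity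
    have h3 : Real.log ((n + 1) / (n + 2)) ≤ (n + 1) / (n + 2) - 1 :=
      Real.log_le_sub_one_of_pos (by positivity)
    rw [Real.log_div h1.ne' h2.ne'] at h3
    have h4 : ((n : ℝ) + 1) / (n + 2) - 1 = -(1 / (n + 2)) := by field_simp; ring
    rw [h4] at h3
    have h5 : (n + 2) * (Real.log (n + 1) - Real.log (n + 2)) ≤ -1 := by
      calc ((n : ℝ) + 2) * (Real.log (n + 1) - Real.log (n + 2)) ≤ (n + 2) * (-(1 / (n + 2))) :=
            mul_le_mul_of_nonneg_left h3 h2.le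
        _ = -1 := by field_simp
    have h6 : (n : ℝ) + 1 + 1 = n + 2 := by ring
    rw [h6]
    nlinarith

lemma log_factorial_eq (n : ℕ) :
    Real.log (n.factorial : ℝ) = ∑ p ∈ (Finset.Icc 1 n).filter Nat.Prime,
      ((n.factorial).factorization p : ℝ) * Real.log p := by
  rw [Real.log_nat_eq_sum_factorization, Finsupp.sum]
  refine Finset.sum_subset ?_ ?_
  · intro p hp
    rw [Nat.support_factorization, Nat.mem_primeFactors] at hp
    rw [Finset.mem_filter, Finset.mem_Icc]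
    exact ⟨⟨hp.1.one_le, (Nat.Prime.dvd_factorial hp.1).mp hp.2.1⟩, hp.1⟩
  · intro p _ hp
    rw [Finsupp.notMem_support_iff] at hp
    rw [hp]
    simp

/-- the defect `n/(p-1) - v_p(n!)` -/
noncomputable def Df (n p : ℕ) : ℝ := (n : ℝ) / (p - 1) - ((n.factorial).factorization p : ℝ)

lemma Df_le_log (n p : ℕ) (hp : p.Prime) (hn : n ≠ 0) : Df n p ≤ Nat.log p n + 1 := by
  unfold Df
  have h1 := Nat.sub_one_mul_factorization_factorial (n := n) hp
  have hp1 : (0 : ℝ) < (p : ℝ) - 1 := by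
    have : (1 : ℝ) < p := by exact_mod_cast hp.one_lt
    linarith
  have h2 : (p.digits n).sum ≤ (p - 1) * (p.digits n).length := by
    have : ∀ d ∈ p.digits n, d ≤ p - 1 := fun d hd =>
      Nat.le_sub_one_of_lt (Nat.digits_lt_base hp.one_lt hd)
    have := List.sum_le_card_nsmul _ _ this
    rwa [smul_eq_mul, mul_comm] at this
  rw [Nat.length_digits p n hp.one_lt hn] at h2
  have h3 : (p.digits n).sum ≤ n := Nat.digit_sum_le p n
  have h4 : n ≤ (p - 1) * (n.factorial).factorization p + (p - 1) * (Nat.log p n + 1) := by omega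
  have h5 : (n : ℝ) ≤ (p - 1) * ((n.factorial).factorization p : ℝ) +
      (p - 1) * ((Nat.log p n : ℝ) + 1) := by
    have h6 : ((p - 1 : ℕ) : ℝ) = (p : ℝ) - 1 := by
      rw [Nat.cast_sub hp.one_le, Nat.cast_one]
    rw [← h6]
    exact_mod_cast h4
  rw [sub_le_iff_le_add, div_le_iff₀ hp1]
  nlinarith

lemma div_le_factorization (n p : ℕ) (hp : p.Prime) :
    n / p ≤ (n.factorial).factorization p := by
  rw [Nat.factorization_factorial hp (Nat.lt_succ_of_le (Nat.le_succ (Nat.log p n)))]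
  have h1 : 1 ∈ Finset.Ico 1 (Nat.log p n).succ.succ := by
    rw [Finset.mem_Ico]
    exact ⟨le_rfl, by omega⟩
  have h2 := Finset.single_le_sum (f := fun i => n / p ^ i) (fun i _ => Nat.zero_le _) h1
  simpa using h2

lemma Df_le_div (n p : ℕ) (hp : p.Prime) (k : ℕ) (hk : k * p ≤ n) (ε : ℝ) (hε : 0 < ε)
    (hn : 0 < n) (hpn : ε * n < p) :
    Df n p ≤ (n : ℝ) / p - k + 2 / (ε ^ 2 * n) := by
  have hkk : k ≤ n / p := (Nat.le_div_iff_mul_le hp.pos).mpr hk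
  have h1 := hkk.trans (div_le_factorization n p hp)
  have h1' : (k : ℝ) ≤ ((n.factorial).factorization p : ℝ) := by exact_mod_cast h1
  have hp2 : (2 : ℝ) ≤ p := by exact_mod_cast hp.two_le
  have hn' : (0 : ℝ) < n := by exact_mod_cast hn
  have hεn : 0 < ε * n := by positivity
  unfold Df
  have h2 : (n : ℝ) / (p - 1) = n / p + n / (p * (p - 1)) := by
    have : (p : ℝ) - 1 ≠ 0 := by linarith
    field_simp
    ring
  have h3 : (n : ℝ) / (p * (p - 1)) ≤ 2 / (ε ^ 2 * n) := by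
    have h4 : (0 : ℝ) < p * (p - 1) := mul_pos (by linarith) (by linarith)
    rw [div_le_div_iff₀ h4 (by positivity)]
    have h5 : (ε * n) ^ 2 ≤ (p : ℝ) ^ 2 := pow_le_pow_left₀ hεn.le hpn.le 2
    nlinarith
  rw [h2]
  linarith

lemma log_mul_log_le (n p : ℕ) (hp : p.Prime) (hn : n ≠ 0) :
    (Nat.log p n : ℝ) * Real.log p ≤
      Real.log p + if p ≤ Nat.sqrt n then Real.log n else 0 := by
  have hlp : 0 ≤ Real.log p := Real.log_natCast_nonneg p
  split_ifs with h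
  · have h1 : (Nat.log p n : ℝ) * Real.log p ≤ Real.log n := by
      rw [← Real.log_pow]
      refine Real.log_le_log (pow_pos (by exact_mod_cast hp.pos) _) ?_
      exact_mod_cast Nat.pow_log_le_self p hn
    linarith
  · have h1 : Nat.log p n < 2 := by
      apply Nat.log_lt_of_lt_pow hn
      rw [pow_two]
      exact Nat.sqrt_lt.mp (by omega)
    have h2 : (Nat.log p n : ℝ) ≤ 1 := by exact_mod_cast (by omega : Nat.log p n ≤ 1)
    nlinarith

lemma sum_small (n y : ℕ) (hn : n ≠ 0) :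
    ∑ p ∈ (Finset.Ioc 0 y).filter Nat.Prime, Df n p * Real.log p ≤
      2 * Chebyshev.theta y + Nat.sqrt n * Real.log n := by
  have h1 : ∀ p ∈ (Finset.Ioc 0 y).filter Nat.Prime, Df n p * Real.log p ≤
      2 * Real.log p + if p ≤ Nat.sqrt n then Real.log n else 0 := by
    intro p hp
    rw [Finset.mem_filter] at hp
    have h2 := Df_le_log n p hp.2 hn
    have hlp : 0 ≤ Real.log p := Real.log_natCast_nonneg p
    have h3 := mul_le_mul_of_nonneg_right h2 hlp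
    have h4 := log_mul_log_le n p hp.2 hn
    linarith
  refine (Finset.sum_le_sum h1).trans ?_
  rw [Finset.sum_add_distrib, ← Finset.mul_sum]
  have h5 : ∑ p ∈ (Finset.Ioc 0 y).filter Nat.Prime, Real.log p = Chebyshev.theta y := by
    unfold Chebyshev.theta; simp
  rw [h5]
  refine add_le_add_right ?_ _
  rw [← Finset.sum_filter, Finset.sum_const, nsmul_eq_mul]
  refine mul_le_mul_of_nonneg_right ?_ (Real.log_natCast_nonneg n)
  have h6 : ((Finset.Ioc 0 y).filter Nat.Prime).filter (fun p => p ≤ Nat.sqrt n) ⊆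
      Finset.Ioc 0 (Nat.sqrt n) := by
    intro p hp
    rw [Finset.mem_filter, Finset.mem_filter, Finset.mem_Ioc] at hp
    rw [Finset.mem_Ioc]
    exact ⟨hp.1.1.1, hp.2⟩
  have h7 := Finset.card_le_card h6
  rw [Nat.card_Ioc, Nat.sub_zero] at h7
  exact_mod_cast h7

/-- sum of `1/t - k` over a block -/
lemma sum_block (n k : ℕ) (hn : 0 < n) (α β : ℝ) (ε : ℝ) (hε : 0 < ε) (hεα : ε ≤ α)
    (hβk : k * β ≤ 1) (hβ0 : 0 ≤ β) :
    ∑ p ∈ (Finset.Ioc ⌊α * n⌋₊ ⌊β * n⌋₊).filter Nat.Prime, Df n p * Real.log p ≤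
      ∑ p ∈ (Finset.Ioc ⌊α * (n : ℝ)⌋₊ ⌊β * (n : ℝ)⌋₊).filter Nat.Prime,
        (fun t : ℝ => 1 / t - k) (p / (n : ℝ)) * Real.log p +
      2 / (ε ^ 2 * n) * ∑ p ∈ (Finset.Ioc ⌊α * (n : ℝ)⌋₊ ⌊β * (n : ℝ)⌋₊).filter Nat.Prime,
        Real.log p := by
  have hn' : (0 : ℝ) < n := by exact_mod_cast hn
  rw [Finset.mul_sum, ← Finset.sum_add_distrib]
  refine Finset.sum_le_sum fun p hp => ?_
  rw [Finset.mem_filter, Finset.mem_Ioc] at hp
  obtain ⟨⟨h1, h2⟩, hpp⟩ := hp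
  have hlp : 0 ≤ Real.log p := Real.log_natCast_nonneg p
  have h3 : α * n < p := by exact_mod_cast Nat.lt_of_floor_lt h1
  have h4 : (p : ℝ) ≤ β * n := (Nat.le_floor_iff (by positivity)).mp h2
  have h5 : k * p ≤ n := by
    have : (k : ℝ) * p ≤ n := by
      calc (k : ℝ) * p ≤ k * (β * n) := mul_le_mul_of_nonneg_left h4 (Nat.cast_nonneg k)
        _ = (k * β) * n := by ring
        _ ≤ 1 * n := mul_le_mul_of_nonneg_right hβk hn'.le
        _ = n := one_mul _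
    exact_mod_cast this
  have h6 := Df_le_div n p hpp k h5 ε hε hn (lt_of_le_of_lt
    (mul_le_mul_of_nonneg_right hεα hn'.le) h3)
  have hpp0 : (0 : ℝ) < p := by exact_mod_cast hpp.pos
  have h7 : 1 / ((p : ℝ) / n) - k = (n : ℝ) / p - k := by
    rw [one_div_div]
  show Df n p * Real.log p ≤ (1 / ((p : ℝ) / n) - k) * Real.log p + 2 / (ε ^ 2 * n) * Real.log p
  rw [h7, ← add_mul]
  exact mul_le_mul_of_nonneg_right h6 hlp

lemma theta_nat_le (n : ℕ) (m : ℕ) (hm : m ≤ n) : 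
    ∑ p ∈ (Finset.Ioc m n).filter Nat.Prime, Real.log p = Chebyshev.theta n - Chebyshev.theta m := by
  have := PS_one 1 m n hm
  unfold PS at this
  simpa using this

lemma sum_mid (n : ℕ) (hn : 0 < n) (α β : ℝ) (ε : ℝ) (hε : 0 < ε) (hεα : ε ≤ α) :
    ∑ p ∈ (Finset.Ioc ⌊α * n⌋₊ ⌊β * n⌋₊).filter Nat.Prime, Df n p * Real.log p ≤
      (1 + 2 / (ε ^ 2 * n)) * PS (fun _ => 1) (n : ℝ) ⌊α * n⌋₊ ⌊β * n⌋₊ := by
  have hn' : (0 : ℝ) < n := by exact_mod_cast hn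
  unfold PS
  rw [Finset.mul_sum]
  refine Finset.sum_le_sum fun p hp => ?_
  rw [Finset.mem_filter, Finset.mem_Ioc] at hp
  obtain ⟨⟨h1, h2⟩, hpp⟩ := hp
  have hlp : 0 ≤ Real.log p := Real.log_natCast_nonneg p
  have h3 : α * n < p := by exact_mod_cast Nat.lt_of_floor_lt h1
  have h6 := Df_le_div n p hpp (n / p) (Nat.div_mul_le_self n p) ε hε hn (lt_of_le_of_lt
    (mul_le_mul_of_nonneg_right hεα hn'.le) h3)
  have hpp0 : (0 : ℝ) < p := by exact_mod_cast hpp.pos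
  have h7 : (n : ℝ) / p - ((n / p : ℕ) : ℝ) ≤ 1 := by
    have : (n : ℝ) / p < ((n / p : ℕ) : ℝ) + 1 := by
      rw [div_lt_iff₀ hpp0]
      have := Nat.lt_div_mul_add (a := n) hpp.pos
      have h8 : n < (n / p + 1) * p := by rw [add_mul, one_mul]; exact this
      exact_mod_cast h8
    linarith
  rw [one_mul]
  exact mul_le_mul_of_nonneg_right (by linarith) hlp

lemma tendsto_small_term (ε : ℝ) (hε : 0 < ε) (α β : ℝ) (hα : 0 ≤ α) (hβ : α ≤ β) :
    Tendsto (fun n : ℕ => (2 / (ε ^ 2 * n) * PS (fun _ => 1) (n : ℝ) ⌊α * n⌋₊ ⌊β * n⌋₊) / n)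
      atTop (𝓝 0) := by
  have h1 := (tendsto_PS_one α β hα hβ).comp tendsto_natCast_atTop_atTop
  have h2 : Tendsto (fun n : ℕ => 2 / (ε ^ 2 * (n : ℝ))) atTop (𝓝 0) := by
    apply Tendsto.div_atTop tendsto_const_nhds
    exact Tendsto.const_mul_atTop (by positivity) tendsto_natCast_atTop_atTop
  have h3 := h2.mul h1
  rw [zero_mul] at h3
  refine h3.congr fun n => ?_
  simp only [Function.comp]
  ring

lemma block_integral (k : ℕ) (hk : 1 ≤ k) :
    ∫ t in (1 / ((k : ℝ) + 1))..(1 / k), (1 / t - (k : ℝ)) =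
      Real.log (k + 1) - Real.log k - 1 / (k + 1) := by
  have hk' : (0 : ℝ) < k := by exact_mod_cast hk
  have h1 : (0 : ℝ) < 1 / (k + 1) := by positivity
  have h2 : (0 : ℝ) < 1 / k := by positivity
  have hle : (1 : ℝ) / (k + 1) ≤ 1 / k := one_div_le_one_div_of_le hk' (by linarith)
  rw [intervalIntegral.integral_sub]
  · rw [integral_one_div_of_pos h1 h2, intervalIntegral.integral_const, smul_eq_mul]
    have : 1 / (k : ℝ) / (1 / (k + 1)) = (k + 1) / k := by field_simp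
    rw [this, Real.log_div (by positivity) hk'.ne']
    field_simp
    ring
  · apply ContinuousOn.intervalIntegrable
    rw [Set.uIcc_of_le hle]
    intro t ht
    have : t ≠ 0 := by linarith [ht.1, ht.2]
    exact ((continuousAt_const.div continuousAt_id this)).continuousWithinAt
  · exact intervalIntegrable_const

/-- bound for one block -/
noncomputable def RB (ε : ℝ) (k n : ℕ) : ℝ :=
  PS (fun t : ℝ => 1 / t - k) (n : ℝ) ⌊1 / ((k : ℝ) + 1) * n⌋₊ ⌊1 / (k : ℝ) * n⌋₊ +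
    2 / (ε ^ 2 * n) * PS (fun _ => 1) (n : ℝ) ⌊1 / ((k : ℝ) + 1) * n⌋₊ ⌊1 / (k : ℝ) * n⌋₊

lemma tendsto_RB (ε : ℝ) (hε : 0 < ε) (k : ℕ) (hk : 1 ≤ k) :
    Tendsto (fun n : ℕ => RB ε k n / n) atTop
      (𝓝 (Real.log (k + 1) - Real.log k - 1 / (k + 1))) := by
  have hk' : (0 : ℝ) < k := by exact_mod_cast hk
  have h1 : (0 : ℝ) < 1 / (k + 1) := by positivity
  have hle : (1 : ℝ) / (k + 1) ≤ 1 / k := one_div_le_one_div_of_le hk' (by linarith)
  have h2 := (m7b (1 / ((k : ℝ) + 1)) (1 / k) (fun t => 1 / t - k) h1.le hle (by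
    intro t ht
    have : t ≠ 0 := by linarith [ht.1, ht.2]
    exact ((continuousAt_const.div continuousAt_id this).sub
      continuousAt_const).continuousWithinAt)).comp tendsto_natCast_atTop_atTop
  rw [block_integral k hk] at h2
  have h3 := h2.add (tendsto_small_term ε hε (1 / ((k : ℝ) + 1)) (1 / k) h1.le hle)
  rw [add_zero] at h3
  refine h3.congr fun n => ?_
  simp only [Function.comp]
  unfold RB PS
  rw [add_div]

lemma RB_ge (ε : ℝ) (hε : 0 < ε) (k n : ℕ) (hk : 1 ≤ k) (hεk : ε ≤ 1 / (k + 1)) (hn : 0 < n) :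
    ∑ p ∈ (Finset.Ioc ⌊1 / ((k : ℝ) + 1) * n⌋₊ ⌊1 / (k : ℝ) * n⌋₊).filter Nat.Prime,
      Df n p * Real.log p ≤ RB ε k n := by
  have hk' : (0 : ℝ) < k := by exact_mod_cast hk
  have := sum_block n k hn (1 / ((k : ℝ) + 1)) (1 / k) ε hε hεk
    (by rw [mul_one_div_cancel hk'.ne']) (by positivity)
  refine this.trans (le_of_eq ?_)
  unfold RB PS
  simp

/-- the total upper bound -/
noncomputable def UB (ε : ℝ) (n : ℕ) : ℝ :=
  (2 * Chebyshev.theta (⌊ε * n⌋₊ : ℕ) + Nat.sqrt n * Real.log n) +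
  (1 + 2 / (ε ^ 2 * n)) * PS (fun _ => 1) (n : ℝ) ⌊ε * n⌋₊ ⌊1 / 8 * (n : ℝ)⌋₊ +
  (RB ε 7 n + RB ε 6 n + RB ε 5 n + RB ε 4 n + RB ε 3 n + RB ε 2 n + RB ε 1 n)

lemma sum_Df_le (ε : ℝ) (hε : 0 < ε) (hε8 : ε ≤ 1 / 8) (n : ℕ) (hn : 0 < n) :
    ∑ p ∈ (Finset.Icc 1 n).filter Nat.Prime, Df n p * Real.log p ≤ UB ε n := by
  have hn' : (0 : ℝ) < n := by exact_mod_cast hn
  set g : ℕ → ℝ := fun p => if p.Prime then Df n p * Real.log p else 0 with hg
  have hsplit : ∀ m l : ℕ, ∑ p ∈ (Finset.Ioc m l).filter Nat.Prime, Df n p * Real.log p =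
      ∑ p ∈ Finset.Ioc m l, g p := by
    intro m l; rw [Finset.sum_filter]
  have hIcc : Finset.Icc 1 n = Finset.Ioc 0 n := by ext x; simp [Nat.succ_le_iff]
  rw [hIcc, hsplit]
  have hfl : ∀ α β : ℝ, α ≤ β → ⌊α * (n : ℝ)⌋₊ ≤ ⌊β * (n : ℝ)⌋₊ := fun α β h =>
    Nat.floor_le_floor (mul_le_mul_of_nonneg_right h hn'.le)
  have hn1 : n = ⌊1 / ((1 : ℕ) : ℝ) * (n : ℝ)⌋₊ := by simp
  have a0 := sum_small n ⌊ε * n⌋₊ hn.ne'
  have a1 := sum_mid n hn ε (1 / 8) ε hε le_rfl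
  have a7 := RB_ge ε hε 7 n (by norm_num) (by norm_num; linarith) hn
  have a6 := RB_ge ε hε 6 n (by norm_num) (by norm_num; linarith) hn
  have a5 := RB_ge ε hε 5 n (by norm_num) (by norm_num; linarith) hn
  have a4 := RB_ge ε hε 4 n (by norm_num) (by norm_num; linarith) hn
  have a3 := RB_ge ε hε 3 n (by norm_num) (by norm_num; linarith) hn
  have a2 := RB_ge ε hε 2 n (by norm_num) (by norm_num; linarith) hn
  have a1' := RB_ge ε hε 1 n (by norm_num) (by norm_num; linarith) hn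
  have c7 : ((7 : ℕ) : ℝ) + 1 = 8 := by norm_num
  have c6 : ((6 : ℕ) : ℝ) + 1 = ((7 : ℕ) : ℝ) := by norm_num
  have c5 : ((5 : ℕ) : ℝ) + 1 = ((6 : ℕ) : ℝ) := by norm_num
  have c4 : ((4 : ℕ) : ℝ) + 1 = ((5 : ℕ) : ℝ) := by norm_num
  have c3 : ((3 : ℕ) : ℝ) + 1 = ((4 : ℕ) : ℝ) := by norm_num
  have c2 : ((2 : ℕ) : ℝ) + 1 = ((3 : ℕ) : ℝ) := by norm_num
  have c1 : ((1 : ℕ) : ℝ) + 1 = ((2 : ℕ) : ℝ) := by norm_num
  rw [c7] at a7
  rw [c6] at a6
  rw [c5] at a5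
  rw [c4] at a4
  rw [c3] at a3
  rw [c2] at a2
  rw [c1, ← hn1] at a1'
  rw [hsplit] at a0 a1 a7 a6 a5 a4 a3 a2 a1'
  have m0 : (0 : ℕ) ≤ ⌊ε * (n : ℝ)⌋₊ := Nat.zero_le _
  have m1 : ⌊ε * (n : ℝ)⌋₊ ≤ ⌊1 / 8 * (n : ℝ)⌋₊ := hfl _ _ hε8
  have m7 : ⌊1 / 8 * (n : ℝ)⌋₊ ≤ ⌊1 / ((7 : ℕ) : ℝ) * (n : ℝ)⌋₊ := hfl _ _ (by norm_num)
  have m6 : ⌊1 / ((7 : ℕ) : ℝ) * (n : ℝ)⌋₊ ≤ ⌊1 / ((6 : ℕ) : ℝ) * (n : ℝ)⌋₊ := hfl _ _ (by norm_num)
  have m5 : ⌊1 / ((6 : ℕ) : ℝ) * (n : ℝ)⌋₊ ≤ ⌊1 / ((5 : ℕ) : ℝ) * (n : ℝ)⌋₊ := hfl _ _ (by norm_num)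
  have m4 : ⌊1 / ((5 : ℕ) : ℝ) * (n : ℝ)⌋₊ ≤ ⌊1 / ((4 : ℕ) : ℝ) * (n : ℝ)⌋₊ := hfl _ _ (by norm_num)
  have m3 : ⌊1 / ((4 : ℕ) : ℝ) * (n : ℝ)⌋₊ ≤ ⌊1 / ((3 : ℕ) : ℝ) * (n : ℝ)⌋₊ := hfl _ _ (by norm_num)
  have m2 : ⌊1 / ((3 : ℕ) : ℝ) * (n : ℝ)⌋₊ ≤ ⌊1 / ((2 : ℕ) : ℝ) * (n : ℝ)⌋₊ := hfl _ _ (by norm_num)
  have m1' : ⌊1 / ((2 : ℕ) : ℝ) * (n : ℝ)⌋₊ ≤ n := by
    have := hfl (1 / ((2 : ℕ) : ℝ)) (1 / ((1 : ℕ) : ℝ)) (by norm_num)
    rwa [← hn1] at this
  rw [← Finset.sum_Ioc_consecutive g (m0.trans (m1.trans (m7.trans (m6.trans (m5.trans (m4.trans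
      (m3.trans m2))))))) m1',
    ← Finset.sum_Ioc_consecutive g (m0.trans (m1.trans (m7.trans (m6.trans (m5.trans (m4.trans
      m3)))))) m2,
    ← Finset.sum_Ioc_consecutive g (m0.trans (m1.trans (m7.trans (m6.trans (m5.trans m4))))) m3,
    ← Finset.sum_Ioc_consecutive g (m0.trans (m1.trans (m7.trans (m6.trans m5)))) m4,
    ← Finset.sum_Ioc_consecutive g (m0.trans (m1.trans (m7.trans m6))) m5,
    ← Finset.sum_Ioc_consecutive g (m0.trans (m1.trans m7)) m6,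
    ← Finset.sum_Ioc_consecutive g (m0.trans m1) m7,
    ← Finset.sum_Ioc_consecutive g m0 m1]
  unfold UB
  linarith

lemma tendsto_UB (ε : ℝ) (hε : 0 < ε) (hε8 : ε ≤ 1 / 8) :
    Tendsto (fun n : ℕ => UB ε n / n) atTop (𝓝 (ε + 1 / 8 + (Real.log 8 -
      (1 / 2 + 1 / 3 + 1 / 4 + 1 / 5 + 1 / 6 + 1 / 7 + 1 / 8)))) := by
  have h0 : Tendsto (fun n : ℕ => (2 * Chebyshev.theta (⌊ε * (n : ℝ)⌋₊ : ℕ) +
      Nat.sqrt n * Real.log n) / n) atTop (𝓝 (2 * ε)) := by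
    have e1 := ((tendsto_theta_mul ε hε.le).comp tendsto_natCast_atTop_atTop).const_mul 2
    have e2 : Tendsto (fun n : ℕ => (Nat.sqrt n * Real.log n) / (n : ℝ)) atTop (𝓝 0) := by
      have e3 : Tendsto (fun x : ℝ => Real.log x / x ^ (1 / 2 : ℝ)) atTop (𝓝 0) :=
        (isLittleO_log_rpow_atTop (by norm_num : (0 : ℝ) < 1 / 2)).tendsto_div_nhds_zero
      have e4 := e3.comp (tendsto_natCast_atTop_atTop (R := ℝ))
      refine squeeze_zero' (Eventually.of_forall fun n => ?_) ?_ e4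
      · exact div_nonneg (mul_nonneg (Nat.cast_nonneg _) (Real.log_natCast_nonneg n))
          (Nat.cast_nonneg _)
      · filter_upwards [eventually_gt_atTop 0] with n hn
        have hn' : (0 : ℝ) < n := by exact_mod_cast hn
        simp only [Function.comp]
        rw [← Real.sqrt_eq_rpow]
        have hs : (0 : ℝ) < √(n : ℝ) := Real.sqrt_pos.mpr hn'
        rw [div_le_div_iff₀ hn' hs]
        have h5 : (Nat.sqrt n : ℝ) ≤ √(n : ℝ) := Real.nat_sqrt_le_real_sqrt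
        have h6 : √(n : ℝ) * √(n : ℝ) = n := Real.mul_self_sqrt hn'.le
        have h7 : 0 ≤ Real.log n := Real.log_natCast_nonneg n
        have h8 : (Nat.sqrt n : ℝ) * √(n : ℝ) ≤ n := by
          calc (Nat.sqrt n : ℝ) * √(n : ℝ) ≤ √(n : ℝ) * √(n : ℝ) :=
                mul_le_mul_of_nonneg_right h5 hs.le
            _ = n := h6
        calc (Nat.sqrt n : ℝ) * Real.log n * √(n : ℝ) = (Nat.sqrt n * √(n : ℝ)) * Real.log n := by ring
          _ ≤ n * Real.log n := mul_le_mul_of_nonneg_right h8 h7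
          _ = Real.log n * n := by ring
    have e5 := e1.add e2
    rw [add_zero] at e5
    refine e5.congr fun n => ?_
    simp only [Function.comp]
    ring
  have h1 : Tendsto (fun n : ℕ => ((1 + 2 / (ε ^ 2 * n)) *
      PS (fun _ => 1) (n : ℝ) ⌊ε * n⌋₊ ⌊1 / 8 * (n : ℝ)⌋₊) / n) atTop (𝓝 (1 / 8 - ε)) := by
    have e1 := (tendsto_PS_one ε (1 / 8) hε.le hε8).comp tendsto_natCast_atTop_atTop
    have e2 := e1.add (tendsto_small_term ε hε ε (1 / 8) hε.le hε8)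
    rw [add_zero] at e2
    refine e2.congr fun n => ?_
    simp only [Function.comp]
    ring
  have h7 := tendsto_RB ε hε 7 (by norm_num)
  have h6 := tendsto_RB ε hε 6 (by norm_num)
  have h5 := tendsto_RB ε hε 5 (by norm_num)
  have h4 := tendsto_RB ε hε 4 (by norm_num)
  have h3 := tendsto_RB ε hε 3 (by norm_num)
  have h2 := tendsto_RB ε hε 2 (by norm_num)
  have h1' := tendsto_RB ε hε 1 (by norm_num)
  have H := (h0.add h1).add ((((((h7.add h6).add h5).add h4).add h3).add h2).add h1')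
  have hlim : 2 * ε + (1 / 8 - ε) + (Real.log (((7 : ℕ) : ℝ) + 1) - Real.log ((7 : ℕ) : ℝ) -
        1 / (((7 : ℕ) : ℝ) + 1) +
      (Real.log (((6 : ℕ) : ℝ) + 1) - Real.log ((6 : ℕ) : ℝ) - 1 / (((6 : ℕ) : ℝ) + 1)) +
      (Real.log (((5 : ℕ) : ℝ) + 1) - Real.log ((5 : ℕ) : ℝ) - 1 / (((5 : ℕ) : ℝ) + 1)) +
      (Real.log (((4 : ℕ) : ℝ) + 1) - Real.log ((4 : ℕ) : ℝ) - 1 / (((4 : ℕ) : ℝ) + 1)) +
      (Real.log (((3 : ℕ) : ℝ) + 1) - Real.log ((3 : ℕ) : ℝ) - 1 / (((3 : ℕ) : ℝ) + 1)) +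
      (Real.log (((2 : ℕ) : ℝ) + 1) - Real.log ((2 : ℕ) : ℝ) - 1 / (((2 : ℕ) : ℝ) + 1)) +
      (Real.log (((1 : ℕ) : ℝ) + 1) - Real.log ((1 : ℕ) : ℝ) - 1 / (((1 : ℕ) : ℝ) + 1))) =
      ε + 1 / 8 + (Real.log 8 - (1 / 2 + 1 / 3 + 1 / 4 + 1 / 5 + 1 / 6 + 1 / 7 + 1 / 8)) := by
    have c7 : ((7 : ℕ) : ℝ) + 1 = 8 := by norm_num
    have c6 : ((6 : ℕ) : ℝ) + 1 = 7 := by norm_num
    have c5 : ((5 : ℕ) : ℝ) + 1 = 6 := by norm_num
    have c4 : ((4 : ℕ) : ℝ) + 1 = 5 := by norm_num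
    have c3 : ((3 : ℕ) : ℝ) + 1 = 4 := by norm_num
    have c2 : ((2 : ℕ) : ℝ) + 1 = 3 := by norm_num
    have c1 : ((1 : ℕ) : ℝ) + 1 = 2 := by norm_num
    rw [c7, c6, c5, c4, c3, c2, c1]
    have d7 : ((7 : ℕ) : ℝ) = 7 := by norm_num
    have d6 : ((6 : ℕ) : ℝ) = 6 := by norm_num
    have d5 : ((5 : ℕ) : ℝ) = 5 := by norm_num
    have d4 : ((4 : ℕ) : ℝ) = 4 := by norm_num
    have d3 : ((3 : ℕ) : ℝ) = 3 := by norm_num
    have d2 : ((2 : ℕ) : ℝ) = 2 := by norm_num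
    have d1 : ((1 : ℕ) : ℝ) = 1 := by norm_num
    rw [d7, d6, d5, d4, d3, d2, d1, Real.log_one]
    ring
  rw [hlim] at H
  refine H.congr fun n => ?_
  unfold UB
  ring

/-- M7a -/
theorem m7a : M7a := by
  intro ε₀ hε₀
  set ε := min ε₀ (1 / 8) with hεdef
  have hε : 0 < ε := lt_min hε₀ (by norm_num)
  have hε8 : ε ≤ 1 / 8 := min_le_right _ _
  have hεε : ε ≤ ε₀ := min_le_left _ _
  have h1 := tendsto_UB ε hε hε8
  -- the factorial part
  have h2 : Tendsto (fun n : ℕ => (((n : ℝ) + 1) * Real.log (n + 1) - n) / n - Real.log n)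
      atTop (𝓝 (-1)) := by
    have e1 : Tendsto (fun n : ℕ => Real.log ((n : ℝ) + 1) / n) atTop (𝓝 0) := by
      have e3 : Tendsto (fun x : ℝ => Real.log x / x) atTop (𝓝 0) := by
        simpa using (Real.isLittleO_log_id_atTop).tendsto_div_nhds_zero
      have e4 : Tendsto (fun n : ℕ => ((n : ℝ) + 1)) atTop atTop :=
        tendsto_atTop_add_const_right _ _ tendsto_natCast_atTop_atTop
      have e5 := e3.comp e4
      have e6 : Tendsto (fun n : ℕ => 2 * (Real.log ((n : ℝ) + 1) / ((n : ℝ) + 1))) atTop (𝓝 0) := by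
        simpa using e5.const_mul 2
      refine squeeze_zero' (Eventually.of_forall fun n => ?_) ?_ e6
      · exact div_nonneg (Real.log_nonneg (by linarith [Nat.cast_nonneg (α := ℝ) n]))
          (Nat.cast_nonneg _)
      · filter_upwards [eventually_ge_atTop 1] with n hn
        have hn' : (1 : ℝ) ≤ n := by exact_mod_cast hn
        have hl : 0 ≤ Real.log ((n : ℝ) + 1) := Real.log_nonneg (by linarith)
        rw [← mul_div_assoc, div_le_div_iff₀ (by linarith) (by linarith)]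
        nlinarith
    have e2 : Tendsto (fun n : ℕ => Real.log ((n : ℝ) + 1) - Real.log n) atTop (𝓝 0) := by
      have e3 : Tendsto (fun n : ℕ => 1 / (n : ℝ)) atTop (𝓝 0) := tendsto_one_div_atTop_nhds_zero_nat
      refine squeeze_zero' ?_ ?_ e3
      · filter_upwards [eventually_ge_atTop 1] with n hn
        have hn' : (1 : ℝ) ≤ n := by exact_mod_cast hn
        rw [sub_nonneg]
        exact Real.log_le_log (by linarith) (by linarith)
      · filter_upwards [eventually_ge_atTop 1] with n hn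
        have hn' : (1 : ℝ) ≤ n := by exact_mod_cast hn
        rw [← Real.log_div (by linarith) (by linarith)]
        have := Real.log_le_sub_one_of_pos (show (0 : ℝ) < (n + 1) / n by positivity)
        refine this.trans (le_of_eq ?_)
        field_simp
        ring
    have e3 := (e1.add e2).add_const (-1 : ℝ)
    rw [add_zero, zero_add] at e3
    refine e3.congr' ?_
    filter_upwards [eventually_gt_atTop 0] with n hn
    have hn' : (n : ℝ) ≠ 0 := by exact_mod_cast hn.ne'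
    field_simp
    ring
  have h3 := h1.add h2
  have hnum : ε + 1 / 8 + (Real.log 8 - (1 / 2 + 1 / 3 + 1 / 4 + 1 / 5 + 1 / 6 + 1 / 7 + 1 / 8)) +
      -1 < -51 / 100 + ε₀ := by
    have h8 : Real.log 8 = 3 * Real.log 2 := by
      rw [show (8 : ℝ) = 2 ^ 3 by norm_num, Real.log_pow]; norm_num
    have := Real.log_two_lt_d9
    rw [h8]
    linarith
  have h4 := h3.eventually_lt_const hnum
  rw [eventually_atTop] at h4
  obtain ⟨n₀, hn₀⟩ := h4
  refine ⟨max n₀ 1, fun n hn => ?_⟩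
  have hn0 : n₀ ≤ n := (le_max_left _ _).trans hn
  have hn1 : 0 < n := (le_max_right n₀ 1).trans hn
  have hn' : (0 : ℝ) < n := by exact_mod_cast hn1
  have h5 := hn₀ n hn0
  have h6 : (n : ℝ) * ∑ p ∈ (Finset.Icc 1 n).filter Nat.Prime, Real.log p / ((p : ℝ) - 1) =
      Real.log (n.factorial : ℝ) + ∑ p ∈ (Finset.Icc 1 n).filter Nat.Prime, Df n p * Real.log p := by
    rw [log_factorial_eq, ← Finset.sum_add_distrib, Finset.mul_sum]
    refine Finset.sum_congr rfl fun p _ => ?_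
    unfold Df
    ring
  have h7 := sum_Df_le ε hε hε8 n hn1
  have h8 := log_factorial_le n
  have h9 : ∑ p ∈ (Finset.Icc 1 n).filter Nat.Prime, Real.log p / ((p : ℝ) - 1) ≤
      UB ε n / n + (((n : ℝ) + 1) * Real.log (n + 1) - n) / n := by
    rw [← add_div, le_div_iff₀ hn', mul_comm, h6]
    linarith
  linarith

end Z579
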