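import Pool.Agent.Lib.Z579.Defs
import Pool.Agent.Lib.PNT.Theta

/-!
# M7b: Riemann-Stieltjes limits from the prime number theorem
-/

open Filter Topology Finset MeasureTheory

namespace Z579

/-- the weighted prime sum -/
noncomputable def PS (f : ℝ → ℝ) (x : ℝ) (m n : ℕ) : ℝ :=
  ∑ p ∈ (Finset.Ioc m n).filter Nat.Prime, f (p / x) * Real.log p

lemma PS_add (f : ℝ → ℝ) (x : ℝ) {l m n : ℕ} (hlm : l ≤ m) (hmn : m ≤ n) :
    PS f x l n = PS f x l m + PS f x m n := by
  unfold PS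
  rw [Finset.sum_filter, Finset.sum_filter, Finset.sum_filter, Finset.sum_Ioc_consecutive _ hlm hmn]

lemma PS_one (x : ℝ) (m n : ℕ) (hmn : m ≤ n) :
    PS (fun _ => 1) x m n = Chebyshev.theta n - Chebyshev.theta m := by
  have h := PS_add (fun _ => 1) x (Nat.zero_le m) hmn
  have h2 : ∀ k : ℕ, PS (fun _ => 1) x 0 k = Chebyshev.theta k := by
    intro k
    unfold PS Chebyshev.theta
    simp
  rw [h2, h2] at h
  linarith

lemma tendsto_theta_mul (α : ℝ) (hα : 0 ≤ α) :
    Tendsto (fun x : ℝ => Chebyshev.theta (⌊α * x⌋₊ : ℕ) / x) atTop (𝓝 α) := by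
  simp_rw [← Chebyshev.theta_eq_theta_coe_floor]
  rcases hα.eq_or_lt with h | h
  · rw [← h]
    simp
  · have h1 : Tendsto (fun x : ℝ => α * x) atTop atTop := tendsto_id.const_mul_atTop h
    have h2 := (PNT.theta_tendsto.comp h1).const_mul α
    rw [mul_one] at h2
    refine h2.congr' ?_
    filter_upwards [eventually_gt_atTop 0] with x hx
    simp only [Function.comp]
    field_simp

lemma tendsto_PS_one (α β : ℝ) (hα : 0 ≤ α) (hβ : α ≤ β) :
    Tendsto (fun x : ℝ => PS (fun _ => 1) x ⌊α * x⌋₊ ⌊β * x⌋₊ / x) atTop (𝓝 (β - α)) := by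
  have h := (tendsto_theta_mul β (hα.trans hβ)).sub (tendsto_theta_mul α hα)
  refine h.congr' ?_
  filter_upwards [eventually_ge_atTop 0] with x hx
  rw [PS_one _ _ _ (Nat.floor_le_floor (mul_le_mul_of_nonneg_right hβ hx))]
  ring

/-- one piece -/
lemma PS_piece (f : ℝ → ℝ) (c ε α β x : ℝ) (hα : 0 ≤ α) (hβ : α ≤ β) (hx : 0 < x)
    (hf : ∀ t ∈ Set.Icc α β, |f t - c| ≤ ε) :
    |PS f x ⌊α * x⌋₊ ⌊β * x⌋₊ - c * PS (fun _ => 1) x ⌊α * x⌋₊ ⌊β * x⌋₊| ≤
      ε * PS (fun _ => 1) x ⌊α * x⌋₊ ⌊β * x⌋₊ := by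
  unfold PS
  rw [Finset.mul_sum, ← Finset.sum_sub_distrib, Finset.mul_sum]
  refine (Finset.abs_sum_le_sum_abs _ _).trans (Finset.sum_le_sum ?_)
  intro p hp
  rw [Finset.mem_filter, Finset.mem_Ioc] at hp
  obtain ⟨⟨h1, h2⟩, hpp⟩ := hp
  have hlog : 0 ≤ Real.log p := Real.log_natCast_nonneg p
  have h3 : α * x < p := by
    have := Nat.lt_of_floor_lt h1
    exact_mod_cast this
  have h4 : (p : ℝ) ≤ β * x := by
    have h5 : 0 ≤ β * x := mul_nonneg (hα.trans hβ) hx.le
    exact (Nat.le_floor_iff h5).mp h2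
  have h5 : (p : ℝ) / x ∈ Set.Icc α β := by
    constructor
    · rw [le_div_iff₀ hx]; exact h3.le
    · rw [div_le_iff₀ hx]; exact h4
  have h6 := hf _ h5
  have h7 : f (p / x) * Real.log p - c * (1 * Real.log p) = (f (p / x) - c) * Real.log p := by ring
  rw [h7, abs_mul, abs_of_nonneg hlog, one_mul]
  exact mul_le_mul_of_nonneg_right h6 hlog

lemma integral_piece (f : ℝ → ℝ) (c ε α β : ℝ) (hβ : α ≤ β)
    (hc : ContinuousOn f (Set.Icc α β))
    (hf : ∀ t ∈ Set.Icc α β, |f t - c| ≤ ε) :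
    |(∫ t in α..β, f t) - c * (β - α)| ≤ ε * (β - α) := by
  have h1 : (∫ t in α..β, f t) - c * (β - α) = ∫ t in α..β, (f t - c) := by
    rw [intervalIntegral.integral_sub]
    · rw [intervalIntegral.integral_const, smul_eq_mul]; ring
    · exact ContinuousOn.intervalIntegrable (by rwa [Set.uIcc_of_le hβ])
    · exact intervalIntegrable_const
  rw [h1]
  have h2 := intervalIntegral.norm_integral_le_of_norm_le_const (a := α) (b := β) (C := ε)
    (f := fun t => f t - c) (by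
      intro t ht
      rw [Set.uIoc_of_le hβ] at ht
      exact hf t ⟨ht.1.le, ht.2⟩)
  rw [abs_of_nonneg (sub_nonneg.mpr hβ)] at h2
  exact h2

lemma PS_step (f : ℝ → ℝ) (ε : ℝ) (hε : 0 < ε) (α β γ : ℝ) (hα : 0 ≤ α) (hβ : α ≤ β) (hγ : β ≤ γ)
    (hc : ContinuousOn f (Set.Icc α γ)) (E : ℝ)
    (hosc : ∀ t ∈ Set.Icc β γ, |f t - f β| ≤ ε)
    (h : ∀ᶠ x : ℝ in atTop, |PS f x ⌊α * x⌋₊ ⌊β * x⌋₊ / x - ∫ t in α..β, f t| ≤ E) (δ : ℝ)
    (hδ : 0 < δ) :
    ∀ᶠ x : ℝ in atTop, |PS f x ⌊α * x⌋₊ ⌊γ * x⌋₊ / x - ∫ t in α..γ, f t| ≤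
      E + 2 * ε * (γ - β) + δ := by
  have h1 := tendsto_PS_one β γ (hα.trans hβ) hγ
  have hK : 0 < |f β| + ε + 1 := by positivity
  have hd : 0 < δ / (|f β| + ε + 1) := div_pos hδ hK
  have h2 := (Metric.tendsto_nhds.mp h1) _ hd
  filter_upwards [h, h2, eventually_gt_atTop 0] with x hx1 hx2 hx
  rw [Real.dist_eq] at hx2
  have hfl1 : ⌊α * x⌋₊ ≤ ⌊β * x⌋₊ := Nat.floor_le_floor (mul_le_mul_of_nonneg_right hβ hx.le)
  have hfl2 : ⌊β * x⌋₊ ≤ ⌊γ * x⌋₊ := Nat.floor_le_floor (mul_le_mul_of_nonneg_right hγ hx.le)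
  rw [PS_add f x hfl1 hfl2, add_div]
  have hi1 : IntervalIntegrable f volume α β :=
    (hc.mono (by rw [Set.uIcc_of_le hβ]; exact Set.Icc_subset_Icc_right hγ)).intervalIntegrable
  have hi2 : IntervalIntegrable f volume β γ :=
    (hc.mono (by rw [Set.uIcc_of_le hγ]; exact Set.Icc_subset_Icc_left hβ)).intervalIntegrable
  rw [← intervalIntegral.integral_add_adjacent_intervals hi1 hi2]
  have hp := PS_piece f (f β) ε β γ x (hα.trans hβ) hγ hx hosc
  have hq := integral_piece f (f β) ε β γ hγ (hc.mono (Set.Icc_subset_Icc_left hβ)) hosc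
  set A := PS f x ⌊α * x⌋₊ ⌊β * x⌋₊ / x
  set B := PS f x ⌊β * x⌋₊ ⌊γ * x⌋₊
  set D := PS (fun _ => 1) x ⌊β * x⌋₊ ⌊γ * x⌋₊
  set I1 := ∫ t in α..β, f t
  set I2 := ∫ t in β..γ, f t
  have hp' : |B / x - f β * (D / x)| ≤ ε * (D / x) := by
    have : B / x - f β * (D / x) = (B - f β * D) / x := by ring
    rw [this, abs_div, abs_of_pos hx, div_le_iff₀ hx]
    calc |B - f β * D| ≤ ε * D := hp
      _ = ε * (D / x) * x := by field_simp
  have h3 : A + B / x - (I1 + I2) = (A - I1) + (B / x - f β * (D / x)) +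
      f β * (D / x - (γ - β)) - (I2 - f β * (γ - β)) := by ring
  rw [h3]
  have h4 : |f β * (D / x - (γ - β))| ≤ |f β| * (δ / (|f β| + ε + 1)) := by
    rw [abs_mul]
    exact mul_le_mul_of_nonneg_left hx2.le (abs_nonneg _)
  have h5 : D / x ≤ (γ - β) + δ / (|f β| + ε + 1) := by
    have := (abs_lt.mp hx2).2
    linarith
  have h6 : |(A - I1) + (B / x - f β * (D / x)) + f β * (D / x - (γ - β)) - (I2 - f β * (γ - β))| ≤
      |A - I1| + |B / x - f β * (D / x)| + |f β * (D / x - (γ - β))| + |I2 - f β * (γ - β)| := by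
    refine (abs_sub _ _).trans (add_le_add_left ?_ _)
    refine (abs_add_le _ _).trans (add_le_add_left ?_ _)
    exact abs_add_le _ _
  refine h6.trans ?_
  have h7 : ε * (D / x) ≤ ε * (γ - β) + ε * (δ / (|f β| + ε + 1)) := by
    rw [← mul_add]
    exact mul_le_mul_of_nonneg_left h5 hε.le
  have h8 : (|f β| + ε + 1) * (δ / (|f β| + ε + 1)) = δ := by field_simp
  have h9 : 0 ≤ δ / (|f β| + ε + 1) := hd.le
  nlinarith [h4, hp', hq, hx1]

/-- M7b -/
theorem m7b : M7b := by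
  intro α β f hα hβ hc
  rw [Metric.tendsto_nhds]
  intro η hη
  rcases hβ.eq_or_lt with hab | hab
  · subst hab
    simp only [Finset.Ioc_self, Finset.filter_empty, Finset.sum_empty, zero_div,
      intervalIntegral.integral_same, dist_self]
    exact Eventually.of_forall fun _ => hη
  have hL : 0 < β - α := sub_pos.mpr hab
  -- uniform continuity
  have hu := isCompact_Icc.uniformContinuousOn_of_continuous hc
  rw [Metric.uniformContinuousOn_iff] at hu
  set ε := η / (8 * (β - α)) with hεdef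
  have hε : 0 < ε := by positivity
  obtain ⟨ρ, hρ, hρ2⟩ := hu ε hε
  obtain ⟨K, hK⟩ := exists_nat_gt ((β - α) / ρ)
  have hK0 : 0 < K := by
    rcases Nat.eq_zero_or_pos K with h | h
    · rw [h, Nat.cast_zero] at hK
      exact absurd hK (not_lt.mpr (div_nonneg hL.le hρ.le))
    · exact h
  have hKr : (0 : ℝ) < K := by exact_mod_cast hK0
  set h := (β - α) / K with hh
  have hh0 : 0 < h := div_pos hL hKr
  have hhρ : h < ρ := by
    rw [hh, div_lt_iff₀ hKr]
    rwa [div_lt_iff₀ hρ, mul_comm] at hK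
  have hKh : K * h = β - α := by rw [hh]; field_simp
  have key : ∀ k : ℕ, k ≤ K → ∀ δ : ℝ, 0 < δ → ∀ᶠ x : ℝ in atTop,
      |PS f x ⌊α * x⌋₊ ⌊(α + k * h) * x⌋₊ / x - ∫ t in α..(α + k * h), f t| ≤
        2 * ε * (k * h) + k * δ := by
    intro k
    induction k with
    | zero =>
      intro _ δ hδ
      refine Eventually.of_forall fun x => ?_
      simp [PS]
    | succ k ih =>
      intro hk δ hδ
      have hk' : k ≤ K := (Nat.le_succ k).trans hk
      have h1 := ih hk' δ hδ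
      have hkh : (k : ℝ) * h ≤ (k + 1) * h := by nlinarith
      have hk1 : ((k : ℝ) + 1) * h ≤ β - α := by
        rw [← hKh]
        exact mul_le_mul_of_nonneg_right (by exact_mod_cast hk) hh0.le
      have hk0 : 0 ≤ (k : ℝ) * h := mul_nonneg (Nat.cast_nonneg k) hh0.le
      have h2 := PS_step f ε hε α (α + k * h) (α + (k + 1) * h) hα (by linarith) (by linarith)
        (hc.mono (Set.Icc_subset_Icc_right (by linarith))) _ (by
          intro t ht
          have ht1 : t ∈ Set.Icc α β := ⟨by linarith [ht.1], by linarith [ht.2]⟩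
          have ht2 : α + k * h ∈ Set.Icc α β := ⟨by linarith, by linarith⟩
          have := hρ2 t ht1 _ ht2 (by
            rw [Real.dist_eq, abs_of_nonneg (by linarith [ht.1])]
            have : t ≤ α + (k + 1) * h := ht.2
            nlinarith)
          rw [Real.dist_eq] at this
          exact this.le) h1 δ hδ
      push_cast
      filter_upwards [h2] with x hx
      refine hx.trans (le_of_eq ?_)
      ring
  have hfin := key K le_rfl (η / (4 * K)) (by positivity)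
  rw [hKh] at hfin
  filter_upwards [hfin] with x hx
  rw [Real.dist_eq]
  have e1 : α + (β - α) = β := by ring
  rw [e1] at hx
  have e2 : PS f x ⌊α * x⌋₊ ⌊β * x⌋₊ = ∑ p ∈ (Finset.Ioc ⌊α * x⌋₊ ⌊β * x⌋₊).filter Nat.Prime,
    f (p / x) * Real.log p := rfl
  rw [← e2]
  refine hx.trans_lt ?_
  have e3 : 2 * ε * (β - α) = η / 4 := by rw [hεdef]; field_simp; ring
  have e4 : (K : ℝ) * (η / (4 * K)) = η / 4 := by field_simp
  rw [e3, e4]
  linarith

end Z579
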