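import Pool.Agent.Lib.Z579.Local3

/-!
# Nonvanishing of the Hankel determinant at a special prime
-/

open Polynomial Finset

namespace Z579

section
variable {p : ℕ} [hp : Fact p.Prime]

/-- residue constant attached to a class -/
noncomputable def Kc (p : ℕ) [Fact p.Prime] (q B a b : ℕ) (D : Finset ℤ) (n : ℤ → ℕ) (c : ℤ) :
    ZMod p :=
  (2 * (-(c : ZMod p)) * (∏ w ∈ (oc a b).erase (c + p), ((w : ZMod p) - c)) ^ B *
    ((∏ w ∈ ((pc a).erase c).erase (c - p), ((w : ZMod p) - c))⁻¹) ^ q) *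
    ((-2 * (c : ZMod p)) ^ (n c) * ∏ d ∈ D.erase c, ((c : ZMod p) ^ 2 - d ^ 2) ^ (n d))

/-- geometry of the two-pole classes -/
structure Geo (p a b : ℕ) (c : ℤ) : Prop where
  hb : 2 * b = 3 * p + 1
  ha : a ≤ p
  hab : a ≤ b
  c1 : (p : ℤ) - a + 1 ≤ c
  c2 : 2 * c ≤ p - 1

lemma Geo.pos {a b : ℕ} {c : ℤ} (h : Geo p a b c) : 0 < c := by
  have := h.c1; have := h.ha; omega

lemma Geo.c_lt {a b : ℕ} {c : ℤ} (h : Geo p a b c) : c < p := by
  have := h.c2; have := h.pos; omega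

lemma Geo.a_pos {a b : ℕ} {c : ℤ} (h : Geo p a b c) : 1 ≤ a := by
  have := h.c1; have := h.c_lt; omega

/-- elements `w ≡ c (mod p)`, `|w| ≤ b-1` are `c-p, c, c+p` -/
lemma Geo.cases {a b : ℕ} {c : ℤ} (h : Geo p a b c) {w : ℤ} (hw1 : 1 - (b : ℤ) ≤ w)
    (hw2 : w ≤ (b : ℤ) - 1) (hd : ((w - c : ℤ) : ZMod p) = 0) : w = c - p ∨ w = c ∨ w = c + p := by
  rw [ZMod.intCast_zmod_eq_zero_iff_dvd] at hd
  obtain ⟨k, hk⟩ := hd
  have h1 := h.pos
  have h2 := h.c2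
  have h3 := h.hb
  have h4 := h.c_lt
  have hk1 : -2 < k := by
    by_contra hcc
    push Not at hcc
    have : (p : ℤ) * k ≤ p * (-2) := mul_le_mul_of_nonneg_left hcc (by positivity)
    omega
  have hk2 : k < 2 := by
    by_contra hcc
    push Not at hcc
    have : (p : ℤ) * 2 ≤ p * k := mul_le_mul_of_nonneg_left hcc (by positivity)
    omega
  interval_cases k
  · left; omega
  · right; left; omega
  · right; right; omega

lemma Geo.mem_c {a b : ℕ} {c : ℤ} (h : Geo p a b c) : c ∈ pc a := by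
  rw [mem_pc]; have := h.c1; have := h.c2; have := h.pos; omega

lemma Geo.mem_cp {a b : ℕ} {c : ℤ} (h : Geo p a b c) : c - p ∈ pc a := by
  rw [mem_pc]; have := h.c1; have := h.c2; have := h.pos; omega

lemma Geo.mem_o {a b : ℕ} {c : ℤ} (h : Geo p a b c) : c + p ∈ oc a b := by
  rw [mem_oc]; right; have := h.c1; have := h.c2; have := h.pos; have := h.hb; have := h.ha
  constructor <;> omega

lemma Geo.ho {a b : ℕ} {c : ℤ} (h : Geo p a b c) :
    ∀ w ∈ (oc a b).erase (c + p), ((w - c : ℤ) : ZMod p) ≠ 0 := by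
  intro w hw h0
  rw [Finset.mem_erase, mem_oc] at hw
  have h1 := h.c1; have h2 := h.c2; have h3 := h.pos; have h4 := h.hb; have h5 := h.ha
  rcases h.cases (by omega) (by omega) h0 with h6 | h6 | h6
  · omega
  · omega
  · exact hw.1 h6

lemma Geo.hi {a b : ℕ} {c : ℤ} (h : Geo p a b c) :
    ∀ w ∈ ((pc a).erase c).erase (c - p), ((w - c : ℤ) : ZMod p) ≠ 0 := by
  intro w hw h0
  rw [Finset.mem_erase, Finset.mem_erase, mem_pc] at hw
  have h1 := h.c1; have h2 := h.c2; have h3 := h.pos; have h4 := h.hb; have h5 := h.ha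
  have h7 := h.hab
  rcases h.cases (by omega) (by omega) h0 with h6 | h6 | h6
  · exact hw.1 h6
  · exact hw.2.1 h6
  · omega

lemma cast_sub_p (w c : ℤ) : ((w - (c - p) : ℤ) : ZMod p) = (w : ZMod p) - c := by
  push_cast; simp

/-- coefficients at the pole `c` -/
lemma Acoef_c {q B a b : ℕ} {D : Finset ℤ} {n : ℤ → ℕ} {c : ℤ} (h : Geo p a b c) (hc : c ∈ D)
    {i : ℕ} (hiq : i ≤ q) :
    ∃ x : ℚ, Acoef q B a b c i (PolyN D n) = (p : ℚ) ^ ((n c : ℤ) + B + i - 2 * q) * x ∧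
      red p x (Kc p q B a b D n c * alp p q B (n c) (q - i)) := by
  have hpp := hp.out.pos
  obtain ⟨x, hx1, hx2⟩ := Acoef_two (p := p) (q := q) (B := B) (a := a) (b := b) (n := n)
    (c := c) (u := c) (w1 := c - p) (w2 := c + p) (l0 := 0) (l1 := -1) (l2 := 1) hc
    (by ring) (Finset.mem_erase.2 ⟨by omega, h.mem_cp⟩) h.mem_o (by ring) (by ring)
    neg_one_ne h.ho h.hi hiq
  refine ⟨x, hx1, ?_⟩
  rw [PowerSeries.coeff_C_mul] at hx2
  have hK : Kc p q B a b D n c = 2 * ((-c : ℤ) : ZMod p) *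
      (∏ w ∈ (oc a b).erase (c + p), ((w - c : ℤ) : ZMod p)) ^ B *
      ((∏ w ∈ ((pc a).erase c).erase (c - p), ((w - c : ℤ) : ZMod p))⁻¹) ^ q *
      (((-c - c : ℤ) : ZMod p) ^ n c *
        ∏ d ∈ D.erase c, (((-c - d) * (-c + d) : ℤ) : ZMod p) ^ n d) := by
    rw [Kc]
    push_cast
    congr 1
    congr 1
    · ring
    · refine Finset.prod_congr rfl fun d _ => ?_
      ring
  rw [hK, alp]
  exact hx2

/-- coefficients at the pole `c - p` -/
lemma Acoef_cp {q B a b : ℕ} {D : Finset ℤ} {n : ℤ → ℕ} {c : ℤ} (h : Geo p a b c) (hc : c ∈ D)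
    {i : ℕ} (hiq : i ≤ q) :
    ∃ x : ℚ, Acoef q B a b (c - p) i (PolyN D n) = (p : ℚ) ^ ((n c : ℤ) + B + i - 2 * q) * x ∧
      red p x (Kc p q B a b D n c * bep p q B (n c) (q - i)) := by
  have hpp := hp.out.pos
  have ho' : ∀ w ∈ (oc a b).erase (c + p), ((w - (c - p) : ℤ) : ZMod p) ≠ 0 := by
    intro w hw
    rw [cast_sub_p]
    have := h.ho w hw
    push_cast at this
    exact this
  have hi' : ∀ w ∈ ((pc a).erase (c - p)).erase c, ((w - (c - p) : ℤ) : ZMod p) ≠ 0 := by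
    intro w hw
    rw [cast_sub_p]
    rw [Finset.erase_right_comm] at hw
    have := h.hi w hw
    push_cast at this
    exact this
  obtain ⟨x, hx1, hx2⟩ := Acoef_two (p := p) (q := q) (B := B) (a := a) (b := b) (n := n)
    (c := c) (u := c - p) (w1 := c) (w2 := c + p) (l0 := 1) (l1 := 1) (l2 := 2) hc
    (by ring) (Finset.mem_erase.2 ⟨by omega, h.mem_c⟩) h.mem_o (by ring) (by ring)
    one_ne ho' hi' hiq
  · refine ⟨x, hx1, ?_⟩
    rw [PowerSeries.coeff_C_mul] at hx2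
    have hK : Kc p q B a b D n c = 2 * ((-(c - p) : ℤ) : ZMod p) *
        (∏ w ∈ (oc a b).erase (c + p), ((w - (c - p) : ℤ) : ZMod p)) ^ B *
        ((∏ w ∈ ((pc a).erase (c - p)).erase c, ((w - (c - p) : ℤ) : ZMod p))⁻¹) ^ q *
        (((-(c - p) - c : ℤ) : ZMod p) ^ n c *
          ∏ d ∈ D.erase c, (((-(c - p) - d) * (-(c - p) + d) : ℤ) : ZMod p) ^ n d) := by
      rw [Kc, Finset.erase_right_comm (a := c) (b := c - p)]
      simp only [cast_sub_p]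
      push_cast
      simp only [CharP.cast_eq_zero, sub_zero]
      congr 1
      congr 1
      · ring
      · refine Finset.prod_congr rfl fun d _ => ?_
        ring
    rw [hK, bep]
    exact hx2


/-- contribution of one pole -/
noncomputable def Su (r q B a b : ℕ) (ω : ℤ → ℕ → ℚ) (u : ℤ) (G : ℚ[X]) : ℚ :=
  ∑ i ∈ Finset.Icc 1 q, ((Nat.choose (i + r - 1) r : ℚ) * ω u i) * Acoef q B a b u i G

lemma Lw_eq_sum_Su (r q B a b : ℕ) (ω : ℤ → ℕ → ℚ) (G : ℚ[X]) :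
    Lw r q B a b ω G = ∑ u ∈ pc a, Su r q B a b ω u G := Lw_apply _ _ _ _ _ _ _

lemma Su_single {r q B a b τ : ℕ} {ω : ℤ → ℕ → ℚ} {u : ℤ} {D : Finset ℤ} {n : ℤ → ℕ}
    (hs : ∀ w ∈ (pc a).erase u, ((w - u : ℤ) : ZMod p) ≠ 0)
    (hω : ∀ i, ∃ y, red p (ω u i) y) (hτ : τ ≠ 0) :
    red p ((p : ℚ) ^ τ * Su r q B a b ω u (PolyN D n)) 0 := by
  have h : ∀ i ∈ Finset.Icc 1 q, ∃ y, red p (((Nat.choose (i + r - 1) r : ℚ) * ω u i) *
      Acoef q B a b u i (PolyN D n)) y := by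
    intro i _
    obtain ⟨y1, h1⟩ := hω i
    obtain ⟨y2, h2⟩ := red_Acoef_single (q := q) (B := B) (b := b) (D := D) (n := n) hs i
    exact ⟨_, red_mul (red_mul (red_nat _) h1) h2⟩
  choose! f hf using h
  exact red_ppow_mul (red_sum _ _ _ hf) hτ

lemma term_eq {r q B τ e k nc i C : ℕ} {w x s A : ℚ} (he : e + B = r + 2 * q)
    (hk : nc + τ = e + k) (hA : A = s * ((p : ℚ) ^ ((nc : ℤ) + B + i - 2 * q) * x)) :
    (p : ℚ) ^ τ * (((C : ℚ) * w) * A) =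
      (p : ℚ) ^ k * (((C : ℚ) * ((p : ℚ) ^ (i + r) * w)) * (s * x)) := by
  have hp0 : (p : ℚ) ≠ 0 := by exact_mod_cast hp.out.ne_zero
  rw [hA]
  have h1 : (p : ℚ) ^ τ * (p : ℚ) ^ ((nc : ℤ) + B + i - 2 * q) =
      (p : ℚ) ^ k * (p : ℚ) ^ (i + r) := by
    rw [← zpow_natCast (p : ℚ) τ, ← zpow_natCast (p : ℚ) k, ← zpow_natCast (p : ℚ) (i + r),
      ← zpow_add₀ hp0, ← zpow_add₀ hp0]
    congr 1
    push_cast
    have h2 : (nc : ℤ) + τ = e + k := by exact_mod_cast hk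
    have h3 : (e : ℤ) + B = r + 2 * q := by exact_mod_cast he
    linarith
  calc (p : ℚ) ^ τ * (((C : ℚ) * w) * (s * ((p : ℚ) ^ ((nc : ℤ) + B + i - 2 * q) * x)))
      = ((p : ℚ) ^ τ * (p : ℚ) ^ ((nc : ℤ) + B + i - 2 * q)) * (C * w * s * x) := by ring
    _ = _ := by rw [h1]; ring

/-- general form of the contribution of a pole in a two-pole class -/
lemma Su_two {r q B a b τ e k : ℕ} {ω : ℤ → ℕ → ℚ} {u : ℤ} {D : Finset ℤ} {n : ℤ → ℕ} {c : ℤ}
    (he : e + B = r + 2 * q) (hk : n c + τ = e + k)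
    (s : ℕ → ℤ) (y v : ℕ → ZMod p)
    (hA : ∀ i ∈ Finset.Icc 1 q, ∃ x : ℚ, Acoef q B a b u i (PolyN D n) =
      (s i : ℚ) * ((p : ℚ) ^ ((n c : ℤ) + B + i - 2 * q) * x) ∧ red p x (y i))
    (hw : ∀ i ∈ Finset.Icc 1 q, red p ((p : ℚ) ^ (i + r) * ω u i) (v i)) :
    red p ((p : ℚ) ^ τ * Su r q B a b ω u (PolyN D n))
      ((0 : ZMod p) ^ k * ∑ i ∈ Finset.Icc 1 q, ((Nat.choose (i + r - 1) r : ZMod p) * v i) *
        ((s i : ZMod p) * y i)) := by
  rw [Su, Finset.mul_sum, Finset.mul_sum]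
  refine red_sum _ _ _ fun i hi => ?_
  obtain ⟨x, hx1, hx2⟩ := hA i hi
  rw [term_eq he hk hx1]
  refine red_mul (red_pow red_p k) (red_mul (red_mul (red_nat _) (hw i hi))
    (red_mul (red_int _) hx2))

/-- every two-pole residue has a representative -/
lemma exists_rep {a b : ℕ} (hb : 2 * b = 3 * p + 1) (ha : a ≤ p) (hab : a ≤ b) {u : ℤ}
    (hu : u ∈ pc a) (h2 : (p : ℤ) - a + 1 ≤ |u|) :
    ∃ c, Geo p a b c ∧ (u = c ∨ u = c - p ∨ u = -c ∨ u = p - c) := by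
  rw [mem_pc] at hu
  have hodd : p % 2 = 1 := by omega
  rcases le_or_gt 0 u with h0 | h0
  · rw [abs_of_nonneg h0] at h2
    by_cases h3 : 2 * u ≤ p - 1
    · exact ⟨u, ⟨hb, ha, hab, by omega, h3⟩, Or.inl rfl⟩
    · refine ⟨p - u, ⟨hb, ha, hab, by omega, by omega⟩, Or.inr (Or.inr (Or.inr (by ring)))⟩
  · rw [abs_of_neg h0] at h2
    by_cases h3 : 2 * (-u) ≤ p - 1
    · exact ⟨-u, ⟨hb, ha, hab, by omega, h3⟩, Or.inr (Or.inr (Or.inl (by ring)))⟩
    · refine ⟨p + u, ⟨hb, ha, hab, by omega, by omega⟩, Or.inr (Or.inl (by ring))⟩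

/-- poles with `|u| ≤ p - a` are alone in their class -/
lemma single_of {a : ℕ} {u : ℤ} (hu : u ∈ pc a) (h2 : |u| ≤ (p : ℤ) - a) :
    ∀ w ∈ (pc a).erase u, ((w - u : ℤ) : ZMod p) ≠ 0 := by
  intro w hw h0
  rw [Finset.mem_erase, mem_pc] at hw
  rw [mem_pc] at hu
  rw [ZMod.intCast_zmod_eq_zero_iff_dvd] at h0
  have h3 := abs_le.1 h2
  obtain ⟨k, hk⟩ := h0
  have hpp : (0 : ℤ) < p := by exact_mod_cast hp.out.pos
  have hk1 : -1 < k := by
    by_contra hcc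
    push Not at hcc
    have : (p : ℤ) * k ≤ p * (-1) := mul_le_mul_of_nonneg_left hcc hpp.le
    omega
  have hk2 : k < 1 := by
    by_contra hcc
    push Not at hcc
    have : (p : ℤ) * 1 ≤ p * k := mul_le_mul_of_nonneg_left hcc hpp.le
    omega
  have : k = 0 := by omega
  rw [this] at hk
  apply hw.1
  omega

end

end Z579
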