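import Pool.Agent.Lib.Z579.M8

open Polynomial Finset

namespace Z579

section
variable {p : ℕ} [hp : Fact p.Prime]

lemma Kc_ne_zero {q B a b : ℕ} {D : Finset ℤ} {n : ℤ → ℕ} {c : ℤ}
    (hD : ∀ d ∈ D, Geo p a b d) (hc : c ∈ D) : Kc p q B a b D n c ≠ 0 := by
  have h := hD c hc
  have h2 : (2 : ZMod p) ≠ 0 := by
    have : ((2 : ℤ) : ZMod p) ≠ 0 := by
      rw [Ne, ZMod.intCast_zmod_eq_zero_iff_dvd]
      intro hd
      have := Int.le_of_dvd (by norm_num) hd
      have := h.c2; have := h.pos; omega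
    simpa using this
  have hcne : (c : ZMod p) ≠ 0 := by
    rw [Ne, ZMod.intCast_zmod_eq_zero_iff_dvd]
    intro hd
    have := Int.le_of_dvd h.pos hd
    have := h.c_lt; omega
  unfold Kc
  refine mul_ne_zero (mul_ne_zero (mul_ne_zero (mul_ne_zero h2 (neg_ne_zero.2 hcne)) ?_) ?_)
    (mul_ne_zero ?_ ?_)
  · refine pow_ne_zero _ (Finset.prod_ne_zero_iff.2 fun w hw => ?_)
    have := h.ho w hw
    push_cast at this
    exact this
  · refine pow_ne_zero _ (inv_ne_zero (Finset.prod_ne_zero_iff.2 fun w hw => ?_))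
    have := h.hi w hw
    push_cast at this
    exact this
  · refine pow_ne_zero _ (mul_ne_zero (neg_ne_zero.2 h2) hcne)
  · refine Finset.prod_ne_zero_iff.2 fun d hd => pow_ne_zero _ ?_
    rw [Finset.mem_erase] at hd
    have hd' := hD d hd.2
    have h3 : ((c - d : ℤ) : ZMod p) ≠ 0 := by
      rw [Ne, ZMod.intCast_zmod_eq_zero_iff_dvd]
      intro hdv
      obtain ⟨k, hk⟩ := hdv
      have := h.pos; have := h.c_lt; have := hd'.pos; have := hd'.c_lt
      have hpp : (0 : ℤ) < p := by exact_mod_cast hp.out.pos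
      have hk1 : -1 < k := by
        by_contra hcc
        push Not at hcc
        have : (p : ℤ) * k ≤ p * (-1) := mul_le_mul_of_nonneg_left hcc hpp.le
        omega
      have hk2 : k < 1 := by
        by_contra hcc
        push Not at hcc
        have : (p : ℤ) * 1 ≤ p * k := mul_le_mul_of_nonneg_left hcc hpp.le
        omega
      have h0 : k = 0 := by omega
      rw [h0] at hk
      apply hd.1
      omega
    have h4 : ((c + d : ℤ) : ZMod p) ≠ 0 := by
      rw [Ne, ZMod.intCast_zmod_eq_zero_iff_dvd]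
      intro hdv
      have := Int.le_of_dvd (by have := h.pos; have := hd'.pos; omega) hdv
      have := h.c2; have := hd'.c2; omega
    have h5 : (c : ZMod p) ^ 2 - d ^ 2 = ((c - d : ℤ) : ZMod p) * ((c + d : ℤ) : ZMod p) := by
      push_cast; ring
    rw [h5]
    exact mul_ne_zero h3 h4

variable {r q B a b τ e : ℕ} {z : ℕ → ℚ} {D : Finset ℤ} {n : ℤ → ℕ}

lemma wt_low (hr : 1 ≤ r) (hz : ∀ s, VG p 0 (z s)) {u : ℤ} (hu : u + a - 1 < p) (i : ℕ) :
    red p ((p : ℚ) ^ (i + r) * wt r a 1 z u i) 0 := by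
  obtain ⟨y, hy⟩ := red_wt_low (r := r) (a := a) hz hu i
  exact red_ppow_mul hy (by omega)

/-- weights at any pole: some residue exists -/
lemma wt_any (hr : 1 ≤ r) (hz : ∀ s, VG p 0 (z s)) (ha : a ≤ p) {u : ℤ} (hu : u ∈ pc a) (i : ℕ) :
    ∃ v, red p ((p : ℚ) ^ (i + r) * wt r a 1 z u i) v := by
  rw [mem_pc] at hu
  by_cases h : u + a - 1 < p
  · exact ⟨0, wt_low hr hz h i⟩
  · exact ⟨-1, red_wt_top hz (by omega) (by omega) (by omega)⟩

/-- coefficients for all four poles of a class -/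
lemma Acoef_four (ha1 : 1 ≤ a) (hq : Even q) {c u : ℤ} (h : Geo p a b c) (hc : c ∈ D)
    (hu : u = c ∨ u = c - p ∨ u = -c ∨ u = p - c) :
    ∃ (s : ℕ → ℤ) (y : ℕ → ZMod p), ∀ i ∈ Finset.Icc 1 q, ∃ x : ℚ,
      Acoef q B a b u i (PolyN D n) =
      (s i : ℚ) * ((p : ℚ) ^ ((n c : ℤ) + B + i - 2 * q) * x) ∧ red p x (y i) := by
  rcases hu with rfl | rfl | rfl | rfl
  · refine ⟨fun _ => 1, fun i => Kc p q B a b D n u * alp p q B (n u) (q - i), fun i hi => ?_⟩
    rw [Finset.mem_Icc] at hi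
    obtain ⟨x, hx1, hx2⟩ := Acoef_c (q := q) (B := B) (n := n) h hc hi.2
    exact ⟨x, by rw [hx1]; push_cast; ring, hx2⟩
  · refine ⟨fun _ => 1, fun i => Kc p q B a b D n c * bep p q B (n c) (q - i), fun i hi => ?_⟩
    rw [Finset.mem_Icc] at hi
    obtain ⟨x, hx1, hx2⟩ := Acoef_cp (q := q) (B := B) (n := n) h hc hi.2
    exact ⟨x, by rw [hx1]; push_cast; ring, hx2⟩
  · refine ⟨fun i => (-1) ^ (i + 1), fun i => Kc p q B a b D n c * alp p q B (n c) (q - i),
      fun i hi => ?_⟩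
    rw [Finset.mem_Icc] at hi
    obtain ⟨x, hx1, hx2⟩ := Acoef_c (q := q) (B := B) (n := n) h hc hi.2
    exact ⟨x, by rw [Acoef_neg ha1 h.mem_c hq hi.2, hx1]; push_cast; ring, hx2⟩
  · refine ⟨fun i => (-1) ^ (i + 1), fun i => Kc p q B a b D n c * bep p q B (n c) (q - i),
      fun i hi => ?_⟩
    rw [Finset.mem_Icc] at hi
    obtain ⟨x, hx1, hx2⟩ := Acoef_cp (q := q) (B := B) (n := n) h hc hi.2
    refine ⟨x, ?_, hx2⟩
    rw [show (p : ℤ) - c = -(c - p) by ring, Acoef_neg ha1 h.mem_cp hq hi.2, hx1]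
    push_cast; ring

/-- a pole whose class has too many factors contributes zero -/
lemma Su_zero_of (hr : 1 ≤ r) (hz : ∀ s, VG p 0 (z s)) (he : e + B = r + 2 * q)
    (hq : Even q) (ha : a ≤ p) {c u : ℤ} (h : Geo p a b c) (hc : c ∈ D)
    (hu : u = c ∨ u = c - p ∨ u = -c ∨ u = p - c) (hk : e < n c + τ) :
    red p ((p : ℚ) ^ τ * Su r q B a b (wt r a 1 z) u (PolyN D n)) 0 := by
  have hupc : u ∈ pc a := by
    rcases hu with rfl | rfl | rfl | rfl
    · exact h.mem_c
    · exact h.mem_cp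
    · exact neg_mem_pc.2 h.mem_c
    · rw [show (p : ℤ) - c = -(c - p) by ring]; exact neg_mem_pc.2 h.mem_cp
  obtain ⟨s, y, hA⟩ := Acoef_four (q := q) (B := B) (n := n) h.a_pos hq h hc hu
  have hw : ∀ i ∈ Finset.Icc 1 q, ∃ v, red p ((p : ℚ) ^ (i + r) * wt r a 1 z u i) v :=
    fun i _ => wt_any hr hz ha hupc i
  choose! v hv using hw
  obtain ⟨k, hk'⟩ := Nat.exists_eq_add_of_lt hk
  have key := Su_two (ω := wt r a 1 z) (u := u) (n := n) (c := c) (k := k + 1) he
    (by omega) s y v hA hv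
  simpa using key

/-- low poles of a class contribute zero -/
lemma Su_low (hr : 1 ≤ r) (hz : ∀ s, VG p 0 (z s)) (he : e + B = r + 2 * q)
    (hq : Even q) {c u : ℤ} (h : Geo p a b c) (hc : c ∈ D)
    (hu : u = c - p ∨ u = -c) (hk : e ≤ n c + τ) :
    red p ((p : ℚ) ^ τ * Su r q B a b (wt r a 1 z) u (PolyN D n)) 0 := by
  have hlow : u + a - 1 < p := by
    have := h.pos; have := h.c_lt; have := h.ha; have := h.c1; have := h.c2
    rcases hu with rfl | rfl <;> omega
  have hu' : u = c ∨ u = c - p ∨ u = -c ∨ u = p - c := by tauto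
  obtain ⟨s, y, hA⟩ := Acoef_four (q := q) (B := B) (n := n) h.a_pos hq h hc hu'
  obtain ⟨k, hk'⟩ := Nat.exists_eq_add_of_le hk
  have key := Su_two (ω := wt r a 1 z) (u := u) (n := n) (c := c) (k := k) he
    (by omega) s y (fun _ => 0) hA (fun i _ => wt_low hr hz hlow i)
  simpa using key

lemma Su_top_c (hr : 1 ≤ r) (hz : ∀ s, VG p 0 (z s)) (he : e + B = r + 2 * q)
    {c : ℤ} (h : Geo p a b c) (hc : c ∈ D) (hk : n c + τ = e) :
    red p ((p : ℚ) ^ τ * Su r q B a b (wt r a 1 z) c (PolyN D n))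
      (-(Kc p q B a b D n c * ∑ i ∈ Finset.Icc 1 q, (Nat.choose (i + r - 1) r : ZMod p) *
        alp p q B (n c) (q - i))) := by
  have htop : (p : ℤ) ≤ c + a - 1 := by have := h.c1; omega
  have htop2 : c + a - 1 < 2 * p := by have := h.c_lt; have := h.ha; omega
  have key := Su_two (ω := wt r a 1 z) (u := c) (n := n) (c := c) (k := 0) he
    (by omega) (fun _ => 1) (fun i => Kc p q B a b D n c * alp p q B (n c) (q - i))
    (fun _ => -1) (fun i hi => by
      rw [Finset.mem_Icc] at hi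
      obtain ⟨x, hx1, hx2⟩ := Acoef_c (q := q) (B := B) (n := n) h hc hi.2
      exact ⟨x, by rw [hx1]; push_cast; ring, hx2⟩)
    (fun i _ => red_wt_top hz htop htop2 (by omega))
  convert key using 1
  rw [pow_zero, one_mul, Finset.mul_sum, ← Finset.sum_neg_distrib]
  refine Finset.sum_congr rfl fun i _ => ?_
  push_cast
  ring

lemma Su_top_pc (hr : 1 ≤ r) (hz : ∀ s, VG p 0 (z s)) (he : e + B = r + 2 * q) (hq : Even q)
    {c : ℤ} (h : Geo p a b c) (hc : c ∈ D) (hk : n c + τ = e) :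
    red p ((p : ℚ) ^ τ * Su r q B a b (wt r a 1 z) (p - c) (PolyN D n))
      (-(Kc p q B a b D n c * ∑ i ∈ Finset.Icc 1 q, (Nat.choose (i + r - 1) r : ZMod p) *
        ((-1) ^ (i + 1) * bep p q B (n c) (q - i)))) := by
  have htop : (p : ℤ) ≤ (p - c) + a - 1 := by
    have := h.c2; have := h.c1; have := h.pos; omega
  have htop2 : ((p : ℤ) - c) + a - 1 < 2 * p := by have := h.pos; have := h.ha; omega
  have key := Su_two (ω := wt r a 1 z) (u := p - c) (n := n) (c := c) (k := 0) he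
    (by omega) (fun i => (-1) ^ (i + 1))
    (fun i => Kc p q B a b D n c * bep p q B (n c) (q - i))
    (fun _ => -1) (fun i hi => by
      rw [Finset.mem_Icc] at hi
      obtain ⟨x, hx1, hx2⟩ := Acoef_cp (q := q) (B := B) (n := n) h hc hi.2
      refine ⟨x, ?_, hx2⟩
      rw [show (p : ℤ) - c = -(c - p) by ring, Acoef_neg h.a_pos h.mem_cp hq hi.2, hx1]
      push_cast; ring)
    (fun i _ => red_wt_top hz htop htop2 (by omega))
  convert key using 1
  rw [pow_zero, one_mul, Finset.mul_sum, ← Finset.sum_neg_distrib]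
  refine Finset.sum_congr rfl fun i _ => ?_
  push_cast
  ring

/-- the set of representatives of the two-pole classes -/
noncomputable def Dset (p a : ℕ) : Finset ℤ := Finset.Icc ((p : ℤ) - a + 1) (((p : ℤ) - 1) / 2)

lemma geo_of_mem (hb : 2 * b = 3 * p + 1) (ha : a ≤ p) (hab : a ≤ b) {c : ℤ}
    (hc : c ∈ Dset p a) : Geo p a b c := by
  rw [Dset, Finset.mem_Icc] at hc
  exact ⟨hb, ha, hab, hc.1, by omega⟩

lemma mem_Dset {c : ℤ} (h : Geo p a b c) : c ∈ Dset p a := by
  rw [Dset, Finset.mem_Icc]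
  have := h.c1; have := h.c2
  constructor <;> omega

/-- off-diagonal entries -/
lemma entry_off (hr : 1 ≤ r) (hz : ∀ s, VG p 0 (z s)) (he : e + B = r + 2 * q)
    (hq : Even q) (hb : 2 * b = 3 * p + 1) (ha : a ≤ p) (hab : a ≤ b) (hτ : τ ≠ 0)
    (hn : ∀ c ∈ Dset p a, e < n c + τ) :
    red p ((p : ℚ) ^ τ * Lw r q B a b (wt r a 1 z) (PolyN (Dset p a) n)) 0 := by
  rw [Lw_eq_sum_Su, Finset.mul_sum]
  have : (0 : ZMod p) = ∑ u ∈ pc a, 0 := by simp
  rw [this]
  refine red_sum _ _ _ fun u hu => ?_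
  by_cases h2 : (p : ℤ) - a + 1 ≤ |u|
  · obtain ⟨c, hg, hcu⟩ := exists_rep hb ha hab hu h2
    exact Su_zero_of hr hz he hq ha hg (mem_Dset hg) hcu (hn c (mem_Dset hg))
  · have h3 : |u| ≤ (p : ℤ) - a := by omega
    refine Su_single (single_of hu h3) (fun i => ?_) hτ
    refine red_wt_low hz ?_ i
    have := (abs_le.1 h3).2
    omega

/-- diagonal block entries -/
lemma entry_main (hr : 1 ≤ r) (hz : ∀ s, VG p 0 (z s)) (he : e + B = r + 2 * q)
    (hq : Even q) (hb : 2 * b = 3 * p + 1) (ha : a ≤ p) (hab : a ≤ b) (hτ : τ ≠ 0)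
    {c : ℤ} (hc : c ∈ Dset p a) (hk : n c + τ = e)
    (hn : ∀ c' ∈ Dset p a, c' ≠ c → e < n c' + τ) :
    red p ((p : ℚ) ^ τ * Lw r q B a b (wt r a 1 z) (PolyN (Dset p a) n))
      (-(Kc p q B a b (Dset p a) n c * lmp p r q B (n c))) := by
  have hg := geo_of_mem hb ha hab hc
  have hne : c ≠ p - c := by have := hg.c2; omega
  rw [Lw_eq_sum_Su, Finset.mul_sum]
  set V1 : ZMod p := -(Kc p q B a b (Dset p a) n c * ∑ i ∈ Finset.Icc 1 q,
    (Nat.choose (i + r - 1) r : ZMod p) * alp p q B (n c) (q - i)) with hV1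
  set V2 : ZMod p := -(Kc p q B a b (Dset p a) n c * ∑ i ∈ Finset.Icc 1 q,
    (Nat.choose (i + r - 1) r : ZMod p) * ((-1) ^ (i + 1) * bep p q B (n c) (q - i))) with hV2
  have hsum : -(Kc p q B a b (Dset p a) n c * lmp p r q B (n c)) =
      ∑ u ∈ pc a, ((if u = c then V1 else 0) + (if u = p - c then V2 else 0)) := by
    rw [Finset.sum_add_distrib, Finset.sum_ite_eq', Finset.sum_ite_eq', if_pos hg.mem_c,
      if_pos (by rw [show (p : ℤ) - c = -(c - p) by ring]; exact neg_mem_pc.2 hg.mem_cp),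
      hV1, hV2, lmp, ← neg_add, ← mul_add, ← Finset.sum_add_distrib]
    congr 2
    refine Finset.sum_congr rfl fun i _ => ?_
    ring
  rw [hsum]
  refine red_sum _ _ _ fun u hu => ?_
  by_cases h2 : (p : ℤ) - a + 1 ≤ |u|
  · obtain ⟨c', hg', hcu⟩ := exists_rep hb ha hab hu h2
    have h1 := hg.pos; have h3 := hg.c2; have h4 := hg'.pos; have h5 := hg'.c2
    by_cases hcc : c' = c
    · subst hcc
      rcases hcu with rfl | rfl | rfl | rfl
      · rw [if_pos rfl, if_neg hne, add_zero]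
        exact Su_top_c hr hz he hg hc hk
      · rw [if_neg (by omega), if_neg (by omega), add_zero]
        exact Su_low hr hz he hq hg hc (Or.inl rfl) hk.ge
      · rw [if_neg (by omega), if_neg (by omega), add_zero]
        exact Su_low hr hz he hq hg hc (Or.inr rfl) hk.ge
      · rw [if_neg (by omega), if_pos rfl, zero_add]
        exact Su_top_pc hr hz he hq hg hc hk
    · rw [if_neg (by omega), if_neg (by omega), add_zero]
      exact Su_zero_of hr hz he hq ha hg' (mem_Dset hg') hcu (hn c' (mem_Dset hg') hcc)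
  · have h3 : |u| ≤ (p : ℤ) - a := by omega
    have h6 := abs_le.1 h3
    have h7 := hg.c1; have h8 := hg.c2; have h9 := hg.pos
    rw [if_neg (by omega), if_neg (by omega), add_zero]
    refine Su_single (single_of hu h3) (fun i => ?_) hτ
    refine red_wt_low hz ?_ i
    omega

end

end Z579
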