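import Pool.Agent.Lib.Z579.Defs2
import Pool.Agent.Lib.Z579.M7a

/-!
# M9: the p-adic total for `{5,7,9}`
-/

open Filter Topology Finset MeasureTheory

namespace Z579

/-- `a` as a real number -/
noncomputable def ar (n : ℕ) : ℝ := ((3 * n + 1 : ℕ) : ℝ)

lemma ar_eq (n : ℕ) : ar n = 3 * n + 1 := by unfold ar; push_cast; ring

lemma ar_pos (n : ℕ) : 0 < ar n := by rw [ar_eq]; positivity

lemma tendsto_ar : Tendsto ar atTop atTop := by
  have h : Tendsto (fun n : ℕ => (n : ℝ)) atTop atTop := tendsto_natCast_atTop_atTop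
  refine tendsto_atTop_mono (fun n => ?_) h
  rw [ar_eq]
  have : (0 : ℝ) ≤ n := Nat.cast_nonneg n
  linarith

lemma tendsto_n_div : Tendsto (fun n : ℕ => (n : ℝ) / ar n) atTop (𝓝 (1 / 3)) := by
  have h1 : Tendsto (fun n : ℕ => 1 / 3 - (1 / 3) * (1 / ar n)) atTop (𝓝 (1 / 3 - (1 / 3) * 0)) := by
    apply Tendsto.sub tendsto_const_nhds
    apply Tendsto.const_mul
    simp only [one_div]
    exact tendsto_inv_atTop_zero.comp tendsto_ar
  rw [mul_zero, sub_zero] at h1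
  refine h1.congr fun n => ?_
  have := (ar_pos n).ne'
  have h2 : (n : ℝ) = (ar n - 1) / 3 := by rw [ar_eq]; ring
  rw [h2]
  field_simp

lemma En_eq (n : ℕ) : En n = 70 * (ar n * n) - 98 * n ^ 2 := by
  unfold En; rw [ar_eq]; ring

lemma tendsto_En : Tendsto (fun n : ℕ => En n / ar n ^ 2) atTop (𝓝 (112 / 9)) := by
  have h1 := (tendsto_n_div.const_mul 70).sub ((tendsto_n_div.pow 2).const_mul 98)
  have h2 : (70 : ℝ) * (1 / 3) - 98 * (1 / 3) ^ 2 = 112 / 9 := by norm_num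
  rw [h2] at h1
  refine h1.congr fun n => ?_
  have := (ar_pos n).ne'
  rw [En_eq]
  field_simp

/-- part 3 bound summed -/
lemma floor_one_ar (n : ℕ) : ⌊(1 : ℝ) * ar n⌋₊ = 3 * n + 1 := by
  unfold ar; rw [one_mul, Nat.floor_natCast]

lemma floor_zero_ar (n : ℕ) : ⌊(0 : ℝ) * ar n⌋₊ = 0 := by rw [zero_mul, Nat.floor_zero]

lemma floor_two_ar (n : ℕ) : ⌊(2 : ℝ) * ar n⌋₊ = 2 * (3 * n + 1) := by
  unfold ar
  have : (2 : ℝ) * ((3 * n + 1 : ℕ) : ℝ) = ((2 * (3 * n + 1) : ℕ) : ℝ) := by push_cast; ring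
  rw [this, Nat.floor_natCast]

lemma m7b' (α β : ℝ) (f : ℝ → ℝ) (h1 : 0 ≤ α) (h2 : α ≤ β) (h3 : ContinuousOn f (Set.Icc α β)) :
    Tendsto (fun n : ℕ => PS f (ar n) ⌊α * ar n⌋₊ ⌊β * ar n⌋₊ / ar n) atTop
      (𝓝 (∫ t in α..β, f t)) := (m7b α β f h1 h2 h3).comp tendsto_ar

lemma tendsto_logX_sqrt (K : ℝ) (hK : 0 < K) :
    Tendsto (fun n : ℕ => Real.log (K * ar n) / √(ar n)) atTop (𝓝 0) := by
  have e3 : Tendsto (fun x : ℝ => Real.log x / x ^ (1 / 2 : ℝ)) atTop (𝓝 0) :=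
    (isLittleO_log_rpow_atTop (by norm_num : (0 : ℝ) < 1 / 2)).tendsto_div_nhds_zero
  have e4 := e3.comp tendsto_ar
  have e5 : Tendsto (fun n : ℕ => Real.log K / √(ar n)) atTop (𝓝 0) := by
    apply Tendsto.div_atTop tendsto_const_nhds
    exact (Real.tendsto_sqrt_atTop).comp tendsto_ar
  have e6 := e5.add e4
  rw [add_zero] at e6
  refine e6.congr fun n => ?_
  simp only [Function.comp]
  rw [Real.log_mul hK.ne' (ar_pos n).ne', ← Real.sqrt_eq_rpow]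
  ring


lemma theta_ar_div : Tendsto (fun n : ℕ => Chebyshev.theta (3 * n + 1 : ℕ) / ar n) atTop (𝓝 1) := by
  have := PNT.theta_tendsto.comp tendsto_ar
  exact this

/-- the error term -/
noncomputable def err9 (C : ℝ) (n : ℕ) : ℝ :=
  C * (7 * n) * (Nat.sqrt (3 * (3 * n + 1)) *
    (2 * Real.log ((2 * ((3 * n + 1) + 2 * (3 * n + 1) + 7 * n) : ℕ) : ℝ))) +
  4 * (7 * n) ^ 2 / √(3 * ar n) * Real.log (ar n) + 49 * Chebyshev.theta (3 * n + 1 : ℕ)

lemma err9_nonneg (C : ℝ) (hC : 0 ≤ C) (n : ℕ) : 0 ≤ err9 C n := by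
  have ha := ar_pos n
  have ha1 : 1 ≤ ar n := by rw [ar_eq]; linarith [Nat.cast_nonneg (α := ℝ) n]
  unfold err9
  have l1 : 0 ≤ Real.log ((2 * ((3 * n + 1) + 2 * (3 * n + 1) + 7 * n) : ℕ) : ℝ) :=
    Real.log_natCast_nonneg _
  have l2 : 0 ≤ Real.log (ar n) := Real.log_nonneg ha1
  have l3 := Chebyshev.theta_nonneg (3 * n + 1 : ℕ)
  positivity

lemma tendsto_err9 (C : ℝ) (hC : 0 ≤ C) : Tendsto (fun n => err9 C n / ar n ^ 2) atTop (𝓝 0) := by
  have h1 : Tendsto (fun n : ℕ => Chebyshev.theta (3 * n + 1 : ℕ) / ar n * (ar n)⁻¹) atTop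
      (𝓝 (1 * 0)) := theta_ar_div.mul (tendsto_inv_atTop_zero.comp tendsto_ar)
  have h2 := (tendsto_n_div.pow 2).mul (tendsto_logX_sqrt 1 one_pos)
  have h3 : Tendsto (fun n : ℕ => (C * 7 * (2 * √3)) * ((n / ar n) *
      (Real.log (11 * ar n) / √(ar n)))) atTop (𝓝 ((C * 7 * (2 * √3)) * (1 / 3 * 0))) :=
    (tendsto_n_div.mul (tendsto_logX_sqrt 11 (by norm_num))).const_mul _
  have h4 := (h3.add (h2.const_mul (4 * 49 / √3))).add (h1.const_mul 49)
  simp only [mul_zero, add_zero] at h4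
  refine squeeze_zero (fun n => div_nonneg (err9_nonneg C hC n) (sq_nonneg _)) ?_ h4
  intro n
  have ha := ar_pos n
  have ha1 : 1 ≤ ar n := by rw [ar_eq]; linarith [Nat.cast_nonneg (α := ℝ) n]
  have hs : 0 < √(ar n) := Real.sqrt_pos.mpr ha
  have hsq : √(ar n) * √(ar n) = ar n := Real.mul_self_sqrt ha.le
  have h3' : (0 : ℝ) < √3 := Real.sqrt_pos.mpr (by norm_num)
  have hlog : Real.log ((2 * ((3 * n + 1) + 2 * (3 * n + 1) + 7 * n) : ℕ) : ℝ) ≤
      Real.log (11 * ar n) := by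
    apply Real.log_le_log (by positivity)
    rw [ar_eq]; push_cast
    have : (0 : ℝ) ≤ n := Nat.cast_nonneg n
    linarith
  have hlog0 : 0 ≤ Real.log ((2 * ((3 * n + 1) + 2 * (3 * n + 1) + 7 * n) : ℕ) : ℝ) :=
    Real.log_natCast_nonneg _
  have hsqrt : (Nat.sqrt (3 * (3 * n + 1)) : ℝ) ≤ √3 * √(ar n) := by
    rw [← Real.sqrt_mul (by norm_num)]
    have : ((3 * (3 * n + 1) : ℕ) : ℝ) = 3 * ar n := by unfold ar; push_cast; ring
    rw [← this]
    exact Real.nat_sqrt_le_real_sqrt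
  have t1 : C * (7 * n) * (Nat.sqrt (3 * (3 * n + 1)) *
    (2 * Real.log ((2 * ((3 * n + 1) + 2 * (3 * n + 1) + 7 * n) : ℕ) : ℝ))) ≤
      C * (7 * n) * ((√3 * √(ar n)) * (2 * Real.log (11 * ar n))) := by
    apply mul_le_mul_of_nonneg_left _ (by positivity)
    exact mul_le_mul hsqrt (by linarith) (by positivity) (by positivity)
  have e1 : C * (7 * n) * ((√3 * √(ar n)) * (2 * Real.log (11 * ar n))) / ar n ^ 2 =
      (C * 7 * (2 * √3)) * ((n / ar n) * (Real.log (11 * ar n) / √(ar n))) := by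
    have : ar n ^ 2 = ar n * (√(ar n) * √(ar n)) := by rw [hsq]; ring
    rw [this]
    field_simp
  have e2 : 4 * (7 * (n : ℝ)) ^ 2 / √(3 * ar n) * Real.log (ar n) / ar n ^ 2 =
      4 * 49 / √3 * ((n / ar n) ^ 2 * (Real.log (1 * ar n) / √(ar n))) := by
    rw [Real.sqrt_mul (by norm_num), one_mul]
    field_simp
    ring
  have e3 : 49 * Chebyshev.theta (3 * n + 1 : ℕ) / ar n ^ 2 =
      49 * (Chebyshev.theta (3 * n + 1 : ℕ) / ar n * (ar n)⁻¹) := by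
    field_simp
  unfold err9
  rw [add_div, add_div, e2, e3, ← e1]
  gcongr

/-- upper bound for the total, without the logarithmic term -/
noncomputable def V9 (C : ℝ) (n : ℕ) : ℝ :=
    -(50 / 100) * En n + 3 * (7 * n) * Chebyshev.theta (3 * n + 1 : ℕ) +
    49 / 8 * (ar n * PS (fun t => t) (ar n) ⌊(0 : ℝ) * ar n⌋₊ ⌊(1 : ℝ) * ar n⌋₊) + err9 C n +
    ((3 * (7 * n) + 11 / 2 * ar n) * PS (fun _ => 1) (ar n) ⌊(1 : ℝ) * ar n⌋₊ ⌊(3 / 2 : ℝ) * ar n⌋₊ +
      7 * (ar n * PS (fun t => t) (ar n) ⌊(1 : ℝ) * ar n⌋₊ ⌊(3 / 2 : ℝ) * ar n⌋₊)) +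
    361 / 8 * (ar n * PS (fun t => 2 - t) (ar n) ⌊(3 / 2 : ℝ) * ar n⌋₊ ⌊(2 : ℝ) * ar n⌋₊)

lemma tendsto_V9 (C : ℝ) (hC : 0 ≤ C) : Tendsto (fun n => V9 C n / ar n ^ 2) atTop
    (𝓝 (-(50 / 100) * (112 / 9) + 3 * 7 * (1 / 3) * 1 + 49 / 8 * (1 / 2) + 0 +
      ((3 * 7 * (1 / 3) + 11 / 2) * (1 / 2) + 7 * (5 / 8)) + 361 / 8 * (1 / 8))) := by
  have k1 := tendsto_En.const_mul (-(50 / 100))
  have k2 := (tendsto_n_div.const_mul (3 * 7)).mul theta_ar_div
  have k3 := (m7b' 0 1 (fun t => t) le_rfl zero_le_one continuousOn_id).const_mul (49 / 8)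
  have k4 := tendsto_err9 C hC
  have k5 := ((tendsto_n_div.const_mul (3 * 7)).add_const (11 / 2)).mul
    (m7b' 1 (3 / 2) (fun _ => 1) (by norm_num) (by norm_num) continuousOn_const)
  have k6 := (m7b' 1 (3 / 2) (fun t => t) (by norm_num) (by norm_num) continuousOn_id).const_mul 7
  have k7 := (m7b' (3 / 2) 2 (fun t => 2 - t) (by norm_num) (by norm_num)
    (continuousOn_const.sub continuousOn_id)).const_mul (361 / 8)
  have i3 : ∫ t in (0 : ℝ)..1, t = 1 / 2 := by rw [integral_id]; norm_num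
  have i5 : ∫ _t in (1 : ℝ)..(3 / 2), (1 : ℝ) = 1 / 2 := by
    rw [intervalIntegral.integral_const, smul_eq_mul]; norm_num
  have i6 : ∫ t in (1 : ℝ)..(3 / 2), t = 5 / 8 := by rw [integral_id]; norm_num
  have i7 : ∫ t in (3 / 2 : ℝ)..2, (2 - t) = 1 / 8 := by
    rw [intervalIntegral.integral_sub intervalIntegrable_const intervalIntegral.intervalIntegrable_id,
      integral_id, intervalIntegral.integral_const, smul_eq_mul]
    norm_num
  rw [i3] at k3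
  rw [i5] at k5
  rw [i6] at k6
  rw [i7] at k7
  have K := ((((k1.add k2).add k3).add k4).add (k5.add k6)).add k7
  refine K.congr fun n => ?_
  have ha := (ar_pos n).ne'
  unfold V9
  field_simp

/-- pointwise bound for `p ≤ a` -/
lemma point_small (C : ℝ) (hC : 0 ≤ C) (n : ℕ) (b : ℝ) (p : ℕ) (hp : p.Prime)
    (hpa : p ≤ 3 * n + 1)
    (h1 : p ^ 2 < 3 * (3 * n + 1) →
      b ≤ En n / (p - 1) +
        C * (1 + Nat.log p (2 * ((3 * n + 1) + 2 * (3 * n + 1) + 7 * n))) * (7 * n))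
    (h2 : 3 * (3 * n + 1) ≤ p ^ 2 →
      b ≤ 3 * (7 * n) + En n / p + 49 / 8 * p + 1 / 8 * (4 * (7 * n) / p + 14) ^ 2) :
    b * Real.log p ≤ En n * (Real.log p / (p - 1)) + 3 * (7 * n) * Real.log p +
      49 / 8 * (p * Real.log p) +
      (if p ≤ Nat.sqrt (3 * (3 * n + 1)) then C * (7 * n) *
        (2 * Real.log ((2 * ((3 * n + 1) + 2 * (3 * n + 1) + 7 * n) : ℕ) : ℝ)) else 0) +
      4 * (7 * n) ^ 2 / √(3 * ar n) * (Real.log p / (p - 1)) + 49 * Real.log p := by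
  have hn0 : (0 : ℝ) ≤ n := Nat.cast_nonneg n
  have ha := ar_pos n
  have hp2 : (2 : ℝ) ≤ p := by exact_mod_cast hp.two_le
  have hp0 : (0 : ℝ) < p := by linarith
  have hp1 : (0 : ℝ) < p - 1 := by linarith
  have hlp : 0 ≤ Real.log p := Real.log_natCast_nonneg p
  have hEn : 0 ≤ En n := by
    rw [En_eq, ar_eq]; nlinarith
  have hX0 : 0 ≤ Real.log ((2 * ((3 * n + 1) + 2 * (3 * n + 1) + 7 * n) : ℕ) : ℝ) :=
    Real.log_natCast_nonneg _
  have q1 : 0 ≤ 3 * (7 * (n : ℝ)) * Real.log p := by positivity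
  have q2 : 0 ≤ 49 / 8 * ((p : ℝ) * Real.log p) := by positivity
  have q3 : 0 ≤ 4 * (7 * (n : ℝ)) ^ 2 / √(3 * ar n) * (Real.log p / (p - 1)) := by positivity
  have q4 : 0 ≤ En n * (Real.log p / (p - 1)) := by positivity
  set X := (2 * ((3 * n + 1) + 2 * (3 * n + 1) + 7 * n)) with hXdef
  by_cases hc : p ^ 2 < 3 * (3 * n + 1)
  · have hb := h1 hc
    have hsq : p ≤ Nat.sqrt (3 * (3 * n + 1)) := by
      rw [Nat.le_sqrt]; nlinarith
    rw [if_pos hsq]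
    have hXne : X ≠ 0 := by omega
    have hlogX : (Nat.log p X : ℝ) * Real.log p ≤ Real.log (X : ℝ) := by
      rw [← Real.log_pow]
      refine Real.log_le_log (pow_pos hp0 _) ?_
      exact_mod_cast Nat.pow_log_le_self p hXne
    have hlogp : Real.log p ≤ Real.log (X : ℝ) := by
      apply Real.log_le_log hp0
      have : p ≤ X := by omega
      exact_mod_cast this
    have hm := mul_le_mul_of_nonneg_right hb hlp
    have e1 : (En n / (p - 1) + C * (1 + (Nat.log p X : ℝ)) * (7 * n)) * Real.log p =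
        En n * (Real.log p / (p - 1)) +
          C * (7 * n) * (Real.log p + (Nat.log p X : ℝ) * Real.log p) := by ring
    rw [e1] at hm
    have e2 : C * (7 * n) * (Real.log p + (Nat.log p X : ℝ) * Real.log p) ≤
        C * (7 * n) * (2 * Real.log (X : ℝ)) :=
      mul_le_mul_of_nonneg_left (by linarith) (by positivity)
    linarith
  · push Not at hc
    have hb := h2 hc
    have q5 : 0 ≤ (if p ≤ Nat.sqrt (3 * (3 * n + 1)) then C * (7 * (n : ℝ)) *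
        (2 * Real.log (X : ℝ)) else 0) := by
      split_ifs
      · positivity
      · exact le_rfl
    have hm := mul_le_mul_of_nonneg_right hb hlp
    have hs0 : 0 < √(3 * ar n) := Real.sqrt_pos.mpr (by positivity)
    have hsp : √(3 * ar n) ≤ p := by
      rw [Real.sqrt_le_left hp0.le]
      have : ((3 * (3 * n + 1) : ℕ) : ℝ) ≤ ((p ^ 2 : ℕ) : ℝ) := by exact_mod_cast hc
      rw [ar_eq]
      push_cast at this
      linarith
    have e1 : 1 / 8 * (4 * (7 * (n : ℝ)) / p + 14) ^ 2 ≤ 4 * (7 * (n : ℝ)) ^ 2 / (p : ℝ) ^ 2 + 49 := by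
      have e2 : 4 * (7 * (n : ℝ)) ^ 2 / (p : ℝ) ^ 2 = 1 / 4 * (4 * (7 * (n : ℝ)) / p) ^ 2 := by
        field_simp
      rw [e2]
      nlinarith [sq_nonneg (4 * (7 * (n : ℝ)) / p - 14)]
    have e3 : 4 * (7 * (n : ℝ)) ^ 2 / (p : ℝ) ^ 2 * Real.log p ≤
        4 * (7 * (n : ℝ)) ^ 2 / √(3 * ar n) * (Real.log p / (p - 1)) := by
      rw [div_mul_div_comm, div_mul_eq_mul_div]
      apply div_le_div_of_nonneg_left (by positivity) (by positivity)
      nlinarith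
    have e4 : En n / p ≤ En n / (p - 1) := div_le_div_of_nonneg_left hEn hp1 (by linarith)
    have e5 := mul_le_mul_of_nonneg_right e4 hlp
    have e6 := mul_le_mul_of_nonneg_right e1 hlp
    have e7 : En n / (p - 1) * Real.log p = En n * (Real.log p / (p - 1)) := by ring
    nlinarith

lemma sum_small9 (C : ℝ) (hC : 0 ≤ C) (n : ℕ) (β : ℕ → ℝ)
    (hM : ∑ p ∈ (Finset.Icc 1 (3 * n + 1)).filter Nat.Prime, Real.log p / ((p : ℝ) - 1) ≤
      Real.log (ar n) - 50 / 100)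
    (h1 : ∀ p : ℕ, p.Prime → p ^ 2 < 3 * (3 * n + 1) →
      β p ≤ En n / (p - 1) +
        C * (1 + Nat.log p (2 * ((3 * n + 1) + 2 * (3 * n + 1) + 7 * n))) * (7 * n))
    (h2 : ∀ p : ℕ, p.Prime → 3 * (3 * n + 1) ≤ p ^ 2 → p ≤ 3 * n + 1 →
      β p ≤ 3 * (7 * n) + En n / p + 49 / 8 * p + 1 / 8 * (4 * (7 * n) / p + 14) ^ 2) :
    ∑ p ∈ (Finset.Ioc 0 (3 * n + 1)).filter Nat.Prime, β p * Real.log p ≤
      En n * Real.log (ar n) + (-(50 / 100) * En n + 3 * (7 * n) * Chebyshev.theta (3 * n + 1 : ℕ) +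
    49 / 8 * (ar n * PS (fun t => t) (ar n) ⌊(0 : ℝ) * ar n⌋₊ ⌊(1 : ℝ) * ar n⌋₊) + err9 C n) := by
  have hn0 : (0 : ℝ) ≤ n := Nat.cast_nonneg n
  have ha := ar_pos n
  have hIcc : Finset.Icc 1 (3 * n + 1) = Finset.Ioc 0 (3 * n + 1) := by
    ext x; simp [Nat.succ_le_iff]
  rw [hIcc] at hM
  have hth : ∑ p ∈ (Finset.Ioc 0 (3 * n + 1)).filter Nat.Prime, Real.log p =
      Chebyshev.theta (3 * n + 1 : ℕ) := by
    unfold Chebyshev.theta; rw [Nat.floor_natCast]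
  have hEn : 0 ≤ En n := by
    rw [En_eq, ar_eq]; nlinarith
  have hX0 : 0 ≤ Real.log ((2 * ((3 * n + 1) + 2 * (3 * n + 1) + 7 * n) : ℕ) : ℝ) :=
    Real.log_natCast_nonneg _
  refine (Finset.sum_le_sum (g := fun p : ℕ => En n * (Real.log p / (p - 1)) +
      3 * (7 * n) * Real.log p + 49 / 8 * (p * Real.log p) +
      (if p ≤ Nat.sqrt (3 * (3 * n + 1)) then C * (7 * n) *
        (2 * Real.log ((2 * ((3 * n + 1) + 2 * (3 * n + 1) + 7 * n) : ℕ) : ℝ)) else 0) +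
      4 * (7 * n) ^ 2 / √(3 * ar n) * (Real.log p / (p - 1)) + 49 * Real.log p)
    (fun p hp => by
      rw [Finset.mem_filter, Finset.mem_Ioc] at hp
      exact point_small C hC n (β p) p hp.2 hp.1.2 (h1 p hp.2)
        (fun h => h2 p hp.2 h hp.1.2))).trans ?_
  rw [Finset.sum_add_distrib, Finset.sum_add_distrib, Finset.sum_add_distrib,
    Finset.sum_add_distrib, Finset.sum_add_distrib, ← Finset.mul_sum, ← Finset.mul_sum,
    ← Finset.mul_sum, ← Finset.mul_sum, ← Finset.mul_sum, hth]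
  have hPS : ∑ p ∈ (Finset.Ioc 0 (3 * n + 1)).filter Nat.Prime, (p : ℝ) * Real.log p =
      ar n * PS (fun t => t) (ar n) ⌊(0 : ℝ) * ar n⌋₊ ⌊(1 : ℝ) * ar n⌋₊ := by
    rw [floor_zero_ar, floor_one_ar]
    unfold PS
    rw [Finset.mul_sum]
    refine Finset.sum_congr rfl fun p _ => ?_
    field_simp
  rw [hPS]
  have hsum1 : ∑ p ∈ (Finset.Ioc 0 (3 * n + 1)).filter Nat.Prime,
      (if p ≤ Nat.sqrt (3 * (3 * n + 1)) then C * (7 * (n : ℝ)) *
        (2 * Real.log ((2 * ((3 * n + 1) + 2 * (3 * n + 1) + 7 * n) : ℕ) : ℝ)) else 0) ≤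
      C * (7 * n) * (Nat.sqrt (3 * (3 * n + 1)) *
    (2 * Real.log ((2 * ((3 * n + 1) + 2 * (3 * n + 1) + 7 * n) : ℕ) : ℝ))) := by
    rw [← Finset.sum_filter, Finset.sum_const, nsmul_eq_mul]
    have h6 : ((Finset.Ioc 0 (3 * n + 1)).filter Nat.Prime).filter
        (fun p => p ≤ Nat.sqrt (3 * (3 * n + 1))) ⊆ Finset.Ioc 0 (Nat.sqrt (3 * (3 * n + 1))) := by
      intro p hp
      rw [Finset.mem_filter, Finset.mem_filter, Finset.mem_Ioc] at hp
      rw [Finset.mem_Ioc]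
      exact ⟨hp.1.1.1, hp.2⟩
    have h7 := Finset.card_le_card h6
    rw [Nat.card_Ioc, Nat.sub_zero] at h7
    have h8 : ((((Finset.Ioc 0 (3 * n + 1)).filter Nat.Prime).filter
        (fun p => p ≤ Nat.sqrt (3 * (3 * n + 1)))).card : ℝ) ≤ Nat.sqrt (3 * (3 * n + 1)) := by
      exact_mod_cast h7
    calc _ ≤ (Nat.sqrt (3 * (3 * n + 1)) : ℝ) * (C * (7 * (n : ℝ)) *
        (2 * Real.log ((2 * ((3 * n + 1) + 2 * (3 * n + 1) + 7 * n) : ℕ) : ℝ))) :=
          mul_le_mul_of_nonneg_right h8 (by positivity)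
      _ = _ := by ring
  have hE := mul_le_mul_of_nonneg_left hM hEn
  have hM2 : ∑ p ∈ (Finset.Ioc 0 (3 * n + 1)).filter Nat.Prime, Real.log p / ((p : ℝ) - 1) ≤
      Real.log (ar n) := by linarith
  have hE2 := mul_le_mul_of_nonneg_left hM2
    (show 0 ≤ 4 * (7 * (n : ℝ)) ^ 2 / √(3 * ar n) by positivity)
  unfold err9
  linarith

/-- M9 -/
theorem m9 : M9 := by
  intro C hC
  have hlim := tendsto_V9 C hC
  have hnum : (-(50 / 100) * (112 / 9) + 3 * 7 * (1 / 3) * 1 + 49 / 8 * (1 / 2) + 0 +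
      ((3 * 7 * (1 / 3) + 11 / 2) * (1 / 2) + 7 * (5 / 8)) + 361 / 8 * (1 / 8) : ℝ) < 101 / 5 := by
    norm_num
  have hev := hlim.eventually_lt_const hnum
  rw [eventually_atTop] at hev
  obtain ⟨n₁, hn₁⟩ := hev
  obtain ⟨n₂, hn₂⟩ := m7a (1 / 100) (by norm_num)
  refine ⟨max n₁ (max n₂ 10), fun n hn β h1 h2 h3 h4 => ?_⟩
  have hnn1 : n₁ ≤ n := (le_max_left _ _).trans hn
  have hnn2 : n₂ ≤ n := ((le_max_left _ _).trans (le_max_right _ _)).trans hn
  have hnn3 : 10 ≤ n := ((le_max_right _ _).trans (le_max_right _ _)).trans hn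
  have ha := ar_pos n
  have hn10 : (10 : ℝ) ≤ n := by exact_mod_cast hnn3
  have hM := hn₂ (3 * n + 1) (by omega)
  have hM' : ∑ p ∈ (Finset.Icc 1 (3 * n + 1)).filter Nat.Prime, Real.log p / ((p : ℝ) - 1) ≤
      Real.log (ar n) - 50 / 100 := by
    refine hM.trans (le_of_eq ?_)
    unfold ar
    ring
  have s1 := sum_small9 C hC n β hM' h1 h2
  -- the middle block
  have hf1 : (3 * n + 1) ≤ ⌊(3 / 2 : ℝ) * ar n⌋₊ := by
    rw [← floor_one_ar n]
    exact Nat.floor_le_floor (mul_le_mul_of_nonneg_right (by norm_num) ha.le)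
  have hf2 : ⌊(3 / 2 : ℝ) * ar n⌋₊ ≤ 2 * (3 * n + 1) := by
    rw [← floor_two_ar n]
    exact Nat.floor_le_floor (mul_le_mul_of_nonneg_right (by norm_num) ha.le)
  have s2 : ∑ p ∈ (Finset.Ioc (3 * n + 1) ⌊(3 / 2 : ℝ) * ar n⌋₊).filter Nat.Prime,
      β p * Real.log p ≤
      (3 * (7 * n) + 11 / 2 * ar n) * PS (fun _ => 1) (ar n) ⌊(1 : ℝ) * ar n⌋₊ ⌊(3 / 2 : ℝ) * ar n⌋₊ +
      7 * (ar n * PS (fun t => t) (ar n) ⌊(1 : ℝ) * ar n⌋₊ ⌊(3 / 2 : ℝ) * ar n⌋₊) := by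
    rw [floor_one_ar]
    unfold PS
    rw [Finset.mul_sum, Finset.mul_sum, Finset.mul_sum, ← Finset.sum_add_distrib]
    refine Finset.sum_le_sum fun p hp => ?_
    rw [Finset.mem_filter, Finset.mem_Ioc] at hp
    obtain ⟨⟨hp1, hp2⟩, hpp⟩ := hp
    have hlp : 0 ≤ Real.log p := Real.log_natCast_nonneg p
    have hple : (p : ℝ) ≤ 3 / 2 * ar n := (Nat.le_floor_iff (by positivity)).mp hp2
    have key : β p ≤ 3 * (7 * n) + 11 / 2 * ar n + 7 * p := by
      by_cases hc : 2 * p + 1 ≤ 3 * (3 * n + 1)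
      · have := h3 p hpp hp1 hc
        rw [ar_eq]
        linarith
      · push Not at hc
        have := h4 p hpp hc (hp2.trans hf2)
        have hc' : (3 : ℝ) * (3 * n + 1) ≤ 2 * p := by
          have : 3 * (3 * n + 1) ≤ 2 * p := by omega
          exact_mod_cast this
        rw [ar_eq]
        nlinarith
    have e1 : 7 * (ar n * ((p : ℝ) / ar n * Real.log p)) = 7 * p * Real.log p := by field_simp
    show β p * Real.log p ≤ (3 * (7 * n) + 11 / 2 * ar n) * (1 * Real.log p) +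
      7 * (ar n * ((p : ℝ) / ar n * Real.log p))
    rw [e1, one_mul, ← add_mul]
    exact mul_le_mul_of_nonneg_right key hlp
  have s3 : ∑ p ∈ (Finset.Ioc ⌊(3 / 2 : ℝ) * ar n⌋₊ (2 * (3 * n + 1))).filter Nat.Prime,
      β p * Real.log p ≤
      361 / 8 * (ar n * PS (fun t => 2 - t) (ar n) ⌊(3 / 2 : ℝ) * ar n⌋₊ ⌊(2 : ℝ) * ar n⌋₊) := by
    rw [floor_two_ar]
    unfold PS
    rw [Finset.mul_sum, Finset.mul_sum]
    refine Finset.sum_le_sum fun p hp => ?_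
    rw [Finset.mem_filter, Finset.mem_Ioc] at hp
    obtain ⟨⟨hp1, hp2⟩, hpp⟩ := hp
    have hlp : 0 ≤ Real.log p := Real.log_natCast_nonneg p
    have hlt : 3 / 2 * ar n < p := Nat.lt_of_floor_lt hp1
    have hc : 3 * (3 * n + 1) < 2 * p + 1 := by
      have : (3 : ℝ) * (3 * n + 1) < 2 * p := by rw [ar_eq] at hlt; linarith
      have : 3 * (3 * n + 1) < 2 * p := by exact_mod_cast this
      omega
    have := h4 p hpp hc hp2
    have e1 : 361 / 8 * (ar n * ((2 - (p : ℝ) / ar n) * Real.log p)) =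
        361 / 8 * (2 * (3 * (n : ℝ) + 1) - p) * Real.log p := by
      rw [← ar_eq]; field_simp
    rw [e1]
    exact mul_le_mul_of_nonneg_right this hlp
  have hIcc : Finset.Icc 1 (2 * (3 * n + 1)) = Finset.Ioc 0 (2 * (3 * n + 1)) := by
    ext x; simp [Nat.succ_le_iff]
  rw [hIcc, Finset.sum_filter,
    ← Finset.sum_Ioc_consecutive _ (Nat.zero_le _) hf2,
    ← Finset.sum_Ioc_consecutive _ (Nat.zero_le _) hf1, ← Finset.sum_filter, ← Finset.sum_filter,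
    ← Finset.sum_filter]
  have hfin := hn₁ n hnn1
  rw [div_lt_iff₀ (by positivity)] at hfin
  unfold V9 at hfin
  rw [← ar_eq]
  linarith

end Z579
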