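import Pool.Agent.Lib.Z579.E6Defs
import Pool.Agent.Lib.Z579.M9

/-!
# M9g: the p-adic total, general parameters
-/

open Filter Topology Finset MeasureTheory

namespace Z579

namespace EM

/-- `a` as a real number -/
noncomputable def aG (al k : ℕ) : ℝ := ((al * k + 1 : ℕ) : ℝ)

lemma aG_eq (al k : ℕ) : aG al k = al * k + 1 := by unfold aG; push_cast; ring

lemma aG_pos (al k : ℕ) : 0 < aG al k := by rw [aG_eq]; positivity

lemma one_le_aG (al k : ℕ) : 1 ≤ aG al k := by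
  rw [aG_eq]
  have : (0 : ℝ) ≤ al * k := by positivity
  linarith

lemma aG_le (al k : ℕ) (hk : 1 ≤ k) : aG al k ≤ (al + 1) * k := by
  rw [aG_eq]
  have : (1 : ℝ) ≤ k := by exact_mod_cast hk
  nlinarith

lemma le_aG (al k : ℕ) (hal : 1 ≤ al) : (k : ℝ) ≤ aG al k := by
  rw [aG_eq]
  have : (1 : ℝ) ≤ al := by exact_mod_cast hal
  have hk : (0 : ℝ) ≤ k := Nat.cast_nonneg k
  nlinarith

lemma tendsto_aG (al : ℕ) (hal : 1 ≤ al) : Tendsto (aG al) atTop atTop :=
  tendsto_atTop_mono (fun k => le_aG al k hal) tendsto_natCast_atTop_atTop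

lemma tendsto_aG_div (al : ℕ) : Tendsto (fun k : ℕ => aG al k / k) atTop (𝓝 al) := by
  have h1 : Tendsto (fun k : ℕ => (al : ℝ) + 1 / (k : ℝ)) atTop (𝓝 (al + 0)) :=
    tendsto_const_nhds.add tendsto_one_div_atTop_nhds_zero_nat
  rw [add_zero] at h1
  refine h1.congr' ?_
  filter_upwards [eventually_gt_atTop 0] with k hk
  have hk' : (k : ℝ) ≠ 0 := by exact_mod_cast hk.ne'
  rw [aG_eq]
  field_simp

lemma floor_one_aG (al k : ℕ) : ⌊(1 : ℝ) * aG al k⌋₊ = al * k + 1 := by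
  unfold aG; rw [one_mul, Nat.floor_natCast]

lemma floor_zero_aG (al k : ℕ) : ⌊(0 : ℝ) * aG al k⌋₊ = 0 := by rw [zero_mul, Nat.floor_zero]

lemma floor_al (al k : ℕ) : ⌊(al : ℝ) * (k : ℝ)⌋₊ = al * k := by
  rw [← Nat.cast_mul, Nat.floor_natCast]

lemma floor_two_al (al k : ℕ) : ⌊(2 * al : ℝ) * (k : ℝ)⌋₊ = 2 * al * k := by
  have : (2 * al : ℝ) * (k : ℝ) = ((2 * al * k : ℕ) : ℝ) := by push_cast; ring
  rw [this, Nat.floor_natCast]

lemma m7bk (α β : ℝ) (f : ℝ → ℝ) (h1 : 0 ≤ α) (h2 : α ≤ β) (h3 : ContinuousOn f (Set.Icc α β)) :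
    Tendsto (fun k : ℕ => PS f (k : ℝ) ⌊α * (k : ℝ)⌋₊ ⌊β * (k : ℝ)⌋₊ / (k : ℝ)) atTop
      (𝓝 (∫ t in α..β, f t)) := (m7b α β f h1 h2 h3).comp tendsto_natCast_atTop_atTop

lemma m7ba (al : ℕ) (hal : 1 ≤ al) :
    Tendsto (fun k : ℕ => PS (fun t => t) (aG al k) ⌊(0 : ℝ) * aG al k⌋₊ ⌊(1 : ℝ) * aG al k⌋₊ /
      aG al k) atTop (𝓝 (1 / 2)) := by
  have h := (m7b 0 1 (fun t => t) le_rfl zero_le_one continuousOn_id).comp (tendsto_aG al hal)
  have i3 : ∫ t in (0 : ℝ)..1, t = 1 / 2 := by rw [integral_id]; norm_num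
  rw [i3] at h
  exact h

lemma tendsto_logK (K : ℝ) (hK : 0 < K) :
    Tendsto (fun k : ℕ => Real.log (K * k) / √(k : ℝ)) atTop (𝓝 0) := by
  have e3 : Tendsto (fun x : ℝ => Real.log x / x ^ (1 / 2 : ℝ)) atTop (𝓝 0) :=
    (isLittleO_log_rpow_atTop (by norm_num : (0 : ℝ) < 1 / 2)).tendsto_div_nhds_zero
  have e4 := e3.comp (tendsto_natCast_atTop_atTop (R := ℝ))
  have e5 : Tendsto (fun n : ℕ => Real.log K / √(n : ℝ)) atTop (𝓝 0) := by
    apply Tendsto.div_atTop tendsto_const_nhds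
    exact (Real.tendsto_sqrt_atTop).comp (tendsto_natCast_atTop_atTop (R := ℝ))
  have e6 := e5.add e4
  rw [add_zero] at e6
  refine e6.congr' ?_
  filter_upwards [eventually_gt_atTop 0] with k hk
  have hk' : (k : ℝ) ≠ 0 := by exact_mod_cast hk.ne'
  simp only [Function.comp]
  rw [Real.log_mul hK.ne' hk', ← Real.sqrt_eq_rpow]
  ring

lemma tendsto_inv_sqrtk : Tendsto (fun k : ℕ => (√(k : ℝ))⁻¹) atTop (𝓝 0) :=
  tendsto_inv_atTop_zero.comp
    ((Real.tendsto_sqrt_atTop).comp (tendsto_natCast_atTop_atTop (R := ℝ)))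

lemma tendsto_invk : Tendsto (fun k : ℕ => ((k : ℝ))⁻¹) atTop (𝓝 0) :=
  tendsto_inv_atTop_zero.comp (tendsto_natCast_atTop_atTop (R := ℝ))

lemma theta_aG_div (al : ℕ) (hal : 1 ≤ al) :
    Tendsto (fun k : ℕ => Chebyshev.theta (al * k + 1 : ℕ) / k) atTop (𝓝 al) := by
  have h1 := PNT.theta_tendsto.comp (tendsto_aG al hal)
  have h2 := h1.mul (tendsto_aG_div al)
  rw [one_mul] at h2
  refine h2.congr fun k => ?_
  simp only [Function.comp]
  have := (aG_pos al k).ne'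
  unfold aG at this ⊢
  field_simp

lemma Eg_eq (q al mu k : ℕ) : Eg q al mu k = 2 * q * aG al k * (mu * k) - 2 * (mu * k) ^ 2 := by
  unfold Eg; rw [aG_eq]

lemma Eg_nonneg (q al mu k : ℕ) (h : mu ≤ q * al) : 0 ≤ Eg q al mu k := by
  have h1 : (mu : ℝ) ≤ q * al := by exact_mod_cast h
  have hk : (0 : ℝ) ≤ k := Nat.cast_nonneg k
  have hq : (0 : ℝ) ≤ q := Nat.cast_nonneg q
  have hmu : (0 : ℝ) ≤ mu := Nat.cast_nonneg mu
  have h2 : (mu : ℝ) * k ≤ q * al * k := mul_le_mul_of_nonneg_right h1 hk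
  have h3 : Eg q al mu k = 2 * (mu * k) * (q * (al * k + 1) - mu * k) := by unfold Eg; ring
  rw [h3]
  have h4 : 0 ≤ (q : ℝ) * (al * k + 1) - mu * k := by nlinarith
  positivity

/-- the limit of `Eg / k ^ 2` -/
noncomputable def Ei (q al mu : ℕ) : ℝ := 2 * q * al * mu - 2 * mu ^ 2

lemma Eg_split (q al mu k : ℕ) : Eg q al mu k = Ei q al mu * k ^ 2 + 2 * q * mu * k := by
  unfold Eg Ei; ring

lemma Ei_nonneg (q al mu : ℕ) (h : mu ≤ q * al) : 0 ≤ Ei q al mu := by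
  have h1 : (mu : ℝ) ≤ q * al := by exact_mod_cast h
  have hmu : (0 : ℝ) ≤ mu := Nat.cast_nonneg mu
  unfold Ei
  nlinarith

lemma tendsto_Eg (q al mu : ℕ) :
    Tendsto (fun k : ℕ => Eg q al mu k / (k : ℝ) ^ 2) atTop (𝓝 (Ei q al mu)) := by
  have h1 : Tendsto (fun k : ℕ => Ei q al mu + 2 * q * mu * ((k : ℝ))⁻¹) atTop
      (𝓝 (Ei q al mu + 2 * q * mu * 0)) := tendsto_const_nhds.add (tendsto_invk.const_mul _)
  rw [mul_zero, add_zero] at h1
  refine h1.congr' ?_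
  filter_upwards [eventually_gt_atTop 0] with k hk
  have hk' : (k : ℝ) ≠ 0 := by exact_mod_cast hk.ne'
  rw [Eg_split]
  field_simp

lemma tendsto_Eg_log (q al mu : ℕ) (hal : 1 ≤ al) :
    Tendsto (fun k : ℕ => (Eg q al mu k * Real.log (aG al k) - Ei q al mu * k ^ 2 * Real.log k) /
      (k : ℝ) ^ 2) atTop (𝓝 (Ei q al mu * Real.log al)) := by
  have hal' : (0 : ℝ) < al := by exact_mod_cast hal
  have h1 : Tendsto (fun k : ℕ => Real.log (aG al k / k)) atTop (𝓝 (Real.log al)) :=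
    (tendsto_aG_div al).log hal'.ne'
  -- log a / k → 0
  have h2 : Tendsto (fun k : ℕ => Real.log (aG al k) / (k : ℝ)) atTop (𝓝 0) := by
    have e3 : Tendsto (fun x : ℝ => Real.log x / x) atTop (𝓝 0) := by
      simpa using (Real.isLittleO_log_id_atTop).tendsto_div_nhds_zero
    have e4 := (e3.comp (tendsto_aG al hal)).mul (tendsto_aG_div al)
    rw [zero_mul] at e4
    refine e4.congr fun k => ?_
    simp only [Function.comp]
    have := (aG_pos al k).ne'
    field_simp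
  have h3 := (h1.const_mul (Ei q al mu)).add (h2.const_mul (2 * q * mu : ℝ))
  rw [mul_zero, add_zero] at h3
  refine h3.congr' ?_
  filter_upwards [eventually_gt_atTop 0] with k hk
  have hk' : (k : ℝ) ≠ 0 := by exact_mod_cast hk.ne'
  rw [Real.log_div (aG_pos al k).ne' hk', Eg_split]
  field_simp
  ring

/-- size bound for the logarithm -/
noncomputable def KX (al mu : ℕ) : ℝ := 4 * (al + 1) + 2 * mu

lemma KX_pos (al mu : ℕ) : 0 < KX al mu := by unfold KX; positivity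

lemma log_X_le (al mu k : ℕ) (hk : 1 ≤ k) :
    Real.log ((2 * ((al * k + 1) + (al * k + 1) + mu * k) : ℕ) : ℝ) ≤
      Real.log (KX al mu * k) := by
  have hk' : (1 : ℝ) ≤ k := by exact_mod_cast hk
  apply Real.log_le_log (by positivity)
  unfold KX
  push_cast
  nlinarith

/-- the error term -/
noncomputable def errG (q al mu : ℕ) (C c : ℝ) (k : ℕ) : ℝ :=
  C * (mu * k) * (Nat.sqrt (2 * (al * k + 1)) *
    (2 * Real.log ((2 * ((al * k + 1) + (al * k + 1) + mu * k) : ℕ) : ℝ))) +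
  4 * (mu * k) ^ 2 / √(2 * aG al k) * (Real.log (aG al k) + (|c| + 1)) +
  (q : ℝ) ^ 2 / 4 * Chebyshev.theta (al * k + 1 : ℕ)

lemma tendsto_errG (q al mu : ℕ) (hal : 1 ≤ al) (C c : ℝ) (hC : 0 ≤ C) :
    Tendsto (fun k : ℕ => errG q al mu C c k / (k : ℝ) ^ 2) atTop (𝓝 0) := by
  have hK := KX_pos al mu
  have h3 : Tendsto (fun k : ℕ => (C * mu * (√(2 * (al + 1)) * 2)) *
      (Real.log (KX al mu * k) / √(k : ℝ))) atTop (𝓝 ((C * mu * (√(2 * (al + 1)) * 2)) * 0)) :=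
    (tendsto_logK _ hK).const_mul _
  have h2 : Tendsto (fun k : ℕ => (4 * (mu : ℝ) ^ 2) * (Real.log ((al + 1) * k) / √(k : ℝ) +
      (|c| + 1) * (√(k : ℝ))⁻¹)) atTop (𝓝 ((4 * (mu : ℝ) ^ 2) * (0 + (|c| + 1) * 0))) :=
    ((tendsto_logK ((al : ℝ) + 1) (by positivity)).add
      (tendsto_inv_sqrtk.const_mul _)).const_mul _
  have h1 : Tendsto (fun k : ℕ => (q : ℝ) ^ 2 / 4 *
      (Chebyshev.theta (al * k + 1 : ℕ) / k * ((k : ℝ))⁻¹)) atTop
      (𝓝 ((q : ℝ) ^ 2 / 4 * (al * 0))) :=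
    ((theta_aG_div al hal).mul tendsto_invk).const_mul _
  have h4 := (h3.add h2).add h1
  simp only [mul_zero, add_zero] at h4
  refine squeeze_zero' ?_ ?_ h4
  · filter_upwards [eventually_gt_atTop 0] with k hk
    have l1 : 0 ≤ Real.log ((2 * ((al * k + 1) + (al * k + 1) + mu * k) : ℕ) : ℝ) :=
      Real.log_natCast_nonneg _
    have l2 : 0 ≤ Real.log (aG al k) := Real.log_nonneg (one_le_aG al k)
    have l3 := Chebyshev.theta_nonneg (al * k + 1 : ℕ)
    unfold errG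
    positivity
  · filter_upwards [eventually_ge_atTop 1] with k hk
    have hk' : (1 : ℝ) ≤ k := by exact_mod_cast hk
    have hk0 : (0 : ℝ) < k := by linarith
    have hs : 0 < √(k : ℝ) := Real.sqrt_pos.mpr hk0
    have hsq : √(k : ℝ) * √(k : ℝ) = k := Real.mul_self_sqrt hk0.le
    have ha := aG_pos al k
    have hlog := log_X_le al mu k hk
    have hlog0 : 0 ≤ Real.log ((2 * ((al * k + 1) + (al * k + 1) + mu * k) : ℕ) : ℝ) :=
      Real.log_natCast_nonneg _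
    have hsqrt : (Nat.sqrt (2 * (al * k + 1)) : ℝ) ≤ √(2 * (al + 1)) * √(k : ℝ) := by
      rw [← Real.sqrt_mul (by positivity)]
      refine Real.nat_sqrt_le_real_sqrt.trans (Real.sqrt_le_sqrt ?_)
      push_cast
      nlinarith
    have t1 : C * (mu * k) * (Nat.sqrt (2 * (al * k + 1)) *
        (2 * Real.log ((2 * ((al * k + 1) + (al * k + 1) + mu * k) : ℕ) : ℝ))) ≤
        C * (mu * k) * ((√(2 * (al + 1)) * √(k : ℝ)) * (2 * Real.log (KX al mu * k))) := by
      apply mul_le_mul_of_nonneg_left _ (by positivity)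
      exact mul_le_mul hsqrt (by linarith) (by positivity) (by positivity)
    have e1 : C * (mu * k) * ((√(2 * (al + 1)) * √(k : ℝ)) * (2 * Real.log (KX al mu * k))) /
        (k : ℝ) ^ 2 = (C * mu * (√(2 * (al + 1)) * 2)) * (Real.log (KX al mu * k) / √(k : ℝ)) := by
      have : (k : ℝ) ^ 2 = k * (√(k : ℝ) * √(k : ℝ)) := by rw [hsq]; ring
      rw [this]
      field_simp
    have hloga : Real.log (aG al k) ≤ Real.log ((al + 1) * k) :=
      Real.log_le_log ha (aG_le al k hk)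
    have hloga0 : 0 ≤ Real.log (aG al k) := Real.log_nonneg (one_le_aG al k)
    have hsqa : √(k : ℝ) ≤ √(2 * aG al k) := by
      apply Real.sqrt_le_sqrt
      have := le_aG al k hal
      linarith
    have t2 : 4 * (mu * (k : ℝ)) ^ 2 / √(2 * aG al k) * (Real.log (aG al k) + (|c| + 1)) ≤
        4 * (mu * (k : ℝ)) ^ 2 / √(k : ℝ) * (Real.log ((al + 1) * k) + (|c| + 1)) := by
      apply mul_le_mul
      · exact div_le_div_of_nonneg_left (by positivity) hs hsqa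
      · linarith
      · positivity
      · positivity
    have e2 : 4 * (mu * (k : ℝ)) ^ 2 / √(k : ℝ) * (Real.log ((al + 1) * k) + (|c| + 1)) /
        (k : ℝ) ^ 2 = (4 * (mu : ℝ) ^ 2) * (Real.log ((al + 1) * k) / √(k : ℝ) +
      (|c| + 1) * (√(k : ℝ))⁻¹) := by
      field_simp
    have e3 : (q : ℝ) ^ 2 / 4 * Chebyshev.theta (al * k + 1 : ℕ) / (k : ℝ) ^ 2 =
        (q : ℝ) ^ 2 / 4 * (Chebyshev.theta (al * k + 1 : ℕ) / k * ((k : ℝ))⁻¹) := by
      field_simp
    unfold errG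
    rw [add_div, add_div, e3, ← e1, ← e2]
    gcongr

/-- pointwise bound for `p ≤ a` -/
lemma point_smallG (r q al mu : ℕ) (C : ℝ) (hC : 0 ≤ C) (hmu : mu ≤ q * al) (k : ℕ)
    (b : ℝ) (p : ℕ) (hp : p.Prime) (hpa : p ≤ al * k + 1)
    (h1 : p ^ 2 < 2 * (al * k + 1) →
      b ≤ Eg q al mu k / (p - 1) +
        C * (1 + Nat.log p (2 * ((al * k + 1) + (al * k + 1) + mu * k))) * (mu * k))
    (h2 : 2 * (al * k + 1) ≤ p ^ 2 →
      b ≤ (r + 1) * (mu * k) + Eg q al mu k / p + (q : ℝ) ^ 2 / 32 * p +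
      1 / 8 * (4 * (mu * k) / p + q) ^ 2) :
    b * Real.log p ≤ Eg q al mu k * (Real.log p / (p - 1)) + (r + 1) * (mu * k) * Real.log p +
      (q : ℝ) ^ 2 / 32 * (p * Real.log p) +
      (if p ≤ Nat.sqrt (2 * (al * k + 1)) then C * (mu * k) *
        (2 * Real.log ((2 * ((al * k + 1) + (al * k + 1) + mu * k) : ℕ) : ℝ)) else 0) +
      4 * (mu * k) ^ 2 / √(2 * aG al k) * (Real.log p / (p - 1)) +
      (q : ℝ) ^ 2 / 4 * Real.log p := by
  have hk0 : (0 : ℝ) ≤ k := Nat.cast_nonneg k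
  have ha := aG_pos al k
  have hp2 : (2 : ℝ) ≤ p := by exact_mod_cast hp.two_le
  have hp0 : (0 : ℝ) < p := by linarith
  have hp1 : (0 : ℝ) < p - 1 := by linarith
  have hlp : 0 ≤ Real.log p := Real.log_natCast_nonneg p
  have hEn : 0 ≤ Eg q al mu k := Eg_nonneg q al mu k hmu
  have hX0 : 0 ≤ Real.log ((2 * ((al * k + 1) + (al * k + 1) + mu * k) : ℕ) : ℝ) :=
    Real.log_natCast_nonneg _
  have q1 : 0 ≤ ((r : ℝ) + 1) * (mu * (k : ℝ)) * Real.log p := by positivity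
  have q2 : 0 ≤ (q : ℝ) ^ 2 / 32 * ((p : ℝ) * Real.log p) := by positivity
  have q3 : 0 ≤ 4 * (mu * (k : ℝ)) ^ 2 / √(2 * aG al k) * (Real.log p / (p - 1)) := by positivity
  have q4 : 0 ≤ Eg q al mu k * (Real.log p / (p - 1)) := by positivity
  have q6 : 0 ≤ (q : ℝ) ^ 2 / 4 * Real.log p := by positivity
  set X := (2 * ((al * k + 1) + (al * k + 1) + mu * k)) with hXdef
  by_cases hc : p ^ 2 < 2 * (al * k + 1)
  · have hb := h1 hc
    have hsq : p ≤ Nat.sqrt (2 * (al * k + 1)) := by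
      rw [Nat.le_sqrt]; nlinarith
    rw [if_pos hsq]
    have hXne : X ≠ 0 := by omega
    have hlogX : (Nat.log p X : ℝ) * Real.log p ≤ Real.log (X : ℝ) := by
      rw [← Real.log_pow]
      refine Real.log_le_log (pow_pos hp0 _) ?_
      exact_mod_cast Nat.pow_log_le_self p hXne
    have hlogp : Real.log p ≤ Real.log (X : ℝ) := by
      apply Real.log_le_log hp0
      have : p ≤ X := by omega
      exact_mod_cast this
    have hm := mul_le_mul_of_nonneg_right hb hlp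
    have e1 : (Eg q al mu k / (p - 1) + C * (1 + (Nat.log p X : ℝ)) * (mu * k)) * Real.log p =
        Eg q al mu k * (Real.log p / (p - 1)) +
          C * (mu * k) * (Real.log p + (Nat.log p X : ℝ) * Real.log p) := by ring
    rw [e1] at hm
    have e2 : C * (mu * k) * (Real.log p + (Nat.log p X : ℝ) * Real.log p) ≤
        C * (mu * k) * (2 * Real.log (X : ℝ)) :=
      mul_le_mul_of_nonneg_left (by linarith) (by positivity)
    linarith
  · push Not at hc
    have hb := h2 hc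
    have q5 : 0 ≤ (if p ≤ Nat.sqrt (2 * (al * k + 1)) then C * (mu * (k : ℝ)) *
        (2 * Real.log (X : ℝ)) else 0) := by
      split_ifs
      · positivity
      · exact le_rfl
    have hm := mul_le_mul_of_nonneg_right hb hlp
    have hs0 : 0 < √(2 * aG al k) := Real.sqrt_pos.mpr (by positivity)
    have hsp : √(2 * aG al k) ≤ p := by
      rw [Real.sqrt_le_left hp0.le]
      have : ((2 * (al * k + 1) : ℕ) : ℝ) ≤ ((p ^ 2 : ℕ) : ℝ) := by exact_mod_cast hc
      rw [aG_eq]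
      push_cast at this
      linarith
    have e1 : 1 / 8 * (4 * (mu * (k : ℝ)) / p + q) ^ 2 ≤
        4 * (mu * (k : ℝ)) ^ 2 / (p : ℝ) ^ 2 + (q : ℝ) ^ 2 / 4 := by
      have e2 : 4 * (mu * (k : ℝ)) ^ 2 / (p : ℝ) ^ 2 = 1 / 4 * (4 * (mu * (k : ℝ)) / p) ^ 2 := by
        field_simp
      rw [e2]
      nlinarith [sq_nonneg (4 * (mu * (k : ℝ)) / p - q)]
    have e3 : 4 * (mu * (k : ℝ)) ^ 2 / (p : ℝ) ^ 2 * Real.log p ≤
        4 * (mu * (k : ℝ)) ^ 2 / √(2 * aG al k) * (Real.log p / (p - 1)) := by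
      rw [div_mul_div_comm, div_mul_eq_mul_div]
      apply div_le_div_of_nonneg_left (by positivity) (by positivity)
      nlinarith
    have e4 : Eg q al mu k / p ≤ Eg q al mu k / (p - 1) :=
      div_le_div_of_nonneg_left hEn hp1 (by linarith)
    have e5 := mul_le_mul_of_nonneg_right e4 hlp
    have e6 := mul_le_mul_of_nonneg_right e1 hlp
    have e7 : Eg q al mu k / (p - 1) * Real.log p = Eg q al mu k * (Real.log p / (p - 1)) := by ring
    nlinarith

lemma sum_smallG (r q al mu : ℕ) (C c ε : ℝ) (hC : 0 ≤ C) (hε1 : ε ≤ 1)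
    (hmu : mu ≤ q * al) (k : ℕ) (β : ℕ → ℝ)
    (hM : ∑ p ∈ (Finset.Icc 1 (al * k + 1)).filter Nat.Prime, Real.log p / ((p : ℝ) - 1) ≤
      Real.log (aG al k) - c + ε)
    (h1 : ∀ p : ℕ, p.Prime → p ^ 2 < 2 * (al * k + 1) →
      β p ≤ Eg q al mu k / (p - 1) +
        C * (1 + Nat.log p (2 * ((al * k + 1) + (al * k + 1) + mu * k))) * (mu * k))
    (h2 : ∀ p : ℕ, p.Prime → 2 * (al * k + 1) ≤ p ^ 2 → p ≤ al * k + 1 →
      β p ≤ (r + 1) * (mu * k) + Eg q al mu k / p + (q : ℝ) ^ 2 / 32 * p +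
      1 / 8 * (4 * (mu * k) / p + q) ^ 2) :
    ∑ p ∈ (Finset.Ioc 0 (al * k + 1)).filter Nat.Prime, β p * Real.log p ≤
      Eg q al mu k * (Real.log (aG al k) - c + ε) +
      ((r + 1) * (mu * k) * Chebyshev.theta (al * k + 1 : ℕ) +
    (q : ℝ) ^ 2 / 32 * (aG al k * PS (fun t => t) (aG al k) ⌊(0 : ℝ) * aG al k⌋₊
      ⌊(1 : ℝ) * aG al k⌋₊) + errG q al mu C c k) := by
  have hk0 : (0 : ℝ) ≤ k := Nat.cast_nonneg k
  have ha := aG_pos al k
  have hIcc : Finset.Icc 1 (al * k + 1) = Finset.Ioc 0 (al * k + 1) := by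
    ext x; simp [Nat.succ_le_iff]
  rw [hIcc] at hM
  have hth : ∑ p ∈ (Finset.Ioc 0 (al * k + 1)).filter Nat.Prime, Real.log p =
      Chebyshev.theta (al * k + 1 : ℕ) := by
    unfold Chebyshev.theta; rw [Nat.floor_natCast]
  have hEn : 0 ≤ Eg q al mu k := Eg_nonneg q al mu k hmu
  have hX0 : 0 ≤ Real.log ((2 * ((al * k + 1) + (al * k + 1) + mu * k) : ℕ) : ℝ) :=
    Real.log_natCast_nonneg _
  refine (Finset.sum_le_sum (g := fun p : ℕ => Eg q al mu k * (Real.log p / (p - 1)) +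
      (r + 1) * (mu * k) * Real.log p + (q : ℝ) ^ 2 / 32 * (p * Real.log p) +
      (if p ≤ Nat.sqrt (2 * (al * k + 1)) then C * (mu * k) *
        (2 * Real.log ((2 * ((al * k + 1) + (al * k + 1) + mu * k) : ℕ) : ℝ)) else 0) +
      4 * (mu * k) ^ 2 / √(2 * aG al k) * (Real.log p / (p - 1)) + (q : ℝ) ^ 2 / 4 * Real.log p)
    (fun p hp => by
      rw [Finset.mem_filter, Finset.mem_Ioc] at hp
      exact point_smallG r q al mu C hC hmu k (β p) p hp.2 hp.1.2 (h1 p hp.2)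
        (fun h => h2 p hp.2 h hp.1.2))).trans ?_
  rw [Finset.sum_add_distrib, Finset.sum_add_distrib, Finset.sum_add_distrib,
    Finset.sum_add_distrib, Finset.sum_add_distrib, ← Finset.mul_sum, ← Finset.mul_sum,
    ← Finset.mul_sum, ← Finset.mul_sum, ← Finset.mul_sum, hth]
  have hPS : ∑ p ∈ (Finset.Ioc 0 (al * k + 1)).filter Nat.Prime, (p : ℝ) * Real.log p =
      aG al k * PS (fun t => t) (aG al k) ⌊(0 : ℝ) * aG al k⌋₊ ⌊(1 : ℝ) * aG al k⌋₊ := by
    rw [floor_zero_aG, floor_one_aG]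
    unfold PS
    rw [Finset.mul_sum]
    refine Finset.sum_congr rfl fun p _ => ?_
    field_simp
  rw [hPS]
  have hsum1 : ∑ p ∈ (Finset.Ioc 0 (al * k + 1)).filter Nat.Prime,
      (if p ≤ Nat.sqrt (2 * (al * k + 1)) then C * (mu * (k : ℝ)) *
        (2 * Real.log ((2 * ((al * k + 1) + (al * k + 1) + mu * k) : ℕ) : ℝ)) else 0) ≤
      C * (mu * k) * (Nat.sqrt (2 * (al * k + 1)) *
    (2 * Real.log ((2 * ((al * k + 1) + (al * k + 1) + mu * k) : ℕ) : ℝ))) := by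
    rw [← Finset.sum_filter, Finset.sum_const, nsmul_eq_mul]
    have h6 : ((Finset.Ioc 0 (al * k + 1)).filter Nat.Prime).filter
        (fun p => p ≤ Nat.sqrt (2 * (al * k + 1))) ⊆
        Finset.Ioc 0 (Nat.sqrt (2 * (al * k + 1))) := by
      intro p hp
      rw [Finset.mem_filter, Finset.mem_filter, Finset.mem_Ioc] at hp
      rw [Finset.mem_Ioc]
      exact ⟨hp.1.1.1, hp.2⟩
    have h7 := Finset.card_le_card h6
    rw [Nat.card_Ioc, Nat.sub_zero] at h7
    have h8 : ((((Finset.Ioc 0 (al * k + 1)).filter Nat.Prime).filter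
        (fun p => p ≤ Nat.sqrt (2 * (al * k + 1)))).card : ℝ) ≤
        Nat.sqrt (2 * (al * k + 1)) := by
      exact_mod_cast h7
    calc _ ≤ (Nat.sqrt (2 * (al * k + 1)) : ℝ) * (C * (mu * (k : ℝ)) *
        (2 * Real.log ((2 * ((al * k + 1) + (al * k + 1) + mu * k) : ℕ) : ℝ))) :=
          mul_le_mul_of_nonneg_right h8 (by positivity)
      _ = _ := by ring
  have hE := mul_le_mul_of_nonneg_left hM hEn
  have hM2 : ∑ p ∈ (Finset.Ioc 0 (al * k + 1)).filter Nat.Prime,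
      Real.log p / ((p : ℝ) - 1) ≤ Real.log (aG al k) + (|c| + 1) := by
    have := neg_abs_le c
    linarith
  have hE2 := mul_le_mul_of_nonneg_left hM2
    (show 0 ≤ 4 * (mu * (k : ℝ)) ^ 2 / √(2 * aG al k) by positivity)
  unfold errG
  linarith

/-- upper bound for the total, main logarithmic term removed -/
noncomputable def VG (r q al mu : ℕ) (l1 x1 c ε C : ℝ) (k : ℕ) : ℝ :=
  (Eg q al mu k * Real.log (aG al k) - Ei q al mu * k ^ 2 * Real.log k) +
  (ε - c) * Eg q al mu k + (r + 1) * (mu * k) * Chebyshev.theta (al * k + 1 : ℕ) +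
  (q : ℝ) ^ 2 / 32 * (aG al k * PS (fun t => t) (aG al k) ⌊(0 : ℝ) * aG al k⌋₊
    ⌊(1 : ℝ) * aG al k⌋₊) + errG q al mu C c k +
  ((l1 * (mu * k) + (2 * q + r + 1 - l1) ^ 2 / 4) *
      PS (fun _ => 1) k ⌊(al : ℝ) * k⌋₊ ⌊x1 * k⌋₊ +
    (2 * q + r + 1 - l1) ^ 2 / 8 *
      (k * PS (fun t => 2 * al - t) k ⌊(al : ℝ) * k⌋₊ ⌊x1 * k⌋₊)) +
  ((2 * q + r + 1) ^ 2 / 4 * PS (fun _ => 1) k ⌊x1 * k⌋₊ ⌊(2 * al : ℝ) * k⌋₊ +
    (2 * q + r + 1) ^ 2 / 8 *
      (k * PS (fun t => 2 * al - t) k ⌊x1 * k⌋₊ ⌊(2 * al : ℝ) * k⌋₊)) +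
  (2 * q + r + 1) ^ 2 / 4 * Real.log (KX al mu * k)

lemma integral_lin (A α β : ℝ) :
    ∫ t in α..β, (A - t) = ((A - α) ^ 2 - (A - β) ^ 2) / 2 := by
  rw [intervalIntegral.integral_sub intervalIntegrable_const intervalIntegral.intervalIntegrable_id,
    integral_id, intervalIntegral.integral_const, smul_eq_mul]
  ring

lemma integral_cst (α β : ℝ) : ∫ _t in α..β, (1 : ℝ) = β - α := by
  rw [intervalIntegral.integral_const, smul_eq_mul]; ring

lemma tendsto_VG (r q al mu : ℕ) (l1 x1 c ε C : ℝ) (hal : 1 ≤ al) (hC : 0 ≤ C)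
    (hx1 : (al : ℝ) ≤ x1) (hx2 : x1 ≤ 2 * al) :
    Tendsto (fun k : ℕ => VG r q al mu l1 x1 c ε C k / (k : ℝ) ^ 2) atTop
      (𝓝 (P0 r q al mu l1 x1 c + ε * Ei q al mu)) := by
  have hal0 : (0 : ℝ) ≤ al := Nat.cast_nonneg al
  have k0 := tendsto_Eg_log q al mu hal
  have k1 := (tendsto_Eg q al mu).const_mul (ε - c)
  have k2 := (theta_aG_div al hal).const_mul ((r + 1) * (mu : ℝ))
  have k3 := (((tendsto_aG_div al).pow 2).mul (m7ba al hal)).const_mul ((q : ℝ) ^ 2 / 32)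
  have k4 := tendsto_errG q al mu hal C c hC
  have p1 := m7bk al x1 (fun _ => 1) hal0 hx1 continuousOn_const
  have k5 := (p1.const_mul (l1 * (mu : ℝ))).add
    ((p1.mul tendsto_invk).const_mul ((2 * q + r + 1 - l1) ^ 2 / 4 : ℝ))
  have k6 := (m7bk al x1 (fun t => 2 * al - t) hal0 hx1
    (continuousOn_const.sub continuousOn_id)).const_mul ((2 * q + r + 1 - l1) ^ 2 / 8 : ℝ)
  have p2 := m7bk x1 (2 * al) (fun _ => 1) (hal0.trans hx1) hx2 continuousOn_const
  have k7 := (p2.mul tendsto_invk).const_mul ((2 * q + r + 1) ^ 2 / 4 : ℝ)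
  have k8 := (m7bk x1 (2 * al) (fun t => 2 * al - t) (hal0.trans hx1) hx2
    (continuousOn_const.sub continuousOn_id)).const_mul ((2 * q + r + 1) ^ 2 / 8 : ℝ)
  have k9 : Tendsto (fun k : ℕ => (2 * q + r + 1 : ℝ) ^ 2 / 4 *
      (Real.log (KX al mu * k) / √(k : ℝ) * ((√(k : ℝ))⁻¹ * (k : ℝ)⁻¹))) atTop
      (𝓝 ((2 * q + r + 1 : ℝ) ^ 2 / 4 * (0 * (0 * 0)))) :=
    ((tendsto_logK _ (KX_pos al mu)).mul (tendsto_inv_sqrtk.mul tendsto_invk)).const_mul _
  rw [integral_cst] at k5 k7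
  rw [integral_lin] at k6 k8
  have K := (((((k0.add k1).add k2).add k3).add k4).add (k5.add k6)).add (k7.add k8) |>.add k9
  have hlim : Ei q al mu * Real.log al + (ε - c) * Ei q al mu + (r + 1) * (mu : ℝ) * al +
      (q : ℝ) ^ 2 / 32 * ((al : ℝ) ^ 2 * (1 / 2)) + 0 +
      (l1 * (mu : ℝ) * (x1 - al) + (2 * q + r + 1 - l1) ^ 2 / 4 * ((x1 - al) * 0) +
        (2 * q + r + 1 - l1) ^ 2 / 8 * (((2 * al - al) ^ 2 - (2 * al - x1) ^ 2) / 2)) +
      ((2 * q + r + 1) ^ 2 / 4 * ((2 * al - x1) * 0) +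
        (2 * q + r + 1) ^ 2 / 8 * (((2 * al - x1) ^ 2 - (2 * al - 2 * al) ^ 2) / 2)) +
      (2 * q + r + 1 : ℝ) ^ 2 / 4 * (0 * (0 * 0)) =
      P0 r q al mu l1 x1 c + ε * Ei q al mu := by
    unfold P0 Ei
    ring
  rw [hlim] at K
  refine K.congr' ?_
  filter_upwards [eventually_gt_atTop 0] with k hk
  have hk' : (0 : ℝ) < k := by exact_mod_cast hk
  have hs : 0 < √(k : ℝ) := Real.sqrt_pos.mpr hk'
  have hsq : √(k : ℝ) * √(k : ℝ) = k := Real.mul_self_sqrt hk'.le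
  have ha := (aG_pos al k).ne'
  have e9 : (2 * q + r + 1 : ℝ) ^ 2 / 4 *
      (Real.log (KX al mu * k) / √(k : ℝ) * ((√(k : ℝ))⁻¹ * (k : ℝ)⁻¹)) =
      (2 * q + r + 1) ^ 2 / 4 * Real.log (KX al mu * k) / (k : ℝ) ^ 2 := by
    have : (k : ℝ) ^ 2 = (√(k : ℝ) * √(k : ℝ)) * k := by rw [hsq]; ring
    rw [this]
    field_simp
  unfold VG
  rw [e9]
  field_simp

/-- M9g -/
theorem m9g : M9g := by
  intro r q al mu l1 x1 c hal hmu1 hmu hl0 hl1 hx1 hx2 hMert C δ hC hδ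
  have hal0 : (0 : ℝ) ≤ al := Nat.cast_nonneg al
  have hEi := Ei_nonneg q al mu hmu
  obtain ⟨ε, hε, hε1, hεE⟩ : ∃ ε : ℝ, 0 < ε ∧ ε ≤ 1 ∧ ε * Ei q al mu < δ := by
    refine ⟨min 1 (δ / (Ei q al mu + 1)), lt_min one_pos (by positivity), min_le_left _ _, ?_⟩
    calc min 1 (δ / (Ei q al mu + 1)) * Ei q al mu ≤ δ / (Ei q al mu + 1) * Ei q al mu :=
          mul_le_mul_of_nonneg_right (min_le_right _ _) hEi
      _ < δ / (Ei q al mu + 1) * (Ei q al mu + 1) :=
          mul_lt_mul_of_pos_left (by linarith) (by positivity)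
      _ = δ := by field_simp
  have hlim := tendsto_VG r q al mu l1 x1 c ε C hal hC hx1 hx2
  have hev := hlim.eventually_lt_const
    (show P0 r q al mu l1 x1 c + ε * Ei q al mu < P0 r q al mu l1 x1 c + δ by linarith)
  rw [eventually_atTop] at hev
  obtain ⟨n₁, hn₁⟩ := hev
  obtain ⟨n₂, hn₂⟩ := hMert ε hε
  refine ⟨max n₁ (max n₂ 1), fun k hk β h1 h2 h3 h4 => ?_⟩
  have hk1 : n₁ ≤ k := (le_max_left _ _).trans hk
  have hk2 : n₂ ≤ k := ((le_max_left _ _).trans (le_max_right _ _)).trans hk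
  have hk3 : 1 ≤ k := ((le_max_right _ _).trans (le_max_right _ _)).trans hk
  have ha := aG_pos al k
  have hkr : (1 : ℝ) ≤ k := by exact_mod_cast hk3
  have hk0 : (0 : ℝ) ≤ k := by linarith
  have hM := hn₂ (al * k + 1) (by nlinarith)
  have s1 := sum_smallG r q al mu C c ε hC hε1 hmu k β hM h1 h2
  -- the middle block
  set F := ⌊x1 * (k : ℝ)⌋₊ with hF
  have hf0 : al * k ≤ F := by
    rw [hF, ← floor_al al k]
    exact Nat.floor_le_floor (mul_le_mul_of_nonneg_right hx1 hk0)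
  have hf2 : F ≤ 2 * al * k := by
    rw [hF, ← floor_two_al al k]
    exact Nat.floor_le_floor (mul_le_mul_of_nonneg_right hx2 hk0)
  have hL0 : (0 : ℝ) ≤ 2 * q + r + 1 := by positivity
  -- pointwise bound above `a`
  have key1 : ∀ p : ℕ, p.Prime → al * k + 1 < p → p ≤ F →
      β p * Real.log p ≤ (l1 * (mu * k) + (2 * q + r + 1 - l1) ^ 2 / 4) * (1 * Real.log p) +
        (2 * q + r + 1 - l1) ^ 2 / 8 * (k * ((2 * al - (p : ℝ) / k) * Real.log p)) := by
    intro p hpp hp1 hp2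
    have hlp : 0 ≤ Real.log p := Real.log_natCast_nonneg p
    have hple : (p : ℝ) ≤ x1 * k := (Nat.le_floor_iff (by nlinarith)).mp hp2
    have := h3 p hpp hp1 hple
    have e1 : (l1 * (mu * k) + (2 * q + r + 1 - l1) ^ 2 / 4) * (1 * Real.log p) +
        (2 * q + r + 1 - l1) ^ 2 / 8 * (k * ((2 * al - (p : ℝ) / k) * Real.log p)) =
        (l1 * (mu * k) + (2 * q + r + 1 - l1) ^ 2 * (2 * (al * k + 1) - p) / 8) *
          Real.log p := by
      field_simp
      ring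
    rw [e1]
    exact mul_le_mul_of_nonneg_right this hlp
  have key2 : ∀ p : ℕ, p.Prime → al * k + 1 < p → F < p → p ≤ 2 * (al * k + 1) →
      β p * Real.log p ≤ (2 * q + r + 1) ^ 2 / 4 * (1 * Real.log p) +
        (2 * q + r + 1) ^ 2 / 8 * (k * ((2 * al - (p : ℝ) / k) * Real.log p)) := by
    intro p hpp hp1 hp2 hp3
    have hlp : 0 ≤ Real.log p := Real.log_natCast_nonneg p
    have hlt : x1 * k < p := Nat.lt_of_floor_lt hp2
    have := h4 p hpp hp1 hlt hp3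
    have e1 : (2 * q + r + 1) ^ 2 / 4 * (1 * Real.log p) +
        (2 * q + r + 1) ^ 2 / 8 * (k * ((2 * al - (p : ℝ) / k) * Real.log p)) =
        ((2 * q + r + 1) ^ 2 * (2 * (al * k + 1) - p) / 8) * Real.log p := by
      field_simp
      ring
    rw [e1]
    exact mul_le_mul_of_nonneg_right this hlp
  -- the function `g` = bound, nonnegative
  set G1 : ℕ → ℝ := fun p => (l1 * (mu * k) + (2 * q + r + 1 - l1) ^ 2 / 4) * (1 * Real.log p) +
        (2 * q + r + 1 - l1) ^ 2 / 8 * (k * ((2 * al - (p : ℝ) / k) * Real.log p)) with hG1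
  set G2 : ℕ → ℝ := fun p => (2 * q + r + 1) ^ 2 / 4 * (1 * Real.log p) +
        (2 * q + r + 1) ^ 2 / 8 * (k * ((2 * al - (p : ℝ) / k) * Real.log p)) with hG2
  have hlin : ∀ p : ℕ, p ≤ 2 * al * k → (0 : ℝ) ≤ 2 * al - (p : ℝ) / k := by
    intro p hp
    have : (p : ℝ) ≤ 2 * al * k := by exact_mod_cast hp
    rw [sub_nonneg, div_le_iff₀ (by linarith)]
    exact this
  have hG1n : ∀ p : ℕ, p ≤ 2 * al * k → 0 ≤ G1 p := by
    intro p hp
    have hlp : 0 ≤ Real.log p := Real.log_natCast_nonneg p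
    have := hlin p hp
    simp only [hG1]
    positivity
  have hG2n : ∀ p : ℕ, p ≤ 2 * al * k → 0 ≤ G2 p := by
    intro p hp
    have hlp : 0 ≤ Real.log p := Real.log_natCast_nonneg p
    have := hlin p hp
    simp only [hG2]
    positivity
  -- total over `(a, 2 a]`
  have t1 : ∑ p ∈ (Finset.Ioc (al * k + 1) (2 * (al * k + 1))).filter Nat.Prime,
      β p * Real.log p ≤ ∑ p ∈ (Finset.Ioc (al * k) F).filter Nat.Prime, G1 p +
        ∑ p ∈ (Finset.Ioc F (2 * al * k)).filter Nat.Prime, G2 p +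
        (2 * q + r + 1) ^ 2 / 4 * Real.log (KX al mu * k) := by
    set B : ℕ → ℝ := fun p => if p.Prime then (if p ≤ F then G1 p else G2 p) else 0 with hB
    have hBn : ∀ p : ℕ, p ≤ 2 * al * k → 0 ≤ B p := by
      intro p hp
      simp only [hB]
      split_ifs
      · exact hG1n p hp
      · exact hG2n p hp
      · exact le_rfl
    have hak : 1 ≤ al * k := Nat.mul_pos hal hk3
    have hX0 : 0 ≤ Real.log (KX al mu * k) := by
      refine le_trans ?_ (log_X_le al mu k hk3)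
      exact Real.log_natCast_nonneg _
    have u1 : ∑ p ∈ (Finset.Ioc (al * k + 1) (2 * (al * k + 1))).filter Nat.Prime,
        β p * Real.log p ≤ ∑ p ∈ Finset.Ioc (al * k + 1) (2 * (al * k + 1)), B p := by
      rw [Finset.sum_filter]
      refine Finset.sum_le_sum fun p hp => ?_
      rw [Finset.mem_Ioc] at hp
      simp only [hB]
      split_ifs with hpp hc
      · exact key1 p hpp hp.1 hc
      · exact key2 p hpp hp.1 (not_le.mp hc) hp.2
      · exact le_rfl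
    have e2a : 2 * (al * k + 1) = 2 * al * k + 2 := by ring
    have u2 : ∑ p ∈ Finset.Ioc (al * k + 1) (2 * (al * k + 1)), B p =
        ∑ p ∈ Finset.Ioc (al * k + 1) (2 * al * k), B p +
          ∑ p ∈ Finset.Ioc (2 * al * k) (2 * al * k + 2), B p := by
      rw [e2a]
      refine (Finset.sum_Ioc_consecutive B ?_ ?_).symm
      · nlinarith
      · omega
    have u3 : ∑ p ∈ Finset.Ioc (al * k + 1) (2 * al * k), B p ≤
        ∑ p ∈ Finset.Ioc (al * k) (2 * al * k), B p := by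
      refine Finset.sum_le_sum_of_subset_of_nonneg ?_ ?_
      · exact Finset.Ioc_subset_Ioc_left (by omega)
      · intro p hp _
        rw [Finset.mem_Ioc] at hp
        exact hBn p hp.2
    have u4 : ∑ p ∈ Finset.Ioc (al * k) (2 * al * k), B p =
        ∑ p ∈ (Finset.Ioc (al * k) F).filter Nat.Prime, G1 p +
        ∑ p ∈ (Finset.Ioc F (2 * al * k)).filter Nat.Prime, G2 p := by
      rw [← Finset.sum_Ioc_consecutive B hf0 hf2, Finset.sum_filter, Finset.sum_filter]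
      refine congrArg₂ (· + ·) (Finset.sum_congr rfl fun p hp => ?_)
        (Finset.sum_congr rfl fun p hp => ?_)
      · rw [Finset.mem_Ioc] at hp
        simp only [hB, if_pos hp.2]
      · rw [Finset.mem_Ioc] at hp
        simp only [hB, if_neg (not_le.mpr hp.1)]
    have u5 : ∑ p ∈ Finset.Ioc (2 * al * k) (2 * al * k + 2), B p ≤
        (2 * q + r + 1) ^ 2 / 4 * Real.log (KX al mu * k) := by
      have v : ∀ p ∈ Finset.Ioc (2 * al * k) (2 * al * k + 2), B p ≤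
          (2 * q + r + 1) ^ 2 / 8 * Real.log (KX al mu * k) := by
        intro p hp
        rw [Finset.mem_Ioc] at hp
        have hpF : ¬ p ≤ F := not_le.mpr (lt_of_le_of_lt hf2 hp.1)
        simp only [hB, if_neg hpF]
        split_ifs with hpp
        · have hlp : 0 ≤ Real.log p := Real.log_natCast_nonneg p
          have e1 : G2 p = (2 * q + r + 1) ^ 2 / 8 * ((2 * (al * k + 1) - p) * Real.log p) := by
            simp only [hG2]
            field_simp
            ring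
          rw [e1]
          refine mul_le_mul_of_nonneg_left ?_ (by positivity)
          have hp1 : ((2 * al * k + 1 : ℕ) : ℝ) ≤ p := by exact_mod_cast hp.1
          push_cast at hp1
          have hp2 : (p : ℝ) ≤ ((2 * ((al * k + 1) + (al * k + 1) + mu * k) : ℕ) : ℝ) := by
            have h22 : p ≤ 2 * ((al * k + 1) + (al * k + 1) + mu * k) := by nlinarith
            exact_mod_cast h22
          have hpl : Real.log p ≤ Real.log (KX al mu * k) :=
            (Real.log_le_log (by exact_mod_cast hpp.pos) hp2).trans (log_X_le al mu k hk3)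
          calc (2 * (al * (k : ℝ) + 1) - p) * Real.log p ≤ 1 * Real.log p :=
                mul_le_mul_of_nonneg_right (by linarith) hlp
            _ ≤ _ := by rw [one_mul]; exact hpl
        · positivity
      have w := Finset.sum_le_card_nsmul _ _ _ v
      rw [Nat.card_Ioc, show 2 * al * k + 2 - 2 * al * k = 2 by omega, nsmul_eq_mul] at w
      refine w.trans (le_of_eq ?_)
      push_cast
      ring
    linarith
  have hPS1 : ∑ p ∈ (Finset.Ioc (al * k) F).filter Nat.Prime, G1 p =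
      (l1 * (mu * k) + (2 * q + r + 1 - l1) ^ 2 / 4) *
      PS (fun _ => 1) k ⌊(al : ℝ) * k⌋₊ ⌊x1 * k⌋₊ +
    (2 * q + r + 1 - l1) ^ 2 / 8 *
      (k * PS (fun t => 2 * al - t) k ⌊(al : ℝ) * k⌋₊ ⌊x1 * k⌋₊) := by
    rw [floor_al]
    unfold PS
    rw [Finset.mul_sum, Finset.mul_sum, Finset.mul_sum, ← Finset.sum_add_distrib]
  have hPS2 : ∑ p ∈ (Finset.Ioc F (2 * al * k)).filter Nat.Prime, G2 p =
      (2 * q + r + 1) ^ 2 / 4 * PS (fun _ => 1) k ⌊x1 * k⌋₊ ⌊(2 * al : ℝ) * k⌋₊ +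
    (2 * q + r + 1) ^ 2 / 8 *
      (k * PS (fun t => 2 * al - t) k ⌊x1 * k⌋₊ ⌊(2 * al : ℝ) * k⌋₊) := by
    rw [floor_two_al]
    unfold PS
    rw [Finset.mul_sum, Finset.mul_sum, Finset.mul_sum, ← Finset.sum_add_distrib]
  have hIcc : Finset.Icc 1 (2 * (al * k + 1)) = Finset.Ioc 0 (2 * (al * k + 1)) := by
    ext x; simp [Nat.succ_le_iff]
  rw [hIcc, Finset.sum_filter,
    ← Finset.sum_Ioc_consecutive _ (Nat.zero_le _) (show al * k + 1 ≤ 2 * (al * k + 1) by omega),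
    ← Finset.sum_filter, ← Finset.sum_filter]
  have hfin := hn₁ k hk1
  rw [div_lt_iff₀ (by positivity)] at hfin
  unfold VG at hfin
  rw [hPS1, hPS2] at t1
  have e5 : Ei q al mu * (k : ℝ) ^ 2 * Real.log k =
      k ^ 2 * ((2 * q * al * mu - 2 * mu ^ 2) * Real.log k) := by
    unfold Ei; ring
  linarith [s1, t1, hfin, e5]

end EM

end Z579
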