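import Pool.Agent.Lib.Z579.M9g

/-!
# The p-adic total with an improved class cost above `a`
-/

open Filter Topology Finset MeasureTheory

namespace Z579

namespace EM

/-- lower bound for `∑_{a < p ≤ 2a} (2a - p) log p` -/
lemma sum_top_ge (al : ℕ) (hal : 1 ≤ al) (δ : ℝ) (hδ : 0 < δ) : ∃ k0 : ℕ, ∀ k : ℕ, k0 ≤ k →
    (k : ℝ) ^ 2 * ((al : ℝ) ^ 2 / 2 - δ) ≤
      ∑ p ∈ (Finset.Ioc (al * k + 1) (2 * (al * k + 1))).filter Nat.Prime,
        (2 * ((al : ℝ) * k + 1) - p) * Real.log p := by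
  have h1 := (m7b 1 2 (fun t => 2 - t) zero_le_one one_le_two
    (continuousOn_const.sub continuousOn_id)).comp (tendsto_aG al hal)
  have hint : ∫ t in (1 : ℝ)..2, (2 - t) = 1 / 2 := by
    rw [integral_lin]; norm_num
  rw [hint] at h1
  have h2 := h1.mul ((tendsto_aG_div al).pow 2)
  have h3 : (1 / 2 : ℝ) * (al : ℝ) ^ 2 = (al : ℝ) ^ 2 / 2 := by ring
  rw [h3] at h2
  have hev := h2.eventually_const_lt (show (al : ℝ) ^ 2 / 2 - δ < (al : ℝ) ^ 2 / 2 by linarith)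
  rw [eventually_atTop] at hev
  obtain ⟨n0, hn0⟩ := hev
  refine ⟨max n0 1, fun k hk => ?_⟩
  have h4 := hn0 k ((le_max_left _ _).trans hk)
  have hk1 : 1 ≤ k := (le_max_right _ _).trans hk
  have hk0 : (0 : ℝ) < k := by exact_mod_cast hk1
  have ha := aG_pos al k
  simp only [Function.comp] at h4
  have hf1 : ⌊(1 : ℝ) * aG al k⌋₊ = al * k + 1 := floor_one_aG al k
  have hf2 : ⌊(2 : ℝ) * aG al k⌋₊ = 2 * (al * k + 1) := by
    have : (2 : ℝ) * aG al k = ((2 * (al * k + 1) : ℕ) : ℝ) := by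
      rw [aG_eq]; push_cast; ring
    rw [this, Nat.floor_natCast]
  rw [hf1, hf2] at h4
  have h5 : PS (fun t => 2 - t) (aG al k) (al * k + 1) (2 * (al * k + 1)) / aG al k *
      (aG al k / k) ^ 2 = (∑ p ∈ (Finset.Ioc (al * k + 1) (2 * (al * k + 1))).filter Nat.Prime,
        (2 * ((al : ℝ) * k + 1) - p) * Real.log p) / (k : ℝ) ^ 2 := by
    unfold PS
    have h6 : ∀ p ∈ (Finset.Ioc (al * k + 1) (2 * (al * k + 1))).filter Nat.Prime,
        (2 * ((al : ℝ) * k + 1) - p) * Real.log p =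
        aG al k * ((2 - (p : ℝ) / aG al k) * Real.log p) := by
      intro p _
      rw [← aG_eq]
      field_simp
    rw [Finset.sum_congr rfl h6, ← Finset.mul_sum]
    field_simp
  unfold PS at h5
  rw [h5, lt_div_iff₀ (by positivity)] at h4
  linarith

/-- the p-adic total with class cost `κ` above `a` -/
theorem m9k (r q al mu : ℕ) (c κ : ℝ) (hal : 1 ≤ al) (hmu1 : 1 ≤ mu) (hmu : mu ≤ q * al)
    (hκ : κ ≤ (2 * q + r + 1) ^ 2 / 8) (hc : MertensUB c) :
    ∀ C δ : ℝ, 0 ≤ C → 0 < δ → ∃ k0 : ℕ, ∀ k : ℕ, k0 ≤ k → ∀ β : ℕ → ℝ,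
  (∀ p : ℕ, p.Prime → p ^ 2 < 2 * (al * k + 1) →
    β p ≤ Eg q al mu k / (p - 1) +
      C * (1 + Nat.log p (2 * ((al * k + 1) + (al * k + 1) + mu * k))) * (mu * k)) →
  (∀ p : ℕ, p.Prime → 2 * (al * k + 1) ≤ p ^ 2 → p ≤ al * k + 1 →
    β p ≤ (r + 1) * (mu * k) + Eg q al mu k / p + (q : ℝ) ^ 2 / 32 * p +
      1 / 8 * (4 * (mu * k) / p + q) ^ 2) →
  (∀ p : ℕ, p.Prime → al * k + 1 < p → p ≤ 2 * (al * k + 1) →
    β p ≤ κ * (2 * (al * k + 1) - p)) →
  ∑ p ∈ (Finset.Icc 1 (2 * (al * k + 1))).filter Nat.Prime, β p * Real.log p ≤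
    k ^ 2 * ((2 * q * al * mu - 2 * mu ^ 2) * Real.log k + P0 r q al mu 0 al c -
      ((2 * q + r + 1) ^ 2 / 8 - κ) * ((al : ℝ) ^ 2 / 2) + δ) := by
  intro C δ hC hδ
  set η : ℝ := (2 * q + r + 1) ^ 2 / 8 - κ with hη
  have hη0 : 0 ≤ η := by rw [hη]; linarith
  obtain ⟨k1, hk1⟩ := m9g r q al mu 0 al c hal hmu1 hmu le_rfl (by positivity) le_rfl
    (by have : (0 : ℝ) ≤ al := Nat.cast_nonneg al
        linarith) hc C (δ / 2) hC (by linarith)
  obtain ⟨k2, hk2⟩ := sum_top_ge al hal (δ / (2 * (η + 1))) (by positivity)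
  refine ⟨max k1 k2, fun k hk β h1 h2 h3 => ?_⟩
  classical
  set β' : ℕ → ℝ := fun p => β p + if al * k + 1 < p then η * (2 * (al * k + 1) - p) else 0
    with hβ'
  have h4 := hk1 k ((le_max_left _ _).trans hk) β' ?_ ?_ ?_ ?_
  · have h5 := hk2 k ((le_max_right _ _).trans hk)
    have hIcc : Finset.Icc 1 (2 * (al * k + 1)) = Finset.Ioc 0 (2 * (al * k + 1)) := by
      ext x; simp [Nat.succ_le_iff]
    have h6 : ∑ p ∈ (Finset.Icc 1 (2 * (al * k + 1))).filter Nat.Prime, β' p * Real.log p =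
        ∑ p ∈ (Finset.Icc 1 (2 * (al * k + 1))).filter Nat.Prime, β p * Real.log p +
        η * ∑ p ∈ (Finset.Ioc (al * k + 1) (2 * (al * k + 1))).filter Nat.Prime,
          (2 * ((al : ℝ) * k + 1) - p) * Real.log p := by
      have h7 : ∑ p ∈ (Finset.Icc 1 (2 * (al * k + 1))).filter Nat.Prime, β' p * Real.log p =
        ∑ p ∈ (Finset.Icc 1 (2 * (al * k + 1))).filter Nat.Prime, β p * Real.log p +
        ∑ p ∈ (Finset.Icc 1 (2 * (al * k + 1))).filter Nat.Prime,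
          (if al * k + 1 < p then η * (2 * (al * k + 1) - p) * Real.log p else 0) := by
        rw [← Finset.sum_add_distrib]
        refine Finset.sum_congr rfl fun p _ => ?_
        simp only [hβ']
        split_ifs <;> ring
      rw [h7]
      congr 1
      rw [← Finset.sum_filter, Finset.filter_filter, Finset.mul_sum]
      refine Finset.sum_congr ?_ fun p _ => by ring
      ext p
      simp only [Finset.mem_filter, Finset.mem_Icc, Finset.mem_Ioc]
      constructor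
      · rintro ⟨⟨_, h⟩, hp, h'⟩
        exact ⟨⟨h', h⟩, hp⟩
      · rintro ⟨⟨h', h⟩, hp⟩
        exact ⟨⟨hp.one_lt.le, h⟩, hp, h'⟩
    rw [h6] at h4
    have h8 := mul_le_mul_of_nonneg_left h5 hη0
    have h9 : η * (δ / (2 * (η + 1))) ≤ δ / 2 := by
      rw [mul_div_assoc', div_le_div_iff₀ (by positivity) (by norm_num)]
      nlinarith
    have h10 : (0 : ℝ) ≤ (k : ℝ) ^ 2 := by positivity
    have h11 := mul_le_mul_of_nonneg_left h9 h10
    have h12 : η * ((k : ℝ) ^ 2 * ((al : ℝ) ^ 2 / 2 - δ / (2 * (η + 1)))) =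
        k ^ 2 * (η * ((al : ℝ) ^ 2 / 2)) - k ^ 2 * (η * (δ / (2 * (η + 1)))) := by ring
    rw [h12] at h8
    have h13 : (k : ℝ) ^ 2 * ((2 * q * al * mu - 2 * mu ^ 2) * Real.log k + P0 r q al mu 0 al c -
      η * ((al : ℝ) ^ 2 / 2) + δ) = k ^ 2 * ((2 * q * al * mu - 2 * mu ^ 2) * Real.log k +
      P0 r q al mu 0 al c + δ / 2) - k ^ 2 * (η * ((al : ℝ) ^ 2 / 2)) + k ^ 2 * (δ / 2) := by ring
    rw [h13]
    linarith
  · intro p hp hp2
    have hle : ¬ al * k + 1 < p := by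
      intro h
      nlinarith
    simp only [hβ', if_neg hle, add_zero]
    exact h1 p hp hp2
  · intro p hp hp2 hp3
    simp only [hβ', if_neg (not_lt.2 hp3), add_zero]
    exact h2 p hp hp2 hp3
  · intro p hp hp1 hp2
    exfalso
    have : (p : ℝ) ≤ ((al * k : ℕ) : ℝ) := by push_cast; exact hp2
    have : p ≤ al * k := by exact_mod_cast this
    omega
  · intro p hp hp1 _ hp3
    have h5 := h3 p hp hp1 hp3
    simp only [hβ', if_pos hp1]
    rw [hη]
    linarith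

end EM

end Z579
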