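import Pool.Agent.Lib.Z579.Asm
import Pool.Agent.Lib.Z579.M2
import Pool.Agent.Lib.Z579.M4
import Pool.Agent.Lib.Z579.M6
import Pool.Agent.Lib.Z579.M6de
import Pool.Agent.Lib.Z579.M8c
import Pool.Agent.Lib.Z579.M9
import Pool.Agent.Lib.Z579.M10
import Pool.Agent.Lib.Z579.LH7

/-!
# One of `ζ(5), ζ(7), ζ(9)` is irrational: assembly
-/

open Polynomial Finset

namespace Z579

section weights
variable {p : ℕ} [hp : Fact p.Prime]

lemma VG_wt_gen {r a Q : ℕ} {z : ℕ → ℚ} (hQz : ∀ s, VG p 0 ((Q : ℚ) * z s)) {u : ℤ} {i : ℕ}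
    {K : ℕ} (hK : Nat.log p (u + a - 1).toNat ≤ K) :
    VG p (-(((i : ℝ) + r) * K)) (wt r a Q z u i) := by
  have h1 := m4c p (i + r) (u + a - 1).toNat hp.out
  have h2 : VG p (-(((i : ℝ) + r) * K)) (Hs (i + r) (u + a - 1).toNat) := by
    refine h1.mono ?_
    push_cast
    have h3 : (Nat.log p (u + a - 1).toNat : ℝ) ≤ K := by exact_mod_cast hK
    have h4 : (0 : ℝ) ≤ (i : ℝ) + r := by positivity
    have := mul_le_mul_of_nonneg_left h3 h4
    linarith
  have h3 : VG p (-(((i : ℝ) + r) * K)) ((Q : ℚ) * Hs (i + r) (u + a - 1).toNat) := by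
    have := (VG.nat (p := p) Q).mul h2
    simpa using this
  have h4 : VG p (-(((i : ℝ) + r) * K)) ((Q : ℚ) * z (i + r)) := by
    refine (hQz (i + r)).mono ?_
    have : (0 : ℝ) ≤ ((i : ℝ) + r) * K := by positivity
    linarith
  rw [wt, mul_sub]
  exact h4.sub h3

lemma VG_wt_zero {r a Q : ℕ} {z : ℕ → ℚ} (hQz : ∀ s, VG p 0 ((Q : ℚ) * z s)) {u : ℤ} {i : ℕ}
    (hu : u + a - 1 < p) : VG p 0 (wt r a Q z u i) := by
  have h1 : Nat.log p (u + a - 1).toNat ≤ 0 := by
    rw [Nat.le_zero, Nat.log_eq_zero_iff]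
    left
    have := hp.out.pos
    omega
  have := VG_wt_gen (r := r) (a := a) (i := i) hQz h1
  simpa using this

lemma VG_wt_one {r a Q : ℕ} {z : ℕ → ℚ} (hQz : ∀ s, VG p 0 ((Q : ℚ) * z s)) {u : ℤ} {i : ℕ}
    (hu : u ∈ pc a) (ha : 2 * a ≤ p ^ 2) : VG p (-((i : ℝ) + r)) (wt r a Q z u i) := by
  rw [mem_pc] at hu
  have h1 : Nat.log p (u + a - 1).toNat ≤ 1 := by
    by_cases h0 : (u + a - 1).toNat = 0
    · rw [h0]; simp
    · have h2 : (u + a - 1).toNat < p ^ 2 := by
        have h3 : ((u + a - 1).toNat : ℤ) < (p : ℤ) ^ 2 := by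
          have h4 : (2 * (a : ℤ)) ≤ (p : ℤ) ^ 2 := by exact_mod_cast ha
          have h5 : (0 : ℤ) < (p : ℤ) ^ 2 := by have := hp.out.pos; positivity
          omega
        exact_mod_cast h3
      have := Nat.log_lt_of_lt_pow h0 h2
      omega
  have := VG_wt_gen (r := r) (a := a) (i := i) hQz h1
  simpa using this

end weights

lemma z_eq_zero {r q : ℕ} {z : ℕ → ℚ} (hz : IsZ r q z) {s : ℕ}
    (hs : ¬(Odd s ∧ r + 3 ≤ s ∧ s ≤ r + q - 1)) : z s = 0 := by
  have := hz s
  rw [if_neg hs] at this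
  exact_mod_cast this

/-- a common denominator -/
lemma exists_den {r q : ℕ} {z : ℕ → ℚ} (hz : IsZ r q z) :
    ∃ Q : ℕ, 1 ≤ Q ∧ (∀ s, ∃ k : ℤ, (Q : ℚ) * z s = k) ∧ ∀ s, (z s).den ∣ Q := by
  refine ⟨∏ s ∈ Finset.range (r + q), (z s).den, ?_, ?_, ?_⟩
  · exact Finset.prod_pos fun s _ => (z s).den_pos
  · intro s
    by_cases hs : s < r + q
    · obtain ⟨k, hk⟩ := Finset.dvd_prod_of_mem (fun s => (z s).den) (Finset.mem_range.2 hs)
      refine ⟨k * (z s).num, ?_⟩
      rw [hk]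
      push_cast
      have : ((z s).den : ℚ) * z s = (z s).num := by
        rw [mul_comm]; exact Rat.mul_den_eq_num (z s)
      linear_combination (k : ℚ) * this
    · rw [z_eq_zero hz (by intro h; omega)]
      exact ⟨0, by simp⟩
  · intro s
    by_cases hs : s < r + q
    · exact Finset.dvd_prod_of_mem (fun s => (z s).den) (Finset.mem_range.2 hs)
    · rw [z_eq_zero hz (by intro h; omega)]
      simp

lemma En_nonneg (n : ℕ) : 0 ≤ En n := by
  unfold En
  have : (0 : ℝ) ≤ n := Nat.cast_nonneg n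
  nlinarith

theorem no_z (h1 : M1) (z : ℕ → ℚ) (hz : IsZ 2 8 z) : False := by
  obtain ⟨Q, hQ1, hQz, hQden⟩ := exists_den hz
  have hVQ : ∀ p : ℕ, p.Prime → ∀ s, VG p 0 ((Q : ℚ) * z s) := by
    intro p hp s
    haveI : Fact p.Prime := ⟨hp⟩
    obtain ⟨k, hk⟩ := hQz s
    rw [hk]
    exact VG.int k
  obtain ⟨C2, hC2⟩ := m2 h1
  obtain ⟨C6, hC6, h6e⟩ := m6e 2 8 3
  obtain ⟨n9, h9⟩ := m9 C6 hC6
  obtain ⟨n10, h10⟩ := m10 C2 Q (by exact_mod_cast hQ1)
  obtain ⟨p8, h8⟩ := m8 2 8 3 7 (by decide) (by norm_num) (by decide) (by norm_num)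
    (by norm_num) (by norm_num) lhank_2_8_3_7
  obtain ⟨P, hP, hPlt, hPmod⟩ := Nat.exists_prime_gt_modEq_one (k := 4)
    (p8 + Q + 4 * n9 + 4 * n10 + 4) (by norm_num)
  obtain ⟨n, hn⟩ : ∃ n, P = 4 * n + 1 := by
    have h : P % 4 = 1 % 4 := hPmod
    exact ⟨P / 4, by omega⟩
  have hn9 : n9 ≤ n := by omega
  have hn10 : n10 ≤ n := by omega
  have hn1 : 1 ≤ n := by omega
  set a := 3 * n + 1 with ha
  set m := 7 * n with hm
  -- nonvanishing
  have hne1 : hank (Lw 2 8 3 a (2 * a) (wt 2 a 1 z)) m ≠ 0 := by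
    refine h8 P a (2 * a) m z (by omega) hP (by omega) (by omega) (by omega) (by omega) (by omega) ?_
    intro s
    haveI : Fact P.Prime := ⟨hP⟩
    by_cases h0 : z s = 0
    · exact Or.inl h0
    · right
      have hnd : ¬ P ∣ (z s).den := by
        intro hd
        have := Nat.le_of_dvd hQ1 (hd.trans (hQden s))
        omega
      have : 0 ≤ padicValRat P (z s) := by
        rw [padicValRat_def, padicValNat.eq_zero_of_not_dvd hnd]
        simp
      exact_mod_cast this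
  set D : ℚ := hank (Lw 2 8 3 a (2 * a) (wt 2 a Q z)) m with hD
  have hDeq : D = (Q : ℚ) ^ m * hank (Lw 2 8 3 a (2 * a) (wt 2 a 1 z)) m := hank_wt _ _ _ _ _ _ _ _
  have hQ0 : (Q : ℚ) ≠ 0 := by
    have : Q ≠ 0 := by omega
    exact_mod_cast this
  have hD0 : D ≠ 0 := by
    rw [hDeq]
    exact mul_ne_zero (pow_ne_zero _ hQ0) hne1
  -- archimedean bound
  set Γ : ℕ → ℝ := fun j => C2 * Real.log ((a : ℝ) + 1) + (2 * (j : ℝ) - 10 * a) * Real.log a +
    a * ch (j / a) with hΓ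
  have ha0 : (0 : ℝ) < a := by
    have : 0 < a := by omega
    exact_mod_cast this
  have harch : |((hank (Lw 2 8 3 a (2 * a) (wt 2 a 1 z)) m : ℚ) : ℝ)| ≤
      m.factorial * Real.exp (∑ i ∈ Finset.range m, Γ (2 * i)) := by
    refine hank_abs_le _ m (4 * (a : ℚ) ^ 2) Γ ?_ ?_
    · intro i j _ _
      have hc := ch_convex (((2 * i : ℕ) : ℝ) / a) (((2 * j : ℕ) : ℝ) / a)
      have he : (((2 * i : ℕ) : ℝ) / a + ((2 * j : ℕ) : ℝ) / a) / 2 = ((i + j : ℕ) : ℝ) / a := by
        push_cast; field_simp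
      rw [he] at hc
      have hc2 := mul_le_mul_of_nonneg_left hc ha0.le
      simp only [hΓ]
      push_cast at hc2 ⊢
      nlinarith [hc2]
    · intro j hj
      exact hC2 a j z (by omega) (by omega) hz
  have hlogD : Real.log |((D : ℚ) : ℝ)| ≤
      - (En n * Real.log (3 * n + 1)) - 103 / 5 * (3 * n + 1) ^ 2 := by
    have h11 := h10 n hn10
    have hDabs : |((D : ℚ) : ℝ)| ≤ (Q : ℝ) ^ m * (m.factorial *
        Real.exp (∑ i ∈ Finset.range m, Γ (2 * i))) := by
      rw [hDeq]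
      push_cast
      rw [abs_mul, abs_of_nonneg (by positivity : (0 : ℝ) ≤ (Q : ℝ) ^ m)]
      exact mul_le_mul_of_nonneg_left harch (by positivity)
    have hDpos : 0 < |((D : ℚ) : ℝ)| := by
      rw [abs_pos]; exact_mod_cast hD0
    have hlog := Real.log_le_log hDpos hDabs
    have hQr : (Q : ℝ) ≠ 0 := by exact_mod_cast hQ0
    rw [Real.log_mul (pow_ne_zero _ hQr) (by positivity), Real.log_mul (by positivity)
      (Real.exp_pos _).ne', Real.log_exp, Real.log_pow] at hlog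
    have hm' : ((m : ℕ) : ℝ) = 7 * (n : ℝ) := by rw [hm]; push_cast; ring
    rw [hm'] at hlog
    refine hlog.trans (le_trans (le_of_eq ?_) h11)
    rw [← add_assoc]
  -- p-adic bound
  have hden := log_abs_ge D hD0 (2 * a) (by
    intro p hp hpa
    haveI : Fact p.Prime := ⟨hp⟩
    refine m6d p 2 8 3 a (2 * a) m _ hp (by omega) (by omega) (by omega) (by norm_num) ?_
    intro u hu i _ _
    refine VG_wt_zero (hVQ p hp) ?_
    rw [mem_pc] at hu
    omega)
  have hEn := En_nonneg n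
  have hnn : (0 : ℝ) ≤ n := Nat.cast_nonneg n
  have har : (a : ℝ) = 3 * n + 1 := by rw [ha]; push_cast; ring
  have hmr : (m : ℝ) = 7 * n := by rw [hm]; push_cast; ring
  have hpadic := h9 n hn9 (fun p => (D.den.factorization p : ℝ)) ?_ ?_ ?_ ?_
  · have h12 : (∑ p ∈ (Finset.Icc 1 (2 * a)).filter Nat.Prime,
        (D.den.factorization p : ℝ) * Real.log p) ≤
        En n * Real.log (3 * n + 1) + 101 / 5 * (3 * n + 1) ^ 2 := hpadic
    have h13 : (0 : ℝ) < (3 * (n : ℝ) + 1) ^ 2 := by positivity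
    linarith
  · -- small primes
    intro p hp hp2
    haveI : Fact p.Prime := ⟨hp⟩
    have hp1 : (0 : ℝ) < (p : ℝ) - 1 := by
      have : (1 : ℝ) < p := by exact_mod_cast hp.one_lt
      linarith
    refine fact_le_of_VG hp hD0 (by positivity) ?_
    have key := h6e p a (2 * a) m (wt 2 a Q z) hp (by omega) (by omega) (by norm_num) (by
      intro u hu i _ _
      refine VG_wt_gen (hVQ p hp) ?_
      apply Nat.log_mono_right
      rw [mem_pc] at hu
      omega)
    refine key.mono (le_of_eq ?_)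
    have hK : 2 * (a + 2 * a + m) = 2 * ((3 * n + 1) + 2 * (3 * n + 1) + 7 * n) := rfl
    rw [hK]
    have h2a : ((2 * a : ℕ) : ℝ) = 2 * (3 * (n : ℝ) + 1) := by rw [ha]; push_cast; ring
    rw [hmr, h2a, har, En]
    push_cast
    ring
  · intro p hp hp2 hpa
    haveI : Fact p.Prime := ⟨hp⟩
    have hp0 : (0 : ℝ) < (p : ℝ) := by exact_mod_cast hp.pos
    refine fact_le_of_VG hp hD0 (by positivity) ?_
    have hpne : p ≠ 2 := by
      rintro rfl
      omega
    have key := m6a p 2 8 3 a (2 * a) m (wt 2 a Q z) hp hpne hpa (by omega) (by omega)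
      (by norm_num) (by
        intro u hu i _ _
        exact VG_wt_one (hVQ p hp) hu (by omega))
    refine key.mono ?_
    have h2a : ((2 * a : ℕ) : ℝ) = 2 * (3 * (n : ℝ) + 1) := by rw [ha]; push_cast; ring
    rw [hmr, h2a, har, En]
    push_cast
    apply le_of_eq
    ring
  · intro p hp hpa hp2
    haveI : Fact p.Prime := ⟨hp⟩
    refine fact_le_of_VG hp hD0 (by positivity) ?_
    have hpne : p ≠ 2 := by
      rintro rfl
      omega
    have hsq : 3 * a ≤ p ^ 2 := by nlinarith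
    have key := m6b p a m (wt 2 a Q z) hp hpne (by omega) (by omega) hsq (by
        intro u hu i _ _
        exact VG_wt_one (hVQ p hp) hu (by omega)) (by
        intro u _ hu2 i _ _
        exact VG_wt_zero (hVQ p hp) hu2)
    refine key.mono ?_
    rw [hmr, har]
  · intro p hp hpa hp2
    haveI : Fact p.Prime := ⟨hp⟩
    have hp2' : (p : ℝ) ≤ 2 * (3 * n + 1) := by exact_mod_cast hp2
    refine fact_le_of_VG hp hD0 (by
      have : (0 : ℝ) ≤ 2 * (3 * (n : ℝ) + 1) - p := by linarith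
      positivity) ?_
    have hpne : p ≠ 2 := by
      rintro rfl
      omega
    have hsq : 3 * a ≤ p ^ 2 := by nlinarith
    have key := m6c p a m (wt 2 a Q z) hp hpne (by omega) (by omega) hsq (by
        intro u hu i _ _
        exact VG_wt_one (hVQ p hp) hu (by omega)) (by
        intro u _ hu2 i _ _
        exact VG_wt_zero (hVQ p hp) hu2)
    refine key.mono ?_
    rw [har]

end Z579
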