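import Pool.Agent.Lib.Z579.E6Defs
import Pool.Agent.Lib.Z579.M7a

/-!
# MertensUB: Mertens type upper bound with `K` blocks
-/

open Filter Topology Finset MeasureTheory

namespace Z579

namespace EM

/-- the total upper bound, `K` blocks -/
noncomputable def UBK (ε : ℝ) (K n : ℕ) : ℝ :=
  (2 * Chebyshev.theta (⌊ε * n⌋₊ : ℕ) + Nat.sqrt n * Real.log n) +
  (1 + 2 / (ε ^ 2 * n)) * PS (fun _ => 1) (n : ℝ) ⌊ε * n⌋₊ ⌊1 / (K : ℝ) * (n : ℝ)⌋₊ +
  ∑ i ∈ Finset.Ico 1 K, RB ε i n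

lemma sum_blocks (ε : ℝ) (hε : 0 < ε) (n : ℕ) (hn : 0 < n) (K : ℕ) (hK : 1 ≤ K) :
    ε ≤ 1 / K → ∑ p ∈ (Finset.Ioc ⌊1 / (K : ℝ) * (n : ℝ)⌋₊ n).filter Nat.Prime,
      Df n p * Real.log p ≤ ∑ i ∈ Finset.Ico 1 K, RB ε i n := by
  have hn' : (0 : ℝ) < n := by exact_mod_cast hn
  induction K, hK using Nat.le_induction with
  | base =>
    intro _
    have : ⌊1 / ((1 : ℕ) : ℝ) * (n : ℝ)⌋₊ = n := by simp
    rw [this]
    simp
  | succ K hK ih =>
    intro hεK
    have hK' : (0 : ℝ) < K := by exact_mod_cast hK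
    push_cast at hεK
    have hle : (1 : ℝ) / (K + 1) ≤ 1 / K := one_div_le_one_div_of_le hK' (by linarith)
    have h1 := ih (hεK.trans hle)
    have h2 := RB_ge ε hε K n hK hεK hn
    have m1 : ⌊1 / ((K : ℝ) + 1) * (n : ℝ)⌋₊ ≤ ⌊1 / (K : ℝ) * (n : ℝ)⌋₊ :=
      Nat.floor_le_floor (mul_le_mul_of_nonneg_right hle hn'.le)
    have hK1 : (1 : ℝ) ≤ K := by exact_mod_cast hK
    have m2 : ⌊1 / (K : ℝ) * (n : ℝ)⌋₊ ≤ n := by
      have h3 : (1 : ℝ) / K ≤ 1 := by rw [div_le_one hK']; exact hK1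
      have h4 : 1 / (K : ℝ) * (n : ℝ) ≤ n := by nlinarith
      calc ⌊1 / (K : ℝ) * (n : ℝ)⌋₊ ≤ ⌊(n : ℝ)⌋₊ := Nat.floor_le_floor h4
        _ = n := Nat.floor_natCast n
    push_cast
    rw [Finset.sum_filter, ← Finset.sum_Ioc_consecutive _ m1 m2, ← Finset.sum_filter,
      ← Finset.sum_filter, Finset.sum_Ico_succ_top hK]
    linarith

lemma sum_Df_leK (ε : ℝ) (hε : 0 < ε) (K : ℕ) (hK : 1 ≤ K) (hεK : ε ≤ 1 / K) (n : ℕ)
    (hn : 0 < n) :
    ∑ p ∈ (Finset.Icc 1 n).filter Nat.Prime, Df n p * Real.log p ≤ UBK ε K n := by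
  have hn' : (0 : ℝ) < n := by exact_mod_cast hn
  have hK' : (0 : ℝ) < K := by exact_mod_cast hK
  have hIcc : Finset.Icc 1 n = Finset.Ioc 0 n := by ext x; simp [Nat.succ_le_iff]
  rw [hIcc]
  have a0 := sum_small n ⌊ε * n⌋₊ hn.ne'
  have a1 := sum_mid n hn ε (1 / K) ε hε le_rfl
  have a2 := sum_blocks ε hε n hn K hK hεK
  have m1 : ⌊ε * (n : ℝ)⌋₊ ≤ ⌊1 / (K : ℝ) * (n : ℝ)⌋₊ :=
    Nat.floor_le_floor (mul_le_mul_of_nonneg_right hεK hn'.le)
  have hK1 : (1 : ℝ) ≤ K := by exact_mod_cast hK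
  have m2 : ⌊1 / (K : ℝ) * (n : ℝ)⌋₊ ≤ n := by
    have h3 : (1 : ℝ) / K ≤ 1 := by rw [div_le_one hK']; exact hK1
    have h4 : 1 / (K : ℝ) * (n : ℝ) ≤ n := by nlinarith
    calc ⌊1 / (K : ℝ) * (n : ℝ)⌋₊ ≤ ⌊(n : ℝ)⌋₊ := Nat.floor_le_floor h4
      _ = n := Nat.floor_natCast n
  rw [Finset.sum_filter, ← Finset.sum_Ioc_consecutive _ (Nat.zero_le _) m2,
    ← Finset.sum_Ioc_consecutive _ (Nat.zero_le _) m1, ← Finset.sum_filter,
    ← Finset.sum_filter, ← Finset.sum_filter]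
  unfold UBK
  linarith

lemma sum_tel (K : ℕ) (hK : 1 ≤ K) :
    ∑ i ∈ Finset.Ico 1 K, (Real.log ((i : ℝ) + 1) - Real.log i - 1 / ((i : ℝ) + 1)) =
      Real.log K - ∑ i ∈ range K, 1 / ((i : ℝ) + 1) + 1 := by
  induction K, hK using Nat.le_induction with
  | base => simp
  | succ K hK ih =>
    rw [Finset.sum_Ico_succ_top hK, ih, Finset.sum_range_succ]
    push_cast
    ring

lemma tendsto_UBK (ε : ℝ) (hε : 0 < ε) (K : ℕ) (hK : 1 ≤ K) (hεK : ε ≤ 1 / K) :
    Tendsto (fun n : ℕ => UBK ε K n / n) atTop (𝓝 (ε + 1 - cK K)) := by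
  have h0 : Tendsto (fun n : ℕ => (2 * Chebyshev.theta (⌊ε * (n : ℝ)⌋₊ : ℕ) +
      Nat.sqrt n * Real.log n) / n) atTop (𝓝 (2 * ε)) := by
    have e1 := ((tendsto_theta_mul ε hε.le).comp tendsto_natCast_atTop_atTop).const_mul 2
    have e2 : Tendsto (fun n : ℕ => (Nat.sqrt n * Real.log n) / (n : ℝ)) atTop (𝓝 0) := by
      have e3 : Tendsto (fun x : ℝ => Real.log x / x ^ (1 / 2 : ℝ)) atTop (𝓝 0) :=
        (isLittleO_log_rpow_atTop (by norm_num : (0 : ℝ) < 1 / 2)).tendsto_div_nhds_zero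
      have e4 := e3.comp (tendsto_natCast_atTop_atTop (R := ℝ))
      refine squeeze_zero' (Eventually.of_forall fun n => ?_) ?_ e4
      · exact div_nonneg (mul_nonneg (Nat.cast_nonneg _) (Real.log_natCast_nonneg n))
          (Nat.cast_nonneg _)
      · filter_upwards [eventually_gt_atTop 0] with n hn
        have hn' : (0 : ℝ) < n := by exact_mod_cast hn
        simp only [Function.comp]
        rw [← Real.sqrt_eq_rpow]
        have hs : (0 : ℝ) < √(n : ℝ) := Real.sqrt_pos.mpr hn'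
        rw [div_le_div_iff₀ hn' hs]
        have h5 : (Nat.sqrt n : ℝ) ≤ √(n : ℝ) := Real.nat_sqrt_le_real_sqrt
        have h6 : √(n : ℝ) * √(n : ℝ) = n := Real.mul_self_sqrt hn'.le
        have h7 : 0 ≤ Real.log n := Real.log_natCast_nonneg n
        have h8 : (Nat.sqrt n : ℝ) * √(n : ℝ) ≤ n := by
          calc (Nat.sqrt n : ℝ) * √(n : ℝ) ≤ √(n : ℝ) * √(n : ℝ) :=
                mul_le_mul_of_nonneg_right h5 hs.le
            _ = n := h6
        calc (Nat.sqrt n : ℝ) * Real.log n * √(n : ℝ) = (Nat.sqrt n * √(n : ℝ)) * Real.log n := by ring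
          _ ≤ n * Real.log n := mul_le_mul_of_nonneg_right h8 h7
          _ = Real.log n * n := by ring
    have e5 := e1.add e2
    rw [add_zero] at e5
    refine e5.congr fun n => ?_
    simp only [Function.comp]
    ring
  have h1 : Tendsto (fun n : ℕ => ((1 + 2 / (ε ^ 2 * n)) *
      PS (fun _ => 1) (n : ℝ) ⌊ε * n⌋₊ ⌊1 / (K : ℝ) * (n : ℝ)⌋₊) / n) atTop (𝓝 (1 / K - ε)) := by
    have e1 := (tendsto_PS_one ε (1 / K) hε.le hεK).comp tendsto_natCast_atTop_atTop
    have e2 := e1.add (tendsto_small_term ε hε ε (1 / K) hε.le hεK)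
    rw [add_zero] at e2
    refine e2.congr fun n => ?_
    simp only [Function.comp]
    ring
  have h2 : Tendsto (fun n : ℕ => ∑ i ∈ Finset.Ico 1 K, RB ε i n / n) atTop
      (𝓝 (∑ i ∈ Finset.Ico 1 K, (Real.log ((i : ℝ) + 1) - Real.log i - 1 / ((i : ℝ) + 1)))) := by
    refine tendsto_finsetSum _ fun i hi => ?_
    exact tendsto_RB ε hε i (Finset.mem_Ico.mp hi).1
  have H := (h0.add h1).add h2
  rw [sum_tel K hK] at H
  have hlim : 2 * ε + (1 / K - ε) + (Real.log K - ∑ i ∈ range K, 1 / ((i : ℝ) + 1) + 1) =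
      ε + 1 - cK K := by
    unfold cK
    ring
  rw [hlim] at H
  refine H.congr fun n => ?_
  unfold UBK
  rw [← Finset.sum_div]
  ring

/-- Mertens type upper bound with `K` blocks -/
theorem mertensUB_cK (K : ℕ) (hK : 1 ≤ K) : MertensUB (cK K) := by
  intro ε₀ hε₀
  have hK' : (0 : ℝ) < K := by exact_mod_cast hK
  set ε := min (ε₀ / 2) (1 / K) with hεdef
  have hε : 0 < ε := lt_min (by linarith) (by positivity)
  have hεK : ε ≤ 1 / K := min_le_right _ _
  have hεε : ε ≤ ε₀ / 2 := min_le_left _ _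
  have h1 := tendsto_UBK ε hε K hK hεK
  -- the factorial part
  have h2 : Tendsto (fun n : ℕ => (((n : ℝ) + 1) * Real.log (n + 1) - n) / n - Real.log n)
      atTop (𝓝 (-1)) := by
    have e1 : Tendsto (fun n : ℕ => Real.log ((n : ℝ) + 1) / n) atTop (𝓝 0) := by
      have e3 : Tendsto (fun x : ℝ => Real.log x / x) atTop (𝓝 0) := by
        simpa using (Real.isLittleO_log_id_atTop).tendsto_div_nhds_zero
      have e4 : Tendsto (fun n : ℕ => ((n : ℝ) + 1)) atTop atTop :=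
        tendsto_atTop_add_const_right _ _ tendsto_natCast_atTop_atTop
      have e5 := e3.comp e4
      have e6 : Tendsto (fun n : ℕ => 2 * (Real.log ((n : ℝ) + 1) / ((n : ℝ) + 1))) atTop (𝓝 0) := by
        simpa using e5.const_mul 2
      refine squeeze_zero' (Eventually.of_forall fun n => ?_) ?_ e6
      · exact div_nonneg (Real.log_nonneg (by linarith [Nat.cast_nonneg (α := ℝ) n]))
          (Nat.cast_nonneg _)
      · filter_upwards [eventually_ge_atTop 1] with n hn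
        have hn' : (1 : ℝ) ≤ n := by exact_mod_cast hn
        have hl : 0 ≤ Real.log ((n : ℝ) + 1) := Real.log_nonneg (by linarith)
        rw [← mul_div_assoc, div_le_div_iff₀ (by linarith) (by linarith)]
        nlinarith
    have e2 : Tendsto (fun n : ℕ => Real.log ((n : ℝ) + 1) - Real.log n) atTop (𝓝 0) := by
      have e3 : Tendsto (fun n : ℕ => 1 / (n : ℝ)) atTop (𝓝 0) := tendsto_one_div_atTop_nhds_zero_nat
      refine squeeze_zero' ?_ ?_ e3
      · filter_upwards [eventually_ge_atTop 1] with n hn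
        have hn' : (1 : ℝ) ≤ n := by exact_mod_cast hn
        rw [sub_nonneg]
        exact Real.log_le_log (by linarith) (by linarith)
      · filter_upwards [eventually_ge_atTop 1] with n hn
        have hn' : (1 : ℝ) ≤ n := by exact_mod_cast hn
        rw [← Real.log_div (by linarith) (by linarith)]
        have := Real.log_le_sub_one_of_pos (show (0 : ℝ) < (n + 1) / n by positivity)
        refine this.trans (le_of_eq ?_)
        field_simp
        ring
    have e3 := (e1.add e2).add_const (-1 : ℝ)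
    rw [add_zero, zero_add] at e3
    refine e3.congr' ?_
    filter_upwards [eventually_gt_atTop 0] with n hn
    have hn' : (n : ℝ) ≠ 0 := by exact_mod_cast hn.ne'
    field_simp
    ring
  have h3 := h1.add h2
  have hnum : ε + 1 - cK K + -1 < -cK K + ε₀ := by linarith
  have h4 := h3.eventually_lt_const hnum
  rw [eventually_atTop] at h4
  obtain ⟨n₀, hn₀⟩ := h4
  refine ⟨max n₀ 1, fun n hn => ?_⟩
  have hn0 : n₀ ≤ n := (le_max_left _ _).trans hn
  have hn1 : 0 < n := (le_max_right n₀ 1).trans hn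
  have hn' : (0 : ℝ) < n := by exact_mod_cast hn1
  have h5 := hn₀ n hn0
  have h6 : (n : ℝ) * ∑ p ∈ (Finset.Icc 1 n).filter Nat.Prime, Real.log p / ((p : ℝ) - 1) =
      Real.log (n.factorial : ℝ) + ∑ p ∈ (Finset.Icc 1 n).filter Nat.Prime, Df n p * Real.log p := by
    rw [log_factorial_eq, ← Finset.sum_add_distrib, Finset.mul_sum]
    refine Finset.sum_congr rfl fun p _ => ?_
    unfold Df
    ring
  have h7 := sum_Df_leK ε hε K hK hεK n hn1
  have h8 := log_factorial_le n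
  have h9 : ∑ p ∈ (Finset.Icc 1 n).filter Nat.Prime, Real.log p / ((p : ℝ) - 1) ≤
      UBK ε K n / n + (((n : ℝ) + 1) * Real.log (n + 1) - n) / n := by
    rw [← add_div, le_div_iff₀ hn', mul_comm, h6]
    linarith
  linarith

lemma MertensUB.mono {c c' : ℝ} (h : MertensUB c) (hc : c' ≤ c) : MertensUB c' := by
  intro ε hε
  obtain ⟨n₀, hn₀⟩ := h ε hε
  exact ⟨n₀, fun n hn => (hn₀ n hn).trans (by linarith)⟩

lemma cK_64 : (569 / 1000 : ℝ) ≤ cK 64 := by
  unfold cK
  have h8 : Real.log ((64 : ℕ) : ℝ) = 6 * Real.log 2 := by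
    rw [show (((64 : ℕ) : ℝ)) = 2 ^ 6 by norm_num, Real.log_pow]; norm_num
  rw [h8]
  have h9 := Real.log_two_lt_d9
  have h10 : (47438 / 10000 : ℝ) ≤ ∑ i ∈ range 64, 1 / ((i : ℝ) + 1) := by
    simp only [Finset.sum_range_succ, Finset.sum_range_zero]
    norm_num
  push_cast
  linarith

/-- Mertens type upper bound with the constant `0.569` -/
theorem mertens569 : MertensUB (569 / 1000) := (mertensUB_cK 64 (by norm_num)).mono cK_64

/-- Mertens type upper bound with the constant `0.567` -/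
theorem mertens : MertensUB (567 / 1000) := mertens569.mono (by norm_num)

end EM

end Z579
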