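import Pool.Agent.Lib.Z579.E6Defs
import Pool.Agent.Lib.Z579.Main
import Pool.Agent.Lib.Z579.M6z
import Pool.Agent.Lib.Z579.M8z

/-!
# General assembly for the case `a = b`
-/

open Polynomial Finset

namespace Z579

namespace EM

theorem no_z_gen {P : Par} (hP : P.Ok) {A0 : ℝ} (hA : ArchTot P A0) (h9 : M9g)
    (be N : ℕ) (l1 x1 c : ℝ) (hbe : P.al ≤ be) (hbe2 : be < 2 * P.al)
    (hN : 2 * P.mu = N * (2 * P.al - be)) (hN2 : 2 * N ≤ P.r + 2 * P.q + 1)
    (hl : lhank P.r P.q 0 N ≠ 0) (hc : MertensUB c)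
    (hl1 : 0 ≤ l1) (hl2 : l1 ≤ 2 * P.q + P.r + 1) (hx1 : (P.al : ℝ) ≤ x1) (hx2 : x1 ≤ 2 * P.al)
    (htot : A0 + P0 P.r P.q P.al P.mu l1 x1 c < 0)
    (z : ℕ → ℚ) (hz : IsZ P.r P.q z) : False := by
  obtain ⟨Q, hQ1, hQz, hQden⟩ := exists_den hz
  have hVQ : ∀ p : ℕ, p.Prime → ∀ s, VG p 0 ((Q : ℚ) * z s) := by
    intro p hp s
    haveI : Fact p.Prime := ⟨hp⟩
    obtain ⟨k, hk⟩ := hQz s
    rw [hk]
    exact VG.int k
  set δ : ℝ := -(A0 + P0 P.r P.q P.al P.mu l1 x1 c) / 4 with hδ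
  have hδ0 : 0 < δ := by rw [hδ]; linarith
  obtain ⟨C6, hC6, h6e⟩ := m6e P.r P.q 0
  have hmuq : P.mu ≤ P.q * P.al := by
    have := hP.deg
    nlinarith
  obtain ⟨n9, h9'⟩ := h9 P.r P.q P.al P.mu l1 x1 c hP.al1 hP.mu1 hmuq hl1 hl2 hx1 hx2 hc C6 δ hC6 hδ0
  obtain ⟨n10, h10⟩ := hA δ hδ0
  obtain ⟨p8, h8⟩ := m8z P.r P.q 0 N hP.er hP.r2 hP.eq hP.q2 hN2 hl
  obtain ⟨n11, hn11⟩ := exists_nat_gt (P.mu * Real.log Q / δ)
  have hbe0 : be ≠ 0 := by
    have := hP.al1
    omega
  obtain ⟨Pp, hPp, hPlt, hPmod⟩ := Nat.exists_prime_gt_modEq_one (k := be)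
    (p8 + Q + be * (n9 + n10 + n11 + 4) + 4) hbe0
  obtain ⟨k, hk⟩ : ∃ k, Pp = be * k + 1 := by
    have h : 1 ≤ Pp := hPp.one_le
    have h2 : be ∣ Pp - 1 := (Nat.modEq_iff_dvd' h).1 hPmod.symm
    obtain ⟨k, hk⟩ := h2
    exact ⟨k, by omega⟩
  have hkbig : n9 + n10 + n11 + 4 ≤ k := by
    by_contra hcon
    push Not at hcon
    have : be * k ≤ be * (n9 + n10 + n11 + 4) := Nat.mul_le_mul_left _ hcon.le
    omega
  have hn9 : n9 ≤ k := by omega
  have hn10 : n10 ≤ k := by omega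
  have hn11' : n11 ≤ k := by omega
  have hk1 : 4 ≤ k := by omega
  set a := P.al * k + 1 with ha
  set m := P.mu * k with hm
  have hak : k + 1 ≤ a := by
    have := Nat.mul_le_mul_right k hP.al1
    omega
  have hap : a ≤ Pp := by
    have := Nat.mul_le_mul_right k hbe
    omega
  have hpa2 : Pp + 1 ≤ 2 * a := by
    have h := Nat.mul_le_mul_right k (Nat.succ_le_of_lt hbe2)
    have e : 2 * P.al * k = 2 * (P.al * k) := by ring
    have e2 : (be + 1) * k = be * k + k := by ring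
    rw [Nat.succ_eq_add_one, e, e2] at h
    omega
  -- nonvanishing
  have hne1 : hank (Lw P.r P.q 0 a a (wt P.r a 1 z)) m ≠ 0 := by
    refine h8 Pp a a m z (by omega) hPp (by omega) hap hpa2 le_rfl ?_ ?_
    · have e1 : 2 * a - 1 - Pp = (2 * P.al - be) * k := by
        have e2 : (2 * P.al - be) * k = 2 * (P.al * k) - be * k := by
          rw [Nat.sub_mul]; ring_nf
        rw [e2]
        omega
      rw [e1, hm]
      calc 2 * (P.mu * k) = 2 * P.mu * k := by ring
        _ = N * (2 * P.al - be) * k := by rw [hN]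
        _ = _ := by ring
    · intro s
      haveI : Fact Pp.Prime := ⟨hPp⟩
      by_cases h0 : z s = 0
      · exact Or.inl h0
      · right
        have hnd : ¬ Pp ∣ (z s).den := by
          intro hd
          have := Nat.le_of_dvd hQ1 (hd.trans (hQden s))
          omega
        have : 0 ≤ padicValRat Pp (z s) := by
          rw [padicValRat_def, padicValNat.eq_zero_of_not_dvd hnd]
          simp
        exact_mod_cast this
  set D : ℚ := hank (Lw P.r P.q 0 a a (wt P.r a Q z)) m with hD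
  have hDeq : D = (Q : ℚ) ^ m * hank (Lw P.r P.q 0 a a (wt P.r a 1 z)) m :=
    hank_wt _ _ _ _ _ _ _ _
  have hQ0 : (Q : ℚ) ≠ 0 := by
    have : Q ≠ 0 := by omega
    exact_mod_cast this
  have hD0 : D ≠ 0 := by
    rw [hDeq]
    exact mul_ne_zero (pow_ne_zero _ hQ0) hne1
  have hkr : (4 : ℝ) ≤ k := by exact_mod_cast hk1
  have hk0 : (0 : ℝ) < k := by linarith
  have har : (a : ℝ) = P.al * k + 1 := by rw [ha]; push_cast; ring
  have hmr : (m : ℝ) = P.mu * k := by rw [hm]; push_cast; ring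
  -- archimedean bound
  have hlogD : Real.log |((D : ℚ) : ℝ)| ≤ δ * k ^ 2 +
      k ^ 2 * ((2 * P.mu ^ 2 - 2 * P.q * P.al * P.mu) * Real.log k + A0 + δ) := by
    have harch := h10 k hn10 z hz
    have hDabs : |((D : ℚ) : ℝ)| ≤ (Q : ℝ) ^ m *
        Real.exp (k ^ 2 * ((2 * P.mu ^ 2 - 2 * P.q * P.al * P.mu) * Real.log k + A0 + δ)) := by
      rw [hDeq]
      push_cast
      rw [abs_mul, abs_of_nonneg (by positivity : (0 : ℝ) ≤ (Q : ℝ) ^ m)]
      exact mul_le_mul_of_nonneg_left harch (by positivity)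
    have hDpos : 0 < |((D : ℚ) : ℝ)| := by
      rw [abs_pos]; exact_mod_cast hD0
    have hlog := Real.log_le_log hDpos hDabs
    have hQr : (Q : ℝ) ≠ 0 := by exact_mod_cast hQ0
    rw [Real.log_mul (pow_ne_zero _ hQr) (Real.exp_pos _).ne', Real.log_exp, Real.log_pow,
      hmr] at hlog
    have h12 : P.mu * Real.log Q ≤ δ * k := by
      have h13 : (n11 : ℝ) ≤ k := by exact_mod_cast hn11'
      have h14 := hn11.le.trans h13
      rw [div_le_iff₀ hδ0] at h14
      linarith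
    have h15 := mul_le_mul_of_nonneg_left h12 hk0.le
    nlinarith [hlog, h15]
  -- p-adic bound
  have hden := log_abs_ge D hD0 (2 * a) (by
    intro p hp hpa
    haveI : Fact p.Prime := ⟨hp⟩
    refine m6d p P.r P.q 0 a a m _ hp (by omega) (by omega) le_rfl (by have := hP.q2; omega) ?_
    intro u hu i _ _
    refine VG_wt_zero (hVQ p hp) ?_
    rw [mem_pc] at hu
    omega)
  have hEg : 0 ≤ Eg P.q P.al P.mu k := by
    unfold Eg
    have h1 : (P.mu : ℝ) ≤ P.q * P.al := by exact_mod_cast hmuq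
    have h2 : (0 : ℝ) ≤ P.q := Nat.cast_nonneg _
    have h3 : (0 : ℝ) ≤ P.mu := Nat.cast_nonneg _
    have h4 : 0 ≤ (P.q * P.al - P.mu : ℝ) * (P.mu * k ^ 2) :=
      mul_nonneg (by linarith) (by positivity)
    have h5 : 0 ≤ (P.q : ℝ) * (P.mu * k) := by positivity
    nlinarith
  have hq1 : 1 ≤ P.q := le_trans (by norm_num) hP.q2
  have hpadic := h9' k hn9 (fun p => (D.den.factorization p : ℝ)) ?_ ?_ ?_ ?_
  · have h12 : (∑ p ∈ (Finset.Icc 1 (2 * a)).filter Nat.Prime,
        (D.den.factorization p : ℝ) * Real.log p) ≤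
        k ^ 2 * ((2 * P.q * P.al * P.mu - 2 * P.mu ^ 2) * Real.log k +
          P0 P.r P.q P.al P.mu l1 x1 c + δ) := hpadic
    have h13 : (0 : ℝ) < k ^ 2 := by positivity
    have h14 : (k : ℝ) ^ 2 * (A0 + P0 P.r P.q P.al P.mu l1 x1 c + 3 * δ) < 0 := by
      refine mul_neg_of_pos_of_neg h13 ?_
      rw [hδ]; linarith
    nlinarith [h12, h14, hden, hlogD]
  · -- small primes
    intro p hp hp2
    haveI : Fact p.Prime := ⟨hp⟩
    have hp1 : (0 : ℝ) < (p : ℝ) - 1 := by
      have : (1 : ℝ) < p := by exact_mod_cast hp.one_lt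
      linarith
    refine fact_le_of_VG hp hD0 (by positivity) ?_
    have key := h6e p a a m (wt P.r a Q z) hp (by omega) le_rfl hq1 (by
      intro u hu i _ _
      refine VG_wt_gen (hVQ p hp) ?_
      apply Nat.log_mono_right
      rw [mem_pc] at hu
      omega)
    refine key.mono (le_of_eq ?_)
    rw [hmr, har, Eg]
    push_cast
    ring
  · intro p hp hp2 hpa
    haveI : Fact p.Prime := ⟨hp⟩
    have hp0 : (0 : ℝ) < (p : ℝ) := by exact_mod_cast hp.pos
    refine fact_le_of_VG hp hD0 (by positivity) ?_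
    have hpne : p ≠ 2 := by
      rintro rfl
      omega
    have key := m6a p P.r P.q 0 a a m (wt P.r a Q z) hp hpne hpa le_rfl (by omega)
      hq1 (by
        intro u hu i _ _
        exact VG_wt_one (hVQ p hp) hu (by omega))
    refine key.mono ?_
    rw [hmr, har, Eg]
    push_cast
    apply le_of_eq
    ring
  · intro p hp hpa hp2
    haveI : Fact p.Prime := ⟨hp⟩
    have hple : (p : ℝ) ≤ 2 * (P.al * k) := by
      refine hp2.trans ?_
      nlinarith
    have hple' : p ≤ 2 * (P.al * k) := by exact_mod_cast hple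
    have hpr : (p : ℝ) ≤ 2 * (P.al * k + 1) := by linarith
    refine fact_le_of_VG hp hD0 (by
      have h1 : (0 : ℝ) ≤ 2 * (P.al * k + 1) - p := by linarith
      positivity) ?_
    have hpne : p ≠ 2 := by
      rintro rfl
      omega
    have hsq : 2 * a ≤ p ^ 2 := by nlinarith
    have key := m6z p P.r P.q 0 a m (wt P.r a Q z) l1 hl1 hp hpne (by omega) (by omega) hsq hq1 (by
        intro u hu i _ _
        exact VG_wt_one (hVQ p hp) hu (by omega)) (by
        intro u _ hu2 i _ _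
        exact VG_wt_zero (hVQ p hp) hu2)
    refine key.mono ?_
    rw [hmr, har]
    have : 0 ≤ (2 * (P.q : ℝ) + P.r + 1 - l1) ^ 2 := sq_nonneg _
    nlinarith
  · intro p hp hpa hp1 hp2
    haveI : Fact p.Prime := ⟨hp⟩
    have hpr : (p : ℝ) ≤ 2 * (P.al * k + 1) := by
      have : (p : ℝ) ≤ ((2 * a : ℕ) : ℝ) := by exact_mod_cast hp2
      rw [ha] at this
      push_cast at this
      linarith
    have hnn : (0 : ℝ) ≤ (2 * (P.q : ℝ) + P.r + 1) ^ 2 * (2 * (P.al * k + 1) - p) / 8 := by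
      have h1 : (0 : ℝ) ≤ 2 * (P.al * k + 1) - p := by linarith
      positivity
    refine fact_le_of_VG hp hD0 hnn ?_
    by_cases hpc : p + 1 ≤ 2 * a
    · have hpne : p ≠ 2 := by
        rintro rfl
        omega
      have hsq : 2 * a ≤ p ^ 2 := by nlinarith
      have key := m6z p P.r P.q 0 a m (wt P.r a Q z) 0 le_rfl hp hpne (by omega) hpc hsq hq1 (by
          intro u hu i _ _
          exact VG_wt_one (hVQ p hp) hu (by omega)) (by
          intro u _ hu2 i _ _
          exact VG_wt_zero (hVQ p hp) hu2)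
      refine key.mono ?_
      rw [hmr, har, sub_zero, zero_mul, zero_add]
      have : 0 ≤ (2 * (P.q : ℝ) + P.r + 1) ^ 2 := sq_nonneg _
      nlinarith
    · have key := m6d p P.r P.q 0 a a m (wt P.r a Q z) hp (by omega) (by omega) le_rfl hq1 (by
        intro u hu i _ _
        refine VG_wt_zero (hVQ p hp) ?_
        rw [mem_pc] at hu
        omega)
      refine key.mono ?_
      linarith

end EM

end Z579
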