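import Pool.Agent.Lib.Z579.NoZ
import Pool.Agent.Lib.Z579.E6Fin
import Pool.Agent.Lib.Z579.M9g
import Pool.Agent.Lib.Z579.MertUB
import Pool.Agent.Lib.Z579.LHz
import Pool.Agent.Lib.Z579.Cert3
import Pool.Agent.Lib.Z579.Cert2

/-!
# `{7, 9, 11, 13, 15}` and `{9, 11, ..., 21}`: assembly
-/

open Polynomial Finset

namespace Z579

namespace EM

theorem no_z_T3 (hU1 : U1) (hU2 : U2) (hU3 : U3) (hU4 : U4) (hW1 : W1) (hW2 : W2)
    (z : ℕ → ℚ) (hz : IsZ 4 12 z) : False := by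
  obtain ⟨c⟩ := Num.cert3
  have hA := archTot_of hU1 hU2 hU3 hU4 hW1 hW2 Num.ok3 c
  refine no_z_gen Num.ok3 hA m9g 14 14 (14 / 5) 14 (569 / 1000) ?_ ?_ ?_ ?_ ?_ mertens569 ?_ ?_ ?_ ?_ ?_
    z hz
  · show 12 ≤ 14; norm_num
  · show 14 < 2 * 12; norm_num
  · show 2 * 70 = 14 * (2 * 12 - 14); norm_num
  · show 2 * 14 ≤ 4 + 2 * 12 + 1; norm_num
  · exact lhank_4_12_0_14
  · norm_num
  · show (14 / 5 : ℝ) ≤ 2 * ((12 : ℕ) : ℝ) + ((4 : ℕ) : ℝ) + 1; norm_num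
  · show ((12 : ℕ) : ℝ) ≤ 14; norm_num
  · show (14 : ℝ) ≤ 2 * ((12 : ℕ) : ℝ); norm_num
  · show (((-32752 : ℤ) : ℝ)) + P0 4 12 12 70 (14 / 5) 14 (569 / 1000) < 0
    unfold P0
    have h3 : Real.log 3 ≤ 8 / 5 * Real.log 2 := by
      have h : Real.log ((3 : ℝ) ^ 5) ≤ Real.log ((2 : ℝ) ^ 8) :=
        Real.log_le_log (by norm_num) (by norm_num)
      rw [Real.log_pow, Real.log_pow] at h
      push_cast at h
      linarith
    have h12 : Real.log ((12 : ℕ) : ℝ) = 2 * Real.log 2 + Real.log 3 := by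
      have : (((12 : ℕ) : ℝ)) = 2 ^ 2 * 3 := by norm_num
      rw [this, Real.log_mul (by norm_num) (by norm_num), Real.log_pow]
      push_cast
      ring
    rw [h12]
    have h2 := Real.log_two_lt_d9
    push_cast
    linarith

theorem no_z_T2 (hU1 : U1) (hU2 : U2) (hU3 : U3) (hU4 : U4) (hW1 : W1) (hW2 : W2)
    (z : ℕ → ℚ) (hz : IsZ 6 16 z) : False := by
  obtain ⟨c⟩ := Num.cert2
  have hA := archTot_of hU1 hU2 hU3 hU4 hW1 hW2 Num.ok2 c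
  refine no_z_gen Num.ok2 hA m9g 18 18 4 (92 / 5) (569 / 1000) ?_ ?_ ?_ ?_ ?_ mertens569 ?_ ?_ ?_ ?_ ?_
    z hz
  · show 16 ≤ 18; norm_num
  · show 18 < 2 * 16; norm_num
  · show 2 * 126 = 18 * (2 * 16 - 18); norm_num
  · show 2 * 18 ≤ 6 + 2 * 16 + 1; norm_num
  · exact lhank_6_16_0_18
  · norm_num
  · show (4 : ℝ) ≤ 2 * ((16 : ℕ) : ℝ) + ((6 : ℕ) : ℝ) + 1; norm_num
  · show ((16 : ℕ) : ℝ) ≤ 92 / 5; norm_num
  · show (92 / 5 : ℝ) ≤ 2 * ((16 : ℕ) : ℝ); norm_num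
  · show (((-112185 : ℤ) : ℝ)) + P0 6 16 16 126 4 (92 / 5) (569 / 1000) < 0
    unfold P0
    have h12 : Real.log ((16 : ℕ) : ℝ) = 4 * Real.log 2 := by
      have : (((16 : ℕ) : ℝ)) = 2 ^ 4 := by norm_num
      rw [this, Real.log_pow]
      push_cast
      ring
    rw [h12]
    have h2 := Real.log_two_lt_d9
    push_cast
    linarith

/-- a rational realisation from rationality of all the zeta values -/
lemma isZ_of_not_irrational {r q : ℕ} (h : ∀ s, Odd s → r + 3 ≤ s → s ≤ r + q - 1 →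
    ¬ Irrational (zr s)) : ∃ z : ℕ → ℚ, IsZ r q z := by
  classical
  have h1 : ∀ s, ∃ x : ℚ, (x : ℝ) = if Odd s ∧ r + 3 ≤ s ∧ s ≤ r + q - 1 then zr s else 0 := by
    intro s
    by_cases hs : Odd s ∧ r + 3 ≤ s ∧ s ≤ r + q - 1
    · rw [if_pos hs]
      have := h s hs.1 hs.2.1 hs.2.2
      unfold Irrational at this
      push Not at this
      exact this
    · rw [if_neg hs]
      exact ⟨0, by simp⟩
  choose z hz using h1
  exact ⟨z, hz⟩

end EM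

end Z579
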