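import Pool.Agent.Lib.Z579.M9k
import Pool.Agent.Lib.Z579.C54d
import Pool.Agent.Lib.Z579.T3T2
import Pool.Agent.Lib.Z579.CertS24

/-!
# `{5, 7}`: assembly
-/

open Polynomial Finset

namespace Z579

set_option linter.unusedSectionVars false

namespace C54

section
variable {p : ℕ} [hp : Fact p.Prime]

/-- harmonic sums up to `n`, `p ≤ n < 2p` -/
lemma Hs_top {s n : ℕ} (hn : p ≤ n) (hn2 : n < 2 * p) : VG p 0 (Hs s n - 1 / (p : ℚ) ^ s) := by
  have hp1 := hp.out.one_lt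
  have hmem : p - 1 ∈ Finset.range n := by rw [Finset.mem_range]; omega
  have h1 : (1 / (((p - 1 : ℕ) : ℚ) + 1) ^ s) = 1 / (p : ℚ) ^ s := by
    have : (((p - 1 : ℕ) : ℚ) + 1) = p := by
      have : p - 1 + 1 = p := by omega
      exact_mod_cast this
    rw [this]
  rw [Hs, ← Finset.add_sum_erase _ _ hmem, h1, add_sub_cancel_left]
  refine VG.sum fun k hk => ?_
  rw [Finset.mem_erase, Finset.mem_range] at hk
  have hd : ¬ p ∣ k + 1 := by
    rintro ⟨c, hc⟩
    have hc1 : c < 2 := by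
      by_contra hcc
      push Not at hcc
      have : p * 2 ≤ p * c := Nat.mul_le_mul_left p hcc
      omega
    interval_cases c <;> omega
  right
  have h2 : padicValRat p ((k : ℚ) + 1) = 0 := by
    have : ((k : ℚ) + 1) = ((k + 1 : ℕ) : ℚ) := by push_cast; ring
    rw [this, padicValRat.of_nat, padicValNat.eq_zero_of_not_dvd hd]
    rfl
  rw [one_div, padicValRat.inv, padicValRat.pow, h2]
  simp

lemma wt_top {r a Q : ℕ} {z : ℕ → ℚ} (hQz : ∀ s, VG p 0 ((Q : ℚ) * z s)) {u : ℤ} {i : ℕ}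
    (h1 : (p : ℤ) ≤ u + a - 1) (h2 : u + a - 1 < 2 * p) :
    VG p 0 (wt r a Q z u i + (Q : ℚ) / (p : ℚ) ^ (i + r)) := by
  have h3 := Hs_top (p := p) (s := i + r) (n := (u + a - 1).toNat) (by omega) (by omega)
  have h4 : wt r a Q z u i + (Q : ℚ) / (p : ℚ) ^ (i + r) = (Q : ℚ) * z (i + r) -
      (Q : ℚ) * (Hs (i + r) (u + a - 1).toNat - 1 / (p : ℚ) ^ (i + r)) := by
    rw [wt]; ring
  rw [h4]
  exact (hQz _).sub (by simpa using (VG.nat Q).mul h3)

end

end C54

namespace EM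

theorem lhank_2_6_0_6 : lhank 2 6 0 6 ≠ 0 := by
  refine lhank_ne_zero_of_list (l := 2) (by norm_num) (by decide) (by decide)
    [0, 1, 1, 1, 1, 1, 1, 0, 1, 0, 0, 0]
    (Matrix.of ![![1, 1, 0, 0, 0, 0], ![1, 1, 1, 0, 1, 1], ![0, 1, 1, 1, 0, 1], ![0, 0, 1, 0, 1, 0], ![0, 1, 0, 1, 0, 0], ![0, 1, 1, 0, 0, 0]]) ?_ ?_
  · decide +kernel
  · decide +kernel

theorem no_z_57_gen {P : Par} (hP : P.Ok) (hPr : P.r = 2) (hPq : P.q = 6) {A0 : ℝ}
    (hA : ArchTot P A0) (hmu : P.mu = 3 * P.al) (hal : 2 ≤ P.al) (c : ℝ) (hc : MertensUB c)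
    (htot : A0 + (P0 P.r P.q P.al P.mu 0 P.al c - (225 / 8 - 27) * ((P.al : ℝ) ^ 2 / 2)) < 0)
    (z : ℕ → ℚ) (hz : IsZ P.r P.q z) : False := by
  obtain ⟨Q, hQ1, hQz, hQden⟩ := exists_den hz
  have hVQ : ∀ p : ℕ, p.Prime → ∀ s, Z579.VG p 0 ((Q : ℚ) * z s) := by
    intro p hp s
    haveI : Fact p.Prime := ⟨hp⟩
    obtain ⟨k, hk⟩ := hQz s
    rw [hk]
    exact Z579.VG.int k
  set B0 : ℝ := P0 P.r P.q P.al P.mu 0 P.al c - (225 / 8 - 27) * ((P.al : ℝ) ^ 2 / 2) with hB0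
  set δ : ℝ := -(A0 + B0) / 4 with hδ
  have hδ0 : 0 < δ := by rw [hδ]; linarith
  obtain ⟨C6, hC6, h6e⟩ := m6e P.r P.q 0
  have hmuq : P.mu ≤ P.q * P.al := by
    have := hP.deg
    nlinarith
  obtain ⟨n9, h9'⟩ := m9k P.r P.q P.al P.mu c 27 hP.al1 hP.mu1 hmuq (by
    rw [hPr, hPq]; norm_num) hc C6 δ hC6 hδ0
  have hκ : ((2 * (P.q : ℝ) + P.r + 1) ^ 2 / 8 - 27) = 225 / 8 - 27 := by
    rw [hPr, hPq]; norm_num
  rw [hκ] at h9'
  obtain ⟨n10, h10⟩ := hA δ hδ0
  obtain ⟨p8, h8⟩ := m8z P.r P.q 0 6 hP.er hP.r2 hP.eq hP.q2 (by rw [hPr, hPq]; norm_num)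
    (by rw [hPr, hPq]; exact lhank_2_6_0_6)
  obtain ⟨n11, hn11⟩ := exists_nat_gt (P.mu * Real.log Q / δ)
  have hbe0 : P.al ≠ 0 := by omega
  obtain ⟨Pp, hPp, hPlt, hPmod⟩ := Nat.exists_prime_gt_modEq_one (k := P.al)
    (p8 + Q + P.al * (n9 + n10 + n11 + 4) + 4) hbe0
  obtain ⟨k, hk⟩ : ∃ k, Pp = P.al * k + 1 := by
    have h : 1 ≤ Pp := hPp.one_le
    have h2 : P.al ∣ Pp - 1 := (Nat.modEq_iff_dvd' h).1 hPmod.symm
    obtain ⟨k, hk⟩ := h2
    exact ⟨k, by omega⟩
  have hkbig : n9 + n10 + n11 + 4 ≤ k := by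
    by_contra hcon
    push Not at hcon
    have : P.al * k ≤ P.al * (n9 + n10 + n11 + 4) := Nat.mul_le_mul_left _ hcon.le
    omega
  have hn9 : n9 ≤ k := by omega
  have hn10 : n10 ≤ k := by omega
  have hn11' : n11 ≤ k := by omega
  have hk1 : 4 ≤ k := by omega
  set a := P.al * k + 1 with ha
  set m := P.mu * k with hm
  have hak : k + 1 ≤ a := by
    have := Nat.mul_le_mul_right k hP.al1
    omega
  have hak2 : 2 * k + 1 ≤ a := by
    have := Nat.mul_le_mul_right k hal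
    omega
  -- nonvanishing
  have hne1 : hank (Lw P.r P.q 0 a a (wt P.r a 1 z)) m ≠ 0 := by
    refine h8 Pp a a m z (by omega) hPp (by omega) (by omega) (by omega) le_rfl ?_ ?_
    · have e1 : 2 * a - 1 - Pp = P.al * k := by omega
      rw [e1, hm, hmu]
      ring
    · intro s
      haveI : Fact Pp.Prime := ⟨hPp⟩
      by_cases h0 : z s = 0
      · exact Or.inl h0
      · right
        have hnd : ¬ Pp ∣ (z s).den := by
          intro hd
          have := Nat.le_of_dvd hQ1 (hd.trans (hQden s))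
          omega
        have : 0 ≤ padicValRat Pp (z s) := by
          rw [padicValRat_def, padicValNat.eq_zero_of_not_dvd hnd]
          simp
        exact_mod_cast this
  set D : ℚ := hank (Lw P.r P.q 0 a a (wt P.r a Q z)) m with hD
  have hDeq : D = (Q : ℚ) ^ m * hank (Lw P.r P.q 0 a a (wt P.r a 1 z)) m :=
    hank_wt _ _ _ _ _ _ _ _
  have hQ0 : (Q : ℚ) ≠ 0 := by
    have : Q ≠ 0 := by omega
    exact_mod_cast this
  have hD0 : D ≠ 0 := by
    rw [hDeq]
    exact mul_ne_zero (pow_ne_zero _ hQ0) hne1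
  have hkr : (4 : ℝ) ≤ k := by exact_mod_cast hk1
  have hk0 : (0 : ℝ) < k := by linarith
  have har : (a : ℝ) = P.al * k + 1 := by rw [ha]; push_cast; ring
  have hmr : (m : ℝ) = P.mu * k := by rw [hm]; push_cast; ring
  -- archimedean bound
  have hlogD : Real.log |((D : ℚ) : ℝ)| ≤ δ * k ^ 2 +
      k ^ 2 * ((2 * P.mu ^ 2 - 2 * P.q * P.al * P.mu) * Real.log k + A0 + δ) := by
    have harch := h10 k hn10 z hz
    have hDabs : |((D : ℚ) : ℝ)| ≤ (Q : ℝ) ^ m *
        Real.exp (k ^ 2 * ((2 * P.mu ^ 2 - 2 * P.q * P.al * P.mu) * Real.log k + A0 + δ)) := by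
      rw [hDeq]
      push_cast
      rw [abs_mul, abs_of_nonneg (by positivity : (0 : ℝ) ≤ (Q : ℝ) ^ m)]
      exact mul_le_mul_of_nonneg_left harch (by positivity)
    have hDpos : 0 < |((D : ℚ) : ℝ)| := by
      rw [abs_pos]; exact_mod_cast hD0
    have hlog := Real.log_le_log hDpos hDabs
    have hQr : (Q : ℝ) ≠ 0 := by exact_mod_cast hQ0
    rw [Real.log_mul (pow_ne_zero _ hQr) (Real.exp_pos _).ne', Real.log_exp, Real.log_pow,
      hmr] at hlog
    have h12 : P.mu * Real.log Q ≤ δ * k := by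
      have h13 : (n11 : ℝ) ≤ k := by exact_mod_cast hn11'
      have h14 := hn11.le.trans h13
      rw [div_le_iff₀ hδ0] at h14
      linarith
    have h15 := mul_le_mul_of_nonneg_left h12 hk0.le
    nlinarith [hlog, h15]
  -- p-adic bound
  have hden := log_abs_ge D hD0 (2 * a) (by
    intro p hp hpa
    haveI : Fact p.Prime := ⟨hp⟩
    refine m6d p P.r P.q 0 a a m _ hp (by omega) (by omega) le_rfl (by have := hP.q2; omega) ?_
    intro u hu i _ _
    refine VG_wt_zero (hVQ p hp) ?_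
    rw [mem_pc] at hu
    omega)
  have hEg : 0 ≤ Eg P.q P.al P.mu k := by
    unfold Eg
    have h1 : (P.mu : ℝ) ≤ P.q * P.al := by exact_mod_cast hmuq
    have h2 : (0 : ℝ) ≤ P.q := Nat.cast_nonneg _
    have h3 : (0 : ℝ) ≤ P.mu := Nat.cast_nonneg _
    have h4 : 0 ≤ (P.q * P.al - P.mu : ℝ) * (P.mu * k ^ 2) :=
      mul_nonneg (by linarith) (by positivity)
    have h5 : 0 ≤ (P.q : ℝ) * (P.mu * k) := by positivity
    nlinarith
  have hq1 : 1 ≤ P.q := le_trans (by norm_num) hP.q2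
  have hpadic := h9' k hn9 (fun p => (D.den.factorization p : ℝ)) ?_ ?_ ?_
  · have h12 : (∑ p ∈ (Finset.Icc 1 (2 * a)).filter Nat.Prime,
        (D.den.factorization p : ℝ) * Real.log p) ≤
        k ^ 2 * ((2 * P.q * P.al * P.mu - 2 * P.mu ^ 2) * Real.log k + B0 + δ) := by
      refine hpadic.trans (le_of_eq ?_)
      rw [hB0]; ring
    have h13 : (0 : ℝ) < k ^ 2 := by positivity
    have h14 : (k : ℝ) ^ 2 * (A0 + B0 + 3 * δ) < 0 := by
      refine mul_neg_of_pos_of_neg h13 ?_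
      rw [hδ]; linarith
    nlinarith [h12, h14, hden, hlogD]
  · -- small primes
    intro p hp hp2
    haveI : Fact p.Prime := ⟨hp⟩
    have hp1 : (0 : ℝ) < (p : ℝ) - 1 := by
      have : (1 : ℝ) < p := by exact_mod_cast hp.one_lt
      linarith
    refine fact_le_of_VG hp hD0 (by positivity) ?_
    have key := h6e p a a m (wt P.r a Q z) hp (by omega) le_rfl hq1 (by
      intro u hu i _ _
      refine VG_wt_gen (hVQ p hp) ?_
      apply Nat.log_mono_right
      rw [mem_pc] at hu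
      omega)
    refine key.mono (le_of_eq ?_)
    rw [hmr, har, Eg]
    push_cast
    ring
  · intro p hp hp2 hpa
    haveI : Fact p.Prime := ⟨hp⟩
    have hp0 : (0 : ℝ) < (p : ℝ) := by exact_mod_cast hp.pos
    refine fact_le_of_VG hp hD0 (by positivity) ?_
    have hpne : p ≠ 2 := by
      rintro rfl
      omega
    have key := m6a p P.r P.q 0 a a m (wt P.r a Q z) hp hpne hpa le_rfl (by omega)
      hq1 (by
        intro u hu i _ _
        exact VG_wt_one (hVQ p hp) hu (by omega))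
    refine key.mono ?_
    rw [hmr, har, Eg]
    push_cast
    apply le_of_eq
    ring
  · intro p hp hpa hp2
    haveI : Fact p.Prime := ⟨hp⟩
    have hpr : (p : ℝ) ≤ 2 * (P.al * k + 1) := by
      have : (p : ℝ) ≤ ((2 * a : ℕ) : ℝ) := by exact_mod_cast hp2
      rw [ha] at this
      push_cast at this
      linarith
    have hnn : (0 : ℝ) ≤ 27 * (2 * (P.al * k + 1) - p) := by
      have h1 : (0 : ℝ) ≤ 2 * (P.al * k + 1) - p := by linarith
      positivity
    refine fact_le_of_VG hp hD0 hnn ?_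
    by_cases hpc : p + 1 ≤ 2 * a
    · have hpne : p ≠ 2 := by
        rintro rfl
        omega
      obtain ⟨K, hK⟩ : ∃ K, 2 * K + 1 + p = 2 * a := by
        rcases hp.eq_two_or_odd with h | h
        · exact absurd h hpne
        · exact ⟨(2 * a - 1 - p) / 2, by omega⟩
      have key := C54.hank_VG (p := p) (a := a) (K := K) (m := m) (Q := (Q : ℚ))
        (ω := wt P.r a Q z) hpne (by omega) hK (Z579.VG.nat Q) (by
          intro u _ hu2 i _
          exact VG_wt_zero (hVQ p hp) hu2) (by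
          intro u hu hu2 i _
          have := C54.wt_top (p := p) (r := P.r) (a := a) (Q := Q) (z := z) (hVQ p hp) (u := u)
            (i := i) hu2 (by rw [mem_pc] at hu; omega)
          rw [hPr] at this ⊢
          exact this)
      rw [hD, hPr, hPq]
      rw [hPr] at key
      refine key.mono ?_
      have hKr : 2 * (K : ℝ) + 1 + p = 2 * (P.al * k + 1) := by
        have : ((2 * K + 1 + p : ℕ) : ℝ) = ((2 * a : ℕ) : ℝ) := by rw [hK]
        push_cast at this
        rw [har] at this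
        exact this
      linarith
    · have key := m6d p P.r P.q 0 a a m (wt P.r a Q z) hp (by omega) (by omega) le_rfl hq1 (by
        intro u hu i _ _
        refine VG_wt_zero (hVQ p hp) ?_
        rw [mem_pc] at hu
        omega)
      refine key.mono ?_
      linarith

theorem no_z_57 (hU1 : U1) (hU2 : U2) (hU3 : U3) (hU4 : U4) (hW1 : W1) (hW2 : W2)
    (z : ℕ → ℚ) (hz : IsZ 2 6 z) : False := by
  obtain ⟨c⟩ := Num.certS24
  have hA := archTot_of hU1 hU2 hU3 hU4 hW1 hW2 Num.okS24 c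
  refine no_z_57_gen Num.okS24 rfl rfl hA rfl ?_ (569 / 1000) mertens569 ?_ z hz
  · show 2 ≤ 24; norm_num
  · show (((-40625 : ℤ) : ℝ)) + (P0 2 6 24 72 0 ((24 : ℕ) : ℝ) (569 / 1000) -
      (225 / 8 - 27) * ((((24 : ℕ) : ℝ)) ^ 2 / 2)) < 0
    unfold P0
    have h3 : Real.log 3 ≤ 8 / 5 * Real.log 2 := by
      have h : Real.log ((3 : ℝ) ^ 5) ≤ Real.log ((2 : ℝ) ^ 8) :=
        Real.log_le_log (by norm_num) (by norm_num)
      rw [Real.log_pow, Real.log_pow] at h
      push_cast at h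
      linarith
    have h12 : Real.log ((24 : ℕ) : ℝ) = 3 * Real.log 2 + Real.log 3 := by
      have : (((24 : ℕ) : ℝ)) = 2 ^ 3 * 3 := by norm_num
      rw [this, Real.log_mul (by norm_num) (by norm_num), Real.log_pow]
      push_cast
      ring
    rw [h12]
    have h2 := Real.log_two_lt_d9
    push_cast
    linarith

/-- at least one of `ζ(5)`, `ζ(7)` is irrational -/
theorem one_of_57 (hU1 : U1) (hU2 : U2) (hU3 : U3) (hU4 : U4) (hW1 : W1) (hW2 : W2) :
    Irrational (∑' n : ℕ, 1 / ((n : ℝ) + 1) ^ 5) ∨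
      Irrational (∑' n : ℕ, 1 / ((n : ℝ) + 1) ^ 7) := by
  by_contra hcon
  simp only [not_or] at hcon
  obtain ⟨h5, h7⟩ := hcon
  obtain ⟨z, hz⟩ := isZ_of_not_irrational (r := 2) (q := 6) (by
    intro s hs h1 h2
    obtain ⟨k, rfl⟩ := hs
    have h3 : k = 2 ∨ k = 3 := by omega
    rcases h3 with rfl | rfl
    · exact h5
    · exact h7)
  exact no_z_57 hU1 hU2 hU3 hU4 hW1 hW2 z hz

end EM

end Z579
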