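import Pool.Agent.Lib.Z579.Num2

/-!
# Soundness of the term bounds
-/

open Real Finset Set

namespace Z579

namespace Num

open Arch

lemma mem_aff {S : Set ℝ} (hS : Convex ℝ S) {a σ i x : ℝ} (h0 : a + σ * i ∈ S)
    (h1 : a + σ * (i + 1) ∈ S) (hx : x ∈ Icc i (i + 1)) : a + σ * x ∈ S := by
  have h := hS h0 h1 (show (0 : ℝ) ≤ 1 - (x - i) by linarith [hx.2])
    (show (0 : ℝ) ≤ x - i by linarith [hx.1]) (by ring)
  simp only [smul_eq_mul] at h
  have e : (1 - (x - i)) * (a + σ * i) + (x - i) * (a + σ * (i + 1)) = a + σ * x := by ring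
  rwa [e] at h

lemma comp_aff_convex {g : ℝ → ℝ} {S : Set ℝ} (hg : ConvexOn ℝ S g) {a σ i : ℝ}
    (h0 : a + σ * i ∈ S) (h1 : a + σ * (i + 1) ∈ S) :
    ConvexOn ℝ (Icc i (i + 1)) (fun s => g (a + σ * s)) := by
  refine ⟨convex_Icc _ _, fun x hx y hy α β hα hβ hαβ => ?_⟩
  have h := hg.2 (mem_aff hg.1 h0 h1 hx) (mem_aff hg.1 h0 h1 hy) hα hβ hαβ
  simp only [smul_eq_mul] at h ⊢
  have e : a + σ * (α * x + β * y) = α * (a + σ * x) + β * (a + σ * y) := by
    have : a = (α + β) * a := by rw [hαβ, one_mul]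
    nth_rewrite 1 [this]
    ring
  rw [e]
  exact h

lemma comp_aff_concave {g : ℝ → ℝ} {S : Set ℝ} (hg : ConcaveOn ℝ S g) {a σ i : ℝ}
    (h0 : a + σ * i ∈ S) (h1 : a + σ * (i + 1) ∈ S) :
    ConcaveOn ℝ (Icc i (i + 1)) (fun s => g (a + σ * s)) := by
  refine ⟨convex_Icc _ _, fun x hx y hy α β hα hβ hαβ => ?_⟩
  have h := hg.2 (mem_aff hg.1 h0 h1 hx) (mem_aff hg.1 h0 h1 hy) hα hβ hαβ
  simp only [smul_eq_mul] at h ⊢
  have e : a + σ * (α * x + β * y) = α * (a + σ * x) + β * (a + σ * y) := by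
    have : a = (α + β) * a := by rw [hαβ, one_mul]
    nth_rewrite 1 [this]
    ring
  rw [e]
  exact h

lemma hasDerivAt_aff {g : ℝ → ℝ} {a σ m d : ℝ} (hg : HasDerivAt g d (a + σ * m)) :
    HasDerivAt (fun s => g (a + σ * s)) (σ * d) m := by
  have h1 : HasDerivAt (fun s : ℝ => a + σ * s) σ m := by
    have := ((hasDerivAt_id m).const_mul σ).const_add a
    simpa using this
  have h2 := HasDerivAt.comp m hg h1
  refine h2.congr_deriv ?_
  ring

theorem Trm.bd_spec (t : Trm) (i : ℤ) (h : t.ok i = true) {s : ℝ} (hs : (i : ℝ) ≤ s)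
    (hs' : s ≤ i + 1) :
    2 ^ 34 * t.val s ≤ (((t.bd i).1 : ℤ) : ℝ) + ((((t.bd i).2 : ℤ) : ℝ) - (((t.bd i).1 : ℤ) : ℝ)) *
      (s - i) := by
  have hθ0 : 0 ≤ s - i := by linarith
  have hθ1 : s - i ≤ 1 := by linarith
  obtain ⟨w, k, a, b, sg⟩ := t
  set σ : ℤ := sgn sg with hσ
  have hσc : σ = 1 ∨ σ = -1 := sgn_cases sg
  cases k
  · -- variable in the second slot
    simp only [Trm.ok, Bool.false_eq_true, if_false, Bool.and_eq_true, decide_eq_true_eq] at h
    obtain ⟨⟨ha, hy0⟩, hy1⟩ := h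
    rw [← hσ] at hy0 hy1
    have ha' : (0 : ℝ) ≤ a := by exact_mod_cast ha
    have hy0' : ((b : ℝ) + σ * i) ∈ Ici (0 : ℝ) := by
      show (0 : ℝ) ≤ _; exact_mod_cast hy0
    have hy1' : ((b : ℝ) + σ * (i + 1)) ∈ Ici (0 : ℝ) := by
      show (0 : ℝ) ≤ _; exact_mod_cast hy1
    have hconc := comp_aff_concave (concaveOn_GG_y ha') hy0' hy1'
    have e0 : GG (a : ℝ) (b + σ * i) = GG (((2 * a : ℤ) : ℝ) / 2) (((2 * (b + σ * i) : ℤ) : ℝ) / 2) := by
      push_cast; congr 1 <;> ring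
    have e1 : GG (a : ℝ) (b + σ * (i + 1)) =
        GG (((2 * a : ℤ) : ℝ) / 2) (((2 * (b + σ * (i + 1)) : ℤ) : ℝ) / 2) := by
      push_cast; congr 1 <;> ring
    have b0 := GIs_bounds (2 * a) (2 * (b + σ * i)) (by omega)
    have b1 := GIs_bounds (2 * a) (2 * (b + σ * (i + 1))) (by omega)
    rw [← e0] at b0
    rw [← e1] at b1
    simp only [Trm.val, Trm.bd, Bool.false_eq_true, if_false, ← hσ]
    by_cases hw : w < 0
    · simp only [if_pos hw]
      have hw' : (w : ℝ) ≤ 0 := by exact_mod_cast hw.le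
      refine combine (weighted_chord (f := fun s => GG (a : ℝ) (b + σ * s)) hs hs'
        (Or.inr ⟨hw', hconc⟩)) ?_ ?_ hθ0 hθ1
      · have := ub_spec w _ b0.1 b0.2
        linarith
      · have := ub_spec w _ b1.1 b1.2
        linarith
    · simp only [if_neg hw]
      have hw' : (0 : ℝ) ≤ w := by exact_mod_cast (not_lt.mp hw)
      have hym : (0 : ℤ) < (b + σ * i) + (b + σ * (i + 1)) := by
        rcases hσc with h1 | h1 <;> rw [h1] at hy0 hy1 ⊢ <;> omega
      have hym' : (0 : ℝ) < b + σ * ((i : ℝ) + 1 / 2) := by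
        have : (0 : ℝ) < (((b + σ * i) + (b + σ * (i + 1)) : ℤ) : ℝ) := by exact_mod_cast hym
        push_cast at this
        linarith
      have hd := hasDerivAt_aff (g := fun y => GG (a : ℝ) y) (a := (b : ℝ)) (σ := (σ : ℝ))
        (m := (i : ℝ) + 1 / 2) (hasDerivAt_GG_y (x := (a : ℝ)) hym')
      have em : GG (a : ℝ) (b + σ * ((i : ℝ) + 1 / 2)) =
          GG (((2 * a : ℤ) : ℝ) / 2) ((((b + σ * i) + (b + σ * (i + 1)) : ℤ) : ℝ) / 2) := by
        push_cast; congr 1 <;> ring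
      have bm := GIs_bounds (2 * a) ((b + σ * i) + (b + σ * (i + 1))) hym.le
      rw [← em] at bm
      have bd := atJ_bounds (2 * a) ((b + σ * i) + (b + σ * (i + 1))) (by omega) hym
      have ed : ((2 * a : ℤ) : ℝ) / (((b + σ * i) + (b + σ * (i + 1)) : ℤ) : ℝ) =
          (a : ℝ) / (b + σ * ((i : ℝ) + 1 / 2)) := by
        push_cast
        rw [div_eq_div_iff (by
          have : (0 : ℝ) < (((b + σ * i) + (b + σ * (i + 1)) : ℤ) : ℝ) := by exact_mod_cast hym
          push_cast at this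
          exact this.ne') hym'.ne']
        ring
      rw [ed] at bd
      have bd' := sgI_spec sg _ bd.1 bd.2
      rw [← hσ] at bd'
      refine combine (weighted_tangent (f := fun s => GG (a : ℝ) (b + σ * s)) hs hs' hd
        (Or.inl ⟨hw', hconc⟩)) ?_ ?_ hθ0 hθ1
      · have u1 := ub_spec w _ bm.1 bm.2
        have u2 := ub_spec (-(2 * w)) _ bd'.1 bd'.2
        push_cast at u1 u2 ⊢
        linarith
      · have u1 := ub_spec w _ bm.1 bm.2
        have u2 := ub_spec (2 * w) _ bd'.1 bd'.2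
        push_cast at u1 u2 ⊢
        linarith
  · simp only [Trm.ok, if_true, decide_eq_true_eq] at h
    have hb' : (0 : ℝ) ≤ b := by exact_mod_cast h
    have e0 : GG ((a : ℝ) + σ * i) b = GG (((2 * (a + σ * i) : ℤ) : ℝ) / 2) (((2 * b : ℤ) : ℝ) / 2) := by
      push_cast; congr 1 <;> ring
    have e1 : GG ((a : ℝ) + σ * (i + 1)) b =
        GG (((2 * (a + σ * (i + 1)) : ℤ) : ℝ) / 2) (((2 * b : ℤ) : ℝ) / 2) := by
      push_cast; congr 1 <;> ring
    have b0 := GIs_bounds (2 * (a + σ * i)) (2 * b) (by omega)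
    have b1 := GIs_bounds (2 * (a + σ * (i + 1))) (2 * b) (by omega)
    rw [← e0] at b0
    rw [← e1] at b1
    -- convexity or concavity
    have hdich : (0 ≤ a + σ * i ∧ 0 ≤ a + σ * (i + 1)) ∨
        ¬ (0 ≤ a + σ * i ∧ 0 ≤ a + σ * (i + 1)) ∧ (a + σ * i ≤ 0 ∧ a + σ * (i + 1) ≤ 0) := by
      rcases hσc with h1 | h1 <;> rw [h1] <;> omega
    have hxm : (a : ℝ) + σ * ((i : ℝ) + 1 / 2) ≠ 0 := by
      intro h0
      have h2 : (((2 * a + σ * (2 * i + 1) : ℤ)) : ℝ) = 0 := by push_cast; linarith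
      have h3 : 2 * a + σ * (2 * i + 1) = 0 := by exact_mod_cast h2
      rcases hσc with h1 | h1 <;> rw [h1] at h3 <;> omega
    have hd := hasDerivAt_aff (g := fun x => GG x (b : ℝ)) (a := (a : ℝ)) (σ := (σ : ℝ))
        (m := (i : ℝ) + 1 / 2) (hasDerivAt_GG_x (D := (b : ℝ)) hb' (fun _ => hxm))
    have em : GG ((a : ℝ) + σ * ((i : ℝ) + 1 / 2)) b =
        GG ((((a + σ * i) + (a + σ * (i + 1)) : ℤ) : ℝ) / 2) (((2 * b : ℤ) : ℝ) / 2) := by
      push_cast; congr 1 <;> ring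
    have bm := GIs_bounds ((a + σ * i) + (a + σ * (i + 1))) (2 * b) (by omega)
    rw [← em] at bm
    have hN : 1 ≤ ((a + σ * i) + (a + σ * (i + 1))) ^ 2 + (2 * b) ^ 2 := by
      have h2 : (a + σ * i) + (a + σ * (i + 1)) ≠ 0 := by
        rcases hσc with h1 | h1 <;> rw [h1] <;> omega
      have h3 : 0 < ((a + σ * i) + (a + σ * (i + 1))) ^ 2 := by positivity
      nlinarith [sq_nonneg (2 * b)]
    have bd := lgQ_bounds _ hN
    have ed : log (((((a + σ * i) + (a + σ * (i + 1))) ^ 2 + (2 * b) ^ 2 : ℤ) : ℝ) / 4) =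
        2 * gg ((a : ℝ) + σ * ((i : ℝ) + 1 / 2)) b := by
      unfold gg
      rw [mul_div_cancel₀ _ (by norm_num : (2 : ℝ) ≠ 0)]
      congr 1
      push_cast
      ring
    rw [ed] at bd
    have bd' := sgI_spec sg _ bd.1 bd.2
    rw [← hσ] at bd'
    simp only [Trm.val, Trm.bd, if_true, ← hσ]
    rcases hdich with hc | ⟨hnc, hc⟩
    · have m0 : ((a : ℝ) + σ * i) ∈ Ici (0 : ℝ) := by
        show (0 : ℝ) ≤ _; exact_mod_cast hc.1
      have m1 : ((a : ℝ) + σ * (i + 1)) ∈ Ici (0 : ℝ) := by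
        show (0 : ℝ) ≤ _; exact_mod_cast hc.2
      have hcv := comp_aff_convex (convexOn_GG hb') m0 m1
      by_cases hw : 0 ≤ w
      · simp only [hc, hw, and_self, decide_true, if_true]
        have hw' : (0 : ℝ) ≤ w := by exact_mod_cast hw
        refine combine (weighted_chord (f := fun s => GG ((a : ℝ) + σ * s) b) hs hs'
          (Or.inl ⟨hw', hcv⟩)) ?_ ?_ hθ0 hθ1
        · have := ub_spec w _ b0.1 b0.2
          linarith
        · have := ub_spec w _ b1.1 b1.2
          linarith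
      · simp only [hc, hw, and_self, decide_true, decide_false, Bool.true_eq_false, if_false]
        have hw' : (w : ℝ) ≤ 0 := by exact_mod_cast (not_le.mp hw).le
        refine combine (weighted_tangent (f := fun s => GG ((a : ℝ) + σ * s) b) hs hs' hd
          (Or.inr ⟨hw', hcv⟩)) ?_ ?_ hθ0 hθ1
        · have u1 := ub_spec w _ bm.1 bm.2
          have u2 := ub_spec (-w) _ bd'.1 bd'.2
          push_cast at u1 u2 ⊢
          linarith
        · have u1 := ub_spec w _ bm.1 bm.2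
          have u2 := ub_spec w _ bd'.1 bd'.2
          push_cast at u1 u2 ⊢
          linarith
    · have m0 : ((a : ℝ) + σ * i) ∈ Iic (0 : ℝ) := by
        show _ ≤ (0 : ℝ); exact_mod_cast hc.1
      have m1 : ((a : ℝ) + σ * (i + 1)) ∈ Iic (0 : ℝ) := by
        show _ ≤ (0 : ℝ); exact_mod_cast hc.2
      have hcv := comp_aff_concave (concaveOn_GG hb') m0 m1
      by_cases hw : 0 ≤ w
      · simp only [hnc, hw, decide_true, decide_false, Bool.false_eq_true, if_false]
        have hw' : (0 : ℝ) ≤ w := by exact_mod_cast hw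
        refine combine (weighted_tangent (f := fun s => GG ((a : ℝ) + σ * s) b) hs hs' hd
          (Or.inl ⟨hw', hcv⟩)) ?_ ?_ hθ0 hθ1
        · have u1 := ub_spec w _ bm.1 bm.2
          have u2 := ub_spec (-w) _ bd'.1 bd'.2
          push_cast at u1 u2 ⊢
          linarith
        · have u1 := ub_spec w _ bm.1 bm.2
          have u2 := ub_spec w _ bd'.1 bd'.2
          push_cast at u1 u2 ⊢
          linarith
      · simp only [hnc, hw, decide_false, if_true]
        have hw' : (w : ℝ) ≤ 0 := by exact_mod_cast (not_le.mp hw).le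
        refine combine (weighted_chord (f := fun s => GG ((a : ℝ) + σ * s) b) hs hs'
          (Or.inr ⟨hw', hcv⟩)) ?_ ?_ hθ0 hθ1
        · have := ub_spec w _ b0.1 b0.2
          linarith
        · have := ub_spec w _ b1.1 b1.2
          linarith

/-! ## sums of terms -/

noncomputable def tval : List Trm → ℝ → ℝ
  | [], _ => 0
  | t :: T, s => t.val s + tval T s

def tbd : List Trm → ℤ → ℤ × ℤ
  | [], _ => (0, 0)
  | t :: T, i => let x := t.bd i; let y := tbd T i; (x.1 + y.1, x.2 + y.2)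

def tok : List Trm → ℤ → Bool
  | [], _ => true
  | t :: T, i => t.ok i && tok T i

theorem tbd_spec (T : List Trm) (i : ℤ) (h : tok T i = true) {s : ℝ} (hs : (i : ℝ) ≤ s)
    (hs' : s ≤ i + 1) :
    2 ^ 34 * tval T s ≤ (((tbd T i).1 : ℤ) : ℝ) + ((((tbd T i).2 : ℤ) : ℝ) -
      (((tbd T i).1 : ℤ) : ℝ)) * (s - i) := by
  induction T with
  | nil => simp [tval, tbd]
  | cons t T ih =>
    simp only [tok, Bool.and_eq_true] at h
    have h1 := t.bd_spec i h.1 hs hs'
    have h2 := ih h.2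
    simp only [tval, tbd]
    push_cast
    linarith

/-- check `tval T s / den + c * s ≤ ...`: the affine bound on `[i, i+1]` with values `A`, `B`
(in units `1 / 1000`), including an extra term `- K * 2 ^ 32 * π * s`, `0 ≤ K`, in the unit
`1 / 2 ^ 34` -/
def cellOK (T : List Trm) (K den : ℤ) (i : ℕ) (A B : ℤ) : Bool :=
  let x := tbd T i
  tok T i && decide (1000 * (x.1 - K * 13493037704 * i) ≤ A * den * 17179869184) &&
    decide (1000 * (x.2 - K * 13493037704 * (i + 1)) ≤ B * den * 17179869184)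

theorem cellOK_spec {T : List Trm} {K den : ℤ} {i : ℕ} {A B : ℤ} (hK : 0 ≤ K) (hden : 0 < den)
    (h : cellOK T K den i A B = true) {s : ℝ} (hs : (i : ℝ) ≤ s) (hs' : s ≤ i + 1) :
    tval T s / den - K * π * s / (4 * den) ≤ (A : ℝ) / 1000 + ((B : ℝ) / 1000 - (A : ℝ) / 1000) * (s - i) := by
  simp only [cellOK, Bool.and_eq_true, decide_eq_true_eq] at h
  obtain ⟨⟨h0, h1⟩, h2⟩ := h
  have h3 := tbd_spec T i h0 (s := s) (by exact_mod_cast hs) (by exact_mod_cast hs')
  have hθ0 : 0 ≤ s - i := by linarith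
  have hθ1 : s - i ≤ 1 := by linarith
  generalize tbd T (i : ℤ) = x at h1 h2 h3
  have h1' : (1000 : ℝ) * ((x.1 : ℝ) - K * 13493037704 * i) ≤ A * den * 17179869184 := by
    exact_mod_cast h1
  have h2' : (1000 : ℝ) * ((x.2 : ℝ) - K * 13493037704 * (i + 1)) ≤ B * den * 17179869184 := by
    exact_mod_cast h2
  have hpi := sqrt_free_pi.1
  have hK' : (0 : ℝ) ≤ K := by exact_mod_cast hK
  have hd' : (0 : ℝ) < den := by exact_mod_cast hden
  have hs0 : (0 : ℝ) ≤ s := le_trans i.cast_nonneg hs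
  push_cast at h3
  have g1 := mul_le_mul_of_nonneg_left h1' (by linarith : 0 ≤ 1 - (s - i))
  have g2 := mul_le_mul_of_nonneg_left h2' hθ0
  have g3 : (K : ℝ) * s * 13493037704 ≤ K * s * (2 ^ 32 * π) :=
    mul_le_mul_of_nonneg_left hpi (by positivity)
  have e : tval T s / den - K * π * s / (4 * den) =
      (2 ^ 34 * tval T s - K * s * (2 ^ 32 * π)) / (2 ^ 34 * den) := by
    field_simp
    ring
  rw [e, div_le_iff₀ (by positivity)]
  nlinarith

end Num

end Z579
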