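import Pool.Agent.Lib.Z579.Num3
import Pool.Agent.Lib.Z579.E6Defs
import Pool.Agent.Lib.Z579.ArchCert

/-!
# From the checker to `EM.Cert`
-/

open Real Finset Set

namespace Z579

namespace Num

open Arch EM

/-! ## the tail -/

lemma arctan_sub_le' {u v : ℝ} (h : v ≤ u) : arctan u - arctan v ≤ u - v := by
  have h1 := le_of_deriv_nonneg (f := fun t => t - arctan t) (f' := fun t => 1 - 1 / (1 + t ^ 2))
    (a := v) (x := u) (fun t _ => (hasDerivAt_id t).sub (hasDerivAt_arctan t)) (fun t _ => by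
      have : 1 / (1 + t ^ 2) ≤ 1 := by
        rw [div_le_one (by positivity)]
        nlinarith [sq_nonneg t]
      linarith) h
  linarith

lemma gg_diff_le {y E D : ℝ} (hE : 0 ≤ E) (hy : E < y) :
    gg (y + E) D - gg (y - E) D ≤ 2 * y * E / (y - E) ^ 2 := by
  unfold gg
  have h1 : 0 < (y - E) ^ 2 := by have : 0 < y - E := by linarith
                                  positivity
  have h2 : 0 < (y - E) ^ 2 + D ^ 2 := by positivity
  have h3 : 0 < (y + E) ^ 2 + D ^ 2 := by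
    have : 0 < y + E := by linarith
    positivity
  have h4 : log ((y + E) ^ 2 + D ^ 2) - log ((y - E) ^ 2 + D ^ 2) =
      log (((y + E) ^ 2 + D ^ 2) / ((y - E) ^ 2 + D ^ 2)) := (log_div h3.ne' h2.ne').symm
  have h5 := log_le_sub_one_of_pos (x := ((y + E) ^ 2 + D ^ 2) / ((y - E) ^ 2 + D ^ 2))
    (by positivity)
  have h6 : ((y + E) ^ 2 + D ^ 2) / ((y - E) ^ 2 + D ^ 2) - 1 ≤ 4 * y * E / (y - E) ^ 2 := by
    have e : ((y + E) ^ 2 + D ^ 2) / ((y - E) ^ 2 + D ^ 2) - 1 =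
        4 * y * E / ((y - E) ^ 2 + D ^ 2) := by
      field_simp
      ring
    rw [e]
    apply div_le_div_of_nonneg_left _ h1 (by nlinarith [sq_nonneg D])
    have : 0 ≤ y := by linarith
    positivity
  have h7 : 4 * y * E / (y - E) ^ 2 = 2 * (2 * y * E / (y - E) ^ 2) := by ring
  linarith

theorem tail_bd (P : Par) (hP : P.Ok) (l : ℝ) (Y0 : ℕ) (hY : (P.eps : ℝ) < Y0)
    (hd : 4 * (P.c1 * P.t1 + P.c2 * P.tau) / Y0 + 8 * P.d * (Y0 * P.eps / ((Y0 : ℝ) - P.eps) ^ 2)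
      ≤ 528 / 100)
    (h0 : PhiL P Y0 ≤ l) : ∀ y : ℝ, (Y0 : ℝ) ≤ y → PhiL P y ≤ l - (y - Y0) := by
  intro y hy
  set q : ℝ := ((P.q : ℕ) : ℝ) with hq
  set A : ℝ := ((P.al : ℕ) : ℝ) with hA
  set T : ℝ := ((P.tau : ℕ) : ℝ) with hT
  set t1 : ℝ := ((P.t1 : ℕ) : ℝ) with ht1
  set E : ℝ := ((P.eps : ℕ) : ℝ) with hE
  have q0 : 0 ≤ q := by rw [hq]; positivity
  have A0 : 0 ≤ A := by rw [hA]; positivity
  have T0 : 0 ≤ T := by rw [hT]; positivity
  have t10 : 0 ≤ t1 := by rw [ht1]; positivity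
  have t1T : t1 ≤ T := by rw [ht1, hT]; exact_mod_cast hP.t1t
  have E0 : 0 ≤ E := by rw [hE]; positivity
  have c10 := hP.c1n
  have c20 := hP.c2n
  have d0 := hP.dn
  have Y0p : (0 : ℝ) < Y0 := lt_of_le_of_lt E0 hY
  set D : ℝ := 2 * A + 2 * T with hD
  have D0 : 0 ≤ D := by positivity
  -- derivative
  let dP : ℝ → ℝ := fun y => -(q * (arctan ((T + 2 * A) / y) - arctan (T / y))) - 2 * π +
    2 * (P.c1 * (arctan (T / y) - arctan ((T - t1) / y) + arctan ((2 * A + T + t1) / y) -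
        arctan ((2 * A + T) / y)) +
      P.c2 * (arctan (T / y) - arctan ((T - T) / y) + arctan ((2 * A + T + T) / y) -
        arctan ((2 * A + T) / y)) +
      P.d * (gg (y + E) 0 - gg (y - E) 0 + gg (y + E) D - gg (y - E) D))
  have hder : ∀ y : ℝ, (Y0 : ℝ) ≤ y → HasDerivAt (fun y => -(PhiL P y) - y) (-(dP y) - 1) y := by
    intro y hy
    have y0 : 0 < y := by linarith
    have hyE : E < y := by linarith
    have b (x : ℝ) : HasDerivAt (fun y => GG x y) (arctan (x / y)) y := hasDerivAt_GG_y y0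
    have c (D' : ℝ) (hD' : 0 ≤ D') (e : ℝ) (he : y + e ≠ 0) :
        HasDerivAt (fun y => GG (y + e) D') (gg (y + e) D') y := by
      have h1 := hasDerivAt_GG_x (x := y + e) hD' (fun _ => he)
      exact HasDerivAt.comp_add_const y e h1
    have hp : y + E ≠ 0 := by have : 0 < y + E := by linarith
                              exact this.ne'
    have hm : y + -E ≠ 0 := by have : 0 < y + -E := by linarith
                               exact this.ne'
    have h1 := ((b (T + 2 * A)).sub (b T)).const_mul q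
    have h2 := (((b T).sub (b (T - t1))).add (b (2 * A + T + t1))).sub (b (2 * A + T))
    have h3 := (((b T).sub (b (T - T))).add (b (2 * A + T + T))).sub (b (2 * A + T))
    have h4 := (((c 0 le_rfl E hp).sub (c 0 le_rfl (-E) hm)).add (c D D0 E hp)).sub (c D D0 (-E) hm)
    have h5 := ((h2.const_mul P.c1).add (h3.const_mul P.c2)).add (h4.const_mul P.d)
    have h6 := (h1.neg.sub ((hasDerivAt_id y).const_mul (2 * π))).add (h5.const_mul 2)
    have h7 := h6.neg.sub (hasDerivAt_id y)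
    refine (h7.congr_deriv ?_).congr_of_eventuallyEq ?_
    · simp only [dP, ← sub_eq_add_neg]
      ring
    · filter_upwards with y
      simp only [PhiL, UL, BL, BLl, Pi.neg_apply, Pi.sub_apply, Pi.add_apply, id,
        ← sub_eq_add_neg, ← hq, ← hA, ← hT, ← ht1, ← hE, ← hD]
  have hneg : ∀ y : ℝ, (Y0 : ℝ) ≤ y → 0 ≤ -(dP y) - 1 := by
    intro y hy
    have y0 : 0 < y := by linarith
    have hyE : E < y := by linarith
    have g1 : arctan (T / y) ≤ arctan ((T + 2 * A) / y) :=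
      arctan_strictMono.monotone (div_le_div_of_nonneg_right (by linarith) y0.le)
    have g1' := mul_nonneg q0 (sub_nonneg.mpr g1)
    have dv (u v : ℝ) (h : v ≤ u) : arctan (u / y) - arctan (v / y) ≤ (u - v) / y := by
      have := arctan_sub_le' (div_le_div_of_nonneg_right h y0.le)
      rw [← sub_div] at this
      exact this
    have g2 := dv T (T - t1) (by linarith)
    have g3 := dv (2 * A + T + t1) (2 * A + T) (by linarith)
    have g4 := dv T (T - T) (by linarith)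
    have g5 := dv (2 * A + T + T) (2 * A + T) (by linarith)
    have g6 := gg_diff_le (D := 0) E0 hyE
    have g7 := gg_diff_le (D := D) E0 hyE
    have m1 := mul_le_mul_of_nonneg_left (add_le_add g2 g3) c10
    have m2 := mul_le_mul_of_nonneg_left (add_le_add g4 g5) c20
    have m3 := mul_le_mul_of_nonneg_left (add_le_add g6 g7) d0
    -- monotonicity in `y`
    have k1 : 4 * (P.c1 * t1 + P.c2 * T) / y ≤ 4 * (P.c1 * t1 + P.c2 * T) / Y0 :=
      div_le_div_of_nonneg_left (by positivity) Y0p hy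
    have k2 : y * E / (y - E) ^ 2 ≤ Y0 * E / ((Y0 : ℝ) - E) ^ 2 := by
      have a1 : 0 < y - E := by linarith
      have a2 : 0 < (Y0 : ℝ) - E := by linarith
      rw [div_le_div_iff₀ (by positivity) (by positivity)]
      have a3 : y * ((Y0 : ℝ) - E) ≤ Y0 * (y - E) := by nlinarith
      have a4 : ((Y0 : ℝ) - E) ≤ y - E := by linarith
      have a5 : y * ((Y0 : ℝ) - E) * (((Y0 : ℝ) - E)) ≤ Y0 * (y - E) * (y - E) :=
        mul_le_mul a3 a4 a2.le (by positivity)
      have a6 := mul_le_mul_of_nonneg_left a5 E0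
      have a7 : y * E * ((Y0 : ℝ) - E) ^ 2 = E * (y * ((Y0 : ℝ) - E) * (((Y0 : ℝ) - E))) := by ring
      have a8 : (Y0 : ℝ) * E * (y - E) ^ 2 = E * (Y0 * (y - E) * (y - E)) := by ring
      rw [a7, a8]
      exact a6
    have k3 := mul_le_mul_of_nonneg_left k2 (by positivity : (0 : ℝ) ≤ 8 * P.d)
    have hpi := pi_gt_d4
    have e1 : P.c1 * ((T - (T - t1)) / y + (2 * A + T + t1 - (2 * A + T)) / y) =
        2 * (P.c1 * t1) / y := by ring
    have e2 : P.c2 * ((T - (T - T)) / y + (2 * A + T + T - (2 * A + T)) / y) =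
        2 * (P.c2 * T) / y := by ring
    have e3 : P.d * (2 * y * E / (y - E) ^ 2 + 2 * y * E / (y - E) ^ 2) =
        4 * P.d * (y * E / (y - E) ^ 2) := by ring
    rw [e1] at m1
    rw [e2] at m2
    rw [e3] at m3
    have e4 : 4 * (P.c1 * t1 + P.c2 * T) / y = 2 * (2 * (P.c1 * t1) / y) +
        2 * (2 * (P.c2 * T) / y) := by ring
    simp only [dP]
    linarith
  have key := le_of_deriv_nonneg (f := fun y => -(PhiL P y) - y) (f' := fun y => -(dP y) - 1)
    (a := Y0) (x := y) hder hneg hy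
  linarith

/-! ## term lists -/

section

variable (q al t1 tau eps C1 C2 Dd den : ℤ)

def TS : List Trm :=
  [⟨q * den + 2 * (C1 + C2), true, 0, 0, true⟩,
   ⟨-(q * den + 2 * (C1 + C2)), true, 2 * al, 0, true⟩,
   ⟨2 * C1, true, t1, 0, false⟩,
   ⟨2 * C2, true, tau, 0, false⟩,
   ⟨2 * C1, true, 2 * al + t1, 0, true⟩,
   ⟨2 * C2, true, 2 * al + tau, 0, true⟩,
   ⟨4 * Dd, false, eps, tau, false⟩,
   ⟨4 * Dd, false, eps, 2 * al + tau, true⟩]

def TUS : List Trm :=
  [⟨-(C1 + C2), true, 0, 0, true⟩,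
   ⟨C1 + C2, true, 2 * al, 0, true⟩,
   ⟨-C1, true, t1, 0, false⟩,
   ⟨-C2, true, tau, 0, false⟩,
   ⟨-C1, true, 2 * al + t1, 0, true⟩,
   ⟨-C2, true, 2 * al + tau, 0, true⟩,
   ⟨-(2 * Dd), false, eps, tau, false⟩,
   ⟨-(2 * Dd), false, eps, 2 * al + tau, true⟩]

def TL : List Trm :=
  [⟨q * den + 2 * (C1 + C2), false, tau, 0, true⟩,
   ⟨-(q * den + 2 * (C1 + C2)), false, 2 * al + tau, 0, true⟩,
   ⟨-(2 * C1), false, tau - t1, 0, true⟩,
   ⟨2 * C1, false, 2 * al + tau + t1, 0, true⟩,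
   ⟨2 * C2, false, 2 * al + 2 * tau, 0, true⟩,
   ⟨2 * Dd, true, eps, 0, true⟩,
   ⟨-(2 * Dd), true, -eps, 0, true⟩,
   ⟨2 * Dd, true, eps, 2 * al + 2 * tau, true⟩,
   ⟨-(2 * Dd), true, -eps, 2 * al + 2 * tau, true⟩]

def TUL : List Trm :=
  [⟨-(C1 + C2), false, tau, 0, true⟩,
   ⟨C1 + C2, false, 2 * al + tau, 0, true⟩,
   ⟨C1, false, tau - t1, 0, true⟩,
   ⟨-C1, false, 2 * al + tau + t1, 0, true⟩,
   ⟨-C2, false, 2 * al + 2 * tau, 0, true⟩,
   ⟨-Dd, true, eps, 0, true⟩,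
   ⟨Dd, true, -eps, 0, true⟩,
   ⟨-Dd, true, eps, 2 * al + 2 * tau, true⟩,
   ⟨Dd, true, -eps, 2 * al + 2 * tau, true⟩]

end

lemma PhiS_eq (P : Par) {C1 C2 Dd den : ℤ} (hden : 0 < den) (h1 : P.c1 = C1 / den)
    (h2 : P.c2 = C2 / den) (h3 : P.d = Dd / den) (s : ℝ) :
    PhiS P s = tval (TS P.q P.al P.t1 P.tau P.eps C1 C2 Dd den) s / den := by
  have hd : (den : ℝ) ≠ 0 := by exact_mod_cast hden.ne'
  rw [eq_div_iff hd]
  simp only [PhiS, US, BS, BSl, h1, h2, h3, TS, tval, Trm.val, sgn, if_true, Bool.false_eq_true,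
    if_false]
  push_cast
  simp only [zero_add, add_zero, one_mul, neg_one_mul, ← sub_eq_add_neg]
  rw [show s + 2 * (P.al : ℝ) = 2 * P.al + s by ring,
    show 2 * (P.al : ℝ) + s + P.t1 = 2 * P.al + P.t1 + s by ring,
    show 2 * (P.al : ℝ) + s + P.tau = 2 * P.al + P.tau + s by ring]
  field_simp
  ring

lemma US_eq (P : Par) {C1 C2 Dd den : ℤ} (hden : 0 < den) (h1 : P.c1 = C1 / den)
    (h2 : P.c2 = C2 / den) (h3 : P.d = Dd / den) (s : ℝ) :
    -US P s = tval (TUS P.al P.t1 P.tau P.eps C1 C2 Dd) s / den := by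
  have hd : (den : ℝ) ≠ 0 := by exact_mod_cast hden.ne'
  rw [eq_div_iff hd]
  simp only [US, BS, BSl, h1, h2, h3, TUS, tval, Trm.val, sgn, if_true, Bool.false_eq_true,
    if_false]
  push_cast
  simp only [zero_add, add_zero, one_mul, neg_one_mul, ← sub_eq_add_neg]
  rw [show 2 * (P.al : ℝ) + s + P.t1 = 2 * P.al + P.t1 + s by ring,
    show 2 * (P.al : ℝ) + s + P.tau = 2 * P.al + P.tau + s by ring]
  field_simp
  ring

lemma PhiL_eq (P : Par) {C1 C2 Dd den : ℤ} (hden : 0 < den) (h1 : P.c1 = C1 / den)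
    (h2 : P.c2 = C2 / den) (h3 : P.d = Dd / den) (s : ℝ) :
    PhiL P s = tval (TL P.q P.al P.t1 P.tau P.eps C1 C2 Dd den) s / den - 2 * π * s := by
  have hd : (den : ℝ) ≠ 0 := by exact_mod_cast hden.ne'
  rw [eq_sub_iff_add_eq, eq_div_iff hd]
  simp only [PhiL, UL, BL, BLl, h1, h2, h3, TL, tval, Trm.val, sgn, if_true, Bool.false_eq_true,
    if_false]
  push_cast
  simp only [zero_add, add_zero, one_mul, sub_self, GG_zero_left]
  rw [show (P.tau : ℝ) + 2 * P.al = 2 * P.al + P.tau by ring,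
    show s + (P.eps : ℝ) = P.eps + s by ring,
    show s - (P.eps : ℝ) = -P.eps + s by ring,
    show 2 * (P.al : ℝ) + P.tau + P.tau = 2 * P.al + 2 * P.tau by ring]
  field_simp
  ring

lemma UL_eq (P : Par) {C1 C2 Dd den : ℤ} (hden : 0 < den) (h1 : P.c1 = C1 / den)
    (h2 : P.c2 = C2 / den) (h3 : P.d = Dd / den) (s : ℝ) :
    -UL P s = tval (TUL P.al P.t1 P.tau P.eps C1 C2 Dd) s / den := by
  have hd : (den : ℝ) ≠ 0 := by exact_mod_cast hden.ne'
  rw [eq_div_iff hd]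
  simp only [UL, BL, BLl, h1, h2, h3, TUL, tval, Trm.val, sgn, if_true, Bool.false_eq_true,
    if_false]
  push_cast
  simp only [zero_add, add_zero, one_mul, sub_self, GG_zero_left]
  rw [show s + (P.eps : ℝ) = P.eps + s by ring,
    show s - (P.eps : ℝ) = -P.eps + s by ring,
    show 2 * (P.al : ℝ) + P.tau + P.tau = 2 * P.al + 2 * P.tau by ring]
  field_simp
  ring

end Num

end Z579
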