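import Pool.Agent.Lib.Z579.T3T2b
import Pool.Agent.Lib.Z579.E6U1
import Pool.Agent.Lib.Z579.E6U24
import Pool.Agent.Lib.Z579.E6U3
import Pool.Agent.Lib.Z579.E6W1
import Pool.Agent.Lib.Z579.E6W2

/-!
# At least one of `ζ(9), ζ(11), ζ(13), ζ(15), ζ(17), ζ(19), ζ(21)` is irrational
-/

namespace Pool.Agent.Lib.Z579.OneOf9to21

open Z579.EM in
/-- At least one of `ζ(9)`, `ζ(11)`, `ζ(13)`, `ζ(15)`, `ζ(17)`, `ζ(19)`, `ζ(21)` is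
irrational. -/
theorem result :
    Irrational (∑' n : ℕ, 1 / ((n : ℝ) + 1) ^ 9) ∨ Irrational (∑' n : ℕ, 1 / ((n : ℝ) + 1) ^ 11) ∨
    Irrational (∑' n : ℕ, 1 / ((n : ℝ) + 1) ^ 13) ∨ Irrational (∑' n : ℕ, 1 / ((n : ℝ) + 1) ^ 15) ∨
    Irrational (∑' n : ℕ, 1 / ((n : ℝ) + 1) ^ 17) ∨ Irrational (∑' n : ℕ, 1 / ((n : ℝ) + 1) ^ 19) ∨
    Irrational (∑' n : ℕ, 1 / ((n : ℝ) + 1) ^ 21) :=
  one_of_T2 u1 u2 u3 u4 w1 w2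

end Pool.Agent.Lib.Z579.OneOf9to21
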