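import Pool.Agent.Lib.Z579.M1

/-!
# The purely real identity `L[G] = ∑_{t ≥ 0} [x^r] (R(a+t+x) G((a+t+x)^2))`
-/

open MeasureTheory Filter Topology Polynomial Finset

namespace Z579

/-- the rational realisation `z` may be replaced by the true zeta values -/
theorem sum_z_eq {r q B a b : ℕ} {z : ℕ → ℚ} (G : ℚ[X]) (hr : Even r) (hq : Even q)
    (ha : 1 ≤ a) (hab : a ≤ b)
    (hdeg : 2 * B * (b - a) + 2 * G.natDegree + 3 ≤ q * (2 * a - 1)) (hz : IsZ r q z) :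
    ∑ u ∈ pc a, ∑ i ∈ Finset.Icc 1 q, (Nat.choose (i + r - 1) r : ℝ) *
        (Acoef q B a b u i G : ℝ) * (z (i + r) : ℝ) =
        ∑ u ∈ pc a, ∑ i ∈ Finset.Icc 1 q, (Nat.choose (i + r - 1) r : ℝ) *
        (Acoef q B a b u i G : ℝ) * zr (i + r) := by
  rw [Finset.sum_comm, Finset.sum_comm (s := pc a)]
  refine Finset.sum_congr rfl fun i hi => ?_
  rw [Finset.mem_Icc] at hi
  rw [← Finset.sum_mul, ← Finset.sum_mul, ← Finset.mul_sum]
  rcases Nat.even_or_odd i with he | ho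
  · have := sum_Acoef_even (B := B) (b := b) ha hq hi.2 he G
    have h7 : ∑ u ∈ pc a, (Acoef q B a b u i G : ℝ) = 0 := by exact_mod_cast this
    rw [h7]; simp
  · by_cases h1 : i = 1
    · subst h1
      have := sum_Acoef_one (q := q) (B := B) ha hab (by omega) G hdeg
      have h7 : ∑ u ∈ pc a, (Acoef q B a b u 1 G : ℝ) = 0 := by exact_mod_cast this
      rw [h7]; simp
    · congr 1
      rw [hz, if_pos]
      obtain ⟨m, hm⟩ := ho
      obtain ⟨r', hr'⟩ := hr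
      obtain ⟨q', hq'⟩ := hq
      refine ⟨⟨m + r', by omega⟩, by omega, by omega⟩

/-- (REAL) the real identity, `HasSum` form -/
theorem hasSum_Lw {r q B a b : ℕ} {z : ℕ → ℚ} (G : ℚ[X]) (hr : Even r) (hr2 : 2 ≤ r)
    (hq : Even q) (ha : 1 ≤ a) (hab : a ≤ b)
    (hdeg : 2 * B * (b - a) + 2 * G.natDegree + 3 ≤ q * (2 * a - 1)) (hz : IsZ r q z) :
    HasSum (fun t : ℕ => ((PowerSeries.coeff r (Tser q B a b ((a : ℤ) + t) G) : ℚ) : ℝ))
      ((Lw r q B a b (wt r a 1 z) G : ℚ) : ℝ) := by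
  have hdeg2 : 2 * B * (b - a) + 2 * G.natDegree + 2 ≤ q * (2 * a - 1) := by omega
  have hterm : ∀ u ∈ pc a, ∀ i ∈ Finset.Icc 1 q, HasSum
      (fun t : ℕ => (Nat.choose (i + r - 1) r : ℝ) * (Acoef q B a b u i G : ℝ) *
        (1 / ((t : ℝ) + (((a : ℤ) + u).toNat : ℕ)) ^ (i + r)))
      ((Nat.choose (i + r - 1) r : ℝ) * (Acoef q B a b u i G : ℝ) *
        (zr (i + r) - (Hs (i + r) ((a : ℤ) + u - 1).toNat : ℝ))) := by
    intro u hu i hi
    rw [Finset.mem_Icc] at hi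
    rw [mem_pc] at hu
    have h1 := tsum_tail (s := i + r) (k := ((a : ℤ) + u).toNat) (by omega) (by omega)
    have e : ((a : ℤ) + u).toNat - 1 = ((a : ℤ) + u - 1).toNat := by omega
    rw [e] at h1
    rw [← h1]
    refine (Summable.hasSum ?_).mul_left _
    have h2 := (summable_nat_add_iff (((a : ℤ) + u).toNat - 1)).2
      (summable_zr (s := i + r) (by omega))
    refine h2.congr fun t => ?_
    have h3 : (((((a : ℤ) + u).toNat - 1 : ℕ)) : ℝ) = ((((a : ℤ) + u).toNat : ℕ) : ℝ) - 1 := by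
      rw [Nat.cast_sub (by omega)]; simp
    push_cast
    rw [h3]
    congr 2
    ring
  have hsum := hasSum_sum (s := pc a) fun u hu => hasSum_sum (s := Finset.Icc 1 q) fun i hi =>
    hterm u hu i hi
  have hval : ∑ u ∈ pc a, ∑ i ∈ Finset.Icc 1 q, (Nat.choose (i + r - 1) r : ℝ) *
      (Acoef q B a b u i G : ℝ) * (zr (i + r) - (Hs (i + r) ((a : ℤ) + u - 1).toNat : ℝ)) =
      ((Lw r q B a b (wt r a 1 z) G : ℚ) : ℝ) := by
    rw [Lw_apply]
    simp only [mul_sub, Finset.sum_sub_distrib]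
    rw [← sum_z_eq G hr hq ha hab hdeg hz, ← Finset.sum_sub_distrib]
    push_cast
    refine Finset.sum_congr rfl fun u _ => ?_
    rw [← Finset.sum_sub_distrib]
    refine Finset.sum_congr rfl fun i _ => ?_
    have e : u + (a : ℤ) - 1 = (a : ℤ) + u - 1 := by ring
    rw [wt, e]
    push_cast
    ring
  rw [hval] at hsum
  have hfun : (fun t : ℕ => ((PowerSeries.coeff r (Tser q B a b ((a : ℤ) + t) G) : ℚ) : ℝ)) =
      fun t : ℕ => ∑ u ∈ pc a, ∑ i ∈ Finset.Icc 1 q, (Nat.choose (i + r - 1) r : ℝ) *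
        (Acoef q B a b u i G : ℝ) * (1 / ((t : ℝ) + (((a : ℤ) + u).toNat : ℕ)) ^ (i + r)) := by
    funext t
    rw [coeff_Tser ha hab G hdeg2 _ (fun u hu => by rw [mem_pc] at hu; omega), hr.neg_one_pow]
    push_cast
    refine Finset.sum_congr rfl fun u hu => Finset.sum_congr rfl fun i _ => ?_
    rw [mem_pc] at hu
    have h3 : ((((a : ℤ) + u).toNat : ℕ) : ℝ) = (a : ℝ) + u := by
      have h4 : ((((a : ℤ) + u).toNat : ℕ) : ℤ) = (a : ℤ) + u := Int.toNat_of_nonneg (by omega)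
      exact_mod_cast h4
    rw [h3]
    have e : (t : ℝ) + ((a : ℝ) + u) = (a : ℝ) + t + u := by ring
    rw [e, one_mul, mul_one_div]
  rw [hfun]
  exact hsum

/-- (REAL) the real identity, `tsum` form -/
theorem Lw_eq_tsum {r q B a b : ℕ} {z : ℕ → ℚ} (G : ℚ[X]) (hr : Even r) (hr2 : 2 ≤ r)
    (hq : Even q) (ha : 1 ≤ a) (hab : a ≤ b)
    (hdeg : 2 * B * (b - a) + 2 * G.natDegree + 3 ≤ q * (2 * a - 1)) (hz : IsZ r q z) :
    ((Lw r q B a b (wt r a 1 z) G : ℚ) : ℝ) =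
      ∑' t : ℕ, ((PowerSeries.coeff r (Tser q B a b ((a : ℤ) + t) G) : ℚ) : ℝ) :=
  (hasSum_Lw G hr hr2 hq ha hab hdeg hz).tsum_eq.symm

end Z579
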