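import Pool.Agent.Lib.Z579.M0

/-!
# Reduction modulo `p` of `p`-integral rationals and power series
-/

open Polynomial Finset

namespace Z579

section
variable (p : ℕ) [hp : Fact p.Prime]

/-- `x` is `p`-integral with residue `y` -/
def red (x : ℚ) (y : ZMod p) : Prop :=
  ∃ X : ℤ_[p], (X : ℚ_[p]) = (x : ℚ_[p]) ∧ PadicInt.toZMod X = y

variable {p}

lemma red_add {x x' : ℚ} {y y' : ZMod p} (h : red p x y) (h' : red p x' y') :
    red p (x + x') (y + y') := by
  obtain ⟨X, h1, h2⟩ := h
  obtain ⟨X', h1', h2'⟩ := h'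
  refine ⟨X + X', ?_, ?_⟩
  · push_cast; rw [h1, h1']
  · rw [map_add, h2, h2']

lemma red_mul {x x' : ℚ} {y y' : ZMod p} (h : red p x y) (h' : red p x' y') :
    red p (x * x') (y * y') := by
  obtain ⟨X, h1, h2⟩ := h
  obtain ⟨X', h1', h2'⟩ := h'
  refine ⟨X * X', ?_, ?_⟩
  · push_cast; rw [h1, h1']
  · rw [map_mul, h2, h2']

lemma red_int (n : ℤ) : red p (n : ℚ) (n : ZMod p) := by
  refine ⟨(n : ℤ_[p]), ?_, ?_⟩
  · push_cast; rfl
  · simp

lemma red_nat (n : ℕ) : red p (n : ℚ) (n : ZMod p) := by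
  have := red_int (p := p) (n : ℤ)
  simpa using this

lemma red_zero : red p 0 0 := by simpa using red_int (p := p) 0

lemma red_one : red p 1 1 := by simpa using red_int (p := p) 1

lemma red_neg {x : ℚ} {y : ZMod p} (h : red p x y) : red p (-x) (-y) := by
  have := red_mul (red_int (p := p) (-1)) h
  simpa using this

lemma red_sub {x x' : ℚ} {y y' : ZMod p} (h : red p x y) (h' : red p x' y') :
    red p (x - x') (y - y') := by
  rw [sub_eq_add_neg, sub_eq_add_neg]
  exact red_add h (red_neg h')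

lemma red_pow {x : ℚ} {y : ZMod p} (h : red p x y) (n : ℕ) : red p (x ^ n) (y ^ n) := by
  induction n with
  | zero => simpa using red_one
  | succ n ih => rw [pow_succ, pow_succ]; exact red_mul ih h

lemma red_sum {ι : Type*} (s : Finset ι) (f : ι → ℚ) (g : ι → ZMod p)
    (h : ∀ i ∈ s, red p (f i) (g i)) : red p (∑ i ∈ s, f i) (∑ i ∈ s, g i) := by
  classical
  induction s using Finset.induction_on with
  | empty => simpa using red_zero
  | insert i s hi ih =>
    rw [Finset.sum_insert hi, Finset.sum_insert hi]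
    exact red_add (h i (Finset.mem_insert_self i s))
      (ih fun j hj => h j (Finset.mem_insert_of_mem hj))

lemma red_prod {ι : Type*} (s : Finset ι) (f : ι → ℚ) (g : ι → ZMod p)
    (h : ∀ i ∈ s, red p (f i) (g i)) : red p (∏ i ∈ s, f i) (∏ i ∈ s, g i) := by
  classical
  induction s using Finset.induction_on with
  | empty => simpa using red_one
  | insert i s hi ih =>
    rw [Finset.prod_insert hi, Finset.prod_insert hi]
    exact red_mul (h i (Finset.mem_insert_self i s))
      (ih fun j hj => h j (Finset.mem_insert_of_mem hj))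

lemma red_unique {x : ℚ} {y y' : ZMod p} (h : red p x y) (h' : red p x y') : y = y' := by
  obtain ⟨X, h1, h2⟩ := h
  obtain ⟨X', h1', h2'⟩ := h'
  have : X = X' := by
    apply Subtype.ext
    exact h1.trans h1'.symm
  rw [← h2, ← h2', this]

lemma isUnit_of_toZMod {X : ℤ_[p]} (h : PadicInt.toZMod X ≠ 0) : IsUnit X := by
  by_contra hX
  apply h
  have h1 : X ∈ IsLocalRing.maximalIdeal ℤ_[p] := (IsLocalRing.mem_maximalIdeal X).2 hX
  rw [← PadicInt.ker_toZMod] at h1
  exact h1

lemma red_inv {x : ℚ} {y : ZMod p} (h : red p x y) (hy : y ≠ 0) : red p x⁻¹ y⁻¹ := by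
  obtain ⟨X, h1, h2⟩ := h
  have hu : IsUnit X := isUnit_of_toZMod (by rw [h2]; exact hy)
  obtain ⟨U, rfl⟩ := hu
  refine ⟨((U⁻¹ : (ℤ_[p])ˣ) : ℤ_[p]), ?_, ?_⟩
  · have h3 : ((U : ℤ_[p]) : ℚ_[p]) * (((U⁻¹ : (ℤ_[p])ˣ) : ℤ_[p]) : ℚ_[p]) = 1 := by
      rw [← PadicInt.coe_mul, Units.mul_inv]; rfl
    rw [h1] at h3
    push_cast
    exact eq_inv_of_mul_eq_one_right h3
  · have h3 : PadicInt.toZMod (U : ℤ_[p]) * PadicInt.toZMod ((U⁻¹ : (ℤ_[p])ˣ) : ℤ_[p]) = 1 := by
      rw [← map_mul, Units.mul_inv, map_one]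
    rw [h2] at h3
    exact eq_inv_of_mul_eq_one_right h3

lemma red_p : red p (p : ℚ) 0 := by simpa using red_nat (p := p) p

lemma VG_iff {c : ℤ} {x : ℚ} :
    VG p (c : ℝ) x ↔ ‖(x : ℚ_[p])‖ ≤ (p : ℝ) ^ (-c) := by
  unfold VG
  constructor
  · rintro (h | h)
    · rw [h]; simp; positivity
    · by_cases hx : x = 0
      · rw [hx]; simp; positivity
      · rw [Padic.eq_padicNorm, padicNorm.eq_zpow_of_nonzero hx]
        push_cast
        have h' : c ≤ padicValRat p x := by exact_mod_cast h
        apply zpow_le_zpow_right₀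
        · exact_mod_cast hp.out.one_lt.le
        · linarith
  · intro h
    by_cases hx : x = 0
    · exact Or.inl hx
    · right
      rw [Padic.eq_padicNorm, padicNorm.eq_zpow_of_nonzero hx] at h
      push_cast at h
      have h1 : -padicValRat p x ≤ -c := by
        rwa [zpow_le_zpow_iff_right₀ (by exact_mod_cast hp.out.one_lt)] at h
      have : c ≤ padicValRat p x := by linarith
      exact_mod_cast this

lemma exists_red {x : ℚ} (h : VG p 0 x) : ∃ y, red p x y := by
  have h1 : ‖(x : ℚ_[p])‖ ≤ 1 := by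
    have := (VG_iff (p := p) (c := 0) (x := x)).1 (by simpa using h)
    simpa using this
  exact ⟨PadicInt.toZMod ⟨(x : ℚ_[p]), h1⟩, ⟨(x : ℚ_[p]), h1⟩, rfl, rfl⟩

lemma red_VG {x : ℚ} {y : ZMod p} (h : red p x y) : VG p 0 x := by
  obtain ⟨X, h1, h2⟩ := h
  have := (VG_iff (p := p) (c := 0) (x := x)).2 (by rw [← h1]; simpa using X.2)
  simpa using this

lemma red_p_mul {x : ℚ} {y : ZMod p} (h : red p x y) : red p (p * x) 0 := by
  simpa using red_mul red_p h

lemma red_ppow_mul {x : ℚ} {y : ZMod p} (h : red p x y) {n : ℕ} (hn : n ≠ 0) :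
    red p ((p : ℚ) ^ n * x) 0 := by
  have := red_mul (red_pow (red_p (p := p)) n) h
  simpa [hn] using this

/-- a rational number with zero residue is divisible by `p` -/
lemma dvd_num_of_red_zero {x : ℚ} (h : red p x 0) : (p : ℤ) ∣ x.num := by
  obtain ⟨X, h1, h2⟩ := h
  have h3 : X ∈ RingHom.ker (PadicInt.toZMod (p := p)) := h2
  rw [PadicInt.ker_toZMod, PadicInt.maximalIdeal_eq_span_p, Ideal.mem_span_singleton] at h3
  obtain ⟨Y, hY⟩ := h3
  have h4 : ‖(x : ℚ_[p])‖ ≤ (p : ℝ) ^ (-(1 : ℤ)) := by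
    rw [← h1, hY]
    push_cast
    rw [norm_mul, Padic.norm_p, zpow_neg, zpow_one]
    have := Y.2
    have hp0 : (0 : ℝ) ≤ (p : ℝ)⁻¹ := by positivity
    calc (p : ℝ)⁻¹ * ‖(Y : ℚ_[p])‖ ≤ (p : ℝ)⁻¹ * 1 := mul_le_mul_of_nonneg_left this hp0
      _ = _ := by ring
  have h5 := (VG_iff (p := p) (c := 1) (x := x)).2 h4
  rcases h5 with h5 | h5
  · rw [h5]; simp
  · have h6 : (1 : ℤ) ≤ padicValRat p x := by exact_mod_cast h5
    rw [padicValRat] at h6
    have h7 : 1 ≤ padicValInt p x.num := by omega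
    have : (p : ℤ) ^ 1 ∣ x.num := by
      rw [padicValInt_dvd_iff]
      right; exact h7
    simpa using this

end

/-! ### power series -/

section
variable (p : ℕ) [hp : Fact p.Prime]

/-- coefficientwise reduction of power series -/
def Red (f : PowerSeries ℚ) (g : PowerSeries (ZMod p)) : Prop :=
  ∀ n, red p (PowerSeries.coeff n f) (PowerSeries.coeff n g)

variable {p}

lemma Red_mul {f f' : PowerSeries ℚ} {g g' : PowerSeries (ZMod p)} (h : Red p f g)
    (h' : Red p f' g') : Red p (f * f') (g * g') := by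
  intro n
  rw [PowerSeries.coeff_mul, PowerSeries.coeff_mul]
  exact red_sum _ _ _ fun x _ => red_mul (h _) (h' _)

lemma Red_add {f f' : PowerSeries ℚ} {g g' : PowerSeries (ZMod p)} (h : Red p f g)
    (h' : Red p f' g') : Red p (f + f') (g + g') := by
  intro n
  rw [map_add, map_add]
  exact red_add (h n) (h' n)

lemma Red_C {x : ℚ} {y : ZMod p} (h : red p x y) :
    Red p (PowerSeries.C x) (PowerSeries.C y) := by
  intro n
  rw [PowerSeries.coeff_C, PowerSeries.coeff_C]
  split_ifs
  · exact h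
  · exact red_zero

lemma Red_one : Red p 1 1 := by
  have := Red_C (red_one (p := p))
  simpa using this

lemma Red_X : Red p PowerSeries.X PowerSeries.X := by
  intro n
  rw [PowerSeries.coeff_X, PowerSeries.coeff_X]
  split_ifs
  · exact red_one
  · exact red_zero

lemma Red_pow {f : PowerSeries ℚ} {g : PowerSeries (ZMod p)} (h : Red p f g) (n : ℕ) :
    Red p (f ^ n) (g ^ n) := by
  induction n with
  | zero => simpa using Red_one
  | succ n ih => rw [pow_succ, pow_succ]; exact Red_mul ih h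

lemma Red_prod {ι : Type*} (s : Finset ι) (f : ι → PowerSeries ℚ) (g : ι → PowerSeries (ZMod p))
    (h : ∀ i ∈ s, Red p (f i) (g i)) : Red p (∏ i ∈ s, f i) (∏ i ∈ s, g i) := by
  classical
  induction s using Finset.induction_on with
  | empty => simpa using Red_one
  | insert i s hi ih =>
    rw [Finset.prod_insert hi, Finset.prod_insert hi]
    exact Red_mul (h i (Finset.mem_insert_self i s))
      (ih fun j hj => h j (Finset.mem_insert_of_mem hj))

lemma Red_inv {f : PowerSeries ℚ} {g : PowerSeries (ZMod p)} (h : Red p f g)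
    (hg : PowerSeries.constantCoeff g ≠ 0) : Red p f⁻¹ g⁻¹ := by
  have h0 : red p (PowerSeries.constantCoeff f) (PowerSeries.constantCoeff g) := by
    have := h 0
    simpa using this
  intro n
  induction n using Nat.strong_induction_on with
  | _ n ih =>
    rw [PowerSeries.coeff_inv, PowerSeries.coeff_inv]
    split_ifs with hn
    · exact red_inv h0 hg
    · refine red_mul (red_neg (red_inv h0 hg)) (red_sum _ _ _ fun x _ => ?_)
      split_ifs with hx
      · exact red_mul (h _) (ih _ hx)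
      · exact red_zero

end

end Z579
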