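import Pool.Agent.Lib.Z579.T3T2

/-!
# `{7, 9, 11, 13, 15}` and `{9, 11, ..., 21}`: the statements
-/

namespace Z579

namespace EM

theorem one_of_T3 (hU1 : U1) (hU2 : U2) (hU3 : U3) (hU4 : U4) (hW1 : W1) (hW2 : W2) :
    Irrational (∑' n : ℕ, 1 / ((n : ℝ) + 1) ^ 7) ∨ Irrational (∑' n : ℕ, 1 / ((n : ℝ) + 1) ^ 9) ∨
    Irrational (∑' n : ℕ, 1 / ((n : ℝ) + 1) ^ 11) ∨ Irrational (∑' n : ℕ, 1 / ((n : ℝ) + 1) ^ 13) ∨
    Irrational (∑' n : ℕ, 1 / ((n : ℝ) + 1) ^ 15) := by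
  by_contra hcon
  simp only [not_or] at hcon
  obtain ⟨h7, h9, h11, h13, h15⟩ := hcon
  obtain ⟨z, hz⟩ := isZ_of_not_irrational (r := 4) (q := 12) (by
    intro s hs h1 h2
    obtain ⟨k, rfl⟩ := hs
    have h3 : k = 3 ∨ k = 4 ∨ k = 5 ∨ k = 6 ∨ k = 7 := by omega
    rcases h3 with rfl | rfl | rfl | rfl | rfl
    · exact h7
    · exact h9
    · exact h11
    · exact h13
    · exact h15)
  exact no_z_T3 hU1 hU2 hU3 hU4 hW1 hW2 z hz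

theorem one_of_T2 (hU1 : U1) (hU2 : U2) (hU3 : U3) (hU4 : U4) (hW1 : W1) (hW2 : W2) :
    Irrational (∑' n : ℕ, 1 / ((n : ℝ) + 1) ^ 9) ∨ Irrational (∑' n : ℕ, 1 / ((n : ℝ) + 1) ^ 11) ∨
    Irrational (∑' n : ℕ, 1 / ((n : ℝ) + 1) ^ 13) ∨ Irrational (∑' n : ℕ, 1 / ((n : ℝ) + 1) ^ 15) ∨
    Irrational (∑' n : ℕ, 1 / ((n : ℝ) + 1) ^ 17) ∨ Irrational (∑' n : ℕ, 1 / ((n : ℝ) + 1) ^ 19) ∨
    Irrational (∑' n : ℕ, 1 / ((n : ℝ) + 1) ^ 21) := by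
  by_contra hcon
  simp only [not_or] at hcon
  obtain ⟨h9, h11, h13, h15, h17, h19, h21⟩ := hcon
  obtain ⟨z, hz⟩ := isZ_of_not_irrational (r := 6) (q := 16) (by
    intro s hs h1 h2
    obtain ⟨k, rfl⟩ := hs
    have h3 : k = 4 ∨ k = 5 ∨ k = 6 ∨ k = 7 ∨ k = 8 ∨ k = 9 ∨ k = 10 := by omega
    rcases h3 with rfl | rfl | rfl | rfl | rfl | rfl | rfl
    · exact h9
    · exact h11
    · exact h13
    · exact h15
    · exact h17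
    · exact h19
    · exact h21)
  exact no_z_T2 hU1 hU2 hU3 hU4 hW1 hW2 z hz

end EM

end Z579
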